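import Pool.Agent.Lib.MP_181146_gt.HE.SpecS

/-!
# Project HE: the Alexander-Whitney map is a chain map
-/

set_option autoImplicit false

namespace HEp

open scoped TensorProduct

open Finset (range)

private def ad_s (l t : ℕ) : ℕ := if t < l then t else t + 1

private lemma ad_succAbove {p : ℕ} (l : Fin (p + 2)) (t : Fin (p + 1)) :
    ((l.succAbove t : Fin (p + 2)) : ℕ) = ad_s l t := by
  unfold ad_s
  by_cases h : t.castSucc < l
  · have h1 : (t : ℕ) < l := h
    rw [Fin.succAbove_of_castSucc_lt _ _ h, if_pos h1]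
    rfl
  · have h1 : ¬ (t : ℕ) < l := h
    rw [Fin.succAbove_of_le_castSucc _ _ (not_lt.1 h), if_neg h1]
    rfl

private lemma ad_s_le {l t m : ℕ} (h : t ≤ m) : ad_s l t ≤ m + 1 := by
  unfold ad_s
  split_ifs <;> omega

section

variable (k : Type) [CommRing k] (K : SS)

private noncomputable def ad_F {n : ℕ} (x : K.K n) (p : ℕ) (u : ℕ → ℕ) : Ch k K :=
  sx k (K.act (fun t : Fin (p + 1) => Fin.ofNat (n + 1) (u t)) x)

private lemma ad_F_congr {n : ℕ} (x : K.K n) {p : ℕ} {u v : ℕ → ℕ} (h : ∀ t, t ≤ p → u t = v t) :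
    ad_F k K x p u = ad_F k K x p v := by
  have h1 : (fun t : Fin (p + 1) => Fin.ofNat (n + 1) (u t)) =
      (fun t : Fin (p + 1) => Fin.ofNat (n + 1) (v t)) := by
    funext t
    rw [h t (Nat.lt_succ_iff.1 t.2)]
  rw [ad_F, ad_F, h1]

private lemma ad_face {n : ℕ} (x : K.K n) (p : ℕ) (u : ℕ → ℕ) :
    bd k K (ad_F k K x (p + 1) u) =
      ∑ l ∈ range (p + 2), (-1 : k) ^ l • ad_F k K x p (fun t => u (ad_s l t)) := by
  rw [ad_F, bd_sx,
    ← Fin.sum_univ_eq_sum_range (fun l => (-1 : k) ^ l • ad_F k K x p (fun t => u (ad_s l t)))]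
  refine Finset.sum_congr rfl fun l _ => ?_
  rw [K.act_comp, ad_F]
  have h1 : (fun t : Fin (p + 1 + 1) => Fin.ofNat (n + 1) (u t)) ∘ l.succAbove =
      (fun t : Fin (p + 1) => Fin.ofNat (n + 1) (u (ad_s l t))) := by
    funext t
    rw [Function.comp_apply, ad_succAbove]
  rw [h1]

private lemma ad_res {m : ℕ} (x : K.K (m + 1)) (l : Fin (m + 2)) (p : ℕ) (u : ℕ → ℕ)
    (hu : ∀ t, t ≤ p → u t ≤ m) :
    ad_F k K (K.act l.succAbove x) p u = ad_F k K x p (fun t => ad_s l (u t)) := by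
  rw [ad_F, K.act_comp, ad_F]
  have h1 : l.succAbove ∘ (fun t : Fin (p + 1) => Fin.ofNat (m + 1) (u t)) =
      (fun t : Fin (p + 1) => Fin.ofNat (m + 1 + 1) (ad_s l (u t))) := by
    funext t
    have h2 := hu t (Nat.lt_succ_iff.1 t.2)
    apply Fin.ext
    rw [Function.comp_apply, ad_succAbove]
    change ad_s l (u t % (m + 1)) = ad_s l (u t) % (m + 1 + 1)
    rw [Nat.mod_eq_of_lt (Nat.lt_succ_of_le h2), Nat.mod_eq_of_lt (Nat.lt_succ_of_le (ad_s_le h2))]
  rw [h1]

private lemma ad_sg {p : ℕ} (a : K.K p) :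
    (chDG k K).sg (sx k a) = (-1 : k) ^ p • sx k a := by
  have h1 : (chDG k K).sg (sx k a) = sx k a - (2 : k) • od k K (sx k a) := rfl
  rw [h1, od_sx]
  by_cases hp : Odd p
  · rw [if_pos hp, hp.neg_one_pow]
    module
  · rw [if_neg hp, (Nat.not_odd_iff_even.1 hp).neg_one_pow, smul_zero, sub_zero, one_smul]

end

section

variable (k : Type) [CommRing k] (K L : SS)

private lemma ad_aw_sx {n : ℕ} (z : (K.prod L).K n) :
    aw k K L (sx k z) = ∑ p ∈ Finset.HasAntidiagonal.antidiagonal n,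
      sx k (K.act (fr p.1 n) z.1) ⊗ₜ[k] sx k (L.act (bk p.1 p.2 n) z.2) := by
  rw [aw, sx, Finsupp.linearCombination_single, one_smul]

private lemma ad_tensd (a : Ch k K) (b : Ch k L) :
    ((chDG k K).tens (chDG k L)).d (a ⊗ₜ b) =
      bd k K a ⊗ₜ[k] b + (chDG k K).sg a ⊗ₜ[k] bd k L b := rfl

/-- The terms of a pair `(i, j)`, written with a function `f` of the index of the face. -/
private lemma ad_sum {M : Type} [AddCommGroup M] [Module k M] (i j : ℕ) (a b : ℕ → M)
    (h : a (i + 1) = b 0) :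
    ∑ l ∈ range (i + 1), (-1 : k) ^ l • a l +
        ∑ l ∈ range (j + 1), (-1 : k) ^ (i + 1 + l) • b (l + 1) =
      ∑ l ∈ range (i + 2), (-1 : k) ^ l • a l +
        (-1 : k) ^ i • ∑ l ∈ range (j + 2), (-1 : k) ^ l • b l := by
  rw [Finset.sum_range_succ (fun l => (-1 : k) ^ l • a l) (i + 1),
    Finset.sum_range_succ' (fun l => (-1 : k) ^ l • b l) (j + 1), smul_add, Finset.smul_sum, h]
  have h1 : ∀ l ∈ range (j + 1), (-1 : k) ^ i • (-1 : k) ^ (l + 1) • b (l + 1) =
      (-1 : k) ^ (i + 1 + l) • b (l + 1) := by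
    intro l _
    rw [smul_smul, ← pow_add]
    congr 2
    omega
  rw [Finset.sum_congr rfl h1, pow_zero, one_smul, pow_succ]
  module

private lemma ad_term {m : ℕ} (x : K.K (m + 1)) (y : L.K (m + 1)) (i j : ℕ) (hij : i + j = m) :
    ∑ l : Fin (m + 2), (-1 : k) ^ (l : ℕ) •
        (sx k (K.act (fr i m) (K.act l.succAbove x)) ⊗ₜ[k]
          sx k (L.act (bk i j m) (L.act l.succAbove y))) =
      bd k K (sx k (K.act (fr (i + 1) (m + 1)) x)) ⊗ₜ[k] sx k (L.act (bk (i + 1) j (m + 1)) y) +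
        (chDG k K).sg (sx k (K.act (fr i (m + 1)) x)) ⊗ₜ[k]
          bd k L (sx k (L.act (bk i (j + 1) (m + 1)) y)) := by
  have hL : ∀ l : Fin (m + 2), (-1 : k) ^ (l : ℕ) •
        (sx k (K.act (fr i m) (K.act l.succAbove x)) ⊗ₜ[k]
          sx k (L.act (bk i j m) (L.act l.succAbove y))) =
      (fun l : ℕ => (-1 : k) ^ l • (ad_F k K x i (ad_s l) ⊗ₜ[k]
        ad_F k L y j (fun t => ad_s l (i + t)))) l := by
    intro l
    have h1 := ad_res k K x l i (fun t => t) (fun t ht => by omega)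
    have h2 := ad_res k L y l j (fun t => i + t) (fun t ht => by omega)
    exact congrArg₂ (fun a b => (-1 : k) ^ (l : ℕ) • (a ⊗ₜ[k] b)) h1 h2
  have hA : bd k K (sx k (K.act (fr (i + 1) (m + 1)) x)) =
      ∑ l ∈ range (i + 2), (-1 : k) ^ l • ad_F k K x i (ad_s l) := ad_face k K x i (fun t => t)
  have hB : bd k L (sx k (L.act (bk i (j + 1) (m + 1)) y)) =
      ∑ l ∈ range (j + 2), (-1 : k) ^ l • ad_F k L y j (fun t => i + ad_s l t) :=
    ad_face k L y j (fun t => i + t)
  have hG : sx k (L.act (bk (i + 1) j (m + 1)) y) = ad_F k L y j (fun t => i + 1 + t) := rfl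
  have hF : sx k (K.act (fr i (m + 1)) x) = ad_F k K x i (fun t => t) := rfl
  refine (Finset.sum_congr rfl (fun l _ => hL l)).trans ?_
  refine Eq.trans (Fin.sum_univ_eq_sum_range (α := Ch k K ⊗[k] Ch k L) (fun l : ℕ =>
    (-1 : k) ^ l • (ad_F k K x i (ad_s l) ⊗ₜ[k] ad_F k L y j (fun t => ad_s l (i + t))))
    (m + 2)) ?_
  rw [hA, hB, ad_sg, hG, hF, TensorProduct.sum_tmul, TensorProduct.tmul_sum]
  have hm : m + 2 = (i + 1) + (j + 1) := by omega
  rw [hm, Finset.sum_range_add]
  have e := ad_sum k i j (fun l => ad_F k K x i (ad_s l) ⊗ₜ[k] ad_F k L y j (fun t => i + 1 + t))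
    (fun l => ad_F k K x i (fun t => t) ⊗ₜ[k] ad_F k L y j (fun t => i + ad_s l t)) (by
      refine congrArg₂ (fun a b => a ⊗ₜ[k] b) (ad_F_congr k K x fun t ht => ?_)
        (ad_F_congr k L y fun t ht => ?_)
      · unfold ad_s
        rw [if_pos (by omega)]
      · unfold ad_s
        rw [if_neg (by omega)]
        omega)
  refine Eq.trans (congrArg₂ (· + ·) (Finset.sum_congr rfl fun l hl => ?_)
    (Finset.sum_congr rfl fun l hl => ?_)) (e.trans (congrArg₂ (· + ·)
    (Finset.sum_congr rfl fun l hl => ?_) ?_))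
  · have hl' := Finset.mem_range.1 hl
    refine congrArg₂ (fun a b => (-1 : k) ^ l • (a ⊗ₜ[k] b)) rfl
      (ad_F_congr k L y fun t ht => ?_)
    unfold ad_s
    rw [if_neg (by omega)]
    omega
  · refine congrArg₂ (fun a b => (-1 : k) ^ (i + 1 + l) • (a ⊗ₜ[k] b))
      (ad_F_congr k K x fun t ht => ?_) (ad_F_congr k L y fun t ht => ?_)
    · unfold ad_s
      rw [if_pos (by omega)]
    · unfold ad_s
      split_ifs <;> omega
  · rw [TensorProduct.smul_tmul']
  · rw [Finset.smul_sum]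
    refine Finset.sum_congr rfl fun l hl => ?_
    rw [TensorProduct.tmul_smul, ← TensorProduct.smul_tmul', smul_smul, smul_smul, mul_comm]

end

theorem sAwD : S_AwD := by
  intro k _ K L z
  have h1 : aw k K L ∘ₗ bd k (K.prod L) = ((chDG k K).tens (chDG k L)).d ∘ₗ aw k K L := by
    apply ch_ext (K := K.prod L) (M := Ch k K ⊗[k] Ch k L)
    intro n z
    rw [LinearMap.comp_apply, LinearMap.comp_apply, ad_aw_sx]
    cases n with
    | zero =>
      rw [bd_sx_zero, map_zero, map_sum]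
      symm
      refine Finset.sum_eq_zero fun p hp => ?_
      obtain ⟨i, j⟩ := p
      have h2 := Finset.HasAntidiagonal.mem_antidiagonal.mp hp
      change i + j = 0 at h2
      obtain rfl : i = 0 := by omega
      obtain rfl : j = 0 := by omega
      refine (ad_tensd k K L _ _).trans ?_
      rw [bd_sx_zero, bd_sx_zero]
      refine (congrArg₂ (· + ·) (TensorProduct.zero_tmul _ _) (TensorProduct.tmul_zero _ _)).trans ?_
      exact add_zero _
    | succ m =>
      obtain ⟨x, y⟩ := z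
      rw [bd_sx, map_sum, map_sum]
      have hl : ∀ l : Fin (m + 2), aw k K L ((-1 : k) ^ (l : ℕ) •
          sx k ((K.prod L).act l.succAbove (x, y))) =
          ∑ p ∈ Finset.HasAntidiagonal.antidiagonal m, (-1 : k) ^ (l : ℕ) •
            (sx k (K.act (fr p.1 m) (K.act l.succAbove x)) ⊗ₜ[k]
              sx k (L.act (bk p.1 p.2 m) (L.act l.succAbove y))) := by
        intro l
        rw [map_smul, ad_aw_sx, Finset.smul_sum]
        rfl
      rw [Finset.sum_congr rfl (fun l _ => hl l), Finset.sum_comm]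
      refine Eq.trans (Finset.sum_congr rfl fun p hp => ad_term k K L x y p.1 p.2
        (Finset.HasAntidiagonal.mem_antidiagonal.mp hp)) ?_
      refine Eq.trans ?_ (Finset.sum_congr rfl fun p _ => (ad_tensd k K L _ _).symm)
      rw [Finset.sum_add_distrib, Finset.sum_add_distrib]
      refine congrArg₂ (· + ·) ?_ ?_
      · symm
        refine Finset.Nat.sum_antidiagonal_succ.trans ?_
        refine (congrArg₂ (· + ·) ?_ rfl).trans (zero_add _)
        refine (congrArg (fun a => a ⊗ₜ[k] _) (bd_sx_zero k _)).trans ?_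
        exact TensorProduct.zero_tmul _ _
      · symm
        refine Finset.Nat.sum_antidiagonal_succ'.trans ?_
        refine (congrArg₂ (· + ·) ?_ rfl).trans (zero_add _)
        refine (congrArg (fun a => _ ⊗ₜ[k] a) (bd_sx_zero k _)).trans ?_
        exact TensorProduct.tmul_zero _ _
  exact LinearMap.congr_fun h1 z

end HEp
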