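import Pool.Agent.Lib.MP_181146_gt.HE.SpecS

/-!
# Project HE: Alexander-Whitney: gradings, parity, augmentations, naturality
-/

set_option autoImplicit false

namespace HEp

open scoped TensorProduct

private lemma ag_aw_sx (k : Type) [CommRing k] (K L : SS) {n : ℕ} (z : (K.prod L).K n) :
    aw k K L (sx k z) = ∑ p ∈ Finset.HasAntidiagonal.antidiagonal n,
      sx k (K.act (fr p.1 n) z.1) ⊗ₜ[k] sx k (L.act (bk p.1 p.2 n) z.2) := by
  rw [aw, sx, Finsupp.linearCombination_single, one_smul]

private lemma ag_gr_ind {k : Type} [CommRing k] {K : SS} {n : ℕ} {M : Type} [AddCommGroup M]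
    [Module k M] (f : Ch k K →ₗ[k] M) (S : Submodule k M) (h : ∀ x : K.K n, f (sx k x) ∈ S)
    (x : Ch k K) (hx : x ∈ gr k K n) : f x ∈ S := by
  have h1 : gr k K n ≤ S.comap f := by
    rw [gr, Finsupp.supported_eq_span_single, Submodule.span_le]
    rintro _ ⟨⟨m, y⟩, hm, rfl⟩
    change m = n at hm
    subst hm
    exact h y
  exact h1 hx

private lemma ag_P1 {k V W : Type} [CommRing k] [AddCommGroup V] [Module k V] [AddCommGroup W]
    [Module k W] {p q : ℕ} (a : V) (b : W) :
    (if Odd p then a else 0) ⊗ₜ[k] b + a ⊗ₜ[k] (if Odd q then b else 0) -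
        (2 : k) • ((if Odd p then a else 0) ⊗ₜ[k] (if Odd q then b else 0)) =
      if Odd (p + q) then a ⊗ₜ[k] b else 0 := by
  by_cases hp : Odd p
  · by_cases hq : Odd q
    · have h3 : ¬ Odd (p + q) := by
        rw [Nat.not_odd_iff_even]
        exact hp.add_odd hq
      rw [if_pos hp, if_pos hq, if_neg h3, two_smul, sub_self]
    · have h3 : Odd (p + q) := hp.add_even (Nat.not_odd_iff_even.1 hq)
      simp [hp, hq, h3]
  · by_cases hq : Odd q
    · have h3 : Odd (p + q) := (Nat.not_odd_iff_even.1 hp).add_odd hq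
      simp [hp, hq, h3]
    · have h3 : ¬ Odd (p + q) := by
        rw [Nat.not_odd_iff_even]
        exact (Nat.not_odd_iff_even.1 hp).add (Nat.not_odd_iff_even.1 hq)
      simp [hp, hq, h3]

private lemma ag_P {k : Type} [CommRing k] {K L : SS} {p q : ℕ} (x : K.K p) (y : L.K q) :
    ((chDG k K).tens (chDG k L)).P (sx k x ⊗ₜ sx k y) =
      if Odd (p + q) then sx k x ⊗ₜ[k] sx k y else 0 := by
  have h2 : ((chDG k K).tens (chDG k L)).P (sx k x ⊗ₜ sx k y) =
      od k K (sx k x) ⊗ₜ[k] sx k y + sx k x ⊗ₜ[k] od k L (sx k y) -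
        (2 : k) • (od k K (sx k x) ⊗ₜ[k] od k L (sx k y)) := rfl
  refine h2.trans ?_
  rw [od_sx, od_sx]
  exact ag_P1 _ _

private lemma ag_aug_pos (k : Type) [CommRing k] {K : SS} {n : ℕ} (h : n ≠ 0) (x : K.K n) :
    aug k K (sx k x) = 0 := by
  cases n with
  | zero => exact absurd rfl h
  | succ n => exact aug_sx_succ k x

theorem sAwG : S_AwG := by
  intro k _ K L
  refine ⟨?_, ?_, ?_, ?_⟩
  · intro n z hz
    refine ag_gr_ind (aw k K L) (tgr (gr k K) (gr k L) n) (fun x => ?_) z hz
    rw [ag_aw_sx]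
    refine Submodule.sum_mem _ fun p hp => Submodule.subset_span ?_
    exact ⟨p.1, p.2, _, _, Finset.HasAntidiagonal.mem_antidiagonal.mp hp, sx_mem_gr k _,
      sx_mem_gr k _, rfl⟩
  · intro z
    have h1 : aw k K L ∘ₗ od k (K.prod L) =
        ((chDG k K).tens (chDG k L)).P ∘ₗ aw k K L := by
      apply ch_ext (K := K.prod L) (M := Ch k K ⊗[k] Ch k L)
      intro n x
      rw [LinearMap.comp_apply, LinearMap.comp_apply, ag_aw_sx, map_sum, od_sx]
      have h3 : ∀ p ∈ Finset.HasAntidiagonal.antidiagonal n,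
          ((chDG k K).tens (chDG k L)).P (sx k (K.act (fr p.1 n) x.1) ⊗ₜ[k]
            sx k (L.act (bk p.1 p.2 n) x.2)) =
          if Odd n then sx k (K.act (fr p.1 n) x.1) ⊗ₜ[k] sx k (L.act (bk p.1 p.2 n) x.2)
            else 0 := by
        intro p hp
        have h4 := ag_P (k := k) (K.act (fr p.1 n) x.1) (L.act (bk p.1 p.2 n) x.2)
        rw [Finset.HasAntidiagonal.mem_antidiagonal.mp hp] at h4
        exact h4
      refine Eq.trans ?_ (Finset.sum_congr rfl h3).symm
      by_cases h : Odd n
      · rw [if_pos h, ag_aw_sx]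
        refine Finset.sum_congr rfl fun p _ => ?_
        rw [if_pos h]
      · rw [if_neg h, map_zero]
        symm
        refine Finset.sum_eq_zero fun p _ => ?_
        rw [if_neg h]
    exact LinearMap.congr_fun h1 z
  · intro z
    have h1 : augT (aug k K) (aug k L) ∘ₗ aw k K L = aug k (K.prod L) := by
      apply ch_ext
      intro n x
      rw [LinearMap.comp_apply, ag_aw_sx, map_sum]
      by_cases hn : n = 0
      · subst hn
        rw [aug_sx_zero, Finset.sum_eq_single (0, 0)]
        · rw [augT_tmul]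
          exact (congrArg₂ (· * ·) (aug_sx_zero k _) (aug_sx_zero k _)).trans (one_mul _)
        · rintro ⟨i, j⟩ hij hne
          have h2 := Finset.HasAntidiagonal.mem_antidiagonal.mp hij
          change i + j = 0 at h2
          exact absurd (by rw [Prod.mk.injEq]; omega) hne
        · intro h
          exact absurd (Finset.HasAntidiagonal.mem_antidiagonal.mpr (zero_add 0)) h
      · rw [ag_aug_pos k hn]
        refine Finset.sum_eq_zero fun p hp => ?_
        rw [augT_tmul]
        have h2 := Finset.HasAntidiagonal.mem_antidiagonal.mp hp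
        by_cases h3 : p.1 = 0
        · rw [ag_aug_pos k (K := L) (n := p.2) (by omega), mul_zero]
        · rw [ag_aug_pos k (K := K) (n := p.1) h3, zero_mul]
    exact LinearMap.congr_fun h1 z
  · intro K' L' φ ψ z
    have h1 : TensorProduct.map (cmap k φ) (cmap k ψ) ∘ₗ aw k K L =
        aw k K' L' ∘ₗ cmap k (φ.prod ψ) := by
      apply ch_ext (K := K.prod L) (M := Ch k K' ⊗[k] Ch k L')
      intro n x
      rw [LinearMap.comp_apply, LinearMap.comp_apply, ag_aw_sx, map_sum, cmap_sx, ag_aw_sx]
      refine Finset.sum_congr rfl fun p _ => ?_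
      rw [TensorProduct.map_tmul, cmap_sx, cmap_sx, φ.nat, ψ.nat]
      rfl
    exact LinearMap.congr_fun h1 z

end HEp
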