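import Pool.Agent.Lib.MP_181146_gt.HE.SpecS

/-!
# Project HE: the coproduct is a natural chain map
-/

set_option autoImplicit false

namespace HEp

open scoped TensorProduct

private theorem DlG_gr (k : Type) [CommRing k] {K L : SS} (f : SSHom K L) (n : ℕ) (z : Ch k K)
    (hz : z ∈ gr k K n) : cmap k f z ∈ gr k L n := by
  classical
  rw [gr, Finsupp.mem_supported] at hz ⊢
  intro x hx
  have h1 : x ∈ (Finsupp.mapDomain (fun x : Σ n, K.K n => (⟨x.1, f.f x.2⟩ : Σ n, L.K n)) z).support :=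
    hx
  have h2 := Finsupp.mapDomain_support h1
  rw [Finset.mem_image] at h2
  obtain ⟨y, hy, rfl⟩ := h2
  exact hz hy

theorem sDlG (hAwD : S_AwD) (hAwG : S_AwG) : S_DlG := by
  intro k _ K
  obtain ⟨h1, h2, h3, h4⟩ := hAwG k K K
  refine ⟨⟨?_, ?_⟩, ?_, ?_, ?_⟩
  · intro z
    change aw k K K (cmap k (SSHom.diag K) (bd k K z)) = _
    rw [cmap_bd, hAwD k K K]
    rfl
  · intro z
    change aw k K K (cmap k (SSHom.diag K) (od k K z)) = _
    rw [cmap_od, h2]
    rfl
  · intro n z hz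
    exact h1 n _ (DlG_gr k (SSHom.diag K) n z hz)
  · intro z
    change augT (aug k K) (aug k K) (aw k K K (cmap k (SSHom.diag K) z)) = _
    rw [h3, aug_cmap]
  · intro L φ z
    change TensorProduct.map (cmap k φ) (cmap k φ) (aw k K K (cmap k (SSHom.diag K) z)) =
      aw k L L (cmap k (SSHom.diag L) (cmap k φ z))
    rw [h4 L L φ φ, ← cmap_comp, ← cmap_comp]
    rfl

end HEp
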