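import Pool.Agent.Lib.MP_181146_gt.HE.SpecG

/-!
# Project HE, module KPi: the class of a finite product
-/

set_option autoImplicit false

namespace HEp

private theorem kpi_fin (R : Type) [CommRing R] (n : ℕ) :
    ∀ (M : Fin n → Type) [∀ i, AddCommGroup (M i)] [∀ i, Module R (M i)]
      [∀ i, Module.Finite R (M i)] [∀ i, Module.Projective R (M i)],
      cl R (∀ i, M i) = ∑ i, cl R (M i) := by
  induction n with
  | zero =>
    intro M _ _ _ _
    rw [Fin.sum_univ_zero]
    exact cl_subsingleton _
  | succ n ih =>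
    intro M _ _ _ _
    rw [Fin.sum_univ_succ, ← ih (fun i => M i.succ), ← cl_prod]
    exact cl_congr (Fin.consLinearEquiv R M).symm

theorem sKPi : S_KPi := by
  intro R _ ι _ M _ _ _ _
  let e := Fintype.equivFin ι
  have h1 : cl R (∀ i, M i) = cl R (∀ j, M (e.symm j)) :=
    cl_congr (LinearEquiv.piCongrLeft' R M e)
  rw [h1, kpi_fin R _ fun j => M (e.symm j)]
  exact Equiv.sum_comp e.symm fun i => cl R (M i)

end HEp
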