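import Pool.Agent.Lib.MP_181146_gt.HE.SpecS

/-!
# Project HE: counits for the coproduct of the chains
-/

set_option autoImplicit false

namespace HEp

open scoped TensorProduct

section

variable (k : Type) [CommRing k] (K : SS)

private lemma dl_sx' {n : ℕ} (x : K.K n) : dl k K (sx k x) =
    ∑ p ∈ Finset.HasAntidiagonal.antidiagonal n,
      sx k (K.act (fr p.1 n) x) ⊗ₜ[k] sx k (K.act (bk p.1 p.2 n) x) := by
  rw [dl, LinearMap.comp_apply, cmap_sx, aw, sx, Finsupp.linearCombination_single, one_smul]
  rfl

private lemma aug_sx_pos {n : ℕ} (h : n ≠ 0) (x : K.K n) : aug k K (sx k x) = 0 := by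
  cases n with
  | zero => exact absurd rfl h
  | succ n => exact aug_sx_succ k x

private lemma bk_id (n : ℕ) : bk 0 n n = _root_.id := by
  funext t
  apply Fin.ext
  have h := t.2
  change (0 + (t : ℕ)) % (n + 1) = t
  rw [zero_add, Nat.mod_eq_of_lt h]

private lemma fr_id (n : ℕ) : fr n n = _root_.id := by
  funext t
  apply Fin.ext
  have h := t.2
  change (t : ℕ) % (n + 1) = t
  rw [Nat.mod_eq_of_lt h]

end

theorem sDlC : S_DlC := by
  intro k _ K x
  have h1 : (TensorProduct.lid k (Ch k K)).toLinearMap ∘ₗ
      TensorProduct.map (aug k K) LinearMap.id ∘ₗ dl k K = LinearMap.id := ch_ext fun n y => by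
    rw [LinearMap.comp_apply, LinearMap.comp_apply, dl_sx', map_sum, map_sum,
      Finset.sum_eq_single (0, n)]
    · rw [TensorProduct.map_tmul, LinearMap.id_apply, LinearMap.id_apply, LinearEquiv.coe_coe,
        TensorProduct.lid_tmul]
      have h2 : aug k K (sx k (K.act (fr 0 n) y)) = 1 := aug_sx_zero k _
      have h3 : K.act (bk 0 n n) y = y := by rw [bk_id, K.act_id]
      exact (congrArg₂ (· • ·) h2 (congrArg (sx k) h3)).trans (one_smul _ _)
    · rintro ⟨i, j⟩ hij hne
      have h2 : i ≠ 0 := by
        rintro rfl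
        have hj : j = n := (zero_add j).symm.trans (Finset.HasAntidiagonal.mem_antidiagonal.mp hij)
        exact hne (congrArg (Prod.mk 0) hj)
      rw [TensorProduct.map_tmul, aug_sx_pos k K h2, TensorProduct.zero_tmul, map_zero]
    · intro h
      exact absurd (Finset.HasAntidiagonal.mem_antidiagonal.mpr (zero_add n)) h
  have h1' : (TensorProduct.rid k (Ch k K)).toLinearMap ∘ₗ
      TensorProduct.map LinearMap.id (aug k K) ∘ₗ dl k K = LinearMap.id := ch_ext fun n y => by
    rw [LinearMap.comp_apply, LinearMap.comp_apply, dl_sx', map_sum, map_sum,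
      Finset.sum_eq_single (n, 0)]
    · rw [TensorProduct.map_tmul, LinearMap.id_apply, LinearMap.id_apply, LinearEquiv.coe_coe,
        TensorProduct.rid_tmul]
      have h2 : aug k K (sx k (K.act (bk n 0 n) y)) = 1 := aug_sx_zero k _
      have h3 : K.act (fr n n) y = y := by rw [fr_id, K.act_id]
      exact (congrArg₂ (· • ·) h2 (congrArg (sx k) h3)).trans (one_smul _ _)
    · rintro ⟨i, j⟩ hij hne
      have h2 : j ≠ 0 := by
        rintro rfl
        have hi : i = n := (add_zero i).symm.trans (Finset.HasAntidiagonal.mem_antidiagonal.mp hij)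
        exact hne (congrArg (fun t => (t, 0)) hi)
      rw [TensorProduct.map_tmul, aug_sx_pos k K h2, TensorProduct.tmul_zero, map_zero]
    · intro h
      exact absurd (Finset.HasAntidiagonal.mem_antidiagonal.mpr (add_zero n)) h
  exact ⟨LinearMap.congr_fun h1 x, LinearMap.congr_fun h1' x⟩

end HEp
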