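import Pool.Agent.Lib.MP_181146_gt.HE.DefsT

/-!
# Project HE, chain level part (parts 1, 3 of note 3985).  Every statement is a separate task; the
proof of each is in the docstring.

`SS`: simplicial sets on which all maps of vertices act; `Ch k K` the total module of chains
(finitely supported functions on all simplices), `bd` the boundary, `od` the projection onto the odd
part, `gr n` the chains of dimension `n`, `sx x` a simplex as a chain.  Linear maps on `Ch k K` are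
compared on simplices by `ch_ext`; on tensor products by `TensorProduct.induction_on` or
`TensorProduct.ext'`.
-/

set_option linter.unusedVariables false
set_option autoImplicit false

namespace HEp

open scoped TensorProduct

/-! ## A. Contractions, acyclic models -/

/-- **Con.** Contraction of the chains of a product of two simplices:
`h (v, w) = (cons 0 v, cons 0 w)`, `u = (0, 0)`.  (Same proof as `bd_coneY` in DefsS; `εd` is
`aug_bd`.)  `h` raises the dimension by one. -/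
def S_Con : Prop :=
  ∀ (k : Type) [CommRing k] (p q : ℕ),
    ∃ C : Ctr (chDG k ((De p).prod (De q))) (aug k ((De p).prod (De q))),
      ∀ (n : ℕ), ∀ x ∈ gr k ((De p).prod (De q)) n, C.h x ∈ gr k ((De p).prod (De q)) (n + 1)

/-- **CtrT.** Tensor product of contractions: `h = h ⊗ 1 + (ε(-) u) ⊗ h'`, `u = u ⊗ u'`.
Proof: `d = d ⊗ 1 + sg ⊗ d`.  `d h + h d = (d h + h d) ⊗ 1 + (sg h + h sg) ⊗ d +
(d π) ⊗ h' + (sg π) ⊗ d h' + (π d) ⊗ h' + (π sg) ⊗ h' d`, `π x = ε x • u`; `sg h = - h sg` (odd),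
`d π = 0`, `π d = 0`, `sg π = π = π sg` (`Pu`, `εP`); total `(1 - π) ⊗ 1 + π ⊗ (1 - π') =
1 - π ⊗ π'`. -/
def S_CtrT : Prop :=
  ∀ (k : Type) [CommRing k] (A B : DG k) (ε : A.V →ₗ[k] k) (ε' : B.V →ₗ[k] k) (C : Ctr A ε)
    (C' : Ctr B ε'), Nonempty (Ctr (A.tens B) (augT ε ε'))

/-- **FAB.** Simplicial identities for the operators `F.A`, `F.B` of a functor `F`.
Proof: `A A = ∑ (-1)^(i+j) F.map (δ_j ∘ δ_i) 1 = 0`: the maps `j.succAbove ∘ i.succAbove` cancel in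
pairs (`i < j`: `j.succAbove ∘ i.succAbove = i.castSucc.succAbove ∘ (j-1).succAbove`,
`Fin.succAbove_succAbove_...`; the usual proof of `d² = 0`, compare Mathlib's
`AlgebraicTopology.AlternatingFaceMapComplex.d_squared`).  `A B = B A`: both are
`∑ (-1)^(i+j) F.map δ_i δ_j`.  They commute with `d` and (`aug_map`) preserve the kernel of the
augmentation. -/
def S_FAB : Prop :=
  ∀ (k : Type) [CommRing k] (F : Fn k),
    (∀ (p q : ℕ) (x : (F.T (De p) (De q)).V), F.A (p + 1) q (F.A p q x) = 0) ∧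
    (∀ (p q : ℕ) (x : (F.T (De p) (De q)).V), F.B p (q + 1) (F.B p q x) = 0) ∧
    (∀ (p q : ℕ) (x : (F.T (De p) (De q)).V), F.A p (q + 1) (F.B p q x) =
      F.B (p + 1) q (F.A p q x)) ∧
    (∀ (p q : ℕ) (x : (F.T (De p) (De q)).V), F.A p q ((F.T _ _).d x) = (F.T _ _).d (F.A p q x)) ∧
    (∀ (p q : ℕ) (x : (F.T (De p) (De q)).V), F.B p q ((F.T _ _).d x) = (F.T _ _).d (F.B p q x)) ∧
    (∀ (p q : ℕ) (x : (F.T (De p) (De q)).V), F.aug _ _ x = 0 → F.aug _ _ (F.A p q x) = 0) ∧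
    (∀ (p q : ℕ) (x : (F.T (De p) (De q)).V), F.aug _ _ x = 0 → F.aug _ _ (F.B p q x) = 0)

/-- **AMe.** Abstract recursion, existence of a family with prescribed values on the axes.
Proof: `e 0 q = c' q`, `e (p+1) 0 = c (p+1)`,
`e (p+1) (q+1) = h (A (e p (q+1)) + (-1)^(p+1) B (e (p+1) q))` (structural recursion on `p`, then `q`;
or well-founded recursion on `p + q`).  Put `(D e)_{p,q}` for the right-hand side.  By induction
on `p + q`: `ε (e p q) = 0` for `(p, q) ≠ (0, 0)`, `d (e p q) = (D e)_{p,q}` (also on the axes), and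
for `e (p+1) (q+1)`: `d (h y) = y - h (d y) - ε y • u` with `ε y = 0` and `d y = A (d e_{p,q+1}) +
(-1)^(p+1) B (d e_{p+1,q}) = 0` by `A A = 0`, `B B = 0`, `A B = B A`:
`A ([A e_{p-1,q+1}] + (-1)^p B e_{p,q}) + (-1)^(p+1) B (A e_{p,q} + [(-1)^(p+1) B e_{p+1,q-1}]) = 0`. -/
def S_AMe : Prop :=
  ∀ (k : Type) [CommRing k] (T : ℕ → ℕ → Type) [∀ p q, AddCommGroup (T p q)]
    [∀ p q, Module k (T p q)] (d h : ∀ p q, T p q →ₗ[k] T p q) (ε : ∀ p q, T p q →ₗ[k] k)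
    (u : ∀ p q, T p q) (A : ∀ p q, T p q →ₗ[k] T (p + 1) q) (B : ∀ p q, T p q →ₗ[k] T p (q + 1))
    (Gr : ℕ → ∀ p q, Submodule k (T p q))
    (rel : ∀ p q x, d p q (h p q x) + h p q (d p q x) = x - ε p q x • u p q)
    (εh : ∀ p q x, ε p q (h p q x) = 0)
    (AA : ∀ p q x, A (p + 1) q (A p q x) = 0) (BB : ∀ p q x, B p (q + 1) (B p q x) = 0)
    (AB : ∀ p q x, A p (q + 1) (B p q x) = B (p + 1) q (A p q x))
    (Ad : ∀ p q x, A p q (d p q x) = d (p + 1) q (A p q x))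
    (Bd : ∀ p q x, B p q (d p q x) = d p (q + 1) (B p q x))
    (εA : ∀ p q x, ε p q x = 0 → ε (p + 1) q (A p q x) = 0)
    (εB : ∀ p q x, ε p q x = 0 → ε p (q + 1) (B p q x) = 0)
    (hGr : ∀ n p q, ∀ x ∈ Gr n p q, h p q x ∈ Gr (n + 1) p q)
    (AGr : ∀ n p q, ∀ x ∈ Gr n p q, A p q x ∈ Gr n (p + 1) q)
    (BGr : ∀ n p q, ∀ x ∈ Gr n p q, B p q x ∈ Gr n p (q + 1))
    (c : ∀ p, T p 0) (c' : ∀ q, T 0 q) (cc' : c 0 = c' 0)
    (dc0 : d 0 0 (c 0) = 0) (dc : ∀ p, d (p + 1) 0 (c (p + 1)) = A p 0 (c p))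
    (dc' : ∀ q, d 0 (q + 1) (c' (q + 1)) = B 0 q (c' q))
    (εc : ∀ p, ε (p + 1) 0 (c (p + 1)) = 0) (εc' : ∀ q, ε 0 (q + 1) (c' (q + 1)) = 0)
    (cGr : ∀ p, c p ∈ Gr p p 0) (cGr' : ∀ q, c' q ∈ Gr q 0 q),
    ∃ e : ∀ p q, T p q, (∀ p, e p 0 = c p) ∧ (∀ q, e 0 q = c' q) ∧
      (∀ p q, d (p + 1) (q + 1) (e (p + 1) (q + 1)) =
        A p (q + 1) (e p (q + 1)) + (-1 : k) ^ (p + 1) • B (p + 1) q (e (p + 1) q)) ∧
      ∀ p q, e p q ∈ Gr (p + q) p q

/-- **AMh.** Abstract recursion, homotopies.  With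
`(D x)_{p,q} = A x_{p-1,q} + (-1)^p B x_{p,q-1}` (a term is absent if its index is negative): if
`d r = D r` and `ε r = 0` there is `H` with `d H + D H = r`.
Proof: `H_{p,q} = h (r_{p,q} - (D H)_{p,q})`.  By induction on `p + q`: `d H = x - h (d x) - ε x • u`,
`x = r - D H`; `ε x = 0` as `ε H = 0`; `d x = d r - D (d H) = D r - D (r - D H) = D D H = 0`. -/
def S_AMh : Prop :=
  ∀ (k : Type) [CommRing k] (T : ℕ → ℕ → Type) [∀ p q, AddCommGroup (T p q)]
    [∀ p q, Module k (T p q)] (d h : ∀ p q, T p q →ₗ[k] T p q) (ε : ∀ p q, T p q →ₗ[k] k)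
    (u : ∀ p q, T p q) (A : ∀ p q, T p q →ₗ[k] T (p + 1) q) (B : ∀ p q, T p q →ₗ[k] T p (q + 1))
    (rel : ∀ p q x, d p q (h p q x) + h p q (d p q x) = x - ε p q x • u p q)
    (εh : ∀ p q x, ε p q (h p q x) = 0)
    (AA : ∀ p q x, A (p + 1) q (A p q x) = 0) (BB : ∀ p q x, B p (q + 1) (B p q x) = 0)
    (AB : ∀ p q x, A p (q + 1) (B p q x) = B (p + 1) q (A p q x))
    (Ad : ∀ p q x, A p q (d p q x) = d (p + 1) q (A p q x))
    (Bd : ∀ p q x, B p q (d p q x) = d p (q + 1) (B p q x))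
    (εA : ∀ p q x, ε p q x = 0 → ε (p + 1) q (A p q x) = 0)
    (εB : ∀ p q x, ε p q x = 0 → ε p (q + 1) (B p q x) = 0)
    (r : ∀ p q, T p q) (εr : ∀ p q, ε p q (r p q) = 0)
    (r00 : d 0 0 (r 0 0) = 0) (rp0 : ∀ p, d (p + 1) 0 (r (p + 1) 0) = A p 0 (r p 0))
    (r0q : ∀ q, d 0 (q + 1) (r 0 (q + 1)) = B 0 q (r 0 q))
    (rpq : ∀ p q, d (p + 1) (q + 1) (r (p + 1) (q + 1)) =
        A p (q + 1) (r p (q + 1)) + (-1 : k) ^ (p + 1) • B (p + 1) q (r (p + 1) q)),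
    ∃ H : ∀ p q, T p q, d 0 0 (H 0 0) = r 0 0 ∧
      (∀ p, d (p + 1) 0 (H (p + 1) 0) + A p 0 (H p 0) = r (p + 1) 0) ∧
      (∀ q, d 0 (q + 1) (H 0 (q + 1)) + B 0 q (H 0 q) = r 0 (q + 1)) ∧
      (∀ p q, d (p + 1) (q + 1) (H (p + 1) (q + 1)) +
        (A p (q + 1) (H p (q + 1)) + (-1 : k) ^ (p + 1) • B (p + 1) q (H (p + 1) q)) =
          r (p + 1) (q + 1))

/-- **EZex** (from AMe, FAB, Con).  Existence of the universal elements, `k = ℤ`, `F = F1 ℤ`
(`fA_eq`, `fB_eq`), `c p = (id, const)`, `c' q = (const, id)`.  `d c_(p+1) = A c_p`: both are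
`∑ (-1)^j (δ_j, const)`.  `A`, `B` preserve the dimension (`cmap` maps `gr n` to `gr n`). -/
def S_EZex : Prop :=
  ∃ e : ∀ p q : ℕ, Ch ℤ ((De p).prod (De q)), EZ e

/-! ## B. The cross product -/

/-- **NabD.** `nab` is a chain map.
Proof: on `x ⊗ y`, `x`, `y` simplices of dimension `p`, `q`: `bd (nab (x ⊗ y)) =
cmap (ev x × ev y) (cc (bd (e p q)))` (`cmap_bd`, `cc` commutes with `bd`), and `bd (e p q)` is
`fA + (-1)^p fB`, where the terms with `p = 0`, `q = 0` are absent (`rel`, and on the axes a direct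
computation from `hp0`, `h0q`: `bd (e (p+1) 0) = fA (e p 0)`, `bd (e 0 (q+1)) = fB (e 0 q)`,
`bd (e 0 0) = 0`).  `cmap (ev x × ev y) (cmap (Ed.map δ_j × 1) z) = cmap (ev (act δ_j x) × ev y) z`
(`ev_act`), which gives `nab (bd x ⊗ y)`; similarly `(-1)^p nab (x ⊗ bd y)`; `sg x = (-1)^p x`. -/
def S_NabD : Prop :=
  ∀ (e : ∀ p q : ℕ, Ch ℤ ((De p).prod (De q))) (he : EZ e) (k : Type) [CommRing k] (K L : SS)
    (z : Ch k K ⊗[k] Ch k L),
    nab k e K L (((chDG k K).tens (chDG k L)).d z) = bd k (K.prod L) (nab k e K L z)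

/-- **NabG.** `nab` is compatible with the gradings and the parity.  (From `deg`: `cc` and `cmap` preserve
`gr n`; on `gr n` the parity operator `od` is `1` or `0`.) -/
def S_NabG : Prop :=
  ∀ (e : ∀ p q : ℕ, Ch ℤ ((De p).prod (De q))) (he : EZ e) (k : Type) [CommRing k] (K L : SS),
    (∀ (i j : ℕ), ∀ x ∈ gr k K i, ∀ y ∈ gr k L j,
      nab k e K L (x ⊗ₜ y) ∈ gr k (K.prod L) (i + j)) ∧
    ∀ z : Ch k K ⊗[k] Ch k L,
      nab k e K L (((chDG k K).tens (chDG k L)).P z) = od k (K.prod L) (nab k e K L z)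

/-- **NabN.** `nab` is natural (for every family `e`): `cmap (φ × ψ) ∘ cmap (ev x × ev y) =
cmap (ev (φ x) × ev (ψ y))` by `φ.nat`, `ψ.nat`. -/
def S_NabN : Prop :=
  ∀ (e : ∀ p q : ℕ, Ch ℤ ((De p).prod (De q))) (k : Type) [CommRing k] (K K' L L' : SS)
    (φ : SSHom K K') (ψ : SSHom L L') (z : Ch k K ⊗[k] Ch k L),
    nab k e K' L' (TensorProduct.map (cmap k φ) (cmap k ψ) z) =
      cmap k (φ.prod ψ) (nab k e K L z)

/-- **NabU.** Units and augmentation: `nab (x ⊗ v) = (x, const v)`, `nab (v ⊗ y) = (const v, y)`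
for a vertex `v` (from `hp0`, `h0q`), and `aug (nab z) = (aug ⊗ aug) z` (for simplices of positive
total dimension both sides vanish by `deg`). -/
def S_NabU : Prop :=
  ∀ (e : ∀ p q : ℕ, Ch ℤ ((De p).prod (De q))) (he : EZ e) (k : Type) [CommRing k] (K L : SS),
    (∀ (v : L.K 0) (x : Ch k K), nab k e K L (x ⊗ₜ sx k v) =
      cmap k (SSHom.pair (SSHom.id K) (SSHom.cst K v)) x) ∧
    (∀ (v : K.K 0) (y : Ch k L), nab k e K L (sx k v ⊗ₜ y) =
      cmap k (SSHom.pair (SSHom.cst L v) (SSHom.id L)) y) ∧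
    ∀ z : Ch k K ⊗[k] Ch k L, aug k (K.prod L) (nab k e K L z) = augT (aug k K) (aug k L) z

/-- **NabR.** Reduction of coefficients: `nab` over `k` of `cc x ⊗ cc y` is `cc` of `nab` over `ℤ` of
`x ⊗ y`. (`cc` commutes with `cmap`.) -/
def S_NabR : Prop :=
  ∀ (e : ∀ p q : ℕ, Ch ℤ ((De p).prod (De q))) (k : Type) [CommRing k] (K L : SS)
    (x : Ch ℤ K) (y : Ch ℤ L),
    nab k e K L (cc k x ⊗ₜ cc k y) = cc k (nab ℤ e K L (x ⊗ₜ y))

/-! ## C. Alexander-Whitney -/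

/-- **AwD.** `aw` is a chain map.
Proof: for a simplex `z = (x, y)` of dimension `n`, `aw z = ∑_(i+j=n) f_i x ⊗ b_j y` with
`f_i`, `b_j` the front `i`-face and the back `j`-face (`fr i n`, `bk i j n`).  In `d (aw z)` the
terms `(f_i x) δ_i ⊗ b_j y` (sign `(-1)^i`) and `f_(i-1) x ⊗ (b_(j+1) y) δ_0` (sign `(-1)^(i-1)`)
cancel.  The remaining terms are `(f_i x) δ_l ⊗ b_j y`, `l < i`, sign `(-1)^l`, equal to
`f_(i-1) (x δ_l) ⊗ b_j (y δ_l)`, and `f_i x ⊗ (b_j y) δ_l`, `l > 0`, sign `(-1)^(i+l)`,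
equal to `f_i (x δ_(i+l)) ⊗ b_(j-1) (y δ_(i+l))`: together `aw (bd z)`.  (Identities of maps
`Fin _ → Fin _`: prove them on values with `Fin.ext`, `Fin.succAbove`, `omega`.) -/
def S_AwD : Prop :=
  ∀ (k : Type) [CommRing k] (K L : SS) (z : Ch k (K.prod L)),
    aw k K L (bd k (K.prod L) z) = ((chDG k K).tens (chDG k L)).d (aw k K L z)

/-- **AwG.** `aw` is compatible with gradings, parity, augmentations and is natural.
(`P (a ⊗ b)` for `a`, `b` of dimensions `i`, `j` is `a ⊗ b` if `i + j` is odd and `0` otherwise.) -/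
def S_AwG : Prop :=
  ∀ (k : Type) [CommRing k] (K L : SS),
    (∀ (n : ℕ), ∀ z ∈ gr k (K.prod L) n, aw k K L z ∈ tgr (gr k K) (gr k L) n) ∧
    (∀ z : Ch k (K.prod L), aw k K L (od k (K.prod L) z) =
      ((chDG k K).tens (chDG k L)).P (aw k K L z)) ∧
    (∀ z : Ch k (K.prod L), augT (aug k K) (aug k L) (aw k K L z) = aug k (K.prod L) z) ∧
    ∀ (K' L' : SS) (φ : SSHom K K') (ψ : SSHom L L') (z : Ch k (K.prod L)),
      TensorProduct.map (cmap k φ) (cmap k ψ) (aw k K L z) = aw k K' L' (cmap k (φ.prod ψ) z)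

/-- **DlC.** Counits for the coproduct `dl`: only the terms `i = 0`, resp. `j = 0`, survive. -/
def S_DlC : Prop :=
  ∀ (k : Type) [CommRing k] (K : SS) (x : Ch k K),
    TensorProduct.lid k (Ch k K) (TensorProduct.map (aug k K) LinearMap.id (dl k K x)) = x ∧
    TensorProduct.rid k (Ch k K) (TensorProduct.map LinearMap.id (aug k K) (dl k K x)) = x

/-- **DlG** (from AwD, AwG).  `dl` is a chain map compatible with gradings, parity, augmentation, and
natural.  (`dl = aw ∘ cmap diag`, `(φ × φ) ∘ diag = diag ∘ φ`.) -/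
def S_DlG : Prop :=
  ∀ (k : Type) [CommRing k] (K : SS),
    IsCM (chDG k K) ((chDG k K).tens (chDG k K)) (dl k K) ∧
    (∀ (n : ℕ), ∀ z ∈ gr k K n, dl k K z ∈ tgr (gr k K) (gr k K) n) ∧
    (∀ z : Ch k K, augT (aug k K) (aug k K) (dl k K z) = aug k K z) ∧
    ∀ (L : SS) (φ : SSHom K L) (z : Ch k K),
      TensorProduct.map (cmap k φ) (cmap k φ) (dl k K z) = dl k L (cmap k φ z)

/-! ## D. The multiplicative relation -/

/-- **TCM.** The tensor product of chain maps preserving parity. -/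
def S_TCM : Prop :=
  ∀ (k : Type) [CommRing k] (A A' B B' : DG k) (f : A.V →ₗ[k] A'.V) (g : B.V →ₗ[k] B'.V),
    IsCM A A' f → IsCM B B' g → IsCM (A.tens B) (A'.tens B') (TensorProduct.map f g)

/-- **Mid.** The exchange `mid` is a chain map preserving the parity, natural for parity preserving
maps.
Proof: check on pure tensors `(a ⊗ b) ⊗ (c ⊗ d)`.  Every element is the sum of `x - P x` and `P x`;
so one may assume that each of `a`, `b`, `c` satisfies `P x = 0` or `P x = x` (then `sg x = ± x`, and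
`d x` has the opposite parity by `Pd`); the sign `(-1)^(|b| |c|)` is then a number.  `d` of
`(a ⊗ b) ⊗ (c ⊗ d)` is `da b c d + (-1)^|a| a db c d + (-1)^(|a|+|b|) a b dc d +
(-1)^(|a|+|b|+|c|) a b c dd` (`DG.tens_d`, `DG.tens_sg`). -/
def S_Mid : Prop :=
  ∀ (k : Type) [CommRing k] (A B C D : DG k),
    IsCM ((A.tens B).tens (C.tens D)) ((A.tens C).tens (B.tens D)) (mid A B C D) ∧
    ∀ (A' B' C' D' : DG k) (f : A.V →ₗ[k] A'.V) (g : B.V →ₗ[k] B'.V) (h : C.V →ₗ[k] C'.V)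
      (l : D.V →ₗ[k] D'.V), (∀ x, g (B.P x) = B'.P (g x)) → (∀ x, h (C.P x) = C'.P (h x)) →
      ∀ z, TensorProduct.map (TensorProduct.map f h) (TensorProduct.map g l) (mid A B C D z) =
        mid A' B' C' D' (TensorProduct.map (TensorProduct.map f g) (TensorProduct.map h l) z)

/-- **MidE.** `mid` is compatible with augmentations which vanish on the odd part. -/
def S_MidE : Prop :=
  ∀ (k : Type) [CommRing k] (A B C D : DG k) (εA : A.V →ₗ[k] k) (εB : B.V →ₗ[k] k)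
    (εC : C.V →ₗ[k] k) (εD : D.V →ₗ[k] k), (∀ x, εB (B.P x) = 0) →
    ∀ z, augT (augT εA εC) (augT εB εD) (mid A B C D z) =
      augT (augT εA εB) (augT εC εD) z

/-- **UN** (from FAB, AMh).  Natural chain maps `Ch K ⊗ Ch L → T K L` with the same augmentation are
homotopic, if the values of `T` on simplices are contractible.
Proof: `r p q = Φ (ι_p ⊗ ι_q) - Ψ (ι_p ⊗ ι_q)`, `ι_p = sx id ∈ Ch (De p)`, `T p q = F.T (De p) (De q)`.
As `bd ι_(p+1) = ∑ (-1)^j cmap (Ed.map δ_j) ι_p` and `Φ`, `Ψ` are natural chain maps, `r` satisfies the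
relations of AMh (`sg ι_p = (-1)^p ι_p`).  Take `H` of AMh and define
`h (x ⊗ y) = F.map (ev x) (ev y) (H p q)` on simplices (`TensorProduct.lift` of
`Finsupp.linearCombination`s, as `nab`).  Then `d (h (x ⊗ y)) = F.map (ev x) (ev y) (r - D H)`,
`F.map (ev x) (ev y) r = Φ (x ⊗ y) - Ψ (x ⊗ y)` (naturality, `ev_sx`) and
`F.map (ev x) (ev y) (A H) = h (bd x ⊗ y)` (`ev_act`, `map_comp`), similarly for `B`. -/
def S_UN : Prop :=
  ∀ (k : Type) [CommRing k] (F : Fn k)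
    (hc : ∀ p q : ℕ, Nonempty (Ctr (F.T (De p) (De q)) (F.aug (De p) (De q))))
    (Φ Ψ : NMap F) (ha : ∀ (K L : SS) (z : Ch k K ⊗[k] Ch k L),
      F.aug K L (Φ.f K L z) = F.aug K L (Ψ.f K L z)) (K L : SS),
    Hot ((chDG k K).tens (chDG k L)) (F.T K L) (Φ.f K L) (Ψ.f K L)

/-- **Phi** (from NabD, NabG, NabN, NabU, DlG).  The natural map `dl ∘ nab`. -/
def S_Phi : Prop :=
  ∀ (e : ∀ p q : ℕ, Ch ℤ ((De p).prod (De q))) (he : EZ e) (k : Type) [CommRing k],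
    ∃ Φ : NMap (F2 k), (∀ K L z, Φ.f K L z = dl k (K.prod L) (nab k e K L z)) ∧
      ∀ K L z, (F2 k).aug K L (Φ.f K L z) = augT (aug k K) (aug k L) z

/-- **Psi** (from NabD, NabG, NabN, NabU, DlG, TCM, Mid, MidE).  The natural map
`(nab ⊗ nab) ∘ mid ∘ (dl ⊗ dl)`. -/
def S_Psi : Prop :=
  ∀ (e : ∀ p q : ℕ, Ch ℤ ((De p).prod (De q))) (he : EZ e) (k : Type) [CommRing k],
    ∃ Ψ : NMap (F2 k), (∀ K L z, Ψ.f K L z =
        TensorProduct.map (nab k e K L) (nab k e K L)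
          (mid (chDG k K) (chDG k K) (chDG k L) (chDG k L)
            (TensorProduct.map (dl k K) (dl k L) z))) ∧
      ∀ K L z, (F2 k).aug K L (Ψ.f K L z) = augT (aug k K) (aug k L) z

/-- **Hopf** (from UN, Phi, Psi, Con, CtrT, DlG, Mid, NabD, NabG, TCM).  For a multiplication
`m : K × K → K` the coproduct is multiplicative up to homotopy; `mu` is a chain map with parity.
Proof: with `μ = cmap m ∘ nab`: `dl ∘ μ = (m ⊗ m) ∘ dl ∘ nab = (m ⊗ m) Φ` (naturality of `dl`) and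
`(μ ⊗ μ) ∘ mid ∘ (dl ⊗ dl) = (m ⊗ m) Ψ`; compose the homotopy of UN with the chain map
`cmap m ⊗ cmap m`.  The contractions required in UN: CtrT applied to Con. -/
def S_Hopf : Prop :=
  ∀ (e : ∀ p q : ℕ, Ch ℤ ((De p).prod (De q))) (he : EZ e) (k : Type) [CommRing k] (K : SS)
    (m : SSHom (K.prod K) K),
    IsCM ((chDG k K).tens (chDG k K)) (chDG k K) (mu k e m) ∧
    Hot ((chDG k K).tens (chDG k K)) ((chDG k K).tens (chDG k K)) (dl k K ∘ₗ mu k e m)
      (TensorProduct.map (mu k e m) (mu k e m) ∘ₗ exch (od k K) ∘ₗ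
        TensorProduct.map (dl k K) (dl k K))

/-! ## E. Fields: splittings and the duality lemma -/

/-- **SplG.** Splitting of a complex of vector spaces.
Proof: for every `n` let `Z_n` be the cycles (`Z_0 = V_0`), `B_n` the image of `d n`, `H_n` a complement of
`B_n` in `Z_n`, `C_n` a complement of `Z_n` in `V_n`; so `V_n = B_n ⊕ H_n ⊕ C_n` and `d` maps
`C_(n+1)` isomorphically onto `B_n`.  `i` = inclusion, `r` = projection onto `H_n`, `s n` = the
inverse of `C_(n+1) → B_n` on `B_n`, `0` on `H_n ⊕ C_n`. -/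
def S_SplG : Prop :=
  ∀ (k : Type) [Field k] (V : ℕ → Type) [∀ n, AddCommGroup (V n)] [∀ n, Module k (V n)]
    (d : ∀ n, V (n + 1) →ₗ[k] V n) (dd : ∀ n x, d n (d (n + 1) x) = 0),
    ∃ (H : ℕ → Type) (_ : ∀ n, AddCommGroup (H n)) (_ : ∀ n, Module k (H n))
      (i : ∀ n, H n →ₗ[k] V n) (r : ∀ n, V n →ₗ[k] H n) (s : ∀ n, V n →ₗ[k] V (n + 1)),
      (∀ n x, d n (i (n + 1) x) = 0) ∧ (∀ n x, r n (d n x) = 0) ∧ (∀ n x, r n (i n x) = x) ∧
      (∀ x, d 0 (s 0 x) = x - i 0 (r 0 x)) ∧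
      ∀ n x, d (n + 1) (s (n + 1) x) + s n (d n x) = x - i (n + 1) (r (n + 1) x)

/-- **SplT** (from SplG).  Splitting of the total module of chains over a field, with gradings.
Proof: `V n = (K.K n →₀ k)`, `Ch k K` is the direct sum of the `V n` (single out the simplices of
dimension `n`: `Finsupp.lcomapDomain`/`Finsupp.mapDomain (Sigma.mk n)`), `d n` the restriction of `bd`;
`H = ⨁ n, H n` (direct sum, or `Π₀`), `g n` the image of `H n`; all maps componentwise. -/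
def S_SplT : Prop :=
  ∀ (k : Type) [Field k] (K : SS),
    ∃ (S : Spl (chDG k K)) (g : ℕ → Submodule k S.H), (⨆ n, g n) = ⊤ ∧
      (∀ n, ∀ x ∈ g n, S.P x = if Odd n then x else 0) ∧
      (∀ n, ∀ x ∈ g n, S.i x ∈ gr k K n) ∧ (∀ n, ∀ x ∈ gr k K n, S.r x ∈ g n) ∧
      ∀ n, ∀ x ∈ gr k K n, S.s x ∈ gr k K (n + 1)

/-- **HPT.** The tensor product of maps homotopic to the identity by odd homotopies.
Proof: `1 - π ⊗ π' = (1 - π) ⊗ 1 + π ⊗ (1 - π')`, homotopy `s ⊗ 1 + (π sg) ⊗ s'`: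
with `d = d ⊗ 1 + sg ⊗ d`: `(d s + s d) ⊗ 1 + (sg s + s sg) ⊗ d + (d π sg + π sg d) ⊗ s' +
(sg π sg) ⊗ d s' + (π sg sg) ⊗ s' d`; `sg s = - s sg`, `sg d = - d sg`, `sg sg = 1`, `π` commutes with
`d` and `sg`. -/
def S_HPT : Prop :=
  ∀ (k : Type) [CommRing k] (A B : DG k) (π : A.V →ₗ[k] A.V) (π' : B.V →ₗ[k] B.V), HP A π → HP B π' →
    Nonempty (HP (A.tens B) (TensorProduct.map π π'))

/-- **TR** (from HPT, Mid, TCM).  Transfer to the homology `H` of a splitting.  `Δ`, `μ` chain maps with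
parity on `A`, with `Δ μ` homotopic to `(μ ⊗ μ) exch (Δ ⊗ Δ)`; `ΔH = (r ⊗ r) Δ i`,
`μH = r μ (i ⊗ i)`.  Then the relation is strict on `H`.
Proof: for `z ∈ H ⊗ H` put `w = (i ⊗ i) z`, a cycle of `A ⊗ A`.
(1) `ΔH (μH z) = (r ⊗ r) Δ (i r (μ w)) = (r ⊗ r) Δ (μ w)`, since `i r x = x - d s x` for a cycle
`x`, `Δ` is a chain map and `(r ⊗ r)` kills boundaries (`rd`).  (2) By the homotopy and since `w` is a
cycle and `(r ⊗ r) d = 0`, this is `(r μ ⊗ r μ) exch ((Δ ⊗ Δ) w)`.  (3) Let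
`G = (r μ ⊗ r μ) ∘ exch` on `(A ⊗ A) ⊗ (A ⊗ A)`; `G d = 0` (`exch` and `μ ⊗ μ` are
chain maps).  With `π = i r` (HP by the splitting, `s`), `π^{⊗4}` is homotopic to `1` (HPT twice), so
`G x = G (π^{⊗4} x)` for the cycle `x = (Δ ⊗ Δ) w`.  (4) `exch` is natural for parity preserving
maps (Mid; `mid A A A A = exch A.P`), so `G (π^{⊗4} x) = (r μ (i⊗i) ⊗ r μ (i⊗i)) exch_H
((r⊗r) ⊗ (r⊗r)) x`, which is `(μH ⊗ μH) exch_H ((ΔH ⊗ ΔH) z)`. -/
def S_TR : Prop :=
  ∀ (k : Type) [Field k] (A : DG k) (S : Spl A) (Δ : A.V →ₗ[k] A.V ⊗[k] A.V)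
    (μ : A.V ⊗[k] A.V →ₗ[k] A.V) (hΔ : IsCM A (A.tens A) Δ) (hμ : IsCM (A.tens A) A μ)
    (hh : Hot (A.tens A) (A.tens A) (Δ ∘ₗ μ)
      (TensorProduct.map μ μ ∘ₗ exch A.P ∘ₗ TensorProduct.map Δ Δ))
    (ΔH : S.H →ₗ[k] S.H ⊗[k] S.H) (μH : S.H ⊗[k] S.H →ₗ[k] S.H)
    (h1 : ∀ x, ΔH x = TensorProduct.map S.r S.r (Δ (S.i x)))
    (h2 : ∀ z, μH z = S.r (μ (TensorProduct.map S.i S.i z))) (z : S.H ⊗[k] S.H),
    ΔH (μH z) = TensorProduct.map μH μH (exch S.P (TensorProduct.map ΔH ΔH z))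

/-- **FRalg.** The duality lemma (Part 1 of note 3985).
`H` graded with coproduct `Δ`, product `μ` (not associative), unit `one`, counit `ε`, `H_0 = k one`,
`Δ μ = (μ ⊗ μ) exch (Δ ⊗ Δ)`, top degree `d`, `φ` nonzero on `H_d`, zero on the other
degrees.  Then `φ (μ (a ⊗ b)) = 0` for all `b` implies `a = 0`.
Proof.  Put `Fa (b) = (1 ⊗ φ μ) (Δ a ⊗ b) = ∑ a' φ(a'' b)`, linear in `b`.
(1) For every `c`: `(1 ⊗ φ) Δ c = φ(c) one`.  By linearity `c ∈ g n`.  `Δ c` is a sum of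
`c' ⊗ c''`, `c' ∈ g i`, `c'' ∈ g j`, `i + j = n ≤ d` (for `n > d`, `c = 0`).  `φ(c'') = 0` unless
`j = d`, then `i = 0`, `n = d`.  If `n < d` both sides are `0`.  If `n = d`: the terms with `i = 0` are
`c' = ε(c') one`, and by the counit `c = ∑_(i=0) ε(c') c''` (`ε` vanishes on `g i`, `i > 0`), so
`φ(c) = ∑_(i=0) ε(c') φ(c'')`.
(2) Apply `1 ⊗ φ` to `Δ μ (a ⊗ b)`, `b ∈ g n`: for a pure tensor `b' ⊗ b''`, `b' ∈ g i`, `b'' ∈ g j`,
`(1 ⊗ φ)(μ ⊗ μ) exch (Δ a ⊗ (b' ⊗ b'')) = ± μ (Fa(b'') ⊗ b')`, the sign being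
`(-1)^((d-j) i)`: write `Δ a` as a sum of `a' ⊗ a''`, `a'' ∈ g l`; the term is
`(-1)^(l i) μ (a' ⊗ b') φ(μ (a'' ⊗ b''))` and `φ` vanishes unless `l + j = d` (if `j > d`,
`b'' = 0`).
(3) Claim: `Fa (b) = 0` for all `b ∈ g n`, by strong induction on `n`.  `Δ b` is a sum of
`b' ⊗ b''` with `i + j = n`; for `j < n` the contribution (2) is `0` by induction; for `j = n`,
`i = 0`, `b' = ε(b') one`, and `∑_(i=0) ε(b') b'' = b` (counit), so the contribution is
`Fa (b)` (`μ (x ⊗ one) = x`, sign `1`).  Hence by (1) and (2), `Fa (b) = φ(μ (a ⊗ b)) one = 0`.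
(4) By linearity `Fa = 0` on `H`.  Let `L ∈ g d` with `φ(L) = 1` (exists: `φ ≠ 0`).  `Fa (L) =
∑ a' φ(μ (a'' ⊗ L))`; for `a'' ∈ g l`, `l > 0`, `μ (a'' ⊗ L) ∈ g (l + d) = 0`; for `l = 0`,
`a'' = ε(a'') one`, `μ (one ⊗ L) = L`; so `Fa (L) = (1 ⊗ ε) Δ a = a`.  Hence `a = 0`. -/
def S_FRalg : Prop :=
  ∀ (k : Type) [Field k] (H : Type) [AddCommGroup H] [Module k H] (P : H →ₗ[k] H)
    (g : ℕ → Submodule k H) (htop : (⨆ n, g n) = ⊤)
    (hP : ∀ n, ∀ x ∈ g n, P x = if Odd n then x else 0) (Δ : H →ₗ[k] H ⊗[k] H)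
    (μ : H ⊗[k] H →ₗ[k] H) (one : H) (ε : H →ₗ[k] k)
    (hΔ : ∀ n, ∀ x ∈ g n, Δ x ∈ tgr g g n)
    (hμ : ∀ i j, ∀ x ∈ g i, ∀ y ∈ g j, μ (x ⊗ₜ y) ∈ g (i + j))
    (h0 : ∀ x ∈ g 0, x = ε x • one) (h1 : one ∈ g 0) (ε1 : ε one = 1)
    (hε : ∀ n, 0 < n → ∀ x ∈ g n, ε x = 0)
    (cl : ∀ x, TensorProduct.lid k H (TensorProduct.map ε LinearMap.id (Δ x)) = x)
    (cr : ∀ x, TensorProduct.rid k H (TensorProduct.map LinearMap.id ε (Δ x)) = x)
    (ul : ∀ x, μ (one ⊗ₜ x) = x) (ur : ∀ x, μ (x ⊗ₜ one) = x)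
    (mult : ∀ z, Δ (μ z) = TensorProduct.map μ μ (exch P (TensorProduct.map Δ Δ z)))
    (d : ℕ) (hd : ∀ n, d < n → ∀ x ∈ g n, x = 0) (φ : H →ₗ[k] k)
    (hφ : ∀ n, n ≠ d → ∀ x ∈ g n, φ x = 0) (hφ0 : ∃ x, φ x ≠ 0)
    (a : H) (ha : ∀ b, φ (μ (a ⊗ₜ b)) = 0), a = 0

/-- **FRch** (from FRalg, TR, SplT, Hopf, DlG, DlC, NabG).  The duality lemma on the level of
chains.  Proof: take the splitting of SplT and transfer: `Δ = (r ⊗ r) dl i`,
`μ = r mu (i ⊗ i)`, `one = r v`, `ε = aug i`.  `r z = r z'` if `z - z'` is a boundary.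
Hypotheses of FRalg: `hΔ`, `hμ` from the gradings (`tgr` is mapped to `tgr`; `cmap m` preserves `gr n`);
`h0`: for `x ∈ g 0`, `i x - aug (i x) v = bd y`, apply `r`.  `hε`: `aug` vanishes on `gr n`, `n > 0`.
`cl`: `aug (i (r y)) = aug y - aug (bd (s y)) - aug (s (bd y)) = aug y`, because `aug bd = 0` and `aug s = 0`
(`s` raises the dimension); so `(ε ⊗ 1) Δ x = r ((aug ⊗ 1) dl (i x)) = r (i x) = x` by DlC.
`ul`: `i (r v) = v - bd (s v)`, so `μ (one ⊗ x) = r (mu (v ⊗ i x)) - r (mu (bd (s v) ⊗ i x)) =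
r (i x) + r (bd y)`, the second term vanishes because `mu (bd (s v) ⊗ i x) = bd (mu (s v ⊗ i x))`.
`mult`: TR.  `hd`: `x ∈ g n`, `i x` is a cycle in `gr n`, hence a boundary, `x = r (i x) = 0`.
`φH = φ i`: nonzero, as `φ (i (r x)) = φ x` for a cycle `x` (`x = i r x + bd (s x)`).
Conclusion: with `a = r x`: `φ (i (μ (a ⊗ b))) = φ (mu (i r x ⊗ i b)) = φ (mu (x ⊗ i b)) -
φ (bd (mu (s x ⊗ i b))) = 0`; so `r x = 0` and `x = bd (s x)`. -/
def S_FRch : Prop :=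
  ∀ (k : Type) [Field k] (e : ∀ p q : ℕ, Ch ℤ ((De p).prod (De q))) (he : EZ e) (K : SS)
    (v : K.K 0) (m : SSHom (K.prod K) K)
    (hl : ∀ x, bd k K x = 0 → ∃ y, mu k e m (sx k v ⊗ₜ x) - x = bd k K y)
    (hr : ∀ x, bd k K x = 0 → ∃ y, mu k e m (x ⊗ₜ sx k v) - x = bd k K y)
    (h0 : ∀ x ∈ gr k K 0, ∃ y, x - aug k K x • sx k v = bd k K y)
    (d : ℕ) (hd : ∀ n, d < n → ∀ x ∈ gr k K n, bd k K x = 0 → ∃ y, x = bd k K y)
    (φ : Ch k K →ₗ[k] k) (hφ : ∀ n, n ≠ d → ∀ x ∈ gr k K n, φ x = 0)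
    (hφb : ∀ x, φ (bd k K x) = 0) (hφ0 : ∃ x, bd k K x = 0 ∧ φ x ≠ 0)
    (x : Ch k K) (hx : bd k K x = 0) (hxx : ∀ y, bd k K y = 0 → φ (mu k e m (x ⊗ₜ y)) = 0),
    ∃ w, x = bd k K w

/-! ## F. Integral duality: algebra over the group ring -/

/-- **Alp.** Vanishing of the homology modulo `p` above the top degree (Part 2 of note 3985, without
simple connectedness).
Proof.  `X.P i` is a f.g. free abelian group.  If the claim fails let `n > d` be the largest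
degree in which it fails (`X.P i` is trivial for large `i`); so cycles modulo `p` in
degrees `> n` are boundaries modulo `p`.
(1) Every cycle `u` of degree `n` is in `d X + p X`: if `p u = d v`, then `v` is a cycle modulo
`p`, so `v = d w + p w'` and `u = d w'` (torsion free): `p` is injective on `H_n`.  As `a u` is a
boundary for some `a = p^k a' ≠ 0`, `a'` prime to `p`, `a' u` is a boundary, `u = α a' u + β p u`.
(2) Let `z` be a cycle modulo `p` of degree `n`, not a boundary modulo `p`.  There is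
`φ : X.P n → 𝔽_p` vanishing on `d X + p X` with `φ z ≠ 0` (vector space over `𝔽_p`).  FRP applies to
`(n, φ)`.  (3) There is a cycle `u` of degree `n - 1` which is not in `d X + p X`: otherwise every
cycle `u` of degree `n - 1` is `d w + p w'`, `w'` a cycle, i.e. `H_(n-1) = p H_(n-1)`, and
multiplication by `p` on the f.g. group `H_(n-1)` is injective; `d z = p u0`, `u0` a cycle, so
`u0 = d w`, `z - p w` is a cycle, in `d X + p X` by (1), contradiction.  (4) By FRP there is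
a cycle modulo `p`, `y` of degree `n - (n-1) = 1`, with `φ (M u y) ≠ 0`.  `d y = p v`; by H0F `v = d y'`; so
`y - p y'` is a cycle and `φ (M u y) = φ (M u (y - p y'))`, and `M u (y - p y')` is a cycle of degree
`n` by `leib`, so it is in `d X + p X` by (1), contradiction. -/
def S_Alp : Prop :=
  ∀ (G : Type) [CommGroup G] [Finite G] (X : ZCx (ZG G)) (μ : MX X) (hF : μ.FRP) (h0 : X.H0F)
    (hneg : ∀ i : ℤ, i < 0 → Subsingleton (X.P i)) (d : ℤ)
    (ht : ∀ i, d < i → ∀ z : X.P i, X.Cyc i z → ∃ n : ℤ, n ≠ 0 ∧ X.Bdy i (n • z)) (p : ℕ)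
    (hp : p.Prime) (n : ℤ) (hn : d < n) (x : X.P n), X.CycP p n x → X.BdyP p n x

/-- **PhiZ.** An integral cocycle which takes the value `1` on a cycle.
Proof: `Z` = cycles of degree `d`, `B` = boundaries; `Z/B` is f.g. and not torsion, so there is a
surjection `Z/B → ℤ` (structure theorem; or: `Z/B` modulo torsion is f.g. free and nonzero).  `X.P d / Z`
embeds into the free group `X.P (d-1)`, so `Z` is a direct summand of `X.P d`; extend. -/
def S_PhiZ : Prop :=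
  ∀ (G : Type) [CommGroup G] [Finite G] (X : ZCx (ZG G)) (d : ℤ)
    (hz : ∃ z : X.P d, X.Cyc d z ∧ ∀ n : ℤ, n ≠ 0 → ¬ X.Bdy d (n • z)),
    ∃ φ : X.P d →+ ℤ, (∀ w : X.P (d + 1), φ (X.d (d + 1) d w) = 0) ∧
      ∃ z : X.P d, X.Cyc d z ∧ φ z = 1

/-- **Perf** (linear algebra over `𝔽_p`).  Left nondegenerate in all degrees implies perfect.
`H_i` = cycles modulo `p` modulo boundaries modulo `p`, a finite `𝔽_p`-vector space.
`x ↦ (y ↦ φ (M x y))` is a well defined injective map `H_i → Hom(H_(m-i), 𝔽_p)` for every `i`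
(`φ (M (d w) y) = ± φ (M w (d y)) = 0` by `leib`, since `φ d = 0` and `d y ∈ p X`).  So
`|H_i| ≤ |H_(m-i)| ≤ |H_i|` and the map is bijective. -/
def S_Perf : Prop :=
  ∀ (G : Type) [CommGroup G] [Finite G] (X : ZCx (ZG G)) (μ : MX X) (p : ℕ) (hp : p.Prime) (m : ℤ)
    (φ : X.P m →+ ZMod p) (hφ : ∀ z : X.P (m + 1), φ (X.d (m + 1) m z) = 0)
    (hnd : ∀ (i : ℤ) (x : X.P i), X.CycP p i x →
      (∀ y : X.P (m - i), X.CycP p (m - i) y → φ (μ.M i (m - i) m x y) = 0) → X.BdyP p i x)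
    (i : ℤ) (f : X.P (m - i) →+ ZMod p)
    (hf : ∀ z : X.P (m - i + 1), f (X.d (m - i + 1) (m - i) z) = 0),
    ∃ x : X.P i, X.CycP p i x ∧
      ∀ y : X.P (m - i), X.CycP p (m - i) y → f y = φ (μ.M i (m - i) m x y)

/-- **DMap.** The duality map `X → Y` (Part 3).
`F_i x = c_i (y ↦ φ (M x y))`, `c_i = ±1` with `c_i = (-1)^(i+1) c_(i-1)`, e.g.
`c_i = (-1)^(i(i+3)/2)`.  Linear over `ZG G` by `mg`: an additive map commuting with the group
elements.  Chain map: `0 = φ (d (M x y)) = φ (M (d x) y) + (-1)^i φ (M x (d y))` for `x ∈ X_i`,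
`y ∈ X_(m-i+1)` (`leib` in degree `m + 1`), and `(Y.d f)(y) = f (d y)` (`IsDual.comm`,
`ZDmap_apply`).  For `j + 1 ≠ i` both sides vanish (`shape`). -/
def S_DMap : Prop :=
  ∀ (G : Type) [CommGroup G] [Finite G] (X Y : ZCx (ZG G)) (μ : MX X) (m : ℤ) (D : IsDual X Y m)
    (φ : X.P m →+ ℤ) (hφ : ∀ z : X.P (m + 1), φ (X.d (m + 1) m z) = 0),
    ∃ (F : ZHom X Y) (c : ℤ → ℤ), (∀ i, c i = 1 ∨ c i = -1) ∧
      ∀ (i : ℤ) (x : X.P i) (y : X.P (m - i)), D.e i (F.f i x) y = c i * φ (μ.M i (m - i) m x y)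

/-- **DQIP** (from Perf).  The duality map is a quasi-isomorphism modulo `p`.
Proof.  (1) `x` a cycle modulo `p`, `F x = Y.d g + p g'`.  For a cycle `y` modulo `p`:
`± φ (M x y) = g (d y) + p g' (y) ≡ 0`, so `x` is a boundary modulo `p` (`hnd`).
(2) `f ∈ Y_i` a cycle modulo `p`: `f (d z) ≡ 0` for `z ∈ X_(m-i+1)`.  Perf gives `x` with
`f y ≡ ± φ (M x y)` for all cycles `y` modulo `p` (replace `x` by `- x` if `c i = -1`).
`f1 = f - F x` modulo `p` vanishes on the kernel of `d : X_(m-i)/p → X_(m-i-1)/p`, hence (vector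
spaces over `𝔽_p`) is `g ∘ d` modulo `p`, `g : X_(m-i-1)/p → 𝔽_p`; lift `g` to
`X_(m-i-1) → ℤ` (free abelian group): `f1 = g ∘ d + p g'`. -/
def S_DQIP : Prop :=
  ∀ (G : Type) [CommGroup G] [Finite G] (X Y : ZCx (ZG G)) (μ : MX X) (m : ℤ) (D : IsDual X Y m)
    (φ : X.P m →+ ℤ) (hφ : ∀ z : X.P (m + 1), φ (X.d (m + 1) m z) = 0)
    (F : ZHom X Y) (c : ℤ → ℤ) (hc : ∀ i, c i = 1 ∨ c i = -1)
    (hF : ∀ (i : ℤ) (x : X.P i) (y : X.P (m - i)), D.e i (F.f i x) y =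
      c i * φ (μ.M i (m - i) m x y)) (p : ℕ) (hp : p.Prime)
    (hnd : ∀ (i : ℤ) (x : X.P i), X.CycP p i x →
      (∀ y : X.P (m - i), X.CycP p (m - i) y → ((φ (μ.M i (m - i) m x y) : ℤ) : ZMod p) = 0) →
        X.BdyP p i x), F.QIP p

/-- **HEalg** (from Alp, PhiZ, DMap, DQIP, DCx, AlgHE).  The algebraic theorem for complexes with
multiplication.  Proof: `φ`, `z` of PhiZ; for every prime `p`, FRP applies to `φ` modulo `p` (Alp;
`z` is a cycle with `φ z = 1`), which is the hypothesis `hnd` of DQIP.  `Y`, `D` from DCx, `F`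
from DMap; AlgHE.  (`S_DCx`, `S_AlgHE` are in SpecG.) -/
def S_HEalg : Prop :=
  ∀ (G : Type) [CommGroup G] [Finite G] (X : ZCx (ZG G)) (μ : MX X) (hF : μ.FRP) (h0 : X.H0F)
    (hneg : ∀ i : ℤ, i < 0 → Subsingleton (X.P i)) (d : ℤ) (hd : Even d) (ht : X.IsTop d)
    (hN : X.PN), (2 : ℕ) • X.EC = 0 ∧ (Odd (Nat.card G) → X.EC = 0)

/-! ## G. Singular chains -/

/-- **SHot.** Homotopic maps induce homotopic maps of singular chains.
Proof: prism operators `SingHom.PP` (`sbd_PP`, `sbd_PP_zero` in `Pool/Agent/Lib/SingHom/Htpy.lean`),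
assembled to the total module: `Ch k (Sing E)` is the direct sum of the modules `SingHom.SC k E n`. -/
def S_SHot : Prop :=
  ∀ (k : Type) [CommRing k] (E E' : Type) [TopologicalSpace E] [TopologicalSpace E']
    (f g : C(E, E')), f.Homotopic g →
    Hot (chDG k (Sing E)) (chDG k (Sing E')) (cmap k (SingMap g)) (cmap k (SingMap f))

/-- **SH0.** `H_0` of a path-connected space: for a `0`-simplex `σ` (a point `x`) choose a path from `v`
to `x`, compose with `Sx 1 ≃ [0,1]`; its boundary is `± (σ - v)`.  Then linearity. -/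
def S_SH0 : Prop :=
  ∀ (k : Type) [CommRing k] (E : Type) [TopologicalSpace E] [PathConnectedSpace E] (v : E),
    ∀ x ∈ gr k (Sing E) 0, ∃ y, x - aug k (Sing E) x • sx k (vtx v) = bd k (Sing E) y

/-- **SUn** (from SHot, NabU).  Units up to homology: `mu (v ⊗ x) = cmap (m(v, -)) x` and
`mu (x ⊗ v) = cmap (m(-, v)) x` (NabU; `SingMul m` composed with `pair id cst` is `SingMap` of
`x ↦ m (x, v)`), and these maps are homotopic to the identity. -/
def S_SUn : Prop :=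
  ∀ (k : Type) [CommRing k] (e : ∀ p q : ℕ, Ch ℤ ((De p).prod (De q))) (he : EZ e) (E : Type)
    [TopologicalSpace E] (v : E) (m : C(E × E, E))
    (hA : ContinuousMap.Homotopic (ContinuousMap.id E)
      (m.comp (ContinuousMap.prodMk (ContinuousMap.id E) (ContinuousMap.const E v))))
    (hB : ContinuousMap.Homotopic (ContinuousMap.id E)
      (m.comp (ContinuousMap.prodMk (ContinuousMap.const E v) (ContinuousMap.id E)))),
    (∀ x, bd k (Sing E) x = 0 →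
      ∃ y, mu k e (SingMul m) (sx k (vtx v) ⊗ₜ x) - x = bd k (Sing E) y) ∧
    ∀ x, bd k (Sing E) x = 0 →
      ∃ y, mu k e (SingMul m) (x ⊗ₜ sx k (vtx v)) - x = bd k (Sing E) y

/-- **Lift.** The multiplication on the universal covering.
Proof.  `μ`, `F` as in `IsHMul` (`F (0, (x, e)) = x`, `F (1, ·) = μ`); `e'` over `e` (`p` is onto).
(1) `A : I × E → E` the lift of `(s, x) ↦ F (s, (p x, e))` with `A (0, x) = x`, `B` the lift of
`(s, x) ↦ F (s, (e, p x))` with `B (0, x) = x` (`IsCoveringMap.liftHomotopy`).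
`A (·, e')` and `B (·, e')` are lifts of the same path `F (·, (e, e))` from `e'`: equal; let `e''` be the
end point.  (2) `E × E` is simply connected and locally path-connected, so there is a unique
`m : E × E → E` with `p (m (x, y)) = μ (p x, p y)` and `m (e', e') = e''`
(`IsCoveringMap.existsUnique_continuousMap_lifts` or similar).  (3) `A (1, ·)` and `m (·, e')` are lifts
of `x ↦ μ (p x, e)` which agree at `e'`: equal (E connected, `IsCoveringMap.eq_of_comp_eq`);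
`B (1, ·) = m (e', ·)`.  (4) `A (s, g x) = g (A (s, x))` for `g ∈ Deck p` (lifts of the same path
with the same origin), so `m (g x, e') = g (m (x, e'))`, similarly `m (e', g x) = g m (e', x)`.  (5)
`(x, y) ↦ m (g x, y)`, `(x, y) ↦ g (m (x, y))` and `(x, y) ↦ m (x, g y)` are lifts of
`μ (p x, p y)` which agree at `(e', e')`, hence equal. -/
def S_Lift : Prop :=
  ∀ (X E : Type) [TopologicalSpace X] [TopologicalSpace E] [PathConnectedSpace X]
    [SimplyConnectedSpace E] [LocallyPathConnectedSpace E] (p : E → X) (hp : IsCoveringMap p) (e : X)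
    (μ : C(X × X, X)) (hμ : HSp.IsHMul e μ),
    ∃ (v : E) (m : C(E × E, E)),
      ContinuousMap.Homotopic (ContinuousMap.id E)
        (m.comp (ContinuousMap.prodMk (ContinuousMap.id E) (ContinuousMap.const E v))) ∧
      ContinuousMap.Homotopic (ContinuousMap.id E)
        (m.comp (ContinuousMap.prodMk (ContinuousMap.const E v) (ContinuousMap.id E))) ∧
      ∀ (g : HSp.Deck p) (x y : E), m (g.1 x, y) = g.1 (m (x, y)) ∧
        m (x, g.1 y) = g.1 (m (x, y))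

/-- **TEx.** Existence of the transfer data TE for a complex `P` homotopy equivalent to the singular
complex, `Γ` commutative.
Proof: `SingHom.Compare`: Mathlib's singular chain complex `CC ℤ E` (this is `HSp.SC E`) is isomorphic, by
`cmp`, `cmpInv` (`cmp_d`, `cmp_map`) to the elementary one `SingHom.SC ℤ E n = (C(Sx n, E) →₀ ℤ)`, which
is the part `gr n` of `Ch ℤ (Sing E)` (`Finsupp.mapDomain (Sigma.mk n)` and
`Finsupp.comapDomain`).  `f` = equivalence, `cmpInv`, inclusion (`0` in negative degrees); `f'` = component in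
degree `i`, `cmp`, inverse equivalence; `t`, `h` from the two homotopies of the `HomotopyEquiv`
(`Homotopy.comm`, `dNext`, `prevD` as in `HS/TH.lean`; the sign: `f' f - 1 = d h + h d`).
`act g = g` as a continuous map; `f (g x) = g f (x)` as the equivalence is linear over the group ring
and `g` acts on `HSp.SX` by `HSp.SCmap` (`MonoidAlgebra.lift_of`). -/
def S_TEx : Prop :=
  ∀ (E : Type) [TopologicalSpace E] (Γ : Subgroup (E ≃ₜ E)) (G : Type) [CommGroup G]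
    (θ : G ≃* Γ) (P : ℕ → Type) [∀ i, AddCommGroup (P i)] [∀ i, Module (ZG G) (P i)]
    (fi : ∀ i, Module.Finite (ZG G) (P i)) (pr : ∀ i, Module.Projective (ZG G) (P i))
    (d : ∀ i j : ℕ, P i →ₗ[ZG G] P j) (shape : ∀ i j : ℕ, j + 1 ≠ i → d i j = 0)
    (dd : ∀ (i j k : ℕ) (x : P i), d j k (d i j x) = 0) (N : ℕ)
    (bdd : ∀ i : ℕ, N < i → Subsingleton (P i))
    (u : ∀ i, P i →+ (HSp.SC E).X i) (u' : ∀ i, (HSp.SC E).X i →+ P i)
    (a : ∀ i, P i →+ P (i + 1)) (b : ∀ i, (HSp.SC E).X i →+ (HSp.SC E).X (i + 1))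
    (ud : ∀ i x, u i (d (i + 1) i x) = ((HSp.SC E).d (i + 1) i).hom (u (i + 1) x))
    (u'd : ∀ i x, u' i (((HSp.SC E).d (i + 1) i).hom x) = d (i + 1) i (u' (i + 1) x))
    (ha0 : ∀ x, u' 0 (u 0 x) - x = d 1 0 (a 0 x))
    (ha : ∀ i x, u' (i + 1) (u (i + 1) x) - x = d (i + 2) (i + 1) (a (i + 1) x) +
      a i (d (i + 1) i x))
    (hb0 : ∀ x, u 0 (u' 0 x) - x = ((HSp.SC E).d 1 0).hom (b 0 x))
    (hb : ∀ i x, u (i + 1) (u' (i + 1) x) - x = ((HSp.SC E).d (i + 2) (i + 1)).hom (b (i + 1) x) +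
      b i (((HSp.SC E).d (i + 1) i).hom x))
    (ug : ∀ (g : G) i x, u i (MonoidAlgebra.of ℤ G g • x) =
      ((HSp.SCmap ((θ g).1 : C(E, E))).f i).hom (u i x))
    (u'g : ∀ (g : G) i x, u' i (((HSp.SCmap ((θ g).1 : C(E, E))).f i).hom x) =
      MonoidAlgebra.of ℤ G g • u' i x),
    Nonempty (TE (ofNat P fi pr d shape dd N bdd) E (fun g => ((θ g).1 : C(E, E))))

/-- **MXE** (from Hopf, NabG, NabN).  The multiplication on `X`: `M i j n x y = f' n (mu (f i x ⊗ f j y))`.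
`leib`: `f'd`, `mu` is a chain map (Hopf, over `ℤ`), `sg (f i x) = (-1)^i f i x` for `i ≥ 0` (`f_gr`; for
`i < 0`, `X.P i` is trivial), `fd`.  `mg`: `fg`, and `mu (g x ⊗ y) = mu (x ⊗ g y)` by naturality
of `nab` and `m (g x, y) = m (x, g y)`. -/
def S_MXE : Prop :=
  ∀ (G : Type) [CommGroup G] (X : ZCx (ZG G)) (E : Type) [TopologicalSpace E] (act : G → C(E, E))
    (t : TE X E act) (hneg : ∀ i : ℤ, i < 0 → Subsingleton (X.P i))
    (e : ∀ p q : ℕ, Ch ℤ ((De p).prod (De q))) (he : EZ e) (m : C(E × E, E))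
    (hm : ∀ (g : G) (x y : E), m (act g x, y) = m (x, act g y)),
    ∃ μ : MX X, ∀ (i j n : ℤ) (x : X.P i) (y : X.P j),
      μ.M i j n x y = t.f' n (mu ℤ e (SingMul m) (t.f i x ⊗ₜ t.f j y))

/-- **FRPE** (from FRch, SUn, SH0, Hopf, NabG, NabR).  The multiplication of MXE has the property FRP.
Proof.  Let `p`, `m0`, `φ` be as in FRP, `k = ZMod p`.  If `m0 < 0`, `X.P m0` is trivial and there is no
`z` with `φ z ≠ 0`; let `m0 = d ∈ ℕ`.  `φ' : Ch k (Sing E) → k`, on a simplex `σ`: `φ (f' d (sx σ))`;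
then `φ' (cc c) = φ (f' d c)` for `c ∈ Ch ℤ`.  Every chain over `k` is `cc c`, and `cc c = 0` iff `c ∈ p Ch`.
FRch for `φ'`: `hφ` from `f'_gr`; `hφb` from `f'd`; `hφ0`: for `z` with `φ z ≠ 0`, `cc (f z)` is a cycle and
`φ' (cc (f z)) = φ (f' (f z)) = φ (z + d h z + h d z) = φ z` (`d z ∈ p`, `φ d = 0`); `hd`: a cycle
`cc c`, `c ∈ gr n`, `n > d`, `bd c ∈ p`: `f' c` is a cycle modulo `p`, `f' c = d w + p w'`, so
`c = f f' c - bd (t c) - t (bd c) ∈ bd + p`.  `hl`, `hr`, `h0`: SUn, SH0.  Now let `x ∈ X.P i` be a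
cycle modulo `p` as in FRP (`i < 0`: trivial), `x' = cc (f x)`.  For a cycle `y' = cc c` (by
linearity `c ∈ gr j`; if `j ≠ d - i` then `mu (f x ⊗ c) ∈ gr (i + j)` is killed by `f' d`): `c` is
homologous modulo `p` to `f f' c`: `c = f f' c - bd (t c) - t (bd c)`, `t (bd c) ∈ p`, and
`φ (f' (mu (f x ⊗ bd (t c)))) = ± φ (f' (bd (mu (f x ⊗ t c)))) + ... = 0` modulo `p` (`bd (f x) ∈ p`);
so `φ' (mu (x' ⊗ y')) = φ (M x (f' c)) = 0`, as `f' c` is a cycle modulo `p`.  By FRch `x' = bd w'`, so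
`f x ∈ bd + p`, and `x = f' f x - d h x - h d x ∈ d X + p X`. -/
def S_FRPE : Prop :=
  ∀ (G : Type) [CommGroup G] (X : ZCx (ZG G)) (E : Type) [TopologicalSpace E]
    [PathConnectedSpace E] (act : G → C(E, E))
    (t : TE X E act) (hneg : ∀ i : ℤ, i < 0 → Subsingleton (X.P i))
    (e : ∀ p q : ℕ, Ch ℤ ((De p).prod (De q))) (he : EZ e) (v : E) (m : C(E × E, E))
    (hA : ContinuousMap.Homotopic (ContinuousMap.id E)
      (m.comp (ContinuousMap.prodMk (ContinuousMap.id E) (ContinuousMap.const E v))))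
    (hB : ContinuousMap.Homotopic (ContinuousMap.id E)
      (m.comp (ContinuousMap.prodMk (ContinuousMap.const E v) (ContinuousMap.id E))))
    (μ : MX X) (hM : ∀ (i j n : ℤ) (x : X.P i) (y : X.P j),
      μ.M i j n x y = t.f' n (mu ℤ e (SingMul m) (t.f i x ⊗ₜ t.f j y))), μ.FRP

/-- **H0E** (from SH0).  The homology of `X` in degree `0` is torsion free.
Proof: `p x = d w`.  `f x ∈ gr 0`, `p f x = bd (f w)`, so `p aug (f x) = 0`, `aug (f x) = 0`, and
`f x = bd y` by SH0; `x = f' f x - d h x` (`X.P (-1)` is trivial) is a boundary. -/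
def S_H0E : Prop :=
  ∀ (G : Type) [CommGroup G] (X : ZCx (ZG G)) (E : Type) [TopologicalSpace E]
    [PathConnectedSpace E] (act : G → C(E, E)) (t : TE X E act)
    (hneg : ∀ i : ℤ, i < 0 → Subsingleton (X.P i)), X.H0F

/-- **Lpc.** A covering space of a locally path-connected space is locally path-connected (a covering
map is a local homeomorphism). -/
def S_Lpc : Prop :=
  ∀ (X E : Type) [TopologicalSpace X] [TopologicalSpace E] [LocallyPathConnectedSpace X] (p : E → X)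
    (hp : IsCoveringMap p), LocallyPathConnectedSpace E

/-- **DCo.** The group of deck transformations of a covering with property (N) is commutative: for
`a, g ∈ Γ` and the homotopy `H` of (N) for `g`: `H (1, a x) = a H (1, x)`, i.e. `g (a x) = a (g x)`. -/
def S_DCo : Prop :=
  ∀ (E : Type) [TopologicalSpace E] (Γ : Subgroup (E ≃ₜ E)) (hN : HSp.PropN Γ) (a g : Γ),
    a * g = g * a

/-- `d` is the top degree of the rational homology of `E`: the integral homology is not a torsion group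
in degree `d`, and a torsion group in all degrees `> d`. -/
def IsTopDeg (E : Type) [TopologicalSpace E] (d : ℕ) : Prop :=
  (∃ z : (HSp.SC E).X d, (∀ j, ((HSp.SC E).d d j).hom z = 0) ∧
    ∀ n : ℤ, n ≠ 0 → ¬ ∃ w : (HSp.SC E).X (d + 1), ((HSp.SC E).d (d + 1) d).hom w = n • z) ∧
  ∀ i, d < i → ∀ z : (HSp.SC E).X i, (∀ j, ((HSp.SC E).d i j).hom z = 0) →
    ∃ n : ℤ, n ≠ 0 ∧ ∃ w : (HSp.SC E).X (i + 1), ((HSp.SC E).d (i + 1) i).hom w = n • z

/-- **Top.** The top degree of the singular complex is the top degree of the complex `P`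
(homotopy equivalences preserve cycles, boundaries; data `u`, `u'`, `a`, `b` as in TEx). -/
def S_Top : Prop :=
  ∀ (E : Type) [TopologicalSpace E] (G : Type) [CommGroup G]
    (P : ℕ → Type) [∀ i, AddCommGroup (P i)] [∀ i, Module (ZG G) (P i)]
    (fi : ∀ i, Module.Finite (ZG G) (P i)) (pr : ∀ i, Module.Projective (ZG G) (P i))
    (d : ∀ i j : ℕ, P i →ₗ[ZG G] P j) (shape : ∀ i j : ℕ, j + 1 ≠ i → d i j = 0)
    (dd : ∀ (i j k : ℕ) (x : P i), d j k (d i j x) = 0) (N : ℕ)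
    (bdd : ∀ i : ℕ, N < i → Subsingleton (P i))
    (u : ∀ i, P i →+ (HSp.SC E).X i) (u' : ∀ i, (HSp.SC E).X i →+ P i)
    (a : ∀ i, P i →+ P (i + 1)) (b : ∀ i, (HSp.SC E).X i →+ (HSp.SC E).X (i + 1))
    (ud : ∀ i x, u i (d (i + 1) i x) = ((HSp.SC E).d (i + 1) i).hom (u (i + 1) x))
    (u'd : ∀ i x, u' i (((HSp.SC E).d (i + 1) i).hom x) = d (i + 1) i (u' (i + 1) x))
    (ha0 : ∀ x, u' 0 (u 0 x) - x = d 1 0 (a 0 x))
    (ha : ∀ i x, u' (i + 1) (u (i + 1) x) - x = d (i + 2) (i + 1) (a (i + 1) x) +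
      a i (d (i + 1) i x))
    (hb0 : ∀ x, u 0 (u' 0 x) - x = ((HSp.SC E).d 1 0).hom (b 0 x))
    (hb : ∀ i x, u (i + 1) (u' (i + 1) x) - x = ((HSp.SC E).d (i + 2) (i + 1)).hom (b (i + 1) x) +
      b i (((HSp.SC E).d (i + 1) i).hom x)) (n : ℕ),
    IsTopDeg E n → (ofNat P fi pr d shape dd N bdd).IsTop n

/-- **PNx** (from HSp.S_TS, HSp.S_TH).  Property (N) of the complex `P`: TS gives the contraction of
`(g - 1)` on the singular complex, TH transfers it to `P`; extend by zero to negative degrees. -/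
def S_PNx : Prop :=
  ∀ (E : Type) [TopologicalSpace E] (Γ : Subgroup (E ≃ₜ E)) (hN : HSp.PropN Γ)
    (P : ChainComplex (ModuleCat.{0} (MonoidAlgebra ℤ Γ)) ℕ)
    (heq : Nonempty (HomotopyEquiv P (HSp.singL Γ))) (g : Γ),
    ∃ h : ∀ i : ℕ, P.X i →ₗ[MonoidAlgebra ℤ Γ] P.X (i + 1),
      (∀ x, (P.d 1 0).hom (h 0 x) = MonoidAlgebra.of ℤ Γ g • x - x) ∧
      ∀ (i : ℕ) (x : P.X (i + 1)), (P.d (i + 2) (i + 1)).hom (h (i + 1) x) +
        h i ((P.d (i + 1) i).hom x) = MonoidAlgebra.of ℤ Γ g • x - x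

/-- **UA.** The data `u`, `u'`, `a`, `b` of TEx from a homotopy equivalence `P ≃ singL Γ`
(as in `HS/TH.lean`; `Γ` acts on `HSp.SX` through `HSp.SCmap`, `HSp.SX_smul_def`, `MonoidAlgebra.lift_of`).
-/
def S_UA : Prop :=
  ∀ (E : Type) [TopologicalSpace E] (Γ : Subgroup (E ≃ₜ E))
    (P : ChainComplex (ModuleCat.{0} (MonoidAlgebra ℤ Γ)) ℕ)
    (heq : Nonempty (HomotopyEquiv P (HSp.singL Γ))),
    ∃ (u : ∀ i, P.X i →+ (HSp.SC E).X i) (u' : ∀ i, (HSp.SC E).X i →+ P.X i)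
      (a : ∀ i, P.X i →+ P.X (i + 1)) (b : ∀ i, (HSp.SC E).X i →+ (HSp.SC E).X (i + 1)),
      (∀ i x, u i ((P.d (i + 1) i).hom x) = ((HSp.SC E).d (i + 1) i).hom (u (i + 1) x)) ∧
      (∀ i x, u' i (((HSp.SC E).d (i + 1) i).hom x) = (P.d (i + 1) i).hom (u' (i + 1) x)) ∧
      (∀ x, u' 0 (u 0 x) - x = (P.d 1 0).hom (a 0 x)) ∧
      (∀ i x, u' (i + 1) (u (i + 1) x) - x = (P.d (i + 2) (i + 1)).hom (a (i + 1) x) +
        a i ((P.d (i + 1) i).hom x)) ∧
      (∀ x, u 0 (u' 0 x) - x = ((HSp.SC E).d 1 0).hom (b 0 x)) ∧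
      (∀ i x, u (i + 1) (u' (i + 1) x) - x = ((HSp.SC E).d (i + 2) (i + 1)).hom (b (i + 1) x) +
        b i (((HSp.SC E).d (i + 1) i).hom x)) ∧
      (∀ (g : Γ) i x, u i (MonoidAlgebra.of ℤ Γ g • x) =
        ((HSp.SCmap (g.1 : C(E, E))).f i).hom (u i x)) ∧
      (∀ (g : Γ) i x, u' i (((HSp.SCmap (g.1 : C(E, E))).f i).hom x) =
        MonoidAlgebra.of ℤ Γ g • u' i x)

/-- **HEtop** (from HEalg, TEx, MXE, FRPE, H0E, Lift, Lpc, DCo, Top, PNx, UA, ECN, HSp.S_TN, EZex).  The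
theorem.  `n = 2`, and `n = 1` if the order of the fundamental group is odd.
Proof: `Γ = Deck p`, HSp.S_TN gives (N), DCo: `Γ` is commutative; put on `Γ` the structure of commutative
group extending the given one.  `X = ofNat (fun i => P.X i) ...`, `N = 2 K`.  TEx, Lift, MXE, FRPE,
H0E, Top, PNx give the hypotheses of HEalg; `n • X.EC = 0` and ECN. -/
def S_HEtop : Prop :=
  ∀ (X E : Type) [TopologicalSpace X] [TopologicalSpace E] [PathConnectedSpace X]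
    [LocallyPathConnectedSpace X] [SimplyConnectedSpace E] (p : E → X) (hp : IsCoveringMap p) (e : X)
    (μ : C(X × X, X)) (hμ : HSp.IsHMul e μ) (hfin : Finite (HSp.Deck p))
    (P : ChainComplex (ModuleCat.{0} (MonoidAlgebra ℤ (HSp.Deck p))) ℕ)
    (hP : ∀ i, Module.Finite (MonoidAlgebra ℤ (HSp.Deck p)) (P.X i))
    (hP' : ∀ i, Module.Projective (MonoidAlgebra ℤ (HSp.Deck p)) (P.X i)) (K : ℕ)
    (hK : ∀ i, 2 * K ≤ i → Subsingleton (P.X i))
    (heq : Nonempty (HomotopyEquiv P (HSp.singL (HSp.Deck p)))) (d : ℕ) (hd : Even d)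
    (ht : IsTopDeg E d) (n : ℕ) (hn : n = 2 ∨ n = 1 ∧ Odd (Nat.card (HSp.Deck p))),
    ∃ a b : ℕ, Nonempty (((Fin n → ∀ j : Fin K, P.X (2 * j)) ×
        (Fin a → MonoidAlgebra ℤ (HSp.Deck p))) ≃ₗ[MonoidAlgebra ℤ (HSp.Deck p)]
      ((Fin n → ∀ j : Fin K, P.X (2 * j + 1)) × (Fin b → MonoidAlgebra ℤ (HSp.Deck p))))

end HEp
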