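import Pool.Agent.Lib.MP_181146_gt.HE.SpecG

/-!
# Project HE, module AIs: the induction step for Artin induction
-/

set_option linter.unusedVariables false
set_option autoImplicit false

namespace HEp

private theorem lin_surj (p : ℕ) (l : Option (ZMod p)) : Function.Surjective (lin p l) := by
  intro x
  cases l with
  | none => exact ⟨(0, x), rfl⟩
  | some s =>
    refine ⟨(x, 0), ?_⟩
    change x - s * 0 = x
    rw [mul_zero, sub_zero]

private theorem linG_surj {G : Type} [CommGroup G] {p : ℕ}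
    (π : G →* Multiplicative (ZMod p × ZMod p)) (hπ : Function.Surjective π)
    (l : Option (ZMod p)) : Function.Surjective (linG π l) := by
  intro y
  obtain ⟨v, hv⟩ := lin_surj p l y.toAdd
  obtain ⟨g, hg⟩ := hπ (Multiplicative.ofAdd v)
  refine ⟨g, ?_⟩
  change Multiplicative.ofAdd (lin p l (π g).toAdd) = y
  rw [hg, toAdd_ofAdd, hv, ofAdd_toAdd]

private theorem key (hIR : S_IR) (hRSfp : S_RSfp) (G : Type) [CommGroup G] [Finite G]
    (X : Type) [AddCommGroup X] [Finite X] [Nontrivial X] (ρ : G →* Multiplicative X)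
    (hρ : Function.Surjective ρ) (M : Type) [AddCommGroup M] [Module (ZG G) M]
    [Module.Finite (ZG G) M] [Module.Projective (ZG G) M] (a : ℕ)
    (h : ∀ (H : Subgroup G), (H ≠ ⊤) → ∀ [Module.Finite (ZG H) (RS H.subtype M)]
      [Module.Projective (ZG H) (RS H.subtype M)], a • cl (ZG H) (RS H.subtype M) = 0)
    [Module.Finite (ZG G) (TF ρ M)] [Module.Projective (ZG G) (TF ρ M)] :
    a • cl (ZG G) (TF ρ M) = 0 := by
  obtain ⟨i, hi⟩ := hIR ρ.ker G X ρ hρ ρ.ker.subtype (Subgroup.subtype_injective _) fun g =>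
    ⟨fun hg => ⟨⟨g, hg⟩, rfl⟩, fun ⟨k, hk⟩ => by rw [← hk]; exact k.2⟩
  obtain ⟨-, h2⟩ := hRSfp ρ.ker G ρ.ker.subtype (Subgroup.subtype_injective _)
  obtain ⟨h3, h4⟩ := h2 M
  have hne : ρ.ker ≠ ⊤ := by
    intro htop
    obtain ⟨x, hx⟩ := exists_ne (0 : X)
    obtain ⟨g, hg⟩ := hρ (Multiplicative.ofAdd x)
    have h5 : g ∈ ρ.ker := by
      rw [htop]
      exact Subgroup.mem_top g
    rw [MonoidHom.mem_ker, hg] at h5
    exact hx h5
  rw [← hi M, ← map_nsmul, h ρ.ker hne, map_zero]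

theorem sAIs (hQRel : S_QRel) (hIR : S_IR) (hTFfp : S_TFfp) (hRSfp : S_RSfp) : S_AIs := by
  intro G _ _ p hp π hπ M _ _ _ _ a h
  have hf : Fact p.Prime := ⟨hp⟩
  obtain ⟨h1, h2⟩ := hTFfp G (ZMod p × ZMod p) π M
  have h3 : ∀ l, Module.Finite (ZG G) (TF (linG π l) M) := fun l => (hTFfp G (ZMod p) (linG π l) M).1
  have h4 : ∀ l, Module.Projective (ZG G) (TF (linG π l) M) :=
    fun l => (hTFfp G (ZMod p) (linG π l) M).2
  have h5 := congrArg (fun x => a • x) (hQRel G p π M)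
  simp only [smul_add, Finset.smul_sum] at h5
  rw [key hIR hRSfp G (ZMod p × ZMod p) π hπ M a h, add_zero, Finset.sum_eq_zero
    fun l _ => key hIR hRSfp G (ZMod p) (linG π l) (linG_surj π hπ l) M a h] at h5
  rw [mul_smul]
  exact h5

end HEp
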