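import Pool.Agent.Lib.MP_181146_gt.HE.SpecS

/-!
# Project HE, module AMe: abstract recursion, existence.
-/

set_option autoImplicit false

namespace HEp

/-- Double recursion. -/
private noncomputable def ameR {T : ℕ → ℕ → Type} (z : T 0 0) (gp : ∀ p, T p 0 → T (p + 1) 0)
    (gq : ∀ q, T 0 q → T 0 (q + 1))
    (G : ∀ p q, T p (q + 1) → T (p + 1) q → T (p + 1) (q + 1)) : ∀ p q, T p q
  | 0 => fun q => Nat.rec (motive := fun q => T 0 q) z gq q
  | p + 1 => fun q => Nat.rec (motive := fun q => T (p + 1) q) (gp p (ameR z gp gq G p 0))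
      (fun q x => G p q (ameR z gp gq G p (q + 1)) x) q

theorem sAMe : S_AMe := by
  intro k _ T _ _ d h ε u A B Gr rel εh AA BB AB Ad Bd εA εB hGr AGr BGr c c' cc' dc0 dc dc' εc εc'
    cGr cGr'
  obtain ⟨e, e00, ep0, e0q, epq⟩ : ∃ e : ∀ p q, T p q, e 0 0 = c' 0 ∧
      (∀ p, e (p + 1) 0 = c (p + 1)) ∧ (∀ q, e 0 (q + 1) = c' (q + 1)) ∧
      ∀ p q, e (p + 1) (q + 1) = h (p + 1) (q + 1) (A p (q + 1) (e p (q + 1)) +
        (-1 : k) ^ (p + 1) • B (p + 1) q (e (p + 1) q)) :=
    ⟨ameR (c' 0) (fun p _ => c (p + 1)) (fun q _ => c' (q + 1)) (fun p q x y =>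
      h (p + 1) (q + 1) (A p (q + 1) x + (-1 : k) ^ (p + 1) • B (p + 1) q y)),
      rfl, fun _ => rfl, fun _ => rfl, fun _ _ => rfl⟩
  have hp0 : ∀ p, e p 0 = c p := by
    intro p
    cases p with
    | zero => rw [e00, cc']
    | succ p => exact ep0 p
  have h0q : ∀ q, e 0 q = c' q := by
    intro q
    cases q with
    | zero => exact e00
    | succ q => exact e0q q
  have εp : ∀ p q, ε (p + 1) q (e (p + 1) q) = 0 := by
    intro p q
    cases q with
    | zero => rw [ep0]; exact εc p
    | succ q => rw [epq]; exact εh _ _ _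
  have εq : ∀ p q, ε p (q + 1) (e p (q + 1)) = 0 := by
    intro p q
    cases p with
    | zero => rw [e0q]; exact εc' q
    | succ p => exact εp p (q + 1)
  have hd : ∀ n p q, p + q = n → d (p + 1) (q + 1) (e (p + 1) (q + 1)) =
      A p (q + 1) (e p (q + 1)) + (-1 : k) ^ (p + 1) • B (p + 1) q (e (p + 1) q) := by
    intro n
    induction n using Nat.strong_induction_on with
    | _ n ih =>
      intro p q hpq
      -- the differential of the two neighbours
      have hA : A p (q + 1) (d p (q + 1) (e p (q + 1))) =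
          (-1 : k) ^ p • A p (q + 1) (B p q (e p q)) := by
        cases p with
        | zero => rw [e0q, dc', h0q, pow_zero, one_smul]
        | succ p =>
          rw [ih (p + q) (by omega) p q rfl, map_add, AA, map_smul, zero_add]
      have hB : B (p + 1) q (d (p + 1) q (e (p + 1) q)) = A p (q + 1) (B p q (e p q)) := by
        rw [AB]
        cases q with
        | zero => rw [ep0, dc, hp0]
        | succ q =>
          rw [ih (p + q) (by omega) p q rfl, map_add, map_smul, BB, smul_zero, add_zero]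
      have hy : d (p + 1) (q + 1) (A p (q + 1) (e p (q + 1)) +
          (-1 : k) ^ (p + 1) • B (p + 1) q (e (p + 1) q)) = 0 := by
        rw [map_add, map_smul, ← Ad, ← Bd, hA, hB, ← add_smul, pow_succ, mul_neg_one,
          add_neg_cancel, zero_smul]
      have hε : ε (p + 1) (q + 1) (A p (q + 1) (e p (q + 1)) +
          (-1 : k) ^ (p + 1) • B (p + 1) q (e (p + 1) q)) = 0 := by
        rw [map_add, map_smul, εA _ _ _ (εq p q), εB _ _ _ (εp p q), smul_zero, add_zero]
      have hr := rel (p + 1) (q + 1) (A p (q + 1) (e p (q + 1)) +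
          (-1 : k) ^ (p + 1) • B (p + 1) q (e (p + 1) q))
      rw [hy, hε, map_zero, add_zero, zero_smul, sub_zero] at hr
      rw [epq]
      exact hr
  refine ⟨e, hp0, h0q, fun p q => hd (p + q) p q rfl, ?_⟩
  intro p
  induction p with
  | zero =>
    intro q
    rw [h0q, Nat.zero_add]
    exact cGr' q
  | succ p ih =>
    intro q
    induction q with
    | zero =>
      rw [hp0]
      exact cGr (p + 1)
    | succ q ihq =>
      rw [epq]
      refine hGr (p + 1 + q) (p + 1) (q + 1) _ (Submodule.add_mem _ ?_ (Submodule.smul_mem _ _ ?_))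
      · have h1 := AGr _ _ _ _ (ih (q + 1))
        rw [show p + (q + 1) = p + 1 + q by omega] at h1
        exact h1
      · exact BGr _ _ _ _ ihq

end HEp
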