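import Pool.Agent.Lib.MP_181146_gt.HE.SpecS

/-!
# Project HE, module AMh: abstract recursion, homotopies.
-/

set_option autoImplicit false

namespace HEp

/-- Double recursion. -/
private noncomputable def amhR {T : ℕ → ℕ → Type} (z : T 0 0) (gp : ∀ p, T p 0 → T (p + 1) 0)
    (gq : ∀ q, T 0 q → T 0 (q + 1))
    (G : ∀ p q, T p (q + 1) → T (p + 1) q → T (p + 1) (q + 1)) : ∀ p q, T p q
  | 0 => fun q => Nat.rec (motive := fun q => T 0 q) z gq q
  | p + 1 => fun q => Nat.rec (motive := fun q => T (p + 1) q) (gp p (amhR z gp gq G p 0))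
      (fun q x => G p q (amhR z gp gq G p (q + 1)) x) q

theorem sAMh : S_AMh := by
  intro k _ T _ _ d h ε u A B rel εh AA BB AB Ad Bd εA εB r εr r00 rp0 r0q rpq
  obtain ⟨H, H00, Hp0, H0q, Hpq⟩ : ∃ H : ∀ p q, T p q, H 0 0 = h 0 0 (r 0 0) ∧
      (∀ p, H (p + 1) 0 = h (p + 1) 0 (r (p + 1) 0 - A p 0 (H p 0))) ∧
      (∀ q, H 0 (q + 1) = h 0 (q + 1) (r 0 (q + 1) - B 0 q (H 0 q))) ∧
      ∀ p q, H (p + 1) (q + 1) = h (p + 1) (q + 1) (r (p + 1) (q + 1) -
        (A p (q + 1) (H p (q + 1)) + (-1 : k) ^ (p + 1) • B (p + 1) q (H (p + 1) q))) :=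
    ⟨amhR (h 0 0 (r 0 0)) (fun p x => h (p + 1) 0 (r (p + 1) 0 - A p 0 x))
      (fun q x => h 0 (q + 1) (r 0 (q + 1) - B 0 q x))
      (fun p q x y => h (p + 1) (q + 1) (r (p + 1) (q + 1) -
        (A p (q + 1) x + (-1 : k) ^ (p + 1) • B (p + 1) q y))),
      rfl, fun _ => rfl, fun _ => rfl, fun _ _ => rfl⟩
  have εH : ∀ p q, ε p q (H p q) = 0 := by
    intro p q
    cases p with
    | zero =>
      cases q with
      | zero => rw [H00]; exact εh _ _ _
      | succ q => rw [H0q]; exact εh _ _ _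
    | succ p =>
      cases q with
      | zero => rw [Hp0]; exact εh _ _ _
      | succ q => rw [Hpq]; exact εh _ _ _
  -- `d (h x) = x` if `d x = 0` and `ε x = 0`
  have key : ∀ p q x, d p q x = 0 → ε p q x = 0 → d p q (h p q x) = x := by
    intro p q x h1 h2
    have h3 := rel p q x
    rw [h1, h2, map_zero, add_zero, zero_smul, sub_zero] at h3
    exact h3
  have d00 : d 0 0 (H 0 0) = r 0 0 := by
    rw [H00]
    exact key 0 0 _ r00 (εr 0 0)
  have dp0 : ∀ p, d (p + 1) 0 (H (p + 1) 0) = r (p + 1) 0 - A p 0 (H p 0) := by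
    intro p
    induction p with
    | zero =>
      rw [Hp0]
      refine key _ _ _ ?_ ?_
      · rw [map_sub, rp0, ← Ad, d00, sub_self]
      · rw [map_sub, εr, εA _ _ _ (εH 0 0), sub_zero]
    | succ p ih =>
      rw [Hp0]
      refine key _ _ _ ?_ ?_
      · rw [map_sub, rp0, ← Ad, ih, map_sub, AA, sub_zero, sub_self]
      · rw [map_sub, εr, εA _ _ _ (εH _ _), sub_zero]
  have d0q : ∀ q, d 0 (q + 1) (H 0 (q + 1)) = r 0 (q + 1) - B 0 q (H 0 q) := by
    intro q
    induction q with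
    | zero =>
      rw [H0q]
      refine key _ _ _ ?_ ?_
      · rw [map_sub, r0q, ← Bd, d00, sub_self]
      · rw [map_sub, εr, εB _ _ _ (εH 0 0), sub_zero]
    | succ q ih =>
      rw [H0q]
      refine key _ _ _ ?_ ?_
      · rw [map_sub, r0q, ← Bd, ih, map_sub, BB, sub_zero, sub_self]
      · rw [map_sub, εr, εB _ _ _ (εH _ _), sub_zero]
  have dpq : ∀ n p q, p + q = n → d (p + 1) (q + 1) (H (p + 1) (q + 1)) = r (p + 1) (q + 1) -
      (A p (q + 1) (H p (q + 1)) + (-1 : k) ^ (p + 1) • B (p + 1) q (H (p + 1) q)) := by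
    intro n
    induction n using Nat.strong_induction_on with
    | _ n ih =>
      intro p q hpq
      have hA : A p (q + 1) (d p (q + 1) (H p (q + 1))) =
          A p (q + 1) (r p (q + 1)) - (-1 : k) ^ p • A p (q + 1) (B p q (H p q)) := by
        cases p with
        | zero => rw [d0q, map_sub, pow_zero, one_smul]
        | succ p =>
          rw [ih (p + q) (by omega) p q rfl, map_sub, map_add, AA, map_smul, zero_add]
      have hB : B (p + 1) q (d (p + 1) q (H (p + 1) q)) =
          B (p + 1) q (r (p + 1) q) - A p (q + 1) (B p q (H p q)) := by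
        rw [AB]
        cases q with
        | zero => rw [dp0, map_sub]
        | succ q =>
          rw [ih (p + q) (by omega) p q rfl, map_sub, map_add, map_smul, BB, smul_zero, add_zero]
      rw [Hpq]
      refine key _ _ _ ?_ ?_
      · rw [map_sub, map_add, map_smul, ← Ad, ← Bd, hA, hB, rpq, smul_sub, pow_succ, mul_neg_one,
          neg_smul, neg_smul]
        abel
      · rw [map_sub, map_add, map_smul, εr, εA _ _ _ (εH _ _), εB _ _ _ (εH _ _), smul_zero,
          add_zero, sub_zero]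
  refine ⟨H, d00, fun p => ?_, fun q => ?_, fun p q => ?_⟩
  · rw [dp0, sub_add_cancel]
  · rw [d0q, sub_add_cancel]
  · rw [dpq (p + q) p q rfl, sub_add_cancel]

end HEp
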