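import Pool.Agent.Lib.MP_181146_gt.HE.SpecG

/-!
# Project HE, module AlgHE: the algebraic theorem
-/

set_option autoImplicit false
set_option linter.unusedVariables false

namespace HEp

/-- coinvariants modulo `p` of a finitely generated module are finite -/
private theorem AlgHE_fin (C : Type) [CommGroup C] [Finite C] (M : Type) [AddCommGroup M]
    [Module (ZG C) M] [Module.Finite (ZG C) M] (p : ℕ) (hp : p.Prime) :
    Finite (HSp.CoV C p M) := by
  classical
  obtain ⟨s, hs⟩ := (Module.Finite.fg_top : (⊤ : Submodule (ZG C) M).FG)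
  have hM : AddMonoid.FG M := by
    rw [← AddGroup.fg_iff_addMonoid_fg]
    cases nonempty_fintype C
    refine ⟨(Finset.univ ×ˢ s).image (fun q : C × M => MonoidAlgebra.of ℤ C q.1 • q.2), ?_⟩
    rw [eq_top_iff]
    intro x _
    have hx : x ∈ Submodule.span (ZG C) (s : Set M) := by
      rw [hs]
      trivial
    induction hx using Submodule.span_induction with
    | mem y hy =>
      refine AddSubgroup.subset_closure ?_
      rw [Finset.coe_image]
      refine ⟨(1, y), ?_, ?_⟩
      · simpa using hy
      · change MonoidAlgebra.of ℤ C 1 • y = y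
        rw [map_one, one_smul]
    | zero => exact AddSubgroup.zero_mem _
    | add a b _ _ ha hb => exact AddSubgroup.add_mem _ (ha trivial) (hb trivial)
    | smul a y _ hy =>
      have hy' := hy trivial
      induction a using MonoidAlgebra.induction_on with
      | of g =>
        refine AddSubgroup.closure_induction (p := fun z _ => MonoidAlgebra.of ℤ C g • z ∈
          AddSubgroup.closure (((Finset.univ ×ˢ s).image
            (fun q : C × M => MonoidAlgebra.of ℤ C q.1 • q.2) : Finset M) : Set M)) ?_ ?_ ?_ ?_ hy'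
        · intro z hz
          rw [Finset.coe_image] at hz
          obtain ⟨⟨g', w⟩, hw, rfl⟩ := hz
          refine AddSubgroup.subset_closure ?_
          rw [Finset.coe_image]
          refine ⟨(g * g', w), ?_, ?_⟩
          · simpa using hw
          · change MonoidAlgebra.of ℤ C (g * g') • w =
              MonoidAlgebra.of ℤ C g • MonoidAlgebra.of ℤ C g' • w
            rw [map_mul, mul_smul]
        · rw [smul_zero]
          exact AddSubgroup.zero_mem _
        · intro a b _ _ ha hb
          rw [smul_add]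
          exact AddSubgroup.add_mem _ ha hb
        · intro a _ ha
          rw [smul_neg]
          exact AddSubgroup.neg_mem _ ha
      | add a b ha hb =>
        rw [add_smul]
        exact AddSubgroup.add_mem _ (ha trivial) (hb trivial)
      | smul r a ha =>
        have e : (r • a) • y = r • (a • y) := smul_assoc r a y
        rw [e]
        exact AddSubgroup.zsmul_mem _ (ha trivial) r
  have hfg : AddGroup.FG (HSp.CoV C p M) := by
    have h1 : AddGroup.FG M := AddGroup.fg_iff_addMonoid_fg.2 hM
    exact AddGroup.fg_of_surjective (f := QuotientAddGroup.mk' (HSp.CoS C p M))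
      (QuotientAddGroup.mk'_surjective _)
  have htor : IsAddTorsion (HSp.CoV C p M) := by
    intro z
    obtain ⟨x, rfl⟩ := QuotientAddGroup.mk_surjective z
    rw [isOfFinAddOrder_iff_nsmul_eq_zero]
    refine ⟨p, hp.pos, ?_⟩
    rw [← QuotientAddGroup.mk_nsmul, QuotientAddGroup.eq_zero_iff]
    refine AddSubgroup.subset_closure (Or.inr ⟨x, ?_⟩)
    rw [natCast_zsmul]
  exact AddCommGroup.finite_of_fg_isAddTorsion _ htor

theorem sAlgHE (hQIp : S_QIp) (hKEC : S_KEC) (hECdual : S_ECdual) (hRSx : S_RSx) (hRSh : S_RSh)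
    (hRSfp : S_RSfp) (hBQI : S_BQI) (hBDual : S_BDual) (hBEx : S_BEx) (hCyc : S_Cyc)
    (hTriv : S_Triv) (hAI : S_AI) : S_AlgHE := by
  intro G _ _ X Y m hm D F hF hN h0
  have hQ : F.QI := hQIp G X Y F hF
  have e0 : X.EC = -X.EC := (hKEC _ X Y F hQ).trans (hECdual G X Y m hm D)
  have h2 : (2 : ℕ) • X.EC = 0 := by
    rw [two_nsmul]
    nth_rewrite 1 [e0]
    exact neg_add_cancel _
  refine ⟨h2, fun hodd => ?_⟩
  obtain ⟨A, hA⟩ : ∃ A : FPr (ZG G), cl (ZG G) A.M = X.EC :=
    KT.ind (p := fun x => ∃ A : FPr (ZG G), cl (ZG G) A.M = x) (fun A => ⟨A, rfl⟩) X.EC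
  have key : ∀ (C : Type) [CommGroup C] (j : C →* G), Function.Injective j → IsCyclic C →
      ∀ [Module.Finite (ZG C) (RS j A.M)] [Module.Projective (ZG C) (RS j A.M)],
        cl (ZG C) (RS j A.M) = 0 := by
    intro C _ j hj hC _ _
    have hfC : Finite C := Finite.of_injective j hj
    obtain ⟨r, hr⟩ := hRSh C G j hj
    obtain ⟨X', Y', D', F', hQ', hN', h0', hEC⟩ := hRSx C G j hj X Y m D F
    have h3 := hEC r hr
    have h4 : r (cl (ZG G) A.M) = cl (ZG C) (RS j A.M) := hr A.M
    rw [← h4, hA, h3]
    by_cases hn : 1 < Nat.card C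
    · refine hCyc C hC hn X' (hN' hN) (fun i hi => h0' i (h0 i hi)) m hm ?_
      intro p hp _ b hb i
      have hb1 : Y'.IsBetti p b := hBQI C X' Y' F' (hQ' hQ) p hp b hb
      have hb2 : Y'.IsBetti p (fun i => b (m - i)) := hBDual C X' Y' m D' p hp b hb
      have c1 := hb1 i
      have c2 := hb2 i
      have hfin : Finite (HSp.CoV C p (Y'.P i)) := AlgHE_fin C (Y'.P i) p hp
      have hpos : 0 < Nat.card (HSp.coMap C p (Y'.d (i + 1) i)).range := Nat.card_pos
      exact Nat.pow_right_injective hp.two_le
        (Nat.eq_of_mul_eq_mul_right hpos (c1.symm.trans c2))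
    · have hsub : Subsingleton C := (Finite.card_le_one_iff_subsingleton).1 (by omega)
      exact hTriv C X'.EC
  obtain ⟨k, hk⟩ := hAI G A.M key
  rw [hA] at hk
  obtain ⟨t, ht⟩ := hodd.pow (n := k)
  rw [ht, add_smul, one_smul, mul_comm 2 t, mul_smul, h2, smul_zero, zero_add] at hk
  exact hk

end HEp
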