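import Pool.Agent.Lib.MP_181146_gt.HE.SpecG
set_option autoImplicit false

/-!
MP_181146_gt, project HE, module DStep: one step of the duality formula (helper9).
-/

namespace HEp

open HSp

namespace DStepAux

theorem fin_int (G : Type) [CommGroup G] [Finite G] (M : Type) [AddCommGroup M] [Module (ZG G) M]
    [Module.Finite (ZG G) M] : Module.Finite ℤ M := by
  have h : Module.Finite ℤ (ZG G) := inferInstance
  exact Module.Finite.trans (ZG G) M

theorem free_int (G : Type) [CommGroup G] [Finite G] (M : Type) [AddCommGroup M] [Module (ZG G) M]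
    [Module.Finite (ZG G) M] [hP : Module.Projective (ZG G) M] : Module.Free ℤ M := by
  obtain ⟨s, hs⟩ := hP.out
  have hF : Module.Free ℤ (ZG G) := inferInstance
  have hfin : Module.Finite ℤ M := fin_int G M
  have htf : Module.IsTorsionFree ℤ M := by
    refine Module.IsTorsionFree.of_smul_eq_zero fun n x hx => ?_
    rcases eq_or_ne n 0 with h0 | h0
    · exact Or.inl h0
    · right
      have h1 : s x = 0 := by
        have h2 : n • s x = 0 := by rw [← map_zsmul, hx, map_zero]
        refine Finsupp.ext fun i => ?_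
        have h3 : n • (s x i) = 0 := by
          have h4 := DFunLike.congr_fun h2 i
          simpa using h4
        exact (smul_eq_zero.1 h3).resolve_left h0
      have h5 := hs x
      rw [h1, map_zero] at h5
      exact h5.symm
  exact Module.free_of_finite_type_torsion_free'

end DStepAux

theorem sDStep (hDSmp : S_DSmp) (hDSub : S_DSub) (hKSch : S_KSch) (hDFp : S_DFp) : S_DStep := by
  intro G _ _ M1 M2 _ _ _ _ _ _ _ _ _ _ _ _ P hP hfin hco hres
  have hf : Module.Finite ℤ M2 := DStepAux.fin_int G M2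
  have hr : Module.Free ℤ M2 := DStepAux.free_int G M2
  have hRP : Res (ZG G) (ZG G ⧸ P) (ZG G) P := by
    refine ⟨P.subtype, P.mkQ, P.injective_subtype, P.mkQ_surjective, fun x => ?_⟩
    rw [Submodule.mkQ_apply, Submodule.Quotient.mk_eq_zero]
    exact ⟨fun h => ⟨⟨x, h⟩, rfl⟩, fun ⟨y, hy⟩ => hy ▸ y.2⟩
  obtain ⟨hPf, hPp⟩ := hDSub G (ZG G) P (ZG G ⧸ P) hco hRP
  have h1 := hKSch (ZG G) (ZG G ⧸ P) M2 M1 (ZG G) P hres hRP
  have hres2 := hDSmp (ZG G) M1 M2 P hP hfin hres
  have h2 := hKSch (ZG G) (ZG G ⧸ P) (ZD (ZG G) M1) (ZD (ZG G) M2) (ZG G) P hres2 hRP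
  rw [cl_self, zero_add] at h1 h2
  rw [← h1, ← h2]
  abel

end HEp
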