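import Pool.Agent.Lib.MP_181146_gt.HE.SpecS

/-!
# Project HE, module Perf: left nondegenerate in all degrees implies perfect
-/

set_option autoImplicit false

namespace HEp

namespace PerfAux

variable {G : Type} [CommGroup G]

/-- cycles modulo `p` -/
def Z (X : ZCx (ZG G)) (p : ℕ) (i : ℤ) : Submodule ℤ (X.P i) where
  carrier := {x | X.CycP p i x}
  zero_mem' := fun j => ⟨0, by rw [map_zero, smul_zero]⟩
  add_mem' := by
    intro a b ha hb j
    obtain ⟨z, hz⟩ := ha j
    obtain ⟨w, hw⟩ := hb j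
    exact ⟨z + w, by rw [map_add, hz, hw, smul_add]⟩
  smul_mem' := by
    intro m a ha j
    obtain ⟨z, hz⟩ := ha j
    exact ⟨m • z, by rw [map_zsmul, hz, smul_comm]⟩

theorem bdy_iff (X : ZCx (ZG G)) (p : ℕ) (i : ℤ) (x : X.P i) :
    X.BdyP p i x ↔ ∃ (y : X.P (i + 1)) (z : X.P i), x = X.d (i + 1) i y + (p : ℤ) • z := by
  constructor
  · rintro ⟨k, y, z, h⟩
    by_cases hk : i + 1 = k
    · subst hk
      exact ⟨y, z, h⟩
    · rw [X.shape k i hk, LinearMap.zero_apply] at h
      exact ⟨0, z, by rw [h, map_zero]⟩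
  · rintro ⟨y, z, h⟩
    exact ⟨i + 1, y, z, h⟩

/-- boundaries modulo `p` -/
def B (X : ZCx (ZG G)) (p : ℕ) (i : ℤ) : Submodule ℤ (Z X p i) where
  carrier := {x | X.BdyP p i (x : X.P i)}
  zero_mem' := (bdy_iff X p i _).mpr ⟨0, 0, by rw [map_zero, smul_zero, add_zero]; rfl⟩
  add_mem' := by
    intro a b ha hb
    obtain ⟨y, z, h⟩ := (bdy_iff X p i _).mp ha
    obtain ⟨y', z', h'⟩ := (bdy_iff X p i _).mp hb
    refine (bdy_iff X p i _).mpr ⟨y + y', z + z', ?_⟩
    rw [Submodule.coe_add, h, h', map_add, smul_add]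
    abel
  smul_mem' := by
    intro m a ha
    obtain ⟨y, z, h⟩ := (bdy_iff X p i _).mp ha
    refine (bdy_iff X p i _).mpr ⟨m • y, m • z, ?_⟩
    rw [Submodule.coe_smul, h, map_zsmul, smul_add, smul_comm m (p : ℤ) z]

/-- homology modulo `p` (not the homology of the reduced complex up to the top terms) -/
abbrev H (X : ZCx (ZG G)) (p : ℕ) (i : ℤ) : Type := Z X p i ⧸ B X p i

theorem H_kill (X : ZCx (ZG G)) (p : ℕ) (i : ℤ) (x : H X p i) : p • x = 0 := by
  obtain ⟨x, rfl⟩ := Submodule.mkQ_surjective _ x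
  rw [← map_nsmul, Submodule.mkQ_apply, Submodule.Quotient.mk_eq_zero]
  refine (bdy_iff X p i _).mpr ⟨0, (x : X.P i), ?_⟩
  rw [map_zero, zero_add, natCast_zsmul]
  rfl

noncomputable instance H_mod (X : ZCx (ZG G)) (p : ℕ) (i : ℤ) : Module (ZMod p) (H X p i) :=
  AddCommGroup.zmodModule (n := p) (H_kill X p i)

theorem H_fin [Finite G] (X : ZCx (ZG G)) (p : ℕ) (i : ℤ) : Module.Finite (ZMod p) (H X p i) := by
  have h1 : Module.Finite ℤ (ZG G) := inferInstance
  have h2 : Module.Finite ℤ (X.P i) := Module.Finite.trans (ZG G) (X.P i)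
  have h3 : Module.Finite ℤ (H X p i) := inferInstance
  exact Module.Finite.of_restrictScalars_finite ℤ (ZMod p) (H X p i)

/-- the Leibniz rule with free indices -/
theorem leib' {X : ZCx (ZG G)} (μ : MX X) {i j n i' j' n' : ℤ} (hi : i' = i - 1) (hj : j' = j - 1)
    (hn : n' = n - 1) (x : X.P i) (y : X.P j) : X.d n n' (μ.M i j n x y) =
      μ.M i' j n' (X.d i i' x) y + (i.negOnePow : ℤ) • μ.M i j' n' x (X.d j j' y) := by
  subst hi hj hn
  exact μ.leib i j n x y

theorem zp_smul (p : ℕ) (a : ZMod p) : (p : ℤ) • a = 0 := by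
  rw [natCast_zsmul, nsmul_eq_mul, ZMod.natCast_self, zero_mul]

section pair

variable {X : ZCx (ZG G)} (μ : MX X) {p : ℕ} {m : ℤ} (φ : X.P m →+ ZMod p)
  (hφ : ∀ z : X.P (m + 1), φ (X.d (m + 1) m z) = 0)

include hφ

theorem kill_right (i : ℤ) (x : X.P i) (hx : X.CycP p i x) (y : X.P (m - i))
    (hy : X.BdyP p (m - i) y) : φ (μ.M i (m - i) m x y) = 0 := by
  obtain ⟨w, z, rfl⟩ := (bdy_iff X p (m - i) y).mp hy
  rw [map_add, map_add, map_zsmul, map_zsmul, zp_smul, add_zero]
  have h1 := hφ (μ.M i (m - i + 1) (m + 1) x w)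
  rw [leib' μ (rfl : i - 1 = i - 1) (by ring : m - i = m - i + 1 - 1) (by ring : m = m + 1 - 1) x w]
    at h1
  obtain ⟨v, hv⟩ := hx (i - 1)
  rw [map_add, hv, map_zsmul (μ.M (i - 1) (m - i + 1) m), AddMonoidHom.zsmul_apply, map_zsmul,
    zp_smul, zero_add, map_zsmul] at h1
  rcases Int.units_eq_one_or i.negOnePow with h2 | h2
  · rw [h2, Units.val_one, one_smul] at h1
    exact h1
  · rw [h2, Units.val_neg, Units.val_one, neg_smul, one_smul, neg_eq_zero] at h1
    exact h1

theorem kill_left (i : ℤ) (x : X.P i) (hx : X.BdyP p i x) (y : X.P (m - i))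
    (hy : X.CycP p (m - i) y) : φ (μ.M i (m - i) m x y) = 0 := by
  obtain ⟨w, z, rfl⟩ := (bdy_iff X p i x).mp hx
  rw [map_add (μ.M i (m - i) m), AddMonoidHom.add_apply, map_add,
    map_zsmul (μ.M i (m - i) m), AddMonoidHom.zsmul_apply, map_zsmul, zp_smul, add_zero]
  have h1 := hφ (μ.M (i + 1) (m - i) (m + 1) w y)
  rw [leib' μ (by ring : i = i + 1 - 1) (rfl : m - i - 1 = m - i - 1) (by ring : m = m + 1 - 1) w y]
    at h1
  obtain ⟨v, hv⟩ := hy (m - i - 1)
  rw [map_add, hv, map_zsmul φ, map_zsmul (μ.M (i + 1) (m - i - 1) m w), map_zsmul φ, zp_smul,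
    smul_zero, add_zero] at h1
  exact h1

/-- the pairing, first for a fixed cycle -/
noncomputable def pr1 (i : ℤ) (x : Z X p i) : H X p (m - i) →+ ZMod p :=
  (Submodule.liftQ (B X p (m - i))
    (((φ.comp (μ.M i (m - i) m (x : X.P i))).toIntLinearMap).comp (Z X p (m - i)).subtype) (by
      intro y hy
      exact kill_right μ φ hφ i x x.2 y hy)).toAddMonoidHom

theorem pr1_mk (i : ℤ) (x : Z X p i) (y : Z X p (m - i)) :
    pr1 μ φ hφ i x (Submodule.Quotient.mk y) = φ (μ.M i (m - i) m (x : X.P i) (y : X.P (m - i))) :=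
  rfl

/-- the pairing -/
noncomputable def pr2 (i : ℤ) : H X p i →+ (H X p (m - i) →+ ZMod p) :=
  (Submodule.liftQ (B X p i)
    (AddMonoidHom.toIntLinearMap
      { toFun := pr1 μ φ hφ i
        map_zero' := by
          apply AddMonoidHom.ext
          intro y
          obtain ⟨y, rfl⟩ := Submodule.mkQ_surjective _ y
          rw [Submodule.mkQ_apply, pr1_mk]
          have h1 : ((0 : Z X p i) : X.P i) = 0 := rfl
          rw [h1, map_zero, AddMonoidHom.zero_apply, map_zero, AddMonoidHom.zero_apply]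
        map_add' := by
          intro a b
          apply AddMonoidHom.ext
          intro y
          obtain ⟨y, rfl⟩ := Submodule.mkQ_surjective _ y
          rw [Submodule.mkQ_apply, AddMonoidHom.add_apply, pr1_mk, pr1_mk, pr1_mk,
            Submodule.coe_add, map_add, AddMonoidHom.add_apply, map_add] }) (by
      intro x hx
      rw [LinearMap.mem_ker]
      apply AddMonoidHom.ext
      intro y
      obtain ⟨y, rfl⟩ := Submodule.mkQ_surjective _ y
      rw [Submodule.mkQ_apply]
      exact kill_left μ φ hφ i x hx y y.2)).toAddMonoidHom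

theorem pr2_mk (i : ℤ) (x : Z X p i) (y : Z X p (m - i)) :
    pr2 μ φ hφ i (Submodule.Quotient.mk x) (Submodule.Quotient.mk y) =
      φ (μ.M i (m - i) m (x : X.P i) (y : X.P (m - i))) :=
  rfl

end pair

end PerfAux

open PerfAux in
theorem sPerf : S_Perf := by
  intro G _ _ X μ p hp m φ hφ hnd i f hf
  have : Fact p.Prime := ⟨hp⟩
  have hfin : ∀ j, Module.Finite (ZMod p) (H X p j) := H_fin X p
  -- the linear map to the dual space
  let L : ∀ j : ℤ, H X p j →ₗ[ZMod p] Module.Dual (ZMod p) (H X p (m - j)) := fun j =>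
    AddMonoidHom.toZModLinearMap p
      { toFun := fun x => AddMonoidHom.toZModLinearMap p (pr2 μ φ hφ j x)
        map_zero' := by
          apply LinearMap.ext
          intro y
          show pr2 μ φ hφ j 0 y = 0
          rw [map_zero]
          rfl
        map_add' := by
          intro a b
          apply LinearMap.ext
          intro y
          show pr2 μ φ hφ j (a + b) y = pr2 μ φ hφ j a y + pr2 μ φ hφ j b y
          rw [map_add]
          rfl }
  have hL : ∀ (j : ℤ) (x : H X p j) (y : H X p (m - j)), L j x y = pr2 μ φ hφ j x y :=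
    fun _ _ _ => rfl
  have hinj : ∀ j, Function.Injective (L j) := by
    intro j
    rw [injective_iff_map_eq_zero]
    intro x hx
    obtain ⟨x, rfl⟩ := Submodule.mkQ_surjective _ x
    rw [Submodule.mkQ_apply, Submodule.Quotient.mk_eq_zero]
    refine hnd j x x.2 fun y hy => ?_
    have h1 : L j (Submodule.Quotient.mk x) (Submodule.Quotient.mk ⟨y, hy⟩) = 0 := by
      rw [Submodule.mkQ_apply] at hx
      rw [hx]
      rfl
    rw [hL, pr2_mk] at h1
    exact h1
  have hle : ∀ j, Module.finrank (ZMod p) (H X p j) ≤ Module.finrank (ZMod p) (H X p (m - j)) := by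
    intro j
    have h1 := LinearMap.finrank_le_finrank_of_injective (hinj j)
    rw [Subspace.dual_finrank_eq] at h1
    exact h1
  have heq : Module.finrank (ZMod p) (H X p i) = Module.finrank (ZMod p) (H X p (m - i)) := by
    apply le_antisymm (hle i)
    have h1 := hle (m - i)
    have h2 : Module.finrank (ZMod p) (H X p (m - (m - i))) = Module.finrank (ZMod p) (H X p i) :=
      congrArg (fun j => Module.finrank (ZMod p) (H X p j)) (by ring)
    rw [h2] at h1
    exact h1
  have hsurj : Function.Surjective (L i) := by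
    refine (LinearMap.injective_iff_surjective_of_finrank_eq_finrank ?_).mp (hinj i)
    rw [Subspace.dual_finrank_eq]
    exact heq
  -- the functional
  let F : H X p (m - i) →+ ZMod p :=
    (Submodule.liftQ (B X p (m - i)) (f.toIntLinearMap.comp (Z X p (m - i)).subtype) (by
      intro y hy
      rw [LinearMap.mem_ker]
      show f (y : X.P (m - i)) = 0
      obtain ⟨w, z, h⟩ := (bdy_iff X p (m - i) _).mp hy
      rw [h, map_add, map_zsmul, zp_smul, add_zero, hf])).toAddMonoidHom
  obtain ⟨x, hx⟩ := hsurj (AddMonoidHom.toZModLinearMap p F)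
  obtain ⟨x, rfl⟩ := Submodule.mkQ_surjective _ x
  refine ⟨x, x.2, fun y hy => ?_⟩
  have h1 := LinearMap.congr_fun hx (Submodule.Quotient.mk ⟨y, hy⟩)
  exact h1.symm

end HEp
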