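import Pool.Agent.Lib.MP_181146_gt.HE.SpecS
import Pool.Agent.Lib.MP_181146_gt.HE.Perf
import Pool.Agent.Lib.MP_181146_gt.HE.DStep

/-!
# Project HE: vanishing of the homology modulo `p` above the top degree (`S_Alp`)
-/

set_option autoImplicit false

namespace HEp

namespace AlpAux

open PerfAux DStepAux

variable {G : Type} [CommGroup G]

theorem tf [Finite G] (X : ZCx (ZG G)) {p : ℕ} (hp : p.Prime) (i : ℤ) {x y : X.P i}
    (h : (p : ℤ) • x = (p : ℤ) • y) : x = y := by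
  have : Module.Free ℤ (X.P i) := free_int G (X.P i)
  have hp0 : (p : ℤ) ≠ 0 := by exact_mod_cast hp.ne_zero
  exact smul_right_injective (X.P i) hp0 h

theorem cyc_of (X : ZCx (ZG G)) (i : ℤ) (x : X.P (i + 1)) (h : X.d (i + 1) i x = 0) :
    X.Cyc (i + 1) x := by
  intro j
  by_cases hj : j = i
  · subst hj
    exact h
  · rw [X.shape _ _ (by omega)]
    rfl

theorem bdy_iff' (X : ZCx (ZG G)) (i : ℤ) (x : X.P i) :
    X.Bdy i x ↔ ∃ y : X.P (i + 1), X.d (i + 1) i y = x := by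
  constructor
  · rintro ⟨k, y, h⟩
    by_cases hk : i + 1 = k
    · subst hk
      exact ⟨y, h⟩
    · rw [X.shape k i hk, LinearMap.zero_apply] at h
      exact ⟨0, by rw [← h, map_zero]⟩
  · rintro ⟨y, h⟩
    exact ⟨i + 1, y, h⟩

theorem tors [Finite G] (X : ZCx (ZG G)) {p : ℕ} (hp : p.Prime) (n : ℤ)
    (IH : ∀ v : X.P (n + 1), X.CycP p (n + 1) v → X.BdyP p (n + 1) v) (u : X.P n)
    (hu : X.Bdy n ((p : ℤ) • u)) : X.Bdy n u := by
  obtain ⟨v, hv⟩ := (bdy_iff' X n _).mp hu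
  have hc : X.CycP p (n + 1) v := by
    intro j
    by_cases hj : j = n
    · subst hj
      exact ⟨u, hv⟩
    · refine ⟨0, ?_⟩
      rw [X.shape _ _ (by omega), smul_zero]
      rfl
  obtain ⟨w, w', hw⟩ := (bdy_iff X p (n + 1) v).mp (IH v hc)
  refine (bdy_iff' X n _).mpr ⟨w', ?_⟩
  apply tf X hp n
  rw [← hv, hw, map_add, X.dd, zero_add, map_zsmul]

theorem bdyP_of [Finite G] (X : ZCx (ZG G)) {p : ℕ} (hp : p.Prime) (n : ℤ)
    (IH : ∀ v : X.P (n + 1), X.CycP p (n + 1) v → X.BdyP p (n + 1) v) (u : X.P n) :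
    ∀ (k : ℕ) (a : ℤ), a.natAbs ≤ k → a ≠ 0 → X.Bdy n (a • u) → X.BdyP p n u := by
  intro k
  induction k with
  | zero =>
    intro a ha ha0
    exact absurd (Int.natAbs_eq_zero.mp (Nat.le_zero.mp ha)) ha0
  | succ k ih =>
    intro a ha ha0 hb
    by_cases hdvd : (p : ℤ) ∣ a
    · obtain ⟨b, rfl⟩ := hdvd
      have hb0 : b ≠ 0 := fun h => ha0 (by rw [h, mul_zero])
      refine ih b ?_ hb0 (tors X hp n IH _ (by rw [smul_smul]; exact hb))
      rw [Int.natAbs_mul, Int.natAbs_natCast] at ha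
      have h2 := hp.two_le
      have h3 : 0 < b.natAbs := Int.natAbs_pos.mpr hb0
      nlinarith
    · have hcop : IsCoprime (p : ℤ) a :=
        (Nat.prime_iff_prime_int.mp hp).irreducible.coprime_iff_not_dvd.mpr hdvd
      obtain ⟨α, β, hαβ⟩ := hcop
      obtain ⟨y, hy⟩ := (bdy_iff' X n _).mp hb
      refine (bdy_iff X p n u).mpr ⟨β • y, α • u, ?_⟩
      rw [map_zsmul, hy, smul_smul, smul_smul, ← add_smul]
      have : β * a + (p : ℤ) * α = 1 := by linarith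
      rw [this, one_smul]

/-- cycles -/
def Z0 (X : ZCx (ZG G)) (i : ℤ) : Submodule ℤ (X.P i) where
  carrier := {x | X.Cyc i x}
  zero_mem' := fun j => map_zero _
  add_mem' := by
    intro a b ha hb j
    rw [map_add, ha j, hb j, add_zero]
  smul_mem' := by
    intro m a ha j
    rw [map_zsmul, ha j, smul_zero]

/-- boundaries -/
def B0 (X : ZCx (ZG G)) (i : ℤ) : Submodule ℤ (Z0 X i) where
  carrier := {x | X.Bdy i (x : X.P i)}
  zero_mem' := (bdy_iff' X i _).mpr ⟨0, by rw [map_zero]; rfl⟩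
  add_mem' := by
    intro a b ha hb
    obtain ⟨y, h⟩ := (bdy_iff' X i _).mp ha
    obtain ⟨y', h'⟩ := (bdy_iff' X i _).mp hb
    exact (bdy_iff' X i _).mpr ⟨y + y', by rw [map_add, h, h']; rfl⟩
  smul_mem' := by
    intro m a ha
    obtain ⟨y, h⟩ := (bdy_iff' X i _).mp ha
    exact (bdy_iff' X i _).mpr ⟨m • y, by rw [map_zsmul, h]; rfl⟩

theorem inj [Finite G] (X : ZCx (ZG G)) {p : ℕ} (hp : p.Prime) (i : ℤ)
    (hall : ∀ u : X.P i, X.Cyc i u → X.BdyP p i u) (u : X.P i) (hu : X.Cyc i u)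
    (hb : X.Bdy i ((p : ℤ) • u)) : X.Bdy i u := by
  have h1 : Module.Finite ℤ (X.P i) := fin_int G (X.P i)
  let f : (Z0 X i ⧸ B0 X i) →ₗ[ℤ] (Z0 X i ⧸ B0 X i) := (p : ℤ) • LinearMap.id
  have hs : Function.Surjective f := by
    intro q
    obtain ⟨v, rfl⟩ := Submodule.mkQ_surjective _ q
    obtain ⟨w, w', hw⟩ := (bdy_iff X p i _).mp (hall v.1 v.2)
    have hw' : X.Cyc i w' := by
      intro j
      apply tf X hp j
      have h3 := v.2 j
      rw [hw, map_add, X.dd, zero_add, map_zsmul] at h3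
      rw [h3, smul_zero]
    refine ⟨(B0 X i).mkQ ⟨w', hw'⟩, ?_⟩
    change (p : ℤ) • (B0 X i).mkQ ⟨w', hw'⟩ = (B0 X i).mkQ v
    rw [← map_zsmul, Submodule.mkQ_apply, Submodule.mkQ_apply, Submodule.Quotient.eq]
    refine (bdy_iff' X i _).mpr ⟨-w, ?_⟩
    rw [map_neg]
    change - X.d (i + 1) i w = (p : ℤ) • w' - (v : X.P i)
    rw [hw]
    abel
  have hinj := IsNoetherian.injective_of_surjective_endomorphism f hs
  have h2 : f ((B0 X i).mkQ ⟨u, hu⟩) = 0 := by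
    change (p : ℤ) • (B0 X i).mkQ ⟨u, hu⟩ = 0
    rw [← map_zsmul, Submodule.mkQ_apply, Submodule.Quotient.mk_eq_zero]
    exact hb
  have h3 := hinj (h2.trans (map_zero f).symm)
  rw [Submodule.mkQ_apply, Submodule.Quotient.mk_eq_zero] at h3
  exact h3

/-- boundaries modulo `p` in the module of all chains -/
def BP (X : ZCx (ZG G)) (p : ℕ) (i : ℤ) : Submodule ℤ (X.P i) where
  carrier := {x | X.BdyP p i x}
  zero_mem' := (bdy_iff X p i _).mpr ⟨0, 0, by rw [map_zero, smul_zero, add_zero]⟩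
  add_mem' := by
    intro a b ha hb
    obtain ⟨y, z, h⟩ := (bdy_iff X p i _).mp ha
    obtain ⟨y', z', h'⟩ := (bdy_iff X p i _).mp hb
    refine (bdy_iff X p i _).mpr ⟨y + y', z + z', ?_⟩
    rw [h, h', map_add, smul_add]
    abel
  smul_mem' := by
    intro m a ha
    obtain ⟨y, z, h⟩ := (bdy_iff X p i _).mp ha
    refine (bdy_iff X p i _).mpr ⟨m • y, m • z, ?_⟩
    rw [h, map_zsmul, smul_add, smul_comm m (p : ℤ) z]

theorem func (X : ZCx (ZG G)) {p : ℕ} (hp : p.Prime) (n : ℤ) (z : X.P n)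
    (hz : ¬ X.BdyP p n z) : ∃ φ : X.P n →+ ZMod p, (∀ x, X.BdyP p n x → φ x = 0) ∧ φ z ≠ 0 := by
  have : Fact p.Prime := ⟨hp⟩
  have hk : ∀ x : X.P n ⧸ BP X p n, p • x = 0 := by
    intro x
    obtain ⟨x, rfl⟩ := Submodule.mkQ_surjective _ x
    rw [← map_nsmul, Submodule.mkQ_apply, Submodule.Quotient.mk_eq_zero]
    refine (bdy_iff X p n _).mpr ⟨0, x, ?_⟩
    rw [map_zero, zero_add, natCast_zsmul]
  let _ : Module (ZMod p) (X.P n ⧸ BP X p n) := AddCommGroup.zmodModule (n := p) hk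
  have hne : (BP X p n).mkQ z ≠ 0 := by
    intro h
    rw [Submodule.mkQ_apply, Submodule.Quotient.mk_eq_zero] at h
    exact hz h
  have h1 : ¬ ∀ f : Module.Dual (ZMod p) (X.P n ⧸ BP X p n), f ((BP X p n).mkQ z) = 0 := by
    intro h
    exact hne ((Module.forall_dual_apply_eq_zero_iff (ZMod p) _).mp h)
  push Not at h1
  obtain ⟨f, hf⟩ := h1
  refine ⟨f.toAddMonoidHom.comp (BP X p n).mkQ.toAddMonoidHom, ?_, hf⟩
  intro x hx
  change f ((BP X p n).mkQ x) = 0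
  have : (BP X p n).mkQ x = 0 := by
    rw [Submodule.mkQ_apply, Submodule.Quotient.mk_eq_zero]
    exact hx
  rw [this, map_zero]

theorem h0F' {X : ZCx (ZG G)} (h0 : X.H0F) (j : ℤ) (hj : j = 0) {p : ℕ} (hp : p.Prime) (x : X.P j)
    (h : X.Bdy j ((p : ℤ) • x)) : X.Bdy j x := by
  subst hj
  exact h0 p hp x h

theorem step [Finite G] (X : ZCx (ZG G)) (μ : MX X) (hF : μ.FRP) (h0 : X.H0F) {p : ℕ}
    (hp : p.Prime) (i : ℤ)
    (ht : ∀ z : X.P (i + 1), X.Cyc (i + 1) z → ∃ n : ℤ, n ≠ 0 ∧ X.Bdy (i + 1) (n • z))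
    (IH : ∀ m, i + 1 < m → ∀ v : X.P m, X.CycP p m v → X.BdyP p m v) (z : X.P (i + 1))
    (hz : X.CycP p (i + 1) z) : X.BdyP p (i + 1) z := by
  by_contra hzb
  -- (1)
  have h1 : ∀ u : X.P (i + 1), X.Cyc (i + 1) u → X.BdyP p (i + 1) u := by
    intro u hu
    obtain ⟨a, ha, hb⟩ := ht u hu
    exact bdyP_of X hp (i + 1) (IH (i + 1 + 1) (by omega)) u _ a le_rfl ha hb
  -- (2)
  obtain ⟨φ, hφ, hφz⟩ := func X hp (i + 1) z hzb
  -- (3)
  have h3 : ∃ u : X.P i, X.Cyc i u ∧ ¬ X.BdyP p i u := by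
    by_contra hcon
    push Not at hcon
    obtain ⟨u0, hu0⟩ := hz i
    have hu0c : X.Cyc i u0 := by
      intro j
      apply tf X hp j
      rw [← map_zsmul, ← hu0, X.dd, smul_zero]
    have hb := inj X hp i hcon u0 hu0c ((bdy_iff' X i _).mpr ⟨z, hu0⟩)
    obtain ⟨w, hw⟩ := (bdy_iff' X i _).mp hb
    have hc : X.Cyc (i + 1) (z - (p : ℤ) • w) := by
      apply cyc_of
      rw [map_sub, map_zsmul, hw, hu0, sub_self]
    obtain ⟨y, y', hy⟩ := (bdy_iff X p (i + 1) _).mp (h1 _ hc)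
    apply hzb
    refine (bdy_iff X p (i + 1) _).mpr ⟨y, y' + w, ?_⟩
    rw [smul_add, ← add_assoc, ← hy]
    abel
  obtain ⟨u, huc, hub⟩ := h3
  -- (4)
  apply hub
  refine hF p hp (i + 1) φ IH ?_ ⟨z, hz, hφz⟩ i u ?_ ?_
  · intro w
    exact hφ _ ((bdy_iff X p (i + 1) _).mpr ⟨w, 0, by rw [smul_zero, add_zero]⟩)
  · intro j
    exact ⟨0, by rw [huc j, smul_zero]⟩
  · intro y hy
    obtain ⟨v, hv⟩ := hy (i + 1 - i - 1)
    have hvb : X.Bdy (i + 1 - i - 1) v := h0F' h0 _ (by ring) hp v ⟨i + 1 - i, y, hv⟩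
    have hvb' : ∃ y' : X.P (i + 1 - i), X.d (i + 1 - i) (i + 1 - i - 1) y' = v := by
      obtain ⟨k, y', hy'⟩ := hvb
      by_cases hk : k = i + 1 - i
      · subst hk
        exact ⟨y', hy'⟩
      · refine ⟨0, ?_⟩
        rw [X.shape k _ (by omega)] at hy'
        rw [map_zero, ← hy']
        rfl
    obtain ⟨y', hy'⟩ := hvb'
    have hd : X.d (i + 1 - i) (i + 1 - i - 1) (y - (p : ℤ) • y') = 0 := by
      rw [map_sub, map_zsmul, hy', hv, sub_self]
    have hM : X.Cyc (i + 1) (μ.M i (i + 1 - i) (i + 1) u (y - (p : ℤ) • y')) := by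
      apply cyc_of
      rw [leib' μ (rfl : i - 1 = i - 1) (rfl : i + 1 - i - 1 = i + 1 - i - 1)
        (by ring : i = i + 1 - 1), huc (i - 1), hd, map_zero, map_zero, AddMonoidHom.zero_apply,
        smul_zero, add_zero]
    have h5 := hφ _ (h1 _ hM)
    rw [map_sub, map_sub, map_zsmul, map_zsmul, zp_smul, sub_zero] at h5
    exact h5

end AlpAux

open AlpAux in
theorem sAlp : S_Alp := by
  intro G _ _ X μ hF h0 hneg d ht p hp
  have key : ∀ (k : ℕ) (n : ℤ), d < n → (X.N : ℤ) + 1 - k ≤ n → ∀ x : X.P n, X.CycP p n x →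
      X.BdyP p n x := by
    intro k
    induction k with
    | zero =>
      intro n hn hk x hx
      have : Subsingleton (X.P n) := X.bdd n (by rw [lt_abs]; left; push_cast at hk; omega)
      rw [Subsingleton.elim x 0]
      exact (PerfAux.bdy_iff X p n _).mpr ⟨0, 0, by rw [map_zero, smul_zero, add_zero]⟩
    | succ k ih =>
      intro n hn hk x hx
      obtain ⟨i, rfl⟩ : ∃ i : ℤ, n = i + 1 := ⟨n - 1, by ring⟩
      refine step X μ hF h0 hp i (ht (i + 1) hn) ?_ x hx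
      intro m hm v hv
      refine ih m (by omega) ?_ v hv
      push_cast at hk
      omega
  intro n hn x hx
  exact key ((X.N : ℤ) + 1 - n).toNat n hn (by omega) x hx

end HEp
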