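import Pool.Agent.Lib.MP_181146_gt.HE.SpecG
import Pool.Agent.Lib.MP_181146_gt.HS.Uniq

/-!
# Project HE: `BDual`, the Betti numbers of the dual complex
-/

set_option autoImplicit false

namespace HEp

/-! ## Finite vector spaces over `𝔽_p` -/

private lemma bd_card_dual (K A : Type) [Field K] [AddCommGroup A] [Module K A]
    [Module.Finite K A] : Nat.card (Module.Dual K A) = Nat.card A := by
  have h2 : Nat.card (Module.Dual K A) = Nat.card K ^ Module.finrank K (Module.Dual K A) :=
    Module.natCard_eq_pow_finrank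
  have h3 : Nat.card A = Nat.card K ^ Module.finrank K A := Module.natCard_eq_pow_finrank
  rw [h2, h3, Subspace.dual_finrank_eq]

/-- `|Hom(A, 𝔽_p)| = |A|`. -/
private lemma bd_card_hom (p : ℕ) (hp : p.Prime) (A : Type) [AddCommGroup A] [Finite A]
    (hA : ∀ x : A, p • x = 0) : Nat.card (A →+ ZMod p) = Nat.card A := by
  have : Fact p.Prime := ⟨hp⟩
  let M0 : Module (ZMod p) A := AddCommGroup.zmodModule hA
  have h1 : Nat.card (A →+ ZMod p) = Nat.card (A →ₗ[ZMod p] ZMod p) :=
    Nat.card_congr (AddMonoidHom.toZModLinearMapEquiv p).toEquiv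
  have h0 : Module.Finite (ZMod p) A := Module.Finite.of_finite
  rw [h1]
  exact @bd_card_dual (ZMod p) A (ZMod.instField p) _ M0 h0

/-- `|A| = |ker| |im|`. -/
private lemma bd_ker_range {A B : Type} [AddCommGroup A] [AddCommGroup B] (u : A →+ B) :
    Nat.card A = Nat.card u.range * Nat.card u.ker := by
  rw [AddSubgroup.card_eq_card_quotient_mul_card_addSubgroup u.ker]
  congr 1
  exact Nat.card_congr (QuotientAddGroup.quotientKerEquivRange u).toEquiv

/-- The transposed map. -/
private def bdT {p : ℕ} {A B : Type} [AddCommGroup A] [AddCommGroup B] (u : A →+ B) :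
    (B →+ ZMod p) →+ (A →+ ZMod p) where
  toFun f := f.comp u
  map_zero' := rfl
  map_add' _ _ := rfl

/-- The kernel of the transposed map. -/
private lemma bd_ker_T (p : ℕ) (hp : p.Prime) {A B : Type} [AddCommGroup A] [AddCommGroup B]
    [Finite B] (hB : ∀ x : B, p • x = 0) (u : A →+ B) :
    Nat.card B = Nat.card (bdT (p := p) u).ker * Nat.card u.range := by
  rw [AddSubgroup.card_eq_card_quotient_mul_card_addSubgroup u.range]
  congr 1
  rw [← bd_card_hom p hp (B ⧸ u.range) (by
    intro x
    obtain ⟨y, rfl⟩ := QuotientAddGroup.mk'_surjective u.range x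
    rw [← map_nsmul, hB, map_zero])]
  refine Nat.card_congr ?_
  refine
    { toFun := fun f => ⟨f.comp (QuotientAddGroup.mk' u.range), ?_⟩
      invFun := fun f => QuotientAddGroup.lift u.range f.1 ?_
      left_inv := ?_
      right_inv := ?_ }
  · rw [AddMonoidHom.mem_ker]
    ext x
    change f (QuotientAddGroup.mk' u.range (u x)) = 0
    have : QuotientAddGroup.mk' u.range (u x) = 0 :=
      (QuotientAddGroup.eq_zero_iff _).2 ⟨x, rfl⟩
    rw [this, map_zero]
  · rintro _ ⟨x, rfl⟩
    exact DFunLike.congr_fun (AddMonoidHom.mem_ker.1 f.2) x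
  · intro f
    apply AddMonoidHom.ext
    intro x
    obtain ⟨y, rfl⟩ := QuotientAddGroup.mk'_surjective u.range x
    rfl
  · intro f
    apply Subtype.ext
    apply AddMonoidHom.ext
    intro x
    rfl

/-- The image of the transposed map. -/
private lemma bd_range_T (p : ℕ) (hp : p.Prime) {A B : Type} [AddCommGroup A] [AddCommGroup B]
    [Finite B] (hB : ∀ x : B, p • x = 0) (u : A →+ B) :
    Nat.card (bdT (p := p) u).range = Nat.card u.range := by
  have h1 := bd_ker_range (bdT (p := p) u)
  have h2 := bd_ker_T p hp hB u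
  rw [bd_card_hom p hp B hB, h2, mul_comm] at h1
  have h3 : 0 < Nat.card (bdT (p := p) u).ker := by
    have h4 : 0 < Nat.card B := Nat.card_pos
    rw [h2] at h4
    exact Nat.pos_of_mul_pos_right h4
  exact (Nat.eq_of_mul_eq_mul_right h3 h1).symm

/-- Invariance of the orders under isomorphisms. -/
private lemma bd_square {A B A' B' : Type} [AddCommGroup A] [AddCommGroup B] [AddCommGroup A']
    [AddCommGroup B'] (a : A ≃+ A') (b : B ≃+ B') (u : A →+ B) (u' : A' →+ B')
    (h : ∀ x, b (u x) = u' (a x)) :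
    Nat.card u.ker = Nat.card u'.ker ∧ Nat.card u.range = Nat.card u'.range := by
  constructor
  · refine Nat.card_congr (Equiv.subtypeEquiv a.toEquiv ?_)
    intro x
    change u x = 0 ↔ u' (a x) = 0
    rw [← h, map_eq_zero_iff b b.injective]
  · refine Nat.card_congr (Equiv.subtypeEquiv b.toEquiv ?_)
    intro y
    change (∃ x, u x = y) ↔ ∃ x, u' x = b y
    constructor
    · rintro ⟨x, rfl⟩
      exact ⟨a x, (h x).symm⟩
    · rintro ⟨x, hx⟩
      refine ⟨a.symm x, b.injective ?_⟩
      rw [h, AddEquiv.apply_symm_apply, hx]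

/-! ## Coinvariants -/

section

variable {G : Type} [CommGroup G]

/-- Coinvariants of isomorphic modules. -/
private noncomputable def bdCo (p : ℕ) {M N : Type} [AddCommGroup M] [Module (ZG G) M]
    [AddCommGroup N] [Module (ZG G) N] (e : M ≃ₗ[ZG G] N) : HSp.CoV G p M ≃+ HSp.CoV G p N where
  toFun := HSp.coMap G p e.toLinearMap
  invFun := HSp.coMap G p e.symm.toLinearMap
  left_inv := by
    intro x
    obtain ⟨y, rfl⟩ := QuotientAddGroup.mk'_surjective _ x
    exact congrArg (QuotientAddGroup.mk' _) (e.symm_apply_apply y)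
  right_inv := by
    intro x
    obtain ⟨y, rfl⟩ := QuotientAddGroup.mk'_surjective _ x
    exact congrArg (QuotientAddGroup.mk' _) (e.apply_symm_apply y)
  map_add' := map_add _

private lemma bd_killed (p : ℕ) (M : Type) [AddCommGroup M] [Module (ZG G) M]
    (x : HSp.CoV G p M) : p • x = 0 := by
  obtain ⟨y, rfl⟩ := QuotientAddGroup.mk'_surjective _ x
  rw [← map_nsmul]
  refine (QuotientAddGroup.eq_zero_iff _).2 (AddSubgroup.subset_closure (Or.inr ⟨y, ?_⟩))
  rw [natCast_zsmul]

end

/-- The differentials of the dual complex on coinvariants. -/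
private lemma bd_dual (hBT : S_BT) (G : Type) [CommGroup G] [Finite G] (X Y : ZCx (ZG G)) (m : ℤ)
    (D : IsDual X Y m) (p : ℕ) (hp : p.Prime) (i j : ℤ) :
    Nat.card (HSp.coMap G p (Y.d i j)).ker =
      Nat.card (bdT (p := p) (HSp.coMap G p (X.d (m - j) (m - i)))).ker ∧
    Nat.card (HSp.coMap G p (Y.d i j)).range =
      Nat.card (HSp.coMap G p (X.d (m - j) (m - i))).range := by
  cases nonempty_fintype G
  obtain ⟨Ti, hTi⟩ := hBT G (X.P (m - i)) p hp
  obtain ⟨Tj, hTj⟩ := hBT G (X.P (m - j)) p hp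
  have hf : Finite (HSp.CoV G p (X.P (m - i))) := HSp.finite_coV G p hp.pos _
  have h := bd_square ((bdCo p (D.e i)).trans Ti) ((bdCo p (D.e j)).trans Tj)
    (HSp.coMap G p (Y.d i j)) (bdT (p := p) (HSp.coMap G p (X.d (m - j) (m - i)))) (by
      intro v
      obtain ⟨y, rfl⟩ := QuotientAddGroup.mk'_surjective _ v
      apply AddMonoidHom.ext
      intro w
      obtain ⟨x, rfl⟩ := QuotientAddGroup.mk'_surjective _ w
      have h1 := hTj (D.e j (Y.d i j y)) x
      have h2 := hTi (D.e i y) (X.d (m - j) (m - i) x)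
      refine h1.trans (Eq.trans ?_ h2.symm)
      refine Finset.sum_congr rfl (fun g _ => ?_)
      rw [D.comm, ZDmap_apply, map_smul])
  rw [bd_range_T p hp (bd_killed p _)] at h
  exact h

theorem sBDual (hBT : S_BT) : S_BDual := by
  intro G _ _ X Y m D p hp b hb i
  obtain ⟨h1, -⟩ := bd_dual hBT G X Y m D p hp i (i - 1)
  obtain ⟨-, h2⟩ := bd_dual hBT G X Y m D p hp (i + 1) i
  have hb := hb (m - i)
  have e1 : m - (i - 1) = m - i + 1 := by ring
  have e2 : m - (i + 1) = m - i - 1 := by ring
  rw [h1, h2, e1, e2]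
  have hf : Finite (HSp.CoV G p (X.P (m - i))) := HSp.finite_coV G p hp.pos _
  have h3 := bd_ker_T p hp (bd_killed p _) (HSp.coMap G p (X.d (m - i + 1) (m - i)))
  have h4 := bd_ker_range (HSp.coMap G p (X.d (m - i) (m - i - 1)))
  have h5 : 0 < Nat.card (HSp.coMap G p (X.d (m - i + 1) (m - i))).range := Nat.card_pos
  refine Nat.eq_of_mul_eq_mul_right h5 ?_
  rw [← h3, h4, hb]
  ring

end HEp
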