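import Pool.Agent.Lib.MP_181146_gt.HE.SpecG
import Pool.Agent.Lib.MP_181146_gt.HS.Uniq

/-!
# Project HE, module BEx: existence of Betti numbers
-/

set_option autoImplicit false

namespace HEp

private theorem bex_card {W : Type} [AddCommGroup W] [Finite W] {p : ℕ} (hp : p.Prime)
    (h : ∀ x : W, p • x = 0) : ∃ a : ℕ, Nat.card W = p ^ a := by
  have : Fact p.Prime := ⟨hp⟩
  have h1 : IsPGroup p (Multiplicative W) := by
    intro g
    refine ⟨1, ?_⟩
    rw [pow_one]
    exact h g.toAdd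
  obtain ⟨a, ha⟩ := IsPGroup.iff_card.1 h1
  exact ⟨a, ha⟩

private theorem bex_kill {G : Type} [CommGroup G] (p : ℕ) (M : Type) [AddCommGroup M]
    [Module (ZG G) M] (x : HSp.CoV G p M) : p • x = 0 := by
  obtain ⟨y, rfl⟩ := QuotientAddGroup.mk'_surjective (HSp.CoS G p M) x
  rw [← map_nsmul]
  refine (QuotientAddGroup.eq_zero_iff _).2 (AddSubgroup.subset_closure (Or.inr ⟨y, ?_⟩))
  exact (natCast_zsmul y p).symm

theorem sBEx : S_BEx := by
  intro G _ _ X p hp
  have key : ∀ i : ℤ, ∃ b : ℕ, Nat.card (HSp.coMap G p (X.d i (i - 1))).ker =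
      p ^ b * Nat.card (HSp.coMap G p (X.d (i + 1) i)).range := by
    intro i
    have hf : Finite (HSp.CoV G p (X.P i)) := HSp.finite_coV G p hp.pos (X.P i)
    have hle : (HSp.coMap G p (X.d (i + 1) i)).range ≤ (HSp.coMap G p (X.d i (i - 1))).ker := by
      rintro y ⟨x, rfl⟩
      obtain ⟨x, rfl⟩ := QuotientAddGroup.mk'_surjective (HSp.CoS G p (X.P (i + 1))) x
      rw [AddMonoidHom.mem_ker]
      change QuotientAddGroup.mk' (HSp.CoS G p (X.P (i - 1)))
        (X.d i (i - 1) (X.d (i + 1) i x)) = 0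
      rw [X.dd, map_zero]
    have hd := AddSubgroup.card_dvd_of_le hle
    obtain ⟨a, ha⟩ := bex_card hp (W := (HSp.coMap G p (X.d i (i - 1))).ker) fun x =>
      Subtype.ext (bex_kill p _ _)
    obtain ⟨c, hc⟩ := bex_card hp (W := (HSp.coMap G p (X.d (i + 1) i)).range) fun x =>
      Subtype.ext (bex_kill p _ _)
    rw [ha, hc] at hd
    have hca : c ≤ a := (Nat.pow_dvd_pow_iff_le_right hp.one_lt).1 hd
    refine ⟨a - c, ?_⟩
    rw [ha, hc, pow_sub_mul_pow p hca]
  choose b hb using key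
  exact ⟨b, hb⟩

end HEp
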