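import Pool.Agent.Lib.MP_181146_gt.HE.SpecG

/-!
# Project HE, module BT: coinvariants of the dual modulo `p`
-/

set_option autoImplicit false

namespace HEp

section

variable {G : Type} [CommGroup G] (p : ℕ)

private lemma bt_mk_smul {M : Type} [AddCommGroup M] [Module (ZG G) M] (g : G) (x : M) :
    (QuotientAddGroup.mk (MonoidAlgebra.of ℤ G g • x) : HSp.CoV G p M) = QuotientAddGroup.mk x := by
  rw [eq_comm, QuotientAddGroup.eq]
  refine AddSubgroup.subset_closure (Or.inl ⟨g, x, ?_⟩)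
  rw [add_comm, sub_eq_add_neg]

private lemma bt_mk_p {M : Type} [AddCommGroup M] [Module (ZG G) M] (x : M) :
    (QuotientAddGroup.mk ((p : ℤ) • x) : HSp.CoV G p M) = 0 := by
  rw [QuotientAddGroup.eq_zero_iff]
  exact AddSubgroup.subset_closure (Or.inr ⟨x, rfl⟩)

variable [Fintype G] {M : Type} [AddCommGroup M] [Module (ZG G) M]

/-- the pairing on `M` -/
private noncomputable def btF (f : ZD (ZG G) M) : M →+ ZMod p :=
  AddMonoidHom.mk' (fun x => ∑ g : G, ((f (MonoidAlgebra.of ℤ G g • x) : ℤ) : ZMod p)) (by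
    intro x y
    rw [← Finset.sum_add_distrib]
    refine Finset.sum_congr rfl fun g _ => ?_
    rw [smul_add, map_add, Int.cast_add])

private lemma btF_apply (f : ZD (ZG G) M) (x : M) :
    btF p f x = ∑ g : G, ((f (MonoidAlgebra.of ℤ G g • x) : ℤ) : ZMod p) := rfl

private lemma btF_g (f : ZD (ZG G) M) (h : G) (x : M) :
    ∑ g : G, ((f (MonoidAlgebra.of ℤ G g • MonoidAlgebra.of ℤ G h • x) : ℤ) : ZMod p) =
      ∑ g : G, ((f (MonoidAlgebra.of ℤ G g • x) : ℤ) : ZMod p) := by
  have h1 : ∀ g : G, ((f (MonoidAlgebra.of ℤ G g • MonoidAlgebra.of ℤ G h • x) : ℤ) : ZMod p) =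
      (fun g : G => ((f (MonoidAlgebra.of ℤ G g • x) : ℤ) : ZMod p)) (Equiv.mulRight h g) := by
    intro g
    simp only [Equiv.coe_mulRight]
    rw [← mul_smul, ← map_mul]
  rw [Finset.sum_congr rfl fun g _ => h1 g]
  exact Equiv.sum_comp (Equiv.mulRight h)
    (fun g : G => ((f (MonoidAlgebra.of ℤ G g • x) : ℤ) : ZMod p))

private lemma btF_ker (f : ZD (ZG G) M) : HSp.CoS G p M ≤ (btF p f).ker := by
  unfold HSp.CoS
  rw [AddSubgroup.closure_le]
  rintro x (⟨h, y, rfl⟩ | ⟨y, rfl⟩)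
  · change btF p f _ = 0
    rw [map_sub, btF_apply, btF_apply, btF_g, sub_self]
  · change btF p f _ = 0
    rw [map_zsmul, zsmul_eq_mul, Int.cast_natCast, ZMod.natCast_self, zero_mul]

/-- the pairing on the coinvariants of `M` -/
private noncomputable def bt1 : ZD (ZG G) M →+ (HSp.CoV G p M →+ ZMod p) :=
  AddMonoidHom.mk' (fun f => QuotientAddGroup.lift (HSp.CoS G p M) (btF p f) (btF_ker p f)) (by
    intro f f'
    apply AddMonoidHom.ext
    intro x
    obtain ⟨x, rfl⟩ := QuotientAddGroup.mk_surjective x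
    change btF p (f + f') x = btF p f x + btF p f' x
    rw [btF_apply, btF_apply, btF_apply, ← Finset.sum_add_distrib]
    refine Finset.sum_congr rfl fun g _ => ?_
    rw [← Int.cast_add]
    rfl)

private lemma bt1_apply (f : ZD (ZG G) M) (x : M) :
    bt1 p f (QuotientAddGroup.mk x) =
      ∑ g : G, ((f (MonoidAlgebra.of ℤ G g • x) : ℤ) : ZMod p) := rfl

private lemma bt1_ker : HSp.CoS G p (ZD (ZG G) M) ≤ (bt1 p (M := M)).ker := by
  unfold HSp.CoS
  rw [AddSubgroup.closure_le]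
  rintro f (⟨h, f, rfl⟩ | ⟨f, rfl⟩)
  · change bt1 p _ = 0
    rw [map_sub, sub_eq_zero]
    apply AddMonoidHom.ext
    intro x
    obtain ⟨x, rfl⟩ := QuotientAddGroup.mk_surjective x
    rw [bt1_apply, bt1_apply, ← btF_g p f h x]
    refine Finset.sum_congr rfl fun g _ => ?_
    rw [ZD_smul_apply, smul_comm]
  · change bt1 p _ = 0
    rw [map_zsmul]
    apply AddMonoidHom.ext
    intro x
    change (p : ℤ) • (bt1 p f x) = 0
    rw [zsmul_eq_mul, Int.cast_natCast, ZMod.natCast_self, zero_mul]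

/-- the pairing -/
private noncomputable def btT : HSp.CoV G p (ZD (ZG G) M) →+ (HSp.CoV G p M →+ ZMod p) :=
  QuotientAddGroup.lift (HSp.CoS G p (ZD (ZG G) M)) (bt1 p) (bt1_ker p)

private lemma btT_apply (f : ZD (ZG G) M) (x : M) :
    btT p (QuotientAddGroup.mk f) (QuotientAddGroup.mk x) =
      ∑ g : G, ((f (MonoidAlgebra.of ℤ G g • x) : ℤ) : ZMod p) := rfl

private lemma btT_map {M' : Type} [AddCommGroup M'] [Module (ZG G) M'] (u : M →ₗ[ZG G] M')
    (f : ZD (ZG G) M') (x : M) :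
    btT p (QuotientAddGroup.mk (ZDmap u f)) (QuotientAddGroup.mk x) =
      btT p (QuotientAddGroup.mk f) (QuotientAddGroup.mk (u x)) := by
  rw [btT_apply, btT_apply]
  refine Finset.sum_congr rfl fun g _ => ?_
  rw [ZDmap_apply, map_smul]

end

section dec

variable {G : Type} [CommGroup G]

private lemma of_mul_coeff_one (g : G) (a : ZG G) :
    (MonoidAlgebra.of ℤ G g * a).coeff 1 = a.coeff g⁻¹ := by
  rw [MonoidAlgebra.of_apply, MonoidAlgebra.coeff_single_mul_eq_mul_coeff g⁻¹, one_mul]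
  intro m _
  exact mul_eq_one_iff_inv_eq.trans eq_comm

variable [Fintype G]

private lemma bt_dec1 {A : Type} [AddCommGroup A] (F : ZG G →+ A) (a : ZG G) :
    F a = ∑ g : G, a.coeff g • F (MonoidAlgebra.of ℤ G g) := by
  let L : ZG G →+ A := AddMonoidHom.mk'
    (fun a : ZG G => ∑ g : G, a.coeff g • F (MonoidAlgebra.of ℤ G g)) (by
      intro a b
      rw [← Finset.sum_add_distrib]
      refine Finset.sum_congr rfl fun g _ => ?_
      rw [← add_smul]
      rfl)
  have h : F = L := by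
    apply MonoidAlgebra.addMonoidHom_ext
    intro x m
    change F (MonoidAlgebra.single x m) =
      ∑ g : G, (MonoidAlgebra.single x m : ZG G).coeff g • F (MonoidAlgebra.of ℤ G g)
    rw [Finset.sum_eq_single x]
    · have h1 : (MonoidAlgebra.single x m : ZG G).coeff x = m := by simp
      have h2 : (MonoidAlgebra.single x m : ZG G) = m • MonoidAlgebra.of ℤ G x := by
        rw [MonoidAlgebra.of_apply, MonoidAlgebra.smul_single, smul_eq_mul, mul_one]
      rw [h1, h2, map_zsmul]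
    · intro g _ hg
      have h1 : (MonoidAlgebra.single x m : ZG G).coeff g = 0 := by
        simp [Ne.symm hg]
      rw [h1, zero_smul]
    · intro h
      exact absurd (Finset.mem_univ _) h
  exact DFunLike.congr_fun h a

private lemma bt_dec {A : Type} [AddCommGroup A] (n : ℕ) (F : (Fin n → ZG G) →+ A)
    (x : Fin n → ZG G) :
    F x = ∑ i, ∑ g : G, (x i).coeff g •
      F (MonoidAlgebra.of ℤ G g • (Pi.single i (1 : ZG G) : Fin n → ZG G)) := by
  classical
  conv_lhs => rw [← Finset.univ_sum_single x]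
  rw [map_sum]
  refine Finset.sum_congr rfl fun i _ => ?_
  have h1 := bt_dec1 (F.comp (AddMonoidHom.single (fun _ : Fin n => ZG G) i)) (x i)
  refine h1.trans ?_
  refine Finset.sum_congr rfl fun g _ => ?_
  congr 1
  change F (Pi.single i (MonoidAlgebra.of ℤ G g)) = _
  congr 1
  rw [← Pi.single_smul, smul_eq_mul, mul_one]

end dec

section free

variable {G : Type} [CommGroup G] (n : ℕ)

/-- the coefficient of `1` in the coordinate `i` -/
private noncomputable def btD (i : Fin n) : ZD (ZG G) (Fin n → ZG G) :=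
  (AddMonoidHom.mk' (fun x : Fin n → ZG G => (x i).coeff 1) (fun _ _ => rfl) :
    (Fin n → ZG G) →+ ℤ)

private lemma btD_smul (i : Fin n) (g : G) (x : Fin n → ZG G) :
    btD n i (MonoidAlgebra.of ℤ G g • x) = (x i).coeff g⁻¹ :=
  of_mul_coeff_one g (x i)

variable [Fintype G]

omit [Fintype G] in
private lemma zd_sum {M : Type} [AddCommGroup M] [Module (ZG G) M] {ι : Type} (s : Finset ι)
    (f : ι → ZD (ZG G) M) (x : M) : (∑ i ∈ s, f i : ZD (ZG G) M) x = ∑ i ∈ s, f i x :=
  AddMonoidHom.finsetSum_apply (N := ℤ) f s x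

private lemma free_inj (p : ℕ) :
    Function.Injective (btT p (G := G) (M := Fin n → ZG G)) := by
  classical
  rw [injective_iff_map_eq_zero]
  intro f hf
  obtain ⟨f, rfl⟩ := QuotientAddGroup.mk_surjective f
  have h0 : ∀ i : Fin n, ∃ k : ℤ, ∑ g : G,
      f (MonoidAlgebra.of ℤ G g • (Pi.single i (1 : ZG G) : Fin n → ZG G)) = (p : ℤ) * k := by
    intro i
    have h1 := DFunLike.congr_fun hf
      (QuotientAddGroup.mk (Pi.single i (1 : ZG G) : Fin n → ZG G))
    rw [btT_apply] at h1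
    change _ = (0 : ZMod p) at h1
    rw [← Int.cast_sum, ZMod.intCast_zmod_eq_zero_iff_dvd] at h1
    exact h1
  choose k hk using h0
  have h2 : f = ∑ i, ∑ g : G,
      (f (MonoidAlgebra.of ℤ G g⁻¹ • (Pi.single i (1 : ZG G) : Fin n → ZG G))) •
        (MonoidAlgebra.of ℤ G g • (btD n i : ZD (ZG G) (Fin n → ZG G))) := by
    apply AddMonoidHom.ext
    intro x
    have h3 := bt_dec n (f : (Fin n → ZG G) →+ ℤ) x
    refine h3.trans ?_
    refine Eq.trans ?_ (zd_sum Finset.univ _ x).symm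
    refine Finset.sum_congr rfl fun i _ => ?_
    refine Eq.trans ?_ (zd_sum Finset.univ _ x).symm
    rw [← Equiv.sum_comp (Equiv.inv G)]
    refine Finset.sum_congr rfl fun g _ => ?_
    have h4 : ((f (MonoidAlgebra.of ℤ G g⁻¹ • (Pi.single i (1 : ZG G) : Fin n → ZG G))) •
        (MonoidAlgebra.of ℤ G g • (btD n i : ZD (ZG G) (Fin n → ZG G))) : ZD (ZG G) _) x =
        (f (MonoidAlgebra.of ℤ G g⁻¹ • (Pi.single i (1 : ZG G) : Fin n → ZG G))) *
          (x i).coeff g⁻¹ := by
      rw [← btD_smul n i g x]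
      rfl
    rw [h4, mul_comm]
    rfl
  rw [h2]
  have h5 : ∀ (i : Fin n), (QuotientAddGroup.mk (∑ g : G,
      (f (MonoidAlgebra.of ℤ G g⁻¹ • (Pi.single i (1 : ZG G) : Fin n → ZG G))) •
        (MonoidAlgebra.of ℤ G g • (btD n i : ZD (ZG G) (Fin n → ZG G)))) :
        HSp.CoV G p (ZD (ZG G) (Fin n → ZG G))) = 0 := by
    intro i
    have h6 : ∀ g : G, (QuotientAddGroup.mk
        ((f (MonoidAlgebra.of ℤ G g⁻¹ • (Pi.single i (1 : ZG G) : Fin n → ZG G))) •
        (MonoidAlgebra.of ℤ G g • (btD n i : ZD (ZG G) (Fin n → ZG G)))) :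
        HSp.CoV G p (ZD (ZG G) (Fin n → ZG G))) =
        (f (MonoidAlgebra.of ℤ G g⁻¹ • (Pi.single i (1 : ZG G) : Fin n → ZG G))) •
          (QuotientAddGroup.mk (btD n i : ZD (ZG G) (Fin n → ZG G)) :
            HSp.CoV G p (ZD (ZG G) (Fin n → ZG G))) := by
      intro g
      rw [QuotientAddGroup.mk_zsmul, bt_mk_smul]
    rw [QuotientAddGroup.mk_sum, Finset.sum_congr rfl fun g _ => h6 g, ← Finset.sum_smul]
    have h7 : ∑ g : G, f (MonoidAlgebra.of ℤ G g⁻¹ •
        (Pi.single i (1 : ZG G) : Fin n → ZG G)) = (p : ℤ) * k i := by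
      rw [← hk i]
      exact Equiv.sum_comp (Equiv.inv G)
        (fun g => f (MonoidAlgebra.of ℤ G g • (Pi.single i (1 : ZG G) : Fin n → ZG G)))
    rw [h7, mul_smul, ← QuotientAddGroup.mk_zsmul, ← QuotientAddGroup.mk_zsmul, bt_mk_p]
  rw [QuotientAddGroup.mk_sum]
  exact Finset.sum_eq_zero fun i _ => h5 i

private lemma free_surj (p : ℕ) :
    Function.Surjective (btT p (G := G) (M := Fin n → ZG G)) := by
  classical
  intro φ
  have h0 : ∀ i : Fin n, ∃ c : ℤ, (c : ZMod p) =
      φ (QuotientAddGroup.mk (Pi.single i (1 : ZG G) : Fin n → ZG G)) :=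
    fun i => ZMod.intCast_surjective _
  choose c hc using h0
  refine ⟨QuotientAddGroup.mk (∑ i, c i • (btD n i : ZD (ZG G) (Fin n → ZG G))), ?_⟩
  apply AddMonoidHom.ext
  intro x
  obtain ⟨x, rfl⟩ := QuotientAddGroup.mk_surjective x
  rw [btT_apply]
  have h1 := bt_dec n (φ.comp (QuotientAddGroup.mk' (HSp.CoS G p (Fin n → ZG G)))) x
  refine Eq.trans ?_ h1.symm
  have h2 : ∀ g : G, (((∑ i, c i • (btD n i : ZD (ZG G) (Fin n → ZG G)) :
      ZD (ZG G) (Fin n → ZG G)) (MonoidAlgebra.of ℤ G g • x) : ℤ) : ZMod p) =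
      ∑ i, (c i : ZMod p) * (((x i).coeff g⁻¹ : ℤ) : ZMod p) := by
    intro g
    rw [zd_sum, Int.cast_sum]
    refine Finset.sum_congr rfl fun i _ => ?_
    rw [← btD_smul n i g x, ← Int.cast_mul]
    rfl
  rw [Finset.sum_congr rfl fun g _ => h2 g, Finset.sum_comm]
  refine Finset.sum_congr rfl fun i _ => ?_
  rw [← Equiv.sum_comp (Equiv.inv G) (fun g : G => (c i : ZMod p) *
    (((x i).coeff g⁻¹ : ℤ) : ZMod p))]
  refine Finset.sum_congr rfl fun g _ => ?_
  change (c i : ZMod p) * (((x i).coeff (g⁻¹)⁻¹ : ℤ) : ZMod p) = (x i).coeff g •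
    φ (QuotientAddGroup.mk (MonoidAlgebra.of ℤ G g • (Pi.single i (1 : ZG G) : Fin n → ZG G)))
  rw [bt_mk_smul, ← hc, inv_inv, zsmul_eq_mul, mul_comm]

end free

theorem sBT : S_BT := by
  intro G _ _ M _ _ _ _ p hp
  obtain ⟨n, r, hr⟩ := Module.Finite.exists_fin' (ZG G) M
  obtain ⟨i, hi⟩ := Module.projective_lifting_property r LinearMap.id hr
  have hri : ∀ x, r (i x) = x := fun x => LinearMap.congr_fun hi x
  have hinj : Function.Injective (btT p (G := G) (M := M)) := by
    rw [injective_iff_map_eq_zero]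
    intro f hf
    obtain ⟨f, rfl⟩ := QuotientAddGroup.mk_surjective f
    have h1 : btT p (QuotientAddGroup.mk (ZDmap r f)) = 0 := by
      apply AddMonoidHom.ext
      intro x
      obtain ⟨x, rfl⟩ := QuotientAddGroup.mk_surjective x
      rw [btT_map, hf]
      rfl
    have h2 : (QuotientAddGroup.mk (ZDmap r f) :
        HSp.CoV G p (ZD (ZG G) (Fin n → ZG G))) = 0 :=
      free_inj n p (h1.trans (map_zero _).symm)
    have h3 : HSp.coMap G p (ZDmap i) (QuotientAddGroup.mk (ZDmap r f)) =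
        (QuotientAddGroup.mk f : HSp.CoV G p (ZD (ZG G) M)) := by
      change (QuotientAddGroup.mk (ZDmap i (ZDmap r f)) : HSp.CoV G p (ZD (ZG G) M)) = _
      congr 1
      apply AddMonoidHom.ext
      intro x
      change f (r (i x)) = f x
      rw [hri]
    rw [← h3, h2, map_zero]
  have hsurj : Function.Surjective (btT p (G := G) (M := M)) := by
    intro φ
    obtain ⟨f, hf⟩ := free_surj n p (φ.comp (HSp.coMap G p r))
    obtain ⟨f, rfl⟩ := QuotientAddGroup.mk_surjective f
    refine ⟨QuotientAddGroup.mk (ZDmap i f), ?_⟩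
    apply AddMonoidHom.ext
    intro x
    obtain ⟨x, rfl⟩ := QuotientAddGroup.mk_surjective x
    rw [btT_map, hf]
    change φ (QuotientAddGroup.mk (r (i x))) = _
    rw [hri]
  exact ⟨AddEquiv.ofBijective (btT p) ⟨hinj, hsurj⟩, fun f x => btT_apply p f x⟩

end HEp
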