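import Pool.Agent.Lib.MP_181146_gt.HE.SpecS

/-!
# Project HE, module Con: the contraction of the chains of a product of two simplices (helper3).
The file is called ConP because Lean refuses a module named Con (reserved file name).
-/

set_option autoImplicit false

namespace HEp

/-- The cone of a simplex of `Ed Y × Ed Z`. -/
private def cns {Y Z : Type} (b : Y) (c : Z) {n : ℕ} (x : ((Ed Y).prod (Ed Z)).K n) :
    ((Ed Y).prod (Ed Z)).K (n + 1) :=
  ((Fin.cons b x.1 : Fin (n + 2) → Y), (Fin.cons c x.2 : Fin (n + 2) → Z))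

/-- The constant vertex. -/
private def cst {Y Z : Type} (b : Y) (c : Z) : ((Ed Y).prod (Ed Z)).K 0 :=
  ((fun _ => b : Fin 1 → Y), (fun _ => c : Fin 1 → Z))

private lemma act_zero_cns {Y Z : Type} (b : Y) (c : Z) {n : ℕ} (x : ((Ed Y).prod (Ed Z)).K n) :
    ((Ed Y).prod (Ed Z)).act (0 : Fin (n + 2)).succAbove (cns b c x) = x := by
  obtain ⟨v, w⟩ := x
  refine Prod.ext ?_ ?_
  · funext i
    change (Fin.cons b v : Fin (n + 2) → Y) ((0 : Fin (n + 2)).succAbove i) = v i
    rw [Fin.succAbove_zero]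
    rfl
  · funext i
    change (Fin.cons c w : Fin (n + 2) → Z) ((0 : Fin (n + 2)).succAbove i) = w i
    rw [Fin.succAbove_zero]
    rfl

private lemma act_one_cns {Y Z : Type} (b : Y) (c : Z) (x : ((Ed Y).prod (Ed Z)).K 0) :
    ((Ed Y).prod (Ed Z)).act (Fin.succ (0 : Fin (0 + 1))).succAbove (cns b c x) = cst b c := by
  obtain ⟨v, w⟩ := x
  refine Prod.ext ?_ ?_
  · funext i
    fin_cases i
    rfl
  · funext i
    fin_cases i
    rfl

private lemma act_succ_cns {Y Z : Type} (b : Y) (c : Z) {n : ℕ}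
    (x : ((Ed Y).prod (Ed Z)).K (n + 1)) (i : Fin (n + 2)) :
    ((Ed Y).prod (Ed Z)).act (Fin.succ i).succAbove (cns b c x) =
      cns b c (((Ed Y).prod (Ed Z)).act i.succAbove x) := by
  obtain ⟨v, w⟩ := x
  refine Prod.ext ?_ ?_
  · funext j
    change (Fin.cons b v : Fin (n + 3) → Y) ((Fin.succ i).succAbove j) =
      (Fin.cons b (fun t => v (i.succAbove t)) : Fin (n + 2) → Y) j
    refine Fin.cases ?_ (fun j => ?_) j
    · rw [Fin.succ_succAbove_zero]
      rfl
    · rw [Fin.succ_succAbove_succ]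
      rfl
  · funext j
    change (Fin.cons c w : Fin (n + 3) → Z) ((Fin.succ i).succAbove j) =
      (Fin.cons c (fun t => w (i.succAbove t)) : Fin (n + 2) → Z) j
    refine Fin.cases ?_ (fun j => ?_) j
    · rw [Fin.succ_succAbove_zero]
      rfl
    · rw [Fin.succ_succAbove_succ]
      rfl

variable (k : Type) [CommRing k]

/-- The cone operator of `Ed Y × Ed Z`. -/
private noncomputable def cnP {Y Z : Type} (b : Y) (c : Z) :
    Ch k ((Ed Y).prod (Ed Z)) →ₗ[k] Ch k ((Ed Y).prod (Ed Z)) :=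
  Finsupp.lmapDomain k k (fun x => ⟨x.1 + 1, cns b c x.2⟩)

private lemma cnP_sx {Y Z : Type} (b : Y) (c : Z) {n : ℕ} (x : ((Ed Y).prod (Ed Z)).K n) :
    cnP k b c (sx k x) = sx k (cns b c x) := by
  rw [cnP, sx, Finsupp.lmapDomain_apply, Finsupp.mapDomain_single]
  rfl

private lemma bd_cnP {Y Z : Type} (b : Y) (c : Z) (x : Ch k ((Ed Y).prod (Ed Z))) :
    bd k ((Ed Y).prod (Ed Z)) (cnP k b c x) + cnP k b c (bd k ((Ed Y).prod (Ed Z)) x) =
      x - aug k ((Ed Y).prod (Ed Z)) x • sx k (cst b c) := by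
  have h : bd k ((Ed Y).prod (Ed Z)) ∘ₗ cnP k b c + cnP k b c ∘ₗ bd k ((Ed Y).prod (Ed Z)) =
      LinearMap.id - (LinearMap.toSpanSingleton k (Ch k ((Ed Y).prod (Ed Z))) (sx k (cst b c))) ∘ₗ
        aug k ((Ed Y).prod (Ed Z)) := ch_ext fun n v => by
    rw [LinearMap.add_apply, LinearMap.comp_apply, LinearMap.comp_apply, LinearMap.sub_apply,
      LinearMap.comp_apply, LinearMap.toSpanSingleton_apply, LinearMap.id_apply, cnP_sx, bd_sx,
      Fin.sum_univ_succ, act_zero_cns, Fin.val_zero, pow_zero, one_smul]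
    cases n with
    | zero =>
      rw [bd_sx_zero, map_zero, add_zero, aug_sx_zero, one_smul, Fin.sum_univ_succ,
        Fin.sum_univ_zero, add_zero, act_one_cns]
      simp [sub_eq_add_neg]
    | succ n =>
      rw [bd_sx, aug_sx_succ, zero_smul, sub_zero, map_sum, add_assoc, ← Finset.sum_add_distrib]
      rw [Finset.sum_eq_zero, add_zero]
      intro i _
      rw [map_smul, cnP_sx, Fin.val_succ, pow_succ, mul_neg, mul_one, neg_smul, act_succ_cns]
      exact neg_add_cancel _
  exact LinearMap.congr_fun h x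

private lemma od_cnP {Y Z : Type} (b : Y) (c : Z) (x : Ch k ((Ed Y).prod (Ed Z))) :
    od k ((Ed Y).prod (Ed Z)) (cnP k b c x) = cnP k b c (x - od k ((Ed Y).prod (Ed Z)) x) := by
  have h : od k ((Ed Y).prod (Ed Z)) ∘ₗ cnP k b c =
      cnP k b c ∘ₗ (LinearMap.id - od k ((Ed Y).prod (Ed Z))) := ch_ext fun n v => by
    rw [LinearMap.comp_apply, LinearMap.comp_apply, LinearMap.sub_apply, LinearMap.id_apply,
      cnP_sx, od_sx, od_sx]
    by_cases h : Odd n
    · rw [if_pos h, if_neg (by rw [Nat.odd_add_one, not_not]; exact h), sub_self, map_zero]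
    · rw [if_neg h, if_pos (by rw [Nat.odd_add_one]; exact h), sub_zero, cnP_sx]
  exact LinearMap.congr_fun h x

private lemma aug_cnP {Y Z : Type} (b : Y) (c : Z) (x : Ch k ((Ed Y).prod (Ed Z))) :
    aug k ((Ed Y).prod (Ed Z)) (cnP k b c x) = 0 := by
  have h : aug k ((Ed Y).prod (Ed Z)) ∘ₗ cnP k b c = 0 := ch_ext fun n v => by
    rw [LinearMap.comp_apply, cnP_sx, aug_sx_succ, LinearMap.zero_apply]
  exact LinearMap.congr_fun h x

private lemma aug_odC {K : SS} (x : Ch k K) : aug k K (od k K x) = 0 := by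
  have h : aug k K ∘ₗ od k K = 0 := ch_ext fun n x => by
    rw [LinearMap.comp_apply, od_sx, LinearMap.zero_apply]
    cases n with
    | zero => rw [if_neg (by decide), map_zero]
    | succ n =>
      split_ifs
      · rw [aug_sx_succ]
      · rw [map_zero]
  exact LinearMap.congr_fun h x

private lemma od_cst {Y Z : Type} (b : Y) (c : Z) :
    od k ((Ed Y).prod (Ed Z)) (sx k (cst b c)) = 0 := by
  rw [od_sx, if_neg (by decide)]

private lemma cnP_gr {Y Z : Type} (b : Y) (c : Z) (n : ℕ) (x : Ch k ((Ed Y).prod (Ed Z)))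
    (hx : x ∈ gr k ((Ed Y).prod (Ed Z)) n) :
    cnP k b c x ∈ gr k ((Ed Y).prod (Ed Z)) (n + 1) := by
  rw [gr, Finsupp.mem_supported] at hx ⊢
  intro y hy
  classical
  rw [cnP, Finsupp.lmapDomain_apply] at hy
  have h1 := Finsupp.mapDomain_support hy
  rw [Finset.mem_image] at h1
  obtain ⟨z, hz, rfl⟩ := h1
  have h2 : z.1 = n := hx hz
  change z.1 + 1 = n + 1
  rw [h2]

theorem sCon : S_Con := by
  intro k _ p q
  exact ⟨{ h := cnP k 0 0, u := sx k (cst 0 0), rel := fun x => bd_cnP k 0 0 x,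
           odd := fun x => od_cnP k 0 0 x, εh := fun x => aug_cnP k 0 0 x,
           εd := fun x => aug_bd k x, εP := fun x => aug_odC k x,
           εu := aug_sx_zero k _, du := bd_sx_zero k _, Pu := od_cst k 0 0 },
    fun n x hx => cnP_gr k 0 0 n x hx⟩

end HEp
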