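import Pool.Agent.Lib.MP_181146_gt.HE.SpecS

/-!
# Project HE: the tensor product of two contractions
-/

set_option autoImplicit false

namespace HEp

open scoped TensorProduct

variable {k : Type} [CommRing k] {A B : DG k} {ε : A.V →ₗ[k] k} {ε' : B.V →ₗ[k] k}

/-- The homotopy of the tensor product. -/
private noncomputable def ctH (C : Ctr A ε) (C' : Ctr B ε') : A.V ⊗[k] B.V →ₗ[k] A.V ⊗[k] B.V :=
  TensorProduct.map C.h LinearMap.id +
    TensorProduct.map ((LinearMap.toSpanSingleton k A.V C.u) ∘ₗ ε) C'.h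

private lemma ctH_tmul (C : Ctr A ε) (C' : Ctr B ε') (a : A.V) (b : B.V) :
    ctH C C' (a ⊗ₜ b) = C.h a ⊗ₜ b + ε a • (C.u ⊗ₜ[k] C'.h b) := by
  rw [ctH, LinearMap.add_apply, TensorProduct.map_tmul, TensorProduct.map_tmul,
    LinearMap.comp_apply, LinearMap.toSpanSingleton_apply, LinearMap.id_apply,
    TensorProduct.smul_tmul']

private lemma ct_sg (C : Ctr A ε) (a : A.V) : A.sg (C.h a) = - C.h (A.sg a) := by
  rw [A.sg_apply, A.sg_apply, C.odd, map_sub, map_sub, map_smul]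
  module

private lemma ct_sgu (C : Ctr A ε) : A.sg C.u = C.u := by
  rw [A.sg_apply, C.Pu, smul_zero, sub_zero]

private lemma ct_εsg (C : Ctr A ε) (a : A.V) : ε (A.sg a) = ε a := by
  rw [A.sg_apply, map_sub, map_smul, C.εP, smul_zero, sub_zero]

private lemma ct_rel (C : Ctr A ε) (C' : Ctr B ε') (a : A.V) (b : B.V) :
    (A.tens B).d (ctH C C' (a ⊗ₜ b)) + ctH C C' ((A.tens B).d (a ⊗ₜ b)) =
      a ⊗ₜ b - augT ε ε' (a ⊗ₜ b) • (C.u ⊗ₜ[k] C'.u) := by
  have h1 : (A.tens B).d (ctH C C' (a ⊗ₜ b)) =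
      A.d (C.h a) ⊗ₜ[k] b + (- C.h (A.sg a)) ⊗ₜ[k] B.d b +
        ε a • (C.u ⊗ₜ[k] B.d (C'.h b)) := by
    rw [ctH_tmul, map_add, map_smul, DG.tens_d, DG.tens_d, C.du, TensorProduct.zero_tmul,
      zero_add, ct_sg, ct_sgu]
  have h2 : ctH C C' ((A.tens B).d (a ⊗ₜ b)) =
      C.h (A.d a) ⊗ₜ[k] b + (C.h (A.sg a) ⊗ₜ[k] B.d b + ε a • (C.u ⊗ₜ[k] C'.h (B.d b))) := by
    rw [DG.tens_d, map_add, ctH_tmul, ctH_tmul, C.εd, zero_smul, add_zero, ct_εsg C]
  have h3 : A.d (C.h a) ⊗ₜ[k] b = (a - ε a • C.u) ⊗ₜ[k] b - C.h (A.d a) ⊗ₜ[k] b := by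
    rw [← C.rel a, TensorProduct.add_tmul, add_sub_cancel_right]
  have h4 : C.u ⊗ₜ[k] B.d (C'.h b) = C.u ⊗ₜ[k] (b - ε' b • C'.u) - C.u ⊗ₜ[k] C'.h (B.d b) := by
    rw [← C'.rel b, TensorProduct.tmul_add, add_sub_cancel_right]
  rw [h1, h2, h3, h4, augT_tmul]
  simp only [TensorProduct.tmul_sub, TensorProduct.sub_tmul, TensorProduct.tmul_smul,
    ← TensorProduct.smul_tmul', TensorProduct.neg_tmul]
  module

private lemma ct_odd (C : Ctr A ε) (C' : Ctr B ε') (a : A.V) (b : B.V) :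
    (A.tens B).P (ctH C C' (a ⊗ₜ b)) = ctH C C' (a ⊗ₜ b - (A.tens B).P (a ⊗ₜ b)) := by
  have h1 : (A.tens B).P (ctH C C' (a ⊗ₜ b)) =
      C.h (a - A.P a) ⊗ₜ[k] b + C.h a ⊗ₜ[k] B.P b - (2 : k) • (C.h (a - A.P a) ⊗ₜ[k] B.P b) +
        ε a • (C.u ⊗ₜ[k] C'.h (b - B.P b)) := by
    rw [ctH_tmul, map_add, map_smul, DG.tens_P, DG.tens_P, C.Pu, C.odd, C'.odd,
      TensorProduct.zero_tmul, TensorProduct.zero_tmul, smul_zero, zero_add, sub_zero]
  have h2 : ctH C C' (A.P a ⊗ₜ[k] b + a ⊗ₜ[k] B.P b - (2 : k) • (A.P a ⊗ₜ[k] B.P b)) =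
      C.h (A.P a) ⊗ₜ[k] b + (C.h a ⊗ₜ[k] B.P b + ε a • (C.u ⊗ₜ[k] C'.h (B.P b))) -
        (2 : k) • (C.h (A.P a) ⊗ₜ[k] B.P b) := by
    rw [map_sub, map_add, map_smul, ctH_tmul, ctH_tmul, ctH_tmul, C.εP, zero_smul, zero_smul,
      add_zero, add_zero]
  rw [h1, DG.tens_P, map_sub (ctH C C'), h2, ctH_tmul]
  simp only [TensorProduct.tmul_sub, TensorProduct.sub_tmul, map_sub]
  module

theorem sCtrT : S_CtrT := by
  intro k _ A B ε ε' C C'
  refine ⟨⟨ctH C C', C.u ⊗ₜ[k] C'.u, ?_, ?_, ?_, ?_, ?_, ?_, ?_, ?_⟩⟩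
  · intro x
    induction x using TensorProduct.induction_on with
    | zero => simp only [map_zero, zero_smul, sub_zero, add_zero]
    | add x y hx hy =>
      have e1 : (A.tens B).d (ctH C C' (x + y)) + ctH C C' ((A.tens B).d (x + y)) =
          ((A.tens B).d (ctH C C' x) + ctH C C' ((A.tens B).d x)) +
          ((A.tens B).d (ctH C C' y) + ctH C C' ((A.tens B).d y)) := by
        rw [map_add, map_add, map_add, map_add]
        abel
      rw [e1, hx, hy, map_add, add_smul]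
      abel
    | tmul a b => exact ct_rel C C' a b
  · intro x
    induction x using TensorProduct.induction_on with
    | zero => simp only [map_zero, sub_zero]
    | add x y hx hy =>
      rw [map_add, map_add, hx, hy, ← map_add]
      congr 1
      rw [map_add]
      abel
    | tmul a b => exact ct_odd C C' a b
  · intro x
    induction x using TensorProduct.induction_on with
    | zero => simp only [map_zero]
    | add x y hx hy => rw [map_add, map_add, hx, hy, add_zero]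
    | tmul a b =>
      rw [ctH_tmul, map_add, map_smul, augT_tmul, augT_tmul, C.εh, C'.εh, zero_mul, mul_zero,
        smul_zero, add_zero]
  · intro x
    induction x using TensorProduct.induction_on with
    | zero => simp only [map_zero]
    | add x y hx hy => rw [map_add, map_add, hx, hy, add_zero]
    | tmul a b =>
      rw [DG.tens_d, map_add, augT_tmul, augT_tmul, C.εd, C'.εd, zero_mul, mul_zero, add_zero]
  · intro x
    induction x using TensorProduct.induction_on with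
    | zero => simp only [map_zero]
    | add x y hx hy => rw [map_add, map_add, hx, hy, add_zero]
    | tmul a b =>
      rw [DG.tens_P, map_sub, map_add, map_smul, augT_tmul, augT_tmul, augT_tmul, C.εP, C'.εP,
        zero_mul, mul_zero, zero_mul, add_zero, smul_zero, sub_zero]
  · rw [augT_tmul, C.εu, C'.εu, mul_one]
  · rw [DG.tens_d, C.du, C'.du, TensorProduct.zero_tmul, TensorProduct.tmul_zero, add_zero]
  · rw [DG.tens_P, C.Pu, C'.Pu, TensorProduct.zero_tmul, TensorProduct.tmul_zero,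
      TensorProduct.zero_tmul, smul_zero, add_zero, sub_zero]

end HEp
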