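import Pool.Agent.Lib.MP_181146_gt.HE.SpecG

/-!
# Project HE: cyclic groups (author helper12)
-/

set_option autoImplicit false

namespace HEp

section

variable {R : Type} [CommRing R]

/-- The Euler class as a sum over any set containing the degrees of the nontrivial modules. -/
private theorem Cyc_EC (X : ZCx R) (s : Finset ℤ) (hs : ∀ i, i ∉ s → Subsingleton (X.P i)) :
    ∑ i ∈ s, (i.negOnePow : ℤ) • cl R (X.P i) = X.EC := by
  classical
  unfold ZCx.EC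
  have h1 : ∑ i ∈ s, (i.negOnePow : ℤ) • cl R (X.P i) =
      ∑ i ∈ s ∪ Finset.Icc (-(X.N : ℤ)) X.N, (i.negOnePow : ℤ) • cl R (X.P i) :=
    Finset.sum_subset Finset.subset_union_left fun i _ hi => by
      have := hs i hi
      rw [cl_subsingleton, smul_zero]
  have h2 : ∑ i ∈ Finset.Icc (-(X.N : ℤ)) X.N, (i.negOnePow : ℤ) • cl R (X.P i) =
      ∑ i ∈ s ∪ Finset.Icc (-(X.N : ℤ)) X.N, (i.negOnePow : ℤ) • cl R (X.P i) :=
    Finset.sum_subset Finset.subset_union_right fun i _ hi => by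
      have h1 : (X.N : ℤ) < |i| := by
        rw [Finset.mem_Icc, not_and_or, not_le, not_le] at hi
        rw [lt_abs]
        rcases hi with hi | hi
        · right
          linarith
        · left
          exact hi
      have := X.bdd i h1
      rw [cl_subsingleton, smul_zero]
  rw [h1, h2]

end

private theorem Cyc_pair {A : Type 1} [AddCommGroup A] (f : ℕ → A) (K : ℕ) :
    ∑ n ∈ Finset.range (2 * K), (((n : ℤ).negOnePow : ℤˣ) : ℤ) • f n =
      ∑ j ∈ Finset.range K, (f (2 * j) - f (2 * j + 1)) := by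
  induction K with
  | zero => rfl
  | succ K ih =>
    have h1 : ((((2 * K : ℕ) : ℤ).negOnePow : ℤˣ) : ℤ) = 1 := by
      rw [Int.coe_negOnePow_natCast, pow_mul, neg_one_sq, one_pow]
    have h2 : ((((2 * K + 1 : ℕ) : ℤ).negOnePow : ℤˣ) : ℤ) = -1 := by
      rw [Int.coe_negOnePow_natCast, pow_succ, pow_mul, neg_one_sq, one_pow, one_mul]
    rw [show 2 * (K + 1) = 2 * K + 1 + 1 by ring, Finset.sum_range_succ, Finset.sum_range_succ,
      Finset.sum_range_succ, ih, h1, h2, one_smul, neg_one_smul, add_assoc, sub_eq_add_neg]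

/-- The extension of the Betti numbers by zero. -/
private def Cyc_ext (b : ℕ → ℕ) : ℤ → ℕ
  | Int.ofNat n => b n
  | Int.negSucc _ => 0

section

variable {C : Type} [CommGroup C]

private theorem Cyc_betti (X : ZCx (ZG C)) (h0 : ∀ i : ℤ, i < 0 → Subsingleton (X.P i)) (p : ℕ)
    (b : ℕ → ℕ) (hb : HSp.IsBettiP C p (fun n : ℕ => X.P (n : ℤ))
      (fun n => X.d ((n + 1 : ℕ) : ℤ) (n : ℤ)) b) : X.IsBetti p (Cyc_ext b) := by
  rintro (n | n)
  · cases n with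
    | zero =>
      have h1 : Subsingleton (X.P (Int.ofNat 0 - 1)) := h0 _ (by decide)
      have h2 : (HSp.coMap C p (X.d (Int.ofNat 0) (Int.ofNat 0 - 1))).ker = ⊤ := by
        refine (eq_top_iff.2 fun x _ => ?_)
        rw [AddMonoidHom.mem_ker]
        have h3 : Subsingleton (HSp.CoV C p (X.P (Int.ofNat 0 - 1))) :=
          (QuotientAddGroup.mk_surjective (s := HSp.CoS C p (X.P (Int.ofNat 0 - 1)))).subsingleton
        exact Subsingleton.elim _ _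
      rw [h2, AddSubgroup.card_top]
      exact hb.1
    | succ n =>
      have key : ∀ j : ℤ, j = Int.ofNat (n + 1) - 1 →
          Nat.card (HSp.coMap C p (X.d (Int.ofNat (n + 1)) j)).ker =
          Nat.card (HSp.coMap C p (X.d (Int.ofNat (n + 1)) (Int.ofNat (n + 1) - 1))).ker := by
        rintro j rfl
        rfl
      rw [← key (n : ℤ) (by
        change (n : ℤ) = ((n + 1 : ℕ) : ℤ) - 1
        push_cast
        ring)]
      exact hb.2 n
  · have h1 : Subsingleton (X.P (Int.negSucc n)) := h0 _ (Int.negSucc_lt_zero n)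
    have h3 : Subsingleton (HSp.CoV C p (X.P (Int.negSucc n))) :=
      (QuotientAddGroup.mk_surjective (s := HSp.CoS C p (X.P (Int.negSucc n)))).subsingleton
    rw [Nat.card_of_subsingleton (0 : (HSp.coMap C p (X.d (Int.negSucc n) (Int.negSucc n - 1))).ker),
      Nat.card_of_subsingleton
        (0 : (HSp.coMap C p (X.d (Int.negSucc n + 1) (Int.negSucc n))).range)]
    change 1 = p ^ 0 * 1
    rw [pow_zero, one_mul]

private theorem Cyc_zero (X : ZCx (ZG C)) {p : ℕ} (hp : p.Prime) (b : ℕ → ℕ)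
    (hb : HSp.IsBettiP C p (fun n : ℕ => X.P (n : ℤ))
      (fun n => X.d ((n + 1 : ℕ) : ℤ) (n : ℤ)) b) (n : ℕ)
    (hn : Subsingleton (X.P ((n + 1 : ℕ) : ℤ))) : b (n + 1) = 0 := by
  have h3 : Subsingleton (HSp.CoV C p (X.P ((n + 1 : ℕ) : ℤ))) :=
    (QuotientAddGroup.mk_surjective (s := HSp.CoS C p (X.P ((n + 1 : ℕ) : ℤ)))).subsingleton
  have h1 := hb.2 n
  have e1 := Nat.card_of_subsingleton
    (0 : (HSp.coMap C p (X.d ((n + 1 : ℕ) : ℤ) (n : ℤ))).ker)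
  have e2 := Nat.card_of_subsingleton
    (0 : (HSp.coMap C p (X.d ((n + 1 + 1 : ℕ) : ℤ) ((n + 1 : ℕ) : ℤ))).range)
  have h4 : 1 = p ^ b (n + 1) * 1 :=
    e1.symm.trans (h1.trans (congrArg (fun t => p ^ b (n + 1) * t) e2))
  rw [mul_one] at h4
  by_contra h5
  exact (Nat.one_lt_pow h5 hp.one_lt).ne h4

end

/-- Symmetric Betti numbers. -/
private theorem Cyc_sym (b : ℕ → ℕ) (K : ℕ) (hb : ∀ n, 2 * K ≤ n → b n = 0) (m : ℤ) (hm : Even m)
    (hs : ∀ i, Cyc_ext b i = Cyc_ext b (m - i))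
    (h0 : ∑ i ∈ Finset.range (2 * K), (-1 : ℤ) ^ i * (b i : ℤ) = 0) :
    ∑ i ∈ Finset.range (2 * K), (-1 : ℤ) ^ i * (i : ℤ) * (b i : ℤ) = 0 := by
  classical
  obtain ⟨L, hL1, hL2⟩ : ∃ L : ℤ, 0 ≤ L ∧ (2 * K : ℤ) ≤ m + L := by
    refine ⟨2 * K + |m|, by positivity, ?_⟩
    have := neg_abs_le m
    linarith
  have hred : ∀ c : ℤ → ℤ, ∑ i ∈ Finset.Icc (-L) (m + L), c i * (Cyc_ext b i : ℤ) =
      ∑ n ∈ Finset.range (2 * K), c (n : ℤ) * (b n : ℤ) := by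
    intro c
    have h1 : ∑ n ∈ Finset.range (2 * K), c (n : ℤ) * (b n : ℤ) =
        ∑ i ∈ (Finset.range (2 * K)).map ⟨((↑) : ℕ → ℤ), Nat.cast_injective⟩,
          c i * (Cyc_ext b i : ℤ) := by
      rw [Finset.sum_map]
      rfl
    rw [h1]
    refine (Finset.sum_subset ?_ fun i _ hi => ?_).symm
    · intro i hi
      rw [Finset.mem_map] at hi
      obtain ⟨n, hn, rfl⟩ := hi
      rw [Finset.mem_range] at hn
      rw [Finset.mem_Icc]
      change -L ≤ (n : ℤ) ∧ (n : ℤ) ≤ m + L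
      have hn' : (n : ℤ) < 2 * K := by exact_mod_cast hn
      have hn0 : (0 : ℤ) ≤ n := Int.natCast_nonneg n
      constructor <;> linarith
    · rcases i with n | n
      · have h2 : b n = 0 := by
          refine hb n (not_lt.1 fun h3 => hi ?_)
          rw [Finset.mem_map]
          exact ⟨n, Finset.mem_range.2 h3, rfl⟩
        change c _ * ((b n : ℕ) : ℤ) = 0
        rw [h2, Nat.cast_zero, mul_zero]
      · change c _ * ((0 : ℕ) : ℤ) = 0
        rw [Nat.cast_zero, mul_zero]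
  have hsym : ∀ f : ℤ → ℤ, ∑ i ∈ Finset.Icc (-L) (m + L), f (m - i) =
      ∑ i ∈ Finset.Icc (-L) (m + L), f i := by
    intro f
    refine Finset.sum_nbij' (fun i => m - i) (fun i => m - i) ?_ ?_ ?_ ?_ ?_
    · intro i hi
      rw [Finset.mem_Icc] at hi ⊢
      constructor <;> linarith [hi.1, hi.2]
    · intro i hi
      rw [Finset.mem_Icc] at hi ⊢
      constructor <;> linarith [hi.1, hi.2]
    · intro i _
      exact sub_sub_cancel m i
    · intro i _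
      exact sub_sub_cancel m i
    · intro i _
      rfl
  have hneg : ∀ i : ℤ, (((m - i).negOnePow : ℤˣ) : ℤ) = ((i.negOnePow : ℤˣ) : ℤ) := by
    intro i
    rw [Int.negOnePow_sub, Int.negOnePow_even m hm, one_mul]
  have e0 : ∑ i ∈ Finset.Icc (-L) (m + L), ((i.negOnePow : ℤˣ) : ℤ) * (Cyc_ext b i : ℤ) = 0 := by
    rw [hred fun i => ((i.negOnePow : ℤˣ) : ℤ)]
    refine Eq.trans (Finset.sum_congr rfl fun n _ => ?_) h0
    rw [Int.coe_negOnePow_natCast]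
  have e1 : ∑ i ∈ Finset.range (2 * K), (-1 : ℤ) ^ i * (i : ℤ) * (b i : ℤ) =
      ∑ i ∈ Finset.Icc (-L) (m + L), (((i.negOnePow : ℤˣ) : ℤ) * i) * (Cyc_ext b i : ℤ) := by
    rw [hred fun i => ((i.negOnePow : ℤˣ) : ℤ) * i]
    refine Finset.sum_congr rfl fun n _ => ?_
    rw [Int.coe_negOnePow_natCast]
  have e2 : ∑ i ∈ Finset.Icc (-L) (m + L), (((i.negOnePow : ℤˣ) : ℤ) * i) * (Cyc_ext b i : ℤ) =
      m * ∑ i ∈ Finset.Icc (-L) (m + L), ((i.negOnePow : ℤˣ) : ℤ) * (Cyc_ext b i : ℤ) -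
      ∑ i ∈ Finset.Icc (-L) (m + L), (((i.negOnePow : ℤˣ) : ℤ) * i) * (Cyc_ext b i : ℤ) := by
    conv_lhs => rw [← hsym fun i => (((i.negOnePow : ℤˣ) : ℤ) * i) * (Cyc_ext b i : ℤ)]
    rw [Finset.mul_sum, ← Finset.sum_sub_distrib]
    refine Finset.sum_congr rfl fun i _ => ?_
    rw [hneg, ← hs]
    ring
  rw [e0, mul_zero, zero_sub] at e2
  rw [e1]
  linarith

theorem sCyc (hAlgRB : HSp.S_AlgRB) (hBSum : S_BSum) (hKPi : S_KPi) : S_Cyc := by
  intro C _ _ hC hn X hN h0 m hm hb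
  obtain ⟨g, hg⟩ := hC.exists_generator
  obtain ⟨h, hh⟩ := hN g
  -- the relation
  have key : ∀ (i l j : ℤ) (x : X.P i), l = i + 1 → j = i - 1 →
      X.d l i (h i l x) + h j i (X.d i j x) = (MonoidAlgebra.of ℤ C g - 1) • x := by
    rintro i l j x rfl rfl
    rw [hh, sub_smul, one_smul]
  have hd : ∀ (i : ℕ) (x : X.P ((i + 1 + 1 : ℕ) : ℤ)),
      X.d ((i + 1 : ℕ) : ℤ) (i : ℤ) (X.d ((i + 1 + 1 : ℕ) : ℤ) ((i + 1 : ℕ) : ℤ) x) = 0 :=
    fun i x => X.dd _ _ _ x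
  have hd0 : ∀ x : X.P ((0 : ℕ) : ℤ), X.d ((0 + 1 : ℕ) : ℤ) ((0 : ℕ) : ℤ)
      (h ((0 : ℕ) : ℤ) ((0 + 1 : ℕ) : ℤ) x) = (MonoidAlgebra.of ℤ C g - 1) • x := by
    intro x
    have h1 := key ((0 : ℕ) : ℤ) ((0 + 1 : ℕ) : ℤ) (-1) x rfl rfl
    have h2 : Subsingleton (X.P (-1)) := h0 _ (by decide)
    rw [Subsingleton.elim (X.d ((0 : ℕ) : ℤ) (-1) x) 0, map_zero, add_zero] at h1
    exact h1
  have hd1 : ∀ (i : ℕ) (x : X.P ((i + 1 : ℕ) : ℤ)),
      X.d ((i + 1 + 1 : ℕ) : ℤ) ((i + 1 : ℕ) : ℤ) (h ((i + 1 : ℕ) : ℤ) ((i + 1 + 1 : ℕ) : ℤ) x) +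
        h (i : ℤ) ((i + 1 : ℕ) : ℤ) (X.d ((i + 1 : ℕ) : ℤ) (i : ℤ) x) =
        (MonoidAlgebra.of ℤ C g - 1) • x := by
    intro i x
    refine key ((i + 1 : ℕ) : ℤ) ((i + 1 + 1 : ℕ) : ℤ) (i : ℤ) x (by push_cast; ring)
      (by push_cast; ring)
  have hK : ∀ i : ℕ, 2 * (X.N + 1) ≤ i → Subsingleton (X.P (i : ℤ)) := by
    intro i hi
    refine X.bdd _ ?_
    rw [abs_of_nonneg (Int.natCast_nonneg i)]
    have : X.N < i := by omega
    exact_mod_cast this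
  -- the Betti numbers
  have hs1 : ∀ p : ℕ, p.Prime → p ∣ Nat.card C → ∀ b, HSp.IsBettiP C p (fun n : ℕ => X.P (n : ℤ))
      (fun n => X.d ((n + 1 : ℕ) : ℤ) (n : ℤ)) b →
      ∑ i ∈ Finset.range (2 * (X.N + 1)), (-1 : ℤ) ^ i * (i : ℤ) * (b i : ℤ) = 0 := by
    intro p hp hpn b hbp
    refine Cyc_sym b (X.N + 1) (fun n hn' => ?_) m hm
      (fun i => hb p hp hpn _ (Cyc_betti X h0 p b hbp) i) ?_
    · obtain ⟨n', rfl⟩ : ∃ n', n = n' + 1 := ⟨n - 1, by omega⟩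
      exact Cyc_zero X hp b hbp n' (hK _ hn')
    · exact hBSum C hC hn g hg (fun n : ℕ => X.P (n : ℤ))
        (fun n => X.d ((n + 1 : ℕ) : ℤ) (n : ℤ)) (fun n => h (n : ℤ) ((n + 1 : ℕ) : ℤ)) hd hd0 hd1
        (X.N + 1) hK p hp hpn b hbp
  obtain ⟨s, ⟨e⟩⟩ := hAlgRB C hC hn g hg (fun n : ℕ => X.P (n : ℤ))
    (fun n => X.d ((n + 1 : ℕ) : ℤ) (n : ℤ)) (fun n => h (n : ℤ) ((n + 1 : ℕ) : ℤ)) hd hd0 hd1
    (X.N + 1) hK (fun p p' hp hpn hp' hpn' b b' hbp hbp' =>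
      (hs1 p hp hpn b hbp).trans (hs1 p' hp' hpn' b' hbp').symm)
  have hcl : cl (ZG C) (∀ j : Fin (X.N + 1), X.P ((2 * (j : ℕ) : ℕ) : ℤ)) =
      cl (ZG C) (∀ j : Fin (X.N + 1), X.P ((2 * (j : ℕ) + 1 : ℕ) : ℤ)) :=
    cl_eq_iff.2 ⟨s, s, ⟨e⟩⟩
  rw [hKPi, hKPi] at hcl
  -- the Euler class
  have hEC := Cyc_EC X ((Finset.range (2 * (X.N + 1))).map
    ⟨((↑) : ℕ → ℤ), Nat.cast_injective⟩) (fun i hi => by
      rcases i with n | n
      · refine hK n (not_lt.1 fun h3 => hi ?_)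
        rw [Finset.mem_map]
        exact ⟨n, Finset.mem_range.2 h3, rfl⟩
      · exact h0 _ (Int.negSucc_lt_zero n))
  rw [← hEC, Finset.sum_map]
  have h3 := Cyc_pair (fun n : ℕ => cl (ZG C) (X.P (n : ℤ))) (X.N + 1)
  refine Eq.trans h3 ?_
  rw [Finset.sum_sub_distrib, sub_eq_zero, Finset.sum_range, Finset.sum_range]
  exact hcl

end HEp
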