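import Pool.Agent.Lib.MP_181146_gt.HE.SpecG

/-!
# Project HE, DChain: `cl M1 + cl (ZD M1) = cl M2 + cl (ZD M2)` for a submodule of finite index
prime to the order of the group
-/

set_option autoImplicit false

namespace HEp

private noncomputable def dcZDEquiv {R : Type} [CommRing R] {M N : Type} [AddCommGroup M]
    [Module R M] [AddCommGroup N] [Module R N] (e : M ≃ₗ[R] N) : ZD R N ≃ₗ[R] ZD R M :=
  LinearEquiv.ofLinearMap (ZDmap e.toLinearMap) (ZDmap e.symm.toLinearMap)
    (by
      apply LinearMap.ext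
      intro f
      apply DFunLike.ext
      intro x
      change f (e.symm (e x)) = f x
      rw [e.symm_apply_apply])
    (by
      apply LinearMap.ext
      intro f
      apply DFunLike.ext
      intro x
      change f (e (e.symm x)) = f x
      rw [e.apply_symm_apply])

private lemma dc_main (hDStep : S_DStep) (hDSub : S_DSub) (hDFp : S_DFp) (G : Type) [CommGroup G]
    [Finite G] (M2 : Type) [AddCommGroup M2] [Module (ZG G) M2]
    [Module.Finite (ZG G) M2] [Module.Projective (ZG G) M2]
    [Module.Finite (ZG G) (ZD (ZG G) M2)] [Module.Projective (ZG G) (ZD (ZG G) M2)] (n : ℕ) :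
    ∀ (M1 T : Type) [AddCommGroup M1] [Module (ZG G) M1]
    [Module.Finite (ZG G) M1] [Module.Projective (ZG G) M1]
    [Module.Finite (ZG G) (ZD (ZG G) M1)] [Module.Projective (ZG G) (ZD (ZG G) M1)]
    [AddCommGroup T] [Module (ZG G) T] (_ : Finite T) (_ : Nat.card T = n)
    (_ : (Nat.card T).Coprime (Nat.card G)), HSp.Res (ZG G) T M2 M1 →
    cl (ZG G) M1 + cl (ZG G) (ZD (ZG G) M1) = cl (ZG G) M2 + cl (ZG G) (ZD (ZG G) M2) := by
  induction n using Nat.strong_induction_on with
  | _ n ih =>
    intro M1 T _ _ _ _ _ _ _ _ hfin hn hco hres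
    obtain ⟨i, p, hi, hp, hex⟩ := hres
    rcases subsingleton_or_nontrivial T with hT | hT
    · have hsurj : Function.Surjective i := fun x => (hex x).1 (Subsingleton.elim _ _)
      have e : M1 ≃ₗ[ZG G] M2 := LinearEquiv.ofBijective i ⟨hi, hsurj⟩
      rw [cl_congr e, cl_congr (dcZDEquiv e)]
    · obtain ⟨S, hS⟩ := IsAtomic.exists_atom (Submodule (ZG G) T)
      have hsimple : IsSimpleModule (ZG G) S := isSimpleModule_iff_isAtom.2 hS
      obtain ⟨P, hP, ⟨e⟩⟩ := isSimpleModule_iff_quot_maximal.1 hsimple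
      -- cardinalities
      have hcard : Nat.card T = Nat.card S * Nat.card (T ⧸ S) := by
        have h := AddSubgroup.card_eq_card_quotient_mul_card_addSubgroup S.toAddSubgroup
        rw [mul_comm] at h
        exact h
      have hSfin : Finite S := inferInstance
      have hQfin : Finite (T ⧸ S) := Finite.of_surjective S.mkQ S.mkQ_surjective
      have hS1 : 1 < Nat.card S := by
        have : Nontrivial S := IsSimpleModule.nontrivial (ZG G) S
        exact Finite.one_lt_card
      have hQpos : 0 < Nat.card (T ⧸ S) := Nat.card_pos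
      have hlt : Nat.card (T ⧸ S) < n := by
        rw [← hn, hcard]
        nlinarith
      have hcoS : (Nat.card S).Coprime (Nat.card G) :=
        Nat.Coprime.coprime_dvd_left ⟨_, hcard⟩ hco
      have hcoQ : (Nat.card (T ⧸ S)).Coprime (Nat.card G) :=
        Nat.Coprime.coprime_dvd_left ⟨_, hcard.trans (mul_comm _ _)⟩ hco
      -- the preimage
      have hres1 : HSp.Res (ZG G) (T ⧸ S) M2 (S.comap p) := by
        refine ⟨(S.comap p).subtype, S.mkQ ∘ₗ p, Subtype.val_injective,
          S.mkQ_surjective.comp hp, fun x => ?_⟩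
        rw [LinearMap.comp_apply, Submodule.mkQ_apply, Submodule.Quotient.mk_eq_zero]
        constructor
        · intro hx
          exact ⟨⟨x, hx⟩, rfl⟩
        · rintro ⟨y, rfl⟩
          exact y.2
      obtain ⟨hf1, hp1⟩ := hDSub G M2 (S.comap p) (T ⧸ S) hcoQ hres1
      obtain ⟨hf2, hp2⟩ := hDFp G (S.comap p)
      have hih := ih _ hlt (S.comap p) (T ⧸ S) hQfin rfl hcoQ hres1
      have hPfin : Finite (ZG G ⧸ P) := Finite.of_equiv S e.toEquiv
      have hPcard : Nat.card (ZG G ⧸ P) = Nat.card S := Nat.card_congr e.symm.toEquiv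
      have hres2 : HSp.Res (ZG G) (ZG G ⧸ P) (S.comap p) M1 := by
        have hmem : ∀ y, i y ∈ S.comap p := fun y => by
          rw [Submodule.mem_comap, (hex (i y)).2 ⟨y, rfl⟩]
          exact S.zero_mem
        have hmem2 : ∀ x ∈ S.comap p, p x ∈ S := fun x hx => hx
        refine ⟨LinearMap.codRestrict (S.comap p) i hmem, e.toLinearMap ∘ₗ p.restrict hmem2,
          fun a b hab => hi (congrArg Subtype.val hab), ?_, ?_⟩
        · apply e.surjective.comp
          rintro ⟨t, ht⟩
          obtain ⟨x, rfl⟩ := hp t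
          exact ⟨⟨x, ht⟩, rfl⟩
        · rintro ⟨x, hx⟩
          have h1 : (e.toLinearMap ∘ₗ p.restrict hmem2) ⟨x, hx⟩ = 0 ↔ p x = 0 := by
            change e (p.restrict hmem2 ⟨x, hx⟩) = 0 ↔ p x = 0
            rw [LinearEquiv.map_eq_zero_iff, Subtype.ext_iff]
            rfl
          rw [h1, hex]
          constructor
          · rintro ⟨y, rfl⟩
            exact ⟨y, rfl⟩
          · rintro ⟨y, hy⟩
            exact ⟨y, congrArg Subtype.val hy⟩
      rw [← hih]
      exact hDStep G M1 (S.comap p) P hP hPfin (hPcard ▸ hcoS) hres2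

/-- **DChain.** -/
theorem sDChain (hDStep : S_DStep) (hDSub : S_DSub) (hDFp : S_DFp) : S_DChain := by
  intro G _ _ M1 M2 T _ _ _ _ _ _ _ _ _ _ _ _ _ _ hfin hco hres
  exact dc_main hDStep hDSub hDFp G M2 _ M1 T hfin rfl hco hres

end HEp
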