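import Pool.Agent.Lib.MP_181146_gt.HE.SpecS

/-!
# Project HE, task DCo: property (N) makes the deck group commutative.
-/

set_option autoImplicit false

namespace HEp

theorem sDCo : S_DCo := by
  intro E _ Γ hN a g
  obtain ⟨H, h0, h1, h2⟩ := hN g
  apply Subtype.ext
  apply Homeomorph.ext
  intro x
  have h3 := h2 a 1 x
  rw [h1, h1] at h3
  exact h3.symm

end HEp
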