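import Pool.Agent.Lib.MP_181146_gt.HE.SpecG

/-!
# Project HE, module DCx: the dual complex
-/

set_option autoImplicit false

namespace HEp

theorem sDCx (hDFp : S_DFp) : S_DCx := by
  intro G _ _ X m
  refine ⟨
    { P := fun i => ZD (ZG G) (X.P (m - i))
      fi := fun i => (hDFp G (X.P (m - i))).1
      pr := fun i => (hDFp G (X.P (m - i))).2
      d := fun i j => ZDmap (X.d (m - j) (m - i))
      shape := ?_
      dd := ?_
      N := X.N + m.natAbs
      bdd := ?_ }, ⟨{ e := fun i => LinearEquiv.refl _ _, comm := fun i j y => rfl }⟩⟩
  · intro i j hij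
    have h1 : X.d (m - j) (m - i) = 0 := X.shape _ _ (fun h => hij (by linarith))
    rw [h1]
    apply LinearMap.ext
    intro φ
    apply AddMonoidHom.ext
    intro x
    change φ 0 = 0
    exact map_zero φ
  · intro i j k φ
    apply AddMonoidHom.ext
    intro x
    change φ (X.d (m - j) (m - i) (X.d (m - k) (m - j) x)) = 0
    rw [X.dd]
    exact map_zero φ
  · intro i hi
    have h1 : Subsingleton (X.P (m - i)) := by
      refine X.bdd _ ?_
      push_cast at hi
      have h2 : |i| ≤ |m - i| + |m| := by
        have h3 := abs_sub_abs_le_abs_sub i m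
        rw [abs_sub_comm] at h3
        linarith
      linarith
    constructor
    intro φ ψ
    apply AddMonoidHom.ext
    intro x
    change φ x = ψ x
    rw [Subsingleton.elim x 0]
    exact (map_zero φ).trans (map_zero ψ).symm

end HEp
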