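import Pool.Agent.Lib.MP_181146_gt.HE.SpecG

/-!
# MP_181146_gt, HE, module DEmb: an embedding `R^m → M` with finite cokernel of order prime to `n`
-/

set_option autoImplicit false

namespace HEp

open HSp (Res)

private theorem DEmb_tf {G : Type} [CommGroup G] {z : ZG G} {n : ℤ} (hn : n ≠ 0)
    (h : n • z = 0) : z = 0 := by
  apply (MonoidAlgebra.coeffAddEquiv (R := ℤ) (M := G)).injective
  rw [map_zero]
  have h0 := congrArg (MonoidAlgebra.coeffAddEquiv (R := ℤ) (M := G)) h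
  rw [map_zsmul, map_zero] at h0
  refine Finsupp.ext fun g => ?_
  have h2 : n * (MonoidAlgebra.coeffAddEquiv z) g = 0 := DFunLike.congr_fun h0 g
  rw [mul_eq_zero] at h2
  exact h2.resolve_left hn

private theorem DEmb_tfM {G : Type} [CommGroup G] (M : Type) [AddCommGroup M]
    [Module (ZG G) M] [Module.Finite (ZG G) M] [Module.Projective (ZG G) M] {y : M} {n : ℤ}
    (hn : n ≠ 0) (h : n • y = 0) : y = 0 := by
  obtain ⟨N, k, ⟨e⟩⟩ := exists_compl (R := ZG G) M
  have h1 : e (y, 0) = 0 := by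
    funext i
    refine DEmb_tf hn ?_
    have h2 : n • e (y, 0) = e (n • (y, (0 : N.M))) := (map_zsmul e n _).symm
    have h3 : n • (y, (0 : N.M)) = 0 := by
      rw [Prod.smul_mk, h, smul_zero]
      rfl
    rw [h3, map_zero] at h2
    exact congrFun h2 i
  have h4 : (y, (0 : N.M)) = 0 := by
    rw [← map_zero e] at h1
    exact e.injective h1
  exact congrArg Prod.fst h4

private theorem DEmb_div {c n : ℤ} (hn : 1 < n) (h : ∀ k : ℕ, n ^ k ∣ c) : c = 0 := by
  refine Int.eq_zero_of_abs_lt_dvd (h c.natAbs) ?_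
  have h1 : c.natAbs < n.natAbs ^ c.natAbs := Nat.lt_pow_self (by omega)
  have h2 : ((c.natAbs : ℕ) : ℤ) < ((n.natAbs ^ c.natAbs : ℕ) : ℤ) := by exact_mod_cast h1
  push_cast at h2
  rw [abs_of_pos (by omega : 0 < n)] at h2
  exact h2

private theorem DEmb_inj {G : Type} [CommGroup G] (M : Type) [AddCommGroup M]
    [Module (ZG G) M] [Module.Finite (ZG G) M] [Module.Projective (ZG G) M] {n : ℤ}
    (hn : 1 < n) {m : ℕ} (f : (Fin m → ZG G) →ₗ[ZG G] M)
    (hf : ∀ (a : Fin m → ZG G) (y : M), f a = n • y → ∃ b, a = n • b) :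
    Function.Injective f := by
  rw [injective_iff_map_eq_zero]
  intro a ha
  have h1 : ∀ k : ℕ, ∃ b, a = n ^ k • b ∧ f b = 0 := by
    intro k
    induction k with
    | zero => exact ⟨a, by rw [pow_zero, one_smul], ha⟩
    | succ k ih =>
      obtain ⟨b, hb, hb0⟩ := ih
      obtain ⟨c, hc⟩ := hf b 0 (by rw [hb0, smul_zero])
      refine ⟨c, ?_, ?_⟩
      · rw [hb, hc, smul_smul, pow_succ]
      · rw [hc, map_zsmul] at hb0
        exact DEmb_tfM (G := G) M (by omega) hb0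
  funext i
  apply (MonoidAlgebra.coeffAddEquiv (R := ℤ) (M := G)).injective
  refine Finsupp.ext fun g => ?_
  refine (DEmb_div hn fun k => ?_).trans (by simp)
  obtain ⟨b, hb, -⟩ := h1 k
  refine ⟨(MonoidAlgebra.coeffAddEquiv (b i)) g, ?_⟩
  rw [hb]
  have h3 : (n ^ k • b) i = n ^ k • b i := rfl
  rw [h3, map_zsmul]
  rfl

private theorem DEmb_fin (T : Type) [AddCommGroup T] [Module.Finite ℤ T] (n : ℕ) (hn : 1 < n)
    (h : ∀ t : T, ∃ s : T, t = (n : ℤ) • s) : Finite T ∧ (Nat.card T).Coprime n := by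
  have hle : (⊤ : Submodule ℤ T) ≤ Ideal.span {(n : ℤ)} • (⊤ : Submodule ℤ T) := by
    intro t _
    obtain ⟨s, hs⟩ := h t
    rw [hs]
    exact Submodule.smul_mem_smul (Ideal.mem_span_singleton_self _) Submodule.mem_top
  obtain ⟨r, hr1, hr2⟩ := Submodule.exists_sub_one_mem_and_smul_eq_zero_of_fg_of_le_smul
    (Ideal.span {(n : ℤ)}) (⊤ : Submodule ℤ T) Module.Finite.fg_top hle
  obtain ⟨c, hc⟩ := Ideal.mem_span_singleton.mp hr1
  have hr0 : r ≠ 0 := by
    rintro rfl
    have h3 : (n : ℤ) ∣ 1 := ⟨-c, by linarith⟩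
    have h4 := Int.le_of_dvd one_pos h3
    omega
  have hT : Module.IsTorsion ℤ T := by
    intro x
    exact ⟨⟨r, mem_nonZeroDivisors_of_ne_zero hr0⟩, hr2 x Submodule.mem_top⟩
  have hfin : Finite T := Module.finite_of_fg_torsion T hT
  refine ⟨hfin, ?_⟩
  by_contra hcop
  obtain ⟨p, hp, hp1, hp2⟩ := Nat.Prime.not_coprime_iff_dvd.mp hcop
  have : Fact p.Prime := ⟨hp⟩
  obtain ⟨x, hx⟩ := exists_prime_addOrderOf_dvd_card' p hp1
  have h5 : (p : ℤ) • x = 0 := by
    rw [natCast_zsmul, ← hx]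
    exact addOrderOf_nsmul_eq_zero x
  have h6 : (n : ℤ) • x = 0 := by
    obtain ⟨q, rfl⟩ := hp2
    rw [Nat.cast_mul, mul_comm, mul_smul, h5, smul_zero]
  have h7 : r • x = x := by
    have h8 : r = (n : ℤ) * c + 1 := by linarith
    rw [h8, add_smul, mul_comm, mul_smul, h6, smul_zero, zero_add, one_smul]
  rw [hr2 x Submodule.mem_top] at h7
  rw [← h7, addOrderOf_zero] at hx
  exact hp.one_lt.ne hx

theorem sDEmb (hDMod : S_DMod) : S_DEmb := by
  intro G _ _ M _ _ _ _ n hn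
  obtain ⟨m, f, h1, h2⟩ := hDMod G M n hn
  have hn' : (1 : ℤ) < (n : ℤ) := by exact_mod_cast hn
  have hfG : Module.Finite ℤ (ZG G) := inferInstance
  have hfM : Module.Finite ℤ M := Module.Finite.trans (ZG G) M
  have hfT : Module.Finite ℤ (M ⧸ LinearMap.range f) :=
    Module.Finite.of_surjective ((LinearMap.range f).mkQ.restrictScalars ℤ)
      (Submodule.mkQ_surjective _)
  have hT := DEmb_fin (M ⧸ LinearMap.range f) n hn (by
    intro t
    obtain ⟨x, rfl⟩ := Submodule.mkQ_surjective _ t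
    obtain ⟨a, y, hx⟩ := h1 x
    refine ⟨(LinearMap.range f).mkQ y, ?_⟩
    rw [← map_zsmul, ← sub_eq_zero, ← map_sub, hx, add_sub_cancel_right,
      Submodule.mkQ_apply, Submodule.Quotient.mk_eq_zero]
    exact ⟨a, rfl⟩)
  refine ⟨m, M ⧸ LinearMap.range f, inferInstance, inferInstance, hT.1, hT.2,
    f, (LinearMap.range f).mkQ, DEmb_inj M hn' f h2, Submodule.mkQ_surjective _, fun x => ?_⟩
  rw [Submodule.mkQ_apply, Submodule.Quotient.mk_eq_zero]
  rfl

end HEp
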