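import Pool.Agent.Lib.MP_181146_gt.HE.SpecG

/-!
# Project HE, module DFp: the dual of a finitely generated projective module
-/

set_option autoImplicit false

namespace HEp

theorem sDFp (hDFr : S_DFr) : S_DFp := by
  intro G _ _ M _ _ _ _
  obtain ⟨n, f, hf⟩ := Module.Finite.exists_fin' (ZG G) M
  obtain ⟨g, hg⟩ := Module.projective_lifting_property f LinearMap.id hf
  obtain ⟨e⟩ := hDFr G n
  have hfin : Module.Finite (ZG G) (ZD (ZG G) (Fin n → ZG G)) := Module.Finite.equiv e.symm
  have hpro : Module.Projective (ZG G) (ZD (ZG G) (Fin n → ZG G)) :=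
    Module.Projective.of_equiv e.symm
  have hs : (ZDmap g) ∘ₗ (ZDmap f) = (LinearMap.id : ZD (ZG G) M →ₗ[ZG G] ZD (ZG G) M) := by
    apply LinearMap.ext
    intro φ
    apply AddMonoidHom.ext
    intro x
    change φ (f (g x)) = φ x
    exact congrArg φ (LinearMap.congr_fun hg x)
  refine ⟨Module.Finite.of_surjective (ZDmap g) fun φ => ⟨ZDmap f φ, LinearMap.congr_fun hs φ⟩,
    Module.Projective.of_split (ZDmap f) (ZDmap g) hs⟩

end HEp
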