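import Pool.Agent.Lib.MP_181146_gt.HE.SpecG

/-!
# Project HE, DIdem: the integral group ring of a finite commutative group has only the
idempotents `0` and `1`
-/

set_option autoImplicit false

namespace HEp

private lemma di_trace (G : Type) [CommGroup G] [Fintype G] (e : ZG G) :
    LinearMap.trace ℤ (ZG G) (LinearMap.mulLeft ℤ e) = (Fintype.card G : ℤ) * e.coeff 1 := by
  classical
  rw [LinearMap.trace_eq_matrix_trace ℤ (MonoidAlgebra.basis G ℤ)]
  have h : ∀ g : G, (LinearMap.toMatrix (MonoidAlgebra.basis G ℤ) (MonoidAlgebra.basis G ℤ)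
      (LinearMap.mulLeft ℤ e)).diag g = e.coeff 1 := by
    intro g
    rw [Matrix.diag_apply, LinearMap.toMatrix_apply, MonoidAlgebra.basis_apply,
      LinearMap.mulLeft_apply]
    change (e * MonoidAlgebra.single g 1).coeff g = e.coeff 1
    rw [MonoidAlgebra.coeff_mul_single_eq_coeff_mul 1 (fun m' _ => by simp), mul_one]
  rw [Matrix.trace, Finset.sum_congr rfl (fun g _ => h g)]
  simp

private lemma di_idem (G : Type) [CommGroup G] [Finite G] (e : ZG G) (he : e * e = e) :
    0 ≤ e.coeff 1 ∧ (e.coeff 1 = 0 → e = 0) := by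
  have : Fintype G := Fintype.ofFinite G
  have : Module.Free ℤ (ZG G) := Module.Free.of_basis (MonoidAlgebra.basis G ℤ)
  have : Module.Finite ℤ (ZG G) := Module.Finite.of_basis (MonoidAlgebra.basis G ℤ)
  have hid : IsIdempotentElem (LinearMap.mulLeft ℤ e) := by
    apply LinearMap.ext
    intro x
    change e * (e * x) = e * x
    rw [← mul_assoc, he]
  have ht := di_trace G e
  have hn : (0 : ℤ) < (Fintype.card G : ℤ) := by
    exact_mod_cast Fintype.card_pos
  constructor
  · have h1 := (LinearMap.IsIdempotentElem.isProj_range (LinearMap.mulLeft ℤ e) hid).trace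
    have h2 : (0 : ℤ) ≤ (Fintype.card G : ℤ) * e.coeff 1 := by
      rw [← ht, h1]
      exact Int.natCast_nonneg _
    exact nonneg_of_mul_nonneg_right h2 hn
  · intro h0
    have h1 : LinearMap.trace ℤ (ZG G) (LinearMap.mulLeft ℤ e) = 0 := by
      rw [ht, h0, mul_zero]
    have h2 := (LinearMap.IsIdempotentElem.trace_eq_zero_iff hid).1 h1
    have h3 := LinearMap.congr_fun h2 1
    simpa using h3

/-- **DIdem.** -/
theorem sDIdem : S_DIdem := by
  intro G _ _ e he
  obtain ⟨h1, h2⟩ := di_idem G e he
  have he' : (1 - e) * (1 - e) = 1 - e := by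
    have : (1 - e) * (1 - e) = 1 - e - e + e * e := by ring
    rw [this, he]
    ring
  obtain ⟨h3, h4⟩ := di_idem G (1 - e) he'
  have hc : (1 - e).coeff 1 = 1 - e.coeff 1 := by
    have h5 : (1 - e).coeff = (1 : ZG G).coeff - e.coeff := by
      have h6 : ((1 - e) + e).coeff = (1 - e).coeff + e.coeff := MonoidAlgebra.coeff_add _ _
      rw [sub_add_cancel] at h6
      rw [h6, add_sub_cancel_right]
    rw [h5, Finsupp.sub_apply, MonoidAlgebra.coeff_one_one]
  rw [hc] at h3 h4
  by_cases h0 : e.coeff 1 = 0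
  · exact Or.inl (h2 h0)
  · right
    have h5 := h4 (by omega)
    exact (sub_eq_zero.1 h5).symm

end HEp
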