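import Pool.Agent.Lib.MP_181146_gt.HE.SpecS

/-!
# Project HE: the duality map (DMap)
-/

set_option autoImplicit false

namespace HEp

private theorem DMap_lin {G X Y : Type} [CommGroup G] [AddCommGroup X] [Module (ZG G) X]
    [AddCommGroup Y] [Module (ZG G) Y] (e : X →+ Y)
    (h : ∀ (g : G) (x : X), e (MonoidAlgebra.of ℤ G g • x) = MonoidAlgebra.of ℤ G g • e x)
    (a : ZG G) (x : X) : e (a • x) = a • e x := by
  induction a using MonoidAlgebra.induction_on with
  | of g => exact h g x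
  | add a b ha hb => rw [add_smul, add_smul, map_add, ha, hb]
  | smul r a ha => rw [smul_assoc, smul_assoc, map_zsmul, ha]

/-- the signs -/
private def DMap_c (i : ℤ) : ℤ := ((i * (i - 1) / 2).negOnePow : ℤ)

private theorem DMap_c_or (i : ℤ) : DMap_c i = 1 ∨ DMap_c i = -1 := by
  unfold DMap_c
  rcases Int.units_eq_one_or (i * (i - 1) / 2).negOnePow with h | h
  · left
    rw [h]
    rfl
  · right
    rw [h]
    rfl

private theorem DMap_c_succ (i : ℤ) : DMap_c (i + 1) = DMap_c i * (i.negOnePow : ℤ) := by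
  unfold DMap_c
  have h : (i + 1) * (i + 1 - 1) / 2 = i * (i - 1) / 2 + i := by
    have h2 : (i + 1) * (i + 1 - 1) = i * (i - 1) + i * 2 := by ring
    rw [h2, Int.add_mul_ediv_right _ _ (by norm_num)]
  rw [h, Int.negOnePow_add, Units.val_mul]

section

variable {G : Type} [CommGroup G] {X : ZCx (ZG G)}

/-- the additive duality map -/
private noncomputable def DMap_add (μ : MX X) (m : ℤ) (φ : X.P m →+ ℤ) (i : ℤ) :
    X.P i →+ ZD (ZG G) (X.P (m - i)) where
  toFun x := (DMap_c i • φ.comp (μ.M i (m - i) m x) : X.P (m - i) →+ ℤ)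
  map_zero' := by
    apply AddMonoidHom.ext
    intro y
    change DMap_c i • φ (μ.M i (m - i) m 0 y) = 0
    rw [map_zero, AddMonoidHom.zero_apply, map_zero, smul_zero]
  map_add' x x' := by
    apply AddMonoidHom.ext
    intro y
    change DMap_c i • φ (μ.M i (m - i) m (x + x') y) =
      DMap_c i • φ (μ.M i (m - i) m x y) + DMap_c i • φ (μ.M i (m - i) m x' y)
    rw [map_add, AddMonoidHom.add_apply, map_add, smul_add]

private theorem DMap_add_apply (μ : MX X) (m : ℤ) (φ : X.P m →+ ℤ) (i : ℤ) (x : X.P i)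
    (y : X.P (m - i)) : DMap_add μ m φ i x y = DMap_c i * φ (μ.M i (m - i) m x y) := rfl

/-- the linear duality map -/
private noncomputable def DMap_psi (μ : MX X) (m : ℤ) (φ : X.P m →+ ℤ) (i : ℤ) :
    X.P i →ₗ[ZG G] ZD (ZG G) (X.P (m - i)) where
  toFun x := DMap_add μ m φ i x
  map_add' x x' := map_add _ x x'
  map_smul' a x := by
    refine DMap_lin (DMap_add μ m φ i) ?_ a x
    intro g x
    apply AddMonoidHom.ext
    intro y
    change DMap_c i * φ (μ.M i (m - i) m (MonoidAlgebra.of ℤ G g • x) y) =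
      DMap_c i * φ (μ.M i (m - i) m x (MonoidAlgebra.of ℤ G g • y))
    rw [μ.mg]

private theorem DMap_psi_apply (μ : MX X) (m : ℤ) (φ : X.P m →+ ℤ) (i : ℤ) (x : X.P i)
    (y : X.P (m - i)) : DMap_psi μ m φ i x y = DMap_c i * φ (μ.M i (m - i) m x y) := rfl

private theorem DMap_leib (μ : MX X) (i j n i' j' n' : ℤ) (hi : i' = i - 1) (hj : j' = j - 1)
    (hn : n' = n - 1) (x : X.P i) (y : X.P j) : X.d n n' (μ.M i j n x y) =
      μ.M i' j n' (X.d i i' x) y + (i.negOnePow : ℤ) • μ.M i j' n' x (X.d j j' y) := by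
  subst hi hj hn
  exact μ.leib i j n x y

private theorem DMap_key (μ : MX X) (m : ℤ) (φ : X.P m →+ ℤ)
    (hφ : ∀ z : X.P (m + 1), φ (X.d (m + 1) m z) = 0) (j : ℤ) (x : X.P (j + 1))
    (y : X.P (m - j)) : DMap_c j * φ (μ.M j (m - j) m (X.d (j + 1) j x) y) =
      DMap_c (j + 1) * φ (μ.M (j + 1) (m - (j + 1)) m x (X.d (m - j) (m - (j + 1)) y)) := by
  have h := DMap_leib μ (j + 1) (m - j) (m + 1) j (m - (j + 1)) m (by ring) (by ring) (by ring) x y
  have h2 := hφ (μ.M (j + 1) (m - j) (m + 1) x y)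
  rw [h, map_add, map_zsmul, smul_eq_mul, Int.negOnePow_succ, Units.val_neg] at h2
  have h3 : φ (μ.M j (m - j) m (X.d (j + 1) j x) y) = (j.negOnePow : ℤ) *
      φ (μ.M (j + 1) (m - (j + 1)) m x (X.d (m - j) (m - (j + 1)) y)) := by
    linear_combination h2
  rw [h3, DMap_c_succ]
  ring

end

theorem sDMap : S_DMap := by
  intro G _ _ X Y μ m D φ hφ
  refine ⟨⟨fun i => (D.e i).symm.toLinearMap ∘ₗ DMap_psi μ m φ i, ?_⟩, DMap_c, DMap_c_or, ?_⟩
  · intro i j x
    apply (D.e j).injective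
    change D.e j ((D.e j).symm (DMap_psi μ m φ j (X.d i j x))) =
      D.e j (Y.d i j ((D.e i).symm (DMap_psi μ m φ i x)))
    rw [LinearEquiv.apply_symm_apply, D.comm, LinearEquiv.apply_symm_apply]
    apply AddMonoidHom.ext
    intro y
    change DMap_c j * φ (μ.M j (m - j) m (X.d i j x) y) =
      DMap_c i * φ (μ.M i (m - i) m x (X.d (m - j) (m - i) y))
    by_cases h : j + 1 = i
    · subst h
      exact DMap_key μ m φ hφ j x y
    · rw [X.shape i j h, X.shape (m - j) (m - i) (by omega), LinearMap.zero_apply,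
        LinearMap.zero_apply, map_zero, map_zero, AddMonoidHom.zero_apply, map_zero, mul_zero,
        mul_zero]
  · intro i x y
    change D.e i ((D.e i).symm (DMap_psi μ m φ i x)) y = _
    rw [LinearEquiv.apply_symm_apply]
    rfl

end HEp
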