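import Pool.Agent.Lib.MP_181146_gt.HE.SpecG

set_option autoImplicit false

namespace HEp

open TensorProduct

private lemma DMod_fin (G : Type) [CommGroup G] [Finite G] (n : ℕ) (hn : 1 < n) :
    Finite (ZG G ⧸ Ideal.span {((n : ℕ) : ZG G)}) := by
  have h1 : Module.Finite ℤ (ZG G) := inferInstance
  have h2 : Module.Finite ℤ (ZG G ⧸ Ideal.span {((n : ℕ) : ZG G)}) := by
    refine Module.Finite.of_surjective
      (AddMonoidHom.toIntLinearMap
        (Ideal.Quotient.mk (Ideal.span {((n : ℕ) : ZG G)})).toAddMonoidHom) ?_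
    exact Ideal.Quotient.mk_surjective
  refine Module.finite_of_fg_torsion _ ?_
  intro x
  obtain ⟨y, rfl⟩ := Ideal.Quotient.mk_surjective x
  refine ⟨⟨(n : ℤ), mem_nonZeroDivisors_of_ne_zero (by omega)⟩, ?_⟩
  show (n : ℤ) • (Ideal.Quotient.mk (Ideal.span {((n : ℕ) : ZG G)})) y = 0
  rw [zsmul_eq_mul, Int.cast_natCast, ← map_natCast (Ideal.Quotient.mk _), ← map_mul,
    Ideal.Quotient.eq_zero_iff_mem]
  exact Ideal.mul_mem_right _ _ (Ideal.subset_span rfl)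

private lemma DMod_rank {R M : Type} [CommRing R] [AddCommGroup M] [Module R M]
    [Module.Finite R M] [Module.Projective R M] (m : ℕ)
    (hm : ∀ p : PrimeSpectrum R, Module.rankAtStalk (R := R) M p = m) (Q : Type) [CommRing Q]
    [Algebra R Q] (P : MaximalSpectrum Q) :
    Module.finrank (Q ⧸ P.1) ((Q ⧸ P.1) ⊗[Q] (Q ⊗[R] M)) = m := by
  letI := Ideal.Quotient.field P.1
  have h1 := Module.rankAtStalk_baseChange (R := Q) (S := Q ⧸ P.1) (M := Q ⊗[R] M) ⊥
  rw [Module.rankAtStalk_baseChange (R := R) (S := Q) (M := M), hm,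
    Module.rankAtStalk_eq_finrank_of_free] at h1
  exact h1

private lemma DMod_ker {R M : Type} [CommRing R] [AddCommGroup M] [Module R M] (n : ℕ) (x : M) :
    ((1 : R ⧸ Ideal.span {((n : ℕ) : R)}) ⊗ₜ[R] x = 0) ↔ ∃ y : M, x = (n : ℤ) • y := by
  rw [← (quotTensorEquivQuotSMul M (Ideal.span {((n : ℕ) : R)})).map_eq_zero_iff]
  have h1 : (1 : R ⧸ Ideal.span {((n : ℕ) : R)}) = Ideal.Quotient.mk _ 1 := (map_one _).symm
  rw [h1, quotTensorEquivQuotSMul_mk_tmul, one_smul, Submodule.Quotient.mk_eq_zero,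
    Submodule.ideal_span_singleton_smul, Submodule.mem_smul_pointwise_iff_exists]
  constructor
  · rintro ⟨y, _, rfl⟩
    exact ⟨y, by rw [natCast_zsmul, Nat.cast_smul_eq_nsmul]⟩
  · rintro ⟨y, rfl⟩
    exact ⟨y, trivial, by rw [natCast_zsmul, Nat.cast_smul_eq_nsmul]⟩

theorem sDMod (hDRank : S_DRank) : S_DMod := by
  intro G _ _ M _ _ _ _ n hn
  obtain ⟨m, hm⟩ := hDRank G M
  haveI := DMod_fin G n hn
  obtain ⟨b⟩ := Module.nonempty_basis_of_flat_of_finrank_eq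
    (ZG G ⧸ Ideal.span {((n : ℕ) : ZG G)})
    ((ZG G ⧸ Ideal.span {((n : ℕ) : ZG G)}) ⊗[ZG G] M) m
    (fun P => DMod_rank m hm (ZG G ⧸ Ideal.span {((n : ℕ) : ZG G)}) P)
  have hs : ∀ z : (ZG G ⧸ Ideal.span {((n : ℕ) : ZG G)}) ⊗[ZG G] M,
      ∃ x : M, (1 : ZG G ⧸ Ideal.span {((n : ℕ) : ZG G)}) ⊗ₜ[ZG G] x = z := by
    intro z
    exact TensorProduct.mk_surjective (ZG G) M (ZG G ⧸ Ideal.span {((n : ℕ) : ZG G)})
      Ideal.Quotient.mk_surjective z
  choose β hβ using fun i => hs (b i)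
  have hf : ∀ a : Fin m → ZG G,
      (1 : ZG G ⧸ Ideal.span {((n : ℕ) : ZG G)}) ⊗ₜ[ZG G] (Fintype.linearCombination (ZG G) β a) =
        ∑ i, (Ideal.Quotient.mk (Ideal.span {((n : ℕ) : ZG G)}) (a i)) • b i := by
    intro a
    rw [Fintype.linearCombination_apply, TensorProduct.tmul_sum]
    refine Finset.sum_congr rfl fun i _ => ?_
    rw [TensorProduct.tmul_smul, hβ i]
    rfl
  refine ⟨m, Fintype.linearCombination (ZG G) β, fun x => ?_, fun a y h => ?_⟩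
  · choose c hc using fun i => Ideal.Quotient.mk_surjective
      (b.repr ((1 : ZG G ⧸ Ideal.span {((n : ℕ) : ZG G)}) ⊗ₜ[ZG G] x) i)
    have h1 := hf c
    have h2 := b.sum_repr ((1 : ZG G ⧸ Ideal.span {((n : ℕ) : ZG G)}) ⊗ₜ[ZG G] x)
    have h3 : (1 : ZG G ⧸ Ideal.span {((n : ℕ) : ZG G)}) ⊗ₜ[ZG G]
        (x - Fintype.linearCombination (ZG G) β c) = 0 := by
      rw [TensorProduct.tmul_sub, h1, sub_eq_zero, ← h2]
      refine Finset.sum_congr rfl fun i _ => ?_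
      rw [hc i]
    obtain ⟨y, hy⟩ := (DMod_ker n _).mp h3
    exact ⟨c, y, by rw [← hy]; abel⟩
  · have h1 := hf a
    rw [(DMod_ker (R := ZG G) n _).mpr ⟨y, h⟩] at h1
    have h2 := Fintype.linearIndependent_iff.mp b.linearIndependent _ h1.symm
    have h3 : ∀ i, ∃ c : ZG G, a i = ((n : ℕ) : ZG G) * c := by
      intro i
      have h4 := Ideal.Quotient.eq_zero_iff_mem.mp (h2 i)
      rw [Ideal.mem_span_singleton'] at h4
      obtain ⟨c, hc⟩ := h4
      exact ⟨c, by rw [← hc, mul_comm]⟩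
    choose c hc using h3
    refine ⟨c, ?_⟩
    funext i
    rw [hc i]
    show _ = (n : ℤ) • c i
    rw [zsmul_eq_mul, Int.cast_natCast]

end HEp
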