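import Pool.Agent.Lib.MP_181146_gt.HE.SpecG

/-!
# Project HE, module DQ: the dual of a finite quotient killed by a prime
-/

set_option autoImplicit false

namespace HEp

section

variable {R : Type} [CommRing R] {M1 M2 T : Type} [AddCommGroup M1] [Module R M1] [AddCommGroup M2]
  [Module R M2] [AddCommGroup T] [Module R T]

/-- the additive map `x ↦ i⁻¹ (q x)` -/
private theorem DQ_mu (q : ℕ) (hT : ∀ t : T, (q : ℤ) • t = 0) (i : M1 →ₗ[R] M2)
    (π : M2 →ₗ[R] T) (hi : Function.Injective i) (hex : ∀ x, π x = 0 ↔ ∃ y, i y = x) :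
    ∃ mu : M2 →+ M1, ∀ x, i (mu x) = (q : ℤ) • x := by
  have h : ∀ x : M2, ∃ y : M1, i y = (q : ℤ) • x := by
    intro x
    apply (hex _).mp
    rw [map_zsmul, hT]
  choose mu hmu using h
  refine ⟨⟨⟨mu, ?_⟩, ?_⟩, hmu⟩
  · apply hi
    rw [hmu, smul_zero, map_zero]
  · intro x y
    apply hi
    rw [map_add, hmu, hmu, hmu, smul_add]

/-- division of an additive map by `q` -/
private theorem DQ_div {M : Type} [AddCommGroup M] (q : ℕ) (hq : (q : ℤ) ≠ 0) (F : M →+ ℤ)
    (h : ∀ x, ((F x : ℤ) : ZMod q) = 0) : ∃ f : M →+ ℤ, ∀ x, (q : ℤ) * f x = F x := by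
  have h1 : ∀ x : M, ∃ c : ℤ, (q : ℤ) * c = F x := by
    intro x
    obtain ⟨c, hc⟩ := (ZMod.intCast_zmod_eq_zero_iff_dvd (F x) q).mp (h x)
    exact ⟨c, hc.symm⟩
  choose f hf using h1
  refine ⟨⟨⟨f, ?_⟩, ?_⟩, hf⟩
  · apply mul_left_cancel₀ hq
    rw [hf, map_zero, mul_zero]
  · intro x y
    apply mul_left_cancel₀ hq
    rw [hf, map_add, mul_add, hf, hf]

end

theorem sDQ : S_DQ := by
  intro R _ M1 M2 T _ _ _ _ _ _ _ _ q hq hT i π hi hπ hex
  have hq0 : (q : ℤ) ≠ 0 := by exact_mod_cast hq.ne_zero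
  have : NeZero q := ⟨hq.ne_zero⟩
  obtain ⟨mu, hmu⟩ := DQ_mu q hT i π hi hex
  have hmui : ∀ y : M1, mu (i y) = (q : ℤ) • y := by
    intro y
    apply hi
    rw [hmu, map_zsmul]
  have hmua : ∀ (a : R) (x : M2), mu (a • x) = a • mu x := by
    intro a x
    apply hi
    rw [hmu, map_smul, hmu, smul_comm]
  constructor
  · intro f g hfg
    apply AddMonoidHom.ext
    intro x
    have h1 : f (i (mu x)) = g (i (mu x)) := by
      have h2 := DFunLike.congr_fun hfg (mu x)
      exact h2
    rw [hmu, map_zsmul, map_zsmul, smul_eq_mul, smul_eq_mul] at h1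
    exact mul_left_cancel₀ hq0 h1
  -- well defined
  have key : ∀ (f : ZD R M1) (x x' : M2), π x = π x' →
      ((f (mu x) : ℤ) : ZMod q) = ((f (mu x') : ℤ) : ZMod q) := by
    intro f x x' hx
    have h1 : π (x - x') = 0 := by rw [map_sub, hx, sub_self]
    obtain ⟨y, hy⟩ := (hex _).mp h1
    have h2 : mu x = mu x' + (q : ℤ) • y := by
      rw [← hmui, hy, map_sub]
      abel
    rw [h2, map_add, map_zsmul, smul_eq_mul, Int.cast_add, Int.cast_mul, Int.cast_natCast,
      ZMod.natCast_self, zero_mul, add_zero]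
  choose s hs using hπ
  have kmu : ∀ (f : ZD R M1) (x : M2), ((f (mu (s (π x))) : ℤ) : ZMod q) = ((f (mu x) : ℤ) : ZMod q) :=
    fun f x => key f _ _ (hs (π x))
  let ρ0 : ZD R M1 → (T →+ ZMod q) := fun f =>
    { toFun := fun t => ((f (mu (s t)) : ℤ) : ZMod q)
      map_zero' := by
        have h1 := kmu f 0
        rw [map_zero, map_zero, map_zero, Int.cast_zero] at h1
        exact h1
      map_add' := by
        intro t t'
        have h1 := kmu f (s t + s t')
        rw [map_add π, hs, hs] at h1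
        rw [h1, map_add, map_add, Int.cast_add] }
  let ρ : ZD R M1 →+ (T →+ ZMod q) :=
    { toFun := ρ0
      map_zero' := by
        apply AddMonoidHom.ext
        intro t
        show ((((0 : ZD R M1) (mu (s t))) : ℤ) : ZMod q) = 0
        have h1 : (0 : ZD R M1) (mu (s t)) = 0 := rfl
        rw [h1, Int.cast_zero]
      map_add' := by
        intro f g
        apply AddMonoidHom.ext
        intro t
        show ((((f + g : ZD R M1) (mu (s t))) : ℤ) : ZMod q) =
          ((f (mu (s t)) : ℤ) : ZMod q) + ((g (mu (s t)) : ℤ) : ZMod q)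
        have h1 : (f + g : ZD R M1) (mu (s t)) = f (mu (s t)) + g (mu (s t)) := rfl
        rw [h1, Int.cast_add] }
  have hρ : ∀ (f : ZD R M1) (x : M2), ρ f (π x) = ((f (mu x) : ℤ) : ZMod q) := kmu
  refine ⟨ρ, ?_, ?_, ?_⟩
  · -- surjectivity
    intro g
    let b := Module.Free.chooseBasis ℤ M2
    let F : M2 →ₗ[ℤ] ℤ := b.constr ℤ (fun j => ((g (π (b j))).val : ℤ))
    have hF : ∀ x : M2, ((F x : ℤ) : ZMod q) = g (π x) := by
      have h1 : (Int.castAddHom (ZMod q)).toIntLinearMap.comp F =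
          g.toIntLinearMap.comp (π.toAddMonoidHom.toIntLinearMap) := by
        apply b.ext
        intro j
        show ((F (b j) : ℤ) : ZMod q) = g (π (b j))
        have h2 : F (b j) = ((g (π (b j))).val : ℤ) := b.constr_basis ℤ _ j
        rw [h2, Int.cast_natCast, ZMod.natCast_zmod_val]
      intro x
      exact LinearMap.congr_fun h1 x
    obtain ⟨f, hf⟩ := DQ_div q hq0 (F.toAddMonoidHom.comp i.toAddMonoidHom) (by
      intro y
      show ((F (i y) : ℤ) : ZMod q) = 0
      rw [hF, (hex (i y)).mpr ⟨y, rfl⟩, map_zero])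
    have hf' : ∀ y, (q : ℤ) * f y = F (i y) := hf
    let f1 : ZD R M1 := f
    refine ⟨f1, ?_⟩
    apply AddMonoidHom.ext
    intro t
    rw [← hs t, hρ]
    have h3 : f (mu (s t)) = F (s t) := by
      apply mul_left_cancel₀ hq0
      rw [hf', hmu, map_zsmul, smul_eq_mul]
    have h4 : ((f (mu (s t)) : ℤ) : ZMod q) = g (π (s t)) := by rw [h3, hF]
    exact h4
  · -- kernel
    intro f
    constructor
    · intro h
      obtain ⟨f', hf'⟩ := DQ_div q hq0 (AddMonoidHom.comp (f : M1 →+ ℤ) mu) (by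
        intro x
        have h1 : ρ f (π x) = 0 := by rw [h]; rfl
        rw [hρ] at h1
        exact h1)
      have hf2 : ∀ x, (q : ℤ) * f' x = f (mu x) := hf'
      refine ⟨f', ?_⟩
      apply AddMonoidHom.ext
      intro y
      show f' (i y) = f y
      apply mul_left_cancel₀ hq0
      rw [hf2, hmui, map_zsmul, smul_eq_mul]
    · rintro ⟨f', rfl⟩
      apply AddMonoidHom.ext
      intro t
      rw [← hs t, hρ, ZDmap_apply, hmu, map_zsmul, smul_eq_mul, Int.cast_mul, Int.cast_natCast,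
        ZMod.natCast_self, zero_mul]
      rfl
  · intro a f t
    rw [← hs t, ← map_smul, hρ, hρ, hmua]
    rfl

end HEp
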