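import Pool.Agent.Lib.MP_181146_gt.HE.SpecS
import Pool.Agent.Lib.MP_181146_gt.HE.DStep

/-!
MP_181146_gt, HE/DQIP: the duality map is a quasi-isomorphism modulo `p`.
-/

set_option autoImplicit false

namespace HEp

/-- An additive function to `ℤ/p` which vanishes where `d` is zero modulo `p` factors through
`d` modulo `p`. -/
private theorem dqip_ext {A B : Type} [AddCommGroup A] [AddCommGroup B] (p : ℕ) [Fact p.Prime]
    (d : A →+ B) (f : A →+ ZMod p) (h : ∀ a, (∃ b, d a = (p : ℤ) • b) → f a = 0) :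
    ∃ g : B →+ ZMod p, ∀ a, g (d a) = f a := by
  let D : A →+ ModN B p := (ModN.mkQ p).comp d
  have hk : ∀ a, D a = 0 → f a = 0 := by
    intro a ha
    have h1 : d a ∈ LinearMap.range (LinearMap.lsmul ℤ B (p : ℤ)) :=
      (Submodule.Quotient.mk_eq_zero _).mp ha
    obtain ⟨b, hb⟩ := h1
    exact h a ⟨b, hb.symm⟩
  have hk2 : ∀ a a', D a = D a' → f a = f a' := by
    intro a a' ha
    have h1 := hk (a - a') (by rw [map_sub, ha, sub_self])
    rw [map_sub] at h1
    exact sub_eq_zero.mp h1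
  let S : Submodule (ZMod p) (ModN B p) := AddSubgroup.toZModSubmodule p D.range
  have hS : ∀ x : S, ∃ a, D a = x.1 := fun x => x.2
  choose s hs using hS
  let g0 : S →+ ZMod p :=
    { toFun := fun x => f (s x)
      map_zero' := hk _ (hs 0)
      map_add' := fun x y => by
        rw [← map_add]
        refine hk2 _ _ ?_
        rw [map_add, hs, hs, hs]
        rfl }
  obtain ⟨g, hg⟩ := LinearMap.exists_extend (g0.toZModLinearMap p)
  refine ⟨g.toAddMonoidHom.comp (ModN.mkQ p), fun a => ?_⟩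
  have hm : D a ∈ S := ⟨a, rfl⟩
  have h1 : g (D a) = g0 ⟨D a, hm⟩ := LinearMap.congr_fun hg ⟨D a, hm⟩
  have h2 : g0 ⟨D a, hm⟩ = f a := hk2 _ _ (hs ⟨D a, hm⟩)
  exact h1.trans h2

private theorem dqip_lift {B : Type} [AddCommGroup B] [Module.Free ℤ B] (p : ℕ)
    (g : B →+ ZMod p) : ∃ g' : B →+ ℤ, ∀ b, ((g' b : ℤ) : ZMod p) = g b := by
  obtain ⟨g', hg'⟩ := Module.projective_lifting_property
    (Int.castAddHom (ZMod p)).toIntLinearMap g.toIntLinearMap (ZMod.intCast_surjective (n := p))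
  exact ⟨g'.toAddMonoidHom, fun b => LinearMap.congr_fun hg' b⟩

private theorem dqip_div {M : Type} [AddCommGroup M] (q : ℕ) (hq : (q : ℤ) ≠ 0) (F : M →+ ℤ)
    (h : ∀ x, ((F x : ℤ) : ZMod q) = 0) : ∃ f : M →+ ℤ, ∀ x, F x = (q : ℤ) * f x := by
  have h1 : ∀ x : M, ∃ c : ℤ, F x = (q : ℤ) * c := fun x =>
    (ZMod.intCast_zmod_eq_zero_iff_dvd (F x) q).mp (h x)
  choose f hf using h1
  refine ⟨⟨⟨f, ?_⟩, ?_⟩, hf⟩
  · apply mul_left_cancel₀ hq
    rw [← hf, map_zero, mul_zero]
  · intro x y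
    apply mul_left_cancel₀ hq
    rw [← hf, map_add, mul_add, hf, hf]

private theorem dqip_cast (p : ℕ) (a : ℤ) : (((p : ℤ) * a : ℤ) : ZMod p) = 0 := by
  rw [Int.cast_mul, Int.cast_natCast, ZMod.natCast_self, zero_mul]

private theorem dqip_smul {R M : Type} [CommRing R] [AddCommGroup M] [Module R M] (n : ℤ)
    (f : ZD R M) (x : M) : (n • f) x = n * f x := rfl

private theorem dqip_add {R M : Type} [CommRing R] [AddCommGroup M] [Module R M]
    (f g : ZD R M) (x : M) : (f + g) x = f x + g x := rfl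

private theorem dqip_sub {R M : Type} [CommRing R] [AddCommGroup M] [Module R M]
    (f g : ZD R M) (x : M) : (f - g) x = f x - g x := rfl

theorem sDQIP (hPerf : S_Perf) : S_DQIP := by
  intro G _ _ X Y μ m D φ hφ F c hc hF p hp hnd
  have : Fact p.Prime := ⟨hp⟩
  have hp0 : (p : ℤ) ≠ 0 := by exact_mod_cast hp.ne_zero
  have hcc : ∀ i, c i * c i = 1 := by
    intro i
    rcases hc i with h | h <;> rw [h] <;> norm_num
  constructor
  · rintro i x hx ⟨k, g, z, hg⟩
    refine hnd i x hx fun y hy => ?_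
    obtain ⟨w, hw⟩ := hy (m - k)
    have h1 : D.e i (F.f i x) y = D.e k g (X.d (m - i) (m - k) y) + (p : ℤ) * D.e i z y := by
      rw [hg, map_add, D.comm, map_zsmul, dqip_add, dqip_smul, ZDmap_apply]
    rw [hF, hw, map_zsmul, smul_eq_mul, ← mul_add] at h1
    have h2 : φ (μ.M i (m - i) m x y) = (p : ℤ) * (c i * (D.e k g w + D.e i z y)) := by
      calc φ (μ.M i (m - i) m x y) = c i * (c i * φ (μ.M i (m - i) m x y)) := by
            rw [← mul_assoc, hcc, one_mul]
        _ = (p : ℤ) * (c i * (D.e k g w + D.e i z y)) := by rw [h1]; ring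
    rw [h2]
    exact dqip_cast p _
  · intro i y hy
    have hf0 : ∀ n, n = m - (i - 1) → ∀ w : X.P n,
        ((D.e i y (X.d n (m - i) w) : ℤ) : ZMod p) = 0 := by
      rintro n rfl w
      obtain ⟨z, hz⟩ := hy (i - 1)
      have h2 := D.comm i (i - 1) y
      rw [hz, map_zsmul] at h2
      have h3 := DFunLike.congr_fun h2 w
      rw [dqip_smul, ZDmap_apply] at h3
      rw [← h3]
      exact dqip_cast p _
    obtain ⟨x0, hx0, hx1⟩ := hPerf G X μ p hp m ((Int.castAddHom (ZMod p)).comp φ)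
      (fun z => by
        rw [AddMonoidHom.comp_apply, hφ, map_zero])
      (fun i x hx h => hnd i x hx h) i
      ((Int.castAddHom (ZMod p)).comp (show X.P (m - i) →+ ℤ from D.e i y))
      (fun z => hf0 (m - i + 1) (by ring) z)
    refine ⟨c i • x0, fun j => ?_, ?_⟩
    · obtain ⟨z, hz⟩ := hx0 j
      exact ⟨c i • z, by rw [map_zsmul, hz, smul_comm]⟩
    · let f1 : ZD (ZG G) (X.P (m - i)) := D.e i y - D.e i (F.f i (c i • x0))
      have hf1 : ∀ a : X.P (m - i), f1 a = D.e i y a - φ (μ.M i (m - i) m x0 a) := by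
        intro a
        change (D.e i y - D.e i (F.f i (c i • x0))) a = _
        rw [dqip_sub, hF, map_zsmul]
        change _ - c i * φ (c i • μ.M i (m - i) m x0 a) = _
        rw [map_zsmul, smul_eq_mul, ← mul_assoc, hcc, one_mul]
      have hf1' : ∀ a : X.P (m - i), X.CycP p (m - i) a → ((f1 a : ℤ) : ZMod p) = 0 := by
        intro a ha
        have h1 : ((D.e i y a : ℤ) : ZMod p) = ((φ (μ.M i (m - i) m x0 a) : ℤ) : ZMod p) :=
          hx1 a ha
        rw [hf1, Int.cast_sub, h1, sub_self]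
      obtain ⟨g, hg⟩ := dqip_ext p (X.d (m - i) (m - (i + 1))).toAddMonoidHom
        ((Int.castAddHom (ZMod p)).comp (show X.P (m - i) →+ ℤ from f1)) (fun a ha => by
          refine hf1' a fun j => ?_
          by_cases hj : j = m - (i + 1)
          · subst hj
            exact ha
          · refine ⟨0, ?_⟩
            rw [X.shape (m - i) j (by omega), LinearMap.zero_apply, smul_zero])
      have hfree := DStepAux.free_int G (X.P (m - (i + 1)))
      obtain ⟨g0, hg0⟩ := dqip_lift p g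
      obtain ⟨f2, hf2⟩ := dqip_div p hp0 ((show X.P (m - i) →+ ℤ from f1) -
        g0.comp (X.d (m - i) (m - (i + 1))).toAddMonoidHom) (fun a => by
          rw [AddMonoidHom.sub_apply, Int.cast_sub, AddMonoidHom.comp_apply, hg0, hg]
          exact sub_self _)
      let G0 : ZD (ZG G) (X.P (m - (i + 1))) := g0
      let F2 : ZD (ZG G) (X.P (m - i)) := f2
      have hsm : D.e i ((p : ℤ) • (D.e i).symm F2) = (p : ℤ) • F2 := by
        rw [map_zsmul, LinearEquiv.apply_symm_apply]
      refine ⟨i + 1, (D.e (i + 1)).symm G0, (D.e i).symm F2, ?_⟩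
      apply (D.e i).injective
      rw [map_sub, map_add, hsm, D.comm, LinearEquiv.apply_symm_apply]
      refine DFunLike.ext _ _ fun a => ?_
      rw [dqip_add, dqip_smul, ZDmap_apply]
      have h5 : f1 a - g0 (X.d (m - i) (m - (i + 1)) a) = (p : ℤ) * f2 a := hf2 a
      change f1 a = g0 (X.d (m - i) (m - (i + 1)) a) + (p : ℤ) * f2 a
      rw [← h5]
      ring

end HEp
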