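import Pool.Agent.Lib.MP_181146_gt.HE.SpecG

/-!
# Project HE, DRank: the rank of a finitely generated projective module over the integral group
ring of a finite commutative group is constant
-/

set_option autoImplicit false

namespace HEp

/-- **DRank.** -/
theorem sDRank (hDIdem : S_DIdem) : S_DRank := by
  intro G _ _ M _ _ _ _
  have hfp : Module.FinitePresentation (ZG G) M := Module.finitePresentation_of_projective (ZG G) M
  have hloc := Module.isLocallyConstant_rankAtStalk (R := ZG G) (M := M)
  by_cases hne : Nonempty (PrimeSpectrum (ZG G))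
  · obtain ⟨q⟩ := hne
    refine ⟨Module.rankAtStalk (R := ZG G) M q, fun p => ?_⟩
    have hcl := hloc.isClopen_fiber (Module.rankAtStalk (R := ZG G) M q)
    obtain ⟨e, he, hs⟩ := PrimeSpectrum.isClopen_iff.1 hcl
    have hq : q ∈ {x | Module.rankAtStalk (R := ZG G) M x =
      Module.rankAtStalk (R := ZG G) M q} := rfl
    rcases hDIdem G e he with h | h
    · rw [hs, h] at hq
      simp at hq
    · have hp : p ∈ {x | Module.rankAtStalk (R := ZG G) M x =
          Module.rankAtStalk (R := ZG G) M q} := by
        rw [hs, h]
        simp
      exact hp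
  · exact ⟨0, fun p => (hne ⟨p⟩).elim⟩

end HEp
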