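import Pool.Agent.Lib.MP_181146_gt.HE.SpecG

/-!
# Project HE, module DSelf: the group ring is its own dual
-/

set_option autoImplicit false

namespace HEp

/-- `a ↦ (x ↦ coefficient of 1 in a x)` -/
private noncomputable def dselfPhi (G : Type) [CommGroup G] : ZG G →ₗ[ZG G] ZD (ZG G) (ZG G) where
  toFun a := AddMonoidHom.mk' (fun x : ZG G => (a * x).coeff 1) (by
    intro x y
    rw [mul_add, MonoidAlgebra.coeff_add, Finsupp.add_apply])
  map_add' a b := by
    apply AddMonoidHom.ext
    intro x
    change ((a + b) * x).coeff 1 = (a * x).coeff 1 + (b * x).coeff 1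
    rw [add_mul, MonoidAlgebra.coeff_add, Finsupp.add_apply]
  map_smul' r a := by
    apply AddMonoidHom.ext
    intro x
    change ((r * a) * x).coeff 1 = (a * (r * x)).coeff 1
    rw [mul_comm r a, mul_assoc]

private lemma dselfPhi_apply (G : Type) [CommGroup G] (a x : ZG G) :
    (dselfPhi G a) x = (a * x).coeff 1 := rfl

theorem sDSelf : S_DSelf := by
  classical
  intro G _ _
  have := Fintype.ofFinite G
  refine ⟨(LinearEquiv.ofBijective (dselfPhi G) ⟨?_, ?_⟩).symm⟩
  · rw [← LinearMap.ker_eq_bot, LinearMap.ker_eq_bot']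
    intro a ha
    refine MonoidAlgebra.ext (Finsupp.ext fun g => ?_)
    have h1 : (dselfPhi G a) (MonoidAlgebra.single g⁻¹ (1 : ℤ)) = 0 := by
      rw [ha]
      rfl
    rw [dselfPhi_apply, MonoidAlgebra.coeff_mul_single_apply, inv_inv, one_mul, mul_one] at h1
    rw [h1]
    rfl
  · intro f
    refine ⟨∑ g : G, MonoidAlgebra.single g (f (MonoidAlgebra.single g⁻¹ (1 : ℤ))), ?_⟩
    apply AddMonoidHom.ext
    intro x
    change (dselfPhi G _) x = f x
    have hx : ∀ (h : G) (n : ℤ), (dselfPhi G (∑ g : G, MonoidAlgebra.single g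
        (f (MonoidAlgebra.single g⁻¹ (1 : ℤ))))) (MonoidAlgebra.single h n) =
        f (MonoidAlgebra.single h n) := by
      intro h n
      rw [dselfPhi_apply, MonoidAlgebra.coeff_mul_single_apply, one_mul]
      have h2 : (∑ g : G, MonoidAlgebra.single g
          (f (MonoidAlgebra.single g⁻¹ (1 : ℤ))) : ZG G).coeff h⁻¹ =
          f (MonoidAlgebra.single h (1 : ℤ)) := by
        rw [MonoidAlgebra.coeff_sum, Finsupp.finsetSum_apply, Finset.sum_eq_single h⁻¹]
        · rw [MonoidAlgebra.coeff_single, Finsupp.single_eq_same, inv_inv]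
        · intro b _ hb
          rw [MonoidAlgebra.coeff_single, Finsupp.single_eq_of_ne' hb]
        · intro hh
          exact absurd (Finset.mem_univ _) hh
      rw [h2]
      have h3 : (MonoidAlgebra.single h n : ZG G) = n • MonoidAlgebra.single h (1 : ℤ) := by
        rw [MonoidAlgebra.smul_single, smul_eq_mul, mul_one]
      rw [h3, map_zsmul, smul_eq_mul, mul_comm]
    have h4 : ((dselfPhi G (∑ g : G, MonoidAlgebra.single g
        (f (MonoidAlgebra.single g⁻¹ (1 : ℤ)))) : ZD (ZG G) (ZG G)) : ZG G →+ ℤ) = (f : ZG G →+ ℤ) :=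
      MonoidAlgebra.addMonoidHom_ext fun h n => hx h n
    exact DFunLike.congr_fun h4 x

end HEp
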