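import Pool.Agent.Lib.MP_181146_gt.HE.SpecG

/-!
MP_181146_gt, HE/DSmp: the dual of an exact sequence `0 → M1 → M2 → R/P → 0`, where `P` is a
maximal ideal with finite residue field and `M2` is free over `ℤ`.
-/

set_option autoImplicit false

namespace HEp

/-- On a finite field of characteristic `q` there is an additive function to `ℤ/q` such that every
additive function is a unique multiple of it. -/
private theorem dsmp_form (K : Type) [Field K] [Finite K] (q : ℕ) [Fact q.Prime] [CharP K q] :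
    ∃ l : K →+ ZMod q, ∀ g : K →+ ZMod q, ∃ c : K, (∀ t, g t = l (c * t)) ∧
      ∀ c' : K, (∀ t, g t = l (c' * t)) → c' = c := by
  let _ : Algebra (ZMod q) K := ZMod.algebra K q
  obtain ⟨l, hl⟩ : ∃ l : Module.Dual (ZMod q) K, l 1 ≠ 0 := by
    by_contra h
    push Not at h
    exact one_ne_zero ((Module.forall_dual_apply_eq_zero_iff (ZMod q) (1 : K)).mp h)
  let φ : K →ₗ[ZMod q] Module.Dual (ZMod q) K := (LinearMap.mul (ZMod q) K).compr₂ l
  have hφ : ∀ a t, φ a t = l (a * t) := fun _ _ => rfl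
  have hinj : Function.Injective φ := by
    rw [injective_iff_map_eq_zero]
    intro a ha
    by_contra h0
    apply hl
    have h1 := hφ a a⁻¹
    rw [ha, mul_inv_cancel₀ h0] at h1
    exact h1.symm
  have hsurj : Function.Surjective φ :=
    (LinearMap.injective_iff_surjective_of_finrank_eq_finrank
      (Subspace.dual_finrank_eq (K := ZMod q) (V := K)).symm).mp hinj
  refine ⟨l.toAddMonoidHom, fun g => ?_⟩
  obtain ⟨c, hc⟩ := hsurj (g.toZModLinearMap q)
  refine ⟨c, fun t => (LinearMap.congr_fun hc t).symm, fun c' hc' => hinj ?_⟩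
  rw [hc]
  exact LinearMap.ext fun t => (hc' t).symm

theorem sDSmp (hDQ : S_DQ) : S_DSmp := by
  intro R _ M1 M2 _ _ _ _ _ _ P hP hfin hres
  obtain ⟨i, p, hi, hp, hex⟩ := hres
  let _ : Field (R ⧸ P) := Ideal.Quotient.field P
  obtain ⟨q, hq⟩ := CharP.exists (R ⧸ P)
  haveI : Fact q.Prime := ⟨(CharP.char_is_prime_or_zero (R ⧸ P) q).resolve_right fun h0 => by
    subst h0
    haveI := CharP.charP_to_charZero (R ⧸ P)
    exact not_injective_infinite_finite (Nat.cast : ℕ → R ⧸ P) Nat.cast_injective⟩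
  have hT : ∀ t : R ⧸ P, (q : ℤ) • t = 0 := fun t => by
    rw [natCast_zsmul, nsmul_eq_mul, CharP.cast_eq_zero, zero_mul]
  obtain ⟨hinj, ρ, hρs, hρk, hρa⟩ := hDQ R M1 M2 (R ⧸ P) q Fact.out hT i p hi hp hex
  obtain ⟨l, hl⟩ := dsmp_form (R ⧸ P) q
  choose c hc hcu using hl
  refine ⟨ZDmap i, ⟨⟨fun f => c (ρ f), fun f g => ?_⟩, fun a f => ?_⟩, hinj, fun y => ?_,
    fun f => ?_⟩
  · refine (hcu _ _ fun t => ?_).symm
    rw [map_add, AddMonoidHom.add_apply, hc (ρ f) t, hc (ρ g) t, ← map_add, ← add_mul]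
  · refine (hcu _ _ fun t => ?_).symm
    rw [hρa, hc (ρ f) (a • t), mul_smul_comm, RingHom.id_apply, smul_mul_assoc]
  · obtain ⟨f, hf⟩ := hρs (l.comp (AddMonoidHom.mulLeft y))
    refine ⟨f, (hcu _ _ fun t => ?_).symm⟩
    rw [hf]
    rfl
  · change c (ρ f) = 0 ↔ _
    rw [← hρk f]
    constructor
    · intro h
      refine AddMonoidHom.ext fun t => ?_
      rw [hc (ρ f) t, h, zero_mul, map_zero, AddMonoidHom.zero_apply]
    · intro h
      refine (hcu _ _ fun t => ?_).symm
      rw [h, AddMonoidHom.zero_apply, zero_mul, map_zero]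

end HEp
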