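import Pool.Agent.Lib.MP_181146_gt.HE.SpecG

set_option autoImplicit false

namespace HEp

open HSp (Res)

theorem sDSub : S_DSub := by
  intro G _ _ M M' T _ _ _ _ _ _ _ _ _ hcop hres
  obtain ⟨i, p, hi, hp, hex⟩ := hres
  have := Fintype.ofFinite G
  have hfA : Module.Finite ℤ (ZG G) := inferInstance
  have hno : IsNoetherianRing (ZG G) := isNoetherian_of_tower ℤ inferInstance
  have hfM' : Module.Finite (ZG G) M' := Module.Finite.of_injective i hi
  refine ⟨hfM', ?_⟩
  have hfz : Module.Finite ℤ M' := Module.Finite.trans (ZG G) M'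
  have htf : Module.IsTorsionFree ℤ M' := by
    refine Module.IsTorsionFree.of_smul_eq_zero fun m x hx => ?_
    rcases eq_or_ne m 0 with h0 | h0
    · exact Or.inl h0
    · right
      obtain ⟨s, hs⟩ := (inferInstance : Module.Projective (ZG G) M).out
      have h1 : s (i x) = 0 := by
        have h2 : m • s (i x) = 0 := by rw [← map_zsmul, ← map_zsmul, hx, map_zero, map_zero]
        refine Finsupp.ext fun j => ?_
        have h3 : m • (s (i x) j) = 0 := by
          have h4 := DFunLike.congr_fun h2 j
          simpa using h4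
        exact (smul_eq_zero.1 h3).resolve_left h0
      have h5 := hs (i x)
      rw [h1, map_zero] at h5
      exact hi (by rw [← h5, map_zero])
  have hfree : Module.Free ℤ M' := Module.free_of_finite_type_torsion_free'
  obtain ⟨k, π, hπ⟩ := Module.Finite.exists_fin' (ZG G) M'
  obtain ⟨σ, hσ⟩ := Module.projective_lifting_property π.toAddMonoidHom.toIntLinearMap
    LinearMap.id hπ
  have hσ' : ∀ x, π (σ x) = x := fun x => LinearMap.congr_fun hσ x
  have h1 : ∀ x, π (σ.sumOfConjugatesEquivariant G x) = (Nat.card G : ℤ) • x := by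
    intro x
    rw [LinearMap.sumOfConjugatesEquivariant_apply, map_sum]
    have h2 : ∀ g : G, π (σ.conjugate g x) = x := by
      intro g
      rw [LinearMap.conjugate_apply, map_smul, hσ', ← mul_smul,
        MonoidAlgebra.single_mul_single, mul_one, inv_mul_cancel, ← MonoidAlgebra.one_def,
        one_smul]
    simp only [h2, Finset.sum_const, Finset.card_univ]
    rw [Nat.card_eq_fintype_card, natCast_zsmul]
  obtain ⟨u, hu⟩ : ∃ u : M →ₗ[ZG G] M', ∀ x, i (u x) = (Nat.card T : ℤ) • x := by
    have h2 : ∀ x : M, (Nat.card T : ℤ) • x ∈ LinearMap.range i := by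
      intro x
      have h3 : p ((Nat.card T : ℤ) • x) = 0 := by
        rw [map_zsmul, natCast_zsmul]
        exact card_nsmul_eq_zero'
      obtain ⟨y, hy⟩ := (hex _).1 h3
      exact ⟨y, hy⟩
    refine ⟨(LinearEquiv.ofInjective i hi).symm.toLinearMap ∘ₗ
      LinearMap.codRestrict (LinearMap.range i) ((Nat.card T : ℤ) • LinearMap.id)
        (fun x => h2 x), fun x => ?_⟩
    have h4 := (LinearEquiv.ofInjective i hi).apply_symm_apply
      (LinearMap.codRestrict (LinearMap.range i) ((Nat.card T : ℤ) • LinearMap.id)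
        (fun x => h2 x) x)
    exact congrArg Subtype.val h4
  obtain ⟨τ, hτ⟩ := Module.projective_lifting_property π u hπ
  have h3 : ∀ x, π (τ (i x)) = (Nat.card T : ℤ) • x := by
    intro x
    have h4 : π (τ (i x)) = u (i x) := LinearMap.congr_fun hτ (i x)
    apply hi
    rw [h4, hu, map_zsmul]
  obtain ⟨a, b, hab⟩ : ∃ a b : ℤ, a * (Nat.card G : ℤ) + b * (Nat.card T : ℤ) = 1 := by
    have h4 : IsCoprime (Nat.card G : ℤ) (Nat.card T : ℤ) :=
      (Nat.isCoprime_iff_coprime.2 hcop).symm
    exact h4
  refine Module.Projective.of_split (a • σ.sumOfConjugatesEquivariant G + b • (τ ∘ₗ i)) π ?_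
  ext x
  rw [LinearMap.comp_apply, LinearMap.add_apply, LinearMap.smul_apply, LinearMap.smul_apply,
    map_add, map_zsmul, map_zsmul, h1, LinearMap.comp_apply, h3, smul_smul, smul_smul, ← add_smul,
    hab, one_smul]
  rfl

end HEp
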