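import Pool.Agent.Lib.MP_181146_gt.HE.SpecG

set_option autoImplicit false

namespace HEp

open scoped TensorProduct

private theorem DTadd_lin {G X Y : Type} [CommGroup G] [AddCommGroup X] [Module (ZG G) X]
    [AddCommGroup Y] [Module (ZG G) Y] (e : X →+ Y)
    (h : ∀ (g : G) (x : X), e (MonoidAlgebra.of ℤ G g • x) = MonoidAlgebra.of ℤ G g • e x)
    (a : ZG G) (x : X) : e (a • x) = a • e x := by
  induction a using MonoidAlgebra.induction_on with
  | of g => exact h g x
  | add a b ha hb => rw [add_smul, add_smul, map_add, ha, hb]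
  | smul r a ha => rw [smul_assoc, smul_assoc, map_zsmul, ha]

private noncomputable def DTadd_equiv {G X Y : Type} [CommGroup G] [AddCommGroup X]
    [Module (ZG G) X] [AddCommGroup Y] [Module (ZG G) Y] (e : X ≃+ Y)
    (h : ∀ (g : G) (x : X), e (MonoidAlgebra.of ℤ G g • x) = MonoidAlgebra.of ℤ G g • e x) :
    X ≃ₗ[ZG G] Y :=
  { e with
    map_smul' := fun a x => DTadd_lin e.toAddMonoidHom h a x }

private theorem DTadd_ind {G M L : Type} [CommGroup G] [AddCommGroup M] [AddCommGroup L]
    {P : DT G M L → Prop} (h0 : P 0) (h1 : ∀ m l, P (dt G m l))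
    (h2 : ∀ x y, P x → P y → P (x + y)) (x : DT G M L) : P x :=
  TensorProduct.induction_on (motive := P) x h0 h1 h2

theorem sDTadd : S_DTadd := by
  intro G _ M _ _
  refine ⟨?_, ?_, ?_⟩
  · intro L L' _ _ _ _
    let e : DT G M (L × L') ≃+ (DT G M L × DT G M L') :=
      (TensorProduct.prodRight ℤ ℤ M L L').toAddEquiv
    have he : ∀ (m : M) (l : L × L'), e (dt G m l) = (dt G m l.1, dt G m l.2) := by
      intro m l
      rfl
    refine ⟨DTadd_equiv e fun g x => ?_⟩
    refine DTadd_ind (P := fun x => e (MonoidAlgebra.of ℤ G g • x) =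
      MonoidAlgebra.of ℤ G g • e x) ?_ ?_ ?_ x
    · rw [smul_zero, map_zero, smul_zero]
    · intro m l
      rw [DT_of_smul, he, he]
      exact Prod.ext (DT_of_smul (g := g) (m := m) (l := l.1)).symm
        (DT_of_smul (g := g) (m := m) (l := l.2)).symm
    · intro x y hx hy
      rw [smul_add, map_add, map_add, smul_add, hx, hy]
  · intro ι _ L _ _
    classical
    have := Fintype.ofFinite ι
    let e : DT G M (∀ i, L i) ≃+ (∀ i, DT G M (L i)) :=
      (TensorProduct.piRight ℤ ℤ M L).toAddEquiv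
    have he : ∀ (m : M) (l : ∀ i, L i), e (dt G m l) = fun i => dt G m (l i) := by
      intro m l
      funext i
      exact congrFun (TensorProduct.piRight_apply (R := ℤ) (S := ℤ) (N := M) (M := L) (m ⊗ₜ l)) i
    refine ⟨DTadd_equiv e fun g x => ?_⟩
    refine DTadd_ind (P := fun x => e (MonoidAlgebra.of ℤ G g • x) =
      MonoidAlgebra.of ℤ G g • e x) ?_ ?_ ?_ x
    · rw [smul_zero, map_zero, smul_zero]
    · intro m l
      rw [DT_of_smul, he, he]
      funext i
      exact (DT_of_smul (g := g) (m := m) (l := l i)).symm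
    · intro x y hx hy
      rw [smul_add, map_add, map_add, smul_add, hx, hy]
  · let f : Tv G ℤ ≃ₗ[ℤ] ℤ := (AddEquiv.refl ℤ).toIntLinearEquiv
    let e : DT G M (Tv G ℤ) ≃+ M :=
      ((TensorProduct.congr (LinearEquiv.refl ℤ M) f).trans (TensorProduct.rid ℤ M)).toAddEquiv
    have he : ∀ (m : M) (l : Tv G ℤ), e (dt G m l) = (f l : ℤ) • m := by
      intro m l
      rfl
    refine ⟨DTadd_equiv e fun g x => ?_⟩
    refine DTadd_ind (P := fun x => e (MonoidAlgebra.of ℤ G g • x) =
      MonoidAlgebra.of ℤ G g • e x) ?_ ?_ ?_ x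
    · rw [smul_zero, map_zero, smul_zero]
    · intro m l
      rw [DT_of_smul, he, he, Tv_of_smul, smul_comm]
    · intro x y hx hy
      rw [smul_add, map_add, map_add, smul_add, hx, hy]

end HEp
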