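import Pool.Agent.Lib.MP_181146_gt.HE.SpecG

/-!
# Project HE: `DTchain`
-/

set_option autoImplicit false

namespace HEp

open HSp (Res)

section

variable {G : Type} [CommGroup G]

/-- An additive map commuting with the elements of the group is linear. -/
private lemma dtc_lin {A B : Type} [AddCommGroup A] [Module (ZG G) A] [AddCommGroup B]
    [Module (ZG G) B] (f : A →+ B)
    (h : ∀ (g : G) (x : A), f (MonoidAlgebra.of ℤ G g • x) = MonoidAlgebra.of ℤ G g • f x)
    (a : ZG G) (x : A) : f (a • x) = a • f x := by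
  induction a using MonoidAlgebra.induction_on with
  | of g => exact h g x
  | add a b ha hb => rw [add_smul, map_add, ha, hb, add_smul]
  | smul r a ha => rw [smul_assoc, smul_assoc, map_zsmul, ha]

/-- The linear map of an additive map commuting with the elements of the group. -/
private def dtc_mk {A B : Type} [AddCommGroup A] [Module (ZG G) A] [AddCommGroup B]
    [Module (ZG G) B] (f : A →+ B)
    (h : ∀ (g : G) (x : A), f (MonoidAlgebra.of ℤ G g • x) = MonoidAlgebra.of ℤ G g • f x) :
    A →ₗ[ZG G] B where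
  toFun := f
  map_add' := map_add f
  map_smul' := dtc_lin f h

/-- Functoriality of `DT G M -` for isomorphisms. -/
private lemma dtc_congr (M L L' : Type) [AddCommGroup M] [Module (ZG G) M] [AddCommGroup L]
    [Module (ZG G) L] [AddCommGroup L'] [Module (ZG G) L'] (e : L ≃ₗ[ZG G] L') :
    Nonempty (DT G M L ≃ₗ[ZG G] DT G M L') := by
  let t : TensorProduct ℤ M L ≃ₗ[ℤ] TensorProduct ℤ M L' :=
    TensorProduct.congr (LinearEquiv.refl ℤ M) e.toAddEquiv.toIntLinearEquiv
  let f : DT G M L →+ DT G M L' := t.toLinearMap.toAddMonoidHom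
  have hf : ∀ (m : M) (l : L), f (dt G m l) = dt G m (e l) := fun m l => rfl
  have hadd : ∀ (g : G) (x y : DT G M L),
      f (MonoidAlgebra.of ℤ G g • x) = MonoidAlgebra.of ℤ G g • f x →
      f (MonoidAlgebra.of ℤ G g • y) = MonoidAlgebra.of ℤ G g • f y →
      f (MonoidAlgebra.of ℤ G g • (x + y)) = MonoidAlgebra.of ℤ G g • f (x + y) := by
    intro g x y hx hy
    rw [smul_add, map_add, map_add, smul_add, hx, hy]
  have h : ∀ (g : G) (x : DT G M L),
      f (MonoidAlgebra.of ℤ G g • x) = MonoidAlgebra.of ℤ G g • f x := by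
    intro g x
    induction x using TensorProduct.induction_on with
    | zero =>
      change f (MonoidAlgebra.of ℤ G g • (0 : DT G M L)) = MonoidAlgebra.of ℤ G g • f 0
      rw [smul_zero, map_zero, smul_zero]
    | tmul m l =>
      change f (MonoidAlgebra.of ℤ G g • dt G m l) = MonoidAlgebra.of ℤ G g • f (dt G m l)
      rw [DT_of_smul, hf, hf, DT_of_smul, map_smul]
    | add x y hx hy => exact hadd g x y hx hy
  exact ⟨LinearEquiv.ofBijective (dtc_mk f h) t.bijective⟩

/-- A submodule of a finitely generated free `ℤ`-module. -/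
private lemma dtc_free {L : Type} [AddCommGroup L] [Module (ZG G) L] [Module.Finite ℤ L]
    [Module.Free ℤ L] (N : Submodule (ZG G) L) : Module.Finite ℤ N ∧ Module.Free ℤ N := by
  let f : N →ₗ[ℤ] L := N.subtype.toAddMonoidHom.toIntLinearMap
  have hf : Function.Injective f := Subtype.val_injective
  have h1 : Module.Finite ℤ N := Module.Finite.of_injective f hf
  have h2 : Module.IsTorsionFree ℤ N :=
    Function.Injective.moduleIsTorsionFree f hf (fun r m => map_smul f r m)
  exact ⟨h1, Module.free_of_finite_type_torsion_free'⟩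

/-- The quotient is a finite `p`-group. -/
private lemma dtc_fin {L : Type} [AddCommGroup L] [Module (ZG G) L] [Module.Finite ℤ L]
    (N : Submodule (ZG G) L) (p a : ℕ) (hp : p.Prime) (ha : ∀ x : L, (p ^ a : ℤ) • x ∈ N) :
    Finite (L ⧸ N) ∧ ∃ m, Nat.card (L ⧸ N) = p ^ m := by
  let f : L →ₗ[ℤ] (L ⧸ N) := N.mkQ.toAddMonoidHom.toIntLinearMap
  have hf : Function.Surjective f := N.mkQ_surjective
  have h1 : Module.Finite ℤ (L ⧸ N) := Module.Finite.of_surjective f hf
  have hk : ∀ x : L ⧸ N, (p ^ a : ℕ) • x = 0 := by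
    intro x
    obtain ⟨y, rfl⟩ := hf x
    rw [← map_nsmul]
    change N.mkQ ((p ^ a : ℕ) • y) = 0
    rw [Submodule.mkQ_apply, Submodule.Quotient.mk_eq_zero]
    have := ha y
    rw [← natCast_zsmul]
    push_cast
    exact this
  have hfin : Finite (L ⧸ N) := by
    refine Module.finite_of_fg_torsion _ ?_
    intro x
    refine ⟨⟨(p ^ a : ℤ), mem_nonZeroDivisors_of_ne_zero (pow_ne_zero _ ?_)⟩, ?_⟩
    · exact_mod_cast hp.ne_zero
    · change (p ^ a : ℤ) • x = 0
      have := hk x
      rw [← natCast_zsmul] at this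
      push_cast at this
      exact this
  refine ⟨hfin, ?_⟩
  have : Fact p.Prime := ⟨hp⟩
  have hpg : IsPGroup p (Multiplicative (L ⧸ N)) := by
    intro x
    exact ⟨a, congrArg Multiplicative.ofAdd (hk x.toAdd)⟩
  obtain ⟨m, hm⟩ := IsPGroup.iff_card.1 hpg
  exact ⟨m, by rw [← hm]; exact Nat.card_congr Multiplicative.ofAdd⟩

end

/-- The chain. -/
private lemma dtc_main (hDTstep : S_DTstep) (hFix : S_Fix) (hDTfp : S_DTfp)
    (G : Type) [CommGroup G] [Finite G] (M L : Type) [AddCommGroup M] [Module (ZG G) M]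
    [Module.Finite (ZG G) M] [Module.Projective (ZG G) M] [AddCommGroup L] [Module (ZG G) L]
    [Module.Finite ℤ L] [Module.Free ℤ L]
    [Module.Finite (ZG G) (DT G M L)] [Module.Projective (ZG G) (DT G M L)] (p k a : ℕ)
    (hp : p.Prime) (hg : ∀ (g : G) (x : L), MonoidAlgebra.of ℤ G (g ^ p ^ k) • x = x) (n : ℕ) :
    ∀ (N : Submodule (ZG G) L) (_ : ∀ x : L, (p ^ a : ℤ) • x ∈ N) (_ : Nat.card (L ⧸ N) = n)
      [Module.Finite (ZG G) (DT G M N)] [Module.Projective (ZG G) (DT G M N)],
      cl (ZG G) (DT G M L) = cl (ZG G) (DT G M N) := by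
  induction n using Nat.strong_induction_on with
  | _ n ih =>
    intro N ha hn _ _
    obtain ⟨hfin, m, hm⟩ := dtc_fin N p a hp ha
    by_cases hT : Subsingleton (L ⧸ N)
    · have hN : N = ⊤ := by
        rw [eq_top_iff]
        intro x _
        exact (Submodule.Quotient.mk_eq_zero N).1 (Subsingleton.elim _ _)
      subst hN
      obtain ⟨e⟩ := dtc_congr M L (⊤ : Submodule (ZG G) L) Submodule.topEquiv.symm
      exact cl_congr e
    · have : Nontrivial (L ⧸ N) := not_subsingleton_iff_nontrivial.1 hT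
      have hgT : ∀ (g : G) (t : L ⧸ N), MonoidAlgebra.of ℤ G (g ^ p ^ k) • t = t := by
        intro g t
        obtain ⟨y, rfl⟩ := N.mkQ_surjective t
        rw [← map_smul, hg]
      obtain ⟨t, ht0, hpt, hgt⟩ := hFix G (L ⧸ N) p k m hp hm hgT
      have : Fact p.Prime := ⟨hp⟩
      -- the copy of `𝔽_p`
      let θ0 : ZMod p →+ (L ⧸ N) := ZMod.lift p ⟨(zmultiplesHom (L ⧸ N)) t, by
        rw [zmultiplesHom_apply]
        exact hpt⟩
      have hθ0 : ∀ z : ℤ, θ0 (z : ZMod p) = z • t := by
        intro z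
        rw [ZMod.lift_coe]
        rfl
      have hinj0 : Function.Injective θ0 := by
        rw [injective_iff_map_eq_zero]
        intro c hc
        obtain ⟨z, rfl⟩ := ZMod.intCast_surjective c
        rw [hθ0] at hc
        rw [ZMod.intCast_zmod_eq_zero_iff_dvd]
        by_contra hnd
        have hcop : IsCoprime (p : ℤ) z :=
          (Nat.prime_iff_prime_int.1 hp).coprime_iff_not_dvd.2 hnd
        obtain ⟨u, v, huv⟩ := hcop
        apply ht0
        have : (u * p + v * z) • t = 0 := by
          rw [add_smul, mul_smul, mul_smul, hpt, hc, smul_zero, smul_zero, add_zero]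
        rw [huv, one_smul] at this
        exact this
      let θ1 : Tv G (ZMod p) →+ (L ⧸ N) := θ0
      have hθ1 : ∀ (g : G) (x : Tv G (ZMod p)),
          θ1 (MonoidAlgebra.of ℤ G g • x) = MonoidAlgebra.of ℤ G g • θ1 x := by
        intro g x
        rw [Tv_of_smul]
        obtain ⟨z, hz⟩ := ZMod.intCast_surjective (show ZMod p from x)
        have hx : θ1 x = z • t := by
          rw [← hθ0, hz]
          rfl
        rw [hx, smul_comm, hgt]
      let θ : Tv G (ZMod p) →ₗ[ZG G] (L ⧸ N) := dtc_mk θ1 hθ1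
      have hθinj : Function.Injective θ := hinj0
      let N1 : Submodule (ZG G) L := (LinearMap.range θ).comap N.mkQ
      have hNN1 : N ≤ N1 := by
        intro x hx
        have h0 : N.mkQ x = 0 := by
          rw [Submodule.mkQ_apply, Submodule.Quotient.mk_eq_zero]
          exact hx
        change N.mkQ x ∈ LinearMap.range θ
        rw [h0]
        exact zero_mem _
      have ha1 : ∀ x : L, (p ^ a : ℤ) • x ∈ N1 := fun x => hNN1 (ha x)
      obtain ⟨hfin1, -⟩ := dtc_fin N1 p a hp ha1
      obtain ⟨y, hy⟩ := N.mkQ_surjective t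
      have hyN1 : y ∈ N1 := by
        change N.mkQ y ∈ LinearMap.range θ
        refine ⟨((1 : ℤ) : ZMod p), ?_⟩
        rw [hy]
        change θ0 ((1 : ℤ) : ZMod p) = t
        rw [hθ0, one_smul]
      have hyN : y ∉ N := by
        intro hyN
        apply ht0
        rw [← hy, Submodule.mkQ_apply, Submodule.Quotient.mk_eq_zero]
        exact hyN
      have hlt : Nat.card (L ⧸ N1) < n := by
        rw [← hn]
        cases nonempty_fintype (L ⧸ N)
        cases nonempty_fintype (L ⧸ N1)
        rw [Nat.card_eq_fintype_card, Nat.card_eq_fintype_card]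
        refine Fintype.card_lt_of_surjective_not_injective (Submodule.factor hNN1)
          (Submodule.factor_surjective hNN1) ?_
        intro hin
        have h1 : Submodule.factor hNN1 (N.mkQ y) = Submodule.factor hNN1 (N.mkQ 0) := by
          rw [map_zero, map_zero]
          exact (Submodule.Quotient.mk_eq_zero N1).2 hyN1
        have h2 := hin h1
        rw [hy, map_zero] at h2
        exact ht0 h2
      obtain ⟨hF1, hFr1⟩ := dtc_free N1
      obtain ⟨hfp1, hpp1⟩ := hDTfp G M N1
      rw [ih _ hlt N1 ha1 rfl]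
      refine hDTstep G M N1 N p hp ?_
      let π : N1 →ₗ[ZG G] Tv G (ZMod p) :=
        (LinearEquiv.ofInjective θ hθinj).symm.toLinearMap ∘ₗ
          (N.mkQ.restrict (p := N1) (q := LinearMap.range θ) (fun x hx => hx))
      have hπ : ∀ x : N1, θ (π x) = N.mkQ x := by
        intro x
        have := congrArg Subtype.val ((LinearEquiv.ofInjective θ hθinj).apply_symm_apply
          (N.mkQ.restrict (p := N1) (q := LinearMap.range θ) (fun x hx => hx) x))
        exact this
      refine ⟨Submodule.inclusion hNN1, π, Submodule.inclusion_injective hNN1, ?_, ?_⟩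
      · intro c
        obtain ⟨x, hx⟩ := N.mkQ_surjective (θ c)
        have hxN1 : x ∈ N1 := ⟨c, hx.symm⟩
        refine ⟨⟨x, hxN1⟩, hθinj ?_⟩
        rw [hπ]
        exact hx
      · intro x
        have h1 : π x = 0 ↔ (x : L) ∈ N := by
          rw [← hθinj.eq_iff, hπ, map_zero, Submodule.mkQ_apply, Submodule.Quotient.mk_eq_zero]
        rw [h1]
        constructor
        · intro hx
          exact ⟨⟨x, hx⟩, rfl⟩
        · rintro ⟨z, rfl⟩
          exact z.2

theorem sDTchain (hDTstep : S_DTstep) (hFix : S_Fix) (hDTfp : S_DTfp) : S_DTchain := by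
  intro G _ _ M L L' _ _ _ _ _ _ _ _ _ _ _ _ _ _ p k a hp hg i hi ha
  obtain ⟨e⟩ := dtc_congr M L' (LinearMap.range i) (LinearEquiv.ofInjective i hi)
  obtain ⟨hF, hFr⟩ := dtc_free (LinearMap.range i)
  obtain ⟨hfp, hpp⟩ := hDTfp G M (LinearMap.range i)
  rw [cl_congr e]
  exact dtc_main hDTstep hFix hDTfp G M L p k a hp hg _ (LinearMap.range i)
    (fun x => ha x) rfl

end HEp
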