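import Pool.Agent.Lib.MP_181146_gt.HE.SpecG

/-! # Project HE: DTex, exactness of the tensor product with the diagonal action. -/

set_option autoImplicit false

namespace HEp

open HSp (Res)
open scoped TensorProduct

/-- An additive map which commutes with the group elements is linear over the group ring. -/
private noncomputable def dtxLin {G A B : Type} [CommGroup G] [AddCommGroup A] [Module (ZG G) A]
    [AddCommGroup B] [Module (ZG G) B] (f : A →+ B)
    (hf : ∀ (g : G) (x : A), f (MonoidAlgebra.of ℤ G g • x) = MonoidAlgebra.of ℤ G g • f x) :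
    A →ₗ[ZG G] B where
  toFun := f
  map_add' := f.map_add
  map_smul' := by
    intro a x
    change f (a • x) = a • f x
    induction a using MonoidAlgebra.induction_on with
    | of g => exact hf g x
    | add a b ha hb => rw [add_smul, add_smul, map_add, ha, hb]
    | smul r a ha => rw [smul_assoc, smul_assoc, map_zsmul, ha]

private theorem dtx_ext {M L : Type} [AddCommGroup M] [AddCommGroup L] {B : Type} [AddCommGroup B]
    (f f' : (M ⊗[ℤ] L) →+ B) (h : ∀ (m : M) (l : L), f (m ⊗ₜ l) = f' (m ⊗ₜ l)) : f = f' := by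
  apply AddMonoidHom.ext
  intro x
  induction x using TensorProduct.induction_on with
  | zero => rw [map_zero, map_zero]
  | tmul m l => exact h m l
  | add x y hx hy => rw [map_add, map_add, hx, hy]

/-- The map induced on the tensor products. -/
private noncomputable def dtxMap (G M : Type) {L L' : Type} [CommGroup G] [AddCommGroup M]
    [Module (ZG G) M] [AddCommGroup L] [Module (ZG G) L] [AddCommGroup L'] [Module (ZG G) L']
    (u : L →ₗ[ZG G] L') : DT G M L →ₗ[ZG G] DT G M L' :=
  dtxLin (A := DT G M L) (B := DT G M L')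
    ((LinearMap.lTensor M (u.toAddMonoidHom.toIntLinearMap)).toAddMonoidHom :
      M ⊗[ℤ] L →+ M ⊗[ℤ] L') (by
    intro g
    have h := dtx_ext (M := M) (L := L) (B := DT G M L')
      (((LinearMap.lTensor M (u.toAddMonoidHom.toIntLinearMap)).toAddMonoidHom :
        M ⊗[ℤ] L →+ M ⊗[ℤ] L').comp (DistribSMul.toAddMonoidHom (DT G M L) (MonoidAlgebra.of ℤ G g)))
      ((DistribSMul.toAddMonoidHom (DT G M L') (MonoidAlgebra.of ℤ G g)).comp
        ((LinearMap.lTensor M (u.toAddMonoidHom.toIntLinearMap)).toAddMonoidHom :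
          M ⊗[ℤ] L →+ M ⊗[ℤ] L')) (by
      intro m l
      change (LinearMap.lTensor M (u.toAddMonoidHom.toIntLinearMap))
          (MonoidAlgebra.of ℤ G g • dt G m l) =
        MonoidAlgebra.of ℤ G g • dt G m (u l)
      rw [DT_of_smul, DT_of_smul]
      change (MonoidAlgebra.of ℤ G g • m) ⊗ₜ[ℤ] (u (MonoidAlgebra.of ℤ G g • l)) = _
      rw [u.map_smul]
      rfl)
    intro x
    exact DFunLike.congr_fun h x)

private theorem dtx_flat (G M : Type) [CommGroup G] [AddCommGroup M] [Module (ZG G) M]
    [Module.Projective (ZG G) M] : Module.Flat ℤ M := by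
  exact Module.Flat.trans ℤ (ZG G) M

theorem sDTex : S_DTex := by
  intro G _ _ M _ _ _ _
  have hfl : Module.Flat ℤ M := dtx_flat G M
  constructor
  · intro T L L' _ _ _ _ _ _ hR
    obtain ⟨i, q, hi, hq, hex⟩ := hR
    refine ⟨dtxMap G M i, dtxMap G M q, ?_, ?_, ?_⟩
    · exact Module.Flat.lTensor_preserves_injective_linearMap
        (i.toAddMonoidHom.toIntLinearMap) hi
    · exact LinearMap.lTensor_surjective M (g := q.toAddMonoidHom.toIntLinearMap) hq
    · intro x
      have h := lTensor_exact M (f := i.toAddMonoidHom.toIntLinearMap)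
        (g := q.toAddMonoidHom.toIntLinearMap) (fun y => hex y) hq
      exact h x
  · intro p hp
    have : NeZero p := ⟨hp.ne'⟩
    have hcast : ∀ a : ZMod p, ∃ n : ℤ, (n : ZMod p) = a := ZMod.intCast_surjective
    have ht : ∀ (m : M) (n : ℤ) (a : ZMod p),
        (n • m) ⊗ₜ[ℤ] a = m ⊗ₜ[ℤ] ((n : ZMod p) * a) := by
      intro m n a
      rw [TensorProduct.smul_tmul, zsmul_eq_mul]
    refine ⟨dtxLin (A := M) (B := M) (zsmulAddGroupHom (p : ℤ)) ?_,
      dtxLin (A := M) (B := DT G M (Tv G (ZMod p)))
        (((TensorProduct.mk ℤ M (ZMod p)).flip 1).toAddMonoidHom : M →+ M ⊗[ℤ] ZMod p) ?_,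
      ?_, ?_, ?_⟩
    · intro g x
      exact smul_comm (p : ℤ) (MonoidAlgebra.of ℤ G g) x
    · intro g x
      exact ((DT_of_smul G M (Tv G (ZMod p)) g x (show Tv G (ZMod p) from (1 : ZMod p))).trans
        (congrArg (dt G (MonoidAlgebra.of ℤ G g • x)) (Tv_of_smul G (ZMod p) g _))).symm
    · intro x y hxy
      change (p : ℤ) • x = (p : ℤ) • y at hxy
      have htf : Module.IsTorsionFree ℤ M := inferInstance
      have hp' : (p : ℤ) ≠ 0 := by exact_mod_cast hp.ne'
      exact smul_right_injective M hp' hxy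
    · intro x
      change M ⊗[ℤ] ZMod p at x
      induction x using TensorProduct.induction_on with
      | zero => exact ⟨0, map_zero _⟩
      | tmul m a =>
        obtain ⟨n, rfl⟩ := hcast a
        refine ⟨n • m, ?_⟩
        change (n • m) ⊗ₜ[ℤ] (1 : ZMod p) = m ⊗ₜ[ℤ] (n : ZMod p)
        rw [ht, mul_one]
      | add x y hx hy =>
        obtain ⟨a, ha⟩ := hx
        obtain ⟨b, hb⟩ := hy
        exact ⟨a + b, by rw [map_add, ha, hb]; rfl⟩
    · intro x
      change x ⊗ₜ[ℤ] (1 : ZMod p) = 0 ↔ ∃ y : M, (p : ℤ) • y = x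
      constructor
      · intro hx
        have h := lTensor_exact M (f := LinearMap.mulLeft ℤ (p : ℤ))
          (g := (Int.castAddHom (ZMod p)).toIntLinearMap) (by
            intro z
            change ((z : ℤ) : ZMod p) = 0 ↔ _
            rw [ZMod.intCast_zmod_eq_zero_iff_dvd]
            constructor
            · rintro ⟨c, rfl⟩
              exact ⟨c, rfl⟩
            · rintro ⟨c, hc⟩
              exact ⟨c, hc.symm⟩) (ZMod.intCast_surjective)
        have h1 : LinearMap.lTensor M (Int.castAddHom (ZMod p)).toIntLinearMap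
            (x ⊗ₜ[ℤ] (1 : ℤ)) = 0 := by
          rw [LinearMap.lTensor_tmul]
          change x ⊗ₜ[ℤ] ((1 : ℤ) : ZMod p) = 0
          rw [Int.cast_one, hx]
        obtain ⟨y, hy⟩ := (h _).1 h1
        refine ⟨TensorProduct.rid ℤ M y, ?_⟩
        have h2 : ∀ z : M ⊗[ℤ] ℤ, TensorProduct.rid ℤ M (LinearMap.lTensor M
            (LinearMap.mulLeft ℤ (p : ℤ)) z) = (p : ℤ) • TensorProduct.rid ℤ M z := by
          intro z
          induction z using TensorProduct.induction_on with
          | zero => simp
          | tmul m a => simp [mul_smul]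
          | add a b ha hb => rw [map_add, map_add, ha, hb, map_add, smul_add]
        rw [← h2, hy, TensorProduct.rid_tmul, one_smul]
      · rintro ⟨y, rfl⟩
        rw [ht]
        simp

end HEp
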