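import Pool.Agent.Lib.MP_181146_gt.HE.SpecG

set_option autoImplicit false

namespace HEp

open scoped TensorProduct

namespace DTfpAux

variable {G : Type} [CommGroup G]

lemma eq_sum [Fintype G] (a : ZG G) : a = ∑ g : G, a.coeff g • MonoidAlgebra.of ℤ G g := by
  classical
  induction a using MonoidAlgebra.induction_on with
  | of h =>
    rw [Finset.sum_eq_single h]
    · simp [MonoidAlgebra.of_apply]
    · intro b _ hb
      have : (MonoidAlgebra.of ℤ G h).coeff b = 0 := by
        rw [MonoidAlgebra.of_apply]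
        simp [hb.symm]
      rw [this, zero_smul]
    · intro hh
      exact absurd (Finset.mem_univ _) hh
  | add x y hx hy =>
    conv_lhs => rw [hx, hy]
    rw [← Finset.sum_add_distrib]
    refine Finset.sum_congr rfl fun g _ => ?_
    rw [← add_smul]
    rfl
  | smul r x hx =>
    conv_lhs => rw [hx]
    rw [Finset.smul_sum]
    refine Finset.sum_congr rfl fun g _ => ?_
    rw [smul_smul]
    rfl

/-- The identity of a projective module is the average of an additive map. -/
lemma exists_phi [Fintype G] (M : Type) [AddCommGroup M] [Module (ZG G) M]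
    [Module.Projective (ZG G) M] : ∃ φ : M →+ M, ∀ m : M,
      ∑ g : G, MonoidAlgebra.of ℤ G g • φ (MonoidAlgebra.of ℤ G g⁻¹ • m) = m := by
  obtain ⟨s, hs⟩ := (Module.projective_def' (R := ZG G) (P := M)).1 inferInstance
  let π : ZG G →+ ℤ :=
    { toFun := fun a => a.coeff 1
      map_zero' := rfl
      map_add' := fun _ _ => rfl }
  let Φ : (M →₀ ZG G) →+ M :=
    Finsupp.liftAddHom fun m' => ((smulAddHom ℤ M).flip m').comp π
  have key : ∀ f : M →₀ ZG G, ∑ g : G, MonoidAlgebra.of ℤ G g •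
      Φ (MonoidAlgebra.of ℤ G g⁻¹ • f) = Finsupp.linearCombination (ZG G) id f := by
    intro f
    induction f using Finsupp.induction_linear with
    | zero => simp
    | add f f' hf hf' =>
      rw [map_add, ← hf, ← hf', ← Finset.sum_add_distrib]
      refine Finset.sum_congr rfl fun g _ => ?_
      rw [smul_add, map_add, smul_add]
    | single m' a =>
      have h1 : ∀ g : G, Φ (MonoidAlgebra.of ℤ G g⁻¹ • Finsupp.single m' a) =
          a.coeff g • m' := by
        intro g
        rw [Finsupp.smul_single]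
        have h2 : Φ (Finsupp.single m' (MonoidAlgebra.of ℤ G g⁻¹ • a)) =
            (MonoidAlgebra.of ℤ G g⁻¹ • a).coeff 1 • m' := by
          change Finsupp.liftAddHom (fun m' => ((smulAddHom ℤ M).flip m').comp π) _ = _
          rw [Finsupp.liftAddHom_apply_single]
          rfl
        rw [h2, smul_eq_mul, MonoidAlgebra.of_apply, MonoidAlgebra.coeff_single_mul_apply]
        simp
      simp only [h1]
      rw [Finsupp.linearCombination_single, id]
      conv_rhs => rw [eq_sum a, Finset.sum_smul]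
      refine Finset.sum_congr rfl fun g _ => ?_
      rw [smul_assoc, smul_comm]
  refine ⟨Φ.comp s.toAddMonoidHom, fun m => ?_⟩
  have h3 : ∀ g : G, (Φ.comp s.toAddMonoidHom) (MonoidAlgebra.of ℤ G g⁻¹ • m) =
      Φ (MonoidAlgebra.of ℤ G g⁻¹ • s m) := by
    intro g
    change Φ (s (MonoidAlgebra.of ℤ G g⁻¹ • m)) = _
    rw [map_smul]
  simp only [h3]
  rw [key]
  exact LinearMap.congr_fun hs m

/-- A module which is finitely generated projective over the integers and whose identity is an
average is finitely generated projective. -/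
lemma fp_of_phi [Fintype G] (N : Type) [AddCommGroup N] [Module (ZG G) N] [Module.Finite ℤ N]
    [Module.Projective ℤ N] (φ : N →+ N)
    (hφ : ∀ n : N, ∑ g : G, MonoidAlgebra.of ℤ G g • φ (MonoidAlgebra.of ℤ G g⁻¹ • n) = n) :
    Module.Finite (ZG G) N ∧ Module.Projective (ZG G) N := by
  refine ⟨Module.Finite.of_restrictScalars_finite ℤ (ZG G) N, ?_⟩
  let α : (ZG G) ⊗[ℤ] N →ₗ[ZG G] N := LinearMap.liftBaseChange (ZG G) (LinearMap.id : N →ₗ[ℤ] N)
  let β₀ : N →+ (ZG G) ⊗[ℤ] N :=
    { toFun := fun n => ∑ g : G, MonoidAlgebra.of ℤ G g ⊗ₜ[ℤ] φ (MonoidAlgebra.of ℤ G g⁻¹ • n)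
      map_zero' := by simp
      map_add' := fun n n' => by
        rw [← Finset.sum_add_distrib]
        refine Finset.sum_congr rfl fun g _ => ?_
        rw [smul_add, map_add, TensorProduct.tmul_add] }
  have hβ : ∀ (a : ZG G) (n : N), β₀ (a • n) = a • β₀ n := by
    intro a n
    induction a using MonoidAlgebra.induction_on with
    | of h =>
      change ∑ g : G, MonoidAlgebra.of ℤ G g ⊗ₜ[ℤ]
          φ (MonoidAlgebra.of ℤ G g⁻¹ • MonoidAlgebra.of ℤ G h • n) =
        MonoidAlgebra.of ℤ G h • ∑ g : G, MonoidAlgebra.of ℤ G g ⊗ₜ[ℤ]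
          φ (MonoidAlgebra.of ℤ G g⁻¹ • n)
      rw [Finset.smul_sum]
      refine (Fintype.sum_equiv (Equiv.mulLeft h) _ _ fun g => ?_).symm
      rw [TensorProduct.smul_tmul', smul_eq_mul, ← map_mul, smul_smul, ← map_mul]
      simp
    | add x y hx hy => rw [add_smul, map_add, hx, hy, add_smul]
    | smul r x hx => rw [smul_assoc, map_zsmul, hx, smul_assoc]
  let β : N →ₗ[ZG G] (ZG G) ⊗[ℤ] N :=
    { toFun := β₀
      map_add' := map_add β₀
      map_smul' := hβ }
  refine Module.Projective.of_split β α ?_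
  refine LinearMap.ext fun n => ?_
  change α (∑ g : G, MonoidAlgebra.of ℤ G g ⊗ₜ[ℤ] φ (MonoidAlgebra.of ℤ G g⁻¹ • n)) = n
  rw [map_sum]
  conv_rhs => rw [← hφ n]
  refine Finset.sum_congr rfl fun g _ => ?_
  change (LinearMap.liftBaseChange (ZG G) (LinearMap.id : N →ₗ[ℤ] N))
    (MonoidAlgebra.of ℤ G g ⊗ₜ[ℤ] φ (MonoidAlgebra.of ℤ G g⁻¹ • n)) = _
  rw [LinearMap.liftBaseChange_tmul]
  rfl

lemma dt_ind {M L : Type} [AddCommGroup M] [AddCommGroup L] {P : DT G M L → Prop} (h0 : P 0)
    (ht : ∀ m l, P (dt G m l)) (ha : ∀ x y, P x → P y → P (x + y)) (x : DT G M L) : P x :=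
  TensorProduct.induction_on (motive := fun z : M ⊗[ℤ] L => P z) x h0 ht ha

end DTfpAux

open HEp.DTfpAux in
/-- `DT G M L` is finitely generated projective. -/
theorem sDTfp : S_DTfp := by
  intro G _ _ M L _ _ _ _ _ _ _ _
  have := Fintype.ofFinite G
  obtain ⟨φ, hφ⟩ := exists_phi (G := G) M
  have hfree : Module.Free ℤ (ZG G) := Module.Free.of_basis (MonoidAlgebra.basis G ℤ)
  have hfin : Module.Finite ℤ (ZG G) := Module.Finite.of_basis (MonoidAlgebra.basis G ℤ)
  have hMfin : Module.Finite ℤ M := Module.Finite.trans (ZG G) M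
  have hMproj : Module.Projective ℤ M := by
    obtain ⟨n, f, s, _, _, hs⟩ := Module.Finite.exists_comp_eq_id_of_projective (ZG G) M
    refine Module.Projective.of_split (s.restrictScalars ℤ) (f.restrictScalars ℤ) ?_
    exact LinearMap.ext fun x => LinearMap.congr_fun hs x
  have h0 : (TensorProduct.leftModule : Module ℤ (M ⊗[ℤ] L)) =
    AddCommGroup.toIntModule (M ⊗[ℤ] L) := Subsingleton.elim _ _
  have h1 : @Module.Finite ℤ (M ⊗[ℤ] L) _ _ TensorProduct.leftModule :=
    Module.Finite.tensorProduct ℤ M L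
  have h2 : @Module.Projective ℤ _ (M ⊗[ℤ] L) _ TensorProduct.leftModule :=
    Module.Projective.tensorProduct
  rw [h0] at h1 h2
  have h3 : Module.Finite ℤ (DT G M L) := h1
  have h4 : Module.Projective ℤ (DT G M L) := h2
  let Φ : DT G M L →+ DT G M L :=
    (TensorProduct.map φ.toIntLinearMap (LinearMap.id : L →ₗ[ℤ] L)).toAddMonoidHom
  have hΦ : ∀ (m : M) (l : L), Φ (dt G m l) = dt G (φ m) l := fun m l => rfl
  refine fp_of_phi (DT G M L) Φ fun x => ?_
  refine dt_ind (P := fun x => ∑ g : G, MonoidAlgebra.of ℤ G g •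
    Φ (MonoidAlgebra.of ℤ G g⁻¹ • x) = x) ?_ ?_ ?_ x
  · simp
  · intro m l
    have h5 : ∀ g : G, MonoidAlgebra.of ℤ G g • Φ (MonoidAlgebra.of ℤ G g⁻¹ • dt G m l) =
        dt G (MonoidAlgebra.of ℤ G g • φ (MonoidAlgebra.of ℤ G g⁻¹ • m)) l := by
      intro g
      rw [DT_of_smul, hΦ, DT_of_smul, smul_smul, ← map_mul, mul_inv_cancel, map_one, one_smul]
    simp only [h5]
    have h6 : ∀ f : G → M, ∑ g : G, dt G (f g) l = dt G (∑ g : G, f g) l := by
      intro f
      exact (TensorProduct.sum_tmul Finset.univ f l).symm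
    rw [h6, hφ]
  · intro x y hx hy
    conv_rhs => rw [← hx, ← hy]
    rw [← Finset.sum_add_distrib]
    refine Finset.sum_congr rfl fun g _ => ?_
    rw [smul_add, map_add, smul_add]

end HEp
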