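import Pool.Agent.Lib.MP_181146_gt.HE.SpecG

/-!
# Project HE: one step, `cl (M ⊗ L) = cl (M ⊗ L')` if `L / L'` is trivial of order `p`
-/

set_option autoImplicit false

namespace HEp

theorem sDTstep (hDTex : S_DTex) (hKSch : S_KSch) : S_DTstep := by
  intro G _ _ M L L' _ _ _ _ _ _ _ _ _ _ _ _ p hp hres
  obtain ⟨h1, h2⟩ := hDTex G M
  have r1 := h1 (Tv G (ZMod p)) L L' hres
  have r2 := h2 p hp.pos
  have h := hKSch (ZG G) (DT G M (Tv G (ZMod p))) (DT G M L) (DT G M L') M M r1 r2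
  rw [add_comm] at h
  exact add_left_cancel h

end HEp
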