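import Pool.Agent.Lib.MP_181146_gt.HE.SpecG

/-!
# Project HE: a subgroup `B` with `Z = B + p Z` for all primes `p`
-/

set_option autoImplicit false

namespace HEp

private lemma exists_prime_mem (I : Ideal ℤ) (hI : I.IsMaximal) :
    ∃ p : ℕ, p.Prime ∧ (p : ℤ) ∈ I := by
  have hne : I ≠ ⊥ := by
    rintro rfl
    exact Int.not_isField ((Ring.isField_iff_maximal_bot).2 hI)
  have hp : I.IsPrime := hI.isPrime
  obtain ⟨n, rfl⟩ := (IsPrincipalIdealRing.principal I).principal
  have hn0 : n ≠ 0 := by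
    rintro rfl
    exact hne (by simp)
  have hn : Prime n := (Ideal.span_singleton_prime hn0).1 hp
  refine ⟨n.natAbs, Int.prime_iff_natAbs_prime.1 hn, ?_⟩
  rw [Ideal.submodule_span_eq, Ideal.mem_span_singleton]
  exact Int.dvd_natAbs.2 dvd_rfl

theorem sDiv : S_Div := by
  intro Z _ _ B h
  by_contra hB
  have hB' : AddSubgroup.toIntSubmodule B ≠ ⊤ := by
    intro h1
    apply hB
    rw [eq_top_iff]
    intro x _
    have : x ∈ AddSubgroup.toIntSubmodule B := by
      rw [h1]
      trivial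
    exact this
  obtain ⟨N, hN, hBN⟩ := (eq_top_or_exists_le_coatom (AddSubgroup.toIntSubmodule B)).resolve_left hB'
  have hs : IsSimpleModule ℤ (Z ⧸ N) := isSimpleModule_iff_isCoatom.2 hN
  obtain ⟨I, hI, ⟨e⟩⟩ := isSimpleModule_iff_quot_maximal.1 hs
  obtain ⟨p, hp, hpI⟩ := exists_prime_mem I hI
  have hpN : ∀ w : Z, (p : ℤ) • w ∈ N := by
    intro w
    rw [← Submodule.Quotient.mk_eq_zero]
    apply e.injective
    rw [Submodule.Quotient.mk_smul, map_smul, map_zero]
    obtain ⟨y, hy⟩ := Ideal.Quotient.mk_surjective (e (Submodule.Quotient.mk w))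
    rw [← hy, zsmul_eq_mul]
    have : ((p : ℤ) : ℤ ⧸ I) = 0 := by
      have := Ideal.Quotient.eq_zero_iff_mem.2 hpI
      simpa using this
    rw [this, zero_mul]
  apply hN.1
  rw [eq_top_iff]
  intro z _
  obtain ⟨b, hb, w, rfl⟩ := h p hp z
  exact N.add_mem (hBN hb) (hpN w)

end HEp
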