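import Pool.Agent.Lib.MP_181146_gt.HE.SpecG

/-!
# Project HE, Dual: the class of the dual of a finitely generated projective module is the negative
of its class
-/

set_option autoImplicit false

namespace HEp

/-- **Dual.** -/
theorem sDual (hDChain : S_DChain) (hDEmb : S_DEmb) (hDFr : S_DFr) (hDFp : S_DFp) : S_Dual := by
  intro G _ _ M _ _ _ _ _ _
  have hG : 0 < Nat.card G := Nat.card_pos
  obtain ⟨m, T, _, _, hT, hco, hres⟩ := hDEmb G M (2 * Nat.card G) (by omega)
  obtain ⟨hf, hp⟩ := hDFp G (Fin m → ZG G)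
  obtain ⟨e⟩ := hDFr G m
  have h := hDChain G (Fin m → ZG G) M T hT (Nat.Coprime.coprime_mul_left_right hco) hres
  rw [cl_congr e, cl_free, add_zero] at h
  exact (neg_eq_of_add_eq_zero_right h.symm).symm

end HEp
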