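import Pool.Agent.Lib.MP_181146_gt.HE.SpecG

/-!
# Project HE: the Euler class of a complex indexed by `ℕ` (ECN)
-/

set_option autoImplicit false

namespace HEp

private lemma ecn_sum {R : Type} [CommRing R] (P : ℕ → Type) [∀ i, AddCommGroup (P i)]
    [∀ i, Module R (P i)] (fi : ∀ i, Module.Finite R (P i)) (pr : ∀ i, Module.Projective R (P i))
    (d : ∀ i j : ℕ, P i →ₗ[R] P j) (shape : ∀ i j : ℕ, j + 1 ≠ i → d i j = 0)
    (dd : ∀ (i j k : ℕ) (x : P i), d j k (d i j x) = 0) (N : ℕ)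
    (bdd : ∀ i : ℕ, N < i → Subsingleton (P i)) :
    (ofNat P fi pr d shape dd N bdd).EC =
      ∑ i ∈ Finset.range (N + 1), ((-1 : ℤ) ^ i) • (@cl R _ (P i) _ _ (fi i) (pr i)) := by
  classical
  unfold ZCx.EC
  have hinj : ∀ a ∈ Finset.range (N + 1), ∀ b ∈ Finset.range (N + 1),
      ((a : ℕ) : ℤ) = ((b : ℕ) : ℤ) → a = b := fun a _ b _ h => by exact_mod_cast h
  have hsub : (Finset.range (N + 1)).image (fun a : ℕ => (a : ℤ)) ⊆
      Finset.Icc (-((ofNat P fi pr d shape dd N bdd).N : ℤ)) (ofNat P fi pr d shape dd N bdd).N := by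
    intro x hx
    obtain ⟨a, ha, rfl⟩ := Finset.mem_image.1 hx
    have ha' := Finset.mem_range.1 ha
    change ((a : ℕ) : ℤ) ∈ Finset.Icc (-(N : ℤ)) (N : ℤ)
    rw [Finset.mem_Icc]
    omega
  rw [← Finset.sum_subset hsub, Finset.sum_image hinj]
  · refine Finset.sum_congr rfl fun a _ => ?_
    have h1 : (((a : ℕ) : ℤ).negOnePow : ℤ) = (-1 : ℤ) ^ a := by
      rw [Int.negOnePow_def]
      simp
    rw [h1]
    rfl
  · intro x hx hx'
    rcases x with a | a
    · exfalso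
      apply hx'
      have hx2 : Int.ofNat a ∈ Finset.Icc (-(N : ℤ)) (N : ℤ) := hx
      rw [Finset.mem_Icc] at hx2
      have h3 : (a : ℤ) ≤ N := hx2.2
      exact Finset.mem_image.2 ⟨a, Finset.mem_range.2 (by omega), rfl⟩
    · have h0 : cl R ((ofNat P fi pr d shape dd N bdd).P (Int.negSucc a)) = 0 :=
        cl_subsingleton (R := R) PUnit
      rw [h0, smul_zero]

private lemma ecn_range {A : Type*} [AddCommGroup A] (f : ℕ → A) (K : ℕ) :
    ∑ i ∈ Finset.range (2 * K), ((-1 : ℤ) ^ i) • f i =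
      ∑ j : Fin K, f (2 * j) - ∑ j : Fin K, f (2 * j + 1) := by
  rw [Fin.sum_univ_eq_sum_range (fun j => f (2 * j)) K,
    Fin.sum_univ_eq_sum_range (fun j => f (2 * j + 1)) K]
  induction K with
  | zero => simp
  | succ K ih =>
    have h2 : 2 * (K + 1) = 2 * K + 1 + 1 := by ring
    rw [h2, Finset.sum_range_succ, Finset.sum_range_succ, ih, Finset.sum_range_succ,
      Finset.sum_range_succ]
    have h3 : (-1 : ℤ) ^ (2 * K) = 1 := by rw [pow_mul]; simp
    have h4 : (-1 : ℤ) ^ (2 * K + 1) = -1 := by rw [pow_succ, h3]; ring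
    rw [h3, h4, one_smul, neg_one_smul]
    abel

theorem sECN (hKPi : S_KPi) : S_ECN := by
  intro R _ P _ _ fi pr d shape dd N bdd K hK n h
  haveI := fi
  haveI := pr
  have hs := ecn_sum P fi pr d shape dd N bdd
  let f : ℕ → KT R := fun i => cl R (P i)
  have hz1 : ∀ i, N < i → f i = 0 := fun i hi => by
    haveI := bdd i hi
    exact cl_subsingleton (P i)
  have hz2 : ∀ i, 2 * K ≤ i → f i = 0 := fun i hi => by
    haveI := hK i hi
    exact cl_subsingleton (P i)
  have e1 : ∑ i ∈ Finset.range (N + 1), ((-1 : ℤ) ^ i) • f i =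
      ∑ i ∈ Finset.range (max (N + 1) (2 * K)), ((-1 : ℤ) ^ i) • f i := by
    refine Finset.sum_subset (Finset.range_mono (le_max_left _ _)) fun i _ hi => ?_
    rw [hz1 i (by rw [Finset.mem_range] at hi; omega), smul_zero]
  have e2 : ∑ i ∈ Finset.range (2 * K), ((-1 : ℤ) ^ i) • f i =
      ∑ i ∈ Finset.range (max (N + 1) (2 * K)), ((-1 : ℤ) ^ i) • f i := by
    refine Finset.sum_subset (Finset.range_mono (le_max_right _ _)) fun i _ hi => ?_
    rw [hz2 i (by rw [Finset.mem_range] at hi; omega), smul_zero]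
  have e3 : (ofNat P fi pr d shape dd N bdd).EC =
      ∑ j : Fin K, f (2 * j) - ∑ j : Fin K, f (2 * j + 1) := by
    rw [← ecn_range f K, e2, ← e1]
    exact hs
  rw [e3, smul_sub, sub_eq_zero] at h
  have c1 : cl R (Fin n → ∀ j : Fin K, P (2 * j)) = n • ∑ j : Fin K, f (2 * j) := by
    rw [cl_pi_fin, hKPi R (Fin K) (fun j => P (2 * j))]
  have c2 : cl R (Fin n → ∀ j : Fin K, P (2 * j + 1)) = n • ∑ j : Fin K, f (2 * j + 1) := by
    rw [cl_pi_fin, hKPi R (Fin K) (fun j => P (2 * j + 1))]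
  exact cl_eq_iff.1 ((c1.trans h).trans c2.symm)

end HEp
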