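import Pool.Agent.Lib.MP_181146_gt.HE.SpecS

/-!
# Project HE: existence of the universal elements of the cross product
-/

set_option autoImplicit false

namespace HEp

open scoped TensorProduct

private lemma ez_gr_ind {k : Type} [CommRing k] {K : SS} {n : ℕ} {M : Type} [AddCommGroup M]
    [Module k M] (f : Ch k K →ₗ[k] M) (S : Submodule k M) (h : ∀ x : K.K n, f (sx k x) ∈ S)
    (x : Ch k K) (hx : x ∈ gr k K n) : f x ∈ S := by
  have h1 : gr k K n ≤ S.comap f := by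
    rw [gr, Finsupp.supported_eq_span_single, Submodule.span_le]
    rintro _ ⟨⟨m, y⟩, hm, rfl⟩
    change m = n at hm
    subst hm
    exact h y
  exact h1 hx

private lemma ez_cmap_gr {k : Type} [CommRing k] {K L : SS} (f : SSHom K L) (n : ℕ) (x : Ch k K)
    (hx : x ∈ gr k K n) : cmap k f x ∈ gr k L n := by
  refine ez_gr_ind (cmap k f) (gr k L n) (fun x => ?_) x hx
  rw [cmap_sx]
  exact sx_mem_gr k _

private lemma ez_A_gr (n p q : ℕ) (x : Ch ℤ ((De p).prod (De q)))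
    (hx : x ∈ gr ℤ ((De p).prod (De q)) n) :
    (F1 ℤ).A p q x ∈ gr ℤ ((De (p + 1)).prod (De q)) n := by
  rw [← fA_eq, fA]
  exact Submodule.sum_mem _ fun j _ => Submodule.smul_mem _ _ (ez_cmap_gr _ _ _ hx)

private lemma ez_B_gr (n p q : ℕ) (x : Ch ℤ ((De p).prod (De q)))
    (hx : x ∈ gr ℤ ((De p).prod (De q)) n) :
    (F1 ℤ).B p q x ∈ gr ℤ ((De p).prod (De (q + 1))) n := by
  rw [← fB_eq, fB]
  exact Submodule.sum_mem _ fun j _ => Submodule.smul_mem _ _ (ez_cmap_gr _ _ _ hx)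

private noncomputable def ez_c (p : ℕ) : Ch ℤ ((De p).prod (De 0)) :=
  sx ℤ (K := (De p).prod (De 0)) (n := p)
    ((_root_.id : Fin (p + 1) → Fin (p + 1)), (fun _ => 0 : Fin (p + 1) → Fin 1))

private noncomputable def ez_c' (q : ℕ) : Ch ℤ ((De 0).prod (De q)) :=
  sx ℤ (K := (De 0).prod (De q)) (n := q)
    ((fun _ => 0 : Fin (q + 1) → Fin 1), (_root_.id : Fin (q + 1) → Fin (q + 1)))

private lemma ez_cc' : ez_c 0 = ez_c' 0 := by
  have h : (_root_.id : Fin (0 + 1) → Fin (0 + 1)) = (fun _ => 0 : Fin (0 + 1) → Fin 1) := by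
    funext i
    exact Subsingleton.elim (α := Fin 1) _ _
  unfold ez_c ez_c'
  rw [h]

private lemma ez_dc (p : ℕ) : bd ℤ _ (ez_c (p + 1)) = (F1 ℤ).A p 0 (ez_c p) := by
  rw [← fA_eq]
  refine (bd_sx ℤ (K := (De (p + 1)).prod (De 0)) _).trans ?_
  refine Finset.sum_congr rfl fun j _ => ?_
  exact congrArg _ (cmap_sx ℤ ((Ed.map j.succAbove).prod (SSHom.id (De 0)))
    (show ((De p).prod (De 0)).K p from
      ((_root_.id : Fin (p + 1) → Fin (p + 1)), (fun _ => 0 : Fin (p + 1) → Fin 1)))).symm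

private lemma ez_dc' (q : ℕ) : bd ℤ _ (ez_c' (q + 1)) = (F1 ℤ).B 0 q (ez_c' q) := by
  rw [← fB_eq]
  refine (bd_sx ℤ (K := (De 0).prod (De (q + 1))) _).trans ?_
  refine Finset.sum_congr rfl fun j _ => ?_
  exact congrArg _ (cmap_sx ℤ ((SSHom.id (De 0)).prod (Ed.map j.succAbove))
    (show ((De 0).prod (De q)).K q from
      ((fun _ => 0 : Fin (q + 1) → Fin 1), (_root_.id : Fin (q + 1) → Fin (q + 1))))).symm

theorem sEZex (hAMe : S_AMe) (hFAB : S_FAB) (hCon : S_Con) : S_EZex := by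
  choose C hC using hCon ℤ
  obtain ⟨hAA, hBB, hAB, hAd, hBd, hεA, hεB⟩ := hFAB ℤ (F1 ℤ)
  obtain ⟨e, h1, h2, h3, h4⟩ := hAMe ℤ (fun p q => Ch ℤ ((De p).prod (De q)))
    (fun p q => bd ℤ ((De p).prod (De q))) (fun p q => (C p q).h)
    (fun p q => aug ℤ ((De p).prod (De q))) (fun p q => (C p q).u)
    (fun p q => (F1 ℤ).A p q) (fun p q => (F1 ℤ).B p q)
    (fun n p q => gr ℤ ((De p).prod (De q)) n)
    (fun p q x => (C p q).rel x) (fun p q x => (C p q).εh x) hAA hBB hAB hAd hBd hεA hεB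
    (fun n p q x hx => hC p q n x hx) ez_A_gr ez_B_gr ez_c ez_c' ez_cc'
    (bd_sx_zero ℤ _) ez_dc ez_dc' (fun p => aug_sx_succ ℤ _) (fun q => aug_sx_succ ℤ _)
    (fun p => sx_mem_gr ℤ _) (fun q => sx_mem_gr ℤ _)
  refine ⟨e, ⟨h1, h2, fun p q => ?_, h4⟩⟩
  rw [fA_eq, fB_eq]
  exact h3 p q

end HEp
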