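import Pool.Agent.Lib.MP_181146_gt.HE.SpecS

/-!
# Project HE: the simplicial identities of the operators `F.A` and `F.B`
-/

set_option autoImplicit false

namespace HEp

open scoped TensorProduct

variable {k : Type} [CommRing k]

private lemma fab_sum {M : Type} [AddCommGroup M] [Module k M] (p : ℕ)
    (g : (Fin (p + 1) → Fin (p + 3)) → M) :
    ∑ i : Fin (p + 3), ∑ j : Fin (p + 2),
      (-1 : k) ^ (i : ℕ) • (-1 : k) ^ (j : ℕ) • g (i.succAbove ∘ j.succAbove) = 0 := by
  rw [← Fintype.sum_prod_type' (fun (i : Fin (p + 3)) (j : Fin (p + 2)) =>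
    (-1 : k) ^ (i : ℕ) • (-1 : k) ^ (j : ℕ) • g (i.succAbove ∘ j.succAbove))]
  refine Finset.sum_ninvolution (fun x => (x.1.succAbove x.2, x.2.predAbove x.1)) ?_ ?_ ?_ ?_
  · rintro ⟨i, j⟩
    have h1 : (i.succAbove j).succAbove ∘ (j.predAbove i).succAbove =
        i.succAbove ∘ j.succAbove := by
      funext l
      exact Fin.succAbove_succAbove_succAbove_predAbove i j l
    change (-1 : k) ^ (i : ℕ) • (-1 : k) ^ (j : ℕ) • g (i.succAbove ∘ j.succAbove) +
      (-1 : k) ^ (i.succAbove j : ℕ) • (-1 : k) ^ (j.predAbove i : ℕ) •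
        g ((i.succAbove j).succAbove ∘ (j.predAbove i).succAbove) = 0
    rw [h1, smul_smul, smul_smul, ← pow_add, ← pow_add, Fin.neg_one_pow_succAbove_add_predAbove,
      neg_smul, add_neg_cancel]
  · rintro ⟨i, j⟩ _ h
    exact Fin.succAbove_ne i j (congrArg Prod.fst h)
  · intro _
    exact Finset.mem_univ _
  · rintro ⟨i, j⟩
    exact Prod.ext (Fin.succAbove_succAbove_predAbove i j)
      (Fin.predAbove_predAbove_succAbove i j)

private lemma fab_A (F : Fn k) (p q : ℕ) (x : (F.T (De p) (De q)).V) : F.A p q x =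
    ∑ j : Fin (p + 2), (-1 : k) ^ (j : ℕ) • F.map (Ed.map j.succAbove) (SSHom.id (De q)) x := by
  rw [Fn.A, LinearMap.sum_apply]
  rfl

private lemma fab_B (F : Fn k) (p q : ℕ) (x : (F.T (De p) (De q)).V) : F.B p q x =
    ∑ j : Fin (q + 2), (-1 : k) ^ (j : ℕ) • F.map (SSHom.id (De p)) (Ed.map j.succAbove) x := by
  rw [Fn.B, LinearMap.sum_apply]
  rfl

private lemma fab_map {M N ι : Type} [AddCommGroup M] [Module k M] [AddCommGroup N] [Module k N]
    [Fintype ι] (f : M →ₗ[k] N) (c : ι → k) (v : ι → M) :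
    f (∑ j, c j • v j) = ∑ j, c j • f (v j) := by
  rw [map_sum]
  exact Finset.sum_congr rfl fun j _ => map_smul _ _ _

theorem sFAB : S_FAB := by
  intro k _ F
  refine ⟨?_, ?_, ?_, ?_, ?_, ?_, ?_⟩
  · intro p q x
    rw [fab_A, fab_A]
    refine Eq.trans ?_ (fab_sum (k := k) p (fun a => F.map (Ed.map a) (SSHom.id (De q)) x))
    refine Finset.sum_congr rfl fun i _ => ?_
    rw [fab_map, Finset.smul_sum]
    refine Finset.sum_congr rfl fun j _ => ?_
    rw [← F.map_comp]
    rfl
  · intro p q x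
    rw [fab_B, fab_B]
    refine Eq.trans ?_ (fab_sum (k := k) q (fun a => F.map (SSHom.id (De p)) (Ed.map a) x))
    refine Finset.sum_congr rfl fun i _ => ?_
    rw [fab_map, Finset.smul_sum]
    refine Finset.sum_congr rfl fun j _ => ?_
    rw [← F.map_comp]
    rfl
  · intro p q x
    rw [fab_A, fab_B, fab_B, fab_A]
    have e1 : ∀ i : Fin (p + 2), (-1 : k) ^ (i : ℕ) •
        F.map (Ed.map i.succAbove) (SSHom.id (De (q + 1)))
          (∑ j : Fin (q + 2), (-1 : k) ^ (j : ℕ) •
            F.map (SSHom.id (De p)) (Ed.map j.succAbove) x) =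
        ∑ j : Fin (q + 2), (-1 : k) ^ (i : ℕ) • (-1 : k) ^ (j : ℕ) •
          F.map (Ed.map i.succAbove) (Ed.map j.succAbove) x := by
      intro i
      rw [fab_map, Finset.smul_sum]
      refine Finset.sum_congr rfl fun j _ => ?_
      rw [← F.map_comp]
      rfl
    have e2 : ∀ j : Fin (q + 2), (-1 : k) ^ (j : ℕ) •
        F.map (SSHom.id (De (p + 1))) (Ed.map j.succAbove)
          (∑ i : Fin (p + 2), (-1 : k) ^ (i : ℕ) •
            F.map (Ed.map i.succAbove) (SSHom.id (De q)) x) =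
        ∑ i : Fin (p + 2), (-1 : k) ^ (i : ℕ) • (-1 : k) ^ (j : ℕ) •
          F.map (Ed.map i.succAbove) (Ed.map j.succAbove) x := by
      intro j
      rw [fab_map, Finset.smul_sum]
      refine Finset.sum_congr rfl fun i _ => ?_
      rw [← F.map_comp, smul_comm]
      rfl
    rw [Finset.sum_congr rfl fun i _ => e1 i, Finset.sum_congr rfl fun j _ => e2 j,
      Finset.sum_comm]
  · intro p q x
    rw [fab_A, fab_A, fab_map]
    refine Finset.sum_congr rfl fun j _ => ?_
    rw [F.map_d]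
  · intro p q x
    rw [fab_B, fab_B, fab_map]
    refine Finset.sum_congr rfl fun j _ => ?_
    rw [F.map_d]
  · intro p q x hx
    rw [fab_A, map_sum]
    refine Finset.sum_eq_zero fun j _ => ?_
    rw [map_smul, F.aug_map, hx, smul_zero]
  · intro p q x hx
    rw [fab_B, map_sum]
    refine Finset.sum_eq_zero fun j _ => ?_
    rw [map_smul, F.aug_map, hx, smul_zero]

end HEp
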