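import Pool.Agent.Lib.MP_181146_gt.HE.SpecS

/-!
# Project HE, FRPE: the multiplication on `X` has the duality property FRP
-/

set_option autoImplicit false

namespace HEp

open scoped TensorProduct

section FRPEaux

/-! ### Change of coefficients -/

section CC

variable {k : Type} [CommRing k] {K L : SS}

/-- Change of coefficients as an additive map. -/
private noncomputable def frCC (k : Type) [CommRing k] (K : SS) : Ch ℤ K →+ Ch k K :=
  Finsupp.mapRange.addMonoidHom (Int.castRingHom k).toAddMonoidHom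

private lemma frCC_apply (x : Ch ℤ K) : cc k x = frCC k K x := rfl

private lemma frCC_sx {n : ℕ} (x : K.K n) : frCC k K (sx ℤ x) = sx k x := by
  rw [← frCC_apply, cc, sx, Finsupp.mapRange_single, map_one]
  rfl

private lemma fr_ext {M : Type*} [AddCommGroup M] {f g : Ch ℤ K →+ M}
    (h : ∀ (n : ℕ) (x : K.K n), f (sx ℤ x) = g (sx ℤ x)) : f = g := by
  refine Finsupp.addHom_ext fun x a => ?_
  have h1 : (Finsupp.single x a : Ch ℤ K) = a • sx ℤ x.2 := by
    rw [sx, Finsupp.smul_single, smul_eq_mul, mul_one]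
  rw [h1, map_zsmul, map_zsmul, h]

private lemma frCC_zsmul (n : ℤ) (x : Ch ℤ K) : frCC k K (n • x) = (n : k) • frCC k K x := by
  rw [map_zsmul, Int.cast_smul_eq_zsmul]

private lemma frCC_bd (x : Ch ℤ K) : frCC k K (bd ℤ K x) = bd k K (frCC k K x) := by
  have h : (frCC k K).comp (bd ℤ K).toAddMonoidHom =
      (bd k K).toAddMonoidHom.comp (frCC k K) := by
    refine fr_ext fun n x => ?_
    change frCC k K (bd ℤ K (sx ℤ x)) = bd k K (frCC k K (sx ℤ x))
    rw [frCC_sx]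
    cases n with
    | zero => rw [bd_sx_zero, bd_sx_zero, map_zero]
    | succ n =>
      rw [bd_sx, bd_sx, map_sum]
      refine Finset.sum_congr rfl fun i _ => ?_
      rw [frCC_zsmul, frCC_sx, Int.cast_pow, Int.cast_neg, Int.cast_one]
  exact DFunLike.congr_fun h x

private lemma frCC_cmap (f : SSHom K L) (x : Ch ℤ K) :
    frCC k L (cmap ℤ f x) = cmap k f (frCC k K x) := by
  have h : (frCC k L).comp (cmap ℤ f).toAddMonoidHom =
      (cmap k f).toAddMonoidHom.comp (frCC k K) := by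
    refine fr_ext fun n x => ?_
    change frCC k L (cmap ℤ f (sx ℤ x)) = cmap k f (frCC k K (sx ℤ x))
    rw [frCC_sx, cmap_sx, cmap_sx, frCC_sx]
  exact DFunLike.congr_fun h x

private lemma frCC_mu (hNabR : S_NabR) (e : ∀ p q : ℕ, Ch ℤ ((De p).prod (De q)))
    (m : SSHom (K.prod K) K) (x y : Ch ℤ K) :
    mu k e m (frCC k K x ⊗ₜ frCC k K y) = frCC k K (mu ℤ e m (x ⊗ₜ y)) := by
  rw [mu, mu, LinearMap.comp_apply, LinearMap.comp_apply, frCC_cmap, ← frCC_apply,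
    ← frCC_apply, hNabR, frCC_apply]

private lemma fr_cmap_gr (f : SSHom K L) (n : ℕ) (x : Ch k K) (hx : x ∈ gr k K n) :
    cmap k f x ∈ gr k L n := by
  have h1 : cmap k f x ∈ Finsupp.supported k k
      ((fun y : (Σ n, K.K n) => (⟨y.1, f.f y.2⟩ : Σ n, L.K n)) '' {y | y.1 = n}) := by
    rw [← Finsupp.lmapDomain_supported]
    exact Submodule.mem_map_of_mem hx
  refine Finsupp.supported_mono ?_ h1
  rintro _ ⟨y, hy, rfl⟩
  exact hy

private lemma fr_mu_gr (hNabG : S_NabG) (e : ∀ p q : ℕ, Ch ℤ ((De p).prod (De q))) (he : EZ e)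
    (m : SSHom (K.prod K) K) (i j : ℕ) (x y : Ch k K) (hx : x ∈ gr k K i) (hy : y ∈ gr k K j) :
    mu k e m (x ⊗ₜ y) ∈ gr k K (i + j) := by
  rw [mu, LinearMap.comp_apply]
  exact fr_cmap_gr _ _ _ ((hNabG e he k K K).1 i j x hx y hy)

private lemma frCC_lift (hs : ∀ a : k, ∃ n : ℤ, (n : k) = a) (c : Ch k K) :
    ∃ c' : Ch ℤ K, frCC k K c' = c ∧ ∀ n, c ∈ gr k K n → c' ∈ gr ℤ K n := by
  classical
  choose s hs using hs
  have h0 : (fun a : k => if a = 0 then (0 : ℤ) else s a) 0 = 0 := if_pos rfl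
  refine ⟨Finsupp.mapRange (fun a : k => if a = 0 then (0 : ℤ) else s a) h0 c, ?_,
    fun n hn x hx => hn (Finsupp.support_mapRange hx)⟩
  rw [← frCC_apply, cc]
  refine Finsupp.ext fun x => ?_
  rw [Finsupp.mapRange_apply, Finsupp.mapRange_apply]
  split_ifs with h
  · rw [h, map_zero]
  · exact hs _

private lemma frCC_gr (n : ℕ) (c : Ch ℤ K) (hc : c ∈ gr ℤ K n) : frCC k K c ∈ gr k K n :=
  fun _ hx => hc (Finsupp.support_mapRange (f := Int.castRingHom k) (hf := map_zero _) hx)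

private lemma frCC_ker (p : ℕ) (hk : ∀ n : ℤ, (n : k) = 0 → (p : ℤ) ∣ n) (c : Ch ℤ K)
    (hc : frCC k K c = 0) : ∃ c' : Ch ℤ K, c = (p : ℤ) • c' := by
  refine ⟨Finsupp.mapRange (fun n : ℤ => n / (p : ℤ)) (Int.zero_ediv _) c, ?_⟩
  refine Finsupp.ext fun x => ?_
  have h : ((c x : ℤ) : k) = 0 := by
    have h1 := DFunLike.congr_fun hc x
    rw [← frCC_apply, cc, Finsupp.mapRange_apply] at h1
    exact h1
  rw [Finsupp.smul_apply, Finsupp.mapRange_apply, smul_eq_mul, Int.mul_ediv_cancel' (hk _ h)]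

private lemma frCC_p (p : ℕ) (hp : ((p : ℤ) : k) = 0) (c : Ch ℤ K) :
    frCC k K ((p : ℤ) • c) = 0 := by
  rw [frCC_zsmul, hp, zero_smul]

/-! ### The projection onto the chains of dimension `n` -/

/-- The projection onto the chains of dimension `n`. -/
private noncomputable def frP (k : Type) [CommRing k] (K : SS) (n : ℕ) : Ch k K →ₗ[k] Ch k K :=
  Finsupp.linearCombination k (fun x => if x.1 = n then Finsupp.single x 1 else 0)

private lemma frP_sx {l : ℕ} (n : ℕ) (x : K.K l) :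
    frP k K n (sx k x) = if l = n then sx k x else 0 := by
  rw [frP, sx, Finsupp.linearCombination_single, one_smul]

private lemma frP_gr (n : ℕ) (x : Ch k K) : frP k K n x ∈ gr k K n := by
  rw [frP, Finsupp.linearCombination_apply]
  refine Submodule.sum_mem _ fun y _ => Submodule.smul_mem _ _ ?_
  split_ifs with h
  · exact Finsupp.single_mem_supported k 1 h
  · exact zero_mem _

private lemma frP_bd (n : ℕ) (x : Ch k K) (hx : bd k K x = 0) : bd k K (frP k K n x) = 0 := by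
  cases n with
  | zero =>
    have h : bd k K ∘ₗ frP k K 0 = 0 := ch_ext fun l y => by
      rw [LinearMap.comp_apply, LinearMap.zero_apply, frP_sx]
      cases l with
      | zero => rw [if_pos rfl, bd_sx_zero]
      | succ l => rw [if_neg (Nat.succ_ne_zero l), map_zero]
    exact LinearMap.congr_fun h x
  | succ n =>
    have h : bd k K ∘ₗ frP k K (n + 1) = frP k K n ∘ₗ bd k K := ch_ext fun l y => by
      rw [LinearMap.comp_apply, LinearMap.comp_apply, frP_sx]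
      cases l with
      | zero => rw [if_neg (Nat.succ_ne_zero n).symm, map_zero, bd_sx_zero, map_zero]
      | succ l =>
        rw [bd_sx, map_sum]
        by_cases h : l = n
        · rw [if_pos (by rw [h]), bd_sx]
          refine Finset.sum_congr rfl fun i _ => ?_
          rw [map_smul, frP_sx, if_pos h]
        · rw [if_neg (by omega), map_zero]
          refine (Finset.sum_eq_zero fun i _ => ?_).symm
          rw [map_smul, frP_sx, if_neg h, smul_zero]
    have h1 := LinearMap.congr_fun h x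
    rw [LinearMap.comp_apply, LinearMap.comp_apply, hx, map_zero] at h1
    exact h1

private lemma frP_lin (ψ : Ch k K →ₗ[k] k) (n : ℕ)
    (h : ∀ j, j ≠ n → ∀ x ∈ gr k K j, ψ x = 0) (x : Ch k K) : ψ x = ψ (frP k K n x) := by
  have h1 : ψ = ψ ∘ₗ frP k K n := ch_ext fun l y => by
    rw [LinearMap.comp_apply, frP_sx]
    split_ifs with h2
    · rfl
    · rw [map_zero]
      exact h l h2 _ (sx_mem_gr k y)
  exact LinearMap.congr_fun h1 x

private lemma fr_mub (e : ∀ p q : ℕ, Ch ℤ ((De p).prod (De q))) (m : SSHom (K.prod K) K)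
    (hcm : IsCM ((chDG k K).tens (chDG k K)) (chDG k K) (mu k e m)) (u w : Ch k K)
    (hu : bd k K u = 0) : mu k e m (u ⊗ₜ bd k K w) =
      bd k K (mu k e m ((u - (2 : k) • od k K u) ⊗ₜ w)) := by
  have h1 : mu k e m (((chDG k K).tens (chDG k K)).d ((u - (2 : k) • od k K u) ⊗ₜ w)) =
    bd k K (mu k e m ((u - (2 : k) • od k K u) ⊗ₜ w)) := hcm.d _
  have h2 : ((chDG k K).tens (chDG k K)).d ((u - (2 : k) • od k K u) ⊗ₜ w) =
    bd k K (u - (2 : k) • od k K u) ⊗ₜ[k] w + ((u - (2 : k) • od k K u) -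
      (2 : k) • od k K (u - (2 : k) • od k K u)) ⊗ₜ[k] bd k K w := rfl
  have h3 : bd k K (u - (2 : k) • od k K u) = 0 := by
    have h := od_bd k u
    rw [hu, map_zero, map_sub, hu, zero_sub, eq_comm, neg_eq_zero] at h
    rw [map_sub, map_smul, h, hu, smul_zero, sub_zero]
  have h4 : (u - (2 : k) • od k K u) - (2 : k) • od k K (u - (2 : k) • od k K u) = u := by
    rw [map_sub, map_smul, od_od]
    module
  rw [← h1]
  refine congrArg _ (Eq.symm ?_)
  rw [h2, h3, h4, TensorProduct.zero_tmul, zero_add]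

private lemma fr_lin0 (ψ : Ch k K →ₗ[k] k) (h : ∀ j, ∀ x ∈ gr k K j, ψ x = 0) (x : Ch k K) :
    ψ x = 0 := by
  have h1 : ψ = 0 := ch_ext fun l y => h l _ (sx_mem_gr k y)
  rw [h1, LinearMap.zero_apply]

end CC

/-! ### The transfer data -/

section TEs

variable {G : Type} [CommGroup G] {X : ZCx (ZG G)} {E : Type} [TopologicalSpace E]
  {act : G → C(E, E)}

private lemma fr_fd (t : TE X E act) (i j : ℤ) (h : j + 1 = i) (x : X.P i) :
    t.f j (X.d i j x) = bd ℤ (Sing E) (t.f i x) := by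
  obtain rfl : j = i - 1 := by omega
  exact t.fd i x

private lemma fr_f'd (t : TE X E act) (i j : ℤ) (h : j + 1 = i) (c : Ch ℤ (Sing E)) :
    t.f' j (bd ℤ (Sing E) c) = X.d i j (t.f' i c) := by
  obtain rfl : j = i - 1 := by omega
  exact t.f'd i c

private lemma fr_bdy (p : ℕ) (n : ℤ) (x : X.P n) (h : X.BdyP p n x) :
    ∃ (y : X.P (n + 1)) (z : X.P n), x = X.d (n + 1) n y + (p : ℤ) • z := by
  obtain ⟨j, y, z, h⟩ := h
  by_cases hj : n + 1 = j
  · subst hj
    exact ⟨y, z, h⟩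
  · refine ⟨0, z, ?_⟩
    rw [h, X.shape j n hj, map_zero, LinearMap.zero_apply]

private lemma fr_bdy_sub (p : ℕ) (n : ℤ) (x y : X.P n) (hx : X.BdyP p n x) (hy : X.BdyP p n y) :
    X.BdyP p n (x - y) := by
  obtain ⟨a, b, hx⟩ := fr_bdy p n x hx
  obtain ⟨c, d, hy⟩ := fr_bdy p n y hy
  refine ⟨n + 1, a - c, b - d, ?_⟩
  rw [hx, hy, map_sub, smul_sub]
  abel

variable {k : Type} [CommRing k] (p : ℕ) (hp : ((p : ℤ) : k) = 0)

include hp in
private lemma fr_cyc (t : TE X E act) (n : ℤ) (x : X.P n) (hx : X.CycP p n x) :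
    bd k (Sing E) (frCC k (Sing E) (t.f n x)) = 0 := by
  obtain ⟨z, hz⟩ := hx (n - 1)
  rw [← frCC_bd, ← t.fd, hz, map_zsmul, frCC_p p hp]

include hp in
private lemma fr_bdy_f (t : TE X E act) (n : ℤ) (x : X.P n) (hx : X.BdyP p n x) :
    ∃ w, frCC k (Sing E) (t.f n x) = bd k (Sing E) w := by
  obtain ⟨y, z, h⟩ := fr_bdy p n x hx
  refine ⟨frCC k (Sing E) (t.f (n + 1) y), ?_⟩
  rw [h, map_add, map_add, map_zsmul, frCC_p p hp, add_zero, fr_fd t (n + 1) n rfl, frCC_bd]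

variable (hk : ∀ n : ℤ, (n : k) = 0 → (p : ℤ) ∣ n)

include hk in
private lemma fr_cyc' (t : TE X E act) (c : Ch ℤ (Sing E))
    (hc : bd k (Sing E) (frCC k (Sing E) c) = 0) (n : ℤ) : X.CycP p n (t.f' n c) := by
  rw [← frCC_bd] at hc
  obtain ⟨c', hc'⟩ := frCC_ker p hk _ hc
  intro j
  by_cases hj : j + 1 = n
  · refine ⟨t.f' j c', ?_⟩
    rw [← fr_f'd t n j hj, hc', map_zsmul]
  · refine ⟨0, ?_⟩
    rw [X.shape n j hj, LinearMap.zero_apply, smul_zero]

include hk in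
private lemma fr_bdy_f' (hs : ∀ a : k, ∃ n : ℤ, (n : k) = a) (t : TE X E act)
    (c : Ch ℤ (Sing E)) (hc : ∃ w, frCC k (Sing E) c = bd k (Sing E) w) (n : ℤ) :
    X.BdyP p n (t.f' n c) := by
  obtain ⟨w, hw⟩ := hc
  obtain ⟨w', rfl, -⟩ := frCC_lift hs w
  rw [← frCC_bd, ← sub_eq_zero, ← map_sub] at hw
  obtain ⟨c', hc'⟩ := frCC_ker p hk _ hw
  refine ⟨n + 1, t.f' (n + 1) w', t.f' n c', ?_⟩
  rw [← fr_f'd t (n + 1) n rfl, ← map_zsmul, ← hc', map_sub]
  abel

include hp hk in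
private lemma fr_ht (t : TE X E act) (n : ℕ) (c : Ch ℤ (Sing E)) (hn : c ∈ gr ℤ (Sing E) n)
    (hc : bd k (Sing E) (frCC k (Sing E) c) = 0) :
    frCC k (Sing E) (t.f n (t.f' n c)) =
      frCC k (Sing E) c + bd k (Sing E) (frCC k (Sing E) (t.t c)) := by
  rw [← frCC_bd] at hc
  obtain ⟨c', hc'⟩ := frCC_ker p hk _ hc
  have h := t.ht n c hn
  rw [hc', map_zsmul, sub_eq_iff_eq_add] at h
  rw [h, map_add, map_add, frCC_p p hp, add_zero, frCC_bd, add_comm]

private lemma fr_hX (t : TE X E act) (n : ℤ) (x : X.P n) (hx : X.CycP p n x) :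
    X.BdyP p n (t.f' n (t.f n x) - x) := by
  obtain ⟨z, hz⟩ := hx (n - 1)
  refine ⟨n + 1, t.h n (n + 1) x, t.h (n - 1) n z, ?_⟩
  rw [t.hX, hz, map_zsmul]

end TEs

/-! ### The functional -/

private lemma fr_main (hFRch : S_FRch) (hSUn : S_SUn) (hSH0 : S_SH0) (hHopf : S_Hopf)
    (hNabG : S_NabG) (hNabR : S_NabR) (k : Type) [Field k] (p : ℕ)
    (hs : ∀ a : k, ∃ n : ℤ, (n : k) = a) (hp : ((p : ℤ) : k) = 0)
    (hk : ∀ n : ℤ, (n : k) = 0 → (p : ℤ) ∣ n)
    {G : Type} [CommGroup G] {X : ZCx (ZG G)} {E : Type} [TopologicalSpace E]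
    [PathConnectedSpace E] {act : G → C(E, E)} (t : TE X E act)
    (e : ∀ p q : ℕ, Ch ℤ ((De p).prod (De q))) (he : EZ e) (v : E) (m : C(E × E, E))
    (hA : ContinuousMap.Homotopic (ContinuousMap.id E)
      (m.comp (ContinuousMap.prodMk (ContinuousMap.id E) (ContinuousMap.const E v))))
    (hB : ContinuousMap.Homotopic (ContinuousMap.id E)
      (m.comp (ContinuousMap.prodMk (ContinuousMap.const E v) (ContinuousMap.id E))))
    (d : ℕ) (φ : X.P (d : ℤ) →+ k)
    (h1 : ∀ n : ℤ, (d : ℤ) < n → ∀ x : X.P n, X.CycP p n x → X.BdyP p n x)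
    (h2 : ∀ z : X.P ((d : ℤ) + 1), φ (X.d ((d : ℤ) + 1) d z) = 0)
    (h3 : ∃ z, X.CycP p d z ∧ φ z ≠ 0) (a : ℕ) (x : X.P (a : ℤ)) (hx : X.CycP p a x)
    (hxx : ∀ b : ℕ, a + b = d → ∀ y : X.P (b : ℤ), X.CycP p b y →
      φ (t.f' d (mu ℤ e (SingMul m) (t.f a x ⊗ₜ t.f b y))) = 0) : X.BdyP p a x := by
  have hp0 : ∀ c : k, (p : ℤ) • c = 0 := fun c => by
    rw [← Int.cast_smul_eq_zsmul k, hp, zero_smul]
  -- the functional
  obtain ⟨ψ, hψ⟩ : ∃ ψ : Ch k (Sing E) →ₗ[k] k, ∀ c : Ch ℤ (Sing E),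
      ψ (frCC k (Sing E) c) = φ (t.f' d c) := by
    refine ⟨Finsupp.linearCombination k (fun y => φ (t.f' d (sx ℤ y.2))), fun c => ?_⟩
    have h : (Finsupp.linearCombination k
        (fun y : (Σ n, (Sing E).K n) => φ (t.f' d (sx ℤ y.2)))).toAddMonoidHom.comp
          (frCC k (Sing E)) = φ.comp (t.f' d) := by
      refine fr_ext fun n y => ?_
      change Finsupp.linearCombination k
        (fun y : (Σ n, (Sing E).K n) => φ (t.f' d (sx ℤ y.2))) (frCC k (Sing E) (sx ℤ y)) =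
          φ (t.f' d (sx ℤ y))
      rw [frCC_sx, sx, Finsupp.linearCombination_single, one_smul]
    exact DFunLike.congr_fun h c
  have hψgr : ∀ n, n ≠ d → ∀ y ∈ gr k (Sing E) n, ψ y = 0 := by
    intro n hn y hy
    obtain ⟨c, rfl, hc⟩ := frCC_lift hs y
    rw [hψ, t.f'_gr n d (by exact_mod_cast hn.symm) c (hc n hy), map_zero]
  have hψb : ∀ y, ψ (bd k (Sing E) y) = 0 := by
    intro y
    obtain ⟨c, rfl, -⟩ := frCC_lift hs y
    rw [← frCC_bd, hψ, fr_f'd t ((d : ℤ) + 1) d rfl, h2]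
  have hψ0 : ∃ y, bd k (Sing E) y = 0 ∧ ψ y ≠ 0 := by
    obtain ⟨z, hz, hz0⟩ := h3
    refine ⟨frCC k (Sing E) (t.f d z), fr_cyc p hp t d z hz, ?_⟩
    obtain ⟨z', hz'⟩ := hz ((d : ℤ) - 1)
    have h := t.hX d z
    rw [hz', map_zsmul, sub_eq_iff_eq_add] at h
    rw [hψ, h, map_add, map_add, h2, map_zsmul, hp0, zero_add, zero_add]
    exact hz0
  have hd : ∀ n, d < n → ∀ y ∈ gr k (Sing E) n, bd k (Sing E) y = 0 →
      ∃ w, y = bd k (Sing E) w := by
    intro n hn y hy hy0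
    obtain ⟨c, rfl, hc⟩ := frCC_lift hs y
    have h4 := fr_ht p hp hk t n c (hc n hy) hy0
    obtain ⟨w, hw⟩ := fr_bdy_f p hp t n _
      (h1 n (by exact_mod_cast hn) _ (fr_cyc' p hk t c hy0 n))
    refine ⟨w - frCC k (Sing E) (t.t c), ?_⟩
    rw [map_sub, ← hw, h4, add_sub_cancel_right]
  -- the multiplication is a chain map
  have hcm := (hHopf e he k (Sing E) (SingMul m)).1
  have hmub : ∀ u w, bd k (Sing E) u = 0 →
      ψ (mu k e (SingMul m) (u ⊗ₜ bd k (Sing E) w)) = 0 := by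
    intro u w hu
    rw [fr_mub e (SingMul m) hcm u w hu, hψb]
  have hx' : bd k (Sing E) (frCC k (Sing E) (t.f a x)) = 0 := fr_cyc p hp t a x hx
  have hxgr : frCC k (Sing E) (t.f a x) ∈ gr k (Sing E) a := frCC_gr _ _ (t.f_gr a x)
  have key : ∀ y, bd k (Sing E) y = 0 →
      ψ (mu k e (SingMul m) (frCC k (Sing E) (t.f a x) ⊗ₜ y)) = 0 := by
    intro y hy
    obtain ⟨χ, hχ⟩ : ∃ χ : Ch k (Sing E) →ₗ[k] k, ∀ y,
        χ y = ψ (mu k e (SingMul m) (frCC k (Sing E) (t.f a x) ⊗ₜ y)) :=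
      ⟨ψ ∘ₗ mu k e (SingMul m) ∘ₗ TensorProduct.mk k _ _ (frCC k (Sing E) (t.f a x)),
        fun _ => rfl⟩
    rw [← hχ]
    have hχ0 : ∀ j, a + j ≠ d → ∀ y ∈ gr k (Sing E) j, χ y = 0 := by
      intro j hj y hy
      rw [hχ]
      exact hψgr (a + j) hj _ (fr_mu_gr hNabG e he _ a j _ _ hxgr hy)
    by_cases had : a ≤ d
    · obtain ⟨b, hb⟩ := Nat.exists_eq_add_of_le had
      rw [frP_lin χ b (fun j hj => hχ0 j (by omega))]
      have hyb := frP_bd b y hy
      have hygr := frP_gr b y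
      obtain ⟨c, hc, hcgr⟩ := frCC_lift hs (frP k (Sing E) b y)
      rw [← hc] at hyb hygr ⊢
      have h4 := fr_ht p hp hk t b c (hcgr b (by rw [← hc]; exact hygr)) hyb
      have h5 := hxx b hb.symm _ (fr_cyc' p hk t c hyb b)
      rw [← hψ, ← frCC_mu hNabR, h4, TensorProduct.tmul_add, map_add, map_add,
        hmub _ _ hx', add_zero] at h5
      rw [hχ]
      exact h5
    · exact fr_lin0 χ (fun j => hχ0 j (by omega)) y
  obtain ⟨hl, hr⟩ := hSUn k e he E v m hA hB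
  have hfin := hFRch k e he (Sing E) (vtx v) (SingMul m) hl hr (hSH0 k E v) d hd ψ hψgr hψb hψ0
    (frCC k (Sing E) (t.f a x)) hx' key
  have h6 : X.BdyP p a (t.f' a (t.f a x)) := fr_bdy_f' p hk hs t _ hfin a
  have h7 := fr_bdy_sub p a _ _ h6 (fr_hX p t a x hx)
  rwa [sub_sub_cancel] at h7

end FRPEaux

theorem sFRPE (hFRch : S_FRch) (hSUn : S_SUn) (hSH0 : S_SH0) (hHopf : S_Hopf)
    (hNabG : S_NabG) (hNabR : S_NabR) : S_FRPE := by
  intro G _ X E _ _ act t hneg e he v m hA hB μ hM p hp m0 φ h1 h2 h3 i x hx hxx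
  have hpf : Fact p.Prime := ⟨hp⟩
  rcases lt_or_ge m0 0 with hm0 | hm0
  · obtain ⟨z, -, hz⟩ := h3
    have := hneg m0 hm0
    exact absurd (by rw [Subsingleton.elim z 0, map_zero]) hz
  rcases lt_or_ge i 0 with hi | hi
  · have := hneg i hi
    exact ⟨i, 0, 0, Subsingleton.elim _ _⟩
  obtain ⟨d, rfl⟩ := Int.eq_ofNat_of_zero_le hm0
  obtain ⟨a, rfl⟩ := Int.eq_ofNat_of_zero_le hi
  refine fr_main hFRch hSUn hSH0 hHopf hNabG hNabR (ZMod p) p
    (fun b => ZMod.intCast_surjective b) ?_ ?_ t e he v m hA hB d φ h1 h2 h3 a x hx ?_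
  · rw [ZMod.intCast_zmod_eq_zero_iff_dvd]
  · intro n hn
    exact (ZMod.intCast_zmod_eq_zero_iff_dvd n p).mp hn
  · intro b hb
    have hb' : (b : ℤ) = (d : ℤ) - (a : ℤ) := by omega
    rw [hb']
    intro y hy
    rw [← hM]
    exact hxx y hy

end HEp
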