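import Pool.Agent.Lib.MP_181146_gt.HE.SpecS

/-!
# Project HE: the duality lemma `S_FRalg`
-/

set_option autoImplicit false

namespace HEp

open scoped TensorProduct

section

variable {k : Type} [Field k] {H : Type} [AddCommGroup H] [Module k H]

private lemma fr_lin_ext {M : Type} [AddCommGroup M] [Module k M] {g : ℕ → Submodule k H}
    (htop : (⨆ n, g n) = ⊤) {f f' : H →ₗ[k] M} (h : ∀ n, ∀ x ∈ g n, f x = f' x) : f = f' := by
  have h1 : (⨆ n, g n) ≤ LinearMap.eqLocus f f' := iSup_le fun n x hx => h n x hx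
  rw [htop] at h1
  exact LinearMap.ext fun x => h1 (x := x) Submodule.mem_top

private lemma fr_tens_ext {M : Type} [AddCommGroup M] [Module k M] {g : ℕ → Submodule k H}
    (htop : (⨆ n, g n) = ⊤) {f f' : H ⊗[k] H →ₗ[k] M}
    (h : ∀ (x : H) (l : ℕ), ∀ y ∈ g l, f (x ⊗ₜ y) = f' (x ⊗ₜ y)) : f = f' := by
  refine TensorProduct.ext' fun x y => ?_
  have h1 : f ∘ₗ TensorProduct.mk k H H x = f' ∘ₗ TensorProduct.mk k H H x :=
    fr_lin_ext htop fun n y hy => h x n y hy
  exact LinearMap.congr_fun h1 y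

private lemma fr_tgr {M : Type} [AddCommGroup M] [Module k M] {g : ℕ → Submodule k H} {n : ℕ}
    {f f' : H ⊗[k] H →ₗ[k] M}
    (h : ∀ (i j : ℕ), i + j = n → ∀ x ∈ g i, ∀ y ∈ g j, f (x ⊗ₜ y) = f' (x ⊗ₜ y)) :
    ∀ w ∈ tgr g g n, f w = f' w := by
  have h1 : tgr g g n ≤ LinearMap.eqLocus f f' := by
    refine Submodule.span_le.2 ?_
    rintro z ⟨i, j, x, y, hij, hx, hy, rfl⟩
    exact h i j hij x hx y hy
  exact fun w hw => h1 hw

/-- `(1 ⊗ φ)`. -/
private noncomputable def frPsi (φ : H →ₗ[k] k) : H ⊗[k] H →ₗ[k] H :=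
  (TensorProduct.rid k H).toLinearMap ∘ₗ TensorProduct.map LinearMap.id φ

private lemma frPsi_tmul (φ : H →ₗ[k] k) (x y : H) : frPsi φ (x ⊗ₜ y) = φ y • x := by
  rw [frPsi, LinearMap.comp_apply, TensorProduct.map_tmul]
  exact TensorProduct.rid_tmul _ _

/-- `a' ⊗ a'' ↦ (b ↦ φ (a'' b) a')`. -/
private noncomputable def frPhi (φ : H →ₗ[k] k) (μ : H ⊗[k] H →ₗ[k] H) :
    H ⊗[k] H →ₗ[k] H →ₗ[k] H :=
  TensorProduct.lift ((LinearMap.smulRightₗ ∘ₗ TensorProduct.curry (φ ∘ₗ μ)).flip)

private lemma frPhi_tmul (φ : H →ₗ[k] k) (μ : H ⊗[k] H →ₗ[k] H) (x y b : H) :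
    frPhi φ μ (x ⊗ₜ y) b = φ (μ (y ⊗ₜ b)) • x := by
  rw [frPhi, TensorProduct.lift.tmul]
  rfl

private lemma fr_exch (P : H →ₗ[k] H) (x y z t : H) :
    exch P ((x ⊗ₜ[k] y) ⊗ₜ[k] (z ⊗ₜ[k] t)) =
      (x ⊗ₜ[k] z) ⊗ₜ[k] (y ⊗ₜ[k] t) - (2 : k) • ((x ⊗ₜ[k] P z) ⊗ₜ[k] (P y ⊗ₜ[k] t)) := by
  rw [exch, LinearMap.comp_apply, LinearMap.sub_apply, LinearMap.smul_apply, map_sub, map_smul,
    TensorProduct.map_tmul, TensorProduct.map_tmul, TensorProduct.map_tmul]
  rfl

end

theorem sFRalg : S_FRalg := by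
  intro k _ H _ _ P g htop hP Δ μ one ε hΔ hμ h0 h1 ε1 hε cl cr ul ur mult d hd φ hφ hφ0 a ha
  have cl' : ∀ x, ((TensorProduct.lid k H).toLinearMap ∘ₗ
      TensorProduct.map ε LinearMap.id) (Δ x) = x := cl
  have lidt : ∀ x y : H, ((TensorProduct.lid k H).toLinearMap ∘ₗ
      TensorProduct.map ε LinearMap.id) (x ⊗ₜ y) = ε x • y := fun x y => by
    rw [LinearMap.comp_apply, TensorProduct.map_tmul]
    exact TensorProduct.lid_tmul _ _
  have ridt : ∀ x y : H, ((TensorProduct.rid k H).toLinearMap ∘ₗ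
      TensorProduct.map LinearMap.id ε) (x ⊗ₜ y) = ε y • x := fun x y => by
    rw [LinearMap.comp_apply, TensorProduct.map_tmul]
    exact TensorProduct.rid_tmul _ _
  have cr' : ∀ x, ((TensorProduct.rid k H).toLinearMap ∘ₗ
      TensorProduct.map LinearMap.id ε) (Δ x) = x := cr
  set Lid : H ⊗[k] H →ₗ[k] H := (TensorProduct.lid k H).toLinearMap ∘ₗ
      TensorProduct.map ε LinearMap.id with hLid
  set Rid : H ⊗[k] H →ₗ[k] H := (TensorProduct.rid k H).toLinearMap ∘ₗ
      TensorProduct.map LinearMap.id ε with hRid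
  -- (1)
  have s1 : ∀ c, frPsi φ (Δ c) = φ c • one := by
    have : frPsi φ ∘ₗ Δ = φ.smulRight one := by
      refine fr_lin_ext htop fun n c hc => ?_
      rw [LinearMap.comp_apply, LinearMap.smulRight_apply]
      rcases lt_or_ge d n with hn | hn
      · rw [hd n hn c hc, map_zero, map_zero, map_zero, zero_smul]
      · have h2 : ∀ w ∈ tgr g g n, frPsi φ w = ((φ.smulRight one) ∘ₗ Lid) w := by
          refine fr_tgr fun i j hij x hx y hy => ?_
          rw [frPsi_tmul, LinearMap.comp_apply, lidt, LinearMap.smulRight_apply, map_smul]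
          by_cases hj : j = d
          · have hi : i = 0 := by omega
            rw [hi] at hx
            conv_lhs => rw [h0 x hx]
            rw [smul_smul, smul_eq_mul, mul_comm]
          · rw [hφ j hj y hy, zero_smul, smul_zero, zero_smul]
        rw [h2 _ (hΔ n c hc), LinearMap.comp_apply, cl', LinearMap.smulRight_apply]
    exact fun c => LinearMap.congr_fun this c
  -- (2)
  have s2 : ∀ (w : H ⊗[k] H) (i j : ℕ), ∀ b' ∈ g i, ∀ b'' ∈ g j,
      frPsi φ (TensorProduct.map μ μ (exch P (w ⊗ₜ (b' ⊗ₜ b'')))) =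
        (if Odd (d - j) ∧ Odd i then (-1 : k) else 1) • μ (frPhi φ μ w b'' ⊗ₜ b') := by
    intro w i j b' hb' b'' hb''
    rcases lt_or_ge d j with hj | hj
    · rw [hd j hj b'' hb'']
      simp
    · have h2 : (frPsi φ ∘ₗ TensorProduct.map μ μ ∘ₗ exch P ∘ₗ
          (TensorProduct.mk k (H ⊗[k] H) (H ⊗[k] H)).flip (b' ⊗ₜ b'')) =
          (if Odd (d - j) ∧ Odd i then (-1 : k) else 1) •
            (μ ∘ₗ (TensorProduct.mk k H H).flip b' ∘ₗ (frPhi φ μ).flip b'') := by
        refine fr_tens_ext htop fun x l y hy => ?_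
        change frPsi φ (TensorProduct.map μ μ (exch P ((x ⊗ₜ[k] y) ⊗ₜ[k] (b' ⊗ₜ[k] b'')))) =
          (if Odd (d - j) ∧ Odd i then (-1 : k) else 1) •
            μ (frPhi φ μ (x ⊗ₜ[k] y) b'' ⊗ₜ[k] b')
        rw [fr_exch, frPhi_tmul, map_sub, map_smul, TensorProduct.map_tmul,
          TensorProduct.map_tmul, map_sub, map_smul, frPsi_tmul, frPsi_tmul, hP i b' hb',
          hP l y hy, ← TensorProduct.smul_tmul', map_smul]
        by_cases hl : l + j = d
        · have hl' : d - j = l := by omega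
          rw [hl']
          by_cases o1 : Odd l
          · by_cases o2 : Odd i
            · rw [if_pos o1, if_pos o2, if_pos ⟨o1, o2⟩]
              module
            · rw [if_pos o1, if_neg o2, if_neg (show ¬ (Odd l ∧ Odd i) from fun h => o2 h.2),
                TensorProduct.tmul_zero,
                map_zero, smul_zero, smul_zero, sub_zero, one_smul]
          · rw [if_neg o1, if_neg (show ¬ (Odd l ∧ Odd i) from fun h => o1 h.1),
                TensorProduct.zero_tmul,
                map_zero, map_zero, zero_smul, smul_zero, sub_zero, one_smul]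
        · have z1 : φ (μ (y ⊗ₜ b'')) = 0 := hφ _ hl _ (hμ l j y hy b'' hb'')
          have z2 : φ (μ ((if Odd l then y else 0) ⊗ₜ b'')) = 0 := by
            split_ifs
            · exact z1
            · rw [TensorProduct.zero_tmul, map_zero, map_zero]
          rw [z1, z2, zero_smul, zero_smul, smul_zero, sub_zero, smul_zero]
      exact LinearMap.congr_fun h2 w
  -- (3)
  have s3 : ∀ n, ∀ b ∈ g n, frPhi φ μ (Δ a) b = 0 := by
    intro n
    induction n using Nat.strong_induction_on with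
    | _ n ih =>
      intro b hb
      have h2 : ∀ v ∈ tgr g g n, (frPsi φ ∘ₗ TensorProduct.map μ μ ∘ₗ exch P ∘ₗ
          TensorProduct.mk k (H ⊗[k] H) (H ⊗[k] H) (Δ a)) v =
          (frPhi φ μ (Δ a) ∘ₗ Lid) v := by
        refine fr_tgr fun i j hij x hx y hy => ?_
        refine (s2 (Δ a) i j x hx y hy).trans ?_
        rw [LinearMap.comp_apply, lidt, map_smul]
        by_cases hj : j = n
        · have hi : i = 0 := by omega
          subst hi
          rw [if_neg (fun h => by simpa using h.2), one_smul]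
          conv_lhs => rw [h0 x hx, TensorProduct.tmul_smul, map_smul, ur]
        · have hj' : j < n := by omega
          rw [ih j hj' y hy, TensorProduct.zero_tmul, map_zero, smul_zero, smul_zero]
      have h3 := h2 _ (hΔ n b hb)
      have h5 : (frPhi φ μ (Δ a) ∘ₗ Lid) (Δ b) = frPhi φ μ (Δ a) b := by
        rw [LinearMap.comp_apply, cl']
      rw [h5] at h3
      rw [← h3]
      have h4 : (frPsi φ ∘ₗ TensorProduct.map μ μ ∘ₗ exch P ∘ₗ
          TensorProduct.mk k (H ⊗[k] H) (H ⊗[k] H) (Δ a)) (Δ b) =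
          frPsi φ (Δ (μ (a ⊗ₜ b))) := by
        rw [mult, TensorProduct.map_tmul]
        rfl
      refine h4.trans ?_
      rw [s1, ha, zero_smul]
  have s4 : frPhi φ μ (Δ a) = 0 :=
    fr_lin_ext htop fun n x hx => by rw [s3 n x hx, LinearMap.zero_apply]
  -- (4)
  obtain ⟨L, hL, hL0⟩ : ∃ L ∈ g d, φ L ≠ 0 := by
    by_contra hcon
    push Not at hcon
    obtain ⟨x, hx⟩ := hφ0
    have : φ = 0 := fr_lin_ext htop fun n x hx => by
      rw [LinearMap.zero_apply]
      by_cases hn : n = d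
      · subst hn
        exact hcon x hx
      · exact hφ n hn x hx
    exact hx (by rw [this]; rfl)
  have s5 : (frPhi φ μ).flip L = φ L • Rid := by
    refine fr_tens_ext htop fun x l y hy => ?_
    rw [LinearMap.flip_apply, frPhi_tmul, LinearMap.smul_apply, ridt]
    by_cases hl : l = 0
    · subst hl
      conv_lhs => rw [h0 y hy, ← TensorProduct.smul_tmul', map_smul, ul, map_smul]
      rw [smul_smul, smul_eq_mul, mul_comm]
    · rw [hd (l + d) (by omega) _ (hμ l d y hy L hL), map_zero, zero_smul,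
        hε l (Nat.pos_of_ne_zero hl) y hy, zero_smul, smul_zero]
  have s6 := LinearMap.congr_fun s5 (Δ a)
  rw [LinearMap.flip_apply, s4, LinearMap.zero_apply, LinearMap.smul_apply, cr'] at s6
  exact (smul_eq_zero.1 s6.symm).resolve_left hL0

end HEp
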