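import Pool.Agent.Lib.MP_181146_gt.HE.SpecS

/-!
# Project HE, FRch: the duality lemma on the level of chains
-/

set_option autoImplicit false

namespace HEp

open scoped TensorProduct

/-! ## Differential modules with a splitting -/

section Core

variable {k : Type} [Field k] {A : DG k} (S : Spl A)

/-- `i r z` for a cycle `z` -/
private lemma frch_ir {z : A.V} (hz : A.d z = 0) : S.i (S.r z) = z - A.d (S.s z) := by
  have h := S.rel z
  rw [hz, map_zero, add_zero] at h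
  rw [h, sub_sub_cancel]

/-- a linear form which vanishes on boundaries -/
private lemma frch_phi {φ : A.V →ₗ[k] k} (hφb : ∀ x, φ (A.d x) = 0) {z : A.V} (hz : A.d z = 0) :
    φ (S.i (S.r z)) = φ z := by
  rw [frch_ir S hz, map_sub, hφb, sub_zero]

private lemma frch_eps {ε : A.V →ₗ[k] k} (dε : ∀ x, ε (A.d x) = 0) (εs : ∀ x, ε (S.s x) = 0)
    (z : A.V) : ε (S.i (S.r z)) = ε z := by
  have h := congrArg ε (S.rel z)
  rw [map_add, dε, εs, add_zero, map_sub] at h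
  exact (sub_eq_zero.1 h.symm).symm

variable {μ : A.V ⊗[k] A.V →ₗ[k] A.V}

/-- a boundary times a cycle -/
private lemma frch_bz (hμ : IsCM (A.tens A) A μ) (w : A.V) {z : A.V} (hz : A.d z = 0) :
    μ (A.d w ⊗ₜ z) = A.d (μ (w ⊗ₜ z)) := by
  rw [← hμ.d, DG.tens_d, hz, TensorProduct.tmul_zero, add_zero]

/-- a cycle times a boundary -/
private lemma frch_zb (hμ : IsCM (A.tens A) A μ) (w : A.V) {z : A.V} (hz : A.d z = 0) :
    μ (z ⊗ₜ A.d w) = A.d (μ (A.sg z ⊗ₜ w)) := by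
  have h1 : A.d (A.sg z) = 0 := by
    have h := A.sg_d z
    rw [hz, map_zero] at h
    exact neg_eq_zero.1 h.symm
  rw [← hμ.d, DG.tens_d, h1, TensorProduct.zero_tmul, zero_add, A.sg_sg]

/-- a cycle times a cycle -/
private lemma frch_zz (hμ : IsCM (A.tens A) A μ) {w z : A.V} (hw : A.d w = 0) (hz : A.d z = 0) :
    A.d (μ (w ⊗ₜ z)) = 0 := by
  rw [← frch_bz hμ w hz, hw, TensorProduct.zero_tmul, map_zero]

private lemma frch_tgr {g : ℕ → Submodule k S.H} {G : ℕ → Submodule k A.V}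
    (hr : ∀ n, ∀ x ∈ G n, S.r x ∈ g n) (n : ℕ) (z : A.V ⊗[k] A.V) (hz : z ∈ tgr G G n) :
    TensorProduct.map S.r S.r z ∈ tgr g g n := by
  have h : tgr G G n ≤ (tgr g g n).comap (TensorProduct.map S.r S.r) := by
    unfold tgr
    rw [Submodule.span_le]
    rintro _ ⟨i, j, x, y, hij, hx, hy, rfl⟩
    refine Submodule.subset_span ⟨i, j, S.r x, S.r y, hij, hr i x hx, hr j y hy, ?_⟩
    exact TensorProduct.map_tmul _ _ _ _
  exact h hz

private lemma frch_cl {ε : A.V →ₗ[k] k} (h : ∀ z, ε (S.i (S.r z)) = ε z) (z : A.V ⊗[k] A.V) :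
    TensorProduct.lid k S.H (TensorProduct.map (ε ∘ₗ S.i) LinearMap.id
      (TensorProduct.map S.r S.r z)) =
      S.r (TensorProduct.lid k A.V (TensorProduct.map ε LinearMap.id z)) := by
  induction z with
  | zero => simp only [map_zero]
  | add x y hx hy => simp only [map_add, hx, hy]
  | tmul a b =>
    rw [TensorProduct.map_tmul, TensorProduct.map_tmul, TensorProduct.map_tmul,
      TensorProduct.lid_tmul, TensorProduct.lid_tmul, LinearMap.comp_apply, h, map_smul]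
    rfl

private lemma frch_cr {ε : A.V →ₗ[k] k} (h : ∀ z, ε (S.i (S.r z)) = ε z) (z : A.V ⊗[k] A.V) :
    TensorProduct.rid k S.H (TensorProduct.map LinearMap.id (ε ∘ₗ S.i)
      (TensorProduct.map S.r S.r z)) =
      S.r (TensorProduct.rid k A.V (TensorProduct.map LinearMap.id ε z)) := by
  induction z with
  | zero => simp only [map_zero]
  | add x y hx hy => simp only [map_add, hx, hy]
  | tmul a b =>
    rw [TensorProduct.map_tmul, TensorProduct.map_tmul, TensorProduct.map_tmul,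
      TensorProduct.rid_tmul, TensorProduct.rid_tmul, LinearMap.comp_apply, h, map_smul]
    rfl

private theorem frch_core (hFRalg : S_FRalg) (hTR : S_TR) (g : ℕ → Submodule k S.H)
    (G : ℕ → Submodule k A.V) (htop : (⨆ n, g n) = ⊤)
    (hP : ∀ n, ∀ x ∈ g n, S.P x = if Odd n then x else 0)
    (hi : ∀ n, ∀ x ∈ g n, S.i x ∈ G n) (hr : ∀ n, ∀ x ∈ G n, S.r x ∈ g n)
    (ε : A.V →ₗ[k] k) (v : A.V) (Δ : A.V →ₗ[k] A.V ⊗[k] A.V) (hΔ : IsCM A (A.tens A) Δ)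
    (hμ : IsCM (A.tens A) A μ)
    (hh : Hot (A.tens A) (A.tens A) (Δ ∘ₗ μ)
      (TensorProduct.map μ μ ∘ₗ exch A.P ∘ₗ TensorProduct.map Δ Δ))
    (Δg : ∀ n, ∀ z ∈ G n, Δ z ∈ tgr G G n)
    (μg : ∀ i j, ∀ x ∈ G i, ∀ y ∈ G j, μ (x ⊗ₜ y) ∈ G (i + j))
    (dε : ∀ x, ε (A.d x) = 0) (εs : ∀ x, ε (S.s x) = 0)
    (εg : ∀ n, 0 < n → ∀ x ∈ G n, ε x = 0)
    (vg : v ∈ G 0) (dv : A.d v = 0) (εv : ε v = 1)
    (cl : ∀ x, TensorProduct.lid k A.V (TensorProduct.map ε LinearMap.id (Δ x)) = x)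
    (cr : ∀ x, TensorProduct.rid k A.V (TensorProduct.map LinearMap.id ε (Δ x)) = x)
    (hl : ∀ x, A.d x = 0 → ∃ y, μ (v ⊗ₜ x) - x = A.d y)
    (hr2 : ∀ x, A.d x = 0 → ∃ y, μ (x ⊗ₜ v) - x = A.d y)
    (h0 : ∀ x ∈ G 0, ∃ y, x - ε x • v = A.d y)
    (d : ℕ) (hd : ∀ n, d < n → ∀ x ∈ G n, A.d x = 0 → ∃ y, x = A.d y)
    (φ : A.V →ₗ[k] k) (hφ : ∀ n, n ≠ d → ∀ x ∈ G n, φ x = 0)
    (hφb : ∀ x, φ (A.d x) = 0) (hφ0 : ∃ x, A.d x = 0 ∧ φ x ≠ 0)
    (x : A.V) (hx : A.d x = 0) (hxx : ∀ y, A.d y = 0 → φ (μ (x ⊗ₜ y)) = 0) :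
    ∃ w, x = A.d w := by
  have εir := frch_eps S dε εs
  have key : S.r x = 0 := by
    refine hFRalg k S.H S.P g htop hP (TensorProduct.map S.r S.r ∘ₗ Δ ∘ₗ S.i)
      (S.r ∘ₗ μ ∘ₗ TensorProduct.map S.i S.i) (S.r v) (ε ∘ₗ S.i) ?_ ?_ ?_ (hr 0 v vg) ?_ ?_ ?_ ?_
      ?_ ?_ ?_ d ?_ (φ ∘ₗ S.i) ?_ ?_ (S.r x) ?_
    · intro n y hy
      exact frch_tgr S hr n _ (Δg n _ (hi n y hy))
    · intro i j y hy z hz
      have e : (S.r ∘ₗ μ ∘ₗ TensorProduct.map S.i S.i) (y ⊗ₜ z) = S.r (μ (S.i y ⊗ₜ S.i z)) := rfl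
      rw [e]
      exact hr _ _ (μg i j _ (hi i y hy) _ (hi j z hz))
    · intro y hy
      obtain ⟨w, hw⟩ := h0 (S.i y) (hi 0 y hy)
      have h := congrArg S.r hw
      rw [map_sub, map_smul, S.ri, S.rd] at h
      exact sub_eq_zero.1 h
    · exact (εir v).trans εv
    · intro n hn y hy
      exact εg n hn _ (hi n y hy)
    · intro y
      refine (frch_cl S εir (Δ (S.i y))).trans ?_
      rw [cl, S.ri]
    · intro y
      refine (frch_cr S εir (Δ (S.i y))).trans ?_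
      rw [cr, S.ri]
    · intro y
      have e : (S.r ∘ₗ μ ∘ₗ TensorProduct.map S.i S.i) (S.r v ⊗ₜ y) =
        S.r (μ (S.i (S.r v) ⊗ₜ S.i y)) := rfl
      obtain ⟨w, hw⟩ := hl (S.i y) (S.di y)
      rw [e, frch_ir S dv, TensorProduct.sub_tmul, map_sub, frch_bz hμ _ (S.di y), map_sub, S.rd,
        sub_zero, sub_eq_iff_eq_add.1 hw, map_add, S.rd, zero_add, S.ri]
    · intro y
      have e : (S.r ∘ₗ μ ∘ₗ TensorProduct.map S.i S.i) (y ⊗ₜ S.r v) =
        S.r (μ (S.i y ⊗ₜ S.i (S.r v))) := rfl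
      obtain ⟨w, hw⟩ := hr2 (S.i y) (S.di y)
      rw [e, frch_ir S dv, TensorProduct.tmul_sub, map_sub, frch_zb hμ _ (S.di y), map_sub, S.rd,
        sub_zero, sub_eq_iff_eq_add.1 hw, map_add, S.rd, zero_add, S.ri]
    · exact hTR k A S Δ μ hΔ hμ hh _ _ (fun _ => rfl) (fun _ => rfl)
    · intro n hn y hy
      obtain ⟨w, hw⟩ := hd n hn (S.i y) (hi n y hy) (S.di y)
      rw [← S.ri y, hw, S.rd]
    · intro n hn y hy
      exact hφ n hn _ (hi n y hy)
    · obtain ⟨y, hy, hy'⟩ := hφ0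
      refine ⟨S.r y, ?_⟩
      rw [LinearMap.comp_apply, frch_phi S hφb hy]
      exact hy'
    · intro b
      have e : (φ ∘ₗ S.i) ((S.r ∘ₗ μ ∘ₗ TensorProduct.map S.i S.i) (S.r x ⊗ₜ b)) =
        φ (S.i (S.r (μ (S.i (S.r x) ⊗ₜ S.i b)))) := rfl
      rw [e, frch_phi S hφb (frch_zz hμ (S.di _) (S.di _)), frch_ir S hx, TensorProduct.sub_tmul,
        map_sub, map_sub, frch_bz hμ _ (S.di b), hφb, sub_zero]
      exact hxx _ (S.di b)
  refine ⟨S.s x, ?_⟩
  have h := frch_ir S hx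
  rw [key, map_zero] at h
  exact sub_eq_zero.1 h.symm

end Core

/-! ## Chains -/

section Chn

variable (k : Type) [CommRing k] {K L : SS}

private lemma frch_aug (n : ℕ) (hn : 0 < n) (x : Ch k K) (hx : x ∈ gr k K n) : aug k K x = 0 := by
  rw [aug, Finsupp.linearCombination_apply, Finsupp.sum]
  refine Finset.sum_eq_zero fun y hy => ?_
  have h1 : y.1 = n := (Finsupp.mem_supported k x).1 hx hy
  rw [if_neg (by omega), smul_zero]

private lemma frch_cmap (f : SSHom K L) (n : ℕ) (x : Ch k K) (hx : x ∈ gr k K n) :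
    cmap k f x ∈ gr k L n := by
  classical
  refine (Finsupp.mem_supported k _).2 ?_
  intro y hy
  have h1 := Finsupp.mapDomain_support hy
  obtain ⟨z, hz, hzy⟩ := Finset.mem_image.1 h1
  have h2 : z.1 = n := (Finsupp.mem_supported k x).1 hx hz
  rw [← hzy]
  exact h2

end Chn

theorem sFRch (hFRalg : S_FRalg) (hTR : S_TR) (hSplT : S_SplT) (hHopf : S_Hopf) (hDlG : S_DlG)
    (hDlC : S_DlC) (hNabG : S_NabG) : S_FRch := by
  intro k _ e he K v m hl hr h0 d hd φ hφ hφb hφ0 x hx hxx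
  obtain ⟨S, g, htop, hP, hi, hr', hs⟩ := hSplT k K
  obtain ⟨hm1, hm2⟩ := hHopf e he k K m
  obtain ⟨hD1, hD2, _, _⟩ := hDlG k K
  have εs : ∀ y, aug k K (S.s y) = 0 := by
    intro y
    have h : aug k K ∘ₗ S.s = 0 := ch_ext fun n z => by
      rw [LinearMap.comp_apply, LinearMap.zero_apply]
      exact frch_aug k (n + 1) n.succ_pos _ (hs n _ (sx_mem_gr k z))
    exact LinearMap.congr_fun h y
  exact frch_core (A := chDG k K) (μ := mu k e m) S hFRalg hTR g (gr k K) htop hP hi hr'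
    (aug k K) (sx k v) (dl k K) hD1 hm1 hm2 hD2
    (fun i j y hy z hz => frch_cmap k m (i + j) _ ((hNabG e he k K K).1 i j y hy z hz))
    (aug_bd k) εs (fun n hn y hy => frch_aug k n hn y hy) (sx_mem_gr k v) (bd_sx_zero k v)
    (aug_sx_zero k v) (fun y => (hDlC k K y).1) (fun y => (hDlC k K y).2) hl hr h0 d hd φ hφ hφb
    hφ0 x hx hxx

end HEp
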