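import Pool.Agent.Lib.MP_181146_gt.HE.SpecG

/-!
# Project HE: fixed points of a `p`-group acting on a finite `p`-group
-/

set_option autoImplicit false

namespace HEp

theorem sFix : S_Fix := by
  intro G _ _ T _ _ _ _ p k m hp hT hg
  have : Fact p.Prime := ⟨hp⟩
  -- the elements killed by `p`
  let T' : AddSubgroup T := (zsmulAddGroupHom (p : ℤ) : T →+ T).ker
  have hT' : ∀ t : T, t ∈ T' ↔ (p : ℤ) • t = 0 := fun t => Iff.rfl
  have hst : ∀ (g : G) (t : T), t ∈ T' → MonoidAlgebra.of ℤ G g • t ∈ T' := by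
    intro g t ht
    rw [hT'] at ht ⊢
    rw [smul_comm, ht, smul_zero]
  let act : MulAction G T' :=
    { smul := fun g t => ⟨MonoidAlgebra.of ℤ G g • t.1, hst g t.1 t.2⟩
      one_smul := fun t => Subtype.ext (by
        change MonoidAlgebra.of ℤ G 1 • t.1 = t.1
        rw [map_one, one_smul])
      mul_smul := fun a b t => Subtype.ext (by
        change MonoidAlgebra.of ℤ G (a * b) • t.1 =
          MonoidAlgebra.of ℤ G a • MonoidAlgebra.of ℤ G b • t.1
        rw [map_mul, mul_smul]) }
  have hact : ∀ (g : G) (t : T'), ((g • t : T') : T) = MonoidAlgebra.of ℤ G g • t.1 :=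
    fun _ _ => rfl
  let φ : G →* Equiv.Perm T' := MulAction.toPermHom G T'
  have hpg : IsPGroup p φ.range := by
    rintro ⟨_, g, rfl⟩
    refine ⟨k, Subtype.ext ?_⟩
    change (φ g) ^ p ^ k = 1
    rw [← map_pow]
    refine Equiv.ext fun t => Subtype.ext ?_
    exact hg g t.1
  have hmod := hpg.card_modEq_card_fixedPoints T'
  -- the order of `T'` is divisible by `p`
  have hm : m ≠ 0 := by
    rintro rfl
    have h1 : 1 < Nat.card T := Finite.one_lt_card
    rw [hT, pow_zero] at h1
    exact lt_irrefl _ h1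
  have hdvd : p ∣ Nat.card T' := by
    obtain ⟨t, ht⟩ := exists_prime_addOrderOf_dvd_card' (G := T) p (by
      rw [hT]
      exact dvd_pow_self p hm)
    have htT : t ∈ T' := by
      rw [hT', ← ht, natCast_zsmul, addOrderOf_nsmul_eq_zero]
    have h1 : addOrderOf (⟨t, htT⟩ : T') = p := by
      rw [← ht]
      exact (AddSubgroup.addOrderOf_coe (⟨t, htT⟩ : T')).symm
    rw [← h1]
    exact addOrderOf_dvd_natCard _
  have hfix : p ∣ Nat.card (MulAction.fixedPoints φ.range T') := by
    rwa [← (hmod.dvd_iff (dvd_refl p))]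
  -- zero is a fixed point
  have h0 : (0 : T') ∈ MulAction.fixedPoints φ.range T' := by
    rintro ⟨_, g, rfl⟩
    refine Subtype.ext ?_
    change MonoidAlgebra.of ℤ G g • (0 : T) = 0
    rw [smul_zero]
  have hne : 1 < Nat.card (MulAction.fixedPoints φ.range T') := by
    have h2 : 0 < Nat.card (MulAction.fixedPoints φ.range T') := by
      have : Nonempty (MulAction.fixedPoints φ.range T') := ⟨⟨0, h0⟩⟩
      exact Nat.card_pos
    exact lt_of_lt_of_le hp.one_lt (Nat.le_of_dvd h2 hfix)
  have hnt : Nontrivial (MulAction.fixedPoints φ.range T') := Finite.one_lt_card_iff_nontrivial.1 hne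
  obtain ⟨x, hx⟩ := exists_ne (⟨0, h0⟩ : MulAction.fixedPoints φ.range T')
  refine ⟨x.1.1, ?_, (hT' _).1 x.1.2, ?_⟩
  · intro h
    exact hx (Subtype.ext (Subtype.ext h))
  · intro g
    have h3 := x.2 ⟨φ g, g, rfl⟩
    exact congrArg Subtype.val h3

end HEp
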