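import Pool.Agent.Lib.MP_181146_gt.HE.SpecS

set_option autoImplicit false

namespace HEp

theorem sH0E (hSH0 : S_SH0) : S_H0E := by
  intro G _ X E _ _ act t hneg p hp x hx
  -- a boundary of an element of degree one
  obtain ⟨w, hw⟩ : ∃ w : X.P 1, X.d 1 0 w = (p : ℤ) • x := by
    obtain ⟨k, y, hy⟩ := hx
    by_cases hk : (0 : ℤ) + 1 = k
    · subst hk
      exact ⟨y, hy⟩
    · refine ⟨0, ?_⟩
      rw [← hy, X.shape k 0 hk, map_zero]
      rfl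
  have h1 : t.f 0 (X.d 1 0 w) = bd ℤ (Sing E) (t.f 1 w) := t.fd 1 w
  rw [hw, map_zsmul] at h1
  have h2 : aug ℤ (Sing E) (t.f 0 x) = 0 := by
    have h3 := congrArg (aug ℤ (Sing E)) h1
    rw [aug_bd, map_zsmul, smul_eq_mul] at h3
    rcases mul_eq_zero.1 h3 with h4 | h4
    · exact absurd (by exact_mod_cast h4) hp.ne_zero
    · exact h4
  obtain ⟨v⟩ : Nonempty E := PathConnectedSpace.nonempty
  obtain ⟨y, hy⟩ := hSH0 ℤ E v (t.f 0 x) (t.f_gr 0 x)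
  rw [h2, zero_smul, sub_zero] at hy
  have h3 : t.f' 0 (bd ℤ (Sing E) y) = X.d 1 0 (t.f' 1 y) := t.f'd 1 y
  have h4 : t.f' 0 (t.f 0 x) - x = X.d 1 0 (t.h 0 1 x) + t.h (-1) 0 (X.d 0 (-1) x) := t.hX 0 x
  have : Subsingleton (X.P (-1)) := hneg (-1) (by norm_num)
  have h5 : X.d 0 (-1) x = 0 := Subsingleton.elim _ _
  rw [h5, map_zero, add_zero, hy, h3] at h4
  refine ⟨1, t.f' 1 y - t.h 0 1 x, ?_⟩
  rw [map_sub, ← h4]
  abel

end HEp
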