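import Mathlib

/-!
# Project HE: the group `KT R` (reduced projective class group)

`KT R` is the set of finitely generated projective `R`-modules modulo the relation
`M × R^a ≃ N × R^b` for some `a`, `b`; the direct sum makes it an abelian group.
-/

set_option autoImplicit false

namespace HEp

section

variable (R : Type) [CommRing R]

/-- Stable isomorphism (up to free modules on both sides). -/
def SIso (M N : Type) [AddCommGroup M] [Module R M] [AddCommGroup N] [Module R N] : Prop :=
  ∃ a b : ℕ, Nonempty ((M × (Fin a → R)) ≃ₗ[R] (N × (Fin b → R)))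

/-- A finitely generated projective module. -/
structure FPr where
  M : Type
  [ac : AddCommGroup M]
  [mo : Module R M]
  [fi : Module.Finite R M]
  [pr : Module.Projective R M]

attribute [instance] FPr.ac FPr.mo FPr.fi FPr.pr

variable {R}

lemma SIso.refl (M : Type) [AddCommGroup M] [Module R M] : SIso R M M :=
  ⟨0, 0, ⟨LinearEquiv.refl R _⟩⟩

lemma SIso.symm {M N : Type} [AddCommGroup M] [Module R M] [AddCommGroup N] [Module R N]
    (h : SIso R M N) : SIso R N M := by
  obtain ⟨a, b, ⟨e⟩⟩ := h
  exact ⟨b, a, ⟨e.symm⟩⟩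

/-- `R^a × R^b ≃ R^(a+b)`. -/
noncomputable def finAddEquiv (a b : ℕ) : ((Fin a → R) × (Fin b → R)) ≃ₗ[R] (Fin (a + b) → R) :=
  (LinearEquiv.sumArrowLequivProdArrow (Fin a) (Fin b) R R).symm.trans
    (LinearEquiv.funCongrLeft R R finSumFinEquiv.symm)

lemma SIso.of_prod {M N : Type} [AddCommGroup M] [Module R M] [AddCommGroup N] [Module R N]
    (a b : ℕ) (e : (M × (Fin a → R)) ≃ₗ[R] (N × (Fin b → R))) : SIso R M N := ⟨a, b, ⟨e⟩⟩

lemma SIso.trans {M N L : Type} [AddCommGroup M] [Module R M] [AddCommGroup N] [Module R N]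
    [AddCommGroup L] [Module R L] (h : SIso R M N) (h' : SIso R N L) : SIso R M L := by
  obtain ⟨a, b, ⟨e⟩⟩ := h
  obtain ⟨c, f, ⟨e'⟩⟩ := h'
  refine ⟨a + c, f + b, ⟨?_⟩⟩
  have e1 : (M × (Fin (a + c) → R)) ≃ₗ[R] ((M × (Fin a → R)) × (Fin c → R)) :=
    ((LinearEquiv.refl R M).prodCongr (finAddEquiv a c).symm).trans
      (LinearEquiv.prodAssoc R M (Fin a → R) (Fin c → R)).symm
  have e2 : ((N × (Fin b → R)) × (Fin c → R)) ≃ₗ[R] ((N × (Fin c → R)) × (Fin b → R)) :=
    ((LinearEquiv.prodAssoc R N (Fin b → R) (Fin c → R)).trans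
      ((LinearEquiv.refl R N).prodCongr (LinearEquiv.prodComm R (Fin b → R) (Fin c → R)))).trans
      (LinearEquiv.prodAssoc R N (Fin c → R) (Fin b → R)).symm
  have e3 : ((L × (Fin f → R)) × (Fin b → R)) ≃ₗ[R] (L × (Fin (f + b) → R)) :=
    (LinearEquiv.prodAssoc R L (Fin f → R) (Fin b → R)).trans
      ((LinearEquiv.refl R L).prodCongr (finAddEquiv f b))
  exact e1.trans ((e.prodCongr (LinearEquiv.refl R _)).trans
    (e2.trans ((e'.prodCongr (LinearEquiv.refl R _)).trans e3)))

lemma SIso.of_equiv {M N : Type} [AddCommGroup M] [Module R M] [AddCommGroup N] [Module R N]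
    (e : M ≃ₗ[R] N) : SIso R M N := ⟨0, 0, ⟨e.prodCongr (LinearEquiv.refl R _)⟩⟩

lemma SIso.prod {M N M' N' : Type} [AddCommGroup M] [Module R M] [AddCommGroup N] [Module R N]
    [AddCommGroup M'] [Module R M'] [AddCommGroup N'] [Module R N']
    (h : SIso R M N) (h' : SIso R M' N') : SIso R (M × M') (N × N') := by
  obtain ⟨a, b, ⟨e⟩⟩ := h
  obtain ⟨c, f, ⟨e'⟩⟩ := h'
  have e1 : ∀ (A B : Type) [AddCommGroup A] [Module R A] [AddCommGroup B] [Module R B] (a c : ℕ),
      Nonempty (((A × B) × (Fin (a + c) → R)) ≃ₗ[R] ((A × (Fin a → R)) × (B × (Fin c → R)))) := by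
    intro A B _ _ _ _ a c
    exact ⟨((LinearEquiv.refl R (A × B)).prodCongr (finAddEquiv a c).symm).trans
      (LinearEquiv.prodProdProdComm R A B (Fin a → R) (Fin c → R))⟩
  obtain ⟨u⟩ := e1 M M' a c
  obtain ⟨v⟩ := e1 N N' b f
  exact ⟨a + c, b + f, ⟨u.trans ((e.prodCongr e').trans v.symm)⟩⟩

variable (R)

/-- The relation on finitely generated projective modules. -/
def fprSetoid : Setoid (FPr R) where
  r A B := SIso R A.M B.M
  iseqv := ⟨fun A => SIso.refl A.M, fun h => h.symm, fun h h' => h.trans h'⟩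

/-- The reduced projective class group. -/
def KT : Type 1 := Quotient (fprSetoid R)

variable {R}

/-- The class of a finitely generated projective module. -/
def cl (R : Type) [CommRing R] (M : Type) [AddCommGroup M] [Module R M] [Module.Finite R M]
    [Module.Projective R M] : KT R :=
  Quotient.mk (fprSetoid R) ⟨M⟩

lemma cl_eq_iff {M N : Type} [AddCommGroup M] [Module R M] [Module.Finite R M]
    [Module.Projective R M] [AddCommGroup N] [Module R N] [Module.Finite R N]
    [Module.Projective R N] : cl R M = cl R N ↔ SIso R M N :=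
  ⟨fun h => Quotient.exact h, fun h => Quotient.sound h⟩

lemma cl_congr {M N : Type} [AddCommGroup M] [Module R M] [Module.Finite R M]
    [Module.Projective R M] [AddCommGroup N] [Module R N] [Module.Finite R N]
    [Module.Projective R N] (e : M ≃ₗ[R] N) : cl R M = cl R N :=
  cl_eq_iff.2 (SIso.of_equiv e)

lemma exists_compl (M : Type) [AddCommGroup M] [Module R M] [Module.Finite R M]
    [Module.Projective R M] : ∃ N : FPr R, ∃ n : ℕ, Nonempty ((M × N.M) ≃ₗ[R] (Fin n → R)) := by
  obtain ⟨n, f, hf⟩ := Module.Finite.exists_fin' R M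
  obtain ⟨g, hg⟩ := Module.projective_lifting_property f LinearMap.id hf
  have hinv : ∀ x, f (g x) = x := fun x => LinearMap.congr_fun hg x
  let q : (Fin n → R) →ₗ[R] LinearMap.ker f :=
    LinearMap.codRestrict (LinearMap.ker f) (LinearMap.id - g ∘ₗ f) (fun x => by
      simp [hinv])
  have hq : ∀ x : LinearMap.ker f, q x = x := by
    intro x
    ext i
    have := x.2
    rw [LinearMap.mem_ker] at this
    simp [q, this]
  have : Module.Finite R (LinearMap.ker f) := Module.Finite.of_surjective q (fun x => ⟨x, hq x⟩)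
  have : Module.Projective R (LinearMap.ker f) :=
    Module.Projective.of_split (LinearMap.ker f).subtype q (by ext x; simp [hq])
  refine ⟨⟨LinearMap.ker f⟩, n, ⟨?_⟩⟩
  refine LinearEquiv.ofLinearMap (LinearMap.coprod g (LinearMap.ker f).subtype)
    (LinearMap.prod f q) ?_ ?_
  · ext x i
    simp [q]
  · apply LinearMap.ext
    rintro ⟨m, k⟩
    have hk := k.2
    rw [LinearMap.mem_ker] at hk
    refine Prod.ext ?_ ?_
    · simp [hinv, hk]
    · ext i
      simp [q, hinv, hk]

noncomputable instance : Add (KT R) :=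
  ⟨Quotient.map₂ (fun A B => ⟨A.M × B.M⟩) (fun _ _ h _ _ h' => SIso.prod h h')⟩

noncomputable instance : Zero (KT R) := ⟨cl R PUnit⟩

lemma cl_prod (M N : Type) [AddCommGroup M] [Module R M] [Module.Finite R M]
    [Module.Projective R M] [AddCommGroup N] [Module R N] [Module.Finite R N]
    [Module.Projective R N] : cl R (M × N) = cl R M + cl R N := rfl

lemma KT.ind {p : KT R → Prop} (h : ∀ A : FPr R, p (cl R A.M)) (x : KT R) : p x :=
  Quotient.inductionOn x h

lemma cl_free (n : ℕ) : cl R (Fin n → R) = 0 :=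
  cl_eq_iff.2 ⟨0, n, ⟨(LinearEquiv.prodUnique).trans (LinearEquiv.uniqueProd).symm⟩⟩

lemma cl_self : cl R R = 0 := by
  rw [← cl_free 1]
  exact cl_congr (LinearEquiv.funUnique (Fin 1) R R).symm

lemma cl_subsingleton (M : Type) [AddCommGroup M] [Module R M] [Module.Finite R M]
    [Module.Projective R M] [Subsingleton M] : cl R M = 0 := by
  exact cl_congr ⟨⟨⟨fun _ => PUnit.unit, fun _ _ => rfl⟩, fun _ _ => rfl⟩, fun _ => 0,
    fun _ => Subsingleton.elim _ _, fun _ => rfl⟩

/-- A chosen complement. -/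
noncomputable def negFPr (A : FPr R) : FPr R := (exists_compl (R := R) A.M).choose

lemma cl_add_neg (A : FPr R) : cl R A.M + cl R (negFPr A).M = 0 := by
  obtain ⟨n, ⟨e⟩⟩ := (exists_compl (R := R) A.M).choose_spec
  rw [← cl_free n, ← cl_prod]
  exact cl_congr e

lemma KT.add_comm' (x y : KT R) : x + y = y + x := by
  induction x using KT.ind with | _ A => ?_
  induction y using KT.ind with | _ B => ?_
  rw [← cl_prod, ← cl_prod]
  exact cl_congr (LinearEquiv.prodComm R A.M B.M)

lemma KT.add_assoc' (x y z : KT R) : x + y + z = x + (y + z) := by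
  induction x using KT.ind with | _ A => ?_
  induction y using KT.ind with | _ B => ?_
  induction z using KT.ind with | _ C => ?_
  rw [← cl_prod, ← cl_prod, ← cl_prod, ← cl_prod]
  exact cl_congr (LinearEquiv.prodAssoc R A.M B.M C.M)

lemma KT.add_zero' (x : KT R) : x + 0 = x := by
  induction x using KT.ind with | _ A => ?_
  change cl R A.M + cl R PUnit = _
  rw [← cl_prod]
  exact cl_congr LinearEquiv.prodUnique

lemma KT.neg_wd (A B : FPr R) (h : SIso R A.M B.M) : SIso R (negFPr A).M (negFPr B).M := by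
  have h1 : cl R A.M = cl R B.M := cl_eq_iff.2 h
  have hA := cl_add_neg A
  have hB := cl_add_neg B
  rw [h1] at hA
  refine cl_eq_iff.1 ?_
  calc cl R (negFPr A).M = cl R (negFPr A).M + 0 := (KT.add_zero' _).symm
    _ = cl R (negFPr A).M + (cl R B.M + cl R (negFPr B).M) := by rw [hB]
    _ = (cl R B.M + cl R (negFPr A).M) + cl R (negFPr B).M := by
        rw [← KT.add_assoc', KT.add_comm' (cl R (negFPr A).M)]
    _ = cl R (negFPr B).M := by rw [hA, KT.add_comm', KT.add_zero']

noncomputable instance : Neg (KT R) :=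
  ⟨Quotient.map negFPr KT.neg_wd⟩

noncomputable instance : AddCommGroup (KT R) where
  add_assoc := KT.add_assoc'
  zero_add x := by rw [KT.add_comm', KT.add_zero']
  add_zero := KT.add_zero'
  nsmul := nsmulRec
  zsmul := zsmulRec
  neg_add_cancel x := by
    rw [KT.add_comm']
    induction x using KT.ind with | _ A => exact cl_add_neg A
  add_comm := KT.add_comm'

instance projPi {ι : Type} [Finite ι] (M : ι → Type) [∀ i, AddCommGroup (M i)]
    [∀ i, Module R (M i)] [∀ i, Module.Projective R (M i)] : Module.Projective R (∀ i, M i) := by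
  classical
  cases nonempty_fintype ι
  exact Module.Projective.of_equiv (DFinsupp.linearEquivFunOnFintype (R := R) (M := M))

lemma cl_pi_fin (n : ℕ) (M : Type) [AddCommGroup M] [Module R M] [Module.Finite R M]
    [Module.Projective R M] : cl R (Fin n → M) = n • cl R M := by
  induction n with
  | zero => rw [zero_smul]; exact cl_subsingleton _
  | succ n ih =>
    rw [succ_nsmul', ← ih, ← cl_prod]
    exact cl_congr (Fin.consLinearEquiv R (fun _ : Fin (n + 1) => M)).symm

end

end HEp
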