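import Pool.Agent.Lib.MP_181146_gt.HS.DefsB
import Pool.Agent.Lib.MP_181146_gt.HE.DefsK

/-!
# Project HE: modules over the integral group ring of a finite abelian group
-/

set_option autoImplicit false

namespace HEp

open scoped TensorProduct

/-- The integral group ring. -/
abbrev ZG (G : Type) : Type := MonoidAlgebra ℤ G

/-! ## The dual `Hom(M, ℤ)`, without involution: `(a f)(x) = f (a x)` -/

section Dual

variable {R : Type} [CommRing R]

/-- The additive group `Hom(M, ℤ)`. -/
def ZD (R M : Type) [CommRing R] [AddCommGroup M] [Module R M] : Type := M →+ ℤ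

instance (R M : Type) [CommRing R] [AddCommGroup M] [Module R M] : AddCommGroup (ZD R M) :=
  inferInstanceAs (AddCommGroup (M →+ ℤ))

instance (R M : Type) [CommRing R] [AddCommGroup M] [Module R M] : FunLike (ZD R M) M ℤ :=
  inferInstanceAs (FunLike (M →+ ℤ) M ℤ)

instance (R M : Type) [CommRing R] [AddCommGroup M] [Module R M] : AddMonoidHomClass (ZD R M) M ℤ :=
  inferInstanceAs (AddMonoidHomClass (M →+ ℤ) M ℤ)

instance (R M : Type) [CommRing R] [AddCommGroup M] [Module R M] : Module R (ZD R M) where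
  smul a f := AddMonoidHom.comp (f : M →+ ℤ) (DistribSMul.toAddMonoidHom M a)
  one_smul f := by
    apply AddMonoidHom.ext
    intro x
    exact congrArg (f : M →+ ℤ) (one_smul R x)
  mul_smul a b f := by
    apply AddMonoidHom.ext
    intro x
    change (f : M →+ ℤ) ((a * b) • x) = (f : M →+ ℤ) (b • a • x)
    rw [mul_comm, mul_smul]
  smul_zero a := by
    apply AddMonoidHom.ext
    intro x
    rfl
  smul_add a f g := by
    apply AddMonoidHom.ext
    intro x
    rfl
  add_smul a b f := by
    apply AddMonoidHom.ext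
    intro x
    change (f : M →+ ℤ) ((a + b) • x) = (f : M →+ ℤ) (a • x) + (f : M →+ ℤ) (b • x)
    rw [add_smul, map_add]
  zero_smul f := by
    apply AddMonoidHom.ext
    intro x
    change (f : M →+ ℤ) ((0 : R) • x) = 0
    rw [zero_smul, map_zero]

lemma ZD_smul_apply (R M : Type) [CommRing R] [AddCommGroup M] [Module R M] (a : R) (f : ZD R M)
    (x : M) : (a • f) x = f (a • x) := rfl

/-- The dual of a linear map. -/
def ZDmap {M N : Type} [AddCommGroup M] [Module R M] [AddCommGroup N] [Module R N]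
    (u : M →ₗ[R] N) : ZD R N →ₗ[R] ZD R M where
  toFun f := AddMonoidHom.comp (f : N →+ ℤ) u.toAddMonoidHom
  map_add' f g := by
    apply AddMonoidHom.ext
    intro x
    rfl
  map_smul' a f := by
    apply AddMonoidHom.ext
    intro x
    change (f : N →+ ℤ) (a • u x) = (f : N →+ ℤ) (u (a • x))
    rw [u.map_smul]

lemma ZDmap_apply {M N : Type} [AddCommGroup M] [Module R M] [AddCommGroup N] [Module R N]
    (u : M →ₗ[R] N) (f : ZD R N) (x : M) : ZDmap u f x = f (u x) := rfl

end Dual

/-! ## Restriction along a homomorphism of groups -/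

section Restr

variable {H G : Type} [CommGroup H] [CommGroup G]

/-- The module `M`, as a module over the group ring of `H`. -/
def RS (_j : H →* G) (M : Type) : Type := M

instance (j : H →* G) (M : Type) [AddCommGroup M] : AddCommGroup (RS j M) :=
  inferInstanceAs (AddCommGroup M)

noncomputable instance (j : H →* G) (M : Type) [AddCommGroup M] [Module (ZG G) M] :
    Module (ZG H) (RS j M) :=
  letI : Module (ZG G) (RS j M) := inferInstanceAs (Module (ZG G) M)
  Module.compHom (RS j M) (MonoidAlgebra.mapDomainRingHom ℤ j)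

lemma RS_smul_def (j : H →* G) (M : Type) [AddCommGroup M] [Module (ZG G) M] (a : ZG H)
    (x : RS j M) :
    a • x = ((MonoidAlgebra.mapDomainRingHom ℤ j a • (show M from x) : M) : RS j M) := rfl

lemma RS_of_smul (j : H →* G) (M : Type) [AddCommGroup M] [Module (ZG G) M] (h : H)
    (x : RS j M) :
    MonoidAlgebra.of ℤ H h • x = ((MonoidAlgebra.of ℤ G (j h) • (show M from x) : M) : RS j M) := by
  rw [RS_smul_def]
  congr 1
  simp [MonoidAlgebra.mapDomainRingHom_apply]

/-- A linear map, restricted. -/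
noncomputable def RSmap (j : H →* G) {M N : Type} [AddCommGroup M] [Module (ZG G) M]
    [AddCommGroup N] [Module (ZG G) N] (u : M →ₗ[ZG G] N) : RS j M →ₗ[ZG H] RS j N where
  toFun x := u x
  map_add' x y := u.map_add x y
  map_smul' a x := u.map_smul (MonoidAlgebra.mapDomainRingHom ℤ j a) x

end Restr

/-! ## Actions of groups give modules over the group ring -/

section Act

variable {G : Type} [CommGroup G]

/-- The ring homomorphism from the group ring to the endomorphisms given by an action. -/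
noncomputable def actHom {M : Type} [AddCommGroup M] (r : G →* AddMonoid.End M) :
    ZG G →+* AddMonoid.End M :=
  (MonoidAlgebra.lift ℤ (AddMonoid.End M) G r).toRingHom

lemma actHom_of {M : Type} [AddCommGroup M] (r : G →* AddMonoid.End M) (g : G) :
    actHom r (MonoidAlgebra.of ℤ G g) = r g :=
  MonoidAlgebra.lift_of _ _

/-- Multiplication by a group element. -/
noncomputable def gEnd (M : Type) [AddCommGroup M] [Module (ZG G) M] :
    G →* AddMonoid.End M where
  toFun g := DistribSMul.toAddMonoidHom M (MonoidAlgebra.of ℤ G g)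
  map_one' := by
    ext x
    change MonoidAlgebra.of ℤ G 1 • x = x
    rw [map_one, one_smul]
  map_mul' a b := by
    ext x
    change MonoidAlgebra.of ℤ G (a * b) • x = MonoidAlgebra.of ℤ G a • MonoidAlgebra.of ℤ G b • x
    rw [map_mul, mul_smul]

/-- Functions `X → M` on an abelian group `X`, where `G` acts through `ρ : G → X` by translations
and on `M`: `(g F)(x) = g F (x - ρ g)`. -/
def TF {X : Type} [AddCommGroup X] (_ρ : G →* Multiplicative X) (M : Type) : Type := X → M

instance {X : Type} [AddCommGroup X] (ρ : G →* Multiplicative X) (M : Type) [AddCommGroup M] :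
    AddCommGroup (TF ρ M) :=
  inferInstanceAs (AddCommGroup (X → M))

/-- The action of `G` on `TF ρ M`. -/
noncomputable def tfAct {X : Type} [AddCommGroup X] (ρ : G →* Multiplicative X) (M : Type)
    [AddCommGroup M] [Module (ZG G) M] : G →* AddMonoid.End (TF ρ M) where
  toFun g :=
    { toFun := fun F x => MonoidAlgebra.of ℤ G g • F (x - (ρ g).toAdd)
      map_zero' := by
        funext x
        change MonoidAlgebra.of ℤ G g • (0 : M) = 0
        rw [smul_zero]
      map_add' := fun F F' => by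
        funext x
        change MonoidAlgebra.of ℤ G g • (F (x - (ρ g).toAdd) + F' (x - (ρ g).toAdd)) = _
        rw [smul_add]
        rfl }
  map_one' := by
    ext F
    funext x
    change MonoidAlgebra.of ℤ G 1 • F (x - (ρ 1).toAdd) = F x
    rw [map_one, map_one, one_smul, toAdd_one, sub_zero]
  map_mul' a b := by
    ext F
    funext x
    change MonoidAlgebra.of ℤ G (a * b) • F (x - (ρ (a * b)).toAdd) =
      MonoidAlgebra.of ℤ G a • (MonoidAlgebra.of ℤ G b • F (x - (ρ a).toAdd - (ρ b).toAdd))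
    rw [map_mul, map_mul, mul_smul, toAdd_mul, sub_sub]

noncomputable instance {X : Type} [AddCommGroup X] (ρ : G →* Multiplicative X) (M : Type)
    [AddCommGroup M] [Module (ZG G) M] : Module (ZG G) (TF ρ M) :=
  letI : Module (AddMonoid.End (TF ρ M)) (TF ρ M) := AddMonoid.End.applyModule
  Module.compHom (TF ρ M) (actHom (tfAct ρ M))

lemma TF_of_smul {X : Type} [AddCommGroup X] (ρ : G →* Multiplicative X) (M : Type)
    [AddCommGroup M] [Module (ZG G) M] (g : G) (F : TF ρ M) (x : X) :
    (MonoidAlgebra.of ℤ G g • F : TF ρ M) x = MonoidAlgebra.of ℤ G g • F (x - (ρ g).toAdd) := by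
  change (actHom (tfAct ρ M) (MonoidAlgebra.of ℤ G g) F) x = _
  rw [actHom_of]
  rfl

/-- The abelian group `A` with the trivial action of `G`. -/
def Tv (_G A : Type) : Type := A

instance (G A : Type) [AddCommGroup A] : AddCommGroup (Tv G A) :=
  inferInstanceAs (AddCommGroup A)

noncomputable instance (G A : Type) [CommGroup G] [AddCommGroup A] : Module (ZG G) (Tv G A) :=
  letI : Module (AddMonoid.End (Tv G A)) (Tv G A) := AddMonoid.End.applyModule
  Module.compHom (Tv G A) (actHom (1 : G →* AddMonoid.End (Tv G A)))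

lemma Tv_of_smul (G A : Type) [CommGroup G] [AddCommGroup A] (g : G) (x : Tv G A) :
    MonoidAlgebra.of ℤ G g • x = x := by
  change actHom (1 : G →* AddMonoid.End (Tv G A)) (MonoidAlgebra.of ℤ G g) x = x
  rw [actHom_of]
  rfl

/-- The tensor product over `ℤ` with the diagonal action. -/
def DT (G M L : Type) [CommGroup G] [AddCommGroup M] [AddCommGroup L] : Type := M ⊗[ℤ] L

noncomputable instance (G M L : Type) [CommGroup G] [AddCommGroup M] [AddCommGroup L] :
    AddCommGroup (DT G M L) :=
  inferInstanceAs (AddCommGroup (M ⊗[ℤ] L))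

/-- The element `m ⊗ l`. -/
def dt (G : Type) {M L : Type} [CommGroup G] [AddCommGroup M] [AddCommGroup L] (m : M) (l : L) :
    DT G M L := m ⊗ₜ[ℤ] l

/-- The diagonal action of `G` on `M ⊗ L`. -/
noncomputable def dtAct (G M L : Type) [CommGroup G] [AddCommGroup M] [Module (ZG G) M]
    [AddCommGroup L] [Module (ZG G) L] : G →* AddMonoid.End (DT G M L) where
  toFun g := (TensorProduct.map (gEnd M g : M →+ M).toIntLinearMap
    (gEnd L g : L →+ L).toIntLinearMap).toAddMonoidHom
  map_one' := by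
    apply AddMonoidHom.ext
    intro x
    change TensorProduct.map _ _ x = x
    have h1 : (gEnd M (1 : G) : M →+ M).toIntLinearMap = LinearMap.id := by
      rw [map_one]
      rfl
    have h2 : (gEnd L (1 : G) : L →+ L).toIntLinearMap = LinearMap.id := by
      rw [map_one]
      rfl
    rw [h1, h2, TensorProduct.map_id]
    rfl
  map_mul' a b := by
    apply AddMonoidHom.ext
    intro x
    change TensorProduct.map _ _ x = TensorProduct.map _ _ (TensorProduct.map _ _ x)
    have h1 : (gEnd M (a * b) : M →+ M).toIntLinearMap =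
        (gEnd M a : M →+ M).toIntLinearMap ∘ₗ (gEnd M b : M →+ M).toIntLinearMap := by
      rw [map_mul]
      rfl
    have h2 : (gEnd L (a * b) : L →+ L).toIntLinearMap =
        (gEnd L a : L →+ L).toIntLinearMap ∘ₗ (gEnd L b : L →+ L).toIntLinearMap := by
      rw [map_mul]
      rfl
    rw [h1, h2, TensorProduct.map_comp]
    rfl

noncomputable instance (G M L : Type) [CommGroup G] [AddCommGroup M] [Module (ZG G) M]
    [AddCommGroup L] [Module (ZG G) L] : Module (ZG G) (DT G M L) :=
  letI : Module (AddMonoid.End (DT G M L)) (DT G M L) := AddMonoid.End.applyModule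
  Module.compHom (DT G M L) (actHom (dtAct G M L))

lemma DT_of_smul (G M L : Type) [CommGroup G] [AddCommGroup M] [Module (ZG G) M]
    [AddCommGroup L] [Module (ZG G) L] (g : G) (m : M) (l : L) :
    MonoidAlgebra.of ℤ G g • dt G m l =
      dt G (MonoidAlgebra.of ℤ G g • m) (MonoidAlgebra.of ℤ G g • l) := by
  change actHom (dtAct G M L) (MonoidAlgebra.of ℤ G g) (dt G m l) = _
  rw [actHom_of]
  rfl

end Act

/-- The `p + 1` functionals on `𝔽_p²`: `(a, b) ↦ b` and `(a, b) ↦ a - s b`. -/
def lin (p : ℕ) : Option (ZMod p) → (ZMod p × ZMod p →+ ZMod p)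
  | none => AddMonoidHom.snd _ _
  | some s => AddMonoidHom.fst _ _ - (AddMonoidHom.mulLeft s).comp (AddMonoidHom.snd _ _)

/-- The homomorphism `G → 𝔽_p` obtained from `π : G → 𝔽_p²` and the functional `l`. -/
def linG {G : Type} [CommGroup G] {p : ℕ} (π : G →* Multiplicative (ZMod p × ZMod p))
    (l : Option (ZMod p)) : G →* Multiplicative (ZMod p) :=
  (AddMonoidHom.toMultiplicative (lin p l)).comp π

/-! ## Complexes indexed by `ℤ` -/

/-- A bounded complex of finitely generated projective modules, indexed by `ℤ`. -/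
structure ZCx (R : Type) [CommRing R] where
  P : ℤ → Type
  [ac : ∀ i, AddCommGroup (P i)]
  [mo : ∀ i, Module R (P i)]
  [fi : ∀ i, Module.Finite R (P i)]
  [pr : ∀ i, Module.Projective R (P i)]
  d : ∀ i j : ℤ, P i →ₗ[R] P j
  shape : ∀ i j : ℤ, j + 1 ≠ i → d i j = 0
  dd : ∀ (i j k : ℤ) (x : P i), d j k (d i j x) = 0
  N : ℕ
  bdd : ∀ i : ℤ, (N : ℤ) < |i| → Subsingleton (P i)

attribute [instance] ZCx.ac ZCx.mo ZCx.fi ZCx.pr

section ZC

variable {R : Type} [CommRing R]

/-- The Euler class `∑ (-1)^i cl(P_i)`. -/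
noncomputable def ZCx.EC (X : ZCx R) : KT R :=
  ∑ i ∈ Finset.Icc (-(X.N : ℤ)) X.N, (i.negOnePow : ℤ) • cl R (X.P i)

/-- Cycles in degree `i`. -/
def ZCx.Cyc (X : ZCx R) (i : ℤ) (x : X.P i) : Prop := ∀ j, X.d i j x = 0

/-- Boundaries in degree `i`. -/
def ZCx.Bdy (X : ZCx R) (i : ℤ) (x : X.P i) : Prop := ∃ (k : ℤ) (y : X.P k), X.d k i y = x

/-- Chain maps. -/
structure ZHom (X Y : ZCx R) where
  f : ∀ i, X.P i →ₗ[R] Y.P i
  comm : ∀ (i j : ℤ) (x : X.P i), f j (X.d i j x) = Y.d i j (f i x)

/-- Quasi-isomorphisms. -/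
def ZHom.QI {X Y : ZCx R} (F : ZHom X Y) : Prop :=
  (∀ i (x : X.P i), X.Cyc i x → Y.Bdy i (F.f i x) → X.Bdy i x) ∧
  ∀ i (y : Y.P i), Y.Cyc i y → ∃ x : X.P i, X.Cyc i x ∧ Y.Bdy i (y - F.f i x)

/-- Exactness. -/
def ZCx.Exact (X : ZCx R) : Prop := ∀ i (x : X.P i), X.Cyc i x → X.Bdy i x

/-- Cycles modulo `p`. -/
def ZCx.CycP (X : ZCx R) (p : ℕ) (i : ℤ) (x : X.P i) : Prop :=
  ∀ j, ∃ z, X.d i j x = (p : ℤ) • z

/-- Boundaries modulo `p`. -/
def ZCx.BdyP (X : ZCx R) (p : ℕ) (i : ℤ) (x : X.P i) : Prop :=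
  ∃ (k : ℤ) (y : X.P k) (z : X.P i), x = X.d k i y + (p : ℤ) • z

/-- Quasi-isomorphisms modulo `p`. -/
def ZHom.QIP {X Y : ZCx R} (F : ZHom X Y) (p : ℕ) : Prop :=
  (∀ i (x : X.P i), X.CycP p i x → Y.BdyP p i (F.f i x) → X.BdyP p i x) ∧
  ∀ i (y : Y.P i), Y.CycP p i y → ∃ x : X.P i, X.CycP p i x ∧ Y.BdyP p i (y - F.f i x)

/-- `Y` is the dual complex of `X`, shifted: `Y_i ≃ Hom(X_(m-i), ℤ)`. -/
structure IsDual (X Y : ZCx R) (m : ℤ) where
  e : ∀ i, Y.P i ≃ₗ[R] ZD R (X.P (m - i))
  comm : ∀ (i j : ℤ) (y : Y.P i), e j (Y.d i j y) = ZDmap (X.d (m - j) (m - i)) (e i y)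

end ZC

section ZB

variable {G : Type} [CommGroup G]

/-- `X'` is the complex `X` restricted along `j`. -/
structure IsRes {H : Type} [CommGroup H] (j : H →* G) (X : ZCx (ZG G)) (X' : ZCx (ZG H)) where
  e : ∀ i, X'.P i ≃ₗ[ZG H] RS j (X.P i)
  comm : ∀ (i k : ℤ) (x : X'.P i), e k (X'.d i k x) = RSmap j (X.d i k) (e i x)

/-- Property (N): all elements of the group are homotopic to the identity. -/
def ZCx.PN (X : ZCx (ZG G)) : Prop :=
  ∀ g : G, ∃ h : ∀ i j : ℤ, X.P i →ₗ[ZG G] X.P j, ∀ (i : ℤ) (x : X.P i),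
    X.d (i + 1) i (h i (i + 1) x) + h (i - 1) i (X.d i (i - 1) x) =
      MonoidAlgebra.of ℤ G g • x - x

/-- `b i` is the dimension over `𝔽_p` of the homology in degree `i` of the complex of coinvariants
modulo `p`. -/
def ZCx.IsBetti (X : ZCx (ZG G)) (p : ℕ) (b : ℤ → ℕ) : Prop :=
  ∀ i, Nat.card (HSp.coMap G p (X.d i (i - 1))).ker =
    p ^ b i * Nat.card (HSp.coMap G p (X.d (i + 1) i)).range

end ZB

/-! ## Complexes indexed by `ℕ` as complexes indexed by `ℤ` -/

/-- Extension by zero of a family indexed by `ℕ`. -/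
def NX (P : ℕ → Type) : ℤ → Type
  | Int.ofNat n => P n
  | Int.negSucc _ => PUnit

instance NXac (P : ℕ → Type) [∀ i, AddCommGroup (P i)] : ∀ i, AddCommGroup (NX P i)
  | Int.ofNat n => inferInstanceAs (AddCommGroup (P n))
  | Int.negSucc _ => inferInstanceAs (AddCommGroup PUnit)

instance NXmo (R : Type) [CommRing R] (P : ℕ → Type) [∀ i, AddCommGroup (P i)]
    [∀ i, Module R (P i)] : ∀ i, Module R (NX P i)
  | Int.ofNat n => inferInstanceAs (Module R (P n))
  | Int.negSucc _ => inferInstanceAs (Module R PUnit)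

/-- The differential of the extension by zero. -/
def NXd {R : Type} [CommRing R] {P : ℕ → Type} [∀ i, AddCommGroup (P i)]
    [∀ i, Module R (P i)] (d : ∀ i j : ℕ, P i →ₗ[R] P j) : ∀ i j : ℤ, NX P i →ₗ[R] NX P j
  | Int.ofNat a, Int.ofNat b => d a b
  | Int.ofNat _, Int.negSucc _ => 0
  | Int.negSucc _, _ => 0

/-- The bounded complex `P` indexed by `ℕ`, as a complex indexed by `ℤ`. -/
def ofNat {R : Type} [CommRing R] (P : ℕ → Type) [∀ i, AddCommGroup (P i)]
    [∀ i, Module R (P i)] (fi : ∀ i, Module.Finite R (P i)) (pr : ∀ i, Module.Projective R (P i))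
    (d : ∀ i j : ℕ, P i →ₗ[R] P j) (shape : ∀ i j : ℕ, j + 1 ≠ i → d i j = 0)
    (dd : ∀ (i j k : ℕ) (x : P i), d j k (d i j x) = 0) (N : ℕ)
    (bdd : ∀ i : ℕ, N < i → Subsingleton (P i)) : ZCx R where
  P := NX P
  ac := NXac P
  mo := NXmo R P
  fi := fun i => match i with
    | Int.ofNat n => fi n
    | Int.negSucc _ => inferInstanceAs (Module.Finite R PUnit)
  pr := fun i => match i with
    | Int.ofNat n => pr n
    | Int.negSucc _ => inferInstanceAs (Module.Projective R PUnit)
  d := NXd d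
  shape := by
    rintro (a | a) (b | b) h
    · exact shape a b (fun hh => h (by rw [← hh]; rfl))
    · rfl
    · rfl
    · rfl
  dd := by
    rintro (a | a) (b | b) (c | c) x
    · exact dd a b c x
    · rfl
    · rfl
    · rfl
    · exact map_zero (NXd d (Int.ofNat b) (Int.ofNat c))
    · rfl
    · rfl
    · rfl
  N := N
  bdd := by
    rintro (a | a) h
    · refine bdd a ?_
      have h1 : |(Int.ofNat a)| = (a : ℤ) := abs_of_nonneg (Int.natCast_nonneg a)
      rw [h1] at h
      exact_mod_cast h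
    · exact inferInstanceAs (Subsingleton PUnit)

end HEp
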