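import Pool.Agent.Lib.MP_181146_gt.HS.SpecB
import Pool.Agent.Lib.MP_181146_gt.HE.DefsG

/-!
# Project HE, algebraic part (parts 3, 4, 5 of note 3985).  Every statement is a separate task; the
proof of each is in the docstring.

`R` is a commutative ring, `G` a finite commutative group, `ZG G` its integral group ring, `KT R`
the group of f.g. projective modules up to stable isomorphism (`M × R^a ≃ N × R^b`), `cl R M` the
class of `M`.  `ZD R M = Hom(M, ℤ)` with `(a f)(x) = f (a x)` (no involution).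
-/

set_option linter.unusedVariables false
set_option autoImplicit false

namespace HEp

open HSp (Res)

/-! ## K. Exact sequences and complexes -/

/-- **KEx.** `0 → B → A → M → 0` with `M` projective splits: `A ≃ B × M`, then `cl_congr`,
`cl_prod`. -/
def S_KEx : Prop :=
  ∀ (R : Type) [CommRing R] (M A B : Type) [AddCommGroup M] [Module R M] [Module.Finite R M]
    [Module.Projective R M] [AddCommGroup A] [Module R A] [Module.Finite R A]
    [Module.Projective R A] [AddCommGroup B] [Module R B] [Module.Finite R B]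
    [Module.Projective R B], Res R M A B → cl R A = cl R B + cl R M

/-- **KSch.** Schanuel's lemma: `0 → B → A → M → 0`, `0 → B' → A' → M → 0` with `A`, `A'`
projective give `A × B' ≃ A' × B` (both are isomorphic to the fibre product `A ×_M A'`, whose two
projections onto `A'`, `A` split).  Then `cl_congr`, `cl_prod`.  `M` is arbitrary. -/
def S_KSch : Prop :=
  ∀ (R : Type) [CommRing R] (M A B A' B' : Type) [AddCommGroup M] [Module R M]
    [AddCommGroup A] [Module R A] [Module.Finite R A] [Module.Projective R A]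
    [AddCommGroup B] [Module R B] [Module.Finite R B] [Module.Projective R B]
    [AddCommGroup A'] [Module R A'] [Module.Finite R A'] [Module.Projective R A']
    [AddCommGroup B'] [Module R B'] [Module.Finite R B'] [Module.Projective R B'],
    Res R M A B → Res R M A' B' → cl R A + cl R B' = cl R A' + cl R B

/-- **KPi.** The class of a finite product. (Induction, `cl_prod`; reindex by `Fin n`;
`Fin.consLinearEquiv`.) -/
def S_KPi : Prop :=
  ∀ (R : Type) [CommRing R] (ι : Type) [Fintype ι] (M : ι → Type) [∀ i, AddCommGroup (M i)]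
    [∀ i, Module R (M i)] [∀ i, Module.Finite R (M i)] [∀ i, Module.Projective R (M i)],
    cl R (∀ i, M i) = ∑ i, cl R (M i)

/-- **KCtr.** A bounded exact complex of projective modules has a contraction.
Proof: `X.P i` is trivial for `i < - N`.  By induction on `n : ℕ` construct `h (i) (i+1)` for
`i ≤ - N - 1 + n` with the relation for all `i ≤ - N - 1 + n`: in degree `i`, the map
`x ↦ x - h (d x)` takes values in the cycles (`d (x - h d x) = d x - (d x - h d d x) = 0`), hence in
the boundaries, and lifts through the surjection of `X.P (i+1)` onto the boundaries since `X.P i` is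
projective.  (Recommended: choose, by strong recursion on `ℕ`, a sequence
of maps `X.P (-N-1+n) → X.P (-N+n)`; then define `h i j` to be that map (cast) if `j = i + 1`,
`0` otherwise.  Alternative: prove by induction on `n` the existence of a full family `h` with the
relation in degrees `≤ -N-1+n`, changing it only in degree `-N+n` (`Function.update` style), and take
`n = 2N+2`, the degrees `> N` being trivial.) -/
def S_KCtr : Prop :=
  ∀ (R : Type) [CommRing R] (X : ZCx R), X.Exact →
    ∃ h : ∀ i j : ℤ, X.P i →ₗ[R] X.P j, ∀ (i : ℤ) (x : X.P i),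
      X.d (i + 1) i (h i (i + 1) x) + h (i - 1) i (X.d i (i - 1) x) = x

/-- **KEC0** (from KCtr, KEx).  The Euler class of an exact complex is `0`.
Proof: `Z_i = ker (d i (i-1))`.  By KCtr `x ↦ d (h x)` is a projection of `X.P i` onto `Z_i` (for a
cycle `x = d (h x)`), so `Z_i` is f.g. projective; `0 → Z_i → X.P i → Z_(i-1) → 0` is exact, so
`cl (X.P i) = cl Z_i + cl Z_(i-1)` (KEx) and the alternating sum telescopes:
`∑_(i=-N)^N (-1)^i (z_i + z_(i-1)) = (-1)^N z_N + (-1)^N z_(-N-1)`; `Z_N` is the image of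
`X.P (N+1) = 0`, `Z_(-N-1)` is contained in `X.P (-N-1) = 0` (`cl_subsingleton`). -/
def S_KEC0 : Prop :=
  ∀ (R : Type) [CommRing R] (X : ZCx R), X.Exact → X.EC = 0

/-- **KCone.** The mapping cone of `F : X → Y`: `C_i = X_(i-1) × Y_i`,
`d (x, y) = (- d x, d y + F x)`, and its Euler class.  (For `d i j` with `j + 1 = i` use a cast
along `j = i - 1`, or define `C.d i j (x, y) = (- X.d (i-1) (j-1) x, Y.d i j y + c (F x))`, where
`c : Y.P (i-1) → Y.P j` is the identity (cast) if `j = i - 1` and `0` otherwise.)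
`X.EC` does not depend on `N` in the sense that summands with `N < |i|` vanish. -/
def S_KCone : Prop :=
  ∀ (R : Type) [CommRing R] (X Y : ZCx R) (F : ZHom X Y),
    ∃ (C : ZCx R) (e : ∀ i, C.P i ≃ₗ[R] (X.P (i - 1) × Y.P i)),
      (∀ (i : ℤ) (c : C.P i), e (i - 1) (C.d i (i - 1) c) =
        (-(X.d (i - 1) (i - 1 - 1) (e i c).1),
          Y.d i (i - 1) (e i c).2 + F.f (i - 1) (e i c).1)) ∧
      C.EC = Y.EC - X.EC

/-- **KConeEx** (from KCone; take the cone `C`, `e` as hypothesis).  The cone of a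
quasi-isomorphism is exact, and conversely.
Proof: (→) `e c = (x, y)` with `d x = 0`, `d y + F x = 0`: `F x = d (- y)` is a boundary, so
`x = d x1`; `y + F x1` is a cycle (`d (F x1) = F x`), so `y + F x1 - F x2 = d y3` with a cycle `x2`;
then `(x, y) = d (- x1 + x2, y3)`.  (←) `x` a cycle with `F x = d y`: `(x, - y)` is a
cycle of the cone, so `x = d (- x')`; `y` a cycle: `(0, y) = d (x', y')`, `x'` is a cycle and
`y - F x' = d y'`.  (`X.Cyc i x` is equivalent to `X.d i (i-1) x = 0` and `X.Bdy i x` to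
`∃ y : X.P (i+1), X.d (i+1) i y = x`, by `shape`; the cast `i = (i + 1) - 1` can be avoided by
`obtain ⟨j, rfl⟩ : ∃ j, i = j - 1`.) -/
def S_KConeEx : Prop :=
  ∀ (R : Type) [CommRing R] (X Y : ZCx R) (F : ZHom X Y) (C : ZCx R)
    (e : ∀ i, C.P i ≃ₗ[R] (X.P (i - 1) × Y.P i))
    (he : ∀ (i : ℤ) (c : C.P i), e (i - 1) (C.d i (i - 1) c) =
        (-(X.d (i - 1) (i - 1 - 1) (e i c).1),
          Y.d i (i - 1) (e i c).2 + F.f (i - 1) (e i c).1)), F.QI ↔ C.Exact

/-- **KEC** (from KCone, KConeEx, KEC0).  Quasi-isomorphic complexes have the same Euler class. -/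
def S_KEC : Prop :=
  ∀ (R : Type) [CommRing R] (X Y : ZCx R) (F : ZHom X Y), F.QI → X.EC = Y.EC

/-- **QIC** (elementary; as (→) in KConeEx, modulo `p`).  If `F` is a quasi-isomorphism modulo `p`
then the cone is exact modulo `p`.
Proof: `e c = (x, y)` with `d x ∈ p`, `d y + F x ∈ p`: `F x ∈ boundaries + p`, so
`x = d x1 + p x2`.  Subtracting `d (- x1, 0)` we may assume `x = p x2`, hence modulo `p` `x = 0`
(subtract `p (x2, 0)`), `d y ∈ p`; so `y = F x3 + d y3 + p y4` with `d x3 ∈ p`, and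
`(0, y) = d (x3, y3) + p (...)`. -/
def S_QIC : Prop :=
  ∀ (R : Type) [CommRing R] (X Y : ZCx R) (F : ZHom X Y) (C : ZCx R)
    (e : ∀ i, C.P i ≃ₗ[R] (X.P (i - 1) × Y.P i))
    (he : ∀ (i : ℤ) (c : C.P i), e (i - 1) (C.d i (i - 1) c) =
        (-(X.d (i - 1) (i - 1 - 1) (e i c).1),
          Y.d i (i - 1) (e i c).2 + F.f (i - 1) (e i c).1)) (p : ℕ),
    F.QIP p → ∀ (i : ℤ) (c : C.P i), C.CycP p i c → C.BdyP p i c

/-- **Div.** A subgroup `B` of a f.g. abelian group `Z` with `Z = B + p Z` for all primes `p` is `Z`.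
Proof: `H = Z / B` is f.g. with `H = p H` for all primes `p`, hence `H = m H` for all `m ≥ 1`.
If `H` is not trivial it has a maximal proper subgroup (f.g.), with simple quotient `ℤ/p`,
contradiction.  (Or: Nakayama over `ℤ`: for every maximal ideal; or the structure theorem.) -/
def S_Div : Prop :=
  ∀ (Z : Type) [AddCommGroup Z] [Module.Finite ℤ Z] (B : AddSubgroup Z),
    (∀ p : ℕ, p.Prime → ∀ z : Z, ∃ b ∈ B, ∃ w : Z, z = b + (p : ℤ) • w) → B = ⊤

/-- **QIp** (from KCone, KConeEx, QIC, Div).  A chain map which is a quasi-isomorphism modulo every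
prime is a quasi-isomorphism, for complexes over the group ring of a finite group.
Proof: let `C` be the cone.  For a cycle `c` of `C` and a prime `p`, `c = d w + p z` (QIC), so
`p (d z) = 0` and `d z = 0`, since `C.P` is torsion free over `ℤ` (projective over the ring `ZG G`,
which is free over `ℤ`).  Div with `Z` = cycles in degree `i` (f.g. over `ℤ`, as `C.P i` is), `B` =
boundaries: `C` is exact, so `F` is a quasi-isomorphism. -/
def S_QIp : Prop :=
  ∀ (G : Type) [CommGroup G] [Finite G] (X Y : ZCx (ZG G)) (F : ZHom X Y),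
    (∀ p : ℕ, p.Prime → F.QIP p) → F.QI

/-! ## D. Duality -/

/-- **DSelf.** `ZG G ≃ ZD (ZG G) (ZG G)` by `a ↦ (x ↦ coefficient of 1 in a x)`: the form
`(g, h) ↦ [g h = 1]` is perfect (the inverse is `f ↦ ∑_g f(g⁻¹) g`). -/
def S_DSelf : Prop :=
  ∀ (G : Type) [CommGroup G] [Finite G], Nonempty (ZD (ZG G) (ZG G) ≃ₗ[ZG G] ZG G)

/-- **DFp** (from DFr).  The dual of a f.g. projective module is f.g. projective.
Proof: `M` is a retract of `R^n`: `M → R^n → M` the identity gives `ZD M → ZD R^n → ZD M` the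
identity (`ZDmap`), and `ZD R^n` is free of finite rank (DFr). -/
def S_DFp : Prop :=
  ∀ (G : Type) [CommGroup G] [Finite G] (M : Type) [AddCommGroup M] [Module (ZG G) M]
    [Module.Finite (ZG G) M] [Module.Projective (ZG G) M],
    Module.Finite (ZG G) (ZD (ZG G) M) ∧ Module.Projective (ZG G) (ZD (ZG G) M)

/-- **DFr** (from DSelf).  The dual of a free module is free: `ZD` of a finite product is the
product. -/
def S_DFr : Prop :=
  ∀ (G : Type) [CommGroup G] [Finite G] (n : ℕ),
    Nonempty (ZD (ZG G) (Fin n → ZG G) ≃ₗ[ZG G] (Fin n → ZG G))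

/-- **DCx** (from DFp).  Existence of the dual complex: `Y.P i = ZD (X.P (m - i))`,
`Y.d i j = ZDmap (X.d (m - j) (m - i))`; bound `N + |m|`. -/
def S_DCx : Prop :=
  ∀ (G : Type) [CommGroup G] [Finite G] (X : ZCx (ZG G)) (m : ℤ),
    ∃ Y : ZCx (ZG G), Nonempty (IsDual X Y m)

/-- **DIdem.** The group ring has only the idempotents `0`, `1`.
Proof: let `e² = e`, `c` the coefficient of `1` in `e`, `n = |G|`.  Multiplication by `e` on `ZG G`
(free over `ℤ` with basis `G`) has trace `n c`, and as `e² = e` its trace is the rank `r` of its image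
(`LinearMap.IsProj.trace` or over `ℚ`), `0 ≤ r ≤ n`.  So `c = 0` or `c = 1`; `r = 0` gives `e = 0`
and `r = n` gives `1 - e = 0` (apply the first case to `1 - e`). -/
def S_DIdem : Prop :=
  ∀ (G : Type) [CommGroup G] [Finite G] (e : ZG G), e * e = e → e = 0 ∨ e = 1

/-- **DRank** (from DIdem).  The rank of a f.g. projective module is constant: the spectrum is
connected (Mathlib: clopen sets of the spectrum correspond to idempotents,
`PrimeSpectrum.isIdempotentElemEquivClopens` or similar) and `Module.isLocallyConstant_rankAtStalk`. -/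
def S_DRank : Prop :=
  ∀ (G : Type) [CommGroup G] [Finite G] (M : Type) [AddCommGroup M] [Module (ZG G) M]
    [Module.Finite (ZG G) M] [Module.Projective (ZG G) M],
    ∃ m : ℕ, ∀ p : PrimeSpectrum (ZG G), Module.rankAtStalk (R := ZG G) M p = m

/-- **DMod** (from DRank).  `M / n M ≃ (R / n)^m` for `n > 0`: there are `m` elements `b i` of `M`
which form a basis modulo `n`.
Proof: `R / n R` is a finite ring, so it has finitely many maximal ideals; `(R/n) ⊗ M` is finite flat
of constant rank (at the maximal ideal `P` of `R / n` the fibre is the fibre of `M` at the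
corresponding maximal ideal of `R`; `Module.rankAtStalk_baseChange`, `finrank_fiber_eq_rankAtStalk`),
hence free: `Module.nonempty_basis_of_flat_of_finrank_eq`. -/
def S_DMod : Prop :=
  ∀ (G : Type) [CommGroup G] [Finite G] (M : Type) [AddCommGroup M] [Module (ZG G) M]
    [Module.Finite (ZG G) M] [Module.Projective (ZG G) M] (n : ℕ), 1 < n →
    ∃ (m : ℕ) (f : (Fin m → ZG G) →ₗ[ZG G] M),
      (∀ x : M, ∃ a y, x = f a + (n : ℤ) • y) ∧
      ∀ (a : Fin m → ZG G) (y : M), f a = (n : ℤ) • y → ∃ b, a = (n : ℤ) • b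

/-- **DEmb** (from DMod).  `0 → R^m → M → T → 0` with `T` finite of order prime to `n`.
Proof: take `f` of DMod (for `n`), `T = M / range f`.  `f` is injective: if `f a = 0`, `a ≠ 0`, write
`a = n^k b` with `k` maximal (`R^m` is f.g. free over `ℤ`); `M` is torsion free so `f b = 0 = n 0`,
so `b = n c`, contradiction.  `T` is a f.g. abelian group with `T = n T`, hence finite of order
prime to `n`: (structure theorem) or: `T / torsion` is f.g. free with `n` surjective, so it is `0`; `T`
is finite and multiplication by `n` is bijective, so no element has order `p ∣ n` (Cauchy). -/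
def S_DEmb : Prop :=
  ∀ (G : Type) [CommGroup G] [Finite G] (M : Type) [AddCommGroup M] [Module (ZG G) M]
    [Module.Finite (ZG G) M] [Module.Projective (ZG G) M] (n : ℕ), 1 < n →
    ∃ (m : ℕ) (T : Type) (_ : AddCommGroup T) (_ : Module (ZG G) T),
      Finite T ∧ (Nat.card T).Coprime n ∧ Res (ZG G) T M (Fin m → ZG G)

/-- **DSub.** The kernel `M'` of a surjection of a f.g. projective module onto a finite module
`T` of order prime to `|G|` is f.g. projective.
Proof: f.g.: `ZG G` is noetherian.  Let `s = |T|`, `n = |G|`, `u n + v s = 1`.  Choose a surjection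
`π : F = R^k → M'`.  (1) `M'` is f.g. free over `ℤ` (submodule of `M`), so `π` has an additive section
`σ`; averaging, `σ' x = ∑_g g σ (g⁻¹ x)` is linear over `ZG G` and `π (σ' x) = n x`.
(2) `s M ⊂ M'`; as `M` is projective, the map `x ↦ s x`, `M → M'`, lifts to `τ : M → F`,
and `π (τ (i x)) = s x` for `x ∈ M'`.  (3) `u σ' + v τ i` is a section of `π`. -/
def S_DSub : Prop :=
  ∀ (G : Type) [CommGroup G] [Finite G] (M M' T : Type) [AddCommGroup M] [Module (ZG G) M]
    [Module.Finite (ZG G) M] [Module.Projective (ZG G) M] [AddCommGroup M'] [Module (ZG G) M']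
    [AddCommGroup T] [Module (ZG G) T] [Finite T], (Nat.card T).Coprime (Nat.card G) →
    Res (ZG G) T M M' → Module.Finite (ZG G) M' ∧ Module.Projective (ZG G) M'

/-- **DQ.** Let `0 → M1 → M2 → T → 0` be exact, `M2` free over `ℤ`, `q` a prime with
`q T = 0`.  Then `0 → ZD M2 → ZD M1 → Hom(T, ℤ/q) → 0` is exact, where `f : M1 → ℤ` is sent
to `t ↦ f (q x) mod q`, `x ∈ M2` over `t` (`q x ∈ M1`).
Proof: well defined: for `x = i y`, `q x = i (q y)`, `f (q y) ∈ q ℤ`.  Kernel: if `f (q x) ∈ q ℤ` for all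
`x ∈ M2` then `x ↦ f (q x) / q` is an extension of `f` to `M2`.  Surjective: a homomorphism
`M2 → T → ℤ/q` lifts to `F : M2 → ℤ` (`M2` free over `ℤ`), `F (M1) ⊂ q ℤ` and `f = F / q` on
`M1`.  Injectivity of `ZD M2 → ZD M1`: `q M2 ⊂ M1`.  Statement: the map `ρ`, additive, with
`ρ (a f) (t) = ρ f (a t)`. -/
def S_DQ : Prop :=
  ∀ (R : Type) [CommRing R] (M1 M2 T : Type) [AddCommGroup M1] [Module R M1] [AddCommGroup M2]
    [Module R M2] [AddCommGroup T] [Module R T] [Module.Finite ℤ M2] [Module.Free ℤ M2] (q : ℕ)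
    (hq : q.Prime) (hT : ∀ t : T, (q : ℤ) • t = 0) (i : M1 →ₗ[R] M2) (π : M2 →ₗ[R] T)
    (hi : Function.Injective i) (hπ : Function.Surjective π) (hex : ∀ x, π x = 0 ↔ ∃ y, i y = x),
    Function.Injective (ZDmap i) ∧ ∃ ρ : ZD R M1 →+ (T →+ ZMod q), Function.Surjective ρ ∧
      (∀ f, ρ f = 0 ↔ ∃ f' : ZD R M2, ZDmap i f' = f) ∧
      ∀ (a : R) (f : ZD R M1) (t : T), ρ (a • f) t = ρ f (a • t)

/-- **DSmp** (from DQ).  Let `P` be a maximal ideal of `R` with `R / P` finite and
`0 → M1 → M2 → R/P → 0` exact, `M2` f.g. free over `ℤ`.  Then `0 → ZD M2 → ZD M1 → R/P → 0` is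
exact.  Proof: let `q` be the characteristic of the finite field `R / P`.  By DQ the cokernel `T'` of
`ZD M2 → ZD M1` is isomorphic to `Hom(R/P, ℤ/q)`, a finite group of order `|R/P|`
(`q^k ↦ q^k`), killed by `P`.  A nonzero element of `T'` gives an injection `R/P → T'` (`P` maximal),
which is bijective by cardinality. -/
def S_DSmp : Prop :=
  ∀ (R : Type) [CommRing R] (M1 M2 : Type) [AddCommGroup M1] [Module R M1] [AddCommGroup M2]
    [Module R M2] [Module.Finite ℤ M2] [Module.Free ℤ M2] (P : Ideal R) (hP : P.IsMaximal)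
    (hfin : Finite (R ⧸ P)), Res R (R ⧸ P) M2 M1 → Res R (R ⧸ P) (ZD R M1) (ZD R M2)

/-- **DStep** (from DSmp, DSub, KSch, DFp).  `0 → M1 → M2 → R/P → 0` exact, `P` maximal, `R/P` finite of
order prime to `|G|`: `cl M1 + cl (ZD M1) = cl M2 + cl (ZD M2)`.
Proof: `0 → P → R → R/P → 0` and `P` is f.g. projective (DSub).  Schanuel:
`cl M2 + cl P = cl R + cl M1 = cl M1` (`cl_self`) and, by DSmp, `cl (ZD M1) + cl P = cl (ZD M2)`. -/
def S_DStep : Prop :=
  ∀ (G : Type) [CommGroup G] [Finite G] (M1 M2 : Type) [AddCommGroup M1] [Module (ZG G) M1]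
    [Module.Finite (ZG G) M1] [Module.Projective (ZG G) M1] [AddCommGroup M2] [Module (ZG G) M2]
    [Module.Finite (ZG G) M2] [Module.Projective (ZG G) M2]
    [Module.Finite (ZG G) (ZD (ZG G) M1)] [Module.Projective (ZG G) (ZD (ZG G) M1)]
    [Module.Finite (ZG G) (ZD (ZG G) M2)] [Module.Projective (ZG G) (ZD (ZG G) M2)]
    (P : Ideal (ZG G)) (hP : P.IsMaximal) (hfin : Finite (ZG G ⧸ P))
    (hco : (Nat.card (ZG G ⧸ P)).Coprime (Nat.card G)), Res (ZG G) (ZG G ⧸ P) M2 M1 →
    cl (ZG G) M1 + cl (ZG G) (ZD (ZG G) M1) = cl (ZG G) M2 + cl (ZG G) (ZD (ZG G) M2)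

/-- **DChain** (from DStep, DSub, DFp).  The same for `0 → M1 → M2 → T → 0`, `T` finite of order prime
to `|G|`.  Proof: strong induction on `|T|`.  `T` trivial: `M1 ≃ M2`.  Otherwise choose a simple
submodule `S` of `T` (finite module), `S ≃ R/P` (`isSimpleModule_iff_quot_maximal`), let `M'` be the
preimage of `S` in `M2`: `0 → M1 → M' → R/P → 0` (DStep) and `0 → M' → M2 → T/S → 0` (induction);
`M'` is f.g. projective by DSub, its dual by DFp; orders divide `|T|`. -/
def S_DChain : Prop :=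
  ∀ (G : Type) [CommGroup G] [Finite G] (M1 M2 T : Type) [AddCommGroup M1] [Module (ZG G) M1]
    [Module.Finite (ZG G) M1] [Module.Projective (ZG G) M1] [AddCommGroup M2] [Module (ZG G) M2]
    [Module.Finite (ZG G) M2] [Module.Projective (ZG G) M2]
    [Module.Finite (ZG G) (ZD (ZG G) M1)] [Module.Projective (ZG G) (ZD (ZG G) M1)]
    [Module.Finite (ZG G) (ZD (ZG G) M2)] [Module.Projective (ZG G) (ZD (ZG G) M2)]
    [AddCommGroup T] [Module (ZG G) T] (hfin : Finite T)
    (hco : (Nat.card T).Coprime (Nat.card G)), Res (ZG G) T M2 M1 →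
    cl (ZG G) M1 + cl (ZG G) (ZD (ZG G) M1) = cl (ZG G) M2 + cl (ZG G) (ZD (ZG G) M2)

/-- **Dual** (from DChain, DEmb, DFr, DFp).  `cl (ZD M) = - cl M`.  Use DEmb with `n = 2 |G|`
(`> 1`), DChain with `M1 = R^m`, `cl_free`, DFr. -/
def S_Dual : Prop :=
  ∀ (G : Type) [CommGroup G] [Finite G] (M : Type) [AddCommGroup M] [Module (ZG G) M]
    [Module.Finite (ZG G) M] [Module.Projective (ZG G) M]
    [Module.Finite (ZG G) (ZD (ZG G) M)] [Module.Projective (ZG G) (ZD (ZG G) M)],
    cl (ZG G) (ZD (ZG G) M) = - cl (ZG G) M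

/-- **ECdual** (from Dual, DFp).  For `m` even, the Euler class of the dual complex:
`∑ (-1)^i cl (ZD (X.P (m - i))) = ∑ (-1)^j cl (ZD (X.P j)) = - X.EC`. -/
def S_ECdual : Prop :=
  ∀ (G : Type) [CommGroup G] [Finite G] (X Y : ZCx (ZG G)) (m : ℤ) (hm : Even m)
    (D : IsDual X Y m), Y.EC = - X.EC

/-! ## R. Restriction, twisted functions, the relation for `𝔽_p × 𝔽_p` -/

/-- **RSfp.** For `j : H → G` injective, `RS j M` is f.g. projective over `ZG H`, and `RS j (ZG G)` is
free.  Proof: `ZG G` is free over `ZG H` with basis a set of representatives of `G / j(H)`: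
`RS j (ZG G) ≃ (Fin k → ZG H)`.  `RS j` of a product is the product, `RS j` of a retract is a
retract (`RSmap`). -/
def S_RSfp : Prop :=
  ∀ (H G : Type) [CommGroup H] [CommGroup G] [Finite G] (j : H →* G) (hj : Function.Injective j),
    (∃ k : ℕ, Nonempty (RS j (ZG G) ≃ₗ[ZG H] (Fin k → ZG H))) ∧
    ∀ (M : Type) [AddCommGroup M] [Module (ZG G) M] [Module.Finite (ZG G) M]
      [Module.Projective (ZG G) M],
      Module.Finite (ZG H) (RS j M) ∧ Module.Projective (ZG H) (RS j M)

/-- **RSh** (from RSfp).  The restriction homomorphism `KT (ZG G) → KT (ZG H)`: define it on the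
quotient by `M ↦ cl (RS j M)`; `RS j (M × R^a) ≃ RS j M × (ZG H)^(ka)`. -/
def S_RSh : Prop :=
  ∀ (H G : Type) [CommGroup H] [CommGroup G] [Finite G] (j : H →* G) (hj : Function.Injective j),
    ∃ r : KT (ZG G) →+ KT (ZG H), ∀ (M : Type) [AddCommGroup M] [Module (ZG G) M]
      [Module.Finite (ZG G) M] [Module.Projective (ZG G) M] [Module.Finite (ZG H) (RS j M)]
      [Module.Projective (ZG H) (RS j M)], r (cl (ZG G) M) = cl (ZG H) (RS j M)

/-- **DTfp.** `DT G M L` is f.g. projective if `M` is f.g. projective and `L` f.g. free over `ℤ`.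
Proof: for `M = ZG G`: `DT G (ZG G) L ≃ (Fin r → ZG G)`, `g ⊗ l ↦ g ⊗ g⁻¹ l`
(the diagonal action becomes the action on the first factor), `r` the rank of `L`.  General `M`: it is
a retract of `(ZG G)^n`, and `DT G - L` is additive and functorial. -/
def S_DTfp : Prop :=
  ∀ (G : Type) [CommGroup G] [Finite G] (M L : Type) [AddCommGroup M] [Module (ZG G) M]
    [Module.Finite (ZG G) M] [Module.Projective (ZG G) M] [AddCommGroup L] [Module (ZG G) L]
    [Module.Finite ℤ L] [Module.Free ℤ L],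
    Module.Finite (ZG G) (DT G M L) ∧ Module.Projective (ZG G) (DT G M L)

/-- **DTex.** `DT G M -` is exact, for `M` projective over `ZG G` (hence flat over `ℤ`); and for the
trivial module `Tv G (ZMod p)`: `0 → M → M → DT G M (Tv G (ZMod p)) → 0` is exact, the first
map is multiplication by `p` (`p > 0`). -/
def S_DTex : Prop :=
  ∀ (G : Type) [CommGroup G] [Finite G] (M : Type) [AddCommGroup M] [Module (ZG G) M]
    [Module.Finite (ZG G) M] [Module.Projective (ZG G) M],
    (∀ (T L L' : Type) [AddCommGroup T] [Module (ZG G) T] [AddCommGroup L] [Module (ZG G) L]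
      [AddCommGroup L'] [Module (ZG G) L'], Res (ZG G) T L L' →
      Res (ZG G) (DT G M T) (DT G M L) (DT G M L')) ∧
    ∀ p : ℕ, 0 < p → Res (ZG G) (DT G M (Tv G (ZMod p))) M M

/-- **DTstep** (from DTex, KSch).  `0 → L' → L → 𝔽_p → 0` exact, trivial action on `𝔽_p`:
`cl (M ⊗ L) = cl (M ⊗ L')`.  Schanuel: `cl (DT M L) + cl M = cl M + cl (DT M L')`. -/
def S_DTstep : Prop :=
  ∀ (G : Type) [CommGroup G] [Finite G] (M L L' : Type) [AddCommGroup M] [Module (ZG G) M]
    [Module.Finite (ZG G) M] [Module.Projective (ZG G) M] [AddCommGroup L] [Module (ZG G) L]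
    [AddCommGroup L'] [Module (ZG G) L']
    [Module.Finite (ZG G) (DT G M L)] [Module.Projective (ZG G) (DT G M L)]
    [Module.Finite (ZG G) (DT G M L')] [Module.Projective (ZG G) (DT G M L')] (p : ℕ)
    (hp : p.Prime), Res (ZG G) (Tv G (ZMod p)) L L' →
    cl (ZG G) (DT G M L) = cl (ZG G) (DT G M L')

/-- **Fix.** A nonzero finite module `T` of `p`-power order, on which all `g^(p^k)` act trivially,
contains a copy of the trivial module `𝔽_p`: there is `t ≠ 0` with `p t = 0` and `g t = t` for all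
`g`.  Proof: the image of `G` in the automorphisms of `T` is a `p`-group acting on the nonzero
finite `p`-group `T[p] = {t : p t = 0}`; the number of fixed points is divisible by `p`
(`IsPGroup.card_modEq_card_fixedPoints`) and `0` is one of them. -/
def S_Fix : Prop :=
  ∀ (G : Type) [CommGroup G] [Finite G] (T : Type) [AddCommGroup T] [Module (ZG G) T]
    [Finite T] [Nontrivial T] (p k m : ℕ) (hp : p.Prime)
    (hT : Nat.card T = p ^ m) (hg : ∀ (g : G) (t : T), MonoidAlgebra.of ℤ G (g ^ p ^ k) • t = t),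
    ∃ t : T, t ≠ 0 ∧ (p : ℤ) • t = 0 ∧ ∀ g : G, MonoidAlgebra.of ℤ G g • t = t

/-- **DTchain** (from DTstep, Fix, DTfp).  `L' → L` injective with `p^a L ⊂ L'`, `L` f.g. free over `ℤ`,
all `g^(p^k)` act trivially on `L`: `cl (M ⊗ L) = cl (M ⊗ L')`.
Proof: the cokernel `T` is a finite `p`-group; induction on its order.  If it is
nontrivial choose `t ∈ T` by Fix and let `L1` be the preimage of `ℤ t ≃ Tv G (ZMod p)`:
`0 → L' → L1 → 𝔽_p → 0` and `0 → L1 → L → T / ℤ t → 0`. -/
def S_DTchain : Prop :=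
  ∀ (G : Type) [CommGroup G] [Finite G] (M L L' : Type) [AddCommGroup M] [Module (ZG G) M]
    [Module.Finite (ZG G) M] [Module.Projective (ZG G) M] [AddCommGroup L] [Module (ZG G) L]
    [AddCommGroup L'] [Module (ZG G) L'] [Module.Finite ℤ L] [Module.Free ℤ L]
    [Module.Finite (ZG G) (DT G M L)] [Module.Projective (ZG G) (DT G M L)]
    [Module.Finite (ZG G) (DT G M L')] [Module.Projective (ZG G) (DT G M L')] (p k a : ℕ)
    (hp : p.Prime) (hg : ∀ (g : G) (x : L), MonoidAlgebra.of ℤ G (g ^ p ^ k) • x = x)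
    (i : L' →ₗ[ZG G] L) (hi : Function.Injective i)
    (ha : ∀ x : L, ∃ y : L', i y = (p ^ a : ℤ) • x),
    cl (ZG G) (DT G M L) = cl (ZG G) (DT G M L')

/-- **DTadd.** `DT G M` commutes with products, and `DT G M (Tv G ℤ) ≃ M`. -/
def S_DTadd : Prop :=
  ∀ (G : Type) [CommGroup G] (M : Type) [AddCommGroup M] [Module (ZG G) M],
    (∀ (L L' : Type) [AddCommGroup L] [Module (ZG G) L] [AddCommGroup L'] [Module (ZG G) L'],
      Nonempty (DT G M (L × L') ≃ₗ[ZG G] (DT G M L × DT G M L'))) ∧
    (∀ (ι : Type) [Finite ι] (L : ι → Type) [∀ i, AddCommGroup (L i)] [∀ i, Module (ZG G) (L i)],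
      Nonempty (DT G M (∀ i, L i) ≃ₗ[ZG G] (∀ i, DT G M (L i)))) ∧
    Nonempty (DT G M (Tv G ℤ) ≃ₗ[ZG G] M)

/-- **DTTF.** `M ⊗ ℤ^X ≃ M^X`: `DT G M (TF ρ (Tv G ℤ)) ≃ TF ρ M`, `m ⊗ F ↦ (x ↦ F x • m)`, `X`
finite.  Equivariance: `g m ⊗ g F ↦ (x ↦ F (x - ρ g) • g m)`. -/
def S_DTTF : Prop :=
  ∀ (G : Type) [CommGroup G] (X : Type) [AddCommGroup X] [Finite X] (ρ : G →* Multiplicative X)
    (M : Type) [AddCommGroup M] [Module (ZG G) M],
    Nonempty (DT G M (TF ρ (Tv G ℤ)) ≃ₗ[ZG G] TF ρ M)

/-- **Lat.** The lattice relation for `Q = 𝔽_p²`.  The map `(z, c) ↦ (z_l + c_l)_l`, where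
`z_l (x) = ∑_(l q = x) z q` and `c_none = 0`, is linear over `ZG G`, injective, and its image
contains `p² L`.
Proof.  Lines: for `q ≠ q'` there is exactly one `l : Option (ZMod p)` with `lin p l (q - q') = 0`; for
`l ≠ m` the map `(lin p m, lin p l) : Q → 𝔽_p²` is bijective.
Injective: let `z_l + c_l = 0` for all `l`.  `c_none = 0`, so `z_none = 0`, hence `∑ z = 0`;
summing `z_l + c_l = 0` over `𝔽_p`, `p c_l = 0`, so `c_l = 0` and `z_l = 0` for all `l`.  For every `q`:
`0 = ∑_l z_l (l q) = (p+1) z q + ∑_(q' ≠ q) z q' = p z q`.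
Image: given `y = (y_l)`, put `s_l = ∑_x y_l x`, `S = ∑ s_l`, `z q = ∑_l y_l (l q)`.  Then
`z_m = p y_m + (S - s_m)` (constant), and with `z' = p z - (S - s_none)` (constant function on
`Q`, `z'_m = p z_m - p (S - s_none)`) one gets `p² y_m = z'_m + p (s_m - s_none)`;
`c_m = p (s_m - s_none)`.  Linearity over `ZG G`: check on group elements:
`(g z)_l (x) = ∑_(l q = x) z (q - π g) = z_l (x - l (π g))`, constants are invariant. -/
def S_Lat : Prop :=
  ∀ (G : Type) [CommGroup G] (p : ℕ) (hp : p.Prime) (π : G →* Multiplicative (ZMod p × ZMod p)),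
    ∃ Λ : (TF π (Tv G ℤ) × (ZMod p → Tv G ℤ)) →ₗ[ZG G]
        (∀ l : Option (ZMod p), TF (linG π l) (Tv G ℤ)),
      Function.Injective Λ ∧ ∀ y, ∃ x, Λ x = (p ^ 2 : ℤ) • y

/-- **TFfp** (from DTTF, DTfp).  `TF ρ M` is f.g. projective (`X` finite). -/
def S_TFfp : Prop :=
  ∀ (G : Type) [CommGroup G] [Finite G] (X : Type) [AddCommGroup X] [Finite X]
    (ρ : G →* Multiplicative X) (M : Type) [AddCommGroup M] [Module (ZG G) M]
    [Module.Finite (ZG G) M] [Module.Projective (ZG G) M],
    Module.Finite (ZG G) (TF ρ M) ∧ Module.Projective (ZG G) (TF ρ M)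

/-- **QRel** (from Lat, DTchain, DTadd, DTTF, DTfp, TFfp, KPi).
`p cl M + cl (TF π M) = ∑_l cl (TF (l π) M)`.
Proof: apply DTchain to the map of Lat (`(π g)^p = 1`, so `g^p` acts trivially; `k = 1`, `a = 2`) and
compute both sides by DTadd, DTTF, `cl_prod`, `cl_pi_fin` (or KPi, `ZMod p` has `p` elements). -/
def S_QRel : Prop :=
  ∀ (G : Type) [CommGroup G] [Finite G] (p : ℕ) [Fact p.Prime]
    (π : G →* Multiplicative (ZMod p × ZMod p)) (M : Type) [AddCommGroup M] [Module (ZG G) M]
    [Module.Finite (ZG G) M] [Module.Projective (ZG G) M]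
    [Module.Finite (ZG G) (TF π M)] [Module.Projective (ZG G) (TF π M)]
    [∀ l, Module.Finite (ZG G) (TF (linG π l) M)]
    [∀ l, Module.Projective (ZG G) (TF (linG π l) M)],
    p • cl (ZG G) M + cl (ZG G) (TF π M) = ∑ l : Option (ZMod p), cl (ZG G) (TF (linG π l) M)

/-- **IR.** `TF ρ M` depends only on the restriction of `M` to the kernel `K` of `ρ` (`ρ` onto):
it is `ZG G ⊗_(ZG K) RS j M`.
Proof: base change along the ring map `ZG K → ZG G` (`MonoidAlgebra.mapDomainRingHom`) gives a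
homomorphism `i : KT (ZG K) → KT (ZG G)`.  The map `ZG G ⊗ RS j M → TF ρ M`, `a ⊗ m ↦ a δ(m)`,
`δ(m)` the function with value `m` at `0` and `0` elsewhere (`δ` is linear over `ZG K`), is an
isomorphism: choose `s : X → G` with `ρ (s x) = x`; the inverse is
`F ↦ ∑_x s x ⊗ (s x)⁻¹ F x`: for `a = g` the image of `g ⊗ m` is the function with value `g m` at
`ρ g`, sent to `s ⊗ s⁻¹ g m = s (s⁻¹ g) ⊗ m = g ⊗ m`, `s = s (ρ g)`, as `s⁻¹ g ∈ K`. -/
def S_IR : Prop :=
  ∀ (K G : Type) [CommGroup K] [CommGroup G] [Finite G] (X : Type) [AddCommGroup X] [Finite X]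
    (ρ : G →* Multiplicative X) (hρ : Function.Surjective ρ) (j : K →* G)
    (hj : Function.Injective j) (hK : ∀ g : G, ρ g = 1 ↔ ∃ k, j k = g),
    ∃ i : KT (ZG K) →+ KT (ZG G), ∀ (M : Type) [AddCommGroup M] [Module (ZG G) M]
      [Module.Finite (ZG G) M] [Module.Projective (ZG G) M] [Module.Finite (ZG K) (RS j M)]
      [Module.Projective (ZG K) (RS j M)] [Module.Finite (ZG G) (TF ρ M)]
      [Module.Projective (ZG G) (TF ρ M)], i (cl (ZG K) (RS j M)) = cl (ZG G) (TF ρ M)

/-- **NC.** A finite commutative group which is not cyclic has a quotient `𝔽_p × 𝔽_p`.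
Proof: if for every prime `p` the number of `x` with `x^p = 1` is at most `p`, then for every `n` the
number of solutions of `x^n = 1` is at most `n` (multiplicativity and induction on the exponent) and
`G` is cyclic (`isCyclic_of_card_pow_eq_one_le`).  Otherwise `G / G^p` (same order as
`{x : x^p = 1}`) is a vector space over `𝔽_p` of dimension at least `2`.  (Or use the structure
theorem `CommGroup.equiv_prod_multiplicative_zmod_of_finite`: two of the cyclic factors have orders
divisible by the same prime, otherwise the product is cyclic.) -/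
def S_NC : Prop :=
  ∀ (G : Type) [CommGroup G] [Finite G], ¬ IsCyclic G →
    ∃ (p : ℕ) (_ : p.Prime) (π : G →* Multiplicative (ZMod p × ZMod p)), Function.Surjective π

/-- **AIs** (from QRel, IR, TFfp, RSfp).  Induction step for AI.  If `G` has the quotient
`π : G → 𝔽_p²` and the number `a` kills the restrictions of the class of `M` to `ker π` and to the
kernels of all `l π`, then `a p cl M = 0`.  (`l π` is onto as `lin p l ≠ 0` is onto.) -/
def S_AIs : Prop :=
  ∀ (G : Type) [CommGroup G] [Finite G] (p : ℕ) (hp : p.Prime)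
    (π : G →* Multiplicative (ZMod p × ZMod p)) (hπ : Function.Surjective π) (M : Type)
    [AddCommGroup M] [Module (ZG G) M] [Module.Finite (ZG G) M] [Module.Projective (ZG G) M]
    (a : ℕ) (h : ∀ (H : Subgroup G), (H ≠ ⊤) → ∀ [Module.Finite (ZG H) (RS H.subtype M)]
      [Module.Projective (ZG H) (RS H.subtype M)], a • cl (ZG H) (RS H.subtype M) = 0),
    (a * p) • cl (ZG G) M = 0

/-- **AI** (from AIs, NC, RSfp).  If the restrictions of the class of `M` to all cyclic subgroups are
`0`, then `|G|^k cl M = 0` for some `k`.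
Proof: strong induction on `|G|`.  `G` cyclic: `RS id M ≃ M`.  Otherwise take `p`, `π` of NC; for
every proper subgroup `H`, by induction, `|H|^(k_H) cl (RS H M) = 0` (restriction from `H` to a
cyclic subgroup `C` of `RS H M` is the restriction of `M`: `RS j' (RS j M) ≃ RS (j j') M`); with `k`
the maximum of the `k_H`, `a = |G|^k` satisfies the hypothesis of AIs (`|H|` divides `|G|`), and
`p ∣ |G|`. -/
def S_AI : Prop :=
  ∀ (G : Type) [CommGroup G] [Finite G] (M : Type) [AddCommGroup M] [Module (ZG G) M]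
    [Module.Finite (ZG G) M] [Module.Projective (ZG G) M]
    (h : ∀ (C : Type) [CommGroup C] (j : C →* G), Function.Injective j → IsCyclic C →
      ∀ [Module.Finite (ZG C) (RS j M)] [Module.Projective (ZG C) (RS j M)],
        cl (ZG C) (RS j M) = 0),
    ∃ k : ℕ, (Nat.card G ^ k) • cl (ZG G) M = 0

/-! ## B. Betti numbers, cyclic subgroups -/

/-- **BQI** (from KCone, KConeEx, KCtr).  Quasi-isomorphic complexes have the same Betti numbers.
Proof: the cone `C` of `F` is exact, hence has a contraction `h`; so the complex of coinvariants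
modulo `p` of `C` (`coMap`, functorial: `coMap (u ∘ v) = coMap u ∘ coMap v`, additive) is exact, and
the coinvariants of `C` are the products of those of `X` and `Y`.  So `F` induces isomorphisms in
homology of coinvariants modulo `p`: `|ker d_Y| / |im d_Y| = |ker d_X| / |im d_X|` in every
degree (all groups are finite `p`-groups; the map `ker d_X → ker d_Y / im d_Y` is onto with kernel
`im d_X`). -/
def S_BQI : Prop :=
  ∀ (G : Type) [CommGroup G] [Finite G] (X Y : ZCx (ZG G)) (F : ZHom X Y) (hF : F.QI) (p : ℕ)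
    (hp : p.Prime) (b : ℤ → ℕ), X.IsBetti p b → Y.IsBetti p b

/-- **BEx.** Existence of Betti numbers: the groups are finite, killed by `p`, and the image is
contained in the kernel (`coMap` of `d d = 0`). -/
def S_BEx : Prop :=
  ∀ (G : Type) [CommGroup G] [Finite G] (X : ZCx (ZG G)) (p : ℕ) (hp : p.Prime),
    ∃ b : ℤ → ℕ, X.IsBetti p b

/-- **BT.** Coinvariants of the dual, modulo `p`: they are dual to the coinvariants.
Proof: `T [f] [x] = ∑_g f (g x) mod p` is well defined and natural in `M` (for `u : M → M'`,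
`T [ZDmap u f] [x] = T [f] [u x]`).  Bijective for `M = ZG G` (`f_a (x) =` coefficient of `1` in
`a x`, `∑_g f_a (g x) = aug(a) aug(x)`, the coinvariants of `ZG G` modulo `p` are `ℤ/p` by `aug`),
hence for finite products and for retracts. -/
def S_BT : Prop :=
  ∀ (G : Type) [CommGroup G] [Fintype G] (M : Type) [AddCommGroup M] [Module (ZG G) M]
    [Module.Finite (ZG G) M] [Module.Projective (ZG G) M] (p : ℕ) (hp : p.Prime),
    ∃ T : HSp.CoV G p (ZD (ZG G) M) ≃+ (HSp.CoV G p M →+ ZMod p), ∀ (f : ZD (ZG G) M) (x : M),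
      T (QuotientAddGroup.mk f) (QuotientAddGroup.mk x) =
        ∑ g : G, ((f (MonoidAlgebra.of ℤ G g • x) : ℤ) : ZMod p)

/-- **BDual** (from BT).  Betti numbers of the dual complex.
Proof: with `V_i` the coinvariants of `X` modulo `p` and `φ_i : V_i → V_(i-1)`, the coinvariants of `Y`
in degree `i` are `Hom(V_(m-i), ℤ/p)` with the transposed maps (BT; both `T [ZDmap u f] [x]` and
`T [f] [u x]` are `∑ f (g (u x))`).  For finite `𝔽_p`-vector spaces
`|ker φ^*| = |V'| / |im φ|`, `|im φ^*| = |im φ|` for `φ : V → V'`, `|im φ| |ker φ| = |V|`. -/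
def S_BDual : Prop :=
  ∀ (G : Type) [CommGroup G] [Finite G] (X Y : ZCx (ZG G)) (m : ℤ) (D : IsDual X Y m) (p : ℕ)
    (hp : p.Prime) (b : ℤ → ℕ), X.IsBetti p b → Y.IsBetti p (fun i => b (m - i))

/-- **BSum** (from HSp.S_SAll, HSp.S_SEx, HSp.S_ArCyc).  The Euler characteristic of the complex of
coinvariants modulo `p` vanishes.  (It is the first part, up to `key`, of the proof of
`HS/AlgRB.lean`: copy the private lemmas; use the second half of BRel.) -/
def S_BSum : Prop :=
  ∀ (Γ : Type) [Group Γ] (hΓ : IsCyclic Γ) (hn : 1 < Nat.card Γ) (g : Γ)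
    (hg : ∀ x : Γ, x ∈ Subgroup.zpowers g) (P : ℕ → Type)
    [∀ i, AddCommGroup (P i)]
    [∀ i, Module (MonoidAlgebra ℤ Γ) (P i)] [∀ i, Module.Finite (MonoidAlgebra ℤ Γ) (P i)]
    [∀ i, Module.Projective (MonoidAlgebra ℤ Γ) (P i)]
    (d : ∀ i, P (i + 1) →ₗ[MonoidAlgebra ℤ Γ] P i) (h : ∀ i, P i →ₗ[MonoidAlgebra ℤ Γ] P (i + 1))
    (dd : ∀ i x, d i (d (i + 1) x) = 0)
    (dh0 : ∀ x, d 0 (h 0 x) = (MonoidAlgebra.of ℤ Γ g - 1) • x)
    (dh : ∀ i x, d (i + 1) (h (i + 1) x) + h i (d i x) = (MonoidAlgebra.of ℤ Γ g - 1) • x)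
    (K : ℕ) (hK : ∀ i, 2 * K ≤ i → Subsingleton (P i)) (p : ℕ) (hp : p.Prime)
    (hpn : p ∣ Nat.card Γ) (b : ℕ → ℕ), HSp.IsBettiP Γ p P d b →
    ∑ i ∈ Finset.range (2 * K), (-1 : ℤ) ^ i * (b i : ℤ) = 0

/-- **Cyc** (from HSp.S_AlgRB, BSum, KPi).  A complex over the group ring of a cyclic group with property
(N) and symmetric Betti numbers, `m` even, has Euler class `0`.
Proof: `P n = X.P n`, `d n = X.d (n+1) n`, `h n = h n (n+1)` of (N) for a generator `g`
(`X.P (-1)` is trivial).  `X.IsBetti p b` gives `IsBettiP p (fun n => b n)` (in degree `0` the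
coinvariants of `X.P (-1)` are trivial).  With `s_0 = ∑ (-1)^i b_i = 0` (BSum) and
`s_1 = ∑ (-1)^i i b_i`: substituting `i ↦ m - i` (`b_i = b_(m-i)`, `(-1)^m = 1`; `b_i = 0` for `i < 0` and
`i > N` since the groups are trivial), `s_1 = m s_0 - s_1`, so `s_1 = 0` for every prime.  AlgRB gives
`∏ P (2j) × R^s ≃ ∏ P (2j+1) × R^s`, i.e. `∑_j cl P(2j) = ∑_j cl P(2j+1)` (KPi), which is
`X.EC = 0`. -/
def S_Cyc : Prop :=
  ∀ (C : Type) [CommGroup C] [Finite C] (hC : IsCyclic C) (hn : 1 < Nat.card C) (X : ZCx (ZG C))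
    (hN : X.PN) (h0 : ∀ i : ℤ, i < 0 → Subsingleton (X.P i)) (m : ℤ) (hm : Even m)
    (hb : ∀ p : ℕ, p.Prime → p ∣ Nat.card C → ∀ b : ℤ → ℕ, X.IsBetti p b →
      ∀ i, b i = b (m - i)), X.EC = 0

/-- **Triv** (from HSp.S_TOne).  For the trivial group all classes are `0`. -/
def S_Triv : Prop :=
  ∀ (C : Type) [CommGroup C] [Subsingleton C] (x : KT (ZG C)), x = 0

/-- **RSx** (from RSfp, RSh).  Restriction of complexes: existence, property (N), Euler class,
duality, quasi-isomorphisms.
Proof: `X'.P i = RS j (X.P i)` (use the general existence with `e` the identity).  The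
dual: `ZD (ZG H) (RS j M)` and `RS j (ZD (ZG G) M)` are the same group `M →+ ℤ` with the same
action of `ZG H`. -/
def S_RSx : Prop :=
  ∀ (H G : Type) [CommGroup H] [CommGroup G] [Finite G] (j : H →* G) (hj : Function.Injective j)
    (X Y : ZCx (ZG G)) (m : ℤ) (D : IsDual X Y m) (F : ZHom X Y),
    ∃ (X' Y' : ZCx (ZG H)) (_ : IsDual X' Y' m) (F' : ZHom X' Y'),
      (F.QI → F'.QI) ∧ (X.PN → X'.PN) ∧ (∀ i, Subsingleton (X.P i) → Subsingleton (X'.P i)) ∧
      ∀ r : KT (ZG G) →+ KT (ZG H), (∀ (M : Type) [AddCommGroup M] [Module (ZG G) M]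
        [Module.Finite (ZG G) M] [Module.Projective (ZG G) M] [Module.Finite (ZG H) (RS j M)]
        [Module.Projective (ZG H) (RS j M)], r (cl (ZG G) M) = cl (ZG H) (RS j M)) →
        r X.EC = X'.EC

/-- **AlgHE** (from QIp, KEC, ECdual, RSx, RSh, RSfp, BQI, BDual, BEx, Cyc, Triv, AI).  The algebraic
theorem.  Proof: `F` is a quasi-isomorphism (QIp), so `X.EC = Y.EC = - X.EC`, `2 X.EC = 0`.
If `|G|` is odd: let `cl M = X.EC` (`KT.ind`), `j : C → G` injective, `C` cyclic.  RSx gives
`X'`, `Y'`, `F'`; `b` Betti numbers of `X'` at `p`: `Y'` has Betti numbers `b` (BQI) and `b (m - i)`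
(BDual), so `b i = b (m - i)` (`p ^ b` with a positive factor determines `b`).  So `X'.EC = 0` (Cyc if
`1 < |C|`, Triv otherwise), and `cl (RS j M) = r X.EC = X'.EC = 0`.  By AI `|G|^k X.EC = 0`, with
`2 X.EC = 0` and `|G|` odd: `X.EC = 0`. -/
def S_AlgHE : Prop :=
  ∀ (G : Type) [CommGroup G] [Finite G] (X Y : ZCx (ZG G)) (m : ℤ) (hm : Even m)
    (D : IsDual X Y m) (F : ZHom X Y) (hF : ∀ p : ℕ, p.Prime → F.QIP p) (hN : X.PN)
    (h0 : ∀ i : ℤ, i < 0 → Subsingleton (X.P i)),
    (2 : ℕ) • X.EC = 0 ∧ (Odd (Nat.card G) → X.EC = 0)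

/-- **ECN** (from KPi).  The Euler class of a complex indexed by `ℕ`, and what its vanishing
means. -/
def S_ECN : Prop :=
  ∀ (R : Type) [CommRing R] (P : ℕ → Type) [∀ i, AddCommGroup (P i)]
    [∀ i, Module R (P i)] (fi : ∀ i, Module.Finite R (P i)) (pr : ∀ i, Module.Projective R (P i))
    (d : ∀ i j : ℕ, P i →ₗ[R] P j) (shape : ∀ i j : ℕ, j + 1 ≠ i → d i j = 0)
    (dd : ∀ (i j k : ℕ) (x : P i), d j k (d i j x) = 0) (N : ℕ)
    (bdd : ∀ i : ℕ, N < i → Subsingleton (P i)) (K : ℕ)
    (hK : ∀ i, 2 * K ≤ i → Subsingleton (P i)) (n : ℕ)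
    (h : n • (ofNat P fi pr d shape dd N bdd).EC = 0),
    ∃ a b : ℕ, Nonempty (((Fin n → ∀ j : Fin K, P (2 * j)) × (Fin a → R)) ≃ₗ[R]
      ((Fin n → ∀ j : Fin K, P (2 * j + 1)) × (Fin b → R)))

end HEp
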