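import Pool.Agent.Lib.MP_181146_gt.HE.SpecS
import Pool.Agent.Lib.MP_181146_gt.HE.SpecG

/-!
# Project HE, module HEalg: the algebraic theorem for complexes with multiplication
-/

set_option autoImplicit false

namespace HEp

theorem sHEalg (hAlp : S_Alp) (hPhiZ : S_PhiZ) (hDMap : S_DMap) (hDQIP : S_DQIP)
    (hDCx : S_DCx) (hAlgHE : S_AlgHE) : S_HEalg := by
  intro G _ _ X μ hF h0 hneg d hd ht hN
  obtain ⟨φ, hφ, z, hz, hz1⟩ := hPhiZ G X d ht.1
  obtain ⟨Y, ⟨D⟩⟩ := hDCx G X d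
  obtain ⟨F, c, hc, hFc⟩ := hDMap G X Y μ d D φ hφ
  refine hAlgHE G X Y d hd D F ?_ hN hneg
  intro p hp
  refine hDQIP G X Y μ d D φ hφ F c hc hFc p hp ?_
  intro i x hx hxy
  have : Fact p.Prime := ⟨hp⟩
  refine hF p hp d ((Int.castAddHom (ZMod p)).comp φ) ?_ ?_ ?_ i x hx ?_
  · intro n hn y hy
    exact hAlp G X μ hF h0 hneg d ht.2 p hp n hn y hy
  · intro w
    change ((φ (X.d (d + 1) d w) : ℤ) : ZMod p) = 0
    rw [hφ, Int.cast_zero]
  · refine ⟨z, fun j => ⟨0, ?_⟩, ?_⟩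
    · rw [hz j, smul_zero]
    · change ((φ z : ℤ) : ZMod p) ≠ 0
      rw [hz1, Int.cast_one]
      exact one_ne_zero
  · intro y hy
    exact hxy y hy

end HEp
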