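import Pool.Agent.Lib.MP_181146_gt.HE.SpecS
import Pool.Agent.Lib.MP_181146_gt.HE.SpecG
import Pool.Agent.Lib.MP_181146_gt.HS.Spec

/-!
# Project HE: the theorem (HEtop)
-/

set_option autoImplicit false

namespace HEp

open CategoryTheory

/-- A family of maps of degree one, as a family with two indices. -/
private noncomputable def topH {R : Type} [CommRing R] {P : ℕ → Type} [∀ i, AddCommGroup (P i)]
    [∀ i, Module R (P i)] (h : ∀ i : ℕ, P i →ₗ[R] P (i + 1)) (a b : ℕ) : P a →ₗ[R] P b :=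
  if hab : a + 1 = b then hab ▸ h a else 0

private lemma topH_succ {R : Type} [CommRing R] {P : ℕ → Type} [∀ i, AddCommGroup (P i)]
    [∀ i, Module R (P i)] (h : ∀ i : ℕ, P i →ₗ[R] P (i + 1)) (a : ℕ) :
    topH h a (a + 1) = h a := by
  unfold topH
  rw [dif_pos rfl]

private lemma top_neg {R : Type} [CommRing R] (P : ℕ → Type) [∀ i, AddCommGroup (P i)]
    [∀ i, Module R (P i)] (fi : ∀ i, Module.Finite R (P i)) (pr : ∀ i, Module.Projective R (P i))
    (d : ∀ i j : ℕ, P i →ₗ[R] P j) (shape : ∀ i j : ℕ, j + 1 ≠ i → d i j = 0)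
    (dd : ∀ (i j k : ℕ) (x : P i), d j k (d i j x) = 0) (N : ℕ)
    (bdd : ∀ i : ℕ, N < i → Subsingleton (P i)) :
    ∀ i : ℤ, i < 0 → Subsingleton ((ofNat P fi pr d shape dd N bdd).P i) := by
  rintro (a | a) h
  · exact absurd h (not_lt.mpr (Int.natCast_nonneg a))
  · exact inferInstanceAs (Subsingleton PUnit)

private lemma top_PN {G : Type} [CommGroup G] (P : ℕ → Type) [∀ i, AddCommGroup (P i)]
    [∀ i, Module (ZG G) (P i)] (fi : ∀ i, Module.Finite (ZG G) (P i))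
    (pr : ∀ i, Module.Projective (ZG G) (P i))
    (d : ∀ i j : ℕ, P i →ₗ[ZG G] P j) (shape : ∀ i j : ℕ, j + 1 ≠ i → d i j = 0)
    (dd : ∀ (i j k : ℕ) (x : P i), d j k (d i j x) = 0) (N : ℕ)
    (bdd : ∀ i : ℕ, N < i → Subsingleton (P i))
    (hP : ∀ g : G, ∃ h : ∀ i : ℕ, P i →ₗ[ZG G] P (i + 1),
      (∀ x, d 1 0 (h 0 x) = MonoidAlgebra.of ℤ G g • x - x) ∧
      ∀ (i : ℕ) (x : P (i + 1)), d (i + 2) (i + 1) (h (i + 1) x) +
        h i (d (i + 1) i x) = MonoidAlgebra.of ℤ G g • x - x) :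
    (ofNat P fi pr d shape dd N bdd).PN := by
  intro g
  obtain ⟨h, h0, h1⟩ := hP g
  refine ⟨NXd (topH h), ?_⟩
  have key : ∀ (i j : ℤ), j + 1 = i → ∀ x : NX P i,
      NXd d (i + 1) i (NXd (topH h) i (i + 1) x) + NXd (topH h) j i (NXd d i j x) =
      (MonoidAlgebra.of ℤ G g • x - x : NX P i) := by
    rintro (a | a) j hj x
    · rcases a with _ | b
      · have hj' : j = Int.negSucc 0 := by
          have : (Int.ofNat 0 : ℤ) = 0 := rfl
          rw [this] at hj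
          omega
        subst hj'
        have h2 : d 1 0 (topH h 0 1 x) + (0 : P 0) = MonoidAlgebra.of ℤ G g • (x : P 0) - x := by
          rw [topH_succ, add_zero]
          exact h0 x
        exact h2
      · have hj' : j = Int.ofNat b := by
          have h2 : (Int.ofNat (b + 1) : ℤ) = (b : ℤ) + 1 := rfl
          have h3 : (Int.ofNat b : ℤ) = (b : ℤ) := rfl
          rw [h2] at hj
          rw [h3]
          omega
        subst hj'
        change d (b + 2) (b + 1) (topH h (b + 1) (b + 2) x) +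
          topH h b (b + 1) (d (b + 1) b x) = _
        rw [topH_succ, topH_succ]
        exact h1 b x
    · exact Subsingleton.elim (α := PUnit) _ _
  intro i x
  exact key i (i - 1) (by ring) x

private theorem top_core (hHEalg : S_HEalg) (hTEx : S_TEx) (hMXE : S_MXE) (hFRPE : S_FRPE)
    (hH0E : S_H0E) (hTop : S_Top) (hECN : S_ECN) (hEZex : S_EZex)
    (E : Type) [TopologicalSpace E] [PathConnectedSpace E] (Γ : Subgroup (E ≃ₜ E))
    (G : Type) [CommGroup G] [Finite G] (θ : G ≃* Γ) (v : E) (m : C(E × E, E))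
    (hA : ContinuousMap.Homotopic (ContinuousMap.id E)
      (m.comp (ContinuousMap.prodMk (ContinuousMap.id E) (ContinuousMap.const E v))))
    (hB : ContinuousMap.Homotopic (ContinuousMap.id E)
      (m.comp (ContinuousMap.prodMk (ContinuousMap.const E v) (ContinuousMap.id E))))
    (hm : ∀ (g : Γ) (x y : E), m (g.1 x, y) = g.1 (m (x, y)) ∧ m (x, g.1 y) = g.1 (m (x, y)))
    (P : ℕ → Type) [∀ i, AddCommGroup (P i)] [∀ i, Module (ZG G) (P i)]
    (fi : ∀ i, Module.Finite (ZG G) (P i)) (pr : ∀ i, Module.Projective (ZG G) (P i))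
    (d : ∀ i j : ℕ, P i →ₗ[ZG G] P j) (shape : ∀ i j : ℕ, j + 1 ≠ i → d i j = 0)
    (dd : ∀ (i j k : ℕ) (x : P i), d j k (d i j x) = 0) (K : ℕ)
    (hK : ∀ i, 2 * K ≤ i → Subsingleton (P i))
    (u : ∀ i, P i →+ (HSp.SC E).X i) (u' : ∀ i, (HSp.SC E).X i →+ P i)
    (a : ∀ i, P i →+ P (i + 1)) (b : ∀ i, (HSp.SC E).X i →+ (HSp.SC E).X (i + 1))
    (ud : ∀ i x, u i (d (i + 1) i x) = ((HSp.SC E).d (i + 1) i).hom (u (i + 1) x))
    (u'd : ∀ i x, u' i (((HSp.SC E).d (i + 1) i).hom x) = d (i + 1) i (u' (i + 1) x))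
    (ha0 : ∀ x, u' 0 (u 0 x) - x = d 1 0 (a 0 x))
    (ha : ∀ i x, u' (i + 1) (u (i + 1) x) - x = d (i + 2) (i + 1) (a (i + 1) x) +
      a i (d (i + 1) i x))
    (hb0 : ∀ x, u 0 (u' 0 x) - x = ((HSp.SC E).d 1 0).hom (b 0 x))
    (hb : ∀ i x, u (i + 1) (u' (i + 1) x) - x = ((HSp.SC E).d (i + 2) (i + 1)).hom (b (i + 1) x) +
      b i (((HSp.SC E).d (i + 1) i).hom x))
    (ug : ∀ (g : G) i x, u i (MonoidAlgebra.of ℤ G g • x) =
      ((HSp.SCmap ((θ g).1 : C(E, E))).f i).hom (u i x))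
    (u'g : ∀ (g : G) i x, u' i (((HSp.SCmap ((θ g).1 : C(E, E))).f i).hom x) =
      MonoidAlgebra.of ℤ G g • u' i x)
    (hPN : ∀ g : G, ∃ h : ∀ i : ℕ, P i →ₗ[ZG G] P (i + 1),
      (∀ x, d 1 0 (h 0 x) = MonoidAlgebra.of ℤ G g • x - x) ∧
      ∀ (i : ℕ) (x : P (i + 1)), d (i + 2) (i + 1) (h (i + 1) x) +
        h i (d (i + 1) i x) = MonoidAlgebra.of ℤ G g • x - x)
    (d0 : ℕ) (hd : Even d0) (ht : IsTopDeg E d0) (n : ℕ)
    (hn : n = 2 ∨ n = 1 ∧ Odd (Nat.card G)) :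
    ∃ a b : ℕ, Nonempty (((Fin n → ∀ j : Fin K, P (2 * j)) × (Fin a → ZG G)) ≃ₗ[ZG G]
      ((Fin n → ∀ j : Fin K, P (2 * j + 1)) × (Fin b → ZG G))) := by
  have bdd : ∀ i : ℕ, 2 * K < i → Subsingleton (P i) := fun i hi => hK i hi.le
  obtain ⟨t⟩ := hTEx E Γ G θ P fi pr d shape dd (2 * K) bdd u u' a b ud u'd ha0 ha hb0 hb ug u'g
  obtain ⟨e, he⟩ := hEZex
  have hneg := top_neg P fi pr d shape dd (2 * K) bdd
  obtain ⟨μ, hM⟩ := hMXE G (ofNat P fi pr d shape dd (2 * K) bdd) E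
    (fun g => ((θ g).1 : C(E, E))) t hneg e he m
    (fun g x y => ((hm (θ g) x y).1).trans (hm (θ g) x y).2.symm)
  have hF := hFRPE G (ofNat P fi pr d shape dd (2 * K) bdd) E
    (fun g => ((θ g).1 : C(E, E))) t hneg e he v m hA hB μ hM
  have h0 := hH0E G (ofNat P fi pr d shape dd (2 * K) bdd) E
    (fun g => ((θ g).1 : C(E, E))) t hneg
  have htop := hTop E G P fi pr d shape dd (2 * K) bdd u u' a b ud u'd ha0 ha hb0 hb d0 ht
  have hN := top_PN P fi pr d shape dd (2 * K) bdd hPN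
  have hd' : Even (d0 : ℤ) := by exact_mod_cast hd
  obtain ⟨h2, h1⟩ := hHEalg G (ofNat P fi pr d shape dd (2 * K) bdd) μ hF h0 hneg (d0 : ℤ) hd'
    htop hN
  have hEC : n • (ofNat P fi pr d shape dd (2 * K) bdd).EC = 0 := by
    rcases hn with rfl | ⟨rfl, hodd⟩
    · exact h2
    · rw [one_smul]
      exact h1 hodd
  exact hECN (ZG G) P fi pr d shape dd (2 * K) bdd K hK n hEC

/-- **HEtop.** -/
theorem sHEtop (hHEalg : S_HEalg) (hTEx : S_TEx) (hMXE : S_MXE) (hFRPE : S_FRPE) (hH0E : S_H0E)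
    (hLift : S_Lift) (hLpc : S_Lpc) (hDCo : S_DCo) (hTop : S_Top) (hPNx : S_PNx) (hUA : S_UA)
    (hECN : S_ECN) (hTN : HSp.S_TN) (hEZex : S_EZex) : S_HEtop := by
  intro X E _ _ _ _ _ p hp e μ hμ hfin P hP hP' K hK heq d0 hd ht n hn
  have hlpc : LocallyPathConnectedSpace E := hLpc X E p hp
  obtain ⟨v, m, hA, hB, hm⟩ := hLift X E p hp e μ hμ
  have hN : HSp.PropN (HSp.Deck p) := hTN X E p hp e μ hμ
  have hcomm := hDCo E (HSp.Deck p) hN
  obtain ⟨u, u', a, b, ud, u'd, ha0, ha, hb0, hb, ug, u'g⟩ := hUA E (HSp.Deck p) P heq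
  have hPN := hPNx E (HSp.Deck p) hN P heq
  let cg : CommGroup (HSp.Deck p) :=
    { (inferInstance : Group (HSp.Deck p)) with mul_comm := hcomm }
  have shape : ∀ i j : ℕ, j + 1 ≠ i → (P.d i j).hom = 0 := by
    intro i j hij
    rw [P.shape i j (by simpa using hij)]
    rfl
  have dd : ∀ (i j k : ℕ) (x : P.X i), (P.d j k).hom ((P.d i j).hom x) = 0 := by
    intro i j k x
    have h2 : (P.d i j ≫ P.d j k).hom x = 0 := by
      rw [P.d_comp_d i j k]
      rfl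
    rw [ModuleCat.hom_comp] at h2
    exact h2
  exact top_core hHEalg hTEx hMXE hFRPE hH0E hTop hECN hEZex E (HSp.Deck p) (HSp.Deck p)
    (MulEquiv.refl _) v m hA hB hm (fun i => P.X i) hP hP' (fun i j => (P.d i j).hom) shape dd K hK
    u u' a b ud u'd ha0 ha hb0 hb ug u'g hPN d0 hd ht n hn

end HEp
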