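import Pool.Agent.Lib.MP_181146_gt.HE.SpecS

/-!
# Project HE: HPT, the tensor product of maps homotopic to the identity by odd homotopies
-/

set_option autoImplicit false

namespace HEp

open scoped TensorProduct

variable {k : Type} [CommRing k]

private lemma cm_sg {A : DG k} {π : A.V →ₗ[k] A.V} (h : IsCM A A π) (x : A.V) :
    π (A.sg x) = A.sg (π x) := by
  rw [DG.sg_apply, DG.sg_apply, map_sub, map_smul, h.P]

private lemma odd_sg {A : DG k} {s : A.V →ₗ[k] A.V} (h : ∀ x, A.P (s x) = s (x - A.P x))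
    (x : A.V) : A.sg (s x) = - s (A.sg x) := by
  rw [DG.sg_apply, DG.sg_apply, h, map_sub, map_sub, map_smul]
  module

private lemma cm_tens {A B : DG k} {π : A.V →ₗ[k] A.V} {π' : B.V →ₗ[k] B.V}
    (h : IsCM A A π) (h' : IsCM B B π') :
    IsCM (A.tens B) (A.tens B) (TensorProduct.map π π') where
  d := by
    intro x
    induction x using TensorProduct.induction_on with
    | zero => simp only [map_zero]
    | add x y hx hy => simp only [map_add, hx, hy]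
    | tmul a b =>
      have e1 : (A.tens B).d (a ⊗ₜ[k] b) = A.d a ⊗ₜ[k] b + A.sg a ⊗ₜ[k] B.d b := rfl
      have e2 : (A.tens B).d (π a ⊗ₜ[k] π' b) =
        A.d (π a) ⊗ₜ[k] π' b + A.sg (π a) ⊗ₜ[k] B.d (π' b) := rfl
      rw [TensorProduct.map_tmul, e2]
      refine Eq.trans (congrArg _ e1) ?_
      rw [map_add, TensorProduct.map_tmul, TensorProduct.map_tmul, h.d, h'.d, cm_sg h]
  P := by
    intro x
    induction x using TensorProduct.induction_on with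
    | zero => simp only [map_zero]
    | add x y hx hy => simp only [map_add, hx, hy]
    | tmul a b =>
      have e1 : (A.tens B).P (a ⊗ₜ[k] b) =
        A.P a ⊗ₜ[k] b + a ⊗ₜ[k] B.P b - (2 : k) • (A.P a ⊗ₜ[k] B.P b) := rfl
      have e2 : (A.tens B).P (π a ⊗ₜ[k] π' b) = A.P (π a) ⊗ₜ[k] π' b + π a ⊗ₜ[k] B.P (π' b) -
        (2 : k) • (A.P (π a) ⊗ₜ[k] B.P (π' b)) := rfl
      rw [TensorProduct.map_tmul, e2]
      refine Eq.trans (congrArg _ e1) ?_
      rw [map_sub, map_add, map_smul, TensorProduct.map_tmul, TensorProduct.map_tmul,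
        TensorProduct.map_tmul, h.P, h'.P]

theorem sHPT : S_HPT := by
  intro k _ A B π π' H H'
  have hcm := cm_tens H.cm H'.cm
  let S : A.V ⊗[k] B.V →ₗ[k] A.V ⊗[k] B.V :=
    TensorProduct.map H.s LinearMap.id + TensorProduct.map (π ∘ₗ A.sg) H'.s
  have hS : ∀ (a : A.V) (b : B.V), S (a ⊗ₜ[k] b) =
      H.s a ⊗ₜ[k] b + π (A.sg a) ⊗ₜ[k] H'.s b := fun _ _ => rfl
  refine ⟨⟨hcm, S, ?_, ?_⟩⟩
  · intro x
    induction x using TensorProduct.induction_on with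
    | zero => simp only [map_zero, add_zero, sub_zero]
    | add x y hx hy =>
      rw [map_add, map_add, map_add, map_add, map_add]
      have : (A.tens B).d (S x) + (A.tens B).d (S y) +
        (S ((A.tens B).d x) + S ((A.tens B).d y)) =
        ((A.tens B).d (S x) + S ((A.tens B).d x)) +
          ((A.tens B).d (S y) + S ((A.tens B).d y)) := by abel
      rw [this, hx, hy]
      abel
    | tmul a b =>
      have e1 : (A.tens B).d (a ⊗ₜ[k] b) = A.d a ⊗ₜ[k] b + A.sg a ⊗ₜ[k] B.d b := rfl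
      have e2 : (A.tens B).d (H.s a ⊗ₜ[k] b) =
        A.d (H.s a) ⊗ₜ[k] b + A.sg (H.s a) ⊗ₜ[k] B.d b := rfl
      have e3 : (A.tens B).d (π (A.sg a) ⊗ₜ[k] H'.s b) =
        A.d (π (A.sg a)) ⊗ₜ[k] H'.s b + A.sg (π (A.sg a)) ⊗ₜ[k] B.d (H'.s b) := rfl
      have l1 : (A.tens B).d (S (a ⊗ₜ[k] b)) =
          A.d (H.s a) ⊗ₜ[k] b + A.sg (H.s a) ⊗ₜ[k] B.d b +
          (A.d (π (A.sg a)) ⊗ₜ[k] H'.s b + A.sg (π (A.sg a)) ⊗ₜ[k] B.d (H'.s b)) := by
        rw [hS, map_add, ← e2, ← e3]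
      have l2 : S ((A.tens B).d (a ⊗ₜ[k] b)) =
          H.s (A.d a) ⊗ₜ[k] b + π (A.sg (A.d a)) ⊗ₜ[k] H'.s b +
          (H.s (A.sg a) ⊗ₜ[k] B.d b + π (A.sg (A.sg a)) ⊗ₜ[k] H'.s (B.d b)) := by
        refine Eq.trans (congrArg S e1) ?_
        rw [map_add, hS, hS]
      refine Eq.trans (congrArg₂ (· + ·) l1 l2) ?_
      have a1 : A.sg (H.s a) = - H.s (A.sg a) := odd_sg H.odd a
      have a2 : A.sg (π (A.sg a)) = π a := by rw [← cm_sg H.cm, A.sg_sg]
      have a3 : A.d (π (A.sg a)) = - π (A.sg (A.d a)) := by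
        rw [← H.cm.d, A.sg_d, map_neg, neg_neg]
      have a4 : A.d (H.s a) = a - π a - H.s (A.d a) := by rw [← H.rel a]; abel
      have a5 : B.d (H'.s b) = b - π' b - H'.s (B.d b) := by rw [← H'.rel b]; abel
      rw [TensorProduct.map_tmul, a1, a2, a3, a4, a5, A.sg_sg]
      simp only [TensorProduct.tmul_sub, TensorProduct.sub_tmul, TensorProduct.neg_tmul]
      abel
  · intro x
    induction x using TensorProduct.induction_on with
    | zero => simp only [map_zero, sub_zero]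
    | add x y hx hy =>
      rw [map_add, map_add, hx, hy, ← map_add, map_add (A.tens B).P]
      congr 1
      abel
    | tmul a b =>
      have e1 : (A.tens B).P (a ⊗ₜ[k] b) =
        A.P a ⊗ₜ[k] b + a ⊗ₜ[k] B.P b - (2 : k) • (A.P a ⊗ₜ[k] B.P b) := rfl
      have e2 : (A.tens B).P (H.s a ⊗ₜ[k] b) = A.P (H.s a) ⊗ₜ[k] b + H.s a ⊗ₜ[k] B.P b -
        (2 : k) • (A.P (H.s a) ⊗ₜ[k] B.P b) := rfl
      have e3 : (A.tens B).P (π (A.sg a) ⊗ₜ[k] H'.s b) = A.P (π (A.sg a)) ⊗ₜ[k] H'.s b +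
        π (A.sg a) ⊗ₜ[k] B.P (H'.s b) -
        (2 : k) • (A.P (π (A.sg a)) ⊗ₜ[k] B.P (H'.s b)) := rfl
      have l1 : (A.tens B).P (S (a ⊗ₜ[k] b)) =
          A.P (H.s a) ⊗ₜ[k] b + H.s a ⊗ₜ[k] B.P b - (2 : k) • (A.P (H.s a) ⊗ₜ[k] B.P b) +
          (A.P (π (A.sg a)) ⊗ₜ[k] H'.s b + π (A.sg a) ⊗ₜ[k] B.P (H'.s b) -
            (2 : k) • (A.P (π (A.sg a)) ⊗ₜ[k] B.P (H'.s b))) := by
        rw [hS, map_add, ← e2, ← e3]
      have l2 : S (a ⊗ₜ[k] b - (A.tens B).P (a ⊗ₜ[k] b)) =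
          H.s a ⊗ₜ[k] b + π (A.sg a) ⊗ₜ[k] H'.s b -
          (H.s (A.P a) ⊗ₜ[k] b + π (A.sg (A.P a)) ⊗ₜ[k] H'.s b +
            (H.s a ⊗ₜ[k] B.P b + π (A.sg a) ⊗ₜ[k] H'.s (B.P b)) -
            (2 : k) • (H.s (A.P a) ⊗ₜ[k] B.P b + π (A.sg (A.P a)) ⊗ₜ[k] H'.s (B.P b))) := by
        refine Eq.trans (congrArg (fun z => S (a ⊗ₜ[k] b - z)) e1) ?_
        rw [map_sub, map_sub, map_add, map_smul, hS, hS, hS, hS]
      refine Eq.trans l1 (Eq.trans ?_ l2.symm)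
      have a1 : A.P (π (A.sg a)) = - π (A.P a) := by rw [← H.cm.P, A.P_sg, map_neg]
      rw [H.odd, H'.odd, a1, A.sg_P, map_neg, map_sub, map_sub]
      simp only [TensorProduct.tmul_sub, TensorProduct.sub_tmul, TensorProduct.neg_tmul,
        smul_sub, smul_neg, smul_add]
      module

end HEp
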