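import Pool.Agent.Lib.MP_181146_gt.HE.SpecG

/-!
# Project HE, module IR: `TF ρ M` is induced from the kernel of `ρ`
-/

set_option autoImplicit false

namespace HEp

open scoped TensorProduct

/-- base change on stable isomorphisms -/
private lemma ir_siso (A B : Type) [CommRing A] [CommRing B] [Algebra A B] (M N : Type)
    [AddCommGroup M] [Module A M] [AddCommGroup N] [Module A N] (h : SIso A M N) :
    SIso B (B ⊗[A] M) (B ⊗[A] N) := by
  classical
  obtain ⟨a, b, ⟨e⟩⟩ := h
  have e1 : ∀ (L : Type) [AddCommGroup L] [Module A L] (c : ℕ),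
      Nonempty ((B ⊗[A] (L × (Fin c → A))) ≃ₗ[B] ((B ⊗[A] L) × (Fin c → B))) := by
    intro L _ _ c
    exact ⟨(TensorProduct.prodRight A B B L (Fin c → A)).trans
      ((LinearEquiv.refl B (B ⊗[A] L)).prodCongr (TensorProduct.piScalarRight A B B (Fin c)))⟩
  obtain ⟨u⟩ := e1 M a
  obtain ⟨v⟩ := e1 N b
  exact ⟨a, b, ⟨u.symm.trans ((LinearEquiv.baseChange A B _ _ e).trans v)⟩⟩

/-- base change as a homomorphism on the reduced class groups -/
private theorem ir_bc (A B : Type) [CommRing A] [CommRing B] [Algebra A B] :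
    ∃ i : KT A →+ KT B, ∀ (M : Type) [AddCommGroup M] [Module A M] [Module.Finite A M]
      [Module.Projective A M], i (cl A M) = cl B (B ⊗[A] M) := by
  let f : KT A → KT B := Quotient.map (fun P : FPr A => (⟨B ⊗[A] P.M⟩ : FPr B))
    (fun P Q h => ir_siso A B P.M Q.M h)
  have hf : ∀ (M : Type) [AddCommGroup M] [Module A M] [Module.Finite A M]
      [Module.Projective A M], f (cl A M) = cl B (B ⊗[A] M) := fun M _ _ _ _ => rfl
  have hadd : ∀ x y : KT A, f (x + y) = f x + f y := by
    intro x y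
    induction x using KT.ind with | _ P => ?_
    induction y using KT.ind with | _ Q => ?_
    rw [← cl_prod, hf, hf, hf, ← cl_prod]
    exact cl_congr (TensorProduct.prodRight A B B P.M Q.M)
  exact ⟨AddMonoidHom.mk' f hadd, fun M _ _ _ _ => hf M⟩

section

variable {K G X : Type} [CommGroup K] [CommGroup G] [AddCommGroup X]
  (ρ : G →* Multiplicative X) (j : K →* G)

/-- the function with the value `m` at `0` -/
private noncomputable def irSingle (M : Type) [AddCommGroup M] (m : M) : TF ρ M :=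
  open Classical in (Pi.single 0 m : X → M)

private lemma irSingle_apply (M : Type) [AddCommGroup M] (m : M) (x : X) :
    (irSingle ρ M m : X → M) x = open Classical in if x = 0 then m else 0 := by
  classical
  unfold irSingle
  rw [Pi.single_apply]

private lemma irSingle_add (M : Type) [AddCommGroup M] (m m' : M) :
    irSingle ρ M (m + m') = irSingle ρ M m + irSingle ρ M m' := by
  classical
  funext x
  change (irSingle ρ M (m + m') : X → M) x = (irSingle ρ M m : X → M) x + (irSingle ρ M m' : X → M) x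
  rw [irSingle_apply, irSingle_apply, irSingle_apply]
  split_ifs
  · rfl
  · rw [add_zero]

/-- the element `m` of `M` as an element of `RS j M` -/
private def rsOf (M : Type) (m : M) : RS j M := m

/-- the element `m` of `RS j M` as an element of `M` -/
private def rsTo (M : Type) (m : RS j M) : M := m

private lemma rsOf_add (M : Type) [AddCommGroup M] (m m' : M) :
    rsOf j M (m + m') = rsOf j M m + rsOf j M m' := rfl

private lemma rsOf_zero (M : Type) [AddCommGroup M] : rsOf j M (0 : M) = 0 := rfl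

private lemma rsOf_smul (M : Type) [AddCommGroup M] [Module (ZG G) M] (k : K) (m : RS j M) :
    MonoidAlgebra.of ℤ K k • m = rsOf j M (MonoidAlgebra.of ℤ G (j k) • rsTo j M m) :=
  RS_of_smul j M k m

private lemma tf_add (M : Type) [AddCommGroup M] (F F' : TF ρ M) (x : X) :
    (F + F' : TF ρ M) x = F x + F' x := rfl

/-- extensionality for additive maps out of the group ring -/
private lemma ir_ext {A : Type} [AddCommGroup A] (f g : ZG G →+ A)
    (h : ∀ x : G, f (MonoidAlgebra.of ℤ G x) = g (MonoidAlgebra.of ℤ G x)) (a : ZG G) :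
    f a = g a := by
  have : f = g := by
    apply MonoidAlgebra.addMonoidHom_ext
    intro x n
    have h1 : (MonoidAlgebra.single x n : ZG G) = n • MonoidAlgebra.of ℤ G x := by
      rw [MonoidAlgebra.of_apply, MonoidAlgebra.smul_single, smul_eq_mul, mul_one]
    rw [h1, map_zsmul, map_zsmul, h x]
  rw [this]

end

theorem sIR : S_IR := by
  classical
  intro K G _ _ _ X _ _ ρ hρ j hj hK
  cases nonempty_fintype X
  letI : Algebra (ZG K) (ZG G) := (MonoidAlgebra.mapDomainRingHom ℤ j).toAlgebra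
  have halg : ∀ a : ZG K, algebraMap (ZG K) (ZG G) a = MonoidAlgebra.mapDomainRingHom ℤ j a :=
    fun a => rfl
  have hof : ∀ k : K, algebraMap (ZG K) (ZG G) (MonoidAlgebra.of ℤ K k) =
      MonoidAlgebra.of ℤ G (j k) := by
    intro k
    rw [halg]
    simp [MonoidAlgebra.mapDomainRingHom_apply]
  obtain ⟨i, hi⟩ := ir_bc (ZG K) (ZG G)
  refine ⟨i, ?_⟩
  intro M _ _ _ _ _ _ _ _
  rw [hi]
  refine cl_congr ?_
  letI : Module (ZG K) (TF ρ M) := Module.compHom (TF ρ M) (algebraMap (ZG K) (ZG G))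
  have hsm : ∀ (a : ZG K) (F : TF ρ M), a • F = (algebraMap (ZG K) (ZG G) a) • F :=
    fun a F => rfl
  haveI : IsScalarTower (ZG K) (ZG G) (TF ρ M) := ⟨fun a b F => by
    rw [Algebra.smul_def, mul_smul]
    rfl⟩
  have hsmulK : ∀ (g : G) (m : M) (x : X),
      (MonoidAlgebra.of ℤ G g • irSingle ρ M m : TF ρ M) x =
        if x = (ρ g).toAdd then MonoidAlgebra.of ℤ G g • m else 0 := by
    intro g m x
    rw [TF_of_smul]
    change MonoidAlgebra.of ℤ G g • (irSingle ρ M m : X → M) (x - (ρ g).toAdd) = _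
    rw [irSingle_apply]
    by_cases h : x = (ρ g).toAdd
    · rw [if_pos h, if_pos (sub_eq_zero.mpr h)]
    · rw [if_neg h, if_neg (fun h' => h (sub_eq_zero.mp h')), smul_zero]
  -- the map δ
  let δ0 : RS j M →+ TF ρ M := AddMonoidHom.mk' (fun m => irSingle ρ M (rsTo j M m))
    (fun m m' => irSingle_add ρ M (rsTo j M m) (rsTo j M m'))
  have hδ : ∀ (a : ZG K) (m : RS j M), δ0 (a • m) = a • δ0 m := by
    intro a m
    refine ir_ext (G := K) (δ0.comp (AddMonoidHom.flip (smulAddHom (ZG K) (RS j M)) m))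
      (AddMonoidHom.flip (smulAddHom (ZG K) (TF ρ M)) (δ0 m)) ?_ a
    intro k
    change δ0 (MonoidAlgebra.of ℤ K k • m) = MonoidAlgebra.of ℤ K k • δ0 m
    rw [hsm, hof, rsOf_smul]
    funext x
    have h1 := hsmulK (j k) (rsTo j M m) x
    have h2 : (ρ (j k)).toAdd = 0 := by
      rw [(hK (j k)).mpr ⟨k, rfl⟩]
      rfl
    rw [h2] at h1
    refine Eq.trans ?_ h1.symm
    exact irSingle_apply ρ M _ x
  let δ : RS j M →ₗ[ZG K] TF ρ M :=
    { toFun := δ0
      map_add' := δ0.map_add
      map_smul' := hδ }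
  let Φ : (ZG G ⊗[ZG K] RS j M) →ₗ[ZG G] TF ρ M := LinearMap.liftBaseChange (ZG G) δ
  have hΦ : ∀ (a : ZG G) (m : RS j M), Φ (a ⊗ₜ m) = a • (irSingle ρ M (rsTo j M m) : TF ρ M) := by
    intro a m
    exact LinearMap.liftBaseChange_tmul (A := ZG G) δ a m
  -- section
  have hs : ∀ x : X, ∃ g : G, (ρ g).toAdd = x := fun x => hρ (Multiplicative.ofAdd x)
  choose s hs using hs
  -- inverse
  let ψ : TF ρ M →+ (ZG G ⊗[ZG K] RS j M) := AddMonoidHom.mk'
    (fun F => ∑ x : X, (MonoidAlgebra.of ℤ G (s x)) ⊗ₜ[ZG K]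
      (rsOf j M (MonoidAlgebra.of ℤ G (s x)⁻¹ • (F x)))) (by
    intro F F'
    rw [← Finset.sum_add_distrib]
    refine Finset.sum_congr rfl fun x _ => ?_
    rw [← TensorProduct.tmul_add, ← rsOf_add, ← smul_add, tf_add])
  have hψ : ∀ F : TF ρ M, ψ F = ∑ x : X, (MonoidAlgebra.of ℤ G (s x)) ⊗ₜ[ZG K]
      (rsOf j M (MonoidAlgebra.of ℤ G (s x)⁻¹ • (F x))) := fun F => rfl
  have h1 : ∀ F : TF ρ M, Φ (ψ F) = F := by
    intro F
    rw [hψ, map_sum]
    have h2 : ∀ x : X, Φ ((MonoidAlgebra.of ℤ G (s x)) ⊗ₜ[ZG K]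
        (rsOf j M (MonoidAlgebra.of ℤ G (s x)⁻¹ • (F x)))) =
        (Pi.single x (F x) : X → M) := by
      intro x
      rw [hΦ]
      funext y
      refine (hsmulK (s x) _ y).trans ?_
      change (if y = (ρ (s x)).toAdd then MonoidAlgebra.of ℤ G (s x) •
        (MonoidAlgebra.of ℤ G (s x)⁻¹ • (F x)) else 0) = _
      rw [hs, Pi.single_apply, ← mul_smul, ← map_mul, mul_inv_cancel, map_one, one_smul]
    rw [Finset.sum_congr rfl fun x _ => h2 x]
    exact Finset.univ_sum_single (F : X → M)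
  have h2 : ∀ t : ZG G ⊗[ZG K] RS j M, ψ (Φ t) = t := by
    intro t
    induction t using TensorProduct.induction_on with
    | zero => rw [map_zero, map_zero]
    | add x y hx hy => rw [map_add, map_add, hx, hy]
    | tmul a m =>
      refine ir_ext (G := G) ((ψ.comp Φ.toAddMonoidHom).comp
        (AddMonoidHom.mk' (fun a : ZG G => a ⊗ₜ[ZG K] m)
          (fun a b => TensorProduct.add_tmul a b m)))
        (AddMonoidHom.mk' (fun a : ZG G => a ⊗ₜ[ZG K] m)
          (fun a b => TensorProduct.add_tmul a b m)) ?_ a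
      intro g
      change ψ (Φ (MonoidAlgebra.of ℤ G g ⊗ₜ[ZG K] m)) = MonoidAlgebra.of ℤ G g ⊗ₜ[ZG K] m
      rw [hΦ, hψ, Finset.sum_eq_single (ρ g).toAdd]
      · obtain ⟨k, hk⟩ : ∃ k, j k = (s (ρ g).toAdd)⁻¹ * g := by
          have h3 : ρ (s (ρ g).toAdd) = ρ g := by
            have h4 := congrArg Multiplicative.ofAdd (hs (ρ g).toAdd)
            exact h4
          rw [← hK, map_mul, map_inv, h3, inv_mul_cancel]
        have h3 : (MonoidAlgebra.of ℤ G g • irSingle ρ M (rsTo j M m) : TF ρ M) (ρ g).toAdd =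
            MonoidAlgebra.of ℤ G g • rsTo j M m := by
          refine (hsmulK g _ _).trans ?_
          rw [if_pos rfl]
        rw [h3, ← mul_smul, ← map_mul, ← hk, ← rsOf_smul, ← TensorProduct.smul_tmul,
          Algebra.smul_def, hof, ← map_mul, hk, inv_mul_cancel_comm]
      · intro x _ hx
        have h3 : (MonoidAlgebra.of ℤ G g • irSingle ρ M (rsTo j M m) : TF ρ M) x = 0 := by
          refine (hsmulK g _ _).trans ?_
          rw [if_neg hx]
        rw [h3, smul_zero, rsOf_zero]
        exact TensorProduct.tmul_zero _ _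
      · intro h
        exact absurd (Finset.mem_univ _) h
  exact LinearEquiv.ofBijective Φ ⟨fun x y hxy => by rw [← h2 x, ← h2 y, hxy],
    fun F => ⟨ψ F, h1 F⟩⟩

end HEp
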