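import Pool.Agent.Lib.MP_181146_gt.HE.SpecG

/-!
# Project HE: the mapping cone (author helper12)
-/

set_option autoImplicit false

namespace HEp

section

variable {R : Type} [CommRing R]

/-- The identity if `a = b`, zero otherwise. -/
private def KCone_cst (Y : ZCx R) (a b : ℤ) : Y.P a →ₗ[R] Y.P b :=
  if h : a = b then h ▸ (LinearMap.id : Y.P a →ₗ[R] Y.P a) else 0

private theorem KCone_cst_self (Y : ZCx R) (a : ℤ) (y : Y.P a) : KCone_cst Y a a y = y := by
  unfold KCone_cst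
  rw [dif_pos rfl]
  rfl

private theorem KCone_cst_ne (Y : ZCx R) {a b : ℤ} (h : a ≠ b) : KCone_cst Y a b = 0 := by
  unfold KCone_cst
  rw [dif_neg h]

/-- The differential of the cone. -/
private def KCone_d {X Y : ZCx R} (F : ZHom X Y) (i j : ℤ) :
    (X.P (i - 1) × Y.P i) →ₗ[R] (X.P (j - 1) × Y.P j) :=
  LinearMap.prod (-((X.d (i - 1) (j - 1)) ∘ₗ LinearMap.fst R _ _))
    (Y.d i j ∘ₗ LinearMap.snd R _ _ +
      KCone_cst Y (i - 1) j ∘ₗ F.f (i - 1) ∘ₗ LinearMap.fst R _ _)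

private theorem KCone_d_apply {X Y : ZCx R} (F : ZHom X Y) (i j : ℤ) (c : X.P (i - 1) × Y.P i) :
    KCone_d F i j c = (-(X.d (i - 1) (j - 1) c.1),
      Y.d i j c.2 + KCone_cst Y (i - 1) j (F.f (i - 1) c.1)) := rfl

private theorem KCone_d_pred {X Y : ZCx R} (F : ZHom X Y) (i : ℤ) (c : X.P (i - 1) × Y.P i) :
    KCone_d F i (i - 1) c = (-(X.d (i - 1) (i - 1 - 1) c.1),
      Y.d i (i - 1) c.2 + F.f (i - 1) c.1) := by
  rw [KCone_d_apply, KCone_cst_self]

private theorem KCone_shape {X Y : ZCx R} (F : ZHom X Y) (i j : ℤ) (h : j + 1 ≠ i) :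
    KCone_d F i j = 0 := by
  refine LinearMap.ext fun c => ?_
  rw [KCone_d_apply, X.shape (i - 1) (j - 1) (fun h' => h (by omega)), Y.shape i j h,
    KCone_cst_ne Y (a := i - 1) (b := j) (fun h' => h (by omega))]
  simp only [LinearMap.zero_apply, neg_zero, add_zero]
  rfl

private theorem KCone_dd {X Y : ZCx R} (F : ZHom X Y) (i j l : ℤ) (c : X.P (i - 1) × Y.P i) :
    KCone_d F j l (KCone_d F i j c) = 0 := by
  by_cases h1 : j + 1 = i
  · by_cases h2 : l + 1 = j
    · obtain rfl : j = i - 1 := by omega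
      obtain rfl : l = i - 1 - 1 := by omega
      rw [KCone_d_pred, KCone_d_pred]
      refine Prod.ext ?_ ?_
      · change -(X.d (i - 1 - 1) (i - 1 - 1 - 1) (-(X.d (i - 1) (i - 1 - 1) c.1))) = 0
        rw [map_neg, neg_neg, X.dd]
      · change Y.d (i - 1) (i - 1 - 1) (Y.d i (i - 1) c.2 + F.f (i - 1) c.1) +
          F.f (i - 1 - 1) (-(X.d (i - 1) (i - 1 - 1) c.1)) = 0
        rw [map_add, Y.dd, zero_add, map_neg, F.comm, add_neg_cancel]
    · rw [KCone_shape F j l h2, LinearMap.zero_apply]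
  · rw [KCone_shape F i j h1, LinearMap.zero_apply, map_zero]

/-- The cone. -/
private def KCone_C {X Y : ZCx R} (F : ZHom X Y) : ZCx R where
  P := fun i => X.P (i - 1) × Y.P i
  d := KCone_d F
  shape := KCone_shape F
  dd := KCone_dd F
  N := X.N + Y.N + 1
  bdd := by
    intro i hi
    have h1 : ((X.N : ℕ) : ℤ) < |i - 1| := by
      have h2 : |i| ≤ |i - 1| + 1 := by
        have h3 := abs_add_le (i - 1) 1
        rw [sub_add_cancel, abs_one] at h3
        exact h3
      push_cast at hi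
      have h4 : (0 : ℤ) ≤ Y.N := Int.natCast_nonneg _
      linarith
    have h2 : ((Y.N : ℕ) : ℤ) < |i| := by
      push_cast at hi
      have h4 : (0 : ℤ) ≤ X.N := Int.natCast_nonneg _
      linarith
    have := X.bdd _ h1
    have := Y.bdd _ h2
    infer_instance

/-- The Euler class as a sum over a larger set. -/
private theorem KCone_EC (X : ZCx R) (s : Finset ℤ) (hs : Finset.Icc (-(X.N : ℤ)) X.N ⊆ s) :
    ∑ i ∈ s, (i.negOnePow : ℤ) • cl R (X.P i) = X.EC := by
  unfold ZCx.EC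
  refine (Finset.sum_subset hs fun i _ hi => ?_).symm
  have h1 : (X.N : ℤ) < |i| := by
    rw [Finset.mem_Icc, not_and_or, not_le, not_le] at hi
    rw [lt_abs]
    rcases hi with hi | hi
    · right
      linarith
    · left
      exact hi
  have := X.bdd i h1
  rw [cl_subsingleton, smul_zero]

end

theorem sKCone : S_KCone := by
  intro R _ X Y F
  refine ⟨KCone_C F, fun i => LinearEquiv.refl R _, fun i c => KCone_d_pred F i c, ?_⟩
  have h1 : (KCone_C F).EC = ∑ i ∈ Finset.Icc (-((X.N + Y.N + 1 : ℕ) : ℤ)) ((X.N + Y.N + 1 : ℕ) : ℤ),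
      (i.negOnePow : ℤ) • (cl R (X.P (i - 1)) + cl R (Y.P i)) := rfl
  have h2 : ∑ i ∈ Finset.Icc (-((X.N + Y.N + 1 : ℕ) : ℤ)) ((X.N + Y.N + 1 : ℕ) : ℤ),
      (i.negOnePow : ℤ) • cl R (Y.P i) = Y.EC := by
    refine KCone_EC Y _ (Finset.Icc_subset_Icc ?_ ?_) <;> push_cast <;>
      have := Int.natCast_nonneg X.N <;> linarith
  have h3 : ∑ i ∈ Finset.Icc (-((X.N + Y.N + 1 : ℕ) : ℤ)) ((X.N + Y.N + 1 : ℕ) : ℤ),
      (i.negOnePow : ℤ) • cl R (X.P (i - 1)) = -X.EC := by
    rw [← KCone_EC X ((Finset.Icc (-((X.N + Y.N + 1 : ℕ) : ℤ))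
      ((X.N + Y.N + 1 : ℕ) : ℤ)).image fun i => i - 1)]
    · rw [Finset.sum_image (fun a _ b _ h => sub_left_injective h), ← Finset.sum_neg_distrib]
      refine Finset.sum_congr rfl fun i _ => ?_
      have h4 : (i.negOnePow : ℤ) = -((i - 1).negOnePow : ℤ) := by
        conv_lhs => rw [show i = (i - 1) + 1 by ring]
        rw [Int.negOnePow_succ, Units.val_neg]
      rw [h4, neg_smul]
    · intro i hi
      rw [Finset.mem_Icc] at hi
      rw [Finset.mem_image]
      refine ⟨i + 1, ?_, by ring⟩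
      rw [Finset.mem_Icc]
      push_cast
      have := Int.natCast_nonneg X.N
      have := Int.natCast_nonneg Y.N
      constructor <;> linarith [hi.1, hi.2]
  rw [h1]
  simp only [smul_add]
  rw [Finset.sum_add_distrib, h2, h3]
  abel

end HEp
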