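import Pool.Agent.Lib.MP_181146_gt.HE.SpecG

/-!
# The cone of a chain map is exact if and only if the map is a quasi-isomorphism
-/

set_option autoImplicit false

namespace HEp

private lemma KConeEx_cyc {R : Type} [CommRing R] (X : ZCx R) (i : ℤ) (x : X.P i) :
    X.Cyc i x ↔ X.d i (i - 1) x = 0 := by
  refine ⟨fun h => h (i - 1), fun h j => ?_⟩
  by_cases hj : j = i - 1
  · subst hj
    exact h
  · rw [X.shape i j (by omega), LinearMap.zero_apply]

private lemma KConeEx_bdy {R : Type} [CommRing R] (X : ZCx R) (j : ℤ) (x : X.P (j - 1)) :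
    X.Bdy (j - 1) x ↔ ∃ y : X.P j, X.d j (j - 1) y = x := by
  refine ⟨?_, fun ⟨y, hy⟩ => ⟨j, y, hy⟩⟩
  rintro ⟨k, y, hy⟩
  by_cases hk : k = j
  · subst hk
    exact ⟨y, hy⟩
  · refine ⟨0, ?_⟩
    rw [map_zero, ← hy, X.shape k (j - 1) (by omega), LinearMap.zero_apply]

theorem sKConeEx : S_KConeEx := by
  intro R _ X Y F C e he
  constructor
  · rintro ⟨h1, h2⟩ i c hc
    obtain ⟨j, rfl⟩ : ∃ j, i = j - 1 := ⟨i + 1, by omega⟩
    rw [KConeEx_bdy]
    rw [KConeEx_cyc] at hc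
    have h3 := he (j - 1) c
    rw [hc, map_zero] at h3
    obtain ⟨x, hx⟩ : ∃ x, x = (e (j - 1) c).1 := ⟨_, rfl⟩
    obtain ⟨y, hy⟩ : ∃ y, y = (e (j - 1) c).2 := ⟨_, rfl⟩
    rw [← hx, ← hy] at h3
    have hx0 : X.d (j - 1 - 1) (j - 1 - 1 - 1) x = 0 := neg_eq_zero.mp (congrArg Prod.fst h3).symm
    have hy0 : Y.d (j - 1) (j - 1 - 1) y + F.f (j - 1 - 1) x = 0 := (congrArg Prod.snd h3).symm
    have hFx : F.f (j - 1 - 1) x = Y.d (j - 1) (j - 1 - 1) (-y) := by
      rw [map_neg]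
      exact (neg_eq_of_add_eq_zero_right hy0).symm
    have h4 := h1 (j - 1 - 1) x ((KConeEx_cyc X _ x).mpr hx0) ⟨j - 1, -y, hFx.symm⟩
    rw [KConeEx_bdy] at h4
    obtain ⟨x1, hx1⟩ := h4
    have h5 : Y.d (j - 1) (j - 1 - 1) (y + F.f (j - 1) x1) = 0 := by
      rw [map_add, ← F.comm, hx1, hy0]
    obtain ⟨x2, hx2, h6⟩ := h2 (j - 1) (y + F.f (j - 1) x1) ((KConeEx_cyc Y _ _).mpr h5)
    rw [KConeEx_bdy] at h6
    obtain ⟨y3, hy3⟩ := h6
    rw [KConeEx_cyc] at hx2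
    refine ⟨(e j).symm (-x1 + x2, y3), (e (j - 1)).injective ?_⟩
    rw [he, LinearEquiv.apply_symm_apply]
    refine Prod.ext ?_ ?_
    · show -(X.d (j - 1) (j - 1 - 1) (-x1 + x2)) = (e (j - 1) c).1
      rw [map_add, map_neg, hx1, hx2, add_zero, neg_neg, hx]
    · show Y.d j (j - 1) y3 + F.f (j - 1) (-x1 + x2) = (e (j - 1) c).2
      rw [hy3, map_add, map_neg, ← hy]
      abel
  · intro hC
    constructor
    · intro i x hx hFx
      obtain ⟨m, rfl⟩ : ∃ m, i = m - 1 - 1 := ⟨i + 2, by omega⟩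
      rw [KConeEx_bdy] at hFx ⊢
      rw [KConeEx_cyc] at hx
      obtain ⟨y, hy⟩ := hFx
      have h3 : C.Cyc (m - 1) ((e (m - 1)).symm (x, -y)) := by
        rw [KConeEx_cyc]
        refine (e (m - 1 - 1)).injective ?_
        rw [he, LinearEquiv.apply_symm_apply, map_zero (e (m - 1 - 1))]
        refine Prod.ext ?_ ?_
        · show -(X.d (m - 1 - 1) (m - 1 - 1 - 1) x) = 0
          rw [hx, neg_zero]
        · show Y.d (m - 1) (m - 1 - 1) (-y) + F.f (m - 1 - 1) x = 0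
          rw [map_neg, hy, neg_add_cancel]
      have h4 := hC (m - 1) _ h3
      rw [KConeEx_bdy] at h4
      obtain ⟨c', hc'⟩ := h4
      have h5 := he m c'
      rw [hc', LinearEquiv.apply_symm_apply] at h5
      refine ⟨-(e m c').1, ?_⟩
      rw [map_neg]
      exact (congrArg Prod.fst h5).symm
    · intro i y hy
      obtain ⟨m, rfl⟩ : ∃ m, i = m - 1 := ⟨i + 1, by omega⟩
      rw [KConeEx_cyc] at hy
      have h3 : C.Cyc (m - 1) ((e (m - 1)).symm (0, y)) := by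
        rw [KConeEx_cyc]
        refine (e (m - 1 - 1)).injective ?_
        rw [he, LinearEquiv.apply_symm_apply, map_zero (e (m - 1 - 1))]
        refine Prod.ext ?_ ?_
        · show -(X.d (m - 1 - 1) (m - 1 - 1 - 1) 0) = 0
          rw [map_zero, neg_zero]
        · show Y.d (m - 1) (m - 1 - 1) y + F.f (m - 1 - 1) 0 = 0
          rw [hy, map_zero, add_zero]
      have h4 := hC (m - 1) _ h3
      rw [KConeEx_bdy] at h4
      obtain ⟨c', hc'⟩ := h4
      have h5 := he m c'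
      rw [hc', LinearEquiv.apply_symm_apply] at h5
      refine ⟨(e m c').1, ?_, ?_⟩
      · rw [KConeEx_cyc]
        exact neg_eq_zero.mp (congrArg Prod.fst h5).symm
      · rw [KConeEx_bdy]
        exact ⟨(e m c').2, eq_sub_of_add_eq (congrArg Prod.snd h5).symm⟩

end HEp
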