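import Pool.Agent.Lib.MP_181146_gt.HE.SpecG

/-!
# MP_181146_gt, HE, module KCtr: contractions of bounded exact complexes of projectives
-/

set_option autoImplicit false

namespace HEp

private def KCtrRel {R : Type} [CommRing R] (X : ZCx R) (h : ∀ i j : ℤ, X.P i →ₗ[R] X.P j)
    (i : ℤ) : Prop :=
  ∀ j k : ℤ, j = i + 1 → k + 1 = i → ∀ x : X.P i,
    X.d j i (h i j x) + h k i (X.d i k x) = x

private theorem KCtr_step {R : Type} [CommRing R] (X : ZCx R) (hX : X.Exact)
    (h : ∀ i j : ℤ, X.P i →ₗ[R] X.P j) (c : ℤ) (hc : KCtrRel X h c) :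
    ∃ g : X.P (c + 1) →ₗ[R] X.P (c + 1 + 1), ∀ x : X.P (c + 1),
      X.d (c + 1 + 1) (c + 1) (g x) + h c (c + 1) (X.d (c + 1) c x) = x := by
  let φ : X.P (c + 1) →ₗ[R] X.P (c + 1) := LinearMap.id - (h c (c + 1)) ∘ₗ (X.d (c + 1) c)
  have hφ : ∀ x, φ x = x - h c (c + 1) (X.d (c + 1) c x) := fun x => rfl
  have hcyc : ∀ x, X.Cyc (c + 1) (φ x) := by
    intro x j
    by_cases hj : j + 1 = c + 1
    · have hj2 : j = c := by omega
      subst hj2
      have h1 := hc (j + 1) (j - 1) rfl (by omega) (X.d (j + 1) j x)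
      rw [X.dd, map_zero, add_zero] at h1
      rw [hφ, map_sub, h1, sub_self]
    · rw [X.shape _ _ hj]
      rfl
  have hr : ∀ x, φ x ∈ LinearMap.range (X.d (c + 1 + 1) (c + 1)) := by
    intro x
    obtain ⟨k, y, hy⟩ := hX (c + 1) (φ x) (hcyc x)
    by_cases hk : c + 1 + 1 = k
    · subst hk
      exact ⟨y, hy⟩
    · rw [X.shape _ _ hk] at hy
      rw [← hy]
      exact Submodule.zero_mem _
  obtain ⟨g, hg⟩ := Module.projective_lifting_property
    (LinearMap.rangeRestrict (X.d (c + 1 + 1) (c + 1)))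
    (LinearMap.codRestrict (LinearMap.range (X.d (c + 1 + 1) (c + 1))) φ hr)
    (LinearMap.surjective_rangeRestrict _)
  refine ⟨g, fun x => ?_⟩
  have h2 := congrArg Subtype.val (LinearMap.congr_fun hg x)
  have h3 : X.d (c + 1 + 1) (c + 1) (g x) = φ x := h2
  rw [h3, hφ, sub_add_cancel]

private theorem KCtr_ind {R : Type} [CommRing R] (X : ZCx R) (hX : X.Exact) (n : ℕ) :
    ∃ h : ∀ i j : ℤ, X.P i →ₗ[R] X.P j, ∀ i : ℤ, i ≤ -(X.N : ℤ) - 1 + n → KCtrRel X h i := by
  induction n with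
  | zero =>
    refine ⟨fun _ _ => 0, fun i hi j k _ _ x => ?_⟩
    have hi2 : (X.N : ℤ) < |i| := by
      rw [abs_of_neg (by push_cast at hi; omega)]
      push_cast at hi
      omega
    have := X.bdd i hi2
    exact Subsingleton.elim _ _
  | succ n ih =>
    obtain ⟨h, hh⟩ := ih
    obtain ⟨g, hg⟩ := KCtr_step X hX h (-(X.N : ℤ) - 1 + n) (hh _ le_rfl)
    generalize hc : -(X.N : ℤ) - 1 + n = c at *
    refine ⟨Function.update h (c + 1) (Function.update (h (c + 1)) (c + 1 + 1) g), ?_⟩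
    intro i hi j k hj hk x
    have hi1 : i ≤ c + 1 := by
      push_cast at hi
      omega
    have e2 : k ≠ c + 1 := by omega
    rw [Function.update_of_ne e2]
    by_cases e1 : i = c + 1
    · subst e1
      subst hj
      rw [Function.update_self, Function.update_self]
      have hk2 : k = c := by omega
      subst hk2
      exact hg x
    · rw [Function.update_of_ne e1]
      exact hh i (by omega) j k hj hk x

theorem sKCtr : S_KCtr := by
  intro R _ X hX
  obtain ⟨h, hh⟩ := KCtr_ind X hX (2 * X.N + 2)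
  refine ⟨h, fun i x => ?_⟩
  by_cases hi : i ≤ X.N
  · exact hh i (by push_cast; omega) (i + 1) (i - 1) rfl (by omega) x
  · have := X.bdd i (lt_of_lt_of_le (not_le.mp hi) (le_abs_self i))
    exact Subsingleton.elim _ _

end HEp
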