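import Pool.Agent.Lib.MP_181146_gt.HE.SpecG

/-!
# Project HE: quasi-isomorphic complexes have the same Euler class
-/

set_option autoImplicit false

namespace HEp

theorem sKEC (hKCone : S_KCone) (hKConeEx : S_KConeEx) (hKEC0 : S_KEC0) : S_KEC := by
  intro R _ X Y F hF
  obtain ⟨C, e, he, hE⟩ := hKCone R X Y F
  have h1 := (hKConeEx R X Y F C e he).1 hF
  rw [hKEC0 R C h1] at hE
  exact (sub_eq_zero.1 hE.symm).symm

end HEp
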