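import Pool.Agent.Lib.MP_181146_gt.HE.SpecG

/-!
# Project HE, task KEC0: the Euler class of an exact complex is zero
-/

set_option autoImplicit false

namespace HEp

open HSp (Res)

section

variable {R : Type} [CommRing R]

/-- The module of cycles in degree `i`. -/
private def Zc (X : ZCx R) (i : ℤ) : Submodule R (X.P i) := ⨅ j : ℤ, LinearMap.ker (X.d i j)

private lemma mem_Zc {X : ZCx R} {i : ℤ} {x : X.P i} : x ∈ Zc X i ↔ ∀ j, X.d i j x = 0 := by
  simp [Zc, Submodule.mem_iInf]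

private lemma mem_Zc_succ {X : ZCx R} {i : ℤ} {x : X.P (i + 1)} :
    x ∈ Zc X (i + 1) ↔ X.d (i + 1) i x = 0 := by
  rw [mem_Zc]
  refine ⟨fun h => h i, fun h j => ?_⟩
  by_cases hj : j + 1 = i + 1
  · obtain rfl : j = i := by omega
    exact h
  · rw [X.shape (i + 1) j hj]
    rfl

/-- The sum of `g i - g (i - 1)` telescopes. -/
private lemma tele {A : Type*} [AddCommGroup A] (g : ℤ → A) (a : ℤ) (n : ℕ) :
    ∑ i ∈ Finset.Icc a (a + n), (g i - g (i - 1)) = g (a + n) - g (a - 1) := by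
  induction n with
  | zero => simp
  | succ n ih =>
    have h1 : Finset.Icc a (a + ((n + 1 : ℕ) : ℤ)) =
        insert (a + (n : ℤ) + 1) (Finset.Icc a (a + (n : ℤ))) := by
      ext i
      simp only [Finset.mem_Icc, Finset.mem_insert]
      push_cast
      omega
    have h2 : a + (n : ℤ) + 1 ∉ Finset.Icc a (a + (n : ℤ)) := by
      simp only [Finset.mem_Icc]
      omega
    rw [h1, Finset.sum_insert h2, ih]
    have h3 : a + ((n + 1 : ℕ) : ℤ) = a + (n : ℤ) + 1 := by
      push_cast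
      omega
    rw [h3, add_sub_cancel_right]
    abel

private lemma Zc_split {X : ZCx R} {h : ∀ i j : ℤ, X.P i →ₗ[R] X.P j}
    (hh : ∀ (i : ℤ) (x : X.P i),
      X.d (i + 1) i (h i (i + 1) x) + h (i - 1) i (X.d i (i - 1) x) = x) (i : ℤ)
    {x : X.P i} (hx : x ∈ Zc X i) : X.d (i + 1) i (h i (i + 1) x) = x := by
  have h1 := hh i x
  rw [mem_Zc.1 hx (i - 1), map_zero, add_zero] at h1
  exact h1

private lemma Zc_retract {X : ZCx R} {h : ∀ i j : ℤ, X.P i →ₗ[R] X.P j}
    (hh : ∀ (i : ℤ) (x : X.P i),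
      X.d (i + 1) i (h i (i + 1) x) + h (i - 1) i (X.d i (i - 1) x) = x) (i : ℤ) :
    ∃ q : X.P i →ₗ[R] Zc X i, ∀ x : Zc X i, q x = x := by
  refine ⟨LinearMap.codRestrict (Zc X i) (X.d (i + 1) i ∘ₗ h i (i + 1)) (fun x => ?_),
    fun x => ?_⟩
  · rw [mem_Zc]
    intro j
    exact X.dd _ _ _ _
  · apply Subtype.ext
    exact Zc_split hh i x.2

end

theorem sKEC0 (hKCtr : S_KCtr) (hKEx : S_KEx) : S_KEC0 := by
  intro R _ X hX
  obtain ⟨h, hh⟩ := hKCtr R X hX
  have hfin : ∀ i, Module.Finite R (Zc X i) := by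
    intro i
    obtain ⟨q, hq⟩ := Zc_retract hh i
    exact Module.Finite.of_surjective q (fun x => ⟨x, hq x⟩)
  have hproj : ∀ i, Module.Projective R (Zc X i) := by
    intro i
    obtain ⟨q, hq⟩ := Zc_retract hh i
    exact Module.Projective.of_split (Zc X i).subtype q (LinearMap.ext fun x => hq x)
  have hstep : ∀ i, cl R (X.P (i + 1)) = cl R (Zc X (i + 1)) + cl R (Zc X i) := by
    intro i
    refine hKEx R (Zc X i) (X.P (i + 1)) (Zc X (i + 1))
      ⟨(Zc X (i + 1)).subtype,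
        LinearMap.codRestrict (Zc X i) (X.d (i + 1) i) (fun x => mem_Zc.2 fun j => X.dd _ _ _ _),
        Subtype.val_injective, fun z => ⟨h i (i + 1) z, ?_⟩, fun x => ?_⟩
    · apply Subtype.ext
      exact Zc_split hh i z.2
    · rw [← Submodule.coe_eq_zero, LinearMap.codRestrict_apply]
      constructor
      · intro hx
        exact ⟨⟨x, mem_Zc_succ.2 hx⟩, rfl⟩
      · rintro ⟨y, rfl⟩
        exact mem_Zc_succ.1 y.2
  have hstep' : ∀ i, cl R (X.P i) = cl R (Zc X i) + cl R (Zc X (i - 1)) := by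
    intro i
    obtain ⟨k, rfl⟩ : ∃ k, i = k + 1 := ⟨i - 1, by omega⟩
    have h1 := hstep k
    have h2 : ∀ j, j = k → cl R (Zc X j) = cl R (Zc X k) := by
      rintro j rfl
      rfl
    rw [h1, h2 (k + 1 - 1) (by omega)]
  let g : ℤ → KT R := fun i => (i.negOnePow : ℤ) • cl R (Zc X i)
  have hg : ∀ i, (i.negOnePow : ℤ) • cl R (X.P i) = g i - g (i - 1) := by
    intro i
    simp only [g]
    rw [hstep' i, smul_add, Int.negOnePow_sub, Int.negOnePow_one]
    simp
  have hN1 : cl R (Zc X (X.N : ℤ)) = 0 := by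
    have hs : Subsingleton (X.P ((X.N : ℤ) + 1)) := X.bdd _ (by
      rw [abs_of_nonneg (by positivity)]
      omega)
    have : Subsingleton (Zc X (X.N : ℤ)) := by
      refine ⟨fun a b => ?_⟩
      apply Subtype.ext
      rw [← Zc_split hh _ a.2, ← Zc_split hh _ b.2]
      exact congrArg _ (Subsingleton.elim _ _)
    exact cl_subsingleton _
  have hN2 : cl R (Zc X (-(X.N : ℤ) - 1)) = 0 := by
    have hs : Subsingleton (X.P (-(X.N : ℤ) - 1)) := X.bdd _ (by
      rw [abs_of_nonpos (by omega)]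
      omega)
    exact cl_subsingleton _
  unfold ZCx.EC
  rw [Finset.sum_congr rfl fun i _ => hg i]
  have h2 := tele g (-(X.N : ℤ)) (2 * X.N)
  have h3 : -(X.N : ℤ) + ((2 * X.N : ℕ) : ℤ) = X.N := by
    push_cast
    omega
  rw [h3] at h2
  rw [h2]
  simp only [g]
  rw [hN1, hN2, smul_zero, smul_zero, sub_zero]

end HEp
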