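import Pool.Agent.Lib.MP_181146_gt.HE.SpecG

/-!
# Project HE: the class of the middle term of a short exact sequence
-/

set_option autoImplicit false

namespace HEp

theorem sKEx : S_KEx := by
  intro R _ M A B _ _ _ _ _ _ _ _ _ _ _ _ h
  obtain ⟨i, p, hi, hp, hex⟩ := h
  obtain ⟨g, hg⟩ := Module.projective_lifting_property p LinearMap.id hp
  have hpg : ∀ m, p (g m) = m := fun m => LinearMap.congr_fun hg m
  have hpi : ∀ b, p (i b) = 0 := fun b => (hex (i b)).2 ⟨b, rfl⟩
  obtain ⟨F, hF⟩ : ∃ F : (B × M) →ₗ[R] A, F = LinearMap.coprod i g := ⟨_, rfl⟩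
  have hFx : ∀ b m, F (b, m) = i b + g m := by
    intro b m
    rw [hF, LinearMap.coprod_apply]
  have hbij : Function.Bijective F := by
    constructor
    · rw [← LinearMap.ker_eq_bot, LinearMap.ker_eq_bot']
      rintro ⟨b, m⟩ h0
      rw [hFx] at h0
      have h1 : m = 0 := by
        have h2 := congrArg p h0
        rw [map_add, hpi, hpg, zero_add, map_zero] at h2
        exact h2
      subst h1
      rw [map_zero, add_zero] at h0
      have h2 : b = 0 := hi (by rw [h0, map_zero])
      rw [h2]
      rfl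
    · intro a
      obtain ⟨b, hb⟩ := (hex (a - g (p a))).1 (by rw [map_sub, hpg, sub_self])
      exact ⟨(b, p a), by rw [hFx, hb, sub_add_cancel]⟩
  rw [← cl_prod]
  exact (cl_congr (LinearEquiv.ofBijective F hbij)).symm

end HEp
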