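import Pool.Agent.Lib.MP_181146_gt.HE.SpecG

set_option autoImplicit false

namespace HEp

open HSp (Res)

private lemma KSch_lift {R : Type} [CommRing R] {M A B X : Type} [AddCommGroup M] [Module R M]
    [AddCommGroup A] [Module R A] [AddCommGroup B] [Module R B] [AddCommGroup X] [Module R X]
    (i : B →ₗ[R] A) (p : A →ₗ[R] M) (hi : Function.Injective i)
    (hx : ∀ x, p x = 0 ↔ ∃ y, i y = x) (h : X →ₗ[R] A) (hh : ∀ x, p (h x) = 0) :
    ∃ l : X →ₗ[R] B, ∀ x, i (l x) = h x := by
  let e : B ≃ₗ[R] LinearMap.range i := LinearEquiv.ofInjective i hi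
  let h' : X →ₗ[R] LinearMap.range i :=
    LinearMap.codRestrict (LinearMap.range i) h fun x => (hx (h x)).mp (hh x)
  refine ⟨e.symm.toLinearMap ∘ₗ h', fun x => ?_⟩
  have h1 : (e (e.symm (h' x)) : A) = h' x := by rw [e.apply_symm_apply]
  exact h1

theorem sKSch : S_KSch := by
  intro R _ M A B A' B' _ _ _ _ _ _ _ _ _ _ _ _ _ _ _ _ _ _ h h'
  obtain ⟨i, p, hi, hp, hx⟩ := h
  obtain ⟨i', p', hi', hp', hx'⟩ := h'
  obtain ⟨f, hf⟩ := Module.projective_lifting_property p' p hp'
  obtain ⟨g, hg⟩ := Module.projective_lifting_property p p' hp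
  have hf1 : ∀ x, p' (f x) = p x := fun x => LinearMap.congr_fun hf x
  have hg1 : ∀ x, p (g x) = p' x := fun x => LinearMap.congr_fun hg x
  have hpi : ∀ y, p (i y) = 0 := fun y => (hx _).mpr ⟨y, rfl⟩
  have hpi' : ∀ y, p' (i' y) = 0 := fun y => (hx' _).mpr ⟨y, rfl⟩
  obtain ⟨l, hl⟩ := KSch_lift i p hi hx
    (LinearMap.fst R A B' - g ∘ₗ (LinearMap.coprod f i')) (by
      rintro ⟨a, b⟩
      simp [hf1, hg1, hpi'])
  obtain ⟨l', hl'⟩ := KSch_lift i' p' hi' hx'
    (LinearMap.fst R A' B - f ∘ₗ (LinearMap.coprod g i)) (by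
      rintro ⟨a, b⟩
      simp [hf1, hg1, hpi])
  have hl1 : ∀ a b, i (l (a, b)) = a - g (f a + i' b) := fun a b => by
    rw [hl]
    simp
  have hl1' : ∀ a b, i' (l' (a, b)) = a - f (g a + i b) := fun a b => by
    rw [hl']
    simp
  let e : (A × B') ≃ₗ[R] (A' × B) := LinearEquiv.ofLinearMap
    (LinearMap.prod (LinearMap.coprod f i') l) (LinearMap.prod (LinearMap.coprod g i) l')
    (by
      apply LinearMap.ext
      rintro ⟨a, b⟩
      simp only [LinearMap.comp_apply, LinearMap.prod_apply, Function.prod_apply, LinearMap.coprod_apply, LinearMap.id_apply]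
      have e1 : f (g a + i b) + i' (l' (a, b)) = a := by rw [hl1']; abel
      refine Prod.ext e1 (hi ?_)
      show i (l (g a + i b, l' (a, b))) = i b
      rw [hl1, e1]
      abel)
    (by
      apply LinearMap.ext
      rintro ⟨a, b⟩
      simp only [LinearMap.comp_apply, LinearMap.prod_apply, Function.prod_apply, LinearMap.coprod_apply, LinearMap.id_apply]
      have e1 : g (f a + i' b) + i (l (a, b)) = a := by rw [hl1]; abel
      refine Prod.ext e1 (hi' ?_)
      show i' (l' (f a + i' b, l (a, b))) = i' b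
      rw [hl1', e1]
      abel)
  rw [← cl_prod, ← cl_prod]
  exact cl_congr e

end HEp
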