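import Pool.Agent.Lib.MP_181146_gt.HE.SpecG

/-!
# Project HE: the lattice relation for `𝔽_p²` (`S_Lat`)
-/

set_option autoImplicit false

namespace HEp

open scoped TensorProduct

namespace LatAux

variable {p : ℕ}

private lemma lin_none (q : ZMod p × ZMod p) : lin p none q = q.2 := rfl

private lemma lin_some (s : ZMod p) (q : ZMod p × ZMod p) :
    lin p (some s) q = q.1 - s * q.2 := rfl

variable [Fact p.Prime]

/-- Two different points agree for exactly one functional. -/
private lemma cnt (q' q : ZMod p × ZMod p) :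
    (∑ l : Option (ZMod p), if lin p l q' = lin p l q then (1 : ℤ) else 0) =
      1 + (if q' = q then (p : ℤ) else 0) := by
  classical
  rw [Fintype.sum_option]
  obtain ⟨a', b'⟩ := q'
  obtain ⟨a, b⟩ := q
  simp only [lin_none, lin_some, Prod.mk.injEq]
  by_cases hb : b' = b
  · subst hb
    by_cases ha : a' = a
    · subst ha
      simp [ZMod.card]
    · simp [ha]
  · have hb' : b' - b ≠ 0 := sub_ne_zero.mpr hb
    have hiff : ∀ s : ZMod p, (a' - s * b' = a - s * b) ↔ s = (a' - a) / (b' - b) := by
      intro s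
      rw [eq_div_iff hb']
      constructor
      · intro h
        linear_combination -h
      · intro h
        linear_combination -h
    simp [hiff, hb]

/-- Two different functionals are coordinates. -/
private lemma bij (m l : Option (ZMod p)) (h : m ≠ l) :
    Function.Bijective (fun q : ZMod p × ZMod p => (lin p m q, lin p l q)) := by
  rw [← Finite.injective_iff_bijective]
  rintro ⟨a, b⟩ ⟨a', b'⟩ hq
  rcases m with _ | s <;> rcases l with _ | t
  · exact absurd rfl h
  · simp only [lin_none, lin_some, Prod.mk.injEq] at hq ⊢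
    obtain ⟨h1, h2⟩ := hq
    subst h1
    exact ⟨by linear_combination h2, rfl⟩
  · simp only [lin_none, lin_some, Prod.mk.injEq] at hq ⊢
    obtain ⟨h2, h1⟩ := hq
    subst h1
    exact ⟨by linear_combination h2, rfl⟩
  · simp only [lin_some, Prod.mk.injEq] at hq ⊢
    obtain ⟨h1, h2⟩ := hq
    have hst : s - t ≠ 0 := sub_ne_zero.mpr (fun e => h (by rw [e]))
    have h3 : (s - t) * (b - b') = 0 := by linear_combination h2 - h1
    have h4 : b - b' = 0 := (mul_eq_zero.mp h3).resolve_left hst
    have h5 : b = b' := sub_eq_zero.mp h4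
    subst h5
    exact ⟨by linear_combination h1, rfl⟩

private lemma sum_other (m l : Option (ZMod p)) (h : m ≠ l) (x : ZMod p) (f : ZMod p → ℤ) :
    (∑ q : ZMod p × ZMod p, if lin p m q = x then f (lin p l q) else 0) = ∑ y, f y := by
  classical
  have e := (bij m l h).sum_comp (fun r : ZMod p × ZMod p => if r.1 = x then f r.2 else 0)
  rw [e, Fintype.sum_prod_type]
  rw [Finset.sum_comm]
  refine Finset.sum_congr rfl fun y _ => ?_
  simp

private lemma fib (m : Option (ZMod p)) (x : ZMod p) :
    (∑ q : ZMod p × ZMod p, if lin p m q = x then (1 : ℤ) else 0) = p := by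
  obtain ⟨l, hl⟩ : ∃ l : Option (ZMod p), m ≠ l := by
    rcases m with _ | s
    · exact ⟨some 0, by simp⟩
    · exact ⟨none, by simp⟩
  have := sum_other m l hl x (fun _ => 1)
  rw [this]
  simp [ZMod.card]

/-- Push forward of a function along a functional. -/
private def pr (l : Option (ZMod p)) (z : ZMod p × ZMod p → ℤ) (x : ZMod p) : ℤ :=
  ∑ q : ZMod p × ZMod p, if lin p l q = x then z q else 0

private lemma pr_add (l : Option (ZMod p)) (z z' : ZMod p × ZMod p → ℤ) (x : ZMod p) :
    pr l (fun q => z q + z' q) x = pr l z x + pr l z' x := by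
  unfold pr
  rw [← Finset.sum_add_distrib]
  refine Finset.sum_congr rfl fun q _ => ?_
  split_ifs <;> simp

private lemma pr_mul (l : Option (ZMod p)) (z : ZMod p × ZMod p → ℤ) (c d : ℤ) (x : ZMod p) :
    pr l (fun q => c * z q - d) x = c * pr l z x - p * d := by
  unfold pr
  rw [← fib l x, Finset.mul_sum, Finset.sum_mul, ← Finset.sum_sub_distrib]
  refine Finset.sum_congr rfl fun q _ => ?_
  split_ifs <;> ring

private lemma pr_shift (l : Option (ZMod p)) (z : ZMod p × ZMod p → ℤ) (t : ZMod p × ZMod p)
    (x : ZMod p) : pr l (fun q => z (q - t)) x = pr l z (x - lin p l t) := by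
  unfold pr
  rw [← Equiv.sum_comp (Equiv.addRight t)]
  refine Finset.sum_congr rfl fun q _ => ?_
  simp only [Equiv.coe_addRight, add_sub_cancel_right, map_add]
  have : (lin p l q + lin p l t = x) ↔ lin p l q = x - lin p l t := eq_sub_iff_add_eq.symm
  simp only [this]

private lemma sum_pr (l : Option (ZMod p)) (z : ZMod p × ZMod p → ℤ) :
    ∑ x, pr l z x = ∑ q, z q := by
  classical
  unfold pr
  rw [Finset.sum_comm]
  refine Finset.sum_congr rfl fun q _ => ?_
  simp

private lemma sum_pr_lin (z : ZMod p × ZMod p → ℤ) (q : ZMod p × ZMod p) :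
    ∑ l, pr l z (lin p l q) = ∑ q', z q' + p * z q := by
  classical
  unfold pr
  rw [Finset.sum_comm]
  have h : ∀ q' : ZMod p × ZMod p, (∑ l : Option (ZMod p),
      if lin p l q' = lin p l q then z q' else 0) = z q' + (if q' = q then (p : ℤ) * z q' else 0) := by
    intro q'
    have h1 := congrArg (fun c => c * z q') (cnt q' q)
    simp only [Finset.sum_mul, add_mul, one_mul, ite_mul, zero_mul] at h1
    exact h1
  simp only [h]
  rw [Finset.sum_add_distrib]
  simp

private lemma pr_back (y : Option (ZMod p) → ZMod p → ℤ) (m : Option (ZMod p)) (x : ZMod p) :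
    pr m (fun q => ∑ l, y l (lin p l q)) x =
      p * y m x + (∑ l, ∑ x', y l x' - ∑ x', y m x') := by
  classical
  have h1 : pr m (fun q => ∑ l, y l (lin p l q)) x =
      ∑ l, ∑ q : ZMod p × ZMod p, if lin p m q = x then y l (lin p l q) else 0 := by
    unfold pr
    rw [Finset.sum_comm]
    refine Finset.sum_congr rfl fun q _ => ?_
    split_ifs <;> simp
  have h2 : ∀ l, (∑ q : ZMod p × ZMod p, if lin p m q = x then y l (lin p l q) else 0) =
      ∑ x', y l x' + (if l = m then p * y m x - ∑ x', y m x' else 0) := by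
    intro l
    by_cases hl : l = m
    · subst hl
      simp only [if_true]
      have h3 : (∑ q : ZMod p × ZMod p, if lin p l q = x then y l (lin p l q) else 0) =
          p * y l x := by
        rw [← fib l x, Finset.sum_mul]
        refine Finset.sum_congr rfl fun q _ => ?_
        split_ifs with h
        · rw [h]; ring
        · ring
      rw [h3]; ring
    · rw [sum_other m l (Ne.symm hl) x, if_neg hl, add_zero]
  rw [h1]
  simp only [h2]
  rw [Finset.sum_add_distrib]
  simp
  ring

/-- The constants. -/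
private def cs (c : ZMod p → ℤ) : Option (ZMod p) → ℤ
  | none => 0
  | some s => c s

/-- The map on the underlying groups. -/
private def L0 (z : ZMod p × ZMod p → ℤ) (c : ZMod p → ℤ) (l : Option (ZMod p)) (x : ZMod p) : ℤ :=
  pr l z x + cs c l

private lemma L0_add (z z' : ZMod p × ZMod p → ℤ) (c c' : ZMod p → ℤ) (l : Option (ZMod p))
    (x : ZMod p) : L0 (fun q => z q + z' q) (fun s => c s + c' s) l x = L0 z c l x + L0 z' c' l x := by
  unfold L0
  rw [pr_add]
  rcases l with _ | s
  · change _ + _ + (0 : ℤ) = _ + (0 : ℤ) + (_ + (0 : ℤ))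
    ring
  · change _ + _ + (c s + c' s) = _ + c s + (_ + c' s)
    ring

private lemma L0_zero (l : Option (ZMod p)) (x : ZMod p) :
    L0 (fun _ => 0) (fun _ => 0) l x = 0 := by
  unfold L0 pr
  rcases l with _ | s <;> simp [cs]

private lemma L0_shift (z : ZMod p × ZMod p → ℤ) (c : ZMod p → ℤ) (l : Option (ZMod p))
    (t : ZMod p × ZMod p) (x : ZMod p) :
    L0 (fun q => z (q - t)) c l x = L0 z c l (x - lin p l t) := by
  unfold L0
  rw [pr_shift]

private lemma L0_inj (z : ZMod p × ZMod p → ℤ) (c : ZMod p → ℤ) (h : ∀ l x, L0 z c l x = 0) :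
    (∀ q, z q = 0) ∧ ∀ s, c s = 0 := by
  have hp0 : (p : ℤ) ≠ 0 := by exact_mod_cast (Fact.out : p.Prime).ne_zero
  have hz : ∑ q, z q = 0 := by
    rw [← sum_pr none z]
    refine Finset.sum_eq_zero fun x _ => ?_
    have : pr none z x + 0 = 0 := h none x
    linarith
  have hc : ∀ s, c s = 0 := by
    intro s
    have h1 : ∑ x, (pr (some s) z x + c s) = 0 := Finset.sum_eq_zero fun x _ => h (some s) x
    rw [Finset.sum_add_distrib, sum_pr, hz] at h1
    simp only [Finset.sum_const, Finset.card_univ, ZMod.card, nsmul_eq_mul, zero_add] at h1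
    exact (mul_eq_zero.mp h1).resolve_left hp0
  refine ⟨fun q => ?_, hc⟩
  have h2 : ∀ l x, pr l z x = 0 := by
    intro l x
    have := h l x
    unfold L0 at this
    rcases l with _ | s
    · change pr none z x + 0 = 0 at this
      linarith
    · change pr (some s) z x + c s = 0 at this
      rw [hc s] at this
      linarith
  have h3 := sum_pr_lin z q
  rw [hz] at h3
  simp only [h2, Finset.sum_const_zero, zero_add] at h3
  exact (mul_eq_zero.mp h3.symm).resolve_left hp0

private lemma L0_surj (y : Option (ZMod p) → ZMod p → ℤ) :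
    ∃ (z : ZMod p × ZMod p → ℤ) (c : ZMod p → ℤ), ∀ l x, L0 z c l x = (p : ℤ) ^ 2 * y l x := by
  refine ⟨fun q => p * (∑ l, y l (lin p l q)) - (∑ l, ∑ x', y l x' - ∑ x', y none x'),
    fun s => p * (∑ x', y (some s) x' - ∑ x', y none x'), fun l x => ?_⟩
  unfold L0
  rw [pr_mul, pr_back]
  rcases l with _ | s
  · change _ + (0 : ℤ) = _
    ring
  · change _ + (p : ℤ) * (∑ x', y (some s) x' - ∑ x', y none x') = _
    ring

/-- Additive maps which commute with group elements are linear. -/
private lemma smul_of {G : Type} [CommGroup G] {M N : Type} [AddCommGroup M] [Module (ZG G) M]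
    [AddCommGroup N] [Module (ZG G) N] (f : M →+ N)
    (hf : ∀ (g : G) (x : M), f (MonoidAlgebra.of ℤ G g • x) = MonoidAlgebra.of ℤ G g • f x)
    (a : ZG G) (x : M) : f (a • x) = a • f x := by
  induction a using MonoidAlgebra.induction_on with
  | of g => exact hf g x
  | add a b ha hb => rw [add_smul, add_smul, map_add, ha, hb]
  | smul r a ha =>
    rw [smul_assoc, smul_assoc, map_zsmul, ha]

end LatAux

open LatAux

theorem sLat : S_Lat := by
  classical
  intro G _ p hp π
  have : Fact p.Prime := ⟨hp⟩
  let Λ0 : (TF π (Tv G ℤ) × (ZMod p → Tv G ℤ)) →+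
      (∀ l : Option (ZMod p), TF (linG π l) (Tv G ℤ)) :=
    { toFun := fun w l x => L0 (p := p) w.1 w.2 l x
      map_zero' := by
        funext l x
        exact L0_zero l x
      map_add' := fun w w' => by
        funext l x
        exact L0_add (p := p) w.1 w'.1 w.2 w'.2 l x }
  have hΛ : ∀ w l x, Λ0 w l x = L0 (p := p) w.1 w.2 l x := fun _ _ _ => rfl
  have hof : ∀ (g : G) (w : TF π (Tv G ℤ) × (ZMod p → Tv G ℤ)),
      Λ0 (MonoidAlgebra.of ℤ G g • w) = MonoidAlgebra.of ℤ G g • Λ0 w := by
    intro g w
    funext l x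
    have h1 : (MonoidAlgebra.of ℤ G g • Λ0 w) l x = Λ0 w l (x - (linG π l g).toAdd) := by
      rw [Pi.smul_apply, TF_of_smul, Tv_of_smul]
    have h2 : (MonoidAlgebra.of ℤ G g • w).1 = fun q => w.1 (q - (π g).toAdd) := by
      funext q
      rw [Prod.smul_fst, TF_of_smul, Tv_of_smul]
    have h3 : (MonoidAlgebra.of ℤ G g • w).2 = w.2 := by
      funext q
      rw [Prod.smul_snd, Pi.smul_apply, Tv_of_smul]
    rw [h1, hΛ, hΛ, h2, h3]
    exact L0_shift (p := p) w.1 w.2 l (π g).toAdd x
  refine ⟨{ toFun := Λ0, map_add' := Λ0.map_add, map_smul' := smul_of Λ0 hof }, ?_, ?_⟩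
  · rw [injective_iff_map_eq_zero]
    intro w hw
    have h0 : ∀ l x, L0 (p := p) w.1 w.2 l x = 0 := by
      intro l x
      have := congrFun (congrFun hw l) x
      exact this
    obtain ⟨hz, hc⟩ := L0_inj _ _ h0
    exact Prod.ext (funext hz) (funext hc)
  · intro y
    obtain ⟨z, c, h⟩ := L0_surj (p := p) (fun l x => y l x)
    refine ⟨(z, c), ?_⟩
    funext l x
    exact h l x

end HEp
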