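import Pool.Agent.Lib.MP_181146_gt.HE.SpecS

/-!
# Project HE: a covering space of a locally path-connected space is locally path-connected
-/

set_option autoImplicit false

namespace HEp

open Set Filter Topology

private theorem lpc_of_isLocalHomeomorph {X E : Type} [TopologicalSpace X] [TopologicalSpace E]
    [LocallyPathConnectedSpace X] {p : E → X} (hp : IsLocalHomeomorph p) :
    LocallyPathConnectedSpace E := by
  refine ⟨fun x => ⟨fun s => ⟨fun hs => ?_, fun ⟨u, hu⟩ => Filter.mem_of_superset hu.1.1 hu.2⟩⟩⟩
  obtain ⟨e, hx, -⟩ := hp x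
  have ht : s ∩ e.source ∈ 𝓝 x := Filter.inter_mem hs (e.open_source.mem_nhds hx)
  have hex : e x ∈ e.symm.source := e.map_source hx
  refine ⟨e.symm '' pathComponentIn (e '' (s ∩ e.source)) (e x), ⟨?_, ?_⟩,
    (?_ : _ ⊆ s ∩ e.source).trans inter_subset_left⟩
  · have h1 : e.symm '' pathComponentIn (e '' (s ∩ e.source)) (e x) ∈ 𝓝 (e.symm (e x)) :=
      e.symm.image_mem_nhds hex (pathComponentIn_mem_nhds (e.image_mem_nhds hx ht))
    rwa [e.left_inv hx] at h1
  · refine (isPathConnected_pathComponentIn (mem_image_of_mem e (mem_of_mem_nhds ht))).image' ?_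
    refine e.continuousOn_symm.mono ?_
    refine pathComponentIn_subset.trans ?_
    rintro _ ⟨y, hy, rfl⟩
    exact e.map_source hy.2
  · exact (image_mono pathComponentIn_subset).trans
      (PartialEquiv.symm_image_image_of_subset_source _ inter_subset_right).subset

theorem sLpc : S_Lpc := by
  intro X E _ _ _ p hp
  exact lpc_of_isLocalHomeomorph hp.isLocalHomeomorph

end HEp
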