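import Pool.Agent.Lib.MP_181146_gt.HE.SpecS

/-!
# Project HE: the multiplication on `X` (`S_MXE`)
-/

set_option autoImplicit false

namespace HEp

open scoped TensorProduct

private theorem mxe_od {K : SS} (n : ℕ) (a : Ch ℤ K) (ha : a ∈ gr ℤ K n) :
    od ℤ K a = if Odd n then a else 0 := by
  have h : ∀ x ∈ a.support, x.1 = n := fun x hx =>
    (Finsupp.mem_supported ℤ a).mp ha (Finset.mem_coe.mpr hx)
  rw [od, Finsupp.linearCombination_apply, Finsupp.sum]
  split_ifs with hn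
  · conv_rhs => rw [← Finsupp.sum_single a]
    rw [Finsupp.sum]
    refine Finset.sum_congr rfl fun x hx => ?_
    rw [if_pos (by rw [h x hx]; exact hn), Finsupp.smul_single, smul_eq_mul, mul_one]
  · refine Finset.sum_eq_zero fun x hx => ?_
    rw [if_neg (by rw [h x hx]; exact hn), smul_zero]

private theorem mxe_sg {K : SS} (n : ℕ) (a : Ch ℤ K) (ha : a ∈ gr ℤ K n) :
    (chDG ℤ K).sg a = (((n : ℤ).negOnePow : ℤˣ) : ℤ) • a := by
  have h1 : (chDG ℤ K).sg a = a - (2 : ℤ) • od ℤ K a := rfl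
  rw [h1, mxe_od n a ha]
  by_cases hn : Odd n
  · rw [if_pos hn, Int.negOnePow_odd _ (by exact_mod_cast hn)]
    simp only [Units.val_neg, Units.val_one]
    module
  · have hn' : Even n := Nat.not_odd_iff_even.mp hn
    rw [if_neg hn, Int.negOnePow_even _ (by exact_mod_cast hn')]
    simp

private theorem mxe_comm {E : Type} [TopologicalSpace E] (g : C(E, E)) (m : C(E × E, E))
    (hm : ∀ x y : E, m (g x, y) = m (x, g y)) :
    (SingMul m).comp ((SingMap g).prod (SSHom.id (Sing E))) =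
      (SingMul m).comp ((SSHom.id (Sing E)).prod (SingMap g)) := by
  unfold SSHom.comp
  congr 1
  funext n x
  apply ContinuousMap.ext
  intro z
  exact hm _ _

private theorem mxe_nat (hNabN : S_NabN) (e : ∀ p q : ℕ, Ch ℤ ((De p).prod (De q))) {K : SS}
    (m : SSHom (K.prod K) K) (φ ψ : SSHom K K) (a b : Ch ℤ K) :
    mu ℤ e m (cmap ℤ φ a ⊗ₜ cmap ℤ ψ b) = cmap ℤ (m.comp (φ.prod ψ)) (nab ℤ e K K (a ⊗ₜ b)) := by
  have h1 := hNabN e ℤ K K K K φ ψ (a ⊗ₜ b)
  rw [TensorProduct.map_tmul] at h1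
  rw [cmap_comp, ← h1]
  rfl

theorem sMXE (hHopf : S_Hopf) (hNabG : S_NabG) (hNabN : S_NabN) : S_MXE := by
  intro G _ X E _ act t hneg e he m hm
  have hcm := (hHopf e he ℤ (Sing E) (SingMul m)).1
  refine ⟨{ M := fun i j n => AddMonoidHom.mk' (fun x => AddMonoidHom.mk' (fun y =>
              t.f' n (mu ℤ e (SingMul m) (t.f i x ⊗ₜ t.f j y))) ?_) ?_
            leib := ?_
            mg := ?_ }, fun _ _ _ _ _ => rfl⟩
  · intro y y'
    rw [map_add, TensorProduct.tmul_add, map_add, map_add]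
  · intro x x'
    apply AddMonoidHom.ext
    intro y
    change t.f' n (mu ℤ e (SingMul m) (t.f i (x + x') ⊗ₜ t.f j y)) =
      t.f' n (mu ℤ e (SingMul m) (t.f i x ⊗ₜ t.f j y)) +
        t.f' n (mu ℤ e (SingMul m) (t.f i x' ⊗ₜ t.f j y))
    rw [map_add, TensorProduct.add_tmul, map_add, map_add]
  · intro i j n x y
    change X.d n (n - 1) (t.f' n (mu ℤ e (SingMul m) (t.f i x ⊗ₜ t.f j y))) =
      t.f' (n - 1) (mu ℤ e (SingMul m) (t.f (i - 1) (X.d i (i - 1) x) ⊗ₜ t.f j y)) +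
        (i.negOnePow : ℤ) • t.f' (n - 1)
          (mu ℤ e (SingMul m) (t.f i x ⊗ₜ t.f (j - 1) (X.d j (j - 1) y)))
    have h1 := hcm.d (t.f i x ⊗ₜ t.f j y)
    rw [DG.tens_d] at h1
    have hsg : (chDG ℤ (Sing E)).sg (t.f i x) = (i.negOnePow : ℤ) • t.f i x := by
      rcases lt_or_ge i 0 with hi | hi
      · haveI := hneg i hi
        have hx : x = 0 := Subsingleton.elim _ _
        rw [hx, map_zero, map_zero, smul_zero]
      · obtain ⟨k, rfl⟩ := Int.eq_ofNat_of_zero_le hi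
        exact mxe_sg k _ (t.f_gr k x)
    rw [hsg] at h1
    rw [← t.f'd, t.fd, t.fd]
    have h2 : bd ℤ (Sing E) (mu ℤ e (SingMul m) (t.f i x ⊗ₜ t.f j y)) =
        mu ℤ e (SingMul m) (bd ℤ (Sing E) (t.f i x) ⊗ₜ t.f j y +
          ((i.negOnePow : ℤ) • t.f i x) ⊗ₜ bd ℤ (Sing E) (t.f j y)) := h1.symm
    rw [h2, map_add, map_add, ← TensorProduct.smul_tmul', map_smul, map_zsmul]
  · intro g i j n x y
    change t.f' n (mu ℤ e (SingMul m) (t.f i (MonoidAlgebra.of ℤ G g • x) ⊗ₜ t.f j y)) =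
      t.f' n (mu ℤ e (SingMul m) (t.f i x ⊗ₜ t.f j (MonoidAlgebra.of ℤ G g • y)))
    rw [t.fg, t.fg]
    congr 1
    have h1 := mxe_nat hNabN e (SingMul m) (SingMap (act g)) (SSHom.id (Sing E)) (t.f i x) (t.f j y)
    have h2 := mxe_nat hNabN e (SingMul m) (SSHom.id (Sing E)) (SingMap (act g)) (t.f i x) (t.f j y)
    rw [cmap_id] at h1 h2
    rw [h1, h2, mxe_comm (act g) m (hm g)]

end HEp
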