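import Pool.Agent.Lib.MP_181146_gt.HE.SpecS

/-!
# Project HE, the statement `S_Mid`: the exchange of the middle factors

`mid` is a chain map which preserves the parity, natural for parity preserving maps.  Everything is
checked on pure tensors, where both sides are linear combinations of pure tensors.
-/

set_option autoImplicit false

namespace HEp

open scoped TensorProduct

private lemma mid_tmul {k : Type} [CommRing k] (A B C D : DG k) (a : A.V) (b : B.V) (c : C.V)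
    (d : D.V) : mid A B C D ((a ⊗ₜ b) ⊗ₜ (c ⊗ₜ d)) =
      (a ⊗ₜ[k] c) ⊗ₜ[k] (b ⊗ₜ[k] d) - (2 : k) • ((a ⊗ₜ[k] C.P c) ⊗ₜ[k] (B.P b ⊗ₜ[k] d)) := by
  rw [mid, LinearMap.comp_apply, LinearMap.sub_apply, LinearMap.smul_apply, LinearMap.id_apply,
    TensorProduct.map_tmul, TensorProduct.map_tmul, TensorProduct.map_tmul, map_sub, map_smul,
    LinearMap.id_apply, LinearMap.id_apply]
  rfl

/-- The differential of the fourfold tensor product. -/
private lemma d4 {k : Type} [CommRing k] (A B C D : DG k) (a : A.V) (b : B.V) (c : C.V)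
    (d : D.V) : ((A.tens B).tens (C.tens D)).d ((a ⊗ₜ b) ⊗ₜ (c ⊗ₜ d)) =
      (A.d a ⊗ₜ[k] b) ⊗ₜ[k] (c ⊗ₜ[k] d) + (A.sg a ⊗ₜ[k] B.d b) ⊗ₜ[k] (c ⊗ₜ[k] d) +
      (A.sg a ⊗ₜ[k] B.sg b) ⊗ₜ[k] (C.d c ⊗ₜ[k] d) +
      (A.sg a ⊗ₜ[k] B.sg b) ⊗ₜ[k] (C.sg c ⊗ₜ[k] D.d d) := by
  refine Eq.trans (DG.tens_d (A.tens B) (C.tens D) (a ⊗ₜ b) (c ⊗ₜ d)) ?_
  have h1 := DG.tens_d A B a b
  have h2 := DG.tens_d C D c d
  have h3 := DG.tens_sg A B a b
  rw [h1, h2, h3, TensorProduct.add_tmul, TensorProduct.tmul_add]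
  abel

/-- The parity projection of the fourfold tensor product. -/
private lemma P4 {k : Type} [CommRing k] (A B C D : DG k) (a : A.V) (b : B.V) (c : C.V)
    (d : D.V) : ((A.tens B).tens (C.tens D)).P ((a ⊗ₜ b) ⊗ₜ (c ⊗ₜ d)) =
      (A.P a ⊗ₜ[k] b + a ⊗ₜ[k] B.P b - (2 : k) • (A.P a ⊗ₜ[k] B.P b)) ⊗ₜ[k] (c ⊗ₜ[k] d) +
      (a ⊗ₜ[k] b) ⊗ₜ[k] (C.P c ⊗ₜ[k] d + c ⊗ₜ[k] D.P d - (2 : k) • (C.P c ⊗ₜ[k] D.P d)) -
      (2 : k) • ((A.P a ⊗ₜ[k] b + a ⊗ₜ[k] B.P b - (2 : k) • (A.P a ⊗ₜ[k] B.P b)) ⊗ₜ[k]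
        (C.P c ⊗ₜ[k] d + c ⊗ₜ[k] D.P d - (2 : k) • (C.P c ⊗ₜ[k] D.P d))) := by
  refine Eq.trans (DG.tens_P (A.tens B) (C.tens D) (a ⊗ₜ b) (c ⊗ₜ d)) ?_
  have h1 := DG.tens_P A B a b
  have h2 := DG.tens_P C D c d
  rw [h1, h2]

private lemma mid_d {k : Type} [CommRing k] (A B C D : DG k) (a : A.V) (b : B.V) (c : C.V)
    (d : D.V) : mid A B C D (((A.tens B).tens (C.tens D)).d ((a ⊗ₜ b) ⊗ₜ (c ⊗ₜ d))) =
      ((A.tens C).tens (B.tens D)).d (mid A B C D ((a ⊗ₜ b) ⊗ₜ (c ⊗ₜ d))) := by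
  rw [d4, mid_tmul, map_add, map_add, map_add, mid_tmul, mid_tmul, mid_tmul, mid_tmul]
  have h1 := d4 A C B D a c b d
  have h2 := d4 A C B D a (C.P c) (B.P b) d
  refine Eq.trans ?_ (map_sub _ _ _).symm
  refine Eq.trans ?_ (congrArg₂ _ h1.symm ((map_smul _ _ _).trans (congrArg _ h2)).symm)
  rw [B.Pd, C.Pd, B.P_sg, C.P_sg, B.sg_P, C.sg_P]
  rw [B.sg_apply, C.sg_apply]
  simp only [map_sub, TensorProduct.tmul_sub, TensorProduct.sub_tmul, TensorProduct.tmul_smul,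
    TensorProduct.smul_tmul', TensorProduct.tmul_neg, TensorProduct.neg_tmul, smul_sub, smul_smul]
  simp only [← TensorProduct.smul_tmul', TensorProduct.tmul_smul]
  module

private lemma mid_P {k : Type} [CommRing k] (A B C D : DG k) (a : A.V) (b : B.V) (c : C.V)
    (d : D.V) : mid A B C D (((A.tens B).tens (C.tens D)).P ((a ⊗ₜ b) ⊗ₜ (c ⊗ₜ d))) =
      ((A.tens C).tens (B.tens D)).P (mid A B C D ((a ⊗ₜ b) ⊗ₜ (c ⊗ₜ d))) := by
  rw [P4, mid_tmul]
  have h1 := P4 A C B D a c b d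
  have h2 := P4 A C B D a (C.P c) (B.P b) d
  refine Eq.trans ?_ (map_sub _ _ _).symm
  refine Eq.trans ?_ (congrArg₂ _ h1.symm ((map_smul _ _ _).trans (congrArg _ h2)).symm)
  rw [B.PP, C.PP]
  simp only [TensorProduct.tmul_sub, TensorProduct.sub_tmul, TensorProduct.tmul_add,
    TensorProduct.add_tmul, ← TensorProduct.smul_tmul', TensorProduct.tmul_smul, smul_sub,
    smul_add, smul_smul, map_add, map_sub, map_smul, mid_tmul, B.PP, C.PP]
  module

theorem sMid : S_Mid := by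
  intro k _ A B C D
  refine ⟨⟨?_, ?_⟩, ?_⟩
  · intro z
    have h : mid A B C D ∘ₗ ((A.tens B).tens (C.tens D)).d =
        ((A.tens C).tens (B.tens D)).d ∘ₗ mid A B C D :=
      TensorProduct.ext_fourfold' fun a b c d => mid_d A B C D a b c d
    exact LinearMap.congr_fun h z
  · intro z
    have h : mid A B C D ∘ₗ ((A.tens B).tens (C.tens D)).P =
        ((A.tens C).tens (B.tens D)).P ∘ₗ mid A B C D :=
      TensorProduct.ext_fourfold' fun a b c d => mid_P A B C D a b c d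
    exact LinearMap.congr_fun h z
  · intro A' B' C' D' f g h l hg hh z
    have h' : TensorProduct.map (TensorProduct.map f h) (TensorProduct.map g l) ∘ₗ mid A B C D =
        mid A' B' C' D' ∘ₗ TensorProduct.map (TensorProduct.map f g) (TensorProduct.map h l) :=
      TensorProduct.ext_fourfold' fun a b c d => by
        rw [LinearMap.comp_apply, LinearMap.comp_apply, mid_tmul, TensorProduct.map_tmul,
          TensorProduct.map_tmul, TensorProduct.map_tmul, mid_tmul, map_sub, map_smul,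
          TensorProduct.map_tmul, TensorProduct.map_tmul, TensorProduct.map_tmul,
          TensorProduct.map_tmul, TensorProduct.map_tmul, TensorProduct.map_tmul, hg, hh]
    exact LinearMap.congr_fun h' z

end HEp
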