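import Pool.Agent.Lib.MP_181146_gt.HE.SpecS

/-!
# MidE: the exchange `mid` is compatible with augmentations
-/

set_option autoImplicit false

namespace HEp

open scoped TensorProduct

theorem sMidE : S_MidE := by
  intro k _ A B C D εA εB εC εD hB z
  have key : augT (augT εA εC) (augT εB εD) ∘ₗ mid A B C D =
      augT (augT εA εB) (augT εC εD) := by
    apply TensorProduct.ext_fourfold'
    intro a b c d
    simp only [mid, LinearMap.comp_apply, LinearMap.sub_apply, LinearMap.smul_apply,
      LinearMap.id_apply, TensorProduct.map_tmul, map_sub, map_smul, LinearEquiv.coe_coe,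
      TensorProduct.tensorTensorTensorComm_tmul, augT, TensorProduct.lid_tmul, hB, smul_eq_mul]
    ring
  exact LinearMap.congr_fun key z

end HEp
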