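import Pool.Agent.Lib.MP_181146_gt.HE.SpecG

set_option autoImplicit false

namespace HEp

theorem sNC : S_NC := by
  classical
  intro G _ _ hG
  obtain ⟨ι, _, n, hn, ⟨e⟩⟩ := CommGroup.equiv_prod_multiplicative_zmod_of_finite G
  by_cases h : Pairwise (Function.onFun Nat.Coprime n)
  · exfalso
    apply hG
    let E := ZMod.prodEquivPi n h
    let f : Multiplicative (ZMod (∏ i, n i)) →* ((i : ι) → Multiplicative (ZMod (n i))) :=
      { toFun := fun x i => Multiplicative.ofAdd (E x.toAdd i)
        map_one' := by
          funext i
          rw [toAdd_one, map_zero]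
          rfl
        map_mul' := fun x y => by
          funext i
          rw [toAdd_mul, map_add]
          rfl }
    have hf : Function.Surjective f := by
      intro y
      refine ⟨Multiplicative.ofAdd (E.symm fun i => (y i).toAdd), ?_⟩
      funext i
      change Multiplicative.ofAdd (E (E.symm fun i => (y i).toAdd) i) = y i
      rw [E.apply_symm_apply]
      rfl
    exact isCyclic_of_surjective (e.symm.toMonoidHom.comp f)
      (e.symm.surjective.comp hf)
  · rw [Pairwise] at h
    push Not at h
    obtain ⟨i, j, hij, hc⟩ := h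
    obtain ⟨p, hp, hpi, hpj⟩ := Nat.Prime.not_coprime_iff_dvd.1 hc
    let π : G →* Multiplicative (ZMod p × ZMod p) :=
      { toFun := fun x => Multiplicative.ofAdd
          (ZMod.castHom hpi (ZMod p) (e x i).toAdd, ZMod.castHom hpj (ZMod p) (e x j).toAdd)
        map_one' := by
          rw [map_one, Pi.one_apply, Pi.one_apply, toAdd_one, toAdd_one, map_zero, map_zero]
          rfl
        map_mul' := fun x y => by
          rw [map_mul, Pi.mul_apply, Pi.mul_apply, toAdd_mul, toAdd_mul, map_add, map_add]
          rfl }
    refine ⟨p, hp, π, ?_⟩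
    intro z
    obtain ⟨a, ha⟩ := ZMod.castHom_surjective hpi z.toAdd.1
    obtain ⟨b, hb⟩ := ZMod.castHom_surjective hpj z.toAdd.2
    refine ⟨e.symm (Function.update (Function.update 1 i (Multiplicative.ofAdd a)) j
      (Multiplicative.ofAdd b)), ?_⟩
    change Multiplicative.ofAdd (ZMod.castHom hpi (ZMod p) (e (e.symm _) i).toAdd,
      ZMod.castHom hpj (ZMod p) (e (e.symm _) j).toAdd) = z
    rw [e.apply_symm_apply, Function.update_self, Function.update_of_ne hij, Function.update_self,
      toAdd_ofAdd, toAdd_ofAdd, ha, hb]
    rfl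

end HEp
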