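import Pool.Agent.Lib.MP_181146_gt.HE.SpecS

/-!
# Project HE: the cross product is a chain map
-/

set_option autoImplicit false

namespace HEp

open scoped TensorProduct

private lemma nd_tch_ext {k : Type} [CommRing k] {K L : SS} {M : Type} [AddCommGroup M]
    [Module k M] {f g : Ch k K ⊗[k] Ch k L →ₗ[k] M}
    (h : ∀ (p q : ℕ) (x : K.K p) (y : L.K q), f (sx k x ⊗ₜ sx k y) = g (sx k x ⊗ₜ sx k y)) :
    f = g := by
  apply TensorProduct.ext
  apply ch_ext
  intro p x
  apply ch_ext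
  intro q y
  exact h p q x y

/-- Change of coefficients as a `ℤ`-linear map. -/
private noncomputable def nd_cc (k : Type) [CommRing k] (M : SS) : Ch ℤ M →ₗ[ℤ] Ch k M :=
  (Finsupp.mapRange.addMonoidHom (Int.castAddHom k)).toIntLinearMap

private lemma nd_cc_apply {k : Type} [CommRing k] {M : SS} (x : Ch ℤ M) : nd_cc k M x = cc k x :=
  rfl

private lemma nd_cc_sx {k : Type} [CommRing k] {M : SS} {n : ℕ} (x : M.K n) :
    nd_cc k M (sx ℤ x) = sx k x := by
  rw [nd_cc_apply, cc, sx, Finsupp.mapRange_single, map_one]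
  rfl

private lemma nd_pow {k : Type} [CommRing k] {V : Type} [AddCommGroup V] [Module k V] (i : ℕ)
    (v : V) : ((-1 : ℤ) ^ i) • v = ((-1 : k) ^ i) • v := by
  rw [← Int.cast_smul_eq_zsmul k]
  push_cast
  rfl

private lemma nd_cc_cmap {k : Type} [CommRing k] {M N : SS} (f : SSHom M N) (x : Ch ℤ M) :
    nd_cc k N (cmap ℤ f x) = cmap k f (nd_cc k M x) := by
  have h : nd_cc k N ∘ₗ cmap ℤ f =
      (cmap k f).toAddMonoidHom.toIntLinearMap ∘ₗ nd_cc k M := ch_ext fun n x => by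
    rw [LinearMap.comp_apply, LinearMap.comp_apply, cmap_sx, nd_cc_sx, nd_cc_sx]
    exact (cmap_sx k f x).symm
  exact LinearMap.congr_fun h x

private lemma nd_cc_bd {k : Type} [CommRing k] {M : SS} (x : Ch ℤ M) :
    nd_cc k M (bd ℤ M x) = bd k M (nd_cc k M x) := by
  have h : nd_cc k M ∘ₗ bd ℤ M =
      (bd k M).toAddMonoidHom.toIntLinearMap ∘ₗ nd_cc k M := ch_ext fun n x => by
    rw [LinearMap.comp_apply, LinearMap.comp_apply, nd_cc_sx]
    change nd_cc k M (bd ℤ M (sx ℤ x)) = bd k M (sx k x)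
    cases n with
    | zero => rw [bd_sx_zero, bd_sx_zero, map_zero]
    | succ n =>
      rw [bd_sx, bd_sx, map_sum]
      refine Finset.sum_congr rfl fun i _ => ?_
      rw [map_smul, nd_cc_sx, nd_pow (k := k)]
  exact LinearMap.congr_fun h x

private lemma nd_A {k : Type} [CommRing k] {K L : SS} {p q : ℕ} (x : K.K (p + 1)) (y : L.K q)
    (z : Ch ℤ ((De p).prod (De q))) :
    cmap k ((K.ev x).prod (L.ev y)) (nd_cc k _ (fA ℤ p q z)) =
      ∑ j : Fin (p + 2), (-1 : k) ^ (j : ℕ) •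
        cmap k ((K.ev (K.act j.succAbove x)).prod (L.ev y)) (nd_cc k _ z) := by
  rw [fA, map_sum, map_sum]
  refine Finset.sum_congr rfl fun j _ => ?_
  rw [map_smul, nd_pow (k := k), map_smul, nd_cc_cmap, ← cmap_comp, ev_act]
  rfl

private lemma nd_B {k : Type} [CommRing k] {K L : SS} {p q : ℕ} (x : K.K p) (y : L.K (q + 1))
    (z : Ch ℤ ((De p).prod (De q))) :
    cmap k ((K.ev x).prod (L.ev y)) (nd_cc k _ (fB ℤ p q z)) =
      ∑ j : Fin (q + 2), (-1 : k) ^ (j : ℕ) •
        cmap k ((K.ev x).prod (L.ev (L.act j.succAbove y))) (nd_cc k _ z) := by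
  rw [fB, map_sum, map_sum]
  refine Finset.sum_congr rfl fun j _ => ?_
  rw [map_smul, nd_pow (k := k), map_smul, nd_cc_cmap, ← cmap_comp, ev_act]
  rfl

private lemma nd_e00 (e : ∀ p q : ℕ, Ch ℤ ((De p).prod (De q))) (he : EZ e) :
    bd ℤ _ (e 0 0) = 0 := by
  rw [he.hp0]
  exact bd_sx_zero ℤ _

private lemma nd_ep0 (e : ∀ p q : ℕ, Ch ℤ ((De p).prod (De q))) (he : EZ e) (p : ℕ) :
    bd ℤ _ (e (p + 1) 0) = fA ℤ p 0 (e p 0) := by
  rw [he.hp0, he.hp0]
  refine (bd_sx ℤ (K := (De (p + 1)).prod (De 0)) _).trans ?_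
  refine Finset.sum_congr rfl fun j _ => ?_
  exact congrArg _ (cmap_sx ℤ ((Ed.map j.succAbove).prod (SSHom.id (De 0)))
    (show ((De p).prod (De 0)).K p from
      ((_root_.id : Fin (p + 1) → Fin (p + 1)), (fun _ => 0 : Fin (p + 1) → Fin 1)))).symm

private lemma nd_e0q (e : ∀ p q : ℕ, Ch ℤ ((De p).prod (De q))) (he : EZ e) (q : ℕ) :
    bd ℤ _ (e 0 (q + 1)) = fB ℤ 0 q (e 0 q) := by
  rw [he.h0q, he.h0q]
  refine (bd_sx ℤ (K := (De 0).prod (De (q + 1))) _).trans ?_
  refine Finset.sum_congr rfl fun j _ => ?_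
  exact congrArg _ (cmap_sx ℤ ((SSHom.id (De 0)).prod (Ed.map j.succAbove))
    (show ((De 0).prod (De q)).K q from
      ((fun _ => 0 : Fin (q + 1) → Fin 1), (_root_.id : Fin (q + 1) → Fin (q + 1))))).symm

private lemma nd_sg {k : Type} [CommRing k] {K : SS} {p : ℕ} (x : K.K p) :
    (chDG k K).sg (sx k x) = (-1 : k) ^ p • sx k x := by
  have h : (chDG k K).sg (sx k x) = sx k x - (2 : k) • od k K (sx k x) := rfl
  rw [h, od_sx]
  by_cases hp : Odd p
  · rw [if_pos hp, hp.neg_one_pow, neg_one_smul, two_smul]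
    abel
  · rw [if_neg hp, (Nat.not_odd_iff_even.1 hp).neg_one_pow, one_smul, smul_zero, sub_zero]

private lemma nd_x {k : Type} [CommRing k] (e : ∀ p q : ℕ, Ch ℤ ((De p).prod (De q)))
    {K L : SS} {p q : ℕ} (x : K.K (p + 1)) (y : L.K q) :
    nab k e K L (bd k K (sx k x) ⊗ₜ sx k y) =
      cmap k ((K.ev x).prod (L.ev y)) (nd_cc k _ (fA ℤ p q (e p q))) := by
  rw [nd_A, bd_sx, TensorProduct.sum_tmul, map_sum]
  refine Finset.sum_congr rfl fun j _ => ?_
  rw [← TensorProduct.smul_tmul', map_smul, nab_sx]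
  rfl

private lemma nd_y {k : Type} [CommRing k] (e : ∀ p q : ℕ, Ch ℤ ((De p).prod (De q)))
    {K L : SS} {p q : ℕ} (x : K.K p) (y : L.K (q + 1)) :
    nab k e K L (sx k x ⊗ₜ bd k L (sx k y)) =
      cmap k ((K.ev x).prod (L.ev y)) (nd_cc k _ (fB ℤ p q (e p q))) := by
  rw [nd_B, bd_sx, TensorProduct.tmul_sum, map_sum]
  refine Finset.sum_congr rfl fun j _ => ?_
  rw [TensorProduct.tmul_smul, map_smul, nab_sx]
  rfl

theorem sNabD : S_NabD := by
  intro e he k _ K L z
  have h1 : nab k e K L ∘ₗ ((chDG k K).tens (chDG k L)).d =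
      bd k (K.prod L) ∘ₗ nab k e K L := by
    apply nd_tch_ext
    intro p q x y
    rw [LinearMap.comp_apply, LinearMap.comp_apply, nab_sx, ← cmap_bd, ← nd_cc_apply, ← nd_cc_bd]
    have h2 : ((chDG k K).tens (chDG k L)).d (sx k x ⊗ₜ sx k y) =
        bd k K (sx k x) ⊗ₜ[k] sx k y + (chDG k K).sg (sx k x) ⊗ₜ[k] bd k L (sx k y) := rfl
    refine Eq.trans (congrArg _ h2) ?_
    rw [nd_sg, ← TensorProduct.smul_tmul', map_add, map_smul]
    cases p with
    | zero =>
      cases q with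
      | zero =>
        rw [nd_e00 e he, bd_sx_zero, bd_sx_zero, TensorProduct.zero_tmul, TensorProduct.tmul_zero,
          map_zero, map_zero, map_zero, smul_zero, add_zero]
      | succ q =>
        rw [nd_e0q e he, bd_sx_zero, TensorProduct.zero_tmul, map_zero, zero_add, pow_zero,
          one_smul, nd_y]
    | succ p =>
      cases q with
      | zero =>
        rw [nd_ep0 e he, bd_sx_zero k y, TensorProduct.tmul_zero, map_zero, smul_zero, add_zero,
          nd_x]
      | succ q =>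
        rw [he.rel, map_add, map_add, map_smul, nd_pow (k := k), map_smul, nd_x, nd_y]
  exact LinearMap.congr_fun h1 z

end HEp
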