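import Pool.Agent.Lib.MP_181146_gt.HE.SpecS

/-!
# Project HE: the cross product is compatible with gradings and parity
-/

set_option autoImplicit false

namespace HEp

open scoped TensorProduct

private lemma ng_gr_ind {k : Type} [CommRing k] {K : SS} {n : ℕ} {M : Type} [AddCommGroup M]
    [Module k M] (f : Ch k K →ₗ[k] M) (S : Submodule k M) (h : ∀ x : K.K n, f (sx k x) ∈ S)
    (x : Ch k K) (hx : x ∈ gr k K n) : f x ∈ S := by
  have h1 : gr k K n ≤ S.comap f := by
    rw [gr, Finsupp.supported_eq_span_single, Submodule.span_le]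
    rintro _ ⟨⟨m, y⟩, hm, rfl⟩
    change m = n at hm
    subst hm
    exact h y
  exact h1 hx

private lemma ng_cmap_gr {k : Type} [CommRing k] {K L : SS} (f : SSHom K L) (n : ℕ) (x : Ch k K)
    (hx : x ∈ gr k K n) : cmap k f x ∈ gr k L n := by
  refine ng_gr_ind (cmap k f) (gr k L n) (fun x => ?_) x hx
  rw [cmap_sx]
  exact sx_mem_gr k _

private lemma ng_cc_gr {k : Type} [CommRing k] {K : SS} (n : ℕ) (x : Ch ℤ K)
    (hx : x ∈ gr ℤ K n) : cc k x ∈ gr k K n := by
  rw [gr, Finsupp.mem_supported] at hx ⊢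
  exact fun a ha => hx (Finsupp.support_mapRange ha)

private lemma ng_od_gr {k : Type} [CommRing k] {K : SS} (n : ℕ) (x : Ch k K)
    (hx : x ∈ gr k K n) : od k K x = if Odd n then x else 0 := by
  by_cases h : Odd n
  · rw [if_pos h]
    have h1 := ng_gr_ind (od k K - LinearMap.id) ⊥ (fun x => by
      rw [LinearMap.sub_apply, LinearMap.id_apply, od_sx, if_pos h, sub_self]
      exact Submodule.zero_mem _) x hx
    rw [Submodule.mem_bot, LinearMap.sub_apply, LinearMap.id_apply] at h1
    exact sub_eq_zero.1 h1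
  · rw [if_neg h]
    have h1 := ng_gr_ind (od k K) ⊥ (fun x => by
      rw [od_sx, if_neg h]
      exact Submodule.zero_mem _) x hx
    exact (Submodule.mem_bot k).1 h1

private lemma ng_tch_ext {k : Type} [CommRing k] {K L : SS} {M : Type} [AddCommGroup M]
    [Module k M] {f g : Ch k K ⊗[k] Ch k L →ₗ[k] M}
    (h : ∀ (p q : ℕ) (x : K.K p) (y : L.K q), f (sx k x ⊗ₜ sx k y) = g (sx k x ⊗ₜ sx k y)) :
    f = g := by
  apply TensorProduct.ext
  apply ch_ext
  intro p x
  apply ch_ext
  intro q y
  exact h p q x y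

theorem sNabG : S_NabG := by
  intro e he k _ K L
  have h0 : ∀ (p q : ℕ) (x : K.K p) (y : L.K q),
      nab k e K L (sx k x ⊗ₜ sx k y) ∈ gr k (K.prod L) (p + q) := by
    intro p q x y
    rw [nab_sx]
    exact ng_cmap_gr _ _ _ (ng_cc_gr _ _ (he.deg p q))
  refine ⟨?_, ?_⟩
  · intro i j x hx y hy
    refine ng_gr_ind (nab k e K L ∘ₗ (TensorProduct.mk k (Ch k K) (Ch k L)).flip y)
      (gr k (K.prod L) (i + j)) (fun x => ?_) x hx
    refine ng_gr_ind (nab k e K L ∘ₗ (TensorProduct.mk k (Ch k K) (Ch k L)) (sx k x))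
      (gr k (K.prod L) (i + j)) (fun y => ?_) y hy
    exact h0 i j x y
  · intro z
    have h1 : nab k e K L ∘ₗ ((chDG k K).tens (chDG k L)).P =
        od k (K.prod L) ∘ₗ nab k e K L := by
      apply ng_tch_ext
      intro p q x y
      rw [LinearMap.comp_apply, LinearMap.comp_apply, ng_od_gr _ _ (h0 p q x y)]
      have h2 : ((chDG k K).tens (chDG k L)).P (sx k x ⊗ₜ sx k y) =
          od k K (sx k x) ⊗ₜ[k] sx k y + sx k x ⊗ₜ[k] od k L (sx k y) -
            (2 : k) • (od k K (sx k x) ⊗ₜ[k] od k L (sx k y)) := rfl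
      refine Eq.trans (congrArg _ h2) ?_
      rw [map_sub, map_add, map_smul, od_sx, od_sx]
      by_cases hp : Odd p
      · by_cases hq : Odd q
        · have h3 : ¬ Odd (p + q) := by
            rw [Nat.not_odd_iff_even]
            exact hp.add_odd hq
          rw [if_pos hp, if_pos hq, if_neg h3, two_smul, sub_self]
        · have h3 : Odd (p + q) := hp.add_even (Nat.not_odd_iff_even.1 hq)
          rw [if_pos hp, if_neg hq, if_pos h3, TensorProduct.tmul_zero, map_zero, smul_zero,
            sub_zero, add_zero]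
      · by_cases hq : Odd q
        · have h3 : Odd (p + q) := (Nat.not_odd_iff_even.1 hp).add_odd hq
          rw [if_neg hp, if_pos hq, if_pos h3, TensorProduct.zero_tmul, map_zero, smul_zero,
            sub_zero, zero_add]
        · have h3 : ¬ Odd (p + q) := by
            rw [Nat.not_odd_iff_even]
            exact (Nat.not_odd_iff_even.1 hp).add (Nat.not_odd_iff_even.1 hq)
          rw [if_neg hp, if_neg hq, if_neg h3, TensorProduct.zero_tmul, TensorProduct.tmul_zero,
            TensorProduct.zero_tmul, map_zero, smul_zero, sub_zero, zero_add]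
    exact LinearMap.congr_fun h1 z

end HEp
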