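import Pool.Agent.Lib.MP_181146_gt.HE.SpecS

/-!
# Project HE, chain level part: naturality of the cross product (NabN)
-/

set_option autoImplicit false

namespace HEp

open scoped TensorProduct

private theorem nabN_hom {K K' L L' : SS} (φ : SSHom K K') (ψ : SSHom L L') {p q : ℕ} (x : K.K p)
    (y : L.K q) : (K'.ev (φ.f x)).prod (L'.ev (ψ.f y)) =
      (φ.prod ψ).comp ((K.ev x).prod (L.ev y)) := by
  unfold SS.ev SSHom.prod SSHom.comp
  congr 1
  funext l v
  exact Prod.ext (φ.nat _ _).symm (ψ.nat _ _).symm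

theorem sNabN : S_NabN := by
  intro e k _ K K' L L' φ ψ z
  have h : nab k e K' L' ∘ₗ TensorProduct.map (cmap k φ) (cmap k ψ) =
      cmap k (φ.prod ψ) ∘ₗ nab k e K L := by
    apply TensorProduct.ext
    refine ch_ext (k := k) (K := K) (M := Ch k L →ₗ[k] Ch k (K'.prod L')) ?_
    intro p x
    refine ch_ext (k := k) (K := L) (M := Ch k (K'.prod L')) ?_
    intro q y
    change nab k e K' L' (TensorProduct.map (cmap k φ) (cmap k ψ) (sx k x ⊗ₜ[k] sx k y)) =
      cmap k (φ.prod ψ) (nab k e K L (sx k x ⊗ₜ[k] sx k y))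
    rw [TensorProduct.map_tmul, cmap_sx, cmap_sx, nab_sx, nab_sx, nabN_hom, cmap_comp]
  exact LinearMap.congr_fun h z

end HEp
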