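import Pool.Agent.Lib.MP_181146_gt.HE.SpecS

/-! # Project HE: NabR, the cross product and reduction of coefficients. -/

set_option autoImplicit false

namespace HEp

open scoped TensorProduct

private theorem nabR_zero (k : Type) [CommRing k] {M : SS} : cc k (0 : Ch ℤ M) = 0 :=
  Finsupp.mapRange_zero

private theorem nabR_add (k : Type) [CommRing k] {M : SS} (x y : Ch ℤ M) :
    cc k (x + y) = cc k x + cc k y :=
  Finsupp.mapRange_add (map_add (Int.castRingHom k)) x y

private theorem nabR_smul (k : Type) [CommRing k] {M : SS} (m : ℤ) (x : Ch ℤ M) :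
    cc k (m • x) = (m : k) • cc k x := by
  refine Finsupp.ext fun a => ?_
  rw [Finsupp.smul_apply]
  simp [cc]

private theorem nabR_single (k : Type) [CommRing k] {M : SS} {n : ℕ} (a : M.K n) :
    cc k (Finsupp.single ⟨n, a⟩ (1 : ℤ)) = sx k a := by
  rw [cc, sx, Finsupp.mapRange_single, map_one]

private theorem nabR_int {M : SS} (x : Ch ℤ M) : cc ℤ x = x := by
  refine Finsupp.ext fun a => ?_
  simp [cc]

private theorem nabR_cmap (k : Type) [CommRing k] {M N : SS} (f : SSHom M N) (x : Ch ℤ M) :
    cc k (cmap ℤ f x) = cmap k f (cc k x) :=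
  (Finsupp.mapDomain_mapRange _ x _ (map_zero _) (map_add (Int.castRingHom k))).symm

private theorem nabR_sx (e : ∀ p q : ℕ, Ch ℤ ((De p).prod (De q))) (k : Type) [CommRing k]
    (K L : SS) {p q : ℕ} (a : K.K p) (b : L.K q) :
    nab k e K L (sx k a ⊗ₜ sx k b) = cc k (nab ℤ e K L (sx ℤ a ⊗ₜ sx ℤ b)) := by
  rw [nab_sx, nab_sx, nabR_int, nabR_cmap]

theorem sNabR : S_NabR := by
  intro e k _ K L x y
  induction x using Finsupp.induction_linear with
  | zero => rw [nabR_zero, TensorProduct.zero_tmul, TensorProduct.zero_tmul, map_zero, map_zero,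
      nabR_zero]
  | add x x' hx hx' =>
    rw [nabR_add, TensorProduct.add_tmul, TensorProduct.add_tmul, map_add, map_add, nabR_add, hx,
      hx']
  | single s m =>
    obtain ⟨p, a⟩ := s
    induction y using Finsupp.induction_linear with
    | zero => rw [nabR_zero, TensorProduct.tmul_zero, TensorProduct.tmul_zero, map_zero, map_zero,
        nabR_zero]
    | add y y' hy hy' =>
      rw [nabR_add, TensorProduct.tmul_add, TensorProduct.tmul_add, map_add, map_add, nabR_add, hy,
        hy']
    | single s' n =>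
      obtain ⟨q, b⟩ := s'
      have h1 : (Finsupp.single ⟨p, a⟩ m : Ch ℤ K) = m • sx ℤ a := by
        rw [sx, Finsupp.smul_single, smul_eq_mul, mul_one]
      have h2 : (Finsupp.single ⟨q, b⟩ n : Ch ℤ L) = n • sx ℤ b := by
        rw [sx, Finsupp.smul_single, smul_eq_mul, mul_one]
      have h3 : cc k (sx ℤ a) = sx k a := nabR_single k a
      have h4 : cc k (sx ℤ b) = sx k b := nabR_single k b
      rw [h1, h2, nabR_smul, nabR_smul, h3, h4, TensorProduct.smul_tmul_smul,
        TensorProduct.smul_tmul_smul, map_smul, map_smul, nabR_sx, nabR_smul, Int.cast_mul]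

end HEp
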