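import Pool.Agent.Lib.MP_181146_gt.HE.SpecS

/-! # Project HE: NabU, units and augmentation of the cross product. -/

set_option autoImplicit false

namespace HEp

open scoped TensorProduct

private theorem nabU_cc (k : Type) [CommRing k] {M : SS} {n : ℕ} (x : M.K n) :
    cc k (sx ℤ x) = sx k x := by
  rw [cc, sx, sx, Finsupp.mapRange_single, map_one]

private theorem nabU_aug (k : Type) [CommRing k] {M : SS} {n : ℕ} (x : Ch ℤ M)
    (hx : x ∈ gr ℤ M (n + 1)) : aug k M (cc k x) = 0 := by
  rw [aug, Finsupp.linearCombination_apply, Finsupp.sum]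
  refine Finset.sum_eq_zero fun a ha => ?_
  have h1 : a ∈ x.support := Finsupp.support_mapRange ha
  have h2 : a.1 = n + 1 := (Finsupp.mem_supported ℤ x).1 hx h1
  have h3 : a.1 ≠ 0 := by
    rw [h2]
    exact Nat.succ_ne_zero n
  rw [if_neg h3, smul_zero]

theorem sNabU : S_NabU := by
  intro e he k _ K L
  refine ⟨?_, ?_, ?_⟩
  · intro v x
    have h : (nab k e K L) ∘ₗ ((TensorProduct.mk k (Ch k K) (Ch k L)).flip (sx k v)) =
        cmap k (SSHom.pair (SSHom.id K) (SSHom.cst K v)) := ch_ext fun n y => by
      rw [LinearMap.comp_apply]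
      change nab k e K L (sx k y ⊗ₜ sx k v) = _
      rw [nab_sx, he.hp0, nabU_cc, cmap_sx, cmap_sx]
      change sx k (K := K.prod L) (n := n) (K.act id y, L.act (fun _ => 0) v) =
        sx k (K := K.prod L) (n := n) (y, L.act (fun _ => 0) v)
      rw [K.act_id]
    exact LinearMap.congr_fun h x
  · intro v y
    have h : (nab k e K L) ∘ₗ (TensorProduct.mk k (Ch k K) (Ch k L) (sx k v)) =
        cmap k (SSHom.pair (SSHom.cst L v) (SSHom.id L)) := ch_ext fun n y => by
      rw [LinearMap.comp_apply]
      change nab k e K L (sx k v ⊗ₜ sx k y) = _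
      rw [nab_sx, he.h0q, nabU_cc, cmap_sx, cmap_sx]
      change sx k (K := K.prod L) (n := n) (K.act (fun _ => 0) v, L.act id y) =
        sx k (K := K.prod L) (n := n) (K.act (fun _ => 0) v, y)
      rw [L.act_id]
    exact LinearMap.congr_fun h y
  · intro z
    have key : ∀ (p q : ℕ) (x : K.K p) (y : L.K q),
        aug k (K.prod L) (nab k e K L (sx k x ⊗ₜ sx k y)) = aug k K (sx k x) * aug k L (sx k y) := by
      intro p q x y
      rw [nab_sx, aug_cmap]
      rcases p with _ | p
      · rcases q with _ | q
        · rw [he.hp0, nabU_cc, aug_sx_zero, aug_sx_zero, aug_sx_zero, one_mul]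
        · rw [aug_sx_succ (k := k) y, mul_zero]
          have h1 := he.deg 0 (q + 1)
          rw [Nat.zero_add] at h1
          exact nabU_aug k _ h1
      · rw [aug_sx_succ (k := k) x, zero_mul]
        have h1 := he.deg (p + 1) q
        rw [Nat.add_right_comm] at h1
        exact nabU_aug k _ h1
    have h : aug k (K.prod L) ∘ₗ nab k e K L = augT (aug k K) (aug k L) := by
      apply TensorProduct.ext
      refine ch_ext fun p x => ch_ext fun q y => ?_
      change aug k (K.prod L) (nab k e K L (sx k x ⊗ₜ sx k y)) =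
        augT (aug k K) (aug k L) (sx k x ⊗ₜ sx k y)
      rw [augT_tmul]
      exact key p q x y
    exact LinearMap.congr_fun h z

end HEp
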