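import Pool.Agent.Lib.MP_181146_gt.HE.SpecS

set_option autoImplicit false
set_option linter.unusedVariables false

namespace HEp

open scoped TensorProduct

theorem sPhi (hNabD : S_NabD) (hNabG : S_NabG) (hNabN : S_NabN) (hNabU : S_NabU)
    (hDlG : S_DlG) : S_Phi := by
  intro e he k _
  refine ⟨{ f := fun K L => dl k (K.prod L) ∘ₗ nab k e K L
            comm := ?_
            nat := ?_ }, fun K L z => rfl, ?_⟩
  · intro K L z
    have h1 := hNabD e he k K L z
    have h2 := (hDlG k (K.prod L)).1.d (nab k e K L z)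
    change dl k (K.prod L) (nab k e K L (((chDG k K).tens (chDG k L)).d z)) =
      ((chDG k (K.prod L)).tens (chDG k (K.prod L))).d (dl k (K.prod L) (nab k e K L z))
    rw [h1]
    exact h2
  · intro K K' L L' φ ψ z
    have h1 := hNabN e k K K' L L' φ ψ z
    have h2 := (hDlG k (K.prod L)).2.2.2 (K'.prod L') (φ.prod ψ) (nab k e K L z)
    change dl k (K'.prod L') (nab k e K' L' (TensorProduct.map (cmap k φ) (cmap k ψ) z)) =
      TensorProduct.map (cmap k (φ.prod ψ)) (cmap k (φ.prod ψ)) (dl k (K.prod L) (nab k e K L z))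
    rw [h1, h2]
  · intro K L z
    have h1 := (hNabU e he k K L).2.2 z
    have h2 := (hDlG k (K.prod L)).2.2.1 (nab k e K L z)
    change augT (aug k (K.prod L)) (aug k (K.prod L)) (dl k (K.prod L) (nab k e K L z)) = _
    rw [h2, h1]

end HEp
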