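import Pool.Agent.Lib.MP_181146_gt.HE.SpecS
import Pool.Agent.Lib.MP_181146_gt.HE.DStep

set_option autoImplicit false

namespace HEp

/-- A functional on `M` which vanishes on `B` and is `1` on an element of the kernel of `f`. -/
private lemma PhiZ_abs {M N : Type} [AddCommGroup M] [Module.Finite ℤ M] [AddCommGroup N]
    [Module.Finite ℤ N] [Module.Free ℤ N] (f : M →ₗ[ℤ] N) (B : Submodule ℤ M)
    (hB : ∀ x ∈ B, f x = 0) (z : M) (hz : f z = 0) (hn : ∀ n : ℤ, n ≠ 0 → n • z ∉ B) :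
    ∃ φ : M →ₗ[ℤ] ℤ, (∀ x ∈ B, φ x = 0) ∧ ∃ z, f z = 0 ∧ φ z = 1 := by
  let Q : Type := M ⧸ B
  let g : Q →ₗ[ℤ] N := B.liftQ f hB
  have hg : ∀ x : M, g (B.mkQ x) = f x := fun x => rfl
  let K : Submodule ℤ Q := LinearMap.ker g
  have hQf : Module.Finite ℤ Q := Module.Finite.of_surjective B.mkQ B.mkQ_surjective
  have hKf : Module.Finite ℤ K := inferInstance
  let T : Type := K ⧸ Submodule.torsion ℤ K
  have hTf : Module.Finite ℤ T :=
    Module.Finite.of_surjective (Submodule.torsion ℤ K).mkQ (Submodule.mkQ_surjective _)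
  have hTt : Module.IsTorsionFree ℤ T := Submodule.QuotientTorsion.instIsTorsionFree
  have hTF : Module.Free ℤ T := Module.free_of_finite_type_torsion_free'
  let z0 : K := ⟨B.mkQ z, by rw [LinearMap.mem_ker, hg, hz]⟩
  have hz0 : (Submodule.torsion ℤ K).mkQ z0 ≠ 0 := by
    intro h
    rw [Submodule.mkQ_apply, Submodule.Quotient.mk_eq_zero, Submodule.mem_torsion_iff] at h
    obtain ⟨a, ha⟩ := h
    have ha0 : (a : ℤ) ≠ 0 := nonZeroDivisors.coe_ne_zero a
    refine hn a ha0 ?_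
    have h1 : ((a : ℤ) • z0 : K) = 0 := ha
    have h2 : B.mkQ ((a : ℤ) • z) = 0 := by
      rw [map_smul]
      exact congrArg Subtype.val h1
    rwa [Submodule.mkQ_apply, Submodule.Quotient.mk_eq_zero] at h2
  let b := Module.Free.chooseBasis ℤ T
  obtain ⟨i, -⟩ : ∃ i, b.repr ((Submodule.torsion ℤ K).mkQ z0) i ≠ 0 := by
    by_contra hcon
    push Not at hcon
    exact hz0 (b.repr.map_eq_zero_iff.1 (Finsupp.ext hcon))
  obtain ⟨k, hk⟩ := Submodule.mkQ_surjective (Submodule.torsion ℤ K) (b i)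
  let ψ : K →ₗ[ℤ] ℤ := b.coord i ∘ₗ (Submodule.torsion ℤ K).mkQ
  have hψ : ψ k = 1 := by
    change b.coord i ((Submodule.torsion ℤ K).mkQ k) = 1
    rw [hk, Module.Basis.coord_apply, Module.Basis.repr_self, Finsupp.single_eq_same]
  -- the section
  have hRf : Module.Finite ℤ (LinearMap.range g) := inferInstance
  have hRt : Module.IsTorsionFree ℤ (LinearMap.range g) := inferInstance
  have hRF : Module.Free ℤ (LinearMap.range g) := Module.free_of_finite_type_torsion_free'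
  obtain ⟨σ, hσ⟩ := Module.projective_lifting_property g.rangeRestrict LinearMap.id
    g.surjective_rangeRestrict
  have hσ' : ∀ y, g (σ y) = y := fun y => congrArg Subtype.val (LinearMap.congr_fun hσ y)
  let ρ : Q →ₗ[ℤ] K := LinearMap.codRestrict K (LinearMap.id - σ ∘ₗ g.rangeRestrict) (fun x => by
    change g (x - σ (g.rangeRestrict x)) = 0
    rw [map_sub, hσ']
    exact sub_self _)
  obtain ⟨m, hm⟩ := B.mkQ_surjective k
  refine ⟨ψ ∘ₗ ρ ∘ₗ B.mkQ, fun x hx => ?_, m, ?_, ?_⟩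
  · have h1 : B.mkQ x = 0 := by
      rw [Submodule.mkQ_apply, Submodule.Quotient.mk_eq_zero]
      exact hx
    change ψ (ρ (B.mkQ x)) = 0
    rw [h1, map_zero, map_zero]
  · rw [← hg, hm]
    exact k.2
  · change ψ (ρ (B.mkQ m)) = 1
    have h1 : ρ (B.mkQ m) = k := by
      apply Subtype.ext
      change B.mkQ m - σ (g.rangeRestrict (B.mkQ m)) = k
      have h2 : g.rangeRestrict (B.mkQ m) = 0 := by
        apply Subtype.ext
        change g (B.mkQ m) = 0
        rw [hm]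
        exact k.2
      rw [h2, map_zero, sub_zero, hm]
    rw [h1, hψ]

theorem sPhiZ : S_PhiZ := by
  intro G _ _ X d ⟨z, hz, hn⟩
  have h1 : Module.Finite ℤ (X.P d) := DStepAux.fin_int G (X.P d)
  have h2 : Module.Finite ℤ (X.P (d - 1)) := DStepAux.fin_int G (X.P (d - 1))
  have h3 : Module.Free ℤ (X.P (d - 1)) := DStepAux.free_int G (X.P (d - 1))
  let f : X.P d →ₗ[ℤ] X.P (d - 1) := (X.d d (d - 1)).toAddMonoidHom.toIntLinearMap
  let u : X.P (d + 1) →ₗ[ℤ] X.P d := (X.d (d + 1) d).toAddMonoidHom.toIntLinearMap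
  obtain ⟨φ, hφ, z', hz', hφz⟩ := PhiZ_abs f (LinearMap.range u) (by
    rintro x ⟨y, rfl⟩
    exact X.dd (d + 1) d (d - 1) y) z (hz (d - 1)) (by
    rintro n hn0 ⟨y, hy⟩
    exact hn n hn0 ⟨d + 1, y, hy⟩)
  refine ⟨φ.toAddMonoidHom, fun w => hφ _ ⟨w, rfl⟩, z', ?_, hφz⟩
  intro j
  by_cases hj : j + 1 = d
  · obtain rfl : j = d - 1 := by omega
    exact hz'
  · rw [X.shape d j hj]
    rfl

end HEp
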