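import Pool.Agent.Lib.MP_181146_gt.HE.SpecS

/-! Project HE: the natural map `(nab ⊗ nab) ∘ mid ∘ (dl ⊗ dl)`. -/

set_option autoImplicit false

namespace HEp

open scoped TensorProduct

private lemma psi_aug_od (k : Type) [CommRing k] (K : SS) (x : Ch k K) :
    aug k K (od k K x) = 0 := by
  have h : aug k K ∘ₗ od k K = 0 := ch_ext fun n x => by
    rw [LinearMap.comp_apply, LinearMap.zero_apply, od_sx]
    split_ifs with h
    · cases n with
      | zero => exact absurd h (by decide)
      | succ n => rw [aug_sx_succ]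
    · rw [map_zero]
  exact LinearMap.congr_fun h x

private lemma psi_map_map {k : Type} [CommRing k] {V V' V'' W W' W'' : Type} [AddCommMonoid V]
    [Module k V] [AddCommMonoid V'] [Module k V'] [AddCommMonoid V''] [Module k V'']
    [AddCommMonoid W] [Module k W] [AddCommMonoid W'] [Module k W'] [AddCommMonoid W'']
    [Module k W''] (f : V →ₗ[k] V') (f' : V' →ₗ[k] V'') (g : W →ₗ[k] W') (g' : W' →ₗ[k] W'')
    (z : V ⊗[k] W) : TensorProduct.map f' g' (TensorProduct.map f g z) =
      TensorProduct.map (f' ∘ₗ f) (g' ∘ₗ g) z := by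
  rw [TensorProduct.map_comp]
  rfl

private lemma psi_comp {k : Type} [CommRing k] {A B C : DG k} {f : A.V →ₗ[k] B.V}
    {g : B.V →ₗ[k] C.V} (hf : IsCM A B f) (hg : IsCM B C g) : IsCM A C (g ∘ₗ f) where
  d := fun x => by rw [LinearMap.comp_apply, hf.d, hg.d]; rfl
  P := fun x => by rw [LinearMap.comp_apply, hf.P, hg.P]; rfl

/-- The map. -/
private noncomputable def psi (k : Type) [CommRing k]
    (e : ∀ p q : ℕ, Ch ℤ ((De p).prod (De q))) (K L : SS) :
    Ch k K ⊗[k] Ch k L →ₗ[k] Ch k (K.prod L) ⊗[k] Ch k (K.prod L) :=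
  TensorProduct.map (nab k e K L) (nab k e K L) ∘ₗ
    (mid (chDG k K) (chDG k K) (chDG k L) (chDG k L) ∘ₗ TensorProduct.map (dl k K) (dl k L))

theorem sPsi (hNabD : S_NabD) (hNabG : S_NabG) (hNabN : S_NabN) (hNabU : S_NabU) (hDlG : S_DlG)
    (hTCM : S_TCM) (hMid : S_Mid) (hMidE : S_MidE) : S_Psi := by
  intro e he k _
  have hn : ∀ K L : SS, IsCM ((chDG k K).tens (chDG k L)) (chDG k (K.prod L)) (nab k e K L) :=
    fun K L => ⟨fun z => hNabD e he k K L z, fun z => (hNabG e he k K L).2 z⟩
  have hcm : ∀ K L : SS, IsCM ((chDG k K).tens (chDG k L))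
      ((chDG k (K.prod L)).tens (chDG k (K.prod L))) (psi k e K L) := fun K L =>
    psi_comp (psi_comp (hTCM k _ _ _ _ _ _ (hDlG k K).1 (hDlG k L).1) (hMid k _ _ _ _).1)
      (hTCM k _ _ _ _ _ _ (hn K L) (hn K L))
  refine ⟨⟨psi k e, fun K L z => (hcm K L).d z, ?_⟩, fun K L z => rfl, ?_⟩
  · intro K K' L L' φ ψ z
    have h1 : TensorProduct.map (dl k K') (dl k L') (TensorProduct.map (cmap k φ) (cmap k ψ) z) =
        TensorProduct.map (TensorProduct.map (cmap k φ) (cmap k φ))
          (TensorProduct.map (cmap k ψ) (cmap k ψ)) (TensorProduct.map (dl k K) (dl k L) z) := by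
      have e1 : dl k K' ∘ₗ cmap k φ = TensorProduct.map (cmap k φ) (cmap k φ) ∘ₗ dl k K :=
        LinearMap.ext fun x => ((hDlG k K).2.2.2 K' φ x).symm
      have e2 : dl k L' ∘ₗ cmap k ψ = TensorProduct.map (cmap k ψ) (cmap k ψ) ∘ₗ dl k L :=
        LinearMap.ext fun x => ((hDlG k L).2.2.2 L' ψ x).symm
      rw [psi_map_map, psi_map_map, e1, e2]
    have h2 := (hMid k (chDG k K) (chDG k K) (chDG k L) (chDG k L)).2 (chDG k K') (chDG k K')
      (chDG k L') (chDG k L') (cmap k φ) (cmap k φ) (cmap k ψ) (cmap k ψ)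
      (fun x => cmap_od k φ x) (fun x => cmap_od k ψ x) (TensorProduct.map (dl k K) (dl k L) z)
    have h3 : ∀ w : (Ch k K ⊗[k] Ch k L) ⊗[k] (Ch k K ⊗[k] Ch k L),
        TensorProduct.map (nab k e K' L') (nab k e K' L')
          (TensorProduct.map (TensorProduct.map (cmap k φ) (cmap k ψ))
            (TensorProduct.map (cmap k φ) (cmap k ψ)) w) =
        TensorProduct.map (cmap k (φ.prod ψ)) (cmap k (φ.prod ψ))
          (TensorProduct.map (nab k e K L) (nab k e K L) w) := by
      intro w
      have e1 : nab k e K' L' ∘ₗ TensorProduct.map (cmap k φ) (cmap k ψ) =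
          cmap k (φ.prod ψ) ∘ₗ nab k e K L := LinearMap.ext fun x => hNabN e k K K' L L' φ ψ x
      rw [psi_map_map, psi_map_map, e1]
    change TensorProduct.map (nab k e K' L') (nab k e K' L')
      (mid (chDG k K') (chDG k K') (chDG k L') (chDG k L')
        (TensorProduct.map (dl k K') (dl k L') (TensorProduct.map (cmap k φ) (cmap k ψ) z))) = _
    rw [h1]
    refine (congrArg _ h2.symm).trans ?_
    exact h3 _
  · intro K L z
    have h1 : aug k (K.prod L) ∘ₗ nab k e K L = augT (aug k K) (aug k L) :=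
      LinearMap.ext fun x => (hNabU e he k K L).2.2 x
    have h2 : ∀ w : (Ch k K ⊗[k] Ch k L) ⊗[k] (Ch k K ⊗[k] Ch k L),
        augT (aug k (K.prod L)) (aug k (K.prod L))
          (TensorProduct.map (nab k e K L) (nab k e K L) w) =
        augT (augT (aug k K) (aug k L)) (augT (aug k K) (aug k L)) w := by
      intro w
      change TensorProduct.lid k k (TensorProduct.map (aug k (K.prod L)) (aug k (K.prod L))
        (TensorProduct.map (nab k e K L) (nab k e K L) w)) =
        TensorProduct.lid k k (TensorProduct.map (augT (aug k K) (aug k L))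
          (augT (aug k K) (aug k L)) w)
      rw [psi_map_map, h1]
    have e1 : augT (aug k K) (aug k K) ∘ₗ dl k K = aug k K :=
      LinearMap.ext fun x => (hDlG k K).2.2.1 x
    have e2 : augT (aug k L) (aug k L) ∘ₗ dl k L = aug k L :=
      LinearMap.ext fun x => (hDlG k L).2.2.1 x
    have h3 : augT (augT (aug k K) (aug k K)) (augT (aug k L) (aug k L))
        (TensorProduct.map (dl k K) (dl k L) z) = augT (aug k K) (aug k L) z := by
      change TensorProduct.lid k k (TensorProduct.map (augT (aug k K) (aug k K))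
        (augT (aug k L) (aug k L)) (TensorProduct.map (dl k K) (dl k L) z)) =
        TensorProduct.lid k k (TensorProduct.map (aug k K) (aug k L) z)
      rw [psi_map_map, e1, e2]
    refine (h2 _).trans (Eq.trans ?_ h3)
    exact hMidE k (chDG k K) (chDG k K) (chDG k L) (chDG k L) (aug k K) (aug k K) (aug k L)
      (aug k L) (fun x => psi_aug_od k K x) _

end HEp
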