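import Pool.Agent.Lib.MP_181146_gt.HE.SpecG

/-!
# Project HE: quasi-isomorphisms modulo `p` and the cone
-/

set_option autoImplicit false

namespace HEp

private theorem QIC_cyc {R : Type} [CommRing R] (X : ZCx R) (p : ℕ) (i : ℤ) (x : X.P i)
    (z : X.P (i - 1)) (h : X.d i (i - 1) x = (p : ℤ) • z) : X.CycP p i x := by
  intro j
  by_cases hj : j + 1 = i
  · obtain rfl : j = i - 1 := by omega
    exact ⟨z, h⟩
  · refine ⟨0, ?_⟩
    rw [X.shape i j hj, smul_zero]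
    rfl

private theorem QIC_bdy {R : Type} [CommRing R] (X : ZCx R) (p : ℕ) (j : ℤ) (x : X.P (j - 1))
    (h : X.BdyP p (j - 1) x) :
    ∃ (y : X.P j) (z : X.P (j - 1)), x = X.d j (j - 1) y + (p : ℤ) • z := by
  obtain ⟨k, y, z, h1⟩ := h
  by_cases hk : j - 1 + 1 = k
  · obtain rfl : k = j := by omega
    exact ⟨y, z, h1⟩
  · refine ⟨0, z, ?_⟩
    rw [h1, X.shape k (j - 1) hk, map_zero]
    rfl

theorem sQIC : S_QIC := by
  intro R _ X Y F C e he p hF i c hc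
  obtain ⟨j, rfl⟩ : ∃ j, i = j - 1 := ⟨i + 1, by omega⟩
  obtain ⟨z, hz⟩ := hc (j - 1 - 1)
  have h1 := he (j - 1) c
  rw [hz, map_zsmul] at h1
  have hx : X.d (j - 1 - 1) (j - 1 - 1 - 1) (e (j - 1) c).1 = (p : ℤ) • -(e (j - 1 - 1) z).1 := by
    have h2 := congrArg Prod.fst h1
    rw [smul_neg, ← neg_eq_iff_eq_neg]
    exact h2.symm
  have hy : Y.d (j - 1) (j - 1 - 1) (e (j - 1) c).2 + F.f (j - 1 - 1) (e (j - 1) c).1 =
      (p : ℤ) • (e (j - 1 - 1) z).2 := by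
    have h2 := congrArg Prod.snd h1
    exact h2.symm
  have hb : Y.BdyP p (j - 1 - 1) (F.f (j - 1 - 1) (e (j - 1) c).1) := by
    refine ⟨j - 1, -(e (j - 1) c).2, (e (j - 1 - 1) z).2, ?_⟩
    rw [map_neg, ← hy]
    abel
  obtain ⟨x1, x2, hx12⟩ := QIC_bdy X p (j - 1) _
    (hF.1 (j - 1 - 1) _ (QIC_cyc X p _ _ _ hx) hb)
  have hcy : Y.d (j - 1) (j - 1 - 1) ((e (j - 1) c).2 + F.f (j - 1) x1) =
      (p : ℤ) • ((e (j - 1 - 1) z).2 - F.f (j - 1 - 1) x2) := by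
    rw [map_add, ← F.comm, smul_sub, ← hy, ← map_zsmul, hx12, map_add]
    abel
  obtain ⟨x3, hx3, hy3⟩ := hF.2 (j - 1) _ (QIC_cyc Y p _ _ _ hcy)
  obtain ⟨y3, y4, hy34⟩ := QIC_bdy Y p j _ hy3
  obtain ⟨x5, hx5⟩ := hx3 (j - 1 - 1)
  refine ⟨j, (e j).symm (-x1 + x3, y3), (e (j - 1)).symm (x2 + x5, y4), ?_⟩
  apply (e (j - 1)).injective
  rw [map_add, he, map_zsmul, LinearEquiv.apply_symm_apply, LinearEquiv.apply_symm_apply]
  refine Prod.ext ?_ ?_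
  · change (e (j - 1) c).1 = -(X.d (j - 1) (j - 1 - 1) (-x1 + x3)) + (p : ℤ) • (x2 + x5)
    rw [map_add, map_neg, hx5, smul_add, hx12]
    abel
  · change (e (j - 1) c).2 = Y.d j (j - 1) y3 + F.f (j - 1) (-x1 + x3) + (p : ℤ) • y4
    rw [map_add, map_neg]
    have h3 : (p : ℤ) • y4 = (e (j - 1) c).2 + F.f (j - 1) x1 - F.f (j - 1) x3 -
        Y.d j (j - 1) y3 := by
      rw [hy34]
      abel
    rw [h3]
    abel

end HEp
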