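import Pool.Agent.Lib.MP_181146_gt.HE.SpecG

set_option autoImplicit false

namespace HEp

/-- A projective module over the integral group ring is torsion free. -/
private theorem QIp_tf (G M : Type) [CommGroup G] [AddCommGroup M] [Module (ZG G) M]
    [hP : Module.Projective (ZG G) M] (m : ℤ) (hm : m ≠ 0) (x : M) (hx : m • x = 0) : x = 0 := by
  obtain ⟨s, hs⟩ := hP.out
  have hF : Module.Free ℤ (ZG G) := inferInstance
  have h1 : s x = 0 := by
    have h2 : m • s x = 0 := by rw [← map_zsmul, hx, map_zero]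
    refine Finsupp.ext fun i => ?_
    have h3 : m • (s x i) = 0 := by
      have h4 := DFunLike.congr_fun h2 i
      simpa using h4
    exact (smul_eq_zero.1 h3).resolve_left hm
  have h5 := hs x
  rw [h1, map_zero] at h5
  exact h5.symm

theorem sQIp (hKCone : S_KCone) (hKConeEx : S_KConeEx) (hQIC : S_QIC) (hDiv : S_Div) : S_QIp := by
  intro G _ _ X Y F hF
  obtain ⟨C, e, he, -⟩ := hKCone (ZG G) X Y F
  rw [hKConeEx (ZG G) X Y F C e he]
  intro i c hc
  have hfin1 : Module.Finite ℤ (ZG G) := inferInstance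
  have hfin : Module.Finite ℤ (C.P i) := Module.Finite.trans (ZG G) (C.P i)
  let Z : Submodule ℤ (C.P i) :=
    { carrier := {x | C.Cyc i x}
      add_mem' := fun {a b} ha hb j => by rw [map_add, ha j, hb j, add_zero]
      zero_mem' := fun j => map_zero _
      smul_mem' := fun m a ha j => by rw [map_zsmul, ha j, smul_zero] }
  have hmem : ∀ x : C.P i, x ∈ Z ↔ C.Cyc i x := fun x => Iff.rfl
  have hBdy : ∀ x : C.P i, C.Bdy i x → ∃ y : C.P (i + 1), C.d (i + 1) i y = x := by
    rintro x ⟨k, y, rfl⟩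
    by_cases hk : i + 1 = k
    · subst hk
      exact ⟨y, rfl⟩
    · exact ⟨0, by rw [C.shape k i hk, map_zero, LinearMap.zero_apply]⟩
  let B : AddSubgroup Z :=
    { carrier := {x | C.Bdy i x.1}
      add_mem' := by
        intro a b ha hb
        obtain ⟨y, hy⟩ := hBdy _ ha
        obtain ⟨y', hy'⟩ := hBdy _ hb
        exact ⟨i + 1, y + y', by rw [map_add, hy, hy']; rfl⟩
      zero_mem' := ⟨i + 1, 0, map_zero _⟩
      neg_mem' := by
        intro a ha
        obtain ⟨y, hy⟩ := hBdy _ ha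
        exact ⟨i + 1, -y, by rw [map_neg, hy]; rfl⟩ }
  have hB : B = ⊤ := by
    refine hDiv Z B ?_
    intro p hp z
    have h1 : C.CycP p i z.1 := fun j => ⟨0, by rw [z.2 j, smul_zero]⟩
    obtain ⟨k, y, w, hw⟩ := hQIC (ZG G) X Y F C e he p (hF p hp) i z.1 h1
    have hwc : C.Cyc i w := by
      intro j
      have h2 : C.d i j z.1 = 0 := z.2 j
      rw [hw, map_add, C.dd, zero_add, map_zsmul] at h2
      exact QIp_tf G (C.P j) (p : ℤ) (by exact_mod_cast hp.ne_zero) _ h2
    have hyc : C.Cyc i (C.d k i y) := fun j => C.dd k i j y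
    refine ⟨⟨C.d k i y, hyc⟩, ⟨k, y, rfl⟩, ⟨w, hwc⟩, ?_⟩
    exact Subtype.ext hw
  have h3 : (⟨c, hc⟩ : Z) ∈ B := by rw [hB]; trivial
  exact h3

end HEp
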