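import Pool.Agent.Lib.MP_181146_gt.HE.SpecG

/-!
# Project HE: the relation for a quotient `𝔽_p × 𝔽_p`
-/

set_option linter.unusedVariables false
set_option autoImplicit false

namespace HEp

private lemma qrel_fin (G : Type) (n : ℕ) [NeZero n] (ι : Type) [Finite ι] [CommGroup G]
    (ρ : ι → (G →* Multiplicative (ZMod n))) :
    Module.Finite ℤ (∀ l : ι, TF (ρ l) (Tv G ℤ)) ∧ Module.Free ℤ (∀ l : ι, TF (ρ l) (Tv G ℤ)) := by
  have e : (ι → ZMod n → ℤ) ≃ₗ[ℤ] (∀ l : ι, TF (ρ l) (Tv G ℤ)) :=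
    AddEquiv.toIntLinearEquiv (AddEquiv.refl (ι → ZMod n → ℤ))
  exact ⟨Module.Finite.equiv e, Module.Free.of_equiv e⟩

private lemma qrel_fin' (G : Type) (n : ℕ) [NeZero n] [CommGroup G]
    (ρ : G →* Multiplicative (ZMod n × ZMod n)) :
    Module.Finite ℤ (TF ρ (Tv G ℤ) × (ZMod n → Tv G ℤ)) ∧
      Module.Free ℤ (TF ρ (Tv G ℤ) × (ZMod n → Tv G ℤ)) := by
  have e : ((ZMod n × ZMod n → ℤ) × (ZMod n → ℤ)) ≃ₗ[ℤ] (TF ρ (Tv G ℤ) × (ZMod n → Tv G ℤ)) :=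
    AddEquiv.toIntLinearEquiv (AddEquiv.refl ((ZMod n × ZMod n → ℤ) × (ZMod n → ℤ)))
  exact ⟨Module.Finite.equiv e, Module.Free.of_equiv e⟩

theorem sQRel (hLat : S_Lat) (hDTchain : S_DTchain) (hDTadd : S_DTadd) (hDTTF : S_DTTF)
    (hDTfp : S_DTfp) (hTFfp : S_TFfp) (hKPi : S_KPi) : S_QRel := by
  intro G _ _ p hp π M _ _ _ _ _ _ _ _
  have hpr : p.Prime := hp.out
  have : NeZero p := ⟨hpr.ne_zero⟩
  obtain ⟨Λ, hΛ, hΛ2⟩ := hLat G p hpr π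
  obtain ⟨h1, h2⟩ := qrel_fin G p (Option (ZMod p)) (linG π)
  obtain ⟨h3, h4⟩ := qrel_fin' G p π
  obtain ⟨f1, p1⟩ := hDTfp G M (∀ l : Option (ZMod p), TF (linG π l) (Tv G ℤ))
  obtain ⟨f2, p2⟩ := hDTfp G M (TF π (Tv G ℤ) × (ZMod p → Tv G ℤ))
  have key := hDTchain G M (∀ l : Option (ZMod p), TF (linG π l) (Tv G ℤ))
    (TF π (Tv G ℤ) × (ZMod p → Tv G ℤ)) p 1 2 hpr (by
      intro g x
      funext l
      change MonoidAlgebra.of ℤ G (g ^ p ^ 1) • x l = x l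
      funext y
      rw [TF_of_smul, Tv_of_smul]
      have hq : linG π l (g ^ p ^ 1) = 1 := by
        rw [pow_one, map_pow]
        have hz : ∀ z : Multiplicative (ZMod p), z ^ p = 1 := by
          intro z
          apply Multiplicative.toAdd.injective
          rw [toAdd_pow, toAdd_one, nsmul_eq_mul, CharP.cast_eq_zero, zero_mul]
        exact hz _
      rw [hq, toAdd_one, sub_zero]) Λ hΛ (by
      intro x
      obtain ⟨y, hy⟩ := hΛ2 x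
      exact ⟨y, hy⟩)
  obtain ⟨hA, hB, ⟨eC⟩⟩ := hDTadd G M
  -- left-hand side
  obtain ⟨eL⟩ := hB (Option (ZMod p)) (fun l => TF (linG π l) (Tv G ℤ))
  have eT : ∀ l, DT G M (TF (linG π l) (Tv G ℤ)) ≃ₗ[ZG G] TF (linG π l) M := fun l =>
    (hDTTF G (ZMod p) (linG π l) M).some
  have eL' : DT G M (∀ l : Option (ZMod p), TF (linG π l) (Tv G ℤ)) ≃ₗ[ZG G]
      (∀ l : Option (ZMod p), TF (linG π l) M) := eL.trans (LinearEquiv.piCongrRight eT)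
  have cL : cl (ZG G) (DT G M (∀ l : Option (ZMod p), TF (linG π l) (Tv G ℤ))) =
      ∑ l : Option (ZMod p), cl (ZG G) (TF (linG π l) M) := by
    rw [← hKPi (ZG G) (Option (ZMod p)) (fun l => TF (linG π l) M)]
    exact cl_congr eL'
  -- right-hand side
  obtain ⟨eP⟩ := hA (TF π (Tv G ℤ)) (ZMod p → Tv G ℤ)
  obtain ⟨eZ⟩ := hB (ZMod p) (fun _ => Tv G ℤ)
  obtain ⟨eπ⟩ := hDTTF G (ZMod p × ZMod p) π M
  have eR : DT G M (TF π (Tv G ℤ) × (ZMod p → Tv G ℤ)) ≃ₗ[ZG G] (TF π M × (ZMod p → M)) :=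
    eP.trans (eπ.prodCongr (eZ.trans (LinearEquiv.piCongrRight fun _ => eC)))
  have cR : cl (ZG G) (DT G M (TF π (Tv G ℤ) × (ZMod p → Tv G ℤ))) =
      p • cl (ZG G) M + cl (ZG G) (TF π M) := by
    have hk : cl (ZG G) (ZMod p → M) = p • cl (ZG G) M := by
      rw [hKPi (ZG G) (ZMod p) (fun _ => M), Finset.sum_const, Finset.card_univ, ZMod.card]
    rw [add_comm, ← hk, ← cl_prod]
    exact cl_congr eR
  rw [← cL, ← cR]
  exact key.symm

end HEp
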