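import Pool.Agent.Lib.MP_181146_gt.HE.SpecG

/-!
# Project HE: restriction preserves finitely generated projective modules
-/

set_option autoImplicit false

namespace HEp

private theorem cfkey {H G : Type} [CommGroup H] [CommGroup G] (j : H →* G)
    (hj : Function.Injective j) [Fintype (G ⧸ j.range)] (F : G ⧸ j.range → ZG H)
    (q : G ⧸ j.range) (h : H) :
    (∑ q' : G ⧸ j.range, MonoidAlgebra.mapDomainRingHom ℤ j (F q') *
      MonoidAlgebra.single (Quotient.out q') 1 : ZG G).coeff (j h * Quotient.out q) =
      (F q).coeff h := by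
  rw [MonoidAlgebra.coeff_sum, Finsupp.finsetSum_apply, Finset.sum_eq_single q]
  · rw [MonoidAlgebra.coeff_mul_single_apply, mul_inv_cancel_right, mul_one,
      MonoidAlgebra.mapDomainRingHom_apply]
    exact Finsupp.mapDomain_apply hj _ _
  · intro q' _ hq
    rw [MonoidAlgebra.coeff_mul_single_apply, mul_one, MonoidAlgebra.mapDomainRingHom_apply]
    refine Finsupp.mapDomain_of_notMem_range _ _ ?_
    rintro ⟨h', hh'⟩
    apply hq
    have h1 : (Quotient.out q')⁻¹ * Quotient.out q ∈ j.range := by
      refine ⟨h⁻¹ * h', ?_⟩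
      rw [map_mul, hh', map_inv]
      rw [mul_assoc (j h), inv_mul_cancel_left, mul_comm]
    have h2 := QuotientGroup.eq.2 h1
    rw [QuotientGroup.out_eq', QuotientGroup.out_eq'] at h2
    exact h2
  · intro hq
    exact absurd (Finset.mem_univ q) hq

theorem sRSfp : S_RSfp := by
  intro H G _ _ _ j hj
  classical
  have hfree : ∃ k : ℕ, Nonempty (RS j (ZG G) ≃ₗ[ZG H] (Fin k → ZG H)) := by
    have : Finite (G ⧸ j.range) := inferInstance
    cases nonempty_fintype (G ⧸ j.range)
    let Φ : (G ⧸ j.range → ZG H) →ₗ[ZG H] RS j (ZG G) :=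
      { toFun := fun F => (∑ q' : G ⧸ j.range, MonoidAlgebra.mapDomainRingHom ℤ j (F q') *
          MonoidAlgebra.single (Quotient.out q') 1 : ZG G)
        map_add' := fun F F' => by
          change (∑ q' : G ⧸ j.range, MonoidAlgebra.mapDomainRingHom ℤ j (F q' + F' q') *
            MonoidAlgebra.single (Quotient.out q') 1 : ZG G) = (∑ q' : G ⧸ j.range,
              MonoidAlgebra.mapDomainRingHom ℤ j (F q') *
                MonoidAlgebra.single (Quotient.out q') 1 : ZG G) +
            (∑ q' : G ⧸ j.range, MonoidAlgebra.mapDomainRingHom ℤ j (F' q') *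
              MonoidAlgebra.single (Quotient.out q') 1 : ZG G)
          rw [← Finset.sum_add_distrib]
          exact Finset.sum_congr rfl fun q _ => by rw [map_add, add_mul]
        map_smul' := fun a F => by
          change (∑ q' : G ⧸ j.range, MonoidAlgebra.mapDomainRingHom ℤ j (a * F q') *
            MonoidAlgebra.single (Quotient.out q') 1 : ZG G) =
              MonoidAlgebra.mapDomainRingHom ℤ j a * (∑ q' : G ⧸ j.range,
              MonoidAlgebra.mapDomainRingHom ℤ j (F q') *
                MonoidAlgebra.single (Quotient.out q') 1 : ZG G)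
          rw [Finset.mul_sum]
          exact Finset.sum_congr rfl fun q _ => by rw [map_mul, mul_assoc] }
    have hinj : Function.Injective Φ := by
      rw [injective_iff_map_eq_zero]
      intro F hF
      funext q
      refine MonoidAlgebra.ext (Finsupp.ext fun h => ?_)
      rw [← cfkey j hj F q h]
      have h1 : (∑ q' : G ⧸ j.range, MonoidAlgebra.mapDomainRingHom ℤ j (F q') *
          MonoidAlgebra.single (Quotient.out q') 1 : ZG G) = 0 := hF
      rw [h1]
      rfl
    have hsurj : Function.Surjective Φ := by
      intro x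
      have hin : ∀ q : G ⧸ j.range, Function.Injective (fun h : H => j h * Quotient.out q) :=
        fun q h h' hh => hj (mul_right_cancel hh)
      refine ⟨fun q => .ofCoeff (Finsupp.comapDomain (fun h : H => j h * Quotient.out q)
        (show ZG G from x).coeff (hin q).injOn), ?_⟩
      refine MonoidAlgebra.ext (Finsupp.ext fun g => ?_)
      obtain ⟨⟨h', h'', hh⟩, h2⟩ := QuotientGroup.mk_out_eq_mul j.range g
      have h3 : g = j h''⁻¹ * Quotient.out (g : G ⧸ j.range) := by
        rw [h2, map_inv, hh, mul_comm g, inv_mul_cancel_left]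
      rw [h3]
      exact cfkey j hj _ _ _
    let e := LinearEquiv.ofBijective Φ ⟨hinj, hsurj⟩
    exact ⟨_, ⟨e.symm.trans (LinearEquiv.funCongrLeft (ZG H) (ZG H)
      (Fintype.equivFin (G ⧸ j.range)).symm)⟩⟩
  refine ⟨hfree, ?_⟩
  intro M _ _ _ _
  obtain ⟨k, ⟨e⟩⟩ := hfree
  have hf1 : Module.Finite (ZG H) (RS j (ZG G)) := Module.Finite.equiv e.symm
  have hp1 : Module.Projective (ZG H) (RS j (ZG G)) := Module.Projective.of_equiv e.symm
  obtain ⟨n, f, hf⟩ := Module.Finite.exists_fin' (ZG G) M
  obtain ⟨g, hg⟩ := Module.projective_lifting_property f LinearMap.id hf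
  let E : (Fin n → RS j (ZG G)) ≃ₗ[ZG H] RS j (Fin n → ZG G) :=
    { toFun := fun x => x
      invFun := fun x => x
      map_add' := fun _ _ => rfl
      map_smul' := fun _ _ => rfl
      left_inv := fun _ => rfl
      right_inv := fun _ => rfl }
  have hf2 : Module.Finite (ZG H) (RS j (Fin n → ZG G)) := Module.Finite.equiv E
  have hp2 : Module.Projective (ZG H) (RS j (Fin n → ZG G)) := Module.Projective.of_equiv E
  constructor
  · exact Module.Finite.of_surjective (RSmap j f) hf
  · refine Module.Projective.of_split (RSmap j g) (RSmap j f) ?_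
    refine LinearMap.ext fun x => ?_
    exact LinearMap.congr_fun hg x

end HEp
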