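import Pool.Agent.Lib.MP_181146_gt.HE.SpecG

/-!
# Project HE: the restriction homomorphism of the reduced projective class groups
-/

set_option autoImplicit false

namespace HEp

section

variable {H G : Type} [CommGroup H] [CommGroup G] (j : H →* G)

/-- a linear equivalence, restricted -/
private noncomputable def RSh_equiv {M N : Type} [AddCommGroup M] [Module (ZG G) M]
    [AddCommGroup N] [Module (ZG G) N] (e : M ≃ₗ[ZG G] N) : RS j M ≃ₗ[ZG H] RS j N :=
  { RSmap j e.toLinearMap with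
    invFun := fun y => e.symm y
    left_inv := fun x => e.symm_apply_apply x
    right_inv := fun y => e.apply_symm_apply y }

/-- the restriction of a product -/
private noncomputable def RSh_prodE (M N : Type) [AddCommGroup M] [Module (ZG G) M]
    [AddCommGroup N] [Module (ZG G) N] : RS j (M × N) ≃ₗ[ZG H] (RS j M × RS j N) where
  toFun x := x
  map_add' _ _ := rfl
  map_smul' _ _ := rfl
  invFun x := x
  left_inv _ := rfl
  right_inv _ := rfl

/-- the restriction of a power -/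
private noncomputable def RSh_piE (n : ℕ) (M : Type) [AddCommGroup M] [Module (ZG G) M] :
    RS j (Fin n → M) ≃ₗ[ZG H] (Fin n → RS j M) where
  toFun x := x
  map_add' _ _ := rfl
  map_smul' _ _ := rfl
  invFun x := x
  left_inv _ := rfl
  right_inv _ := rfl

variable (hfp : ∀ (M : Type) [AddCommGroup M] [Module (ZG G) M] [Module.Finite (ZG G) M]
  [Module.Projective (ZG G) M], Module.Finite (ZG H) (RS j M) ∧ Module.Projective (ZG H) (RS j M))

/-- the class of the restriction -/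
private noncomputable def RSh_F (A : FPr (ZG G)) : KT (ZG H) :=
  haveI := (hfp A.M).1
  haveI := (hfp A.M).2
  cl (ZG H) (RS j A.M)

private theorem RSh_F_congr (A B : FPr (ZG G)) (e : A.M ≃ₗ[ZG G] B.M) :
    RSh_F j hfp A = RSh_F j hfp B := by
  have := (hfp A.M).1
  have := (hfp A.M).2
  have := (hfp B.M).1
  have := (hfp B.M).2
  exact cl_congr (RSh_equiv j e)

private theorem RSh_F_prod (A B : FPr (ZG G)) :
    RSh_F j hfp ⟨A.M × B.M⟩ = RSh_F j hfp A + RSh_F j hfp B := by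
  have := (hfp A.M).1
  have := (hfp A.M).2
  have := (hfp B.M).1
  have := (hfp B.M).2
  have := (hfp (A.M × B.M)).1
  have := (hfp (A.M × B.M)).2
  have h1 : cl (ZG H) (RS j (A.M × B.M)) = cl (ZG H) (RS j A.M × RS j B.M) :=
    cl_congr (RSh_prodE j A.M B.M)
  rw [cl_prod] at h1
  exact h1

private theorem RSh_F_free (n k : ℕ) (e0 : RS j (ZG G) ≃ₗ[ZG H] (Fin k → ZG H)) :
    RSh_F j hfp ⟨Fin n → ZG G⟩ = 0 := by
  have := (hfp (Fin n → ZG G)).1
  have := (hfp (Fin n → ZG G)).2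
  have := (hfp (ZG G)).1
  have := (hfp (ZG G)).2
  have h1 : cl (ZG H) (RS j (Fin n → ZG G)) = cl (ZG H) (Fin n → RS j (ZG G)) :=
    cl_congr (RSh_piE j n (ZG G))
  have h2 : cl (ZG H) (RS j (ZG G)) = cl (ZG H) (Fin k → ZG H) := cl_congr e0
  rw [cl_pi_fin, h2, cl_free, smul_zero] at h1
  exact h1

private theorem RSh_F_wd (k : ℕ) (e0 : RS j (ZG G) ≃ₗ[ZG H] (Fin k → ZG H)) (A B : FPr (ZG G))
    (h : SIso (ZG G) A.M B.M) : RSh_F j hfp A = RSh_F j hfp B := by
  obtain ⟨a, b, ⟨e⟩⟩ := h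
  have h1 : RSh_F j hfp ⟨A.M × (Fin a → ZG G)⟩ = RSh_F j hfp ⟨B.M × (Fin b → ZG G)⟩ :=
    RSh_F_congr j hfp ⟨A.M × (Fin a → ZG G)⟩ ⟨B.M × (Fin b → ZG G)⟩ e
  have h2 := RSh_F_prod j hfp A ⟨Fin a → ZG G⟩
  have h3 := RSh_F_prod j hfp B ⟨Fin b → ZG G⟩
  rw [RSh_F_free j hfp a k e0, add_zero] at h2
  rw [RSh_F_free j hfp b k e0, add_zero] at h3
  rw [← h2, ← h3]
  exact h1

end

theorem sRSh (hRSfp : S_RSfp) : S_RSh := by
  intro H G _ _ _ j hj
  obtain ⟨⟨k, ⟨e0⟩⟩, hfp⟩ := hRSfp H G j hj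
  refine ⟨{ toFun := Quotient.lift (RSh_F j hfp) (fun A B h => RSh_F_wd j hfp k e0 A B h)
            map_zero' := ?_
            map_add' := ?_ }, ?_⟩
  · change RSh_F j hfp ⟨PUnit⟩ = 0
    have h1 := (hfp PUnit).1
    have h2 := (hfp PUnit).2
    have h3 : Subsingleton (RS j PUnit) := inferInstanceAs (Subsingleton PUnit)
    exact cl_subsingleton (RS j PUnit)
  · intro x y
    induction x using KT.ind with | _ A => ?_
    induction y using KT.ind with | _ B => ?_
    exact RSh_F_prod j hfp A B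
  · intro M _ _ _ _ _ _
    rfl

end HEp
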