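import Pool.Agent.Lib.MP_181146_gt.HE.SpecG

/-! Module RSx: restriction of complexes. -/

set_option autoImplicit false
set_option linter.unusedVariables false

namespace HEp

section

variable {H G : Type} [CommGroup H] [CommGroup G]

/-- the restricted complex -/
private noncomputable def RSx_res (j : H →* G) (X : ZCx (ZG G))
    (fi : ∀ i, Module.Finite (ZG H) (RS j (X.P i)))
    (pr : ∀ i, Module.Projective (ZG H) (RS j (X.P i))) : ZCx (ZG H) where
  P i := RS j (X.P i)
  ac i := inferInstance
  mo i := inferInstance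
  fi := fi
  pr := pr
  d i k := RSmap j (X.d i k)
  shape i k h := by
    rw [X.shape i k h]
    rfl
  dd i k l x := X.dd i k l x
  N := X.N
  bdd i h := X.bdd i h

/-- the dual of the restricted complex -/
private noncomputable def RSx_dual (j : H →* G) (X Y : ZCx (ZG G)) (m : ℤ) (D : IsDual X Y m)
    (fi : ∀ i, Module.Finite (ZG H) (RS j (X.P i)))
    (pr : ∀ i, Module.Projective (ZG H) (RS j (X.P i)))
    (fi' : ∀ i, Module.Finite (ZG H) (RS j (Y.P i)))
    (pr' : ∀ i, Module.Projective (ZG H) (RS j (Y.P i))) :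
    IsDual (RSx_res j X fi pr) (RSx_res j Y fi' pr') m where
  e i :=
    { toFun := fun y => D.e i y
      map_add' := fun y y' => (D.e i).map_add y y'
      map_smul' := fun a y => (D.e i).map_smul (MonoidAlgebra.mapDomainRingHom ℤ j a) y
      invFun := fun f => (D.e i).symm f
      left_inv := fun y => (D.e i).symm_apply_apply y
      right_inv := fun f => (D.e i).apply_symm_apply f }
  comm i k y := D.comm i k y

/-- the restricted chain map -/
private noncomputable def RSx_hom (j : H →* G) (X Y : ZCx (ZG G)) (F : ZHom X Y)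
    (fi : ∀ i, Module.Finite (ZG H) (RS j (X.P i)))
    (pr : ∀ i, Module.Projective (ZG H) (RS j (X.P i)))
    (fi' : ∀ i, Module.Finite (ZG H) (RS j (Y.P i)))
    (pr' : ∀ i, Module.Projective (ZG H) (RS j (Y.P i))) :
    ZHom (RSx_res j X fi pr) (RSx_res j Y fi' pr') where
  f i := RSmap j (M := X.P i) (N := Y.P i) (F.f i)
  comm i k x := F.comm i k x

end

theorem sRSx (hRSfp : S_RSfp) (hRSh : S_RSh) : S_RSx := by
  intro H G _ _ _ j hj X Y m D F
  have hX := fun i => (hRSfp H G j hj).2 (X.P i)
  have hY := fun i => (hRSfp H G j hj).2 (Y.P i)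
  refine ⟨RSx_res j X (fun i => (hX i).1) (fun i => (hX i).2),
    RSx_res j Y (fun i => (hY i).1) (fun i => (hY i).2),
    RSx_dual j X Y m D _ _ _ _, RSx_hom j X Y F _ _ _ _, fun h => h, ?_, fun i h => h, ?_⟩
  · intro hN g
    obtain ⟨h, hh⟩ := hN (j g)
    refine ⟨fun i k => RSmap j (M := X.P i) (N := X.P k) (h i k), fun i x => ?_⟩
    have h1 := RS_of_smul j (X.P i) g x
    have h2 := hh i x
    refine Eq.trans h2 ?_
    exact congrArg (fun z : RS j (X.P i) => z - (show RS j (X.P i) from x)) h1.symm
  · intro r hr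
    unfold ZCx.EC
    rw [map_sum]
    refine Finset.sum_congr rfl fun i _ => ?_
    rw [map_zsmul]
    congr 1
    have := (hX i).1
    have := (hX i).2
    exact hr (X.P i)

end HEp
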