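import Pool.Agent.Lib.MP_181146_gt.HE.SpecS

/-!
# Project HE: homotopic maps and singular chains (module SHot, helper23)
-/

set_option autoImplicit false

namespace HEp

open Pool.Agent.Lib

section

variable (k : Type) [CommRing k] {E E' : Type} [TopologicalSpace E] [TopologicalSpace E']

/-- The singular chains of dimension `n` in the total module. -/
private noncomputable def inc (n : ℕ) : SingHom.SC k E n →ₗ[k] Ch k (Sing E) :=
  Finsupp.lmapDomain k k (fun σ => (⟨n, σ⟩ : Σ n, (Sing E).K n))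

private theorem inc_single {n : ℕ} (σ : C(SingHom.Sx n, E)) :
    inc k n (Finsupp.single σ 1) = sx k (K := Sing E) (n := n) σ := by
  rw [inc, Finsupp.lmapDomain_apply, Finsupp.mapDomain_single]
  rfl

private theorem bd_inc (n : ℕ) (c : SingHom.SC k E (n + 1)) :
    bd k (Sing E) (inc k (n + 1) c) = inc k n (SingHom.sbd k n c) := by
  have h : bd k (Sing E) ∘ₗ inc k (n + 1) = inc k n ∘ₗ SingHom.sbd k n := by
    apply SingHom.slin_ext
    intro σ
    rw [LinearMap.comp_apply, LinearMap.comp_apply, inc_single, bd_sx, SingHom.sbd_single,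
      SingHom.sbdv, map_sum]
    refine Finset.sum_congr rfl fun i _ => ?_
    rw [map_smul, inc_single]
    rfl
  exact LinearMap.congr_fun h c

private theorem cmap_inc (g : C(E, E')) (n : ℕ) (c : SingHom.SC k E n) :
    cmap k (SingMap g) (inc k n c) = inc k n (SingHom.smp k g n c) := by
  have h : cmap k (SingMap g) ∘ₗ inc k n = inc k n ∘ₗ SingHom.smp k g n := by
    apply SingHom.slin_ext
    intro σ
    rw [LinearMap.comp_apply, LinearMap.comp_apply, inc_single, cmap_sx, SingHom.smp_single,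
      inc_single]
    rfl
  exact LinearMap.congr_fun h c

/-- The total prism operator for the homotopy `G`. -/
private noncomputable def prT (G : C(E × SingHom.Sx 1, E')) (w₀ w₁ : SingHom.Sx 1) :
    Ch k (Sing E) →ₗ[k] Ch k (Sing E') :=
  Finsupp.linearCombination k (fun x : Σ n, (Sing E).K n =>
    inc k (x.1 + 1) (SingHom.smp k G (x.1 + 1) (SingHom.PP k w₀ w₁ x.1 (Finsupp.single x.2 1))))

private theorem prT_sx (G : C(E × SingHom.Sx 1, E')) (w₀ w₁ : SingHom.Sx 1) {n : ℕ}
    (σ : C(SingHom.Sx n, E)) : prT k G w₀ w₁ (sx k (K := Sing E) (n := n) σ) =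
      inc k (n + 1) (SingHom.smp k G (n + 1) (SingHom.PP k w₀ w₁ n (Finsupp.single σ 1))) := by
  rw [prT, sx, Finsupp.linearCombination_single, one_smul]

private theorem prT_inc (G : C(E × SingHom.Sx 1, E')) (w₀ w₁ : SingHom.Sx 1) (n : ℕ)
    (c : SingHom.SC k E n) : prT k G w₀ w₁ (inc k n c) =
      inc k (n + 1) (SingHom.smp k G (n + 1) (SingHom.PP k w₀ w₁ n c)) := by
  have h : prT k G w₀ w₁ ∘ₗ inc k n =
      inc k (n + 1) ∘ₗ SingHom.smp k G (n + 1) ∘ₗ SingHom.PP k w₀ w₁ n := by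
    apply SingHom.slin_ext
    intro σ
    rw [LinearMap.comp_apply, inc_single, prT_sx]
    rfl
  exact LinearMap.congr_fun h c

end

theorem sSHot : S_SHot := by
  intro k _ E E' _ _ f g hfg
  obtain ⟨F⟩ := hfg
  obtain ⟨G, hG⟩ : ∃ G : C(E × SingHom.Sx 1, E'),
      G = ⟨fun p => F (stdSimplexHomeomorphUnitInterval p.2, p.1), by fun_prop⟩ := ⟨_, rfl⟩
  obtain ⟨w₀, hw₀⟩ : ∃ w₀ : SingHom.Sx 1, w₀ = stdSimplexHomeomorphUnitInterval.symm 0 :=
    ⟨_, rfl⟩
  obtain ⟨w₁, hw₁⟩ : ∃ w₁ : SingHom.Sx 1, w₁ = stdSimplexHomeomorphUnitInterval.symm 1 :=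
    ⟨_, rfl⟩
  have e0 : G.comp (SingHom.at1 w₀) = f := by
    ext1 x
    rw [hG, hw₀]
    change F (stdSimplexHomeomorphUnitInterval (stdSimplexHomeomorphUnitInterval.symm 0), x) = f x
    rw [Homeomorph.apply_symm_apply]
    exact F.apply_zero x
  have e1 : G.comp (SingHom.at1 w₁) = g := by
    ext1 x
    rw [hG, hw₁]
    change F (stdSimplexHomeomorphUnitInterval (stdSimplexHomeomorphUnitInterval.symm 1), x) = g x
    rw [Homeomorph.apply_symm_apply]
    exact F.apply_one x
  refine ⟨prT k G w₀ w₁, fun x => ?_⟩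
  have key : cmap k (SingMap g) - cmap k (SingMap f) =
      bd k (Sing E') ∘ₗ prT k G w₀ w₁ + prT k G w₀ w₁ ∘ₗ bd k (Sing E) := by
    refine ch_ext fun n σ => ?_
    change cmap k (SingMap g) (sx k (K := Sing E) (n := n) σ) -
      cmap k (SingMap f) (sx k (K := Sing E) (n := n) σ) =
      bd k (Sing E') (prT k G w₀ w₁ (sx k (K := Sing E) (n := n) σ)) +
        prT k G w₀ w₁ (bd k (Sing E) (sx k (K := Sing E) (n := n) σ))
    cases n with
    | zero =>
      rw [bd_sx_zero, map_zero, add_zero]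
      rw [← inc_single k (n := 0) σ, cmap_inc, cmap_inc, prT_inc, bd_inc, SingHom.sbd_smp,
        SingHom.sbd_PP_zero, map_sub, ← SingHom.smp_comp, ← SingHom.smp_comp, e0, e1, map_sub]
    | succ n =>
      rw [← inc_single k (n := n + 1) σ, cmap_inc, cmap_inc, bd_inc, prT_inc, prT_inc, bd_inc,
        SingHom.sbd_smp, ← map_add, ← map_add, SingHom.sbd_PP, map_sub, ← SingHom.smp_comp,
        ← SingHom.smp_comp, e0, e1, map_sub]
  exact LinearMap.congr_fun key x

end HEp
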