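import Pool.Agent.Lib.MP_181146_gt.HE.SpecS

/-! # Project HE: SUn, the units of the multiplication up to homology. -/

set_option autoImplicit false

namespace HEp

open scoped TensorProduct

private theorem sun_id (k : Type) [CommRing k] {E : Type} [TopologicalSpace E]
    (x : Ch k (Sing E)) : cmap k (SingMap (ContinuousMap.id E)) x = x := by
  have h : cmap k (SingMap (ContinuousMap.id E)) = LinearMap.id := ch_ext fun n y => by
    rw [cmap_sx]
    change sx k (K := Sing E) (n := n) ((ContinuousMap.id E).comp y) = sx k y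
    rw [ContinuousMap.id_comp]
  exact LinearMap.congr_fun h x

private theorem sun_left (k : Type) [CommRing k] {E : Type} [TopologicalSpace E] (v : E)
    (m : C(E × E, E)) (x : Ch k (Sing E)) :
    cmap k (SingMul m) (cmap k (SSHom.pair (SSHom.cst (Sing E) (vtx v)) (SSHom.id (Sing E))) x) =
      cmap k (SingMap (m.comp (ContinuousMap.prodMk (ContinuousMap.const E v)
        (ContinuousMap.id E)))) x := by
  have h : cmap k (SingMul m) ∘ₗ
      cmap k (SSHom.pair (SSHom.cst (Sing E) (vtx v)) (SSHom.id (Sing E))) =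
      cmap k (SingMap (m.comp (ContinuousMap.prodMk (ContinuousMap.const E v)
        (ContinuousMap.id E)))) := ch_ext fun n y => by
    rw [LinearMap.comp_apply, cmap_sx, cmap_sx, cmap_sx]
    rfl
  exact LinearMap.congr_fun h x

private theorem sun_right (k : Type) [CommRing k] {E : Type} [TopologicalSpace E] (v : E)
    (m : C(E × E, E)) (x : Ch k (Sing E)) :
    cmap k (SingMul m) (cmap k (SSHom.pair (SSHom.id (Sing E)) (SSHom.cst (Sing E) (vtx v))) x) =
      cmap k (SingMap (m.comp (ContinuousMap.prodMk (ContinuousMap.id E)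
        (ContinuousMap.const E v)))) x := by
  have h : cmap k (SingMul m) ∘ₗ
      cmap k (SSHom.pair (SSHom.id (Sing E)) (SSHom.cst (Sing E) (vtx v))) =
      cmap k (SingMap (m.comp (ContinuousMap.prodMk (ContinuousMap.id E)
        (ContinuousMap.const E v)))) := ch_ext fun n y => by
    rw [LinearMap.comp_apply, cmap_sx, cmap_sx, cmap_sx]
    rfl
  exact LinearMap.congr_fun h x

private theorem sun_hot (hSHot : S_SHot) (k : Type) [CommRing k] {E : Type} [TopologicalSpace E]
    (g : C(E, E)) (hg : (ContinuousMap.id E).Homotopic g) (x : Ch k (Sing E))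
    (hx : bd k (Sing E) x = 0) : ∃ y, cmap k (SingMap g) x - x = bd k (Sing E) y := by
  obtain ⟨h, hh⟩ := hSHot k E E (ContinuousMap.id E) g hg
  refine ⟨h x, ?_⟩
  have h1 : cmap k (SingMap g) x - cmap k (SingMap (ContinuousMap.id E)) x =
      bd k (Sing E) (h x) + h (bd k (Sing E) x) := hh x
  rw [sun_id, hx, map_zero, add_zero] at h1
  exact h1

theorem sSUn (hSHot : S_SHot) (hNabU : S_NabU) : S_SUn := by
  intro k _ e he E _ v m hA hB
  obtain ⟨n1, n2, -⟩ := hNabU e he k (Sing E) (Sing E)
  constructor
  · intro x hx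
    obtain ⟨y, hy⟩ := sun_hot hSHot k _ hB x hx
    refine ⟨y, ?_⟩
    rw [← hy, mu, LinearMap.comp_apply, n2, sun_left]
  · intro x hx
    obtain ⟨y, hy⟩ := sun_hot hSHot k _ hA x hx
    refine ⟨y, ?_⟩
    rw [← hy, mu, LinearMap.comp_apply, n1, sun_right]

end HEp
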