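import Pool.Agent.Lib.MP_181146_gt.HE.SpecS

set_option autoImplicit false

namespace HEp

private lemma SplG_inv {k : Type} [Field k] {V W : Type} [AddCommGroup V] [Module k V]
    [AddCommGroup W] [Module k W] (d : V →ₗ[k] W) :
    ∃ σ : W →ₗ[k] V, ∀ x, d (σ (d x)) = d x := by
  obtain ⟨g, hg⟩ := LinearMap.exists_rightInverse_of_surjective d.rangeRestrict
    (LinearMap.range_rangeRestrict d)
  obtain ⟨σ, hσ⟩ := LinearMap.exists_extend g
  refine ⟨σ, fun x => ?_⟩
  have h1 : σ (d x) = g ⟨d x, x, rfl⟩ := LinearMap.congr_fun hσ ⟨d x, x, rfl⟩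
  have h2 : d.rangeRestrict (g ⟨d x, x, rfl⟩) = ⟨d x, x, rfl⟩ :=
    LinearMap.congr_fun hg ⟨d x, x, rfl⟩
  rw [h1]
  exact congrArg Subtype.val h2

theorem sSplG : S_SplG := by
  intro k _ V _ _ d dd
  choose σ hσ using fun n => SplG_inv (d n)
  let e : ∀ n, V n →ₗ[k] V n := fun n => Nat.casesOn n (0 : V 0 →ₗ[k] V 0) (fun n => σ n ∘ₗ d n)
  have e0 : ∀ x, e 0 x = 0 := fun x => rfl
  have es : ∀ n x, e (n + 1) x = σ n (d n x) := fun n x => rfl
  have ed : ∀ n x, e n (d n x) = 0 := by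
    intro n x
    cases n with
    | zero => rfl
    | succ n => rw [es, dd, map_zero]
  have de : ∀ n x, d n (e (n + 1) x) = d n x := fun n x => by rw [es, hσ]
  have ee : ∀ n x, e n (e n x) = e n x := by
    intro n x
    cases n with
    | zero => rfl
    | succ n => rw [es, es, hσ]
  let q : ∀ n, V n →ₗ[k] V n := fun n => d n ∘ₗ σ n ∘ₗ (LinearMap.id - e n)
  have hq : ∀ n x, q n x = d n (σ n (x - e n x)) := fun n x => rfl
  have qd : ∀ n x, q n (d n x) = d n x := fun n x => by rw [hq, ed, sub_zero, hσ]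
  have qe : ∀ n x, q n (e n x) = 0 := fun n x => by rw [hq, ee, sub_self, map_zero, map_zero]
  have dq : ∀ n x, d n (q (n + 1) x) = 0 := fun n x => by rw [hq, dd]
  have qq : ∀ n x, q n (q n x) = q n x := fun n x => by rw [hq n x, qd]
  have eq' : ∀ n x, e n (q n x) = 0 := fun n x => by rw [hq, ed]
  have dσq : ∀ n x, d n (σ n (q n x)) = q n x := fun n x => by rw [hq, hσ]
  let π : ∀ n, V n →ₗ[k] V n := fun n => LinearMap.id - e n - q n
  have hπ : ∀ n x, π n x = x - e n x - q n x := fun n x => rfl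
  have ππ : ∀ n x, π n (π n x) = π n x := by
    intro n x
    rw [hπ n (π n x), hπ n x, map_sub, map_sub, map_sub, map_sub, ee, eq', qe, qq]
    abel
  refine ⟨fun n => LinearMap.range (π n), fun n => inferInstance, fun n => inferInstance,
    fun n => (LinearMap.range (π n)).subtype, fun n => (π n).rangeRestrict,
    fun n => σ n ∘ₗ q n, ?_, ?_, ?_, ?_, ?_⟩
  · rintro n ⟨x, y, rfl⟩
    change d n (π (n + 1) y) = 0
    rw [hπ, map_sub, map_sub, de, dq, sub_self, sub_zero]
  · intro n x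
    apply Subtype.ext
    change π n (d n x) = 0
    rw [hπ, ed, qd, sub_zero, sub_self]
  · rintro n ⟨x, y, rfl⟩
    apply Subtype.ext
    exact ππ n y
  · intro x
    change d 0 (σ 0 (q 0 x)) = x - π 0 x
    rw [dσq, hπ, e0]
    abel
  · intro n x
    change d (n + 1) (σ (n + 1) (q (n + 1) x)) + σ n (q n (d n x)) = x - π (n + 1) x
    rw [dσq, qd, hπ, es]
    abel

end HEp
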