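import Pool.Agent.Lib.MP_181146_gt.HE.SpecS

/-!
# Project HE, SplT: the splitting of the total module of chains over a field
-/

set_option autoImplicit false

namespace HEp

section SplTaux

variable (k : Type) [Field k] (K : SS)

/-- The inclusion of the chains of dimension `n`. -/
private noncomputable def SplT_inc (n : ℕ) : (K.K n →₀ k) →ₗ[k] Ch k K :=
  Finsupp.lmapDomain k k (Sigma.mk n)

private lemma SplT_inc_single (n : ℕ) (x : K.K n) :
    SplT_inc k K n (Finsupp.single x 1) = sx k x := by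
  rw [SplT_inc, Finsupp.lmapDomain_apply, Finsupp.mapDomain_single]
  rfl

private lemma SplT_inc_inj (n : ℕ) : Function.Injective (SplT_inc k K n) := by
  intro v w h
  exact Finsupp.mapDomain_injective sigma_mk_injective h

/-- Linear maps which agree on all chains of a fixed dimension agree. -/
private lemma SplT_ext {M : Type} [AddCommGroup M] [Module k M] {f g : Ch k K →ₗ[k] M}
    (h : ∀ (n : ℕ) (v : K.K n →₀ k), f (SplT_inc k K n v) = g (SplT_inc k K n v)) (x : Ch k K) :
    f x = g x := by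
  have : f = g := ch_ext fun n x => by
    rw [← SplT_inc_single]
    exact h n _
  rw [this]

/-- The boundary in a fixed dimension. -/
private noncomputable def SplT_d (n : ℕ) : (K.K (n + 1) →₀ k) →ₗ[k] (K.K n →₀ k) :=
  Finsupp.linearCombination k (fun x => ∑ i : Fin (n + 2),
    (-1 : k) ^ (i : ℕ) • Finsupp.single (K.act i.succAbove x) 1)

private lemma SplT_bd_zero (v : K.K 0 →₀ k) : bd k K (SplT_inc k K 0 v) = 0 := by
  have h : bd k K ∘ₗ SplT_inc k K 0 = 0 := by
    apply Finsupp.lhom_ext'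
    intro x
    apply LinearMap.ext_ring
    change bd k K (SplT_inc k K 0 (Finsupp.single x 1)) = 0
    rw [SplT_inc_single, bd_sx_zero]
  exact LinearMap.congr_fun h v

private lemma SplT_bd_succ (n : ℕ) (v : K.K (n + 1) →₀ k) :
    bd k K (SplT_inc k K (n + 1) v) = SplT_inc k K n (SplT_d k K n v) := by
  have h : bd k K ∘ₗ SplT_inc k K (n + 1) = SplT_inc k K n ∘ₗ SplT_d k K n := by
    apply Finsupp.lhom_ext'
    intro x
    apply LinearMap.ext_ring
    change bd k K (SplT_inc k K (n + 1) (Finsupp.single x 1)) =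
      SplT_inc k K n (SplT_d k K n (Finsupp.single x 1))
    rw [SplT_inc_single, bd_sx, SplT_d, Finsupp.linearCombination_single, one_smul, map_sum]
    refine Finset.sum_congr rfl fun i _ => ?_
    rw [map_smul, SplT_inc_single]
  exact LinearMap.congr_fun h v

private lemma SplT_od (n : ℕ) (v : K.K n →₀ k) :
    od k K (SplT_inc k K n v) = if Odd n then SplT_inc k K n v else 0 := by
  by_cases hn : Odd n
  · rw [if_pos hn]
    have h : od k K ∘ₗ SplT_inc k K n = SplT_inc k K n := by
      apply Finsupp.lhom_ext'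
      intro x
      apply LinearMap.ext_ring
      change od k K (SplT_inc k K n (Finsupp.single x 1)) = SplT_inc k K n (Finsupp.single x 1)
      rw [SplT_inc_single, od_sx, if_pos hn]
    exact LinearMap.congr_fun h v
  · rw [if_neg hn]
    have h : od k K ∘ₗ SplT_inc k K n = 0 := by
      apply Finsupp.lhom_ext'
      intro x
      apply LinearMap.ext_ring
      change od k K (SplT_inc k K n (Finsupp.single x 1)) = 0
      rw [SplT_inc_single, od_sx, if_neg hn]
    exact LinearMap.congr_fun h v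

private lemma SplT_dd (n : ℕ) (v : K.K (n + 2) →₀ k) :
    SplT_d k K n (SplT_d k K (n + 1) v) = 0 := by
  apply SplT_inc_inj k K n
  rw [map_zero, ← SplT_bd_succ, ← SplT_bd_succ, bd_bd]

/-- A linear map on all chains, given in every dimension. -/
private noncomputable def SplT_ext' {M : Type} [AddCommGroup M] [Module k M]
    (f : ∀ n, (K.K n →₀ k) →ₗ[k] M) : Ch k K →ₗ[k] M :=
  Finsupp.linearCombination k (fun x => f x.1 (Finsupp.single x.2 1))

private lemma SplT_ext'_inc {M : Type} [AddCommGroup M] [Module k M]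
    (f : ∀ n, (K.K n →₀ k) →ₗ[k] M) (n : ℕ) (v : K.K n →₀ k) :
    SplT_ext' k K f (SplT_inc k K n v) = f n v := by
  have h : SplT_ext' k K f ∘ₗ SplT_inc k K n = f n := by
    apply Finsupp.lhom_ext'
    intro x
    apply LinearMap.ext_ring
    change SplT_ext' k K f (SplT_inc k K n (Finsupp.single x 1)) = f n (Finsupp.single x 1)
    rw [SplT_inc_single, SplT_ext', sx, Finsupp.linearCombination_single, one_smul]
  exact LinearMap.congr_fun h v

private lemma SplT_inc_mem (n : ℕ) (v : K.K n →₀ k) : SplT_inc k K n v ∈ gr k K n := by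
  classical
  rw [gr, Finsupp.mem_supported]
  intro x hx
  have h := Finsupp.mapDomain_support (Finset.mem_coe.1 hx)
  rw [Finset.mem_image] at h
  obtain ⟨y, _, rfl⟩ := h
  rfl

private lemma SplT_gr (n : ℕ) (x : Ch k K) (hx : x ∈ gr k K n) :
    ∃ v, x = SplT_inc k K n v := by
  have h : gr k K n ≤ LinearMap.range (SplT_inc k K n) := by
    rw [gr, Finsupp.supported_eq_span_single, Submodule.span_le]
    rintro _ ⟨⟨m, y⟩, hy, rfl⟩
    change m = n at hy
    subst hy
    exact ⟨Finsupp.single y 1, SplT_inc_single k K m y⟩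
  obtain ⟨v, hv⟩ := h hx
  exact ⟨v, hv.symm⟩

end SplTaux

theorem sSplT (hSplG : S_SplG) : S_SplT := by
  intro k _ K
  obtain ⟨H, _, _, i, r, s, hdi, hrd, hri, h0, hs⟩ :=
    hSplG k (fun n => K.K n →₀ k) (SplT_d k K) (SplT_dd k K)
  obtain ⟨I, hI⟩ : ∃ I : (DirectSum ℕ H) →ₗ[k] Ch k K,
      ∀ n x, I (DirectSum.lof k ℕ H n x) = SplT_inc k K n (i n x) :=
    ⟨DirectSum.toModule k ℕ (Ch k K) (fun n => SplT_inc k K n ∘ₗ i n),
      fun n x => DirectSum.toModule_lof k n x⟩
  obtain ⟨R, hR⟩ : ∃ R : Ch k K →ₗ[k] (DirectSum ℕ H),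
      ∀ n v, R (SplT_inc k K n v) = DirectSum.lof k ℕ H n (r n v) :=
    ⟨SplT_ext' k K (fun n => DirectSum.lof k ℕ H n ∘ₗ r n),
      fun n v => SplT_ext'_inc k K (fun n => DirectSum.lof k ℕ H n ∘ₗ r n) n v⟩
  obtain ⟨T, hT⟩ : ∃ T : Ch k K →ₗ[k] Ch k K,
      ∀ n v, T (SplT_inc k K n v) = SplT_inc k K (n + 1) (s n v) :=
    ⟨SplT_ext' k K (fun n => SplT_inc k K (n + 1) ∘ₗ s n),
      fun n v => SplT_ext'_inc k K (fun n => SplT_inc k K (n + 1) ∘ₗ s n) n v⟩
  obtain ⟨P, hP⟩ : ∃ P : (DirectSum ℕ H) →ₗ[k] (DirectSum ℕ H),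
      ∀ n x, P (DirectSum.lof k ℕ H n x) = if Odd n then DirectSum.lof k ℕ H n x else 0 := by
    refine ⟨DirectSum.toModule k ℕ _ (fun n => if Odd n then DirectSum.lof k ℕ H n else 0),
      fun n x => (DirectSum.toModule_lof k n x).trans ?_⟩
    split_ifs <;> rfl
  have ext : ∀ {M : Type} [AddCommGroup M] [Module k M] {f g : (DirectSum ℕ H) →ₗ[k] M}
      (_ : ∀ n x, f (DirectSum.lof k ℕ H n x) = g (DirectSum.lof k ℕ H n x)) (x : DirectSum ℕ H),
      f x = g x := by
    intro M _ _ f g h x
    have : f = g := DirectSum.linearMap_ext k fun n => LinearMap.ext fun x => h n x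
    rw [this]
  have hdi' : ∀ x, bd k K (I x) = 0 := by
    intro x
    refine ext (f := bd k K ∘ₗ I) (g := 0) (fun n x => ?_) x
    rw [LinearMap.comp_apply, hI, LinearMap.zero_apply]
    cases n with
    | zero => exact SplT_bd_zero k K _
    | succ n => rw [SplT_bd_succ, hdi, map_zero]
  have hrd' : ∀ x, R (bd k K x) = 0 := by
    intro x
    refine SplT_ext k K (f := R ∘ₗ bd k K) (g := 0) (fun n v => ?_) x
    rw [LinearMap.comp_apply, LinearMap.zero_apply]
    cases n with
    | zero => rw [SplT_bd_zero, map_zero]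
    | succ n => rw [SplT_bd_succ, hR, hrd, map_zero]
  have hri' : ∀ x, R (I x) = x := by
    intro x
    refine ext (f := R ∘ₗ I) (g := LinearMap.id) (fun n x => ?_) x
    rw [LinearMap.comp_apply, hI, hR, hri, LinearMap.id_apply]
  have hrel' : ∀ x, bd k K (T x) + T (bd k K x) = x - I (R x) := by
    intro x
    refine SplT_ext k K (f := bd k K ∘ₗ T + T ∘ₗ bd k K) (g := LinearMap.id - I ∘ₗ R)
      (fun n v => ?_) x
    rw [LinearMap.add_apply, LinearMap.comp_apply, LinearMap.comp_apply, LinearMap.sub_apply,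
      LinearMap.comp_apply, LinearMap.id_apply, hT, hR, hI, SplT_bd_succ]
    cases n with
    | zero => rw [SplT_bd_zero, map_zero, add_zero, h0, map_sub]
    | succ n => rw [SplT_bd_succ, hT, ← map_add, hs, map_sub]
  have hPs' : ∀ x, od k K (T x) = T (x - od k K x) := by
    intro x
    refine SplT_ext k K (f := od k K ∘ₗ T) (g := T ∘ₗ (LinearMap.id - od k K))
      (fun n v => ?_) x
    rw [LinearMap.comp_apply, LinearMap.comp_apply, LinearMap.sub_apply, LinearMap.id_apply,
      hT, SplT_od, SplT_od]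
    by_cases hn : Odd n
    · rw [if_pos hn, if_neg (by rw [Nat.odd_add_one, not_not]; exact hn), sub_self, map_zero]
    · rw [if_neg hn, if_pos (by rw [Nat.odd_add_one]; exact hn), sub_zero, hT]
  have hPi' : ∀ x, od k K (I x) = I (P x) := by
    intro x
    refine ext (f := od k K ∘ₗ I) (g := I ∘ₗ P) (fun n x => ?_) x
    rw [LinearMap.comp_apply, LinearMap.comp_apply, hI, hP, SplT_od]
    split_ifs
    · rw [hI]
    · rw [map_zero]
  have hrP' : ∀ x, R (od k K x) = P (R x) := by
    intro x
    refine SplT_ext k K (f := R ∘ₗ od k K) (g := P ∘ₗ R) (fun n v => ?_) x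
    rw [LinearMap.comp_apply, LinearMap.comp_apply, hR, hP, SplT_od]
    split_ifs
    · rw [hR]
    · rw [map_zero]
  refine ⟨{ H := DirectSum ℕ H, P := P, i := I, r := R, s := T,
            di := hdi', rd := hrd', ri := hri', rel := hrel', Ps := hPs', Pi := hPi',
            rP := hrP' },
    fun n => LinearMap.range (DirectSum.lof k ℕ H n), ?_, ?_, ?_, ?_, ?_⟩
  · rw [eq_top_iff]
    rintro x -
    induction x using DirectSum.induction_on with
    | zero => exact Submodule.zero_mem _
    | of n x => exact Submodule.mem_iSup_of_mem n ⟨x, rfl⟩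
    | add x y hx hy => exact Submodule.add_mem _ hx hy
  · rintro n _ ⟨x, rfl⟩
    exact hP n x
  · rintro n _ ⟨x, rfl⟩
    have h := SplT_inc_mem k K n (i n x)
    rw [← hI] at h
    exact h
  · intro n x hx
    obtain ⟨v, rfl⟩ := SplT_gr k K n x hx
    exact ⟨r n v, (hR n v).symm⟩
  · intro n x hx
    obtain ⟨v, rfl⟩ := SplT_gr k K n x hx
    have h := SplT_inc_mem k K (n + 1) (s n v)
    rw [← hT] at h
    exact h

end HEp
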