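import Pool.Agent.Lib.MP_181146_gt.HE.SpecS

/-!
# Project HE, the statement `S_TCM`: the tensor product of chain maps
-/

set_option autoImplicit false

namespace HEp

open scoped TensorProduct

theorem sTCM : S_TCM := by
  intro k _ A A' B B' f g hf hg
  have hs : ∀ x, f (A.sg x) = A'.sg (f x) := fun x => by
    rw [DG.sg_apply, DG.sg_apply, map_sub, map_smul, hf.P]
  constructor
  · intro x
    induction x using TensorProduct.induction_on with
    | zero => simp only [map_zero]
    | add x y hx hy => rw [map_add, map_add, hx, hy, map_add, map_add]
    | tmul a b =>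
      refine Eq.trans (congrArg _ (DG.tens_d A B a b)) ?_
      refine Eq.trans ?_ (congrArg _ (TensorProduct.map_tmul f g a b).symm)
      refine Eq.trans ?_ (DG.tens_d A' B' (f a) (g b)).symm
      rw [map_add, TensorProduct.map_tmul, TensorProduct.map_tmul, hf.d, hg.d, hs]
  · intro x
    induction x using TensorProduct.induction_on with
    | zero => simp only [map_zero]
    | add x y hx hy => rw [map_add, map_add, hx, hy, map_add, map_add]
    | tmul a b =>
      refine Eq.trans (congrArg _ (DG.tens_P A B a b)) ?_
      refine Eq.trans ?_ (congrArg _ (TensorProduct.map_tmul f g a b).symm)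
      refine Eq.trans ?_ (DG.tens_P A' B' (f a) (g b)).symm
      rw [map_sub, map_add, map_smul, TensorProduct.map_tmul, TensorProduct.map_tmul,
        TensorProduct.map_tmul, hf.P, hg.P]

end HEp
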