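import Pool.Agent.Lib.MP_181146_gt.HE.SpecS
import Pool.Agent.Lib.SingHom.Compare

/-!
# Project HE: the transfer data for a complex equivalent to the singular complex
-/

set_option autoImplicit false

namespace HEp

open Pool.Agent.Lib

section

variable {E : Type} [TopologicalSpace E]

/-- a simplex as a chain -/
private noncomputable def es {n : ℕ} (σ : (Sing E).K n) : SingHom.SC ℤ E n :=
  Finsupp.single (σ : C(SingHom.Sx n, E)) 1

private lemma es_ext {n : ℕ} {M : Type*} [AddCommGroup M] [Module ℤ M]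
    {f g : SingHom.SC ℤ E n →ₗ[ℤ] M} (h : ∀ σ : (Sing E).K n, f (es σ) = g (es σ)) : f = g :=
  SingHom.slin_ext ℤ h

private lemma sbd_es {n : ℕ} (σ : (Sing E).K (n + 1)) : SingHom.sbd ℤ n (es σ) =
    ∑ i : Fin (n + 2), (-1 : ℤ) ^ (i : ℕ) • es ((Sing E).act i.succAbove σ) :=
  SingHom.sbd_single ℤ (n := n) σ

private lemma smp_es (g : C(E, E)) {n : ℕ} (σ : (Sing E).K n) :
    SingHom.smp ℤ g n (es σ) = es ((SingMap g).f σ) :=
  SingHom.smp_single ℤ g (n := n) σ 1

/-- the inclusion of simplices -/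
private def ms (E : Type) [TopologicalSpace E] (n : ℕ) (σ : C(SingHom.Sx n, E)) :
    Σ n, (Sing E).K n := ⟨n, σ⟩

private lemma ms_inj (n : ℕ) : Function.Injective (ms E n) := by
  intro a b h
  exact eq_of_heq (Sigma.mk.inj h).2

/-- inclusion of the chains of dimension `n` -/
private noncomputable def inc (n : ℕ) : SingHom.SC ℤ E n →ₗ[ℤ] Ch ℤ (Sing E) :=
  Finsupp.lmapDomain ℤ ℤ (ms E n)

/-- component of dimension `n` -/
private noncomputable def prj (n : ℕ) : Ch ℤ (Sing E) →ₗ[ℤ] SingHom.SC ℤ E n :=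
  Finsupp.lcomapDomain (ms E n) (ms_inj n)

private lemma inc_es {n : ℕ} (σ : (Sing E).K n) : inc n (es σ) = sx ℤ σ := by
  rw [inc, Finsupp.lmapDomain_apply]
  exact Finsupp.mapDomain_single

private lemma prj_apply (n : ℕ) (c : Ch ℤ (Sing E)) (τ : C(SingHom.Sx n, E)) :
    prj n c τ = c (ms E n τ) := rfl

private lemma inc_apply (n : ℕ) (c : SingHom.SC ℤ E n) (τ : C(SingHom.Sx n, E)) :
    inc n c (ms E n τ) = c τ := by
  rw [inc, Finsupp.lmapDomain_apply]
  exact Finsupp.mapDomain_apply (ms_inj n) c τ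

private lemma prj_inc (n : ℕ) (c : SingHom.SC ℤ E n) : prj n (inc n c) = c := by
  apply Finsupp.ext
  intro τ
  rw [prj_apply, inc_apply]

private lemma es_mem {n : ℕ} (σ : (Sing E).K n) : inc n (es σ) ∈ gr ℤ (Sing E) n := by
  rw [inc_es]
  exact sx_mem_gr ℤ _

private lemma inc_mem (n : ℕ) (c : SingHom.SC ℤ E n) : inc n c ∈ gr ℤ (Sing E) n := by
  induction c using Finsupp.induction_linear with
  | zero =>
    rw [map_zero]
    exact zero_mem _
  | add f g hf hg =>
    rw [map_add]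
    exact add_mem hf hg
  | single σ r =>
    have h : (Finsupp.single σ r : SingHom.SC ℤ E n) = r • es (E := E) (n := n) σ :=
      (Finsupp.smul_single_one σ r).symm
    rw [h, map_smul]
    exact Submodule.smul_mem _ r (es_mem (n := n) σ)

private lemma gr_zero {n m : ℕ} (h : m ≠ n) {c : Ch ℤ (Sing E)} (hc : c ∈ gr ℤ (Sing E) n)
    (τ : (Sing E).K m) : c ⟨m, τ⟩ = 0 := by
  rw [gr, Finsupp.mem_supported'] at hc
  exact hc ⟨m, τ⟩ h

private lemma prj_ne {n m : ℕ} (h : m ≠ n) {c : Ch ℤ (Sing E)} (hc : c ∈ gr ℤ (Sing E) n) :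
    prj m c = 0 := by
  apply Finsupp.ext
  intro τ
  rw [prj_apply]
  exact gr_zero h hc τ

private lemma exists_inc {n : ℕ} {c : Ch ℤ (Sing E)} (hc : c ∈ gr ℤ (Sing E) n) :
    ∃ c' : SingHom.SC ℤ E n, c = inc n c' := by
  refine ⟨prj n c, ?_⟩
  apply Finsupp.ext
  rintro ⟨m, τ⟩
  by_cases h : m = n
  · subst h
    exact (inc_apply m (prj m c) τ).symm
  · rw [gr_zero h hc, gr_zero h (inc_mem n _)]

private lemma bd_inc_succ (n : ℕ) (c : SingHom.SC ℤ E (n + 1)) :
    bd ℤ (Sing E) (inc (n + 1) c) = inc n (SingHom.sbd ℤ n c) := by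
  have h : bd ℤ (Sing E) ∘ₗ inc (n + 1) = inc n ∘ₗ SingHom.sbd ℤ n :=
    es_ext fun σ => by
      rw [LinearMap.comp_apply, LinearMap.comp_apply, inc_es, bd_sx, sbd_es, map_sum]
      refine Finset.sum_congr rfl fun i _ => ?_
      rw [map_smul, inc_es]
  exact LinearMap.congr_fun h c

private lemma bd_inc_zero (c : SingHom.SC ℤ E 0) : bd ℤ (Sing E) (inc 0 c) = 0 := by
  have h : bd ℤ (Sing E) ∘ₗ inc 0 = 0 :=
    es_ext fun σ => by
      rw [LinearMap.comp_apply, inc_es, bd_sx_zero, LinearMap.zero_apply]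
  exact LinearMap.congr_fun h c

private lemma prj_bd (n : ℕ) (c : Ch ℤ (Sing E)) :
    prj n (bd ℤ (Sing E) c) = SingHom.sbd ℤ n (prj (n + 1) c) := by
  have h : prj n ∘ₗ bd ℤ (Sing E) = SingHom.sbd ℤ n ∘ₗ prj (n + 1) := ch_ext fun m σ => by
    rw [LinearMap.comp_apply, LinearMap.comp_apply, ← inc_es]
    cases m with
    | zero =>
      rw [bd_inc_zero, map_zero, prj_ne (Nat.succ_ne_zero n) (inc_mem 0 _), map_zero]
    | succ m =>
      rw [bd_inc_succ]
      by_cases hm : n = m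
      · subst hm
        rw [prj_inc, prj_inc]
      · rw [prj_ne hm (inc_mem m _), prj_ne (fun e => hm (Nat.succ.inj e)) (inc_mem (m + 1) _),
          map_zero]
  exact LinearMap.congr_fun h c

private lemma cmap_inc (g : C(E, E)) (n : ℕ) (c : SingHom.SC ℤ E n) :
    cmap ℤ (SingMap g) (inc n c) = inc n (SingHom.smp ℤ g n c) := by
  have h : cmap ℤ (SingMap g) ∘ₗ inc n = inc n ∘ₗ SingHom.smp ℤ g n :=
    es_ext fun σ => by
      rw [LinearMap.comp_apply, LinearMap.comp_apply, inc_es, cmap_sx, smp_es, inc_es]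
  exact LinearMap.congr_fun h c

private lemma prj_cmap (g : C(E, E)) (n : ℕ) (c : Ch ℤ (Sing E)) :
    prj n (cmap ℤ (SingMap g) c) = SingHom.smp ℤ g n (prj n c) := by
  have h : prj n ∘ₗ cmap ℤ (SingMap g) = SingHom.smp ℤ g n ∘ₗ prj n := ch_ext fun m σ => by
    rw [LinearMap.comp_apply, LinearMap.comp_apply, cmap_sx]
    by_cases hm : n = m
    · subst hm
      rw [← inc_es, ← inc_es, prj_inc, prj_inc, smp_es]
    · rw [prj_ne hm (sx_mem_gr ℤ _), prj_ne hm (sx_mem_gr ℤ _), map_zero]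
  exact LinearMap.congr_fun h c

/-! ### comparison with Mathlib's singular chains -/

private noncomputable def cm (n : ℕ) : SingHom.SC ℤ E n →ₗ[ℤ] (HSp.SC E).X n := SingHom.cmp ℤ n

private noncomputable def ci (n : ℕ) : (HSp.SC E).X n →ₗ[ℤ] SingHom.SC ℤ E n := SingHom.cmpInv ℤ n

private lemma ci_cm (n : ℕ) (c : SingHom.SC ℤ E n) : ci n (cm n c) = c := SingHom.cmpInv_cmp ℤ n c

private lemma cm_ci (n : ℕ) (c : (HSp.SC E).X n) : cm n (ci n c) = c := SingHom.cmp_cmpInv ℤ n c

private lemma cm_d (n : ℕ) (c : SingHom.SC ℤ E (n + 1)) :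
    ((HSp.SC E).d (n + 1) n).hom (cm (n + 1) c) = cm n (SingHom.sbd ℤ n c) := SingHom.cmp_d ℤ n c

private lemma ci_d (n : ℕ) (y : (HSp.SC E).X (n + 1)) :
    ci n (((HSp.SC E).d (n + 1) n).hom y) = SingHom.sbd ℤ n (ci (n + 1) y) := by
  conv_lhs => rw [← cm_ci (n + 1) y]
  rw [cm_d, ci_cm]

private lemma cm_map (g : C(E, E)) (n : ℕ) (c : SingHom.SC ℤ E n) :
    ((HSp.SCmap g).f n).hom (cm n c) = cm n (SingHom.smp ℤ g n c) := SingHom.cmp_map ℤ g n c

private lemma ci_map (g : C(E, E)) (n : ℕ) (y : (HSp.SC E).X n) :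
    ci n (((HSp.SCmap g).f n).hom y) = SingHom.smp ℤ g n (ci n y) := by
  conv_lhs => rw [← cm_ci n y]
  rw [cm_map, ci_cm]

/-- the homotopy on chains -/
private noncomputable def tt (b : ∀ i, (HSp.SC E).X i →+ (HSp.SC E).X (i + 1)) :
    Ch ℤ (Sing E) →ₗ[ℤ] Ch ℤ (Sing E) :=
  Finsupp.linearCombination ℤ (fun x : (Σ n, (Sing E).K n) =>
    inc (x.1 + 1) (ci (x.1 + 1) (b x.1 (cm x.1 (es x.2)))))

private noncomputable def bl (b : ∀ i, (HSp.SC E).X i →+ (HSp.SC E).X (i + 1)) (n : ℕ) :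
    (HSp.SC E).X n →ₗ[ℤ] (HSp.SC E).X (n + 1) where
  toFun := b n
  map_add' := map_add (b n)
  map_smul' := fun r x => by
    have := map_intCast_smul (b n) ℤ ℤ r x
    rw [Int.cast_id] at this
    exact this

private lemma tt_inc (b : ∀ i, (HSp.SC E).X i →+ (HSp.SC E).X (i + 1)) (n : ℕ)
    (c : SingHom.SC ℤ E n) : tt b (inc n c) = inc (n + 1) (ci (n + 1) (b n (cm n c))) := by
  have h : tt b ∘ₗ inc n = inc (n + 1) ∘ₗ ci (n + 1) ∘ₗ bl b n ∘ₗ cm n :=
    es_ext fun σ => by
      rw [LinearMap.comp_apply, inc_es, tt, sx, Finsupp.linearCombination_single, one_smul]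
      rfl
  exact LinearMap.congr_fun h c

end

section

variable {R : Type} [CommRing R] {P : ℕ → Type} [∀ i, AddCommGroup (P i)]
    [∀ i, Module R (P i)]

/-- the homotopy on the complex `P` -/
private noncomputable def hh (a : ∀ i, P i →+ P (i + 1)) : ∀ i j : ℤ, NX P i →+ NX P j
  | Int.ofNat n, Int.ofNat m => if e : n + 1 = m then e ▸ (a n) else 0
  | Int.ofNat _, Int.negSucc _ => 0
  | Int.negSucc _, _ => 0

private lemma hh_succ (a : ∀ i, P i →+ P (i + 1)) (n : ℕ) (x : P n) :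
    (hh a (Int.ofNat n) (Int.ofNat (n + 1)) x : P (n + 1)) = a n x := by
  have : hh a (Int.ofNat n) (Int.ofNat (n + 1)) = a n := dif_pos rfl
  exact congrArg (fun z : P n →+ P (n + 1) => z x) this

end

/-- **TEx.** -/
theorem sTEx : S_TEx := by
  intro E _ Γ G _ θ P _ _ fi pr d shape dd N bdd u u' a b ud u'd ha0 ha hb0 hb ug u'g
  let F : ∀ i : ℤ, NX P i →+ Ch ℤ (Sing E) := fun i => match i with
    | Int.ofNat n => ((inc n ∘ₗ ci n).toAddMonoidHom).comp (u n)
    | Int.negSucc _ => 0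
  let F' : ∀ i : ℤ, Ch ℤ (Sing E) →+ NX P i := fun i => match i with
    | Int.ofNat n => (u' n).comp ((cm n ∘ₗ prj n).toAddMonoidHom)
    | Int.negSucc _ => 0
  have kfd : ∀ (n : ℕ) (x : P (n + 1)), inc n (ci n (u n (d (n + 1) n x))) =
      bd ℤ (Sing E) (inc (n + 1) (ci (n + 1) (u (n + 1) x))) := by
    intro n x
    rw [bd_inc_succ, ← ci_d, ← ud]
  have kfd' : ∀ (n : ℕ) (c : Ch ℤ (Sing E)), u' n (cm n (prj n (bd ℤ (Sing E) c))) =
      d (n + 1) n (u' (n + 1) (cm (n + 1) (prj (n + 1) c))) := by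
    intro n c
    rw [prj_bd, ← cm_d, u'd]
  have kX : ∀ (n : ℕ) (x : P (n + 1)),
      u' (n + 1) (cm (n + 1) (prj (n + 1) (inc (n + 1) (ci (n + 1) (u (n + 1) x))))) - x =
        d (n + 2) (n + 1) (a (n + 1) x) + a n (d (n + 1) n x) := by
    intro n x
    rw [prj_inc, cm_ci]
    exact ha n x
  have kX0 : ∀ (x : P 0),
      u' 0 (cm 0 (prj 0 (inc 0 (ci 0 (u 0 x))))) - x = d 1 0 (a 0 x) + 0 := by
    intro x
    rw [prj_inc, cm_ci, add_zero]
    exact ha0 x
  have kg : ∀ (g : G) (n : ℕ) (x : P n), inc n (ci n (u n (MonoidAlgebra.of ℤ G g • x))) =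
      cmap ℤ (SingMap ((θ g).1 : C(E, E))) (inc n (ci n (u n x))) := by
    intro g n x
    rw [cmap_inc, ← ci_map, ug]
  have kg' : ∀ (g : G) (n : ℕ) (c : Ch ℤ (Sing E)),
      u' n (cm n (prj n (cmap ℤ (SingMap ((θ g).1 : C(E, E))) c))) =
        MonoidAlgebra.of ℤ G g • u' n (cm n (prj n c)) := by
    intro g n c
    rw [prj_cmap, ← cm_map, u'g]
  have kt : ∀ (n : ℕ) (c : SingHom.SC ℤ E n),
      inc n (ci n (u n (u' n (cm n c)))) - inc n c =
        bd ℤ (Sing E) (tt b (inc n c)) + tt b (bd ℤ (Sing E) (inc n c)) := by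
    intro n c
    have e : inc n (ci n (u n (u' n (cm n c)))) - inc n c =
        inc n (ci n (u n (u' n (cm n c)) - cm n c)) := by
      rw [map_sub, map_sub, ci_cm]
    rw [e, tt_inc, bd_inc_succ, ← ci_d]
    cases n with
    | zero =>
      rw [bd_inc_zero, map_zero, add_zero, hb0]
    | succ n =>
      rw [bd_inc_succ, tt_inc, ← cm_d, hb, map_add, map_add]
  refine ⟨{
    f := F
    f' := F'
    t := (tt b).toAddMonoidHom
    h := hh a
    f_gr := fun n x => inc_mem n _
    f'_gr := ?_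
    t_gr := ?_
    fd := ?_
    f'd := ?_
    hX := ?_
    ht := ?_
    fg := ?_
    f'g := ?_ }⟩
  · intro n i hi c hc
    cases i with
    | ofNat m =>
      change u' m (cm m (prj m c)) = 0
      have hm : m ≠ n := fun e => hi (by rw [e]; rfl)
      rw [prj_ne hm hc, map_zero, map_zero]
    | negSucc m => rfl
  · intro n c hc
    obtain ⟨c', rfl⟩ := exists_inc hc
    change tt b (inc n c') ∈ _
    rw [tt_inc]
    exact inc_mem _ _
  · -- fd
    have key : ∀ (k i : ℤ) (_ : k + 1 = i) (x : NX P i),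
        F k (NXd d i k x) = bd ℤ (Sing E) (F i x) := by
      intro k i hk x
      subst hk
      rcases k with n | m
      · exact kfd n x
      · cases m with
        | zero => exact (bd_inc_zero _).symm
        | succ m => exact (map_zero (bd ℤ (Sing E))).symm
    intro i x
    exact key (i - 1) i (by ring) x
  · -- f'd
    have key : ∀ (k i : ℤ) (_ : k + 1 = i) (c : Ch ℤ (Sing E)),
        F' k (bd ℤ (Sing E) c) = NXd d i k (F' i c) := by
      intro k i hk c
      subst hk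
      rcases k with n | m
      · exact kfd' n c
      · rfl
    intro i c
    exact key (i - 1) i (by ring) c
  · -- hX
    have key : ∀ (k i : ℤ) (_ : k + 1 = i) (x : NX P i),
        F' i (F i x) - x = NXd d (i + 1) i (hh a i (i + 1) x) + hh a k i (NXd d i k x) := by
      intro k i hk x
      subst hk
      rcases k with n | m
      · exact (kX n x).trans (congrArg₂ (· + ·)
          (congrArg (d (n + 2) (n + 1)) (hh_succ a (n + 1) x).symm)
          (hh_succ a n (d (n + 1) n x)).symm)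
      · cases m with
        | zero =>
          exact (kX0 x).trans (congrArg₂ (· + ·) (congrArg (d 1 0) (hh_succ a 0 x).symm) rfl)
        | succ m => rfl
    intro i x
    exact key (i - 1) i (by ring) x
  · -- ht
    intro n c hc
    obtain ⟨c', rfl⟩ := exists_inc hc
    change inc n (ci n (u n (u' n (cm n (prj n (inc n c')))))) - inc n c' =
      bd ℤ (Sing E) (tt b (inc n c')) + tt b (bd ℤ (Sing E) (inc n c'))
    rw [prj_inc]
    exact kt n c'
  · intro g i x
    cases i with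
    | ofNat n => exact kg g n x
    | negSucc m => exact (map_zero (cmap ℤ (SingMap ((θ g).1 : C(E, E))))).symm
  · intro g i c
    cases i with
    | ofNat n => exact kg' g n c
    | negSucc m => rfl

end HEp
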