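import Pool.Agent.Lib.MP_181146_gt.HE.SpecG

/-!
# Project HE, module TFfp: `TF ρ M` is finitely generated projective
-/

set_option autoImplicit false

namespace HEp

theorem sTFfp (hDTTF : S_DTTF) (hDTfp : S_DTfp) : S_TFfp := by
  intro G _ _ X _ _ ρ M _ _ _ _
  obtain ⟨e⟩ := hDTTF G X ρ M
  have h1 : Module.Finite ℤ (TF ρ (Tv G ℤ)) := inferInstanceAs (Module.Finite ℤ (X → ℤ))
  have h2 : Module.Free ℤ (TF ρ (Tv G ℤ)) := inferInstanceAs (Module.Free ℤ (X → ℤ))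
  obtain ⟨h3, h4⟩ := hDTfp G M (TF ρ (Tv G ℤ))
  exact ⟨Module.Finite.equiv e, Module.Projective.of_equiv e⟩

end HEp
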