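import Pool.Agent.Lib.MP_181146_gt.HE.SpecS

/-!
# TR: transfer of the multiplicative relation to the homology of a splitting (helper48)
-/

set_option autoImplicit false

namespace HEp

open scoped TensorProduct

/-- the homology of a splitting with zero differential -/
private noncomputable def TR_HD {k : Type} [CommRing k] {A : DG k} (S : Spl A) : DG k where
  V := S.H
  d := 0
  P := S.P
  dd := fun _ => rfl
  PP := fun x => by
    have h1 : S.i (S.P (S.P x)) = S.i (S.P x) := by
      rw [← S.Pi, ← S.Pi, A.PP]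
    have h2 := congrArg S.r h1
    rw [S.ri, S.ri] at h2
    exact h2
  Pd := fun x => by
    rw [LinearMap.zero_apply, LinearMap.zero_apply, map_zero]

private noncomputable def TR_HP {k : Type} [CommRing k] {A : DG k} (S : Spl A) : HP A (S.i ∘ₗ S.r) where
  cm := {
    d := fun x => by
      rw [LinearMap.comp_apply, LinearMap.comp_apply, S.rd, map_zero, S.di]
    P := fun x => by
      rw [LinearMap.comp_apply, LinearMap.comp_apply, S.rP, S.Pi] }
  s := S.s
  rel := S.rel
  odd := S.Ps

private theorem TR_i2 {k : Type} [CommRing k] {A : DG k} (S : Spl A) (z : S.H ⊗[k] S.H) :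
    (A.tens A).d (TensorProduct.map S.i S.i z) = 0 := by
  induction z using TensorProduct.induction_on with
  | zero => rw [map_zero, map_zero]
  | add x y hx hy => rw [map_add, map_add, hx, hy, add_zero]
  | tmul a b =>
    rw [TensorProduct.map_tmul, DG.tens_d, S.di, S.di, TensorProduct.zero_tmul,
      TensorProduct.tmul_zero, add_zero]

private theorem TR_r2 {k : Type} [CommRing k] {A : DG k} (S : Spl A) (y : A.V ⊗[k] A.V) :
    TensorProduct.map S.r S.r ((A.tens A).d y) = 0 := by
  induction y using TensorProduct.induction_on with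
  | zero => rw [map_zero, map_zero]
  | add x y hx hy => rw [map_add, map_add, hx, hy, add_zero]
  | tmul a b =>
    rw [DG.tens_d, map_add, TensorProduct.map_tmul, TensorProduct.map_tmul, S.rd, S.rd,
      TensorProduct.zero_tmul, TensorProduct.tmul_zero, add_zero]

theorem sTR (hHPT : S_HPT) (hMid : S_Mid) (hTCM : S_TCM) : S_TR := by
  intro k _ A S Δ μ hΔ hμ hh ΔH μH h1 h2 z
  obtain ⟨w, hw⟩ : ∃ w, w = TensorProduct.map S.i S.i z := ⟨_, rfl⟩
  have hwd : (A.tens A).d w = 0 := by rw [hw]; exact TR_i2 S z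
  have eΔ : ΔH = TensorProduct.map S.r S.r ∘ₗ Δ ∘ₗ S.i := LinearMap.ext h1
  have eμ : μH = S.r ∘ₗ μ ∘ₗ TensorProduct.map S.i S.i := LinearMap.ext h2
  -- step 1
  have s1 : ΔH (μH z) = TensorProduct.map S.r S.r (Δ (μ w)) := by
    have hc : A.d (μ w) = 0 := by rw [← hμ.d, hwd, map_zero]
    have hr := S.rel (μ w)
    rw [hc, map_zero, add_zero] at hr
    have hr2 : S.i (S.r (μ w)) = μ w - A.d (S.s (μ w)) := by rw [hr]; abel
    rw [h1, h2, ← hw, hr2, map_sub, map_sub, hΔ.d, TR_r2, sub_zero]
  -- step 2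
  have s2 : TensorProduct.map S.r S.r (Δ (μ w)) = TensorProduct.map S.r S.r
      (TensorProduct.map μ μ (exch A.P (TensorProduct.map Δ Δ w))) := by
    obtain ⟨h, hh⟩ := hh
    have h3 := hh w
    rw [hwd, map_zero, add_zero] at h3
    have h4 : Δ (μ w) = TensorProduct.map μ μ (exch A.P (TensorProduct.map Δ Δ w)) +
        (A.tens A).d (h w) := by
      rw [← h3]
      simp only [LinearMap.comp_apply]
      abel
    rw [h4, map_add, TR_r2, add_zero]
  -- step 3
  obtain ⟨x, hx⟩ : ∃ x, x = TensorProduct.map Δ Δ w := ⟨_, rfl⟩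
  have hcm := hTCM k A (A.tens A) A (A.tens A) Δ Δ hΔ hΔ
  have hxd : ((A.tens A).tens (A.tens A)).d x = 0 := by
    rw [hx]
    have h3 := hcm.d w
    rw [hwd, map_zero] at h3
    exact h3.symm
  have hmid := hMid k A A A A
  have hG : ∀ y, TensorProduct.map S.r S.r (TensorProduct.map μ μ
      (exch A.P (((A.tens A).tens (A.tens A)).d y))) = 0 := by
    intro y
    have e1 : exch A.P (((A.tens A).tens (A.tens A)).d y) =
        ((A.tens A).tens (A.tens A)).d (mid A A A A y) := hmid.1.d y
    have e2 := (hTCM k (A.tens A) A (A.tens A) A μ μ hμ hμ).d (mid A A A A y)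
    rw [e1]
    refine Eq.trans (congrArg _ e2) ?_
    exact TR_r2 S _
  obtain ⟨hp2⟩ := hHPT k A A _ _ (TR_HP S) (TR_HP S)
  obtain ⟨hp4⟩ := hHPT k (A.tens A) (A.tens A) _ _ hp2 hp2
  have s3 : TensorProduct.map S.r S.r (TensorProduct.map μ μ (exch A.P x)) =
      TensorProduct.map S.r S.r (TensorProduct.map μ μ (exch A.P
        (TensorProduct.map (TensorProduct.map (S.i ∘ₗ S.r) (S.i ∘ₗ S.r))
          (TensorProduct.map (S.i ∘ₗ S.r) (S.i ∘ₗ S.r)) x))) := by
    have h3 := hp4.rel x
    rw [hxd, map_zero, add_zero] at h3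
    have h4 : x = TensorProduct.map (TensorProduct.map (S.i ∘ₗ S.r) (S.i ∘ₗ S.r))
          (TensorProduct.map (S.i ∘ₗ S.r) (S.i ∘ₗ S.r)) x +
        ((A.tens A).tens (A.tens A)).d (hp4.s x) := by
      rw [h3]
      abel
    have h5 := hG (hp4.s x)
    conv_lhs => rw [h4]
    rw [map_add, map_add, map_add, h5, add_zero]
  -- step 4
  obtain ⟨y, hy⟩ : ∃ y, y = TensorProduct.map (TensorProduct.map S.r S.r)
      (TensorProduct.map S.r S.r) x := ⟨_, rfl⟩
  have s4 : TensorProduct.map (TensorProduct.map (S.i ∘ₗ S.r) (S.i ∘ₗ S.r))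
          (TensorProduct.map (S.i ∘ₗ S.r) (S.i ∘ₗ S.r)) x =
      TensorProduct.map (TensorProduct.map S.i S.i) (TensorProduct.map S.i S.i) y := by
    rw [hy, TensorProduct.map_comp, TensorProduct.map_comp, LinearMap.comp_apply]
  have s5 : exch A.P (TensorProduct.map (TensorProduct.map S.i S.i)
      (TensorProduct.map S.i S.i) y) =
      TensorProduct.map (TensorProduct.map S.i S.i) (TensorProduct.map S.i S.i)
        (exch S.P y) :=
    ((hMid k (TR_HD S) (TR_HD S) (TR_HD S) (TR_HD S)).2 A A A A S.i S.i S.i S.i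
      (fun x => (S.Pi x).symm) (fun x => (S.Pi x).symm) y).symm
  have s6 : y = TensorProduct.map ΔH ΔH z := by
    rw [hy, hx, hw, eΔ, TensorProduct.map_comp, TensorProduct.map_comp, LinearMap.comp_apply,
      LinearMap.comp_apply]
  rw [s1, s2, ← hx, s3, s4, s5, ← s6, eμ, TensorProduct.map_comp, TensorProduct.map_comp,
    LinearMap.comp_apply, LinearMap.comp_apply]

end HEp
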