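import Pool.Agent.Lib.MP_181146_gt.HE.SpecS

/-!
# Project HE, module Top: the top degree of the singular complex is the top degree of `P`
-/

set_option autoImplicit false

namespace HEp

theorem sTop : S_Top := by
  intro E _ G _ P _ _ fi pr d shape dd N bdd u u' a b ud u'd ha0 ha hb0 hb n h
  obtain ⟨⟨z, hz, hz'⟩, h2⟩ := h
  have hA : ∀ (i : ℕ) (x : P i), (∀ j, d i j x = 0) → u' i (u i x) - x = d (i + 1) i (a i x) := by
    intro i x hx
    cases i with
    | zero => exact ha0 x
    | succ i => rw [ha i x, hx i, map_zero, add_zero]
  have hB : ∀ (i : ℕ) (x : (HSp.SC E).X i), (∀ j, ((HSp.SC E).d i j).hom x = 0) →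
      u i (u' i x) - x = ((HSp.SC E).d (i + 1) i).hom (b i x) := by
    intro i x hx
    cases i with
    | zero => exact hb0 x
    | succ i => rw [hb i x, hx i, map_zero, add_zero]
  constructor
  · refine ⟨(u' n z : P n), ?_, ?_⟩
    · rintro (j | j)
      · show d n j (u' n z) = 0
        by_cases hj : j + 1 = n
        · subst hj
          rw [← u'd, hz, map_zero]
        · rw [shape n j hj]
          rfl
      · rfl
    · rintro m hm ⟨k, y, hy⟩
      have key : ∃ y' : P (n + 1), d (n + 1) n y' = m • u' n z := by
        rcases k with k | k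
        · by_cases hk : n + 1 = k
          · subst hk
            exact ⟨y, hy⟩
          · refine ⟨0, ?_⟩
            rw [map_zero]
            have h1 : d k n y = m • u' n z := hy
            rw [shape k n hk] at h1
            exact h1
        · refine ⟨0, ?_⟩
          rw [map_zero]
          exact hy
      obtain ⟨y', hy'⟩ := key
      refine hz' m hm ⟨u (n + 1) y' - m • b n z, ?_⟩
      have h1 : u n (d (n + 1) n y') = m • u n (u' n z) := by
        rw [hy', map_zsmul]
      rw [ud] at h1
      have h3 := hB n z hz
      rw [map_sub, h1, map_zsmul, ← h3, zsmul_sub]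
      abel
  · rintro (i | i) hi x hx
    · have hi' : n < i := by
        have : (n : ℤ) < (i : ℤ) := hi
        exact_mod_cast this
      have hx' : ∀ j, d i j (x : P i) = 0 := fun j => hx (Int.ofNat j)
      have hc : ∀ j, ((HSp.SC E).d i j).hom (u i x) = 0 := by
        intro j
        by_cases hj : j + 1 = i
        · subst hj
          rw [← ud, hx' j, map_zero]
        · rw [(HSp.SC E).shape i j (by simpa using hj)]
          rfl
      obtain ⟨m, hm, w, hw⟩ := h2 i hi' (u i x) hc
      refine ⟨m, hm, Int.ofNat (i + 1), (u' (i + 1) w - m • a i x : P (i + 1)), ?_⟩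
      show d (i + 1) i (u' (i + 1) w - m • a i x) = m • (x : P i)
      have h1 : u' i (((HSp.SC E).d (i + 1) i).hom w) = m • u' i (u i x) := by
        rw [hw, map_zsmul]
      rw [u'd] at h1
      have h3 := hA i x hx'
      rw [map_sub, h1, map_zsmul, ← h3, smul_sub]
      abel
    · exfalso
      have : (n : ℤ) < Int.negSucc i := hi
      omega

end HEp
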