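import Pool.Agent.Lib.MP_181146_gt.HE.SpecG

set_option autoImplicit false

namespace HEp

theorem sTriv (hTOne : HSp.S_TOne) : S_Triv := by
  intro C _ _ x
  induction x using KT.ind with | _ A => ?_
  obtain ⟨r, ⟨e⟩⟩ := hTOne C A.M
  rw [cl_congr e]
  exact cl_free r

end HEp
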