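import Pool.Agent.Lib.MP_181146_gt.HE.SpecS

/-!
# Project HE, the statement `S_UN`: acyclic models

Natural chain maps `Ch K ⊗ Ch L → T K L` with the same augmentation are homotopic, if the values of
`T` on simplices are contractible.  The homotopy is `x ⊗ y ↦ F.map (ev x) (ev y) (H p q)` with the
universal elements `H p q` given by the abstract recursion `S_AMh`.
-/

set_option autoImplicit false

namespace HEp

open scoped TensorProduct

/-- Linear maps on the tensor product of chains which agree on simplices agree. -/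
private lemma ten_ext {k : Type} [CommRing k] {K L : SS} {M : Type} [AddCommGroup M] [Module k M]
    {f g : Ch k K ⊗[k] Ch k L →ₗ[k] M}
    (h : ∀ (p q : ℕ) (x : K.K p) (y : L.K q), f (sx k x ⊗ₜ sx k y) = g (sx k x ⊗ₜ sx k y)) :
    f = g :=
  TensorProduct.ext (ch_ext fun p x => ch_ext fun q y => h p q x y)

/-- The fundamental simplex. -/
private noncomputable def io (k : Type) [CommRing k] (p : ℕ) : Ch k (De p) :=
  sx k (K := De p) (_root_.id : Fin (p + 1) → Fin (p + 1))

private lemma sg_sx (k : Type) [CommRing k] {K : SS} {n : ℕ} (x : K.K n) :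
    (chDG k K).sg (sx k x) = (-1 : k) ^ n • sx k x := by
  refine (DG.sg_apply (chDG k K) (sx k x)).trans ?_
  change sx k x - (2 : k) • od k K (sx k x) = _
  rw [od_sx]
  split_ifs with h
  · rw [h.neg_one_pow]
    module
  · rw [(Nat.not_odd_iff_even.mp h).neg_one_pow]
    module

private lemma bd_io (k : Type) [CommRing k] (p : ℕ) : bd k (De (p + 1)) (io k (p + 1)) =
    ∑ j : Fin (p + 2), (-1 : k) ^ (j : ℕ) • cmap k (Ed.map j.succAbove) (io k p) := by
  rw [io, bd_sx]
  refine Finset.sum_congr rfl fun j _ => ?_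
  rw [io, cmap_sx]
  rfl

private lemma bd_io_zero (k : Type) [CommRing k] : bd k (De 0) (io k 0) = 0 := bd_sx_zero k _

section

variable {k : Type} [CommRing k] {F : Fn k} (Φ : NMap F)

/-- The universal value. -/
private noncomputable def un (p q : ℕ) : (F.T (De p) (De q)).V :=
  Φ.f (De p) (De q) (io k p ⊗ₜ io k q)

private lemma un_ev {K L : SS} {p q : ℕ} (x : K.K p) (y : L.K q) :
    Φ.f K L (sx k x ⊗ₜ sx k y) = F.map (K.ev x) (L.ev y) (un Φ p q) := by
  rw [un, ← Φ.nat, TensorProduct.map_tmul, io, io, ev_sx, ev_sx]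

private lemma un_A (p q : ℕ) : Φ.f _ _ (bd k (De (p + 1)) (io k (p + 1)) ⊗ₜ io k q) =
    F.A p q (un Φ p q) := by
  rw [bd_io, TensorProduct.sum_tmul, map_sum, Fn.A, LinearMap.sum_apply]
  refine Finset.sum_congr rfl fun j _ => ?_
  rw [LinearMap.smul_apply, un, ← Φ.nat, TensorProduct.map_tmul, cmap_id,
    ← TensorProduct.smul_tmul', map_smul]

private lemma un_B (p q : ℕ) : Φ.f _ _ (io k p ⊗ₜ bd k (De (q + 1)) (io k (q + 1))) =
    F.B p q (un Φ p q) := by
  rw [bd_io, TensorProduct.tmul_sum, map_sum, Fn.B, LinearMap.sum_apply]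
  refine Finset.sum_congr rfl fun j _ => ?_
  rw [LinearMap.smul_apply, un, ← Φ.nat, TensorProduct.map_tmul, cmap_id,
    TensorProduct.tmul_smul, map_smul]

private lemma d_un (p q : ℕ) : (F.T (De p) (De q)).d (un Φ p q) =
    Φ.f _ _ (bd k (De p) (io k p) ⊗ₜ io k q) +
      (-1 : k) ^ p • Φ.f _ _ (io k p ⊗ₜ bd k (De q) (io k q)) := by
  rw [un, ← Φ.comm]
  refine (congrArg _ (DG.tens_d (chDG k (De p)) (chDG k (De q)) (io k p) (io k q))).trans ?_
  rw [io, sg_sx, map_add, ← TensorProduct.smul_tmul', map_smul]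

end

theorem sUN (hFAB : S_FAB) (hAMh : S_AMh) : S_UN := by
  intro k _ F hc Φ Ψ ha K L
  have C' : ∀ p q : ℕ, Ctr (F.T (De p) (De q)) (F.aug (De p) (De q)) := fun p q => (hc p q).some
  obtain ⟨AA, BB, AB, Ad, Bd, εA, εB⟩ := hFAB k F
  obtain ⟨H, H00, Hp0, H0q, Hpq⟩ := hAMh k (fun p q => (F.T (De p) (De q)).V)
    (fun p q => (F.T (De p) (De q)).d) (fun p q => (C' p q).h) (fun p q => F.aug (De p) (De q))
    (fun p q => (C' p q).u) (fun p q => F.A p q) (fun p q => F.B p q)
    (fun p q x => (C' p q).rel x) (fun p q x => (C' p q).εh x) AA BB AB Ad Bd εA εB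
    (fun p q => un Φ p q - un Ψ p q)
    (fun p q => by rw [map_sub, un, un, ha, sub_self])
    (by rw [map_sub, d_un, d_un, bd_io_zero, TensorProduct.zero_tmul, TensorProduct.tmul_zero,
          map_zero, map_zero]
        simp)
    (fun p => by
      rw [map_sub, d_un, d_un, un_A, un_A, bd_io_zero, TensorProduct.tmul_zero, map_zero,
        map_zero, map_sub]
      simp)
    (fun q => by
      rw [map_sub, d_un, d_un, un_B, un_B, bd_io_zero, TensorProduct.zero_tmul, map_zero,
        map_zero, map_sub]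
      simp)
    (fun p q => by
      rw [map_sub, d_un, d_un, un_A, un_A, un_B, un_B, map_sub, map_sub, smul_sub]
      abel)
  let hh : Ch k K ⊗[k] Ch k L →ₗ[k] (F.T K L).V :=
    TensorProduct.lift (Finsupp.linearCombination k
      (fun x => (Finsupp.linearCombination k
        (fun y => F.map (K.ev x.2) (L.ev y.2) (H x.1 y.1)) : Ch k L →ₗ[k] (F.T K L).V)))
  have hh_sx : ∀ {p q : ℕ} (x : K.K p) (y : L.K q), hh (sx k x ⊗ₜ sx k y) =
      F.map (K.ev x) (L.ev y) (H p q) := fun {p q} x y => by
    change TensorProduct.lift _ _ = _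
    rw [TensorProduct.lift.tmul, sx, sx, Finsupp.linearCombination_single, one_smul,
      Finsupp.linearCombination_single, one_smul]
  have hhA : ∀ {p q : ℕ} (x : K.K (p + 1)) (y : L.K q), hh (bd k K (sx k x) ⊗ₜ sx k y) =
      F.map (K.ev x) (L.ev y) (F.A p q (H p q)) := fun {p q} x y => by
    rw [bd_sx, TensorProduct.sum_tmul, map_sum, Fn.A, LinearMap.sum_apply, map_sum]
    refine Finset.sum_congr rfl fun j _ => ?_
    rw [← TensorProduct.smul_tmul', map_smul, hh_sx, LinearMap.smul_apply, map_smul,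
      ← F.map_comp, ev_act]
    rfl
  have hhB : ∀ {p q : ℕ} (x : K.K p) (y : L.K (q + 1)), hh (sx k x ⊗ₜ bd k L (sx k y)) =
      F.map (K.ev x) (L.ev y) (F.B p q (H p q)) := fun {p q} x y => by
    rw [bd_sx, TensorProduct.tmul_sum, map_sum, Fn.B, LinearMap.sum_apply, map_sum]
    refine Finset.sum_congr rfl fun j _ => ?_
    rw [TensorProduct.tmul_smul, map_smul, hh_sx, LinearMap.smul_apply, map_smul,
      ← F.map_comp, ev_act]
    rfl
  have hhd : ∀ {p q : ℕ} (x : K.K p) (y : L.K q),
      hh (((chDG k K).tens (chDG k L)).d (sx k x ⊗ₜ sx k y)) =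
        hh (bd k K (sx k x) ⊗ₜ sx k y) + (-1 : k) ^ p • hh (sx k x ⊗ₜ bd k L (sx k y)) :=
    fun {p q} x y => by
      refine (congrArg _ (DG.tens_d (chDG k K) (chDG k L) (sx k x) (sx k y))).trans ?_
      rw [sg_sx, map_add, ← TensorProduct.smul_tmul', map_smul]
  refine ⟨hh, fun z => ?_⟩
  have key : Φ.f K L - Ψ.f K L =
      (F.T K L).d ∘ₗ hh + hh ∘ₗ ((chDG k K).tens (chDG k L)).d := by
    refine ten_ext fun p q x y => ?_
    rw [LinearMap.sub_apply, LinearMap.add_apply, LinearMap.comp_apply, LinearMap.comp_apply,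
      un_ev, un_ev, ← map_sub, hhd, hh_sx, ← F.map_d]
    cases p with
    | zero =>
      cases q with
      | zero =>
        rw [bd_sx_zero, bd_sx_zero, TensorProduct.zero_tmul, TensorProduct.tmul_zero, map_zero,
          smul_zero, add_zero, add_zero]
        exact congrArg _ H00.symm
      | succ q =>
        rw [bd_sx_zero, TensorProduct.zero_tmul, map_zero, hhB, pow_zero, one_smul, zero_add,
          ← map_add]
        exact congrArg _ (H0q q).symm
    | succ p =>
      cases q with
      | zero =>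
        rw [bd_sx_zero k y, TensorProduct.tmul_zero, map_zero, hhA, smul_zero, add_zero,
          ← map_add]
        exact congrArg _ (Hp0 p).symm
      | succ q =>
        rw [hhA, hhB, ← map_smul, ← map_add, ← map_add]
        exact congrArg _ (Hpq p q).symm
  exact LinearMap.congr_fun key z

end HEp
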