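import Pool.Agent.Lib.MP_181146_gt.HE.AI
import Pool.Agent.Lib.MP_181146_gt.HE.AIs
import Pool.Agent.Lib.MP_181146_gt.HE.AMe
import Pool.Agent.Lib.MP_181146_gt.HE.AMh
import Pool.Agent.Lib.MP_181146_gt.HE.AlgHE
import Pool.Agent.Lib.MP_181146_gt.HE.Alp
import Pool.Agent.Lib.MP_181146_gt.HE.AwD
import Pool.Agent.Lib.MP_181146_gt.HE.AwG
import Pool.Agent.Lib.MP_181146_gt.HE.BDual
import Pool.Agent.Lib.MP_181146_gt.HE.BEx
import Pool.Agent.Lib.MP_181146_gt.HE.BQI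
import Pool.Agent.Lib.MP_181146_gt.HE.BSum
import Pool.Agent.Lib.MP_181146_gt.HE.BT
import Pool.Agent.Lib.MP_181146_gt.HE.ConP
import Pool.Agent.Lib.MP_181146_gt.HE.CtrT
import Pool.Agent.Lib.MP_181146_gt.HE.Cyc
import Pool.Agent.Lib.MP_181146_gt.HE.DChain
import Pool.Agent.Lib.MP_181146_gt.HE.DCo
import Pool.Agent.Lib.MP_181146_gt.HE.DCx
import Pool.Agent.Lib.MP_181146_gt.HE.DEmb
import Pool.Agent.Lib.MP_181146_gt.HE.DFp
import Pool.Agent.Lib.MP_181146_gt.HE.DFr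
import Pool.Agent.Lib.MP_181146_gt.HE.DIdem
import Pool.Agent.Lib.MP_181146_gt.HE.DMap
import Pool.Agent.Lib.MP_181146_gt.HE.DMod
import Pool.Agent.Lib.MP_181146_gt.HE.DQ
import Pool.Agent.Lib.MP_181146_gt.HE.DQIP
import Pool.Agent.Lib.MP_181146_gt.HE.DRank
import Pool.Agent.Lib.MP_181146_gt.HE.DSelf
import Pool.Agent.Lib.MP_181146_gt.HE.DSmp
import Pool.Agent.Lib.MP_181146_gt.HE.DStep
import Pool.Agent.Lib.MP_181146_gt.HE.DSub
import Pool.Agent.Lib.MP_181146_gt.HE.DTTF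
import Pool.Agent.Lib.MP_181146_gt.HE.DTadd
import Pool.Agent.Lib.MP_181146_gt.HE.DTchain
import Pool.Agent.Lib.MP_181146_gt.HE.DTex
import Pool.Agent.Lib.MP_181146_gt.HE.DTfp
import Pool.Agent.Lib.MP_181146_gt.HE.DTstep
import Pool.Agent.Lib.MP_181146_gt.HE.Div
import Pool.Agent.Lib.MP_181146_gt.HE.DlC
import Pool.Agent.Lib.MP_181146_gt.HE.DlG
import Pool.Agent.Lib.MP_181146_gt.HE.Dual
import Pool.Agent.Lib.MP_181146_gt.HE.ECN
import Pool.Agent.Lib.MP_181146_gt.HE.ECdual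
import Pool.Agent.Lib.MP_181146_gt.HE.EZex
import Pool.Agent.Lib.MP_181146_gt.HE.FAB
import Pool.Agent.Lib.MP_181146_gt.HE.FRPE
import Pool.Agent.Lib.MP_181146_gt.HE.FRalg
import Pool.Agent.Lib.MP_181146_gt.HE.FRch
import Pool.Agent.Lib.MP_181146_gt.HE.Fix
import Pool.Agent.Lib.MP_181146_gt.HE.H0E
import Pool.Agent.Lib.MP_181146_gt.HE.HEalg
import Pool.Agent.Lib.MP_181146_gt.HE.HEtop
import Pool.Agent.Lib.MP_181146_gt.HE.HPT
import Pool.Agent.Lib.MP_181146_gt.HE.Hopf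
import Pool.Agent.Lib.MP_181146_gt.HE.IR
import Pool.Agent.Lib.MP_181146_gt.HE.KCone
import Pool.Agent.Lib.MP_181146_gt.HE.KConeEx
import Pool.Agent.Lib.MP_181146_gt.HE.KCtr
import Pool.Agent.Lib.MP_181146_gt.HE.KEC
import Pool.Agent.Lib.MP_181146_gt.HE.KEC0
import Pool.Agent.Lib.MP_181146_gt.HE.KEx
import Pool.Agent.Lib.MP_181146_gt.HE.KPi
import Pool.Agent.Lib.MP_181146_gt.HE.KSch
import Pool.Agent.Lib.MP_181146_gt.HE.Lat
import Pool.Agent.Lib.MP_181146_gt.HE.Lift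
import Pool.Agent.Lib.MP_181146_gt.HE.Lpc
import Pool.Agent.Lib.MP_181146_gt.HE.MXE
import Pool.Agent.Lib.MP_181146_gt.HE.Mid
import Pool.Agent.Lib.MP_181146_gt.HE.MidE
import Pool.Agent.Lib.MP_181146_gt.HE.NC
import Pool.Agent.Lib.MP_181146_gt.HE.NabD
import Pool.Agent.Lib.MP_181146_gt.HE.NabG
import Pool.Agent.Lib.MP_181146_gt.HE.NabN
import Pool.Agent.Lib.MP_181146_gt.HE.NabR
import Pool.Agent.Lib.MP_181146_gt.HE.NabU
import Pool.Agent.Lib.MP_181146_gt.HE.PNx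
import Pool.Agent.Lib.MP_181146_gt.HE.Perf
import Pool.Agent.Lib.MP_181146_gt.HE.Phi
import Pool.Agent.Lib.MP_181146_gt.HE.PhiZ
import Pool.Agent.Lib.MP_181146_gt.HE.Psi
import Pool.Agent.Lib.MP_181146_gt.HE.QIC
import Pool.Agent.Lib.MP_181146_gt.HE.QIp
import Pool.Agent.Lib.MP_181146_gt.HE.QRel
import Pool.Agent.Lib.MP_181146_gt.HE.RSfp
import Pool.Agent.Lib.MP_181146_gt.HE.RSh
import Pool.Agent.Lib.MP_181146_gt.HE.RSx
import Pool.Agent.Lib.MP_181146_gt.HE.SH0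
import Pool.Agent.Lib.MP_181146_gt.HE.SHot
import Pool.Agent.Lib.MP_181146_gt.HE.SUn
import Pool.Agent.Lib.MP_181146_gt.HE.SplG
import Pool.Agent.Lib.MP_181146_gt.HE.SplT
import Pool.Agent.Lib.MP_181146_gt.HE.TCM
import Pool.Agent.Lib.MP_181146_gt.HE.TEx
import Pool.Agent.Lib.MP_181146_gt.HE.TFfp
import Pool.Agent.Lib.MP_181146_gt.HE.TR
import Pool.Agent.Lib.MP_181146_gt.HE.Top
import Pool.Agent.Lib.MP_181146_gt.HE.Triv
import Pool.Agent.Lib.MP_181146_gt.HE.UA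
import Pool.Agent.Lib.MP_181146_gt.HE.UN
import Pool.Agent.Lib.MP_181146_gt.HS.All

/-!
# Project HE: assembly of all modules
-/

set_option autoImplicit false

namespace HEp

theorem pLat : S_Lat := sLat 

theorem pDTex : S_DTex := sDTex 

theorem pKSch : S_KSch := sKSch 

theorem pDTstep : S_DTstep := sDTstep pDTex pKSch

theorem pFix : S_Fix := sFix 

theorem pDTfp : S_DTfp := sDTfp 

theorem pDTchain : S_DTchain := sDTchain pDTstep pFix pDTfp

theorem pDTadd : S_DTadd := sDTadd 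

theorem pDTTF : S_DTTF := sDTTF 

theorem pTFfp : S_TFfp := sTFfp pDTTF pDTfp

theorem pKPi : S_KPi := sKPi 

theorem pQRel : S_QRel := sQRel pLat pDTchain pDTadd pDTTF pDTfp pTFfp pKPi

theorem pIR : S_IR := sIR 

theorem pRSfp : S_RSfp := sRSfp 

theorem pAIs : S_AIs := sAIs pQRel pIR pTFfp pRSfp

theorem pNC : S_NC := sNC 

theorem pAI : S_AI := sAI pAIs pNC pRSfp

theorem pAMe : S_AMe := sAMe 

theorem pAMh : S_AMh := sAMh 

theorem pKCone : S_KCone := sKCone 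

theorem pKConeEx : S_KConeEx := sKConeEx 

theorem pQIC : S_QIC := sQIC 

theorem pDiv : S_Div := sDiv 

theorem pQIp : S_QIp := sQIp pKCone pKConeEx pQIC pDiv

theorem pKCtr : S_KCtr := sKCtr 

theorem pKEx : S_KEx := sKEx 

theorem pKEC0 : S_KEC0 := sKEC0 pKCtr pKEx

theorem pKEC : S_KEC := sKEC pKCone pKConeEx pKEC0

theorem pDQ : S_DQ := sDQ 

theorem pDSmp : S_DSmp := sDSmp pDQ

theorem pDSub : S_DSub := sDSub 

theorem pDSelf : S_DSelf := sDSelf 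

theorem pDFr : S_DFr := sDFr pDSelf

theorem pDFp : S_DFp := sDFp pDFr

theorem pDStep : S_DStep := sDStep pDSmp pDSub pKSch pDFp

theorem pDChain : S_DChain := sDChain pDStep pDSub pDFp

theorem pDIdem : S_DIdem := sDIdem 

theorem pDRank : S_DRank := sDRank pDIdem

theorem pDMod : S_DMod := sDMod pDRank

theorem pDEmb : S_DEmb := sDEmb pDMod

theorem pDual : S_Dual := sDual pDChain pDEmb pDFr pDFp

theorem pECdual : S_ECdual := sECdual pDual pDFp

theorem pRSh : S_RSh := sRSh pRSfp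

theorem pRSx : S_RSx := sRSx pRSfp pRSh

theorem pBQI : S_BQI := sBQI pKCone pKConeEx pKCtr

theorem pBT : S_BT := sBT 

theorem pBDual : S_BDual := sBDual pBT

theorem pBEx : S_BEx := sBEx 

theorem pBSum : S_BSum := sBSum HSp.pSAll HSp.pSEx HSp.pArCyc

theorem pCyc : S_Cyc := sCyc HSp.pAlgRB pBSum pKPi

theorem pTriv : S_Triv := sTriv HSp.pTOne

theorem pAlgHE : S_AlgHE := sAlgHE pQIp pKEC pECdual pRSx pRSh pRSfp pBQI pBDual pBEx pCyc pTriv pAI

theorem pAlp : S_Alp := sAlp 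

theorem pAwD : S_AwD := sAwD 

theorem pAwG : S_AwG := sAwG 

theorem pCon : S_Con := sCon 

theorem pCtrT : S_CtrT := sCtrT 

theorem pDCo : S_DCo := sDCo 

theorem pDCx : S_DCx := sDCx pDFp

theorem pDMap : S_DMap := sDMap 

theorem pPerf : S_Perf := sPerf 

theorem pDQIP : S_DQIP := sDQIP pPerf

theorem pDlC : S_DlC := sDlC 

theorem pDlG : S_DlG := sDlG pAwD pAwG

theorem pECN : S_ECN := sECN pKPi

theorem pFAB : S_FAB := sFAB 

theorem pEZex : S_EZex := sEZex pAMe pFAB pCon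

theorem pFRalg : S_FRalg := sFRalg 

theorem pHPT : S_HPT := sHPT 

theorem pMid : S_Mid := sMid 

theorem pTCM : S_TCM := sTCM 

theorem pTR : S_TR := sTR pHPT pMid pTCM

theorem pSplG : S_SplG := sSplG 

theorem pSplT : S_SplT := sSplT pSplG

theorem pUN : S_UN := sUN pFAB pAMh

theorem pNabD : S_NabD := sNabD 

theorem pNabG : S_NabG := sNabG 

theorem pNabN : S_NabN := sNabN 

theorem pNabU : S_NabU := sNabU 

theorem pPhi : S_Phi := sPhi pNabD pNabG pNabN pNabU pDlG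

theorem pMidE : S_MidE := sMidE 

theorem pPsi : S_Psi := sPsi pNabD pNabG pNabN pNabU pDlG pTCM pMid pMidE

theorem pHopf : S_Hopf := sHopf pUN pPhi pPsi pCon pCtrT pDlG pMid pNabD pNabG pTCM

theorem pFRch : S_FRch := sFRch pFRalg pTR pSplT pHopf pDlG pDlC pNabG

theorem pSHot : S_SHot := sSHot 

theorem pSUn : S_SUn := sSUn pSHot pNabU

theorem pSH0 : S_SH0 := sSH0 

theorem pNabR : S_NabR := sNabR 

theorem pFRPE : S_FRPE := sFRPE pFRch pSUn pSH0 pHopf pNabG pNabR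

theorem pH0E : S_H0E := sH0E pSH0

theorem pPhiZ : S_PhiZ := sPhiZ 

theorem pHEalg : S_HEalg := sHEalg pAlp pPhiZ pDMap pDQIP pDCx pAlgHE

theorem pTEx : S_TEx := sTEx 

theorem pMXE : S_MXE := sMXE pHopf pNabG pNabN

theorem pLift : S_Lift := sLift 

theorem pLpc : S_Lpc := sLpc 

theorem pTop : S_Top := sTop 

theorem pPNx : S_PNx := sPNx HSp.pTS HSp.pTH

theorem pUA : S_UA := sUA 

theorem pHEtop : S_HEtop := sHEtop pHEalg pTEx pMXE pFRPE pH0E pLift pLpc pDCo pTop pPNx pUA pECN HSp.pTN pEZex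

end HEp
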