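import Pool.Agent.Lib.MP_181146_gt.HE.SpecG

/-!
# AI: a class whose restrictions to all cyclic subgroups vanish is killed by a power of `|G|`
-/

set_option autoImplicit false

namespace HEp

/-- Restriction along the identity changes nothing. -/
private noncomputable def rsId (G : Type) [CommGroup G] (M : Type) [AddCommGroup M]
    [Module (ZG G) M] : RS (MonoidHom.id G) M ≃ₗ[ZG G] M where
  toFun x := x
  invFun x := x
  left_inv _ := rfl
  right_inv _ := rfl
  map_add' _ _ := rfl
  map_smul' a x := by
    have h : MonoidAlgebra.mapDomainRingHom ℤ (MonoidHom.id G) = RingHom.id (ZG G) := by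
      refine MonoidAlgebra.ringHom_ext (fun r => ?_) (fun g => ?_) <;>
        simp [MonoidAlgebra.mapDomainRingHom_apply]
    change MonoidAlgebra.mapDomainRingHom ℤ (MonoidHom.id G) a • (show M from x) = a • (show M from x)
    rw [h, RingHom.id_apply]

/-- Restriction in two steps. -/
private noncomputable def rsComp {A B G : Type} [CommGroup A] [CommGroup B] [CommGroup G]
    (i : A →* B) (j : B →* G) (M : Type) [AddCommGroup M] [Module (ZG G) M] :
    RS i (RS j M) ≃ₗ[ZG A] RS (j.comp i) M where
  toFun x := x
  invFun x := x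
  left_inv _ := rfl
  right_inv _ := rfl
  map_add' _ _ := rfl
  map_smul' a x := by
    have h : MonoidAlgebra.mapDomainRingHom ℤ (j.comp i) =
        (MonoidAlgebra.mapDomainRingHom ℤ j).comp (MonoidAlgebra.mapDomainRingHom ℤ i) := by
      refine MonoidAlgebra.ringHom_ext (fun r => ?_) (fun g => ?_) <;>
        simp [MonoidAlgebra.mapDomainRingHom_apply]
    change MonoidAlgebra.mapDomainRingHom ℤ j (MonoidAlgebra.mapDomainRingHom ℤ i a) •
      (show M from x) = MonoidAlgebra.mapDomainRingHom ℤ (j.comp i) a • (show M from x)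
    rw [h, RingHom.comp_apply]

/-- A multiple of a killing number kills. -/
private lemma smul_zero_of_dvd {A : Type 1} [AddCommGroup A] {m n : ℕ} (h : m ∣ n) {x : A}
    (hx : m • x = 0) : n • x = 0 := by
  obtain ⟨c, rfl⟩ := h
  rw [mul_comm, mul_smul, hx, smul_zero]

private theorem mainAI (hAIs : S_AIs) (hNC : S_NC) (hRSfp : S_RSfp) : ∀ n : ℕ,
    ∀ (G : Type) [CommGroup G] [Finite G] (_ : Nat.card G = n) (M : Type) [AddCommGroup M]
    [Module (ZG G) M] [Module.Finite (ZG G) M] [Module.Projective (ZG G) M]
    (_ : ∀ (C : Type) [CommGroup C] (j : C →* G), Function.Injective j → IsCyclic C →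
      ∀ [Module.Finite (ZG C) (RS j M)] [Module.Projective (ZG C) (RS j M)],
        cl (ZG C) (RS j M) = 0),
    ∃ k : ℕ, (Nat.card G ^ k) • cl (ZG G) M = 0 := by
  intro n
  induction n using Nat.strong_induction_on with
  | _ n ih =>
  intro G _ _ hn M _ _ _ _ h
  by_cases hc : IsCyclic G
  · refine ⟨0, ?_⟩
    haveI h1 : Module.Finite (ZG G) (RS (MonoidHom.id G) M) :=
      ((hRSfp G G (MonoidHom.id G) Function.injective_id).2 M).1
    haveI h2 : Module.Projective (ZG G) (RS (MonoidHom.id G) M) :=
      ((hRSfp G G (MonoidHom.id G) Function.injective_id).2 M).2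
    have h3 := h G (MonoidHom.id G) Function.injective_id hc
    rw [pow_zero, one_smul, ← cl_congr (rsId G M)]
    exact h3
  · obtain ⟨p, hp, π, hπ⟩ := hNC G hc
    have key : ∀ H : Subgroup G, ∃ k : ℕ, H ≠ ⊤ →
        ∀ [Module.Finite (ZG H) (RS H.subtype M)] [Module.Projective (ZG H) (RS H.subtype M)],
          (Nat.card H ^ k) • cl (ZG H) (RS H.subtype M) = 0 := by
      intro H
      by_cases hH : H = ⊤
      · exact ⟨0, fun h' => absurd hH h'⟩
      · haveI h1 : Module.Finite (ZG H) (RS H.subtype M) :=
          ((hRSfp H G H.subtype H.subtype_injective).2 M).1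
        haveI h2 : Module.Projective (ZG H) (RS H.subtype M) :=
          ((hRSfp H G H.subtype H.subtype_injective).2 M).2
        have hlt : Nat.card H < n := by
          rw [← hn]
          refine lt_of_le_of_ne (Subgroup.card_le_card_group H) (fun he => hH ?_)
          exact Subgroup.eq_top_of_card_eq H he
        obtain ⟨k, hk⟩ := ih _ hlt H rfl (RS H.subtype M) (by
          intro C _ j hj hC i1 i2
          have hj' : Function.Injective (H.subtype.comp j) := by
            intro a b hab
            exact hj (H.subtype_injective hab)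
          haveI h3 : Module.Finite (ZG C) (RS (H.subtype.comp j) M) :=
            ((hRSfp C G (H.subtype.comp j) hj').2 M).1
          haveI h4 : Module.Projective (ZG C) (RS (H.subtype.comp j) M) :=
            ((hRSfp C G (H.subtype.comp j) hj').2 M).2
          rw [cl_congr (rsComp j H.subtype M)]
          exact h C (H.subtype.comp j) hj' hC)
        exact ⟨k, fun _ => hk⟩
    choose f hf using key
    haveI := Fintype.ofFinite (Subgroup G)
    have hp' : p ∣ Nat.card G := by
      have h1 : Nat.card (Multiplicative (ZMod p × ZMod p)) ∣ Nat.card G :=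
        Subgroup.card_dvd_of_surjective π hπ
      have h2 : Nat.card (Multiplicative (ZMod p × ZMod p)) = p * p := by
        rw [Nat.card_congr Multiplicative.toAdd, Nat.card_prod, Nat.card_zmod]
      rw [h2] at h1
      exact (Dvd.intro _ rfl).trans h1
    refine ⟨(∑ H : Subgroup G, f H) + 1, ?_⟩
    have hst := hAIs G p hp π hπ M (Nat.card G ^ (∑ H : Subgroup G, f H)) (by
      intro H hH i1 i2
      have h1 : (Nat.card H ^ f H) • cl (ZG H) (RS H.subtype M) = 0 := hf H hH
      refine smul_zero_of_dvd ?_ h1
      exact (pow_dvd_pow_of_dvd (Subgroup.card_subgroup_dvd_card H) _).trans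
        (pow_dvd_pow _ (Finset.single_le_sum (f := f) (fun _ _ => Nat.zero_le _)
          (Finset.mem_univ H))))
    refine smul_zero_of_dvd ?_ hst
    rw [pow_succ]
    exact Nat.mul_dvd_mul_left _ hp'

theorem sAI (hAIs : S_AIs) (hNC : S_NC) (hRSfp : S_RSfp) : S_AI := by
  intro G _ _ M _ _ _ _ h
  exact mainAI hAIs hNC hRSfp _ G rfl M h

end HEp
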