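import Pool.Agent.Lib.MP_181146_gt.HE.SpecG

/-!
# Project HE, module BQI: quasi-isomorphic complexes have the same Betti numbers
-/

set_option autoImplicit false

namespace HEp

section cast

variable {R : Type} [CommRing R]

/-- the identity between the modules in equal degrees -/
private def ct (X : ZCx R) {i j : ℤ} (h : i = j) : X.P i →ₗ[R] X.P j := h ▸ LinearMap.id

private lemma ct_rfl (X : ZCx R) {i : ℤ} (x : X.P i) : ct X rfl x = x := rfl

private lemma d_ct (X : ZCx R) {i j k : ℤ} (h : i = j) (x : X.P i) :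
    X.d j k (ct X h x) = X.d i k x := by
  subst h
  rfl

private lemma ct_d (X : ZCx R) {i j k : ℤ} (h : i = j) (x : X.P k) :
    ct X h (X.d k i x) = X.d k j x := by
  subst h
  rfl

private lemma f_ct {X Y : ZCx R} (F : ZHom X Y) {i j : ℤ} (h : i = j) (x : X.P i) :
    F.f j (ct X h x) = ct Y h (F.f i x) := by
  subst h
  rfl

private lemma ct_ct (X : ZCx R) {i j : ℤ} (h : i = j) (h' : j = i) (x : X.P i) :
    ct X h' (ct X h x) = x := by
  subst h
  rfl

end cast

private lemma gr1 {M : Type} [AddCommGroup M] {A B C x : M} (h : -A + (-B + C) = x) :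
    C - x = A + B := by
  rw [← h]
  abel

private lemma gr2 {M : Type} [AddCommGroup M] {A B C x : M} (h : A + B + C = x) :
    x - B = A + C := by
  rw [← h]
  abel

section cone

variable {R : Type} [CommRing R]

private theorem cone_homotopy (X Y C : ZCx R) (F : ZHom X Y)
    (e : ∀ i, C.P i ≃ₗ[R] (X.P (i - 1) × Y.P i))
    (he : ∀ (i : ℤ) (c : C.P i), e (i - 1) (C.d i (i - 1) c) =
        (-(X.d (i - 1) (i - 1 - 1) (e i c).1),
          Y.d i (i - 1) (e i c).2 + F.f (i - 1) (e i c).1))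
    (h : ∀ i j : ℤ, C.P i →ₗ[R] C.P j)
    (hh : ∀ (i : ℤ) (x : C.P i), C.d (i + 1) i (h i (i + 1) x) +
      h (i - 1) i (C.d i (i - 1) x) = x) :
    ∃ g : ∀ i, Y.P i →ₗ[R] X.P i,
      (∀ i k, i - 1 = k → ∀ y, X.d i k (g i y) = g k (Y.d i k y)) ∧
      (∀ i, ∃ (a : X.P i →ₗ[R] X.P (i + 1)) (a' : X.P (i - 1) →ₗ[R] X.P i), ∀ x,
        g i (F.f i x) - x = X.d (i + 1) i (a x) + a' (X.d i (i - 1) x)) ∧
      (∀ i, ∃ (b : Y.P i →ₗ[R] Y.P (i + 1)) (b' : Y.P (i - 1) →ₗ[R] Y.P i), ∀ y,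
        y - F.f i (g i y) = Y.d (i + 1) i (b y) + b' (Y.d i (i - 1) y)) := by
  -- general indices
  have he1 : ∀ (i j : ℤ) (hj : i - 1 = j) (c : C.P i),
      (e j (C.d i j c)).1 = -(X.d (i - 1) (j - 1) (e i c).1) := by
    intro i j hj c
    subst hj
    rw [he]
  have he2 : ∀ (i j : ℤ) (hj : i - 1 = j) (c : C.P i),
      (e j (C.d i j c)).2 = Y.d i j (e i c).2 + ct Y hj (F.f (i - 1) (e i c).1) := by
    intro i j hj c
    subst hj
    rw [he]
    rfl
  have hh' : ∀ (i j k : ℤ) (hj : i + 1 = j) (hk : i - 1 = k) (x : C.P i),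
      C.d j i (h i j x) + h k i (C.d i k x) = x := by
    intro i j k hj hk x
    subst hj hk
    exact hh i x
  -- inclusions
  let u : ∀ i, Y.P i →ₗ[R] C.P i := fun i =>
    (e i).symm.toLinearMap ∘ₗ LinearMap.inr R (X.P (i - 1)) (Y.P i)
  let v : ∀ i, X.P (i - 1) →ₗ[R] C.P i := fun i =>
    (e i).symm.toLinearMap ∘ₗ LinearMap.inl R (X.P (i - 1)) (Y.P i)
  let q : ∀ i, C.P i →ₗ[R] X.P (i - 1) := fun i => LinearMap.fst R _ _ ∘ₗ (e i).toLinearMap
  let r : ∀ i, C.P i →ₗ[R] Y.P i := fun i => LinearMap.snd R _ _ ∘ₗ (e i).toLinearMap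
  have qu : ∀ i y, q i (u i y) = 0 := fun i y =>
    congrArg Prod.fst ((e i).apply_symm_apply (0, y))
  have ru : ∀ i y, r i (u i y) = y := fun i y =>
    congrArg Prod.snd ((e i).apply_symm_apply (0, y))
  have qv : ∀ i x, q i (v i x) = x := fun i x =>
    congrArg Prod.fst ((e i).apply_symm_apply (x, 0))
  have rv : ∀ i x, r i (v i x) = 0 := fun i x =>
    congrArg Prod.snd ((e i).apply_symm_apply (x, 0))
  have hq : ∀ (i j : ℤ) (hj : i - 1 = j) (c : C.P i),
      q j (C.d i j c) = -(X.d (i - 1) (j - 1) (q i c)) := he1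
  have hr : ∀ (i j : ℤ) (hj : i - 1 = j) (c : C.P i),
      r j (C.d i j c) = Y.d i j (r i c) + ct Y hj (F.f (i - 1) (q i c)) := he2
  have hext : ∀ (i : ℤ) (c : C.P i), c = v i (q i c) + u i (r i c) := by
    intro i c
    apply (e i).injective
    change e i c = e i ((e i).symm ((e i c).1, 0) + (e i).symm (0, (e i c).2))
    rw [← map_add, LinearEquiv.apply_symm_apply]
    simp
  let g : ∀ i, Y.P i →ₗ[R] X.P i := fun i =>
    ct X (by ring : i + 1 - 1 = i) ∘ₗ q (i + 1) ∘ₗ h i (i + 1) ∘ₗ u i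
  have hg : ∀ (i j : ℤ) (hj : i + 1 = j) (hj' : j - 1 = i) (y : Y.P i),
      ct X hj' (q j (h i j (u i y))) = g i y := by
    intro i j hj hj' y
    subst hj
    rfl
  refine ⟨g, ?_, ?_, ?_⟩
  · intro i k hk y
    have h1 := congrArg (q i) (hh' i (i + 1) k rfl hk (u i y))
    rw [map_add, hq (i + 1) i (by ring), qu] at h1
    have h2 : C.d i k (u i y) = u k (Y.d i k y) := by
      rw [hext k (C.d i k (u i y)), hq i k hk, hr i k hk, qu, ru, map_zero, map_zero, map_zero,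
        neg_zero, map_zero, zero_add, add_zero]
    rw [h2] at h1
    have h3 := congrArg (ct X hk) h1
    rw [map_add, map_neg, map_zero, ct_d, hg k i (by omega) hk] at h3
    have h4 : X.d (i + 1 - 1) k (q (i + 1) (h i (i + 1) (u i y))) = X.d i k (g i y) := by
      rw [← hg i (i + 1) rfl (by ring) y, d_ct]
    rw [h4] at h3
    exact (neg_add_eq_zero.mp h3)
  · intro i
    have e1 : i = i + 1 - 1 := by ring
    have e2 : i + 1 + 1 - 1 = i + 1 := by ring
    refine ⟨ct X e2 ∘ₗ q (i + 1 + 1) ∘ₗ h (i + 1) (i + 1 + 1) ∘ₗ v (i + 1) ∘ₗ ct X e1,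
      ct X e1.symm ∘ₗ q (i + 1) ∘ₗ h i (i + 1) ∘ₗ v i, ?_⟩
    intro x
    obtain ⟨c, hc⟩ : ∃ c : C.P (i + 1), c = v (i + 1) (ct X e1 x) := ⟨_, rfl⟩
    have h1 := congrArg (q (i + 1)) (hh' (i + 1) (i + 1 + 1) i rfl (by ring) c)
    have h2 : C.d (i + 1) i c = - v i (X.d i (i - 1) x) + u i (F.f i x) := by
      rw [hext i (C.d (i + 1) i c), hq (i + 1) i (by ring), hr (i + 1) i (by ring), hc, qv, rv,
        map_zero, zero_add, d_ct, f_ct, ct_ct, map_neg]
    rw [map_add, h2, hq (i + 1 + 1) (i + 1) (by ring), map_add, map_add, map_neg, map_neg, hc, qv]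
      at h1
    have h3 := congrArg (ct X e1.symm) h1
    rw [ct_ct, map_add, map_add, map_neg, map_neg, ct_d, hg i (i + 1) rfl e1.symm] at h3
    have h4 : X.d (i + 1 + 1 - 1) i (q (i + 1 + 1) (h (i + 1) (i + 1 + 1)
        (v (i + 1) (ct X e1 x)))) =
        X.d (i + 1) i (ct X e2 (q (i + 1 + 1) (h (i + 1) (i + 1 + 1)
        (v (i + 1) (ct X e1 x))))) := by
      rw [d_ct]
    rw [h4] at h3
    change g i (F.f i x) - x = X.d (i + 1) i (ct X e2 (q (i + 1 + 1) (h (i + 1) (i + 1 + 1)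
        (v (i + 1) (ct X e1 x))))) + ct X e1.symm (q (i + 1) (h i (i + 1) (v i
        (X.d i (i - 1) x))))
    exact gr1 h3
  · intro i
    refine ⟨r (i + 1) ∘ₗ h i (i + 1) ∘ₗ u i, r i ∘ₗ h (i - 1) i ∘ₗ u (i - 1), ?_⟩
    intro y
    have h1 := congrArg (r i) (hh' i (i + 1) (i - 1) rfl rfl (u i y))
    have h2 : C.d i (i - 1) (u i y) = u (i - 1) (Y.d i (i - 1) y) := by
      rw [hext (i - 1) (C.d i (i - 1) (u i y)), hq i (i - 1) rfl, hr i (i - 1) rfl, qu, ru,
        map_zero, map_zero, map_zero, neg_zero, map_zero, zero_add, add_zero]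
    rw [map_add, h2, hr (i + 1) i (by ring), ru, ← f_ct F (by ring : i + 1 - 1 = i),
      hg i (i + 1) rfl (by ring)] at h1
    change y - F.f i (g i y) = Y.d (i + 1) i (r (i + 1) (h i (i + 1) (u i y))) +
      r i (h (i - 1) i (u (i - 1) (Y.d i (i - 1) y)))
    exact gr2 h1

end cone

/-- comparison of relative indices -/
private lemma relIndex_le {A B : Type} [AddCommGroup A] [AddCommGroup B] [Finite B]
    (f : A →+ B) (IA KA : AddSubgroup A) (IB KB : AddSubgroup B)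
    (hI : IA ≤ KA) (h1 : ∀ x ∈ KA, f x ∈ KB) (h2 : ∀ x ∈ IA, f x ∈ IB)
    (h3 : ∀ x ∈ KA, f x ∈ IB → x ∈ IA) : IA.relIndex KA ≤ IB.relIndex KB := by
  have h4 : IA = IB.comap f ⊓ KA := by
    ext x
    constructor
    · intro hx
      exact ⟨h2 x hx, hI hx⟩
    · rintro ⟨hx, hx'⟩
      exact h3 x hx' hx
  have h5 : IA.relIndex KA = IB.relIndex (KA.map f) := by
    conv_lhs => rw [h4]
    rw [AddSubgroup.inf_relIndex_right, AddSubgroup.relIndex_comap]
  rw [h5]
  refine AddSubgroup.relIndex_le_of_le_right ?_ ?_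
  · rintro _ ⟨x, hx, rfl⟩
    exact h1 x hx
  · exact AddSubgroup.FiniteIndex.index_ne_zero

private lemma card_relIndex {A : Type} [AddCommGroup A] (I K : AddSubgroup A) (h : I ≤ K) :
    Nat.card K = I.relIndex K * Nat.card I := by
  rw [← AddSubgroup.relIndex_bot_left K, ← AddSubgroup.relIndex_bot_left I, mul_comm]
  exact (AddSubgroup.relIndex_mul_relIndex _ _ _ bot_le h).symm

private lemma finite_cov (G : Type) [CommGroup G] [Finite G] (p : ℕ) (hp : 0 < p) (M : Type)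
    [AddCommGroup M] [Module (ZG G) M] [Module.Finite (ZG G) M] : Finite (HSp.CoV G p M) := by
  have : Module.Finite ℤ (ZG G) := inferInstance
  have : Module.Finite ℤ M := Module.Finite.trans (ZG G) M
  have : Module.Finite ℤ (HSp.CoV G p M) :=
    Module.Finite.of_surjective (QuotientAddGroup.mk' (HSp.CoS G p M)).toIntLinearMap
      (QuotientAddGroup.mk'_surjective _)
  refine Module.finite_of_fg_torsion _ ?_
  intro x
  obtain ⟨x, rfl⟩ := QuotientAddGroup.mk_surjective x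
  refine ⟨⟨(p : ℤ), mem_nonZeroDivisors_of_ne_zero (by exact_mod_cast hp.ne')⟩, ?_⟩
  change (p : ℤ) • (QuotientAddGroup.mk x : HSp.CoV G p M) = 0
  rw [← QuotientAddGroup.mk_zsmul, QuotientAddGroup.eq_zero_iff]
  exact AddSubgroup.subset_closure (Or.inr ⟨x, rfl⟩)

theorem sBQI (hKCone : S_KCone) (hKConeEx : S_KConeEx) (hKCtr : S_KCtr) : S_BQI := by
  intro G _ _ X Y F hF p hp b hX i
  obtain ⟨C, e, he, -⟩ := hKCone (ZG G) X Y F
  have hC : C.Exact := (hKConeEx (ZG G) X Y F C e he).mp hF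
  obtain ⟨h, hh⟩ := hKCtr (ZG G) C hC
  obtain ⟨g, hg, hA, hB⟩ := cone_homotopy X Y C F e he h hh
  obtain ⟨a, a', ha⟩ := hA i
  obtain ⟨c, c', hc⟩ := hB i
  have fX : Finite (HSp.CoV G p (X.P i)) := finite_cov G p hp.pos (X.P i)
  have fY : Finite (HSp.CoV G p (Y.P i)) := finite_cov G p hp.pos (Y.P i)
  -- identities on the coinvariants
  have k1 : ∀ (j : ℤ) (x : HSp.CoV G p (X.P i)),
      HSp.coMap G p (Y.d i j) (HSp.coMap G p (F.f i) x) =
        HSp.coMap G p (F.f j) (HSp.coMap G p (X.d i j) x) := by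
    intro j x
    obtain ⟨x, rfl⟩ := QuotientAddGroup.mk_surjective x
    exact congrArg QuotientAddGroup.mk (F.comm i j x).symm
  have k1' : ∀ (x : HSp.CoV G p (X.P (i + 1))),
      HSp.coMap G p (F.f i) (HSp.coMap G p (X.d (i + 1) i) x) =
        HSp.coMap G p (Y.d (i + 1) i) (HSp.coMap G p (F.f (i + 1)) x) := by
    intro x
    obtain ⟨x, rfl⟩ := QuotientAddGroup.mk_surjective x
    exact congrArg QuotientAddGroup.mk (F.comm (i + 1) i x)
  have k2 : ∀ (y : HSp.CoV G p (Y.P i)),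
      HSp.coMap G p (X.d i (i - 1)) (HSp.coMap G p (g i) y) =
        HSp.coMap G p (g (i - 1)) (HSp.coMap G p (Y.d i (i - 1)) y) := by
    intro y
    obtain ⟨y, rfl⟩ := QuotientAddGroup.mk_surjective y
    exact congrArg QuotientAddGroup.mk (hg i (i - 1) rfl y)
  have k2' : ∀ (y : HSp.CoV G p (Y.P (i + 1))),
      HSp.coMap G p (g i) (HSp.coMap G p (Y.d (i + 1) i) y) =
        HSp.coMap G p (X.d (i + 1) i) (HSp.coMap G p (g (i + 1)) y) := by
    intro y
    obtain ⟨y, rfl⟩ := QuotientAddGroup.mk_surjective y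
    exact congrArg QuotientAddGroup.mk (hg (i + 1) i (by ring) y).symm
  have k3 : ∀ (x : HSp.CoV G p (X.P i)),
      HSp.coMap G p (g i) (HSp.coMap G p (F.f i) x) - x =
        HSp.coMap G p (X.d (i + 1) i) (HSp.coMap G p a x) +
          HSp.coMap G p a' (HSp.coMap G p (X.d i (i - 1)) x) := by
    intro x
    obtain ⟨x, rfl⟩ := QuotientAddGroup.mk_surjective x
    exact congrArg QuotientAddGroup.mk (ha x)
  have k4 : ∀ (y : HSp.CoV G p (Y.P i)),
      y - HSp.coMap G p (F.f i) (HSp.coMap G p (g i) y) =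
        HSp.coMap G p (Y.d (i + 1) i) (HSp.coMap G p c y) +
          HSp.coMap G p c' (HSp.coMap G p (Y.d i (i - 1)) y) := by
    intro y
    obtain ⟨y, rfl⟩ := QuotientAddGroup.mk_surjective y
    exact congrArg QuotientAddGroup.mk (hc y)
  have hIX : (HSp.coMap G p (X.d (i + 1) i)).range ≤ (HSp.coMap G p (X.d i (i - 1))).ker := by
    rintro _ ⟨x, rfl⟩
    obtain ⟨x, rfl⟩ := QuotientAddGroup.mk_surjective x
    exact congrArg QuotientAddGroup.mk (X.dd (i + 1) i (i - 1) x)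
  have hIY : (HSp.coMap G p (Y.d (i + 1) i)).range ≤ (HSp.coMap G p (Y.d i (i - 1))).ker := by
    rintro _ ⟨x, rfl⟩
    obtain ⟨x, rfl⟩ := QuotientAddGroup.mk_surjective x
    exact congrArg QuotientAddGroup.mk (Y.dd (i + 1) i (i - 1) x)
  have r1 := relIndex_le (HSp.coMap G p (F.f i)) _ _ (HSp.coMap G p (Y.d (i + 1) i)).range
    (HSp.coMap G p (Y.d i (i - 1))).ker hIX
    (fun x hx => by
      change HSp.coMap G p (Y.d i (i - 1)) (HSp.coMap G p (F.f i) x) = 0
      rw [k1, (hx : HSp.coMap G p (X.d i (i - 1)) x = 0), map_zero])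
    (fun x hx => by
      obtain ⟨z, rfl⟩ := hx
      exact ⟨_, (k1' z).symm⟩)
    (fun x hx hx' => by
      obtain ⟨z, hz⟩ := hx'
      have h1 := k3 x
      rw [(hx : HSp.coMap G p (X.d i (i - 1)) x = 0), map_zero, add_zero, ← hz, k2',
        sub_eq_iff_eq_add, ← sub_eq_iff_eq_add'] at h1
      rw [← h1, ← map_sub]
      exact ⟨_, rfl⟩)
  have r2 := relIndex_le (HSp.coMap G p (g i)) _ _ (HSp.coMap G p (X.d (i + 1) i)).range
    (HSp.coMap G p (X.d i (i - 1))).ker hIY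
    (fun x hx => by
      change HSp.coMap G p (X.d i (i - 1)) (HSp.coMap G p (g i) x) = 0
      rw [k2, (hx : HSp.coMap G p (Y.d i (i - 1)) x = 0), map_zero])
    (fun x hx => by
      obtain ⟨z, rfl⟩ := hx
      exact ⟨_, (k2' z).symm⟩)
    (fun x hx hx' => by
      obtain ⟨z, hz⟩ := hx'
      have h1 := k4 x
      rw [(hx : HSp.coMap G p (Y.d i (i - 1)) x = 0), map_zero, add_zero, ← hz, k1',
        sub_eq_iff_eq_add] at h1
      rw [h1, ← map_add]
      exact ⟨_, rfl⟩)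
  have h1 := hX i
  rw [card_relIndex _ _ hIX] at h1
  rw [card_relIndex _ _ hIY]
  have h2 : 0 < Nat.card (HSp.coMap G p (X.d (i + 1) i)).range := Nat.card_pos
  have h3 := Nat.eq_of_mul_eq_mul_right h2 h1
  rw [← h3, le_antisymm r2 r1]

end HEp
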