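import Pool.Agent.Lib.MP_181146_gt.HE.SpecG

/-!
# Project HE, module DFr: the dual of a free module
-/

set_option autoImplicit false

namespace HEp

/-- the dual of a finite power -/
private noncomputable def dfrEquiv (R : Type) [CommRing R] (n : ℕ) (M : Type) [AddCommGroup M]
    [Module R M] : ZD R (Fin n → M) ≃ₗ[R] (Fin n → ZD R M) where
  toFun f i := ZDmap (LinearMap.single R (fun _ : Fin n => M) i) f
  map_add' f g := by
    funext i
    exact map_add _ f g
  map_smul' a f := by
    funext i
    exact map_smul _ a f
  invFun F := AddMonoidHom.mk' (fun x : Fin n → M => ∑ i, F i (x i)) (by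
    intro x y
    rw [← Finset.sum_add_distrib]
    exact Finset.sum_congr rfl fun i _ => map_add (F i) (x i) (y i))
  left_inv f := by
    apply AddMonoidHom.ext
    intro x
    change ∑ i, f (Pi.single i (x i)) = f x
    rw [← map_sum, Finset.univ_sum_single]
  right_inv F := by
    funext i
    apply AddMonoidHom.ext
    intro x
    change ∑ j, F j ((Pi.single i x : Fin n → M) j) = F i x
    rw [Finset.sum_eq_single i]
    · rw [Pi.single_eq_same]
    · intro j _ hj
      rw [Pi.single_eq_of_ne hj, map_zero]
    · intro h
      exact absurd (Finset.mem_univ i) h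

theorem sDFr (hDSelf : S_DSelf) : S_DFr := by
  intro G _ _ n
  obtain ⟨e⟩ := hDSelf G
  exact ⟨(dfrEquiv (ZG G) n (ZG G)).trans (LinearEquiv.piCongrRight fun _ => e)⟩

end HEp
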