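import Pool.Agent.Lib.MP_181146_gt.HE.SpecG

/-!
# Project HE: the tensor product with the functions on a finite group
-/

set_option autoImplicit false

namespace HEp

open scoped TensorProduct

section

variable {G : Type} [CommGroup G]

/-- an additive map commuting with the elements of the group is linear -/
private theorem DTTF_lin {A B : Type} [AddCommGroup A] [Module (ZG G) A] [AddCommGroup B]
    [Module (ZG G) B] (f : A →+ B)
    (hf : ∀ (g : G) (x : A), f (MonoidAlgebra.of ℤ G g • x) = MonoidAlgebra.of ℤ G g • f x)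
    (a : ZG G) (x : A) : f (a • x) = a • f x := by
  induction a using MonoidAlgebra.induction_on with
  | of g => exact hf g x
  | add a b ha hb => rw [add_smul, add_smul, map_add, ha, hb]
  | smul r a ha =>
    have h1 : (r • a : ZG G) • x = r • (a • x) := by
      rw [smul_assoc]
    have h2 : (r • a : ZG G) • f x = r • (a • f x) := by
      rw [smul_assoc]
    rw [h1, h2, map_zsmul, ha]

variable {X : Type} [AddCommGroup X] (ρ : G →* Multiplicative X) (M : Type)
  [AddCommGroup M]

/-- the bilinear map `(m, F) ↦ (x ↦ F x • m)` -/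
private noncomputable def DTTF_bil : M →+ (TF ρ (Tv G ℤ)) →+ TF ρ M where
  toFun m :=
    { toFun := fun F => (fun x => (show ℤ from F x) • m : X → M)
      map_zero' := by
        funext x
        exact zero_smul ℤ m
      map_add' := fun F F' => by
        funext x
        exact add_smul (show ℤ from F x) (show ℤ from F' x) m }
  map_zero' := by
    apply AddMonoidHom.ext
    intro F
    funext x
    exact smul_zero (show ℤ from F x)
  map_add' m m' := by
    apply AddMonoidHom.ext
    intro F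
    funext x
    exact smul_add (show ℤ from F x) m m'

/-- the map `m ⊗ F ↦ (x ↦ F x • m)` -/
private noncomputable def DTTF_fun : DT G M (TF ρ (Tv G ℤ)) →+ TF ρ M :=
  TensorProduct.liftAddHom (DTTF_bil ρ M) (by
    intro r m F
    funext x
    change (show ℤ from F x) • (r • m) = (show ℤ from (r • F) x) • m
    have h : (show ℤ from (r • F) x) = r * (show ℤ from F x) := by
      have h1 : (r • F) x = r • (F x) := rfl
      rw [h1]
      exact smul_eq_mul r (show ℤ from F x)
    rw [h, smul_smul, mul_comm])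

private theorem DTTF_fun_dt (m : M) (F : TF ρ (Tv G ℤ)) (x : X) :
    DTTF_fun ρ M (dt G m F) x = (show ℤ from F x) • m := rfl

open Classical in
/-- the function which is one at `x` and zero elsewhere -/
private noncomputable def DTTF_e (x : X) : TF ρ (Tv G ℤ) :=
  (fun y => if y = x then (1 : ℤ) else 0 : X → ℤ)

private theorem DTTF_sum_apply {N : Type} [AddCommGroup N] (s : Finset X) (F : X → TF ρ N)
    (y : X) : (∑ x ∈ s, F x : TF ρ N) y = ∑ x ∈ s, F x y :=
  Finset.sum_apply (M := fun _ => N) y s F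

private theorem DTTF_dt_add (m m' : M) (F : TF ρ (Tv G ℤ)) :
    dt G (m + m') F = dt G m F + dt G m' F :=
  TensorProduct.add_tmul m m' F

private theorem DTTF_dt_smul (r : ℤ) (m : M) (F : TF ρ (Tv G ℤ)) :
    dt G (r • m) F = dt G m (r • F) :=
  TensorProduct.smul_tmul r m F

private theorem DTTF_dt_sum (m : M) (s : Finset X) (F : X → TF ρ (Tv G ℤ)) :
    dt G m (∑ x ∈ s, F x) = ∑ x ∈ s, dt G m (F x) :=
  TensorProduct.tmul_sum m s F

/-- the inverse `F ↦ ∑ x, F x ⊗ e x` -/
private noncomputable def DTTF_inv [Fintype X] : TF ρ M →+ DT G M (TF ρ (Tv G ℤ)) where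
  toFun F := ∑ x : X, dt G (F x) (DTTF_e ρ x)
  map_zero' := by
    refine Finset.sum_eq_zero fun x _ => ?_
    exact TensorProduct.zero_tmul M (DTTF_e ρ x)
  map_add' F F' := by
    rw [← Finset.sum_add_distrib]
    refine Finset.sum_congr rfl fun x _ => ?_
    exact DTTF_dt_add ρ M (F x) (F' x) (DTTF_e ρ x)

open Classical in
private theorem DTTF_right [Fintype X] (F : TF ρ M) : DTTF_fun ρ M (DTTF_inv ρ M F) = F := by
  funext y
  change DTTF_fun ρ M (∑ x : X, dt G (F x) (DTTF_e ρ x)) y = F y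
  rw [map_sum, DTTF_sum_apply]
  have h : ∀ x ∈ (Finset.univ : Finset X), DTTF_fun ρ M (dt G (F x) (DTTF_e ρ x)) y =
      if x = y then F x else 0 := by
    intro x _
    rw [DTTF_fun_dt]
    change (if y = x then (1 : ℤ) else 0) • F x = _
    by_cases hxy : x = y
    · rw [if_pos hxy, if_pos hxy.symm, one_smul]
    · rw [if_neg hxy, if_neg (fun h => hxy h.symm), zero_smul]
  rw [Finset.sum_congr rfl h, Finset.sum_ite_eq' Finset.univ y F, if_pos (Finset.mem_univ y)]

open Classical in
private theorem DTTF_exp [Fintype X] (F : TF ρ (Tv G ℤ)) :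
    ∑ x : X, (show ℤ from F x) • DTTF_e ρ x = F := by
  funext y
  rw [DTTF_sum_apply]
  have h : ∀ x ∈ (Finset.univ : Finset X), ((show ℤ from F x) • DTTF_e ρ x : TF ρ (Tv G ℤ)) y =
      if x = y then F x else 0 := by
    intro x _
    change (show ℤ from F x) • (if y = x then (1 : ℤ) else 0) = _
    by_cases hxy : x = y
    · rw [if_pos hxy, if_pos hxy.symm, smul_eq_mul, mul_one]
    · rw [if_neg hxy, if_neg (fun h => hxy h.symm), smul_zero]
      rfl
  rw [Finset.sum_congr rfl h, Finset.sum_ite_eq' Finset.univ y F, if_pos (Finset.mem_univ y)]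

private theorem DTTF_left [Fintype X] (t : DT G M (TF ρ (Tv G ℤ))) :
    DTTF_inv ρ M (DTTF_fun ρ M t) = t := by
  refine TensorProduct.induction_on (motive := fun t => DTTF_inv ρ M (DTTF_fun ρ M t) = t) t
    ?_ ?_ ?_
  · exact (congrArg (DTTF_inv ρ M) (map_zero (DTTF_fun ρ M))).trans (map_zero (DTTF_inv ρ M))
  · intro m F
    change ∑ x : X, dt G ((show ℤ from F x) • m) (DTTF_e ρ x) = dt G m F
    have h : ∀ x ∈ (Finset.univ : Finset X), dt G ((show ℤ from F x) • m) (DTTF_e ρ x) =
        dt G m ((show ℤ from F x) • DTTF_e ρ x) := fun x _ => DTTF_dt_smul ρ M _ m _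
    rw [Finset.sum_congr rfl h, ← DTTF_dt_sum, DTTF_exp]
  · intro a b ha hb
    exact (congrArg (DTTF_inv ρ M) (map_add (DTTF_fun ρ M) a b)).trans
      ((map_add (DTTF_inv ρ M) _ _).trans (congrArg₂ (· + ·) ha hb))

variable [Module (ZG G) M]

private theorem DTTF_comm (g : G) (t : DT G M (TF ρ (Tv G ℤ))) :
    DTTF_fun ρ M (MonoidAlgebra.of ℤ G g • t) = MonoidAlgebra.of ℤ G g • DTTF_fun ρ M t := by
  refine TensorProduct.induction_on (motive := fun t => DTTF_fun ρ M
    (MonoidAlgebra.of ℤ G g • (show DT G M (TF ρ (Tv G ℤ)) from t)) =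
      MonoidAlgebra.of ℤ G g • DTTF_fun ρ M t) t ?_ ?_ ?_
  · have h1 : (MonoidAlgebra.of ℤ G g • (0 : DT G M (TF ρ (Tv G ℤ)))) = 0 := smul_zero _
    have h2 : DTTF_fun ρ M (0 : DT G M (TF ρ (Tv G ℤ))) = 0 := map_zero _
    change DTTF_fun ρ M (MonoidAlgebra.of ℤ G g • (0 : DT G M (TF ρ (Tv G ℤ)))) =
      MonoidAlgebra.of ℤ G g • DTTF_fun ρ M (0 : DT G M (TF ρ (Tv G ℤ)))
    rw [h1, h2, smul_zero]
  · intro m F
    change DTTF_fun ρ M (MonoidAlgebra.of ℤ G g • dt G m F) =
      MonoidAlgebra.of ℤ G g • DTTF_fun ρ M (dt G m F)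
    rw [DT_of_smul]
    funext x
    rw [TF_of_smul, DTTF_fun_dt, DTTF_fun_dt, TF_of_smul, Tv_of_smul]
    exact smul_comm _ _ _
  · intro a b ha hb
    have h1 : (MonoidAlgebra.of ℤ G g • ((show DT G M (TF ρ (Tv G ℤ)) from a) +
        (show DT G M (TF ρ (Tv G ℤ)) from b))) =
      MonoidAlgebra.of ℤ G g • (show DT G M (TF ρ (Tv G ℤ)) from a) +
        MonoidAlgebra.of ℤ G g • (show DT G M (TF ρ (Tv G ℤ)) from b) := smul_add _ _ _
    have h2 : DTTF_fun ρ M ((show DT G M (TF ρ (Tv G ℤ)) from a) +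
        (show DT G M (TF ρ (Tv G ℤ)) from b)) = DTTF_fun ρ M a + DTTF_fun ρ M b := map_add _ _ _
    change DTTF_fun ρ M (MonoidAlgebra.of ℤ G g • ((show DT G M (TF ρ (Tv G ℤ)) from a) +
        (show DT G M (TF ρ (Tv G ℤ)) from b))) = MonoidAlgebra.of ℤ G g • DTTF_fun ρ M
        ((show DT G M (TF ρ (Tv G ℤ)) from a) + (show DT G M (TF ρ (Tv G ℤ)) from b))
    rw [h1, h2, map_add, ha, hb, smul_add]

end

/-- **DTTF.** -/
theorem sDTTF : S_DTTF := by
  intro G _ X _ _ ρ M _ _
  classical
  have := Fintype.ofFinite X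
  exact ⟨{ toFun := DTTF_fun ρ M
           map_add' := map_add (DTTF_fun ρ M)
           map_smul' := fun a x => DTTF_lin (DTTF_fun ρ M) (DTTF_comm ρ M) a x
           invFun := DTTF_inv ρ M
           left_inv := DTTF_left ρ M
           right_inv := DTTF_right ρ M }⟩

end HEp
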