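import Pool.Agent.Lib.SingHom.Htpy
import Pool.Agent.Lib.MP_181146_gt.HE.DefsG

/-!
# Project HE: simplicial sets, chains, differential modules with a parity

`SS`: simplicial sets on which ALL maps between the vertex sets act (the singular simplices of a
space are an example).  `Ch k K` is the total module of chains, `bd` the boundary, `od` the
projection onto the chains of odd dimension.  `DG k`: differential modules with a parity projection.
-/

set_option autoImplicit false

namespace HEp

open scoped TensorProduct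

/-! ## Simplicial sets -/

/-- Simplicial sets on which all maps of vertices act. -/
structure SS where
  K : ℕ → Type
  act : ∀ {m n : ℕ}, (Fin (m + 1) → Fin (n + 1)) → K n → K m
  act_id : ∀ {n : ℕ} (x : K n), act id x = x
  act_comp : ∀ {l m n : ℕ} (a : Fin (l + 1) → Fin (m + 1)) (b : Fin (m + 1) → Fin (n + 1))
    (x : K n), act a (act b x) = act (b ∘ a) x

/-- Maps of simplicial sets. -/
structure SSHom (K L : SS) where
  f : ∀ {n : ℕ}, K.K n → L.K n
  nat : ∀ {m n : ℕ} (a : Fin (m + 1) → Fin (n + 1)) (x : K.K n), f (K.act a x) = L.act a (f x)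

/-- The identity. -/
def SSHom.id (K : SS) : SSHom K K where
  f := fun x => x
  nat := fun _ _ => rfl

/-- Composition. -/
def SSHom.comp {K L M : SS} (g : SSHom L M) (f : SSHom K L) : SSHom K M where
  f := fun x => g.f (f.f x)
  nat := fun a x => by rw [f.nat, g.nat]

/-- The product. -/
def SS.prod (K L : SS) : SS where
  K := fun n => K.K n × L.K n
  act := fun a x => (K.act a x.1, L.act a x.2)
  act_id := fun x => by rw [K.act_id, L.act_id]
  act_comp := fun a b x => by rw [K.act_comp, L.act_comp]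

/-- The product of maps. -/
def SSHom.prod {K K' L L' : SS} (f : SSHom K K') (g : SSHom L L') :
    SSHom (K.prod L) (K'.prod L') where
  f := fun x => (f.f x.1, g.f x.2)
  nat := fun a x => by
    change (f.f (K.act a x.1), g.f (L.act a x.2)) = (K'.act a (f.f x.1), L'.act a (g.f x.2))
    rw [f.nat, g.nat]

/-- The diagonal. -/
def SSHom.diag (K : SS) : SSHom K (K.prod K) where
  f := fun x => (x, x)
  nat := fun _ _ => rfl

/-- All maps of vertices into a set `Y`. -/
def Ed (Y : Type) : SS where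
  K := fun n => Fin (n + 1) → Y
  act := fun a v => v ∘ a
  act_id := fun _ => rfl
  act_comp := fun _ _ _ => rfl

/-- Functoriality. -/
def Ed.map {Y Z : Type} (g : Y → Z) : SSHom (Ed Y) (Ed Z) where
  f := fun v => g ∘ v
  nat := fun _ _ => rfl

/-- The simplex with vertices `0, …, p`. -/
abbrev De (p : ℕ) : SS := Ed (Fin (p + 1))

/-- The map from the simplex given by an element of `K`. -/
def SS.ev (K : SS) {n : ℕ} (x : K.K n) : SSHom (De n) K where
  f := fun v => K.act v x
  nat := fun a v => (K.act_comp a v x).symm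

/-- The singular simplices of a space. -/
noncomputable def Sing (E : Type) [TopologicalSpace E] : SS where
  K := fun n => C(Pool.Agent.Lib.SingHom.Sx n, E)
  act := fun a σ => σ.comp (Pool.Agent.Lib.SingHom.smap a)
  act_id := fun {n} σ => by
    have : Pool.Agent.Lib.SingHom.smap (_root_.id : Fin (n + 1) → Fin (n + 1)) =
        ContinuousMap.id _ := by
      rw [Pool.Agent.Lib.SingHom.smap_eq_aff]
      exact Pool.Agent.Lib.SingHom.aff_id
    rw [this, ContinuousMap.comp_id]
  act_comp := fun a b σ => by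
    rw [ContinuousMap.comp_assoc]
    congr 1
    rw [Pool.Agent.Lib.SingHom.smap_eq_aff b, Pool.Agent.Lib.SingHom.aff_smap,
      Pool.Agent.Lib.SingHom.smap_eq_aff]
    rfl

/-- The map on singular simplices induced by a continuous map. -/
def SingMap {E E' : Type} [TopologicalSpace E] [TopologicalSpace E'] (g : C(E, E')) :
    SSHom (Sing E) (Sing E') where
  f := fun σ => g.comp σ
  nat := fun _ _ => rfl

/-- The product map `Sing E × Sing E' → Sing (E × E')`, composed with `m : E × E' → E''`. -/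
def SingMul {E E' E'' : Type} [TopologicalSpace E] [TopologicalSpace E'] [TopologicalSpace E'']
    (m : C(E × E', E'')) : SSHom ((Sing E).prod (Sing E')) (Sing E'') where
  f := fun x => m.comp (ContinuousMap.prodMk x.1 x.2)
  nat := fun _ _ => rfl

/-- The point `v` as a vertex. -/
def vtx {E : Type} [TopologicalSpace E] (v : E) : (Sing E).K 0 := ContinuousMap.const _ v

/-! ## Chains -/

section Chains

variable (k : Type) [CommRing k] (K L : SS)

/-- The total module of chains. -/
abbrev Ch : Type := (Σ n, K.K n) →₀ k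

variable {K L}

/-- A simplex as a chain. -/
noncomputable def sx {n : ℕ} (x : K.K n) : Ch k K := Finsupp.single ⟨n, x⟩ 1

variable {k} in
/-- Linear maps which agree on simplices agree. -/
lemma ch_ext {M : Type*} [AddCommGroup M] [Module k M] {f g : Ch k K →ₗ[k] M}
    (h : ∀ (n : ℕ) (x : K.K n), f (sx k x) = g (sx k x)) : f = g := by
  apply Finsupp.lhom_ext'
  rintro ⟨n, x⟩
  apply LinearMap.ext_ring
  exact h n x

/-- The boundary of a simplex. -/
noncomputable def bd1 : (Σ n, K.K n) → Ch k K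
  | ⟨0, _⟩ => 0
  | ⟨n + 1, x⟩ => ∑ i : Fin (n + 2), (-1 : k) ^ (i : ℕ) • sx k (K.act i.succAbove x)

variable (K) in
/-- The boundary. -/
noncomputable def bd : Ch k K →ₗ[k] Ch k K := Finsupp.linearCombination k (bd1 k)

variable (K) in
/-- The projection onto the chains of odd dimension. -/
noncomputable def od : Ch k K →ₗ[k] Ch k K :=
  Finsupp.linearCombination k (fun x => if Odd x.1 then Finsupp.single x 1 else 0)

variable (K) in
/-- The augmentation. -/
noncomputable def aug : Ch k K →ₗ[k] k :=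
  Finsupp.linearCombination k (fun x => if x.1 = 0 then 1 else 0)

/-- The map on chains. -/
noncomputable def cmap (f : SSHom K L) : Ch k K →ₗ[k] Ch k L :=
  Finsupp.lmapDomain k k (fun x => ⟨x.1, f.f x.2⟩)

variable (K) in
/-- The chains of dimension `n`. -/
def gr (n : ℕ) : Submodule k (Ch k K) := Finsupp.supported k k {x | x.1 = n}

lemma bd_sx_zero (x : K.K 0) : bd k K (sx k x) = 0 := by
  rw [bd, sx, Finsupp.linearCombination_single, one_smul]
  rfl

lemma bd_sx {n : ℕ} (x : K.K (n + 1)) : bd k K (sx k x) =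
    ∑ i : Fin (n + 2), (-1 : k) ^ (i : ℕ) • sx k (K.act i.succAbove x) := by
  rw [bd, sx, Finsupp.linearCombination_single, one_smul]
  rfl

lemma od_sx {n : ℕ} (x : K.K n) : od k K (sx k x) = if Odd n then sx k x else 0 := by
  rw [od, sx, Finsupp.linearCombination_single, one_smul]

lemma aug_sx_zero (x : K.K 0) : aug k K (sx k x) = 1 := by
  rw [aug, sx, Finsupp.linearCombination_single, one_smul]
  rfl

lemma aug_sx_succ {n : ℕ} (x : K.K (n + 1)) : aug k K (sx k x) = 0 := by
  rw [aug, sx, Finsupp.linearCombination_single, one_smul]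
  rfl

lemma cmap_sx (f : SSHom K L) {n : ℕ} (x : K.K n) : cmap k f (sx k x) = sx k (f.f x) := by
  rw [cmap, sx, Finsupp.lmapDomain_apply, Finsupp.mapDomain_single]
  rfl

lemma sx_mem_gr {n : ℕ} (x : K.K n) : sx k x ∈ gr k K n :=
  Finsupp.single_mem_supported k 1 rfl

lemma cmap_id (x : Ch k K) : cmap k (SSHom.id K) x = x := by
  have : cmap k (SSHom.id K) = LinearMap.id := ch_ext fun n x => by rw [cmap_sx]; rfl
  rw [this]
  rfl

lemma cmap_comp {M : SS} (g : SSHom L M) (f : SSHom K L) (x : Ch k K) :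
    cmap k (g.comp f) x = cmap k g (cmap k f x) := by
  have : cmap k (g.comp f) = cmap k g ∘ₗ cmap k f := ch_ext fun n x => by
    rw [cmap_sx, LinearMap.comp_apply, cmap_sx, cmap_sx]
    rfl
  rw [this]
  rfl

lemma cmap_bd (f : SSHom K L) (x : Ch k K) : cmap k f (bd k K x) = bd k L (cmap k f x) := by
  have : cmap k f ∘ₗ bd k K = bd k L ∘ₗ cmap k f := ch_ext fun n x => by
    rw [LinearMap.comp_apply, LinearMap.comp_apply, cmap_sx]
    cases n with
    | zero => rw [bd_sx_zero, bd_sx_zero, map_zero]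
    | succ n =>
      rw [bd_sx, bd_sx, map_sum]
      refine Finset.sum_congr rfl fun i _ => ?_
      rw [map_smul, cmap_sx, f.nat]
  exact LinearMap.congr_fun this x

lemma cmap_od (f : SSHom K L) (x : Ch k K) : cmap k f (od k K x) = od k L (cmap k f x) := by
  have : cmap k f ∘ₗ od k K = od k L ∘ₗ cmap k f := ch_ext fun n x => by
    rw [LinearMap.comp_apply, LinearMap.comp_apply, cmap_sx, od_sx, od_sx]
    split_ifs
    · rw [cmap_sx]
    · rw [map_zero]
  exact LinearMap.congr_fun this x

lemma aug_cmap (f : SSHom K L) (x : Ch k K) : aug k L (cmap k f x) = aug k K x := by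
  have : aug k L ∘ₗ cmap k f = aug k K := ch_ext fun n x => by
    rw [LinearMap.comp_apply, cmap_sx]
    cases n with
    | zero => rw [aug_sx_zero, aug_sx_zero]
    | succ n => rw [aug_sx_succ, aug_sx_succ]
  exact LinearMap.congr_fun this x

lemma ev_sx {n : ℕ} (x : K.K n) : cmap k (K.ev x) (sx k (K := De n) (_root_.id : Fin (n + 1) → Fin (n + 1))) =
    sx k x := by
  rw [cmap_sx]
  exact congrArg (sx k) (K.act_id x)

lemma ev_act {m n : ℕ} (a : Fin (m + 1) → Fin (n + 1)) (x : K.K n) :
    K.ev (K.act a x) = (K.ev x).comp (Ed.map a) := by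
  unfold SS.ev SSHom.comp Ed.map
  congr 1
  funext l v
  exact K.act_comp v a x

/-! ### `bd` is a differential -/

/-- The cone operator of `Ed Y`. -/
noncomputable def coneY {Y : Type} (b : Y) : Ch k (Ed Y) →ₗ[k] Ch k (Ed Y) :=
  Finsupp.lmapDomain k k (fun x => ⟨x.1 + 1, (Fin.cons b x.2 : Fin (x.1 + 2) → Y)⟩)

lemma coneY_sx {Y : Type} (b : Y) {n : ℕ} (v : Fin (n + 1) → Y) :
    coneY k b (sx k (K := Ed Y) v) = sx k (K := Ed Y) (n := n + 1) (Fin.cons b v : Fin (n + 2) → Y) := by
  rw [coneY, sx, Finsupp.lmapDomain_apply, Finsupp.mapDomain_single]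
  rfl

lemma bd_coneY {Y : Type} (b : Y) (x : Ch k (Ed Y)) :
    bd k (Ed Y) (coneY k b x) + coneY k b (bd k (Ed Y) x) =
      x - aug k (Ed Y) x • sx k (K := Ed Y) (n := 0) (fun _ => b) := by
  have h : bd k (Ed Y) ∘ₗ coneY k b + coneY k b ∘ₗ bd k (Ed Y) = LinearMap.id -
      (LinearMap.toSpanSingleton k (Ch k (Ed Y)) (sx k (K := Ed Y) (n := 0) (fun _ => b))) ∘ₗ
        aug k (Ed Y) := ch_ext fun n v => by
    rw [LinearMap.add_apply, LinearMap.comp_apply, LinearMap.comp_apply, LinearMap.sub_apply,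
      LinearMap.comp_apply, LinearMap.toSpanSingleton_apply, LinearMap.id_apply, coneY_sx, bd_sx,
      Fin.sum_univ_succ]
    have h0 : (Ed Y).act (0 : Fin (n + 2)).succAbove (Fin.cons b v : Fin (n + 2) → Y) = v := by
      funext i
      change (Fin.cons b v : Fin (n + 2) → Y) ((0 : Fin (n + 2)).succAbove i) = v i
      simp
    rw [h0, Fin.val_zero, pow_zero, one_smul]
    cases n with
    | zero =>
      rw [bd_sx_zero, map_zero, add_zero, aug_sx_zero, one_smul, Fin.sum_univ_succ,
        Fin.sum_univ_zero, add_zero]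
      have h1 : (Ed Y).act (Fin.succ (0 : Fin (0 + 1))).succAbove
          (Fin.cons b (v : Fin 1 → Y) : Fin 2 → Y) = (fun _ => b : Fin 1 → Y) := by
        funext i
        fin_cases i
        rfl
      rw [h1]
      simp [sub_eq_add_neg]
    | succ n =>
      rw [bd_sx, aug_sx_succ, zero_smul, sub_zero, map_sum, add_assoc, ← Finset.sum_add_distrib]
      rw [Finset.sum_eq_zero, add_zero]
      intro i _
      rw [map_smul, coneY_sx, Fin.val_succ, pow_succ, mul_neg, mul_one, neg_smul]
      have h2 : (Ed Y).act (Fin.succ i).succAbove (Fin.cons b v : Fin (n + 3) → Y) =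
          (Fin.cons b ((Ed Y).act i.succAbove v) : Fin (n + 2) → Y) := by
        funext j
        change (Fin.cons b v : Fin (n + 3) → Y) ((Fin.succ i).succAbove j) = _
        refine Fin.cases ?_ (fun j => ?_) j
        · simp
        · simp only [Fin.succ_succAbove_succ, Fin.cons_succ]
          rfl
      rw [h2]
      exact neg_add_cancel _
  exact LinearMap.congr_fun h x

lemma aug_bd (x : Ch k K) : aug k K (bd k K x) = 0 := by
  have h : aug k K ∘ₗ bd k K = 0 := ch_ext fun n x => by
    rw [LinearMap.comp_apply, LinearMap.zero_apply]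
    cases n with
    | zero => rw [bd_sx_zero, map_zero]
    | succ n =>
      rw [bd_sx, map_sum]
      cases n with
      | zero =>
        rw [Fin.sum_univ_two, map_smul, map_smul, aug_sx_zero, aug_sx_zero]
        simp
      | succ n =>
        refine Finset.sum_eq_zero fun i _ => ?_
        rw [map_smul, aug_sx_succ, smul_zero]
  exact LinearMap.congr_fun h x

lemma bd_bd_Ed {Y : Type} (n : ℕ) (v : Fin (n + 1) → Y) :
    bd k (Ed Y) (bd k (Ed Y) (sx k (K := Ed Y) v)) = 0 := by
  induction n with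
  | zero => rw [bd_sx_zero, map_zero]
  | succ n ih =>
    obtain ⟨b, w, rfl⟩ : ∃ b, ∃ w : Fin (n + 1) → Y, v = Fin.cons b w :=
      ⟨v 0, Fin.tail v, (Fin.cons_self_tail v).symm⟩
    have h := bd_coneY k b (sx k (K := Ed Y) w)
    rw [coneY_sx] at h
    have h2 := bd_coneY k b (bd k (Ed Y) (sx k (K := Ed Y) w))
    rw [ih w, map_zero, add_zero, aug_bd, zero_smul, sub_zero] at h2
    rw [← eq_sub_iff_add_eq] at h
    rw [h, map_sub, map_sub, map_smul, bd_sx_zero, smul_zero, sub_zero, h2, sub_self]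

lemma bd_bd (x : Ch k K) : bd k K (bd k K x) = 0 := by
  have h : bd k K ∘ₗ bd k K = 0 := ch_ext fun n x => by
    rw [LinearMap.comp_apply, ← ev_sx k x, ← cmap_bd, ← cmap_bd, bd_bd_Ed, map_zero]
    rfl
  exact LinearMap.congr_fun h x

lemma od_od (x : Ch k K) : od k K (od k K x) = od k K x := by
  have h : od k K ∘ₗ od k K = od k K := ch_ext fun n x => by
    rw [LinearMap.comp_apply, od_sx]
    split_ifs with h
    · rw [od_sx, if_pos h]
    · rw [map_zero]
  exact LinearMap.congr_fun h x

lemma od_bd (x : Ch k K) : od k K (bd k K x) = bd k K (x - od k K x) := by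
  have h : od k K ∘ₗ bd k K = bd k K ∘ₗ (LinearMap.id - od k K) := ch_ext fun n x => by
    rw [LinearMap.comp_apply, LinearMap.comp_apply, LinearMap.sub_apply, LinearMap.id_apply, od_sx]
    cases n with
    | zero => rw [bd_sx_zero, map_zero, if_neg (by decide), sub_zero, bd_sx_zero]
    | succ n =>
      by_cases h : Odd (n + 1)
      · rw [if_pos h, sub_self, map_zero, bd_sx, map_sum]
        refine Finset.sum_eq_zero fun i _ => ?_
        rw [map_smul, od_sx, if_neg (fun h' => by
          rw [Nat.odd_add_one] at h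
          exact h h'), smul_zero]
      · rw [if_neg h, sub_zero, bd_sx, map_sum]
        refine Finset.sum_congr rfl fun i _ => ?_
        rw [map_smul, od_sx, if_pos (by
          rw [Nat.odd_add_one, not_not] at h
          exact h)]
  exact LinearMap.congr_fun h x

end Chains

/-! ## Differential modules with parity -/

/-- A differential module with a projection `P` onto the odd part. -/
structure DG (k : Type) [CommRing k] where
  V : Type
  [ac : AddCommGroup V]
  [mo : Module k V]
  d : V →ₗ[k] V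
  P : V →ₗ[k] V
  dd : ∀ x, d (d x) = 0
  PP : ∀ x, P (P x) = P x
  Pd : ∀ x, P (d x) = d (x - P x)

attribute [instance] DG.ac DG.mo

section DGs

variable {k : Type} [CommRing k]

/-- The sign operator. -/
def DG.sg (A : DG k) : A.V →ₗ[k] A.V := LinearMap.id - (2 : k) • A.P

lemma DG.sg_apply (A : DG k) (x : A.V) : A.sg x = x - (2 : k) • A.P x := rfl

lemma DG.sg_sg (A : DG k) (x : A.V) : A.sg (A.sg x) = x := by
  rw [DG.sg_apply, DG.sg_apply, map_sub, map_smul, A.PP]
  module

lemma DG.sg_d (A : DG k) (x : A.V) : A.sg (A.d x) = - A.d (A.sg x) := by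
  rw [DG.sg_apply, DG.sg_apply, A.Pd, map_sub, map_sub, map_smul]
  module

lemma DG.P_sg (A : DG k) (x : A.V) : A.P (A.sg x) = - A.P x := by
  rw [DG.sg_apply, map_sub, map_smul, A.PP]
  module

lemma DG.sg_P (A : DG k) (x : A.V) : A.sg (A.P x) = - A.P x := by
  rw [DG.sg_apply, A.PP]
  module

open TensorProduct in
/-- The tensor product. -/
noncomputable abbrev DG.tens (A B : DG k) : DG k where
  V := A.V ⊗[k] B.V
  d := map A.d LinearMap.id + map A.sg B.d
  P := map A.P LinearMap.id + map LinearMap.id B.P - (2 : k) • map A.P B.P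
  dd := by
    intro x
    induction x with
    | zero => rw [map_zero, map_zero]
    | add x y hx hy => rw [map_add, map_add, hx, hy, add_zero]
    | tmul a b =>
      simp only [LinearMap.add_apply, map_tmul, map_add, LinearMap.id_apply, A.dd, B.dd,
        A.sg_d, zero_tmul, tmul_zero, neg_tmul, zero_add, add_zero]
      module
  PP := by
    intro x
    induction x with
    | zero => rw [map_zero, map_zero]
    | add x y hx hy => rw [map_add, map_add, hx, hy]
    | tmul a b =>
      simp only [LinearMap.add_apply, LinearMap.sub_apply, LinearMap.smul_apply, map_tmul,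
        map_add, map_sub, map_smul, LinearMap.id_apply, A.PP, B.PP]
      module
  Pd := by
    intro x
    induction x with
    | zero => simp only [map_zero, sub_zero]
    | add x y hx hy =>
      rw [map_add, map_add, hx, hy, ← map_add]
      congr 1
      rw [map_add]
      abel
    | tmul a b =>
      simp only [LinearMap.add_apply, LinearMap.sub_apply, LinearMap.smul_apply, map_tmul,
        map_add, map_sub, map_smul, LinearMap.id_apply, A.PP, A.Pd, B.Pd, A.sg_apply,
        tmul_sub, sub_tmul, tmul_smul, ← smul_tmul', smul_sub, smul_smul]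
      module

lemma DG.tens_d (A B : DG k) (a : A.V) (b : B.V) :
    (A.tens B).d (a ⊗ₜ b) = A.d a ⊗ₜ b + A.sg a ⊗ₜ B.d b := rfl

lemma DG.tens_P (A B : DG k) (a : A.V) (b : B.V) :
    (A.tens B).P (a ⊗ₜ b) = A.P a ⊗ₜ b + a ⊗ₜ B.P b - (2 : k) • (A.P a ⊗ₜ B.P b) := rfl

lemma DG.tens_sg (A B : DG k) (a : A.V) (b : B.V) :
    (A.tens B).sg (a ⊗ₜ b) = A.sg a ⊗ₜ B.sg b := by
  change (a ⊗ₜ[k] b : A.V ⊗[k] B.V) - (2 : k) • (A.P a ⊗ₜ[k] b + a ⊗ₜ[k] B.P b -
    (2 : k) • (A.P a ⊗ₜ[k] B.P b)) = (a - (2 : k) • A.P a) ⊗ₜ[k] (b - (2 : k) • B.P b)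
  simp only [TensorProduct.tmul_sub, TensorProduct.sub_tmul, TensorProduct.tmul_smul,
    ← TensorProduct.smul_tmul']
  module

/-- Chain maps which preserve the parity. -/
structure IsCM (A B : DG k) (f : A.V →ₗ[k] B.V) : Prop where
  d : ∀ x, f (A.d x) = B.d (f x)
  P : ∀ x, f (A.P x) = B.P (f x)

/-- Homotopic maps. -/
def Hot (A B : DG k) (f g : A.V →ₗ[k] B.V) : Prop :=
  ∃ h : A.V →ₗ[k] B.V, ∀ x, f x - g x = B.d (h x) + h (A.d x)

open TensorProduct in
/-- The exchange `(A ⊗ B) ⊗ (C ⊗ D) → (A ⊗ C) ⊗ (B ⊗ D)` with the sign `(-1)^(|b| |c|)`. -/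
noncomputable def mid (A B C D : DG k) :
    (A.V ⊗[k] B.V) ⊗[k] (C.V ⊗[k] D.V) →ₗ[k] (A.V ⊗[k] C.V) ⊗[k] (B.V ⊗[k] D.V) :=
  (tensorTensorTensorComm k A.V B.V C.V D.V).toLinearMap ∘ₗ
    (LinearMap.id - (2 : k) • map (map LinearMap.id B.P) (map C.P LinearMap.id))

/-- The chains of `K` as a differential module with parity. -/
noncomputable abbrev chDG (k : Type) [CommRing k] (K : SS) : DG k where
  V := Ch k K
  d := bd k K
  P := od k K
  dd := bd_bd k
  PP := od_od k
  Pd := od_bd k

/-- A contraction of `A` onto the augmentation. -/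
structure Ctr (A : DG k) (ε : A.V →ₗ[k] k) where
  h : A.V →ₗ[k] A.V
  u : A.V
  rel : ∀ x, A.d (h x) + h (A.d x) = x - ε x • u
  odd : ∀ x, A.P (h x) = h (x - A.P x)
  εh : ∀ x, ε (h x) = 0
  εd : ∀ x, ε (A.d x) = 0
  εP : ∀ x, ε (A.P x) = 0
  εu : ε u = 1
  du : A.d u = 0
  Pu : A.P u = 0

/-- A splitting: a deformation retraction onto a module with zero differential. -/
structure Spl (A : DG k) where
  H : Type
  [ac : AddCommGroup H]
  [mo : Module k H]
  P : H →ₗ[k] H
  i : H →ₗ[k] A.V
  r : A.V →ₗ[k] H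
  s : A.V →ₗ[k] A.V
  di : ∀ x, A.d (i x) = 0
  rd : ∀ x, r (A.d x) = 0
  ri : ∀ x, r (i x) = x
  rel : ∀ x, A.d (s x) + s (A.d x) = x - i (r x)
  Ps : ∀ x, A.P (s x) = s (x - A.P x)
  Pi : ∀ x, A.P (i x) = i (P x)
  rP : ∀ x, r (A.P x) = P (r x)

attribute [instance] Spl.ac Spl.mo

/-- The tensor product of gradings. -/
def tgr {V W : Type} [AddCommGroup V] [Module k V] [AddCommGroup W] [Module k W]
    (g : ℕ → Submodule k V) (g' : ℕ → Submodule k W) (n : ℕ) : Submodule k (V ⊗[k] W) :=
  Submodule.span k {z | ∃ (i j : ℕ) (x : V) (y : W), i + j = n ∧ x ∈ g i ∧ y ∈ g' j ∧ z = x ⊗ₜ y}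

end DGs

/-! ## Alexander-Whitney -/

section AW

variable (k : Type) [CommRing k] (K L : SS)

/-- The front face. -/
def fr (i n : ℕ) : Fin (i + 1) → Fin (n + 1) := fun t => Fin.ofNat (n + 1) t

/-- The back face, starting at the vertex `i`. -/
def bk (i j n : ℕ) : Fin (j + 1) → Fin (n + 1) := fun t => Fin.ofNat (n + 1) (i + t)

/-- The Alexander-Whitney map. -/
noncomputable def aw : Ch k (K.prod L) →ₗ[k] Ch k K ⊗[k] Ch k L :=
  Finsupp.linearCombination k (fun x => ∑ p ∈ Finset.HasAntidiagonal.antidiagonal x.1,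
    sx k (K.act (fr p.1 x.1) x.2.1) ⊗ₜ[k] sx k (L.act (bk p.1 p.2 x.1) x.2.2))

/-- The coproduct. -/
noncomputable def dl : Ch k K →ₗ[k] Ch k K ⊗[k] Ch k K := aw k K K ∘ₗ cmap k (SSHom.diag K)

end AW

/-! ## Universal elements for the cross product -/

section EZ

/-- The alternating sum of the maps induced by the faces of the first factor. -/
noncomputable def fA (k : Type) [CommRing k] (p q : ℕ) (x : Ch k ((De p).prod (De q))) :
    Ch k ((De (p + 1)).prod (De q)) :=
  ∑ j : Fin (p + 2), (-1 : k) ^ (j : ℕ) • cmap k ((Ed.map j.succAbove).prod (SSHom.id (De q))) x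

/-- The alternating sum of the maps induced by the faces of the second factor. -/
noncomputable def fB (k : Type) [CommRing k] (p q : ℕ) (x : Ch k ((De p).prod (De q))) :
    Ch k ((De p).prod (De (q + 1))) :=
  ∑ j : Fin (q + 2), (-1 : k) ^ (j : ℕ) • cmap k ((SSHom.id (De p)).prod (Ed.map j.succAbove)) x

/-- A family of universal elements for the cross product. -/
structure EZ (e : ∀ p q : ℕ, Ch ℤ ((De p).prod (De q))) : Prop where
  hp0 : ∀ p, e p 0 = sx ℤ (K := (De p).prod (De 0)) (n := p)
    ((_root_.id : Fin (p + 1) → Fin (p + 1)), (fun _ => 0 : Fin (p + 1) → Fin 1))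
  h0q : ∀ q, e 0 q = sx ℤ (K := (De 0).prod (De q)) (n := q)
    ((fun _ => 0 : Fin (q + 1) → Fin 1), (_root_.id : Fin (q + 1) → Fin (q + 1)))
  rel : ∀ p q, bd ℤ _ (e (p + 1) (q + 1)) =
    fA ℤ p (q + 1) (e p (q + 1)) + (-1 : ℤ) ^ (p + 1) • fB ℤ (p + 1) q (e (p + 1) q)
  deg : ∀ p q, e p q ∈ gr ℤ ((De p).prod (De q)) (p + q)

variable (k : Type) [CommRing k] (e : ∀ p q : ℕ, Ch ℤ ((De p).prod (De q))) (K L : SS)

/-- Change of coefficients. -/
noncomputable def cc {M : SS} (x : Ch ℤ M) : Ch k M :=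
  Finsupp.mapRange (Int.castRingHom k) (map_zero _) x

/-- The cross product of two simplices. -/
noncomputable def nab1 (x : Σ n, K.K n) (y : Σ n, L.K n) : Ch k (K.prod L) :=
  cmap k ((K.ev x.2).prod (L.ev y.2)) (cc k (e x.1 y.1))

/-- The cross product. -/
noncomputable def nab : Ch k K ⊗[k] Ch k L →ₗ[k] Ch k (K.prod L) :=
  TensorProduct.lift (Finsupp.linearCombination k
    (fun x => (Finsupp.linearCombination k (nab1 k e K L x) : Ch k L →ₗ[k] Ch k (K.prod L))))

lemma nab_sx {p q : ℕ} (x : K.K p) (y : L.K q) : nab k e K L (sx k x ⊗ₜ sx k y) =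
    cmap k ((K.ev x).prod (L.ev y)) (cc k (e p q)) := by
  rw [nab, TensorProduct.lift.tmul, sx, sx, Finsupp.linearCombination_single, one_smul,
    Finsupp.linearCombination_single, one_smul]
  rfl

end EZ

/-! ## Functors of two simplicial sets and natural maps -/

/-- A functor of two simplicial sets with values in augmented differential modules. -/
structure Fn (k : Type) [CommRing k] where
  T : SS → SS → DG k
  map : ∀ {K K' L L' : SS}, SSHom K K' → SSHom L L' → (T K L).V →ₗ[k] (T K' L').V
  aug : ∀ K L : SS, (T K L).V →ₗ[k] k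
  map_comp : ∀ {K K' K'' L L' L'' : SS} (f : SSHom K K') (f' : SSHom K' K'') (g : SSHom L L')
    (g' : SSHom L' L'') (x : (T K L).V), map (f'.comp f) (g'.comp g) x = map f' g' (map f g x)
  map_id : ∀ (K L : SS) (x : (T K L).V), map (SSHom.id K) (SSHom.id L) x = x
  map_d : ∀ {K K' L L' : SS} (f : SSHom K K') (g : SSHom L L') (x : (T K L).V),
    map f g ((T K L).d x) = (T K' L').d (map f g x)
  aug_map : ∀ {K K' L L' : SS} (f : SSHom K K') (g : SSHom L L') (x : (T K L).V),
    aug K' L' (map f g x) = aug K L x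

/-- Natural chain maps `Ch K ⊗ Ch L → T K L`. -/
structure NMap {k : Type} [CommRing k] (F : Fn k) where
  f : ∀ K L : SS, Ch k K ⊗[k] Ch k L →ₗ[k] (F.T K L).V
  comm : ∀ (K L : SS) (z : Ch k K ⊗[k] Ch k L),
    f K L (((chDG k K).tens (chDG k L)).d z) = (F.T K L).d (f K L z)
  nat : ∀ {K K' L L' : SS} (φ : SSHom K K') (ψ : SSHom L L') (z : Ch k K ⊗[k] Ch k L),
    f K' L' (TensorProduct.map (cmap k φ) (cmap k ψ) z) = F.map φ ψ (f K L z)

end HEp
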