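import Pool.Agent.Lib.MP_181146_gt.HE.DefsS

/-!
# Project HE: further definitions for the topological part
-/

set_option autoImplicit false

namespace HEp

open scoped TensorProduct

/-- The constant map with value the vertex `v`. -/
def SSHom.cst (K : SS) {L : SS} (v : L.K 0) : SSHom K L where
  f := fun {n} _ => L.act (fun _ => 0 : Fin (n + 1) → Fin 1) v
  nat := fun a x => by rw [L.act_comp]; rfl

/-- The map into a product with given components. -/
def SSHom.pair {M K L : SS} (f : SSHom M K) (g : SSHom M L) : SSHom M (K.prod L) where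
  f := fun x => (f.f x, g.f x)
  nat := fun a x => by
    change (f.f (M.act a x), g.f (M.act a x)) = (K.act a (f.f x), L.act a (g.f x))
    rw [f.nat, g.nat]

section

variable {k : Type} [CommRing k]

/-- The augmentation of a tensor product. -/
noncomputable def augT {V W : Type} [AddCommGroup V] [Module k V] [AddCommGroup W] [Module k W]
    (ε : V →ₗ[k] k) (ε' : W →ₗ[k] k) : V ⊗[k] W →ₗ[k] k :=
  (TensorProduct.lid k k).toLinearMap ∘ₗ TensorProduct.map ε ε'

lemma augT_tmul {V W : Type} [AddCommGroup V] [Module k V] [AddCommGroup W] [Module k W]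
    (ε : V →ₗ[k] k) (ε' : W →ₗ[k] k) (x : V) (y : W) : augT ε ε' (x ⊗ₜ y) = ε x * ε' y := by
  rw [augT, LinearMap.comp_apply, TensorProduct.map_tmul]
  exact TensorProduct.lid_tmul _ _

/-- The exchange of the two middle factors of `(V ⊗ V) ⊗ (V ⊗ V)`, with the sign given by the
parity `P`. -/
noncomputable def exch {V : Type} [AddCommGroup V] [Module k V] (P : V →ₗ[k] V) :
    (V ⊗[k] V) ⊗[k] (V ⊗[k] V) →ₗ[k] (V ⊗[k] V) ⊗[k] (V ⊗[k] V) :=
  (TensorProduct.tensorTensorTensorComm k V V V V).toLinearMap ∘ₗ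
    (LinearMap.id - (2 : k) • TensorProduct.map (TensorProduct.map LinearMap.id P)
      (TensorProduct.map P LinearMap.id))

/-- `π` is homotopic to the identity by an odd homotopy. -/
structure HP (A : DG k) (π : A.V →ₗ[k] A.V) where
  cm : IsCM A A π
  s : A.V →ₗ[k] A.V
  rel : ∀ x, A.d (s x) + s (A.d x) = x - π x
  odd : ∀ x, A.P (s x) = s (x - A.P x)

end

lemma SSHom.prod_comp {K K' K'' L L' L'' : SS} (f : SSHom K K') (f' : SSHom K' K'')
    (g : SSHom L L') (g' : SSHom L' L'') :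
    (f'.comp f).prod (g'.comp g) = (f'.prod g').comp (f.prod g) := rfl

lemma SSHom.prod_id (K L : SS) : (SSHom.id K).prod (SSHom.id L) = SSHom.id (K.prod L) := rfl

lemma cmap_tmap_d (k : Type) [CommRing k] {K L : SS} (f : SSHom K L)
    (x : Ch k K ⊗[k] Ch k K) : TensorProduct.map (cmap k f) (cmap k f)
      (((chDG k K).tens (chDG k K)).d x) =
      ((chDG k L).tens (chDG k L)).d (TensorProduct.map (cmap k f) (cmap k f) x) := by
  induction x with
  | zero => simp only [map_zero]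
  | add x y hx hy => rw [map_add, map_add, hx, hy, map_add, map_add]
  | tmul a b =>
    have h1 : ((chDG k K).tens (chDG k K)).d (a ⊗ₜ b) =
      bd k K a ⊗ₜ[k] b + (a - (2 : k) • od k K a) ⊗ₜ[k] bd k K b := rfl
    have h2 : ((chDG k L).tens (chDG k L)).d (cmap k f a ⊗ₜ cmap k f b) =
      bd k L (cmap k f a) ⊗ₜ[k] cmap k f b +
        (cmap k f a - (2 : k) • od k L (cmap k f a)) ⊗ₜ[k] bd k L (cmap k f b) := rfl
    rw [TensorProduct.map_tmul, h2]
    refine Eq.trans (congrArg _ h1) ?_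
    rw [map_add, TensorProduct.map_tmul, TensorProduct.map_tmul, map_sub, map_smul, cmap_bd,
      cmap_bd, cmap_od]

/-- The functor `(K, L) ↦ Ch (K × L) ⊗ Ch (K × L)`. -/
noncomputable def F2 (k : Type) [CommRing k] : Fn k where
  T := fun K L => (chDG k (K.prod L)).tens (chDG k (K.prod L))
  map := fun f g => TensorProduct.map (cmap k (f.prod g)) (cmap k (f.prod g))
  aug := fun K L => augT (aug k (K.prod L)) (aug k (K.prod L))
  map_comp := by
    intro K K' K'' L L' L'' f f' g g' x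
    induction x using TensorProduct.induction_on with
    | zero => simp only [map_zero]
    | add x y hx hy => rw [map_add, hx, hy, map_add, map_add]
    | tmul a b =>
      change cmap k ((f'.comp f).prod (g'.comp g)) a ⊗ₜ[k]
        cmap k ((f'.comp f).prod (g'.comp g)) b =
        cmap k (f'.prod g') (cmap k (f.prod g) a) ⊗ₜ[k]
          cmap k (f'.prod g') (cmap k (f.prod g) b)
      rw [SSHom.prod_comp, cmap_comp, cmap_comp]
  map_id := by
    intro K L x
    induction x using TensorProduct.induction_on with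
    | zero => simp only [map_zero]
    | add x y hx hy => rw [map_add, hx, hy]
    | tmul a b =>
      change cmap k ((SSHom.id K).prod (SSHom.id L)) a ⊗ₜ[k]
        cmap k ((SSHom.id K).prod (SSHom.id L)) b = a ⊗ₜ b
      rw [SSHom.prod_id, cmap_id, cmap_id]
  map_d := fun f g x => cmap_tmap_d k (f.prod g) x
  aug_map := by
    intro K K' L L' f g x
    induction x using TensorProduct.induction_on with
    | zero => simp only [map_zero]
    | add x y hx hy => rw [map_add, map_add, map_add, hx, hy]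
    | tmul a b =>
      change augT _ _ (cmap k (f.prod g) a ⊗ₜ[k] cmap k (f.prod g) b) = augT _ _ (a ⊗ₜ b)
      rw [augT_tmul, augT_tmul, aug_cmap, aug_cmap]

/-- The alternating sum of the maps induced by the faces of the first simplex. -/
noncomputable def Fn.A {k : Type} [CommRing k] (F : Fn k) (p q : ℕ) :
    (F.T (De p) (De q)).V →ₗ[k] (F.T (De (p + 1)) (De q)).V :=
  ∑ j : Fin (p + 2), (-1 : k) ^ (j : ℕ) • F.map (Ed.map j.succAbove) (SSHom.id (De q))

/-- The alternating sum of the maps induced by the faces of the second simplex. -/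
noncomputable def Fn.B {k : Type} [CommRing k] (F : Fn k) (p q : ℕ) :
    (F.T (De p) (De q)).V →ₗ[k] (F.T (De p) (De (q + 1))).V :=
  ∑ j : Fin (q + 2), (-1 : k) ^ (j : ℕ) • F.map (SSHom.id (De p)) (Ed.map j.succAbove)

/-- The functor `(K, L) ↦ Ch (K × L)`. -/
noncomputable def F1 (k : Type) [CommRing k] : Fn k where
  T := fun K L => chDG k (K.prod L)
  map := fun f g => cmap k (f.prod g)
  aug := fun K L => aug k (K.prod L)
  map_comp := fun f f' g g' x => by rw [SSHom.prod_comp, cmap_comp]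
  map_id := fun K L x => by rw [SSHom.prod_id, cmap_id]
  map_d := fun f g x => cmap_bd k (f.prod g) x
  aug_map := fun f g x => aug_cmap k (f.prod g) x

lemma fA_eq (k : Type) [CommRing k] (p q : ℕ) (x : Ch k ((De p).prod (De q))) :
    fA k p q x = (F1 k).A p q x := by
  rw [Fn.A, LinearMap.sum_apply]
  rfl

lemma fB_eq (k : Type) [CommRing k] (p q : ℕ) (x : Ch k ((De p).prod (De q))) :
    fB k p q x = (F1 k).B p q x := by
  rw [Fn.B, LinearMap.sum_apply]
  rfl

/-- The product of chains defined by the multiplication `m`. -/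
noncomputable def mu (k : Type) [CommRing k] (e : ∀ p q : ℕ, Ch ℤ ((De p).prod (De q))) {K : SS}
    (m : SSHom (K.prod K) K) : Ch k K ⊗[k] Ch k K →ₗ[k] Ch k K :=
  cmap k m ∘ₗ nab k e K K

/-! ## Multiplications on complexes over the group ring -/

section MXs

variable {G : Type} [CommGroup G]

/-- A multiplication on a complex. -/
structure MX (X : ZCx (ZG G)) where
  M : ∀ i j n : ℤ, X.P i →+ X.P j →+ X.P n
  leib : ∀ (i j n : ℤ) (x : X.P i) (y : X.P j), X.d n (n - 1) (M i j n x y) =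
    M (i - 1) j (n - 1) (X.d i (i - 1) x) y +
      (i.negOnePow : ℤ) • M i (j - 1) (n - 1) x (X.d j (j - 1) y)
  mg : ∀ (g : G) (i j n : ℤ) (x : X.P i) (y : X.P j),
    M i j n (MonoidAlgebra.of ℤ G g • x) y = M i j n x (MonoidAlgebra.of ℤ G g • y)

/-- The duality property modulo all primes. -/
def MX.FRP {X : ZCx (ZG G)} (μ : MX X) : Prop :=
  ∀ (p : ℕ), p.Prime → ∀ (m : ℤ) (φ : X.P m →+ ZMod p),
    (∀ n, m < n → ∀ x : X.P n, X.CycP p n x → X.BdyP p n x) →
    (∀ z : X.P (m + 1), φ (X.d (m + 1) m z) = 0) → (∃ z, X.CycP p m z ∧ φ z ≠ 0) →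
    ∀ (i : ℤ) (x : X.P i), X.CycP p i x →
      (∀ y : X.P (m - i), X.CycP p (m - i) y → φ (μ.M i (m - i) m x y) = 0) → X.BdyP p i x

/-- The homology in degree `0` is torsion free. -/
def ZCx.H0F (X : ZCx (ZG G)) : Prop :=
  ∀ (p : ℕ), p.Prime → ∀ x : X.P 0, X.Bdy 0 ((p : ℤ) • x) → X.Bdy 0 x

/-- The homology in degree `d` is not a torsion group, in degrees `> d` it is a torsion group. -/
def ZCx.IsTop (X : ZCx (ZG G)) (d : ℤ) : Prop :=
  (∃ z : X.P d, X.Cyc d z ∧ ∀ n : ℤ, n ≠ 0 → ¬ X.Bdy d (n • z)) ∧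
  ∀ i, d < i → ∀ z : X.P i, X.Cyc i z → ∃ n : ℤ, n ≠ 0 ∧ X.Bdy i (n • z)

/-- A homotopy equivalence between `X` and the singular chains of `E`, compatible with the maps
`act g : E → E`. -/
structure TE (X : ZCx (ZG G)) (E : Type) [TopologicalSpace E] (act : G → C(E, E)) where
  f : ∀ i : ℤ, X.P i →+ Ch ℤ (Sing E)
  f' : ∀ i : ℤ, Ch ℤ (Sing E) →+ X.P i
  t : Ch ℤ (Sing E) →+ Ch ℤ (Sing E)
  h : ∀ i j : ℤ, X.P i →+ X.P j
  f_gr : ∀ (n : ℕ) (x : X.P n), f n x ∈ gr ℤ (Sing E) n
  f'_gr : ∀ (n : ℕ) (i : ℤ), i ≠ n → ∀ c ∈ gr ℤ (Sing E) n, f' i c = 0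
  t_gr : ∀ n : ℕ, ∀ c ∈ gr ℤ (Sing E) n, t c ∈ gr ℤ (Sing E) (n + 1)
  fd : ∀ (i : ℤ) (x : X.P i), f (i - 1) (X.d i (i - 1) x) = bd ℤ (Sing E) (f i x)
  f'd : ∀ (i : ℤ) (c : Ch ℤ (Sing E)), f' (i - 1) (bd ℤ (Sing E) c) = X.d i (i - 1) (f' i c)
  hX : ∀ (i : ℤ) (x : X.P i), f' i (f i x) - x =
    X.d (i + 1) i (h i (i + 1) x) + h (i - 1) i (X.d i (i - 1) x)
  ht : ∀ (n : ℕ), ∀ c ∈ gr ℤ (Sing E) n, f n (f' n c) - c =
    bd ℤ (Sing E) (t c) + t (bd ℤ (Sing E) c)
  fg : ∀ (g : G) (i : ℤ) (x : X.P i), f i (MonoidAlgebra.of ℤ G g • x) =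
    cmap ℤ (SingMap (act g)) (f i x)
  f'g : ∀ (g : G) (i : ℤ) (c : Ch ℤ (Sing E)), f' i (cmap ℤ (SingMap (act g)) c) =
    MonoidAlgebra.of ℤ G g • f' i c

end MXs

end HEp
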