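import Pool.Agent.Lib.MP_181146_gt.HE.SpecG

/-!
# Project HE: the Euler class of the dual complex (module ECdual, helper23)
-/

set_option autoImplicit false

namespace HEp

/-- The Euler class as a finite sum over all integers. -/
private theorem EC_fin {R : Type} [CommRing R] (X : ZCx R) :
    X.EC = ∑ᶠ i : ℤ, (i.negOnePow : ℤ) • cl R (X.P i) := by
  rw [ZCx.EC]
  refine (finsum_eq_sum_of_support_subset _ ?_).symm
  intro i hi
  by_contra hc
  apply hi
  have h1 : (X.N : ℤ) < |i| := by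
    by_contra hn
    apply hc
    rw [Finset.coe_Icc, Set.mem_Icc]
    exact abs_le.1 (not_lt.1 hn)
  have h2 := X.bdd i h1
  change (i.negOnePow : ℤ) • cl R (X.P i) = 0
  rw [cl_subsingleton, smul_zero]

theorem sECdual (hDual : S_Dual) (hDFp : S_DFp) : S_ECdual := by
  intro G _ _ X Y m hm D
  have h := finsum_comp_equiv (Equiv.subLeft m)
    (f := fun i : ℤ => (i.negOnePow : ℤ) • cl (ZG G) (X.P i))
  rw [EC_fin Y, EC_fin X, ← h, ← finsum_neg_distrib]
  refine finsum_congr fun i => ?_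
  obtain ⟨h1, h2⟩ := hDFp G (X.P (m - i))
  have h3 : cl (ZG G) (Y.P i) = - cl (ZG G) (X.P (m - i)) := by
    rw [cl_congr (D.e i), hDual]
  have h4 : (m - i).negOnePow = i.negOnePow := by
    rw [Int.negOnePow_sub, Int.negOnePow_even m hm, one_mul]
  change (i.negOnePow : ℤ) • cl (ZG G) (Y.P i) =
    -((((m - i).negOnePow : ℤˣ) : ℤ) • cl (ZG G) (X.P (m - i)))
  rw [h3, h4, smul_neg]

end HEp
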