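import Pool.Agent.Lib.MP_181146_gt.HE.SpecS

/-!
# Project HE: the coproduct is multiplicative up to homotopy (S_Hopf)
-/

set_option autoImplicit false

namespace HEp

open scoped TensorProduct

private lemma hopf_cm (e : ∀ p q : ℕ, Ch ℤ ((De p).prod (De q))) (he : EZ e) (k : Type)
    [CommRing k] (K : SS) (m : SSHom (K.prod K) K) (hNabD : S_NabD) (hNabG : S_NabG) :
    IsCM ((chDG k K).tens (chDG k K)) (chDG k K) (mu k e m) where
  d := fun z => by
    change cmap k m (nab k e K K (((chDG k K).tens (chDG k K)).d z)) =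
      bd k K (cmap k m (nab k e K K z))
    rw [hNabD e he k K K z, cmap_bd]
  P := fun z => by
    change cmap k m (nab k e K K (((chDG k K).tens (chDG k K)).P z)) =
      od k K (cmap k m (nab k e K K z))
    rw [(hNabG e he k K K).2 z, cmap_od]

private lemma hopf_map_comp {k : Type} [CommRing k] {U V W X : Type} [AddCommMonoid U]
    [Module k U] [AddCommMonoid V] [Module k V] [AddCommMonoid W] [Module k W] [AddCommMonoid X]
    [Module k X] (g : V →ₗ[k] W) (f : U →ₗ[k] V) (mm : U →ₗ[k] W) (hmm : mm = g ∘ₗ f)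
    (E : X →ₗ[k] U ⊗[k] U) (z : X) :
    (TensorProduct.map mm mm ∘ₗ E) z =
      TensorProduct.map g g (TensorProduct.map f f (E z)) := by
  subst hmm
  rw [TensorProduct.map_comp]
  rfl

private lemma hopf_mid_eq {k : Type} [CommRing k] (A : DG k) : mid A A A A = exch A.P := rfl

private lemma hopf_mid_ch (k : Type) [CommRing k] (K : SS)
    (z : (Ch k K ⊗[k] Ch k K) ⊗[k] (Ch k K ⊗[k] Ch k K)) : exch (od k K) z =
    mid (chDG k K) (chDG k K) (chDG k K) (chDG k K) z :=
  (LinearMap.congr_fun (hopf_mid_eq (chDG k K)) z).symm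

private lemma hopf_rhs (k : Type) [CommRing k] (e : ∀ p q : ℕ, Ch ℤ ((De p).prod (De q)))
    (K : SS) (m : SSHom (K.prod K) K) (z : Ch k K ⊗[k] Ch k K) :
    (TensorProduct.map (mu k e m) (mu k e m) ∘ₗ exch (od k K) ∘ₗ
      TensorProduct.map (dl k K) (dl k K)) z =
    TensorProduct.map (cmap k m) (cmap k m) (TensorProduct.map (nab k e K K) (nab k e K K)
      (exch (od k K) (TensorProduct.map (dl k K) (dl k K) z))) :=
  hopf_map_comp (cmap k m) (nab k e K K) (mu k e m) rfl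
    (exch (od k K) ∘ₗ TensorProduct.map (dl k K) (dl k K)) z

private lemma hopf_rhs2 (k : Type) [CommRing k] (e : ∀ p q : ℕ, Ch ℤ ((De p).prod (De q)))
    (K : SS) (m : SSHom (K.prod K) K) (z : Ch k K ⊗[k] Ch k K) (Ψ : NMap (F2 k))
    (hΨ : ∀ K L z, Ψ.f K L z =
        TensorProduct.map (nab k e K L) (nab k e K L)
          (mid (chDG k K) (chDG k K) (chDG k L) (chDG k L)
            (TensorProduct.map (dl k K) (dl k L) z))) :
    (TensorProduct.map (mu k e m) (mu k e m) ∘ₗ exch (od k K) ∘ₗ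
      TensorProduct.map (dl k K) (dl k K)) z =
      TensorProduct.map (cmap k m) (cmap k m) (Ψ.f K K z) := by
  refine (hopf_rhs k e K m z).trans ?_
  refine congrArg (TensorProduct.map (cmap k m) (cmap k m)) ?_
  refine Eq.trans ?_ (hΨ K K z).symm
  exact congrArg (TensorProduct.map (nab k e K K) (nab k e K K)) (hopf_mid_ch k K _)

private lemma hopf_lhs (k : Type) [CommRing k] (e : ∀ p q : ℕ, Ch ℤ ((De p).prod (De q)))
    (K : SS) (m : SSHom (K.prod K) K) (z : Ch k K ⊗[k] Ch k K) (Φ : NMap (F2 k))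
    (hΦ : ∀ K L z, Φ.f K L z = dl k (K.prod L) (nab k e K L z)) (hDlG : S_DlG) :
    (dl k K ∘ₗ mu k e m) z = TensorProduct.map (cmap k m) (cmap k m) (Φ.f K K z) := by
  refine Eq.trans ?_ (congrArg (TensorProduct.map (cmap k m) (cmap k m)) (hΦ K K z)).symm
  exact ((hDlG k (K.prod K)).2.2.2 K m (nab k e K K z)).symm

/-- The homotopy obtained from a homotopy of the natural maps. -/
private lemma hopf_hot (k : Type) [CommRing k] (K : SS) (m : SSHom (K.prod K) K) (Φ Ψ : NMap (F2 k))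
    (h : ((chDG k K).tens (chDG k K)).V →ₗ[k] ((F2 k).T K K).V)
    (hh : ∀ x, Φ.f K K x - Ψ.f K K x =
      ((F2 k).T K K).d (h x) + h (((chDG k K).tens (chDG k K)).d x))
    (z : Ch k K ⊗[k] Ch k K) :
    TensorProduct.map (cmap k m) (cmap k m) (Φ.f K K z) -
      TensorProduct.map (cmap k m) (cmap k m) (Ψ.f K K z) =
      ((chDG k K).tens (chDG k K)).d (TensorProduct.map (cmap k m) (cmap k m) (h z)) +
        TensorProduct.map (cmap k m) (cmap k m) (h (((chDG k K).tens (chDG k K)).d z)) := by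
  have h1 := congrArg (TensorProduct.map (cmap k m) (cmap k m)) (hh z)
  refine (map_sub (TensorProduct.map (cmap k m) (cmap k m)) _ _).symm.trans (h1.trans ?_)
  refine (map_add (TensorProduct.map (cmap k m) (cmap k m)) _ _).trans ?_
  exact congrArg (· + _) (cmap_tmap_d k m (h z))

theorem sHopf (hUN : S_UN) (hPhi : S_Phi) (hPsi : S_Psi) (hCon : S_Con) (hCtrT : S_CtrT)
    (hDlG : S_DlG) (hMid : S_Mid) (hNabD : S_NabD) (hNabG : S_NabG) (hTCM : S_TCM) : S_Hopf := by
  intro e he k _ K m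
  refine ⟨hopf_cm e he k K m hNabD hNabG, ?_⟩
  obtain ⟨Φ, hΦ, hΦa⟩ := hPhi e he k
  obtain ⟨Ψ, hΨ, hΨa⟩ := hPsi e he k
  have hc : ∀ p q : ℕ, Nonempty (Ctr ((F2 k).T (De p) (De q)) ((F2 k).aug (De p) (De q))) := by
    intro p q
    obtain ⟨C, _⟩ := hCon k p q
    exact hCtrT k _ _ _ _ C C
  obtain ⟨h, hh⟩ := hUN k (F2 k) hc Φ Ψ
    (fun K L z => (hΦa K L z).trans (hΨa K L z).symm) K K
  refine ⟨TensorProduct.map (cmap k m) (cmap k m) ∘ₗ h, fun z => ?_⟩
  rw [hopf_lhs k e K m z Φ hΦ hDlG, hopf_rhs2 k e K m z Ψ hΨ]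
  exact hopf_hot k K m Φ Ψ h hh z

end HEp
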