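import Pool.Agent.Lib.MP_181146_gt.HE.SpecS

/-!
# Project HE, Lift: the multiplication on the universal covering
-/

set_option autoImplicit false

namespace HEp

private theorem Lift_scp (E : Type) [TopologicalSpace E] [SimplyConnectedSpace E] :
    SimplyConnectedSpace (E × E) := by
  rw [simply_connected_iff_paths_homotopic]
  refine ⟨⟨⟨(Classical.arbitrary E, Classical.arbitrary E)⟩, ?_⟩, ?_⟩
  · rintro ⟨x, y⟩ ⟨x', y'⟩
    exact ⟨(PathConnectedSpace.somePath x x').prod (PathConnectedSpace.somePath y y')⟩
  · rintro ⟨x, y⟩ ⟨x', y'⟩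
    refine ⟨fun a b => ?_⟩
    rw [← Path.Homotopic.prod_projLeft_projRight a, ← Path.Homotopic.prod_projLeft_projRight b]
    have h1 : Path.Homotopic.projLeft a = Path.Homotopic.projLeft b :=
      Subsingleton.elim (α := Path.Homotopic.Quotient x x') _ _
    have h2 : Path.Homotopic.projRight a = Path.Homotopic.projRight b :=
      Subsingleton.elim (α := Path.Homotopic.Quotient y y') _ _
    rw [h1, h2]

theorem sLift : S_Lift := by
  intro X E _ _ _ _ _ p hp e μ hμ
  obtain ⟨F, hF1, hF2, hF3⟩ := hμ
  have hscp : SimplyConnectedSpace (E × E) := Lift_scp E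
  -- a point over `e`
  obtain ⟨e', he'⟩ : ∃ e', p e' = e := by
    obtain ⟨x0⟩ : Nonempty E := inferInstance
    let σ : Path (p x0) e := PathConnectedSpace.somePath _ _
    have hσ0 : (σ : C(unitInterval, X)) 0 = p x0 := σ.source
    refine ⟨hp.liftPath (σ : C(unitInterval, X)) x0 hσ0 1, ?_⟩
    have h := congr_fun (hp.liftPath_lifts (σ : C(unitInterval, X)) x0 hσ0) 1
    exact h.trans σ.target
  have hpc := hp.continuous
  -- the two homotopies
  let wA : E → HSp.Wedge X e := fun x => ⟨(p x, e), Or.inr rfl⟩
  let wB : E → HSp.Wedge X e := fun x => ⟨(e, p x), Or.inl rfl⟩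
  have hwA : Continuous wA := Continuous.subtype_mk (hpc.prodMk continuous_const) _
  have hwB : Continuous wB := Continuous.subtype_mk (continuous_const.prodMk hpc) _
  let KA : C(unitInterval × E, X) :=
    ⟨fun z => F (z.1, wA z.2), F.continuous.comp (continuous_fst.prodMk (hwA.comp continuous_snd))⟩
  let KB : C(unitInterval × E, X) :=
    ⟨fun z => F (z.1, wB z.2), F.continuous.comp (continuous_fst.prodMk (hwB.comp continuous_snd))⟩
  have hKA0 : ∀ a : E, KA (0, a) = p ((ContinuousMap.id E) a) := fun a => hF1 (p a)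
  have hKB0 : ∀ a : E, KB (0, a) = p ((ContinuousMap.id E) a) := fun a => hF2 (p a)
  let A : C(unitInterval × E, E) := hp.liftHomotopy KA (ContinuousMap.id E) hKA0
  let B : C(unitInterval × E, E) := hp.liftHomotopy KB (ContinuousMap.id E) hKB0
  have hAl : ∀ s x, p (A (s, x)) = F (s, wA x) := fun s x =>
    congr_fun (hp.liftHomotopy_lifts KA (ContinuousMap.id E) hKA0) (s, x)
  have hBl : ∀ s x, p (B (s, x)) = F (s, wB x) := fun s x =>
    congr_fun (hp.liftHomotopy_lifts KB (ContinuousMap.id E) hKB0) (s, x)
  have hAz : ∀ x, A (0, x) = x := fun x => hp.liftHomotopy_zero KA (ContinuousMap.id E) hKA0 x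
  have hBz : ∀ x, B (0, x) = x := fun x => hp.liftHomotopy_zero KB (ContinuousMap.id E) hKB0 x
  have hw : wA e' = wB e' := Subtype.ext (Prod.ext he' he'.symm)
  have hAB : ∀ s, A (s, e') = B (s, e') := by
    have h : (fun s => A (s, e')) = fun s => B (s, e') := by
      refine hp.eq_of_comp_eq (by fun_prop) (by fun_prop) ?_ 0 ?_
      · funext s
        change p (A (s, e')) = p (B (s, e'))
        rw [hAl, hBl, hw]
      · rw [hAz, hBz]
    exact fun s => congr_fun h s
  -- equivariance
  have hAg : ∀ (g : HSp.Deck p) (s : unitInterval) (x : E), A (s, g.1 x) = g.1 (A (s, x)) := by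
    intro g s x
    have h : (fun s => A (s, g.1 x)) = fun s => g.1 (A (s, x)) := by
      refine hp.eq_of_comp_eq (by fun_prop) (g.1.continuous.comp (by fun_prop)) ?_ 0 ?_
      · funext s
        change p (A (s, g.1 x)) = p (g.1 (A (s, x)))
        rw [g.2 (A (s, x)), hAl, hAl]
        have : wA (g.1 x) = wA x := Subtype.ext (Prod.ext (g.2 x) rfl)
        rw [this]
      · rw [hAz, hAz]
    exact congr_fun h s
  have hBg : ∀ (g : HSp.Deck p) (s : unitInterval) (x : E), B (s, g.1 x) = g.1 (B (s, x)) := by
    intro g s x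
    have h : (fun s => B (s, g.1 x)) = fun s => g.1 (B (s, x)) := by
      refine hp.eq_of_comp_eq (by fun_prop) (g.1.continuous.comp (by fun_prop)) ?_ 0 ?_
      · funext s
        change p (B (s, g.1 x)) = p (g.1 (B (s, x)))
        rw [g.2 (B (s, x)), hBl, hBl]
        have : wB (g.1 x) = wB x := Subtype.ext (Prod.ext rfl (g.2 x))
        rw [this]
      · rw [hBz, hBz]
    exact congr_fun h s
  -- the multiplication
  let f : C(E × E, X) := ⟨fun z => μ (p z.1, p z.2),
    μ.continuous.comp ((hpc.comp continuous_fst).prodMk (hpc.comp continuous_snd))⟩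
  have hA1 : ∀ x, p (A (1, x)) = μ (p x, e) := fun x => (hAl 1 x).trans (hF3 (wA x))
  have hB1 : ∀ x, p (B (1, x)) = μ (e, p x) := fun x => (hBl 1 x).trans (hF3 (wB x))
  have he'' : p (A (1, e')) = f (e', e') := by
    rw [hA1]
    change μ (p e', e) = μ (p e', p e')
    rw [he']
  obtain ⟨m, ⟨hm1, hm2⟩, -⟩ := hp.existsUnique_continuousMap_lifts f (e', e') (A (1, e')) he''
  have hm : ∀ x y, p (m (x, y)) = μ (p x, p y) := fun x y => congr_fun hm2 (x, y)
  have hmA : ∀ x, A (1, x) = m (x, e') := by
    have h : (fun x => A (1, x)) = fun x => m (x, e') := by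
      refine hp.eq_of_comp_eq (by fun_prop) (by fun_prop) ?_ e' ?_
      · funext x
        change p (A (1, x)) = p (m (x, e'))
        rw [hA1, hm, he']
      · exact hm1.symm
    exact fun x => congr_fun h x
  have hmB : ∀ x, B (1, x) = m (e', x) := by
    have h : (fun x => B (1, x)) = fun x => m (e', x) := by
      refine hp.eq_of_comp_eq (by fun_prop) (by fun_prop) ?_ e' ?_
      · funext x
        change p (B (1, x)) = p (m (e', x))
        rw [hB1, hm, he']
      · rw [← hAB]
        exact hm1.symm
    exact fun x => congr_fun h x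
  refine ⟨e', m, ?_, ?_, ?_⟩
  · exact ⟨{ toContinuousMap := A
             map_zero_left := fun x => hAz x
             map_one_left := fun x => hmA x }⟩
  · exact ⟨{ toContinuousMap := B
             map_zero_left := fun x => hBz x
             map_one_left := fun x => hmB x }⟩
  · intro g x y
    constructor
    · have h : (fun z : E × E => m (g.1 z.1, z.2)) = fun z => g.1 (m z) := by
        refine hp.eq_of_comp_eq ?_ (g.1.continuous.comp m.continuous) ?_ (e', e') ?_
        · exact m.continuous.comp ((g.1.continuous.comp continuous_fst).prodMk continuous_snd)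
        · funext z
          change p (m (g.1 z.1, z.2)) = p (g.1 (m z))
          rw [g.2 (m z), hm, g.2 z.1]
          exact (hm z.1 z.2).symm
        · change m (g.1 e', e') = g.1 (m (e', e'))
          rw [← hmA, ← hmA, hAg]
      exact congr_fun h (x, y)
    · have h : (fun z : E × E => m (z.1, g.1 z.2)) = fun z => g.1 (m z) := by
        refine hp.eq_of_comp_eq ?_ (g.1.continuous.comp m.continuous) ?_ (e', e') ?_
        · exact m.continuous.comp (continuous_fst.prodMk (g.1.continuous.comp continuous_snd))
        · funext z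
          change p (m (z.1, g.1 z.2)) = p (g.1 (m z))
          rw [g.2 (m z), hm, g.2 z.2]
          exact (hm z.1 z.2).symm
        · change m (e', g.1 e') = g.1 (m (e', e'))
          rw [← hmB, ← hmB, hBg]
      exact congr_fun h (x, y)

end HEp
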