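import Pool.Agent.Lib.MP_181146_gt.HE.SpecS
import Pool.Agent.Lib.MP_181146_gt.HS.Spec

set_option autoImplicit false

namespace HEp

open HSp

private lemma PNx_comm {E : Type} [TopologicalSpace E] {Γ : Subgroup (E ≃ₜ E)} (hN : PropN Γ)
    (a g : Γ) : g * a = a * g := by
  obtain ⟨H, -, h1, h2⟩ := hN g
  apply Subtype.ext
  apply Homeomorph.ext
  intro x
  have h3 := h2 a 1 x
  rw [h1, h1] at h3
  exact h3

private lemma PNx_central {E : Type} [TopologicalSpace E] {Γ : Subgroup (E ≃ₜ E)} (hN : PropN Γ)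
    (g : Γ) (a : MonoidAlgebra ℤ Γ) :
    (MonoidAlgebra.of ℤ Γ g - 1) * a = a * (MonoidAlgebra.of ℤ Γ g - 1) := by
  have h : MonoidAlgebra.of ℤ Γ g * a = a * MonoidAlgebra.of ℤ Γ g := by
    induction a using MonoidAlgebra.induction_on with
    | of b => rw [← map_mul, ← map_mul, PNx_comm hN b g]
    | add b c hb hc => rw [mul_add, add_mul, hb, hc]
    | smul r b hb => rw [mul_smul_comm, smul_mul_assoc, hb]
  rw [sub_mul, mul_sub, h, one_mul, mul_one]

theorem sPNx (hTS : HSp.S_TS) (hTH : HSp.S_TH) : S_PNx := by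
  intro E _ Γ hN P heq g
  obtain ⟨e⟩ := heq
  obtain ⟨hh, h0, h1⟩ := hTS E Γ hN g
  obtain ⟨h, k0, k1⟩ := hTH (MonoidAlgebra ℤ Γ) (singL Γ) P e (MonoidAlgebra.of ℤ Γ g - 1)
    (PNx_central hN g) hh h0 h1
  refine ⟨h, fun x => ?_, fun i x => ?_⟩
  · rw [k0, sub_smul, one_smul]
  · rw [k1, sub_smul, one_smul]

end HEp
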