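import Pool.Agent.Lib.MP_181146_gt.HE.SpecS

set_option autoImplicit false

namespace HEp

open Pool.Agent.Lib.SingHom

private lemma SH0_coord (a : Fin (0 + 1) → Fin (1 + 1)) (t : Sx 0) :
    (smap a t) 1 = if a 0 = 1 then 1 else 0 := by
  rw [smap_eq_aff, aff_apply, Fin.sum_univ_one]
  have h1 : t 0 = 1 := by
    have := stdSimplex.sum_eq_one t
    rwa [Fin.sum_univ_one] at this
  rw [h1, one_mul, stdSimplex.vertex_coe, Pi.single_apply]
  by_cases h : a 0 = 1
  · rw [if_pos h, if_pos h.symm]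
  · rw [if_neg h, if_neg (fun h' => h h'.symm)]

private lemma SH0_pt {E : Type} [TopologicalSpace E] (σ : C(Sx 0, E)) :
    ∃ x : E, σ = vtx x := by
  refine ⟨σ (stdSimplex.vertex 0), ?_⟩
  apply ContinuousMap.ext
  intro t
  have h : t = stdSimplex.vertex 0 := by
    apply stdSimplex.ext
    funext i
    have h1 : t 0 = 1 := by
      have := stdSimplex.sum_eq_one t
      rwa [Fin.sum_univ_one] at this
    have hi : i = 0 := by omega
    rw [hi, h1, stdSimplex.vertex_coe, Pi.single_eq_same]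
  change σ t = σ (stdSimplex.vertex 0)
  rw [h]

private lemma SH0_edge {E : Type} [TopologicalSpace E] {v x : E} (γ : Path v x) :
    ∃ τ : (Sing E).K 1, (Sing E).act (0 : Fin 2).succAbove τ = vtx x ∧
      (Sing E).act (1 : Fin 2).succAbove τ = vtx v := by
  let τ : C(Sx 1, E) := ⟨fun t => γ.extend (t 1), γ.continuous_extend.comp
    ((continuous_apply 1).comp continuous_subtype_val)⟩
  refine ⟨τ, ?_, ?_⟩
  · apply ContinuousMap.ext
    intro t
    change γ.extend ((smap (0 : Fin 2).succAbove t) 1) = x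
    rw [SH0_coord, if_pos (by decide)]
    exact γ.extend_one
  · apply ContinuousMap.ext
    intro t
    change γ.extend ((smap (1 : Fin 2).succAbove t) 1) = v
    rw [SH0_coord, if_neg (by decide)]
    exact γ.extend_zero

theorem sSH0 : S_SH0 := by
  intro k _ E _ _ v x hx
  have hspan : gr k (Sing E) 0 = Submodule.span k
      ((fun i : Σ n, (Sing E).K n => (Finsupp.single i 1 : Ch k (Sing E))) '' {x | x.1 = 0}) :=
    Finsupp.supported_eq_span_single k _
  rw [hspan] at hx
  induction hx using Submodule.span_induction with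
  | mem z hz =>
    obtain ⟨⟨n, σ⟩, hn, rfl⟩ := hz
    have hn' : n = 0 := hn
    subst hn'
    obtain ⟨x, rfl⟩ := SH0_pt σ
    obtain ⟨τ, h0, h1⟩ := SH0_edge (PathConnectedSpace.somePath v x)
    refine ⟨sx k τ, ?_⟩
    change sx k (vtx x) - aug k (Sing E) (sx k (vtx x)) • sx k (vtx v) = _
    rw [aug_sx_zero, one_smul, bd_sx, Fin.sum_univ_two, h0, h1]
    simp [sub_eq_add_neg]
  | zero => exact ⟨0, by rw [map_zero, map_zero, zero_smul, sub_zero]⟩
  | add a b _ _ ha hb =>
    obtain ⟨y, hy⟩ := ha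
    obtain ⟨z, hz⟩ := hb
    refine ⟨y + z, ?_⟩
    rw [map_add, map_add, ← hy, ← hz, add_smul]
    abel
  | smul c a _ ha =>
    obtain ⟨y, hy⟩ := ha
    refine ⟨c • y, ?_⟩
    rw [map_smul, map_smul, ← hy, smul_sub, smul_assoc]

end HEp
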