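import Pool.Agent.Lib.MP_181146_gt.HS.Slim

/-!
# Project HE: short definitions for the statement of the result
-/

set_option autoImplicit false

namespace HSp

/-- `z` is a singular cycle of degree `i`. -/
def IsCyS (E : Type) [TopologicalSpace E] : ∀ i : ℕ, SI E i → Prop
  | 0, _ => True
  | i + 1, z => bdS E i z = 0

/-- `d` is the top degree of the rational homology of `E`: there is a cycle of degree `d` no nonzero
multiple of which is a boundary, and every cycle of a degree `> d` has a nonzero multiple which is a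
boundary. -/
def IsTopS (E : Type) [TopologicalSpace E] (d : ℕ) : Prop :=
  (∃ z : SI E d, IsCyS E d z ∧ ∀ n : ℤ, n ≠ 0 → ∀ w, bdS E d w ≠ n • z) ∧
  ∀ i, d < i → ∀ z : SI E i, IsCyS E i z → ∃ n : ℤ, n ≠ 0 ∧ ∃ w, bdS E i w = n • z

/-- `(⊕ C_{2j})^n ⊕ R^a ≅ (⊕ C_{2j+1})^n ⊕ R^b` as `R`-modules, `0 ≤ j < K`. -/
def Cpl.StEqN {R : Type} [Ring R] (C : Cpl R) (K n a b : ℕ) : Prop :=
  Nonempty (((Fin n → ∀ j : Fin K, C.X (2 * j)) × (Fin a → R)) ≃ₗ[R]
    ((Fin n → ∀ j : Fin K, C.X (2 * j + 1)) × (Fin b → R)))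

end HSp
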