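import Pool.Agent.Lib.MP_181146_gt.HE.SpecS

/-!
# Project HE: the data of a homotopy equivalence, as additive maps
-/

set_option autoImplicit false

namespace HEp

open CategoryTheory

section UA

variable {E : Type} [TopologicalSpace E] (Γ : Subgroup (E ≃ₜ E))
  (P : ChainComplex (ModuleCat.{0} (MonoidAlgebra ℤ Γ)) ℕ)

private noncomputable def UA_u (T : HomotopyEquiv P (HSp.singL Γ)) (i : ℕ) :
    P.X i →+ (HSp.SC E).X i where
  toFun x := (T.hom.f i).hom x
  map_zero' := map_zero (T.hom.f i).hom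
  map_add' x y := map_add (T.hom.f i).hom x y

private noncomputable def UA_u' (T : HomotopyEquiv P (HSp.singL Γ)) (i : ℕ) :
    (HSp.SC E).X i →+ P.X i where
  toFun x := (T.inv.f i).hom x
  map_zero' := map_zero (T.inv.f i).hom
  map_add' x y := map_add (T.inv.f i).hom x y

private noncomputable def UA_a (T : HomotopyEquiv P (HSp.singL Γ)) (i : ℕ) :
    P.X i →+ P.X (i + 1) where
  toFun x := (T.homotopyHomInvId.hom i (i + 1)).hom x
  map_zero' := map_zero (T.homotopyHomInvId.hom i (i + 1)).hom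
  map_add' x y := map_add (T.homotopyHomInvId.hom i (i + 1)).hom x y

private noncomputable def UA_b (T : HomotopyEquiv P (HSp.singL Γ)) (i : ℕ) :
    (HSp.SC E).X i →+ (HSp.SC E).X (i + 1) where
  toFun x := (T.homotopyInvHomId.hom i (i + 1)).hom x
  map_zero' := map_zero (T.homotopyInvHomId.hom i (i + 1)).hom
  map_add' x y := map_add (T.homotopyInvHomId.hom i (i + 1)).hom x y

/-- The relations of a homotopy of `f ≫ g` to the identity. -/
private lemma UA_hom {R : Type} [Ring R] {A B : ChainComplex (ModuleCat.{0} R) ℕ}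
    (f : A ⟶ B) (g : B ⟶ A) (h : Homotopy (f ≫ g) (𝟙 A)) :
    (∀ x : A.X 0, (g.f 0).hom ((f.f 0).hom x) - x = (A.d 1 0).hom ((h.hom 0 1).hom x)) ∧
    (∀ (i : ℕ) (x : A.X (i + 1)), (g.f (i + 1)).hom ((f.f (i + 1)).hom x) - x =
      (A.d (i + 2) (i + 1)).hom ((h.hom (i + 1) (i + 2)).hom x) +
        (h.hom i (i + 1)).hom ((A.d (i + 1) i).hom x)) := by
  constructor
  · intro x
    have h0 := h.comm 0
    rw [Homotopy.dNext_zero_chainComplex, Homotopy.prevD_chainComplex] at h0
    have h' := congrArg (fun g => g.hom x) h0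
    have h2 : (g.f 0).hom ((f.f 0).hom x) = (A.d 1 0).hom ((h.hom 0 1).hom x) + x := by
      simpa using h'
    rw [h2]
    abel
  · intro i x
    have h0 := h.comm (i + 1)
    rw [Homotopy.dNext_succ_chainComplex, Homotopy.prevD_chainComplex] at h0
    have h' := congrArg (fun g => g.hom x) h0
    have h2 : (g.f (i + 1)).hom ((f.f (i + 1)).hom x) =
      (h.hom i (i + 1)).hom ((A.d (i + 1) i).hom x) +
        (A.d (i + 2) (i + 1)).hom ((h.hom (i + 1) (i + 2)).hom x) + x := by
      simpa using h'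
    rw [h2]
    abel

private lemma UA_comm {R : Type} [Ring R] {A B : ChainComplex (ModuleCat.{0} R) ℕ}
    (f : A ⟶ B) (i : ℕ) (x : A.X (i + 1)) : (f.f i).hom ((A.d (i + 1) i).hom x) =
      (B.d (i + 1) i).hom ((f.f (i + 1)).hom x) := by
  have := f.comm (i + 1) i
  exact (congrArg (fun g => g.hom x) this).symm

/-- The action of a group element. -/
private lemma UA_of (g : Γ) (i : ℕ) (x : HSp.SX Γ i) :
    MonoidAlgebra.of ℤ Γ g • x = ((HSp.SCmap (g.1 : C(E, E))).f i).hom x := by
  rw [HSp.SX_smul_def]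
  have h : HSp.rho Γ i (MonoidAlgebra.of ℤ Γ g) = HSp.rhoM Γ i g := by
    change MonoidAlgebra.lift ℤ (Module.End ℤ ((HSp.SC E).X i)) Γ (HSp.rhoM Γ i) _ = _
    exact MonoidAlgebra.lift_of _ _
  rw [h]
  rfl

end UA

theorem sUA : S_UA := by
  intro E _ Γ P heq
  obtain ⟨T⟩ := heq
  have hP := UA_hom T.hom T.inv T.homotopyHomInvId
  have hS := UA_hom T.inv T.hom T.homotopyInvHomId
  refine ⟨UA_u Γ P T, UA_u' Γ P T, UA_a Γ P T, UA_b Γ P T, ?_, ?_, hP.1, hP.2, ?_, ?_, ?_, ?_⟩
  · intro i x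
    exact UA_comm T.hom i x
  · intro i x
    exact UA_comm T.inv i x
  · intro x
    exact hS.1 x
  · intro i x
    exact hS.2 i x
  · intro g i x
    refine Eq.trans (map_smul (T.hom.f i).hom (MonoidAlgebra.of ℤ Γ g) x) ?_
    exact UA_of Γ g i _
  · intro g i x
    have h := map_smul (T.inv.f i).hom (MonoidAlgebra.of ℤ Γ g)
      (show (HSp.singL Γ).X i from x)
    refine Eq.trans ?_ h
    have h1 := UA_of Γ g i (show HSp.SX Γ i from x)
    exact congrArg (T.inv.f i).hom h1.symm

end HEp
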